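import Pool.Agent.Helper57K9.XZ.AbpB

/-!
# Leaf ABP (helper30): after `n ^ 10` rounds a zombie is absorbed
-/

set_option autoImplicit false

namespace Pool.Agent.Helper57K9.XZ
namespace AbpL

open Finset Pool.Agent.Helper5K9.ZN

variable {n : ℕ} {e : ℕ → Bool}

/-! ### behind the survivor -/

/-- behind the survivor, at distance `L` -/
def Dom (n : ℕ) (L : ℤ) : Set (ℤ × ℤ) := {d | d ∈ Boxn n ∧ d.1 ≤ 0 ∧ d.2 ≤ 0 ∧ -d.1 - d.2 = L}

/-- in the front, near an axis (depending on `L`) -/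
def ZT (n : ℕ) (L : ℤ) : Set (ℤ × ℤ) := {q | (0 < q.1 ∧ q.2 ≤ 0 ∧ -2 * q.2 ≤ 2 * L - n + 2) ∨
  (0 < q.2 ∧ q.1 ≤ 0 ∧ -2 * q.1 ≤ 2 * L - n + 2)}

theorem Dom_swap {L : ℤ} {d : ℤ × ℤ} : d.swap ∈ Dom n L ↔ d ∈ Dom n L := by
  simp only [Dom, Set.mem_ofPred_eq, mem_Boxn, Prod.fst_swap, Prod.snd_swap]
  constructor <;> rintro ⟨⟨h1, h2⟩, h3, h4, h5⟩ <;> exact ⟨⟨h2, h1⟩, h4, h3, by omega⟩

theorem ZT_swap {L : ℤ} {d : ℤ × ℤ} : d.swap ∈ ZT n L ↔ d ∈ ZT n L := by
  simp only [ZT, Set.mem_ofPred_eq, Prod.fst_swap, Prod.snd_swap]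
  exact or_comm

theorem beh_east (hn : 5 ≤ n) {L : ℤ} (hL : (n : ℤ) - 2 ≤ 2 * L) {s : ℕ} {d : ℤ × ℤ}
    (hd : d ∈ Dom n L) (he : e s = true) :
    (∀ u, nx n e s u d ∈ Dom n L ∨ nx n e s u d ∈ ZT n L) ∧
      (nx n e s 0 d ∈ ZT n L ∨ ∀ u, nx n e s u d ∈ Dom n L ∧
        nx n e s u d = if bt u = true then d else (d.1 - 1, d.2 + 1)) := by
  obtain ⟨hb, h1, h2, h3⟩ := hd
  have hb' := mem_Boxn.1 hb
  have hbx : ∀ u, nx n e s u d ∈ Boxn n := nx_box (by omega) hb s
  unfold nx at hbx ⊢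
  rw [he] at hbx ⊢
  by_cases hA : -(n : ℤ) < 2 * (d.1 - 1)
  · have hq : smg n true d = (d.1 - 1, d.2) := by
      rw [smg_true, wrn_nt hA (by omega)]
    have h4 : d.2 < 0 := by omega
    have hz : ∀ u, zu n u (smg n true d) = if bt u = true then d else (d.1 - 1, d.2 + 1) := by
      intro u
      rw [hq, zu_nt (by simp only; omega) (by simp only; omega)]
      simp only
      rw [if_congr (or_iff_right h4.ne) rfl rfl, Int.sign_eq_neg_one_of_neg h4,
        Int.sign_eq_neg_one_of_neg (by omega : d.1 - 1 < 0)]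
      by_cases hbt : bt u = true
      · rw [if_pos ⟨hbt, by omega⟩, if_pos hbt]
        ext <;> simp
      · rw [if_neg (fun h => hbt h.1), if_neg hbt]
        ext <;> simp
    have hD : ∀ u, zu n u (smg n true d) ∈ Dom n L := by
      intro u
      refine ⟨hbx u, ?_⟩
      rw [hz]
      split_ifs
      · exact ⟨h1, h2, h3⟩
      · refine ⟨?_, ?_, ?_⟩ <;> simp only <;> omega
    exact ⟨fun u => Or.inl (hD u), Or.inr fun u => ⟨hD u, hz u⟩⟩
  · have hq : smg n true d = (d.1 - 1 + n, d.2) := by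
      rw [smg_true, wrn_w (by omega)]
    have hq1 : 0 < d.1 - 1 + n := by omega
    by_cases ht : 2 * (d.1 - 1 + n) = n
    · -- a tie
      have h0 : zu n 0 (smg n true d) ∈ ZT n L := by
        rw [hq, zu_zero_tie (by omega) (by simpa using ht)]
        left
        simp only
        refine ⟨by omega, h2, by omega⟩
      refine ⟨fun u => ?_, Or.inl h0⟩
      have hbu := hbx u
      rw [hq] at hbu ⊢
      have h5 : (2 : ℤ) * d.2 ≠ n := by omega
      unfold zu zmg at hbu ⊢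
      split_ifs at hbu ⊢ with h6
      · unfold hx at hbu ⊢
        simp only at hbu ⊢
        rw [Int.sign_eq_one_of_pos hq1] at hbu ⊢
        split_ifs at hbu ⊢ with h7
        · left
          refine ⟨hbu, ?_⟩
          simp only
          omega
        · right; left
          simp only
          refine ⟨by omega, h2, by omega⟩
      · right; left
        rw [not_or] at h6
        have h7 : d.2 < 0 := lt_of_le_of_ne h2 h6.1
        simp only
        rw [hx_nt h5, Int.sign_eq_neg_one_of_neg h7]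
        refine ⟨hq1, by omega, by omega⟩
    · have hZ : ∀ u, zu n u (smg n true d) ∈ ZT n L := by
        intro u
        left
        rw [hq, zu_nt (by simpa using ht) (by simp only; omega)]
        simp only
        rw [Int.sign_eq_one_of_pos hq1]
        split_ifs with h6
        · simp only
          refine ⟨by omega, h2, by omega⟩
        · rw [not_or] at h6
          have h7 : d.2 < 0 := lt_of_le_of_ne h2 h6.1
          rw [Int.sign_eq_neg_one_of_neg h7]
          simp only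
          refine ⟨hq1, by omega, by omega⟩
      exact ⟨fun u => Or.inr (hZ u), Or.inl (hZ 0)⟩

theorem beh (hn : 5 ≤ n) {L : ℤ} (hL : (n : ℤ) - 2 ≤ 2 * L) {s : ℕ} {d : ℤ × ℤ}
    (hd : d ∈ Dom n L) :
    (∀ u, nx n e s u d ∈ Dom n L ∨ nx n e s u d ∈ ZT n L) ∧
      ((∃ u₀, nx n e s u₀ d ∈ ZT n L) ∨ ∀ u, nx n e s u d ∈ Dom n L ∧
        -2 * (nx n e s u d).1 - sgn (e s) = if bt u = true then -2 * d.1 - 1 else -2 * d.1 + 1) := by
  cases he : e s
  · obtain ⟨h1, h2⟩ := beh_east (e := fun t => !(e t)) (s := s) hn hL (Dom_swap.2 hd)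
      (by simp [he])
    have h3 : ∀ u, nx n e s u d = (nx n (fun t => !(e t)) s (tau u) d.swap).swap := by
      intro u
      rw [nx_swap (by omega), Prod.swap_swap]
    refine ⟨fun u => ?_, ?_⟩
    · rw [h3]
      rcases h1 (tau u) with h | h
      · exact Or.inl (Dom_swap.2 h)
      · exact Or.inr (ZT_swap.2 h)
    · rcases h2 with h | h
      · left
        refine ⟨tau 0, ?_⟩
        rw [h3, tau_tau]
        exact ZT_swap.2 h
      · right
        intro u
        obtain ⟨h4, h5⟩ := h (tau u)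
        rw [h3 u]
        refine ⟨Dom_swap.2 h4, ?_⟩
        rw [h5, bt_tau]
        have hs : sgn false = -1 := rfl
        rw [hs]
        cases hb : bt u <;> simp <;> omega
  · obtain ⟨h1, h2⟩ := beh_east (e := e) (s := s) hn hL hd he
    refine ⟨h1, ?_⟩
    rcases h2 with h | h
    · exact Or.inl ⟨0, h⟩
    · right
      intro u
      obtain ⟨h4, h5⟩ := h u
      refine ⟨h4, ?_⟩
      rw [h5]
      have hs : sgn true = 1 := rfl
      rw [hs]
      split_ifs <;> simp only <;> omega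

/-- the potential behind the survivor -/
theorem behind {R T : ℕ} (hn : 5 ≤ n) (hT : Tube R e T) {L : ℤ} (hL : (n : ℤ) - 2 ≤ 2 * L)
    {m s : ℕ} {d : ℤ × ℤ} (hs : s + m ≤ T) (hd : d ∈ Dom n L) :
    m * mis n e (ZT n L) m s d ≤ 15 * ((L : ℝ) + R + 1) ^ 2 := by
  have hL2 : 2 ≤ L := by omega
  have hLr : (2 : ℝ) ≤ L := by exact_mod_cast hL2
  have hRr : (0 : ℝ) ≤ R := Nat.cast_nonneg _
  set M : ℝ := ((L : ℝ) + R + 1) ^ 2 with hM
  have hM9 : (9 : ℝ) ≤ M := by rw [hM]; nlinarith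
  by_cases hdZ : d ∈ ZT n L
  · rw [mis_mem hdZ, mul_zero]
    positivity
  set Ψ : ℕ → ℤ × ℤ → ℝ := fun s d => ((-2 * d.1 - WW e s : ℤ) + R + 1) *
    (2 * L + R + 1 - (-2 * d.1 - WW e s : ℤ)) + 12 * (M + 1) with hΨ
  have hrange : ∀ s d, s ≤ T → d ∈ Dom n L →
      -(R : ℝ) ≤ ((-2 * d.1 - WW e s : ℤ) : ℝ) ∧ ((-2 * d.1 - WW e s : ℤ) : ℝ) ≤ 2 * L + R := by
    intro s d hs hd
    obtain ⟨_, h1, h2, h3⟩ := hd
    have h4 := abs_le.1 (hT s hs)
    constructor
    · have : -(R : ℤ) ≤ -2 * d.1 - WW e s := by omega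
      exact_mod_cast this
    · have : -2 * d.1 - WW e s ≤ 2 * L + R := by omega
      exact_mod_cast this
  have hup : ∀ x : ℝ, (x + R + 1) * (2 * L + R + 1 - x) ≤ M := by
    intro x
    rw [hM]
    nlinarith [sq_nonneg (x - L)]
  have hlow : ∀ s d, s ≤ T → d ∈ Dom n L → 12 * (M + 1) ≤ Ψ s d := by
    intro s d hs hd
    obtain ⟨h1, h2⟩ := hrange s d hs hd
    have : 0 ≤ ((-2 * d.1 - WW e s : ℤ) + R + 1) *
        (2 * (L : ℝ) + R + 1 - (-2 * d.1 - WW e s : ℤ)) := mul_nonneg (by linarith) (by linarith)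
    simp only [hΨ]
    linarith
  have hmain := hit_prob (n := n) (e := e) (Z := ZT n L) (Dom := Dom n L) (Ψ := Ψ) (T := T)
    (fun s d hs hd _ => le_trans (by positivity) (hlow s d hs hd))
    (fun s d hs hd hdn => by
      obtain ⟨h1, h2⟩ := beh (e := e) (s := s) hn hL hd
      refine ⟨h1, fun F hF1 hF2 => ?_⟩
      rcases h2 with ⟨u₀, h2⟩ | h2
      · -- a wrap
        have h3 : ∀ u, F u ≤ 13 * M + 12 := by
          intro u
          by_cases hu : nx n e s u d ∈ ZT n L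
          · rw [hF1 u hu]; positivity
          · refine (hF2 u hu).trans ?_
            have := hup ((-2 * (nx n e s u d).1 - WW e (s + 1) : ℤ) : ℝ)
            simp only [hΨ]
            linarith
        have h4 := one_coin u₀ (hF1 u₀ h2) h3
        have h5 := hlow s d (by omega) hd
        linarith
      · -- a free step
        have h3 : ∀ u, F u ≤ if bt u = true then
            (((-2 * d.1 - WW e s : ℤ) - 1 : ℝ) + R + 1) *
              (2 * L + R + 1 - (((-2 * d.1 - WW e s : ℤ) : ℝ) - 1)) + 12 * (M + 1) else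
            (((-2 * d.1 - WW e s : ℤ) + 1 : ℝ) + R + 1) *
              (2 * L + R + 1 - (((-2 * d.1 - WW e s : ℤ) : ℝ) + 1)) + 12 * (M + 1) := by
          intro u
          obtain ⟨h4, h5⟩ := h2 u
          have hu : nx n e s u d ∉ ZT n L := by
            rintro (h | h)
            · have := h4.2.1; omega
            · have := h4.2.2.1; omega
          refine (hF2 u hu).trans (le_of_eq ?_)
          have h6 : -2 * (nx n e s u d).1 - WW e (s + 1) = if bt u = true then
              -2 * d.1 - WW e s - 1 else -2 * d.1 - WW e s + 1 := by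
            rw [WW_succ]
            split_ifs at h5 ⊢ <;> omega
          simp only [hΨ]
          rw [h6]
          split_ifs
          · push_cast
            ring
          · push_cast
            ring
        have h4 := sum_le_sum fun u (_ : u ∈ (univ : Finset (Fin 12))) => h3 u
        rw [sum_bt] at h4
        have h5 : (∑ u, F u) / 12 ≤ Ψ s d - 1 := by
          rw [div_le_iff₀ (by norm_num)]
          refine h4.trans (le_of_eq ?_)
          simp only [hΨ]
          ring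
        linarith) (m := m) (s := s) (d := d) hs hd hdZ
  refine hmain.trans ?_
  have := hup ((-2 * d.1 - WW e s : ℤ) : ℝ)
  simp only [hΨ]
  linarith

/-! ### the stages -/

/-- absorbed, behind, or in the front without tie -/
def N1 (n : ℕ) : Set (ℤ × ℤ) := {d | (0 < d.1 ∧ 2 * d.1 < n) ∨ (0 < d.2 ∧ 2 * d.2 < n) ∨
  (d.1 ≤ 0 ∧ d.2 ≤ 0)}

/-- absorbed or on one of the lines -/
def X0 (n : ℕ) : Set (ℤ × ℤ) := {d | Absn n d ∨ d.1 = 0 ∨ d.2 = 0}

/-- in the front, near an axis, without tie -/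
def FEN (n : ℕ) : Set (ℤ × ℤ) := {d | (0 < d.1 ∧ 2 * d.1 < n ∧ d.2 ≤ 0 ∧ -1 ≤ d.2) ∨
  (0 < d.2 ∧ 2 * d.2 < n ∧ d.1 ≤ 0 ∧ -1 ≤ d.1)}

/-- the corners -/
def Cor (n : ℕ) : Set (ℤ × ℤ) := {d | d.1 ≤ 0 ∧ d.2 ≤ 0 ∧ (n : ℤ) - 2 ≤ 2 * (-d.1 - d.2) ∧
  2 * (-d.1 - d.2) < n}

/-- the target of stage C -/
def Y0 (n : ℕ) : Set (ℤ × ℤ) := {d | Absn n d ∨ d ∈ Cor n ∨ d ∈ FEN n}

theorem Absn_swap {d : ℤ × ℤ} : Absn n d.swap ↔ Absn n d := by
  rw [absn_iff, absn_iff]
  simp only [Prod.fst_swap, Prod.snd_swap]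
  constructor <;> rintro ⟨h1, h2, h3⟩ <;> exact ⟨h2, h1, by omega⟩

theorem X0_swap : Prod.swap ⁻¹' X0 n = X0 n := by
  ext d
  simp only [X0, Set.mem_preimage, Set.mem_ofPred_eq, Absn_swap, Prod.fst_swap, Prod.snd_swap]
  tauto

theorem FEN_swap : Prod.swap ⁻¹' FEN n = FEN n := by
  ext d
  simp only [FEN, Set.mem_preimage, Set.mem_ofPred_eq, Prod.fst_swap, Prod.snd_swap]
  exact or_comm

theorem Cor_swap : Prod.swap ⁻¹' Cor n = Cor n := by
  ext d
  simp only [Cor, Set.mem_preimage, Set.mem_ofPred_eq, Prod.fst_swap, Prod.snd_swap]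
  constructor <;> rintro ⟨h1, h2, h3, h4⟩ <;> exact ⟨h2, h1, by omega, by omega⟩

theorem Y0_swap : Prod.swap ⁻¹' Y0 n = Y0 n := by
  ext d
  have h1 : d.swap ∈ FEN n ↔ d ∈ FEN n := by
    have := congrArg (fun s => d ∈ s) (FEN_swap (n := n))
    simpa using this
  have h2 : d.swap ∈ Cor n ↔ d ∈ Cor n := by
    have := congrArg (fun s => d ∈ s) (Cor_swap (n := n))
    simpa using this
  simp only [Y0, Set.mem_preimage, Set.mem_ofPred_eq, Absn_swap, h1, h2]

theorem Tube_swap {R T : ℕ} (h : Tube R e T) : Tube R (fun t => !(e t)) T := by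
  intro s hs
  have : WW (fun t => !(e t)) s = -WW e s := by
    unfold WW
    rw [← sum_neg_distrib]
    refine sum_congr rfl fun t _ => ?_
    show sgn (!(e t)) = -sgn (e t)
    cases e t <;> simp [sgn]
  rw [this, abs_neg]
  exact h s hs

theorem box_swap {d : ℤ × ℤ} (h : d ∈ Boxn n) : d.swap ∈ Boxn n := by
  rw [mem_Boxn] at h ⊢
  exact ⟨h.2, h.1⟩

/-- symmetry of the probabilities for a symmetric set -/
theorem mis_swap' (hn : 3 ≤ n) {Z : Set (ℤ × ℤ)} (hZ : Prod.swap ⁻¹' Z = Z) (m s : ℕ) (d : ℤ × ℤ) :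
    mis n (fun t => !(e t)) Z m s d.swap = mis n e Z m s d := by
  have := mis_swap (e := e) hn Z m s d
  rwa [hZ] at this

/-- stage A -/
theorem stA (hn : 5 ≤ n) {s : ℕ} {d : ℤ × ℤ} (hd : d ∈ Boxn n) :
    mis n e (N1 n) 1 s d ≤ 11 / 12 := by
  apply mis_one
  unfold nx
  have hq := ((bx n (by omega)).2 d hd).2 (e s)
  set q := smg n (e s) d with hqd
  rw [mem_Boxn] at hq
  by_cases h1 : 2 * q.1 = n
  · rw [zu_zero_tie (by omega) h1]
    left
    simp only
    omega
  · by_cases h2 : 2 * q.2 = n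
    · rw [zu_zero_tie2 (by omega) h1 h2]
      right; left
      simp only
      omega
    · rw [zu_nt h1 h2]
      simp only [N1, Set.mem_ofPred_eq]
      rcases sign_cases q.1 with h3 | h3 | h3 <;> rcases sign_cases q.2 with h4 | h4 | h4 <;>
        split_ifs <;> simp only [h3.2, h4.2] <;> omega

/-- the time of the random walks -/
def tm (n : ℕ) : ℕ := 60 * n ^ 2

/-- behind the survivor for the time `tm n` -/
theorem behind2 {R T : ℕ} (hn : 5 ≤ n) (hR : 1000 * (R + 1) ≤ n) (hT : Tube R e T) {L : ℤ}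
    (hL : (n : ℤ) - 2 ≤ 2 * L) {s : ℕ} {d : ℤ × ℤ} (hs : s + tm n ≤ T) (hd : d ∈ Dom n L) :
    mis n e (ZT n L) (tm n) s d ≤ 1 / 2 := by
  have h1 := behind hn hT hL hs hd
  have hLn : L ≤ n := by
    obtain ⟨h2, h3, h4, h5⟩ := hd
    rw [mem_Boxn] at h2
    omega
  have hLr : (L : ℝ) ≤ n := by exact_mod_cast hLn
  have hL0 : (0 : ℝ) ≤ L := by
    have : 0 ≤ L := by omega
    exact_mod_cast this
  have hRr : (1000 : ℝ) * (R + 1) ≤ n := by exact_mod_cast hR
  have hn0 : (0 : ℝ) < n := by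
    have : 0 < n := by omega
    exact_mod_cast this
  have h2 : ((L : ℝ) + R + 1) ^ 2 ≤ 2 * (n : ℝ) ^ 2 := by
    have h3 : (L : ℝ) + R + 1 ≤ 1001 / 1000 * n := by linarith
    have h4 : 0 ≤ (L : ℝ) + R + 1 := by positivity
    calc ((L : ℝ) + R + 1) ^ 2 ≤ (1001 / 1000 * n) ^ 2 := pow_le_pow_left₀ h4 h3 2
      _ ≤ 2 * (n : ℝ) ^ 2 := by nlinarith [sq_nonneg (n : ℝ)]
  have h5 : ((tm n : ℕ) : ℝ) = 60 * (n : ℝ) ^ 2 := by
    unfold tm; push_cast; ring
  rw [h5] at h1
  have h6 : 60 * (n : ℝ) ^ 2 * mis n e (ZT n L) (tm n) s d ≤ 30 * (n : ℝ) ^ 2 := by linarith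
  have h7 : 0 < (n : ℝ) ^ 2 := by positivity
  nlinarith

/-- in the front without tie, or on a line -/
def W0 (n : ℕ) : Set (ℤ × ℤ) := {d | (0 < d.1 ∧ 2 * d.1 < n) ∨ (0 < d.2 ∧ 2 * d.2 < n)}

theorem W0_swap : Prod.swap ⁻¹' W0 n = W0 n := by
  ext d
  simp only [W0, Set.mem_preimage, Set.mem_ofPred_eq, Prod.fst_swap, Prod.snd_swap]
  exact or_comm

/-- resolving a tie -/
theorem tie_east (hn : 5 ≤ n) {s : ℕ} {d : ℤ × ℤ} (hd : d ∈ Boxn n) (h0 : 0 < d.1) :
    mis n e (W0 n) 1 s d ≤ 11 / 12 := by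
  have hb := mem_Boxn.1 hd
  by_cases h1 : 2 * d.1 < n
  · rw [mis_mem (Or.inl ⟨h0, h1⟩)]; norm_num
  · apply mis_one
    left
    unfold nx
    cases he : e s
    · have hq : (smg n false d).1 = d.1 := rfl
      rw [zu_zero_tie (by omega) (by rw [hq]; omega)]
      simp only
      omega
    · have hq : (smg n true d).1 = d.1 - 1 := by
        rw [smg_true]
        exact wrn_nt (by omega) (by omega)
      rcases zu_fst (n := n) (q := smg n true d) (by rw [hq]; omega) 0 with h | h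
      · rw [h, hq]; omega
      · rw [h, hq, Int.sign_eq_one_of_pos (by omega)]; omega

theorem tie_any (hn : 5 ≤ n) {s : ℕ} {d : ℤ × ℤ} (hd : d ∈ Boxn n) (h0 : 0 < d.1 ∨ 0 < d.2) :
    mis n e (W0 n) 1 s d ≤ 11 / 12 := by
  rcases h0 with h0 | h0
  · exact tie_east hn hd h0
  · rw [← mis_swap' (by omega) W0_swap]
    exact tie_east hn (box_swap hd) h0

/-- the front -/
theorem frontX {R T : ℕ} (hn : 5 ≤ n) (hR : 1000 * (R + 1) ≤ n) (hT : Tube R e T) {s : ℕ}
    {d : ℤ × ℤ} (hs : s + 2 * n ≤ T) (hd : d ∈ W0 n) : mis n e (X0 n) (2 * n) s d = 0 := by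
  have key : ∀ (e : ℕ → Bool), Tube R e T → ∀ d : ℤ × ℤ, 0 < d.1 → 2 * d.1 < n →
      mis n e (X0 n) (2 * n) s d = 0 := by
    intro e hT d h0 h1
    refine le_antisymm ?_ (mis_nonneg _ _ _)
    have h2 := (abs_le.1 (hT s (by omega))).2
    rw [← front (n := n) hT (2 * n) s d hs h0 h1 (by push_cast; omega)]
    exact mis_mono_set (fun q hq => Or.inr (Or.inl hq)) _ _ _
  rcases hd with hd | hd
  · exact key e hT d hd.1 hd.2
  · rw [← mis_swap' (by omega) X0_swap]
    exact key _ (Tube_swap hT) d.swap hd.1 hd.2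

/-- stage B -/
theorem stB {R T : ℕ} (hn : 5 ≤ n) (hR : 1000 * (R + 1) ≤ n) (hT : Tube R e T) {s : ℕ}
    {d : ℤ × ℤ} (hs : s + (tm n + (1 + 2 * n)) ≤ T) (hb : d ∈ Boxn n) (hd : d ∈ N1 n) :
    mis n e (X0 n) (tm n + (1 + 2 * n)) s d ≤ 23 / 24 := by
  have hfr : ∀ d : ℤ × ℤ, d ∈ W0 n → mis n e (X0 n) (tm n + (1 + 2 * n)) s d ≤ 23 / 24 := by
    intro d hd
    refine (mis_anti (by omega : 2 * n ≤ _) s d).trans ?_
    rw [frontX hn hR hT (by omega) hd]
    norm_num
  rcases hd with hd | hd | hd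
  · exact hfr d (Or.inl hd)
  · exact hfr d (Or.inr hd)
  by_cases hA : Absn n d
  · rw [mis_mem (show d ∈ X0 n from Or.inl hA)]; norm_num
  have hb' := mem_Boxn.1 hb
  have hL : (n : ℤ) - 2 ≤ 2 * (-d.1 - d.2) := by
    by_contra h
    exact hA (absn_iff.2 ⟨hd.1, hd.2, by omega⟩)
  have h1 := behind2 hn hR hT hL (s := s) (d := d) (by omega) ⟨hb, hd.1, hd.2, rfl⟩
  have h2 := comp (n := n) (e := e) (Z := ZT n (-d.1 - d.2)) (Z' := X0 n) (by omega)
    (m' := 1 + 2 * n) (β := 11 / 12) (by norm_num) (by norm_num) (tm n) s d (fun s' z h3 h4 h5 h6 => by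
      have h7 := comp (n := n) (e := e) (Z := W0 n) (Z' := X0 n) (by omega) (m' := 2 * n) (β := 0)
        le_rfl (by norm_num) 1 s' z (fun s'' z' h8 h9 h10 h11 => by
          rw [frontX hn hR hT (by omega) h10]) h6
      have h8 := tie_any (e := e) (s := s') hn h6 (by
        rcases h5 with h5 | h5
        · exact Or.inl h5.1
        · exact Or.inr h5.1)
      linarith) hb
  linarith

/-- stage C, on the line `x = 0` -/
theorem stC1 (hn : 5 ≤ n) {s : ℕ} {d : ℤ × ℤ} (hb : d ∈ Boxn n) (h0 : d.1 = 0) :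
    mis n e (Y0 n) 1 s d ≤ 11 / 12 := by
  have hb' := mem_Boxn.1 hb
  rcases le_or_gt d.2 0 with h1 | h1
  · rw [mis_mem]
    · norm_num
    · by_cases hA : Absn n d
      · exact Or.inl hA
      · right; left
        have : ¬ (2 * (-d.1 - d.2) + 3 ≤ (n : ℤ)) := fun h => hA (absn_iff.2 ⟨h0.le, h1, h⟩)
        exact ⟨h0.le, h1, by omega, by omega⟩
  · apply mis_one
    unfold nx
    cases he : e s
    · have hq : smg n false d = (0, d.2 - 1) := by
        rw [smg_false, wrn_nt (by omega) (by omega), h0]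
      rw [hq, zu_nt (by simp only; omega) (by simp only; omega)]
      simp only
      split_ifs with h2
      · left
        rw [absn_iff]
        simp
        omega
      · rw [not_or] at h2
        rw [Int.sign_eq_one_of_pos (by omega)]
        by_cases h3 : d.2 - 1 - 1 = 0
        · left
          rw [absn_iff]
          simp only
          omega
        · right; right; right
          simp only
          omega
    · have hq : smg n true d = (-1, d.2) := by
        rw [smg_true, wrn_nt (by omega) (by omega), h0]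
        rfl
      rw [hq]
      by_cases h2 : 2 * d.2 = n
      · rw [zu_zero_tie2 (by omega) (by simp only; omega) (by simpa using h2)]
        right; right; right
        simp only
        omega
      · rw [zu_nt (by simp only; omega) (by simpa using h2)]
        rw [if_pos (Or.inr ⟨by decide, by simp⟩)]
        right; right; right
        simp
        omega

theorem stC (hn : 5 ≤ n) {s : ℕ} {d : ℤ × ℤ} (hb : d ∈ Boxn n) (hd : d ∈ X0 n) :
    mis n e (Y0 n) 1 s d ≤ 11 / 12 := by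
  rcases hd with hd | hd | hd
  · rw [mis_mem (show d ∈ Y0 n from Or.inl hd)]; norm_num
  · exact stC1 hn hb hd
  · rw [← mis_swap' (by omega) Y0_swap]
    exact stC1 hn (box_swap hb) hd

/-- resolving a tie on the axis -/
theorem tieF1 (hn : 5 ≤ n) {s : ℕ} {d : ℤ × ℤ} (hb : d ∈ Boxn n) (h0 : 0 < d.1) (h1 : d.2 = 0) :
    mis n e (FEN n) 1 s d ≤ 11 / 12 := by
  have hb' := mem_Boxn.1 hb
  by_cases h2 : 2 * d.1 < n
  · rw [mis_mem (show d ∈ FEN n from Or.inl ⟨h0, h2, by omega, by omega⟩)]; norm_num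
  · apply mis_one
    unfold nx
    cases he : e s
    · have hq : smg n false d = (d.1, -1) := by
        rw [smg_false, wrn_nt (by omega) (by omega), h1]
        rfl
      rw [hq, zu_zero_tie (by omega) (by simp only; omega)]
      left
      simp only
      omega
    · have hq : smg n true d = (d.1 - 1, 0) := by
        rw [smg_true, wrn_nt (by omega) (by omega), h1]
      rw [hq, zu_nt (by simp only; omega) (by simp only; omega)]
      rw [if_pos (Or.inl rfl)]
      simp only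
      rw [Int.sign_eq_one_of_pos (by omega)]
      left
      simp only
      omega

/-- stage D -/
theorem stD {R T : ℕ} (hn : 5 ≤ n) (hR : 1000 * (R + 1) ≤ n) (hT : Tube R e T) {s : ℕ}
    {d : ℤ × ℤ} (hs : s + (tm n + 1) ≤ T) (hb : d ∈ Boxn n) (hd : d ∈ Cor n) :
    mis n e (FEN n) (tm n + 1) s d ≤ 23 / 24 := by
  obtain ⟨h1, h2, h3, h4⟩ := hd
  have h5 := behind2 hn hR hT h3 (s := s) (d := d) (by omega) ⟨hb, h1, h2, rfl⟩
  have h6 := comp (n := n) (e := e) (Z := ZT n (-d.1 - d.2)) (Z' := FEN n) (by omega)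
    (m' := 1) (β := 11 / 12) (by norm_num) (by norm_num) (tm n) s d (fun s' z h3 h4 h5 h6 => by
      rcases h5 with ⟨h7, h8, h9⟩ | ⟨h7, h8, h9⟩
      · exact tieF1 hn h6 h7 (by omega)
      · rw [← mis_swap' (by omega) FEN_swap]
        exact tieF1 hn (box_swap h6) h7 (by simp only [Prod.snd_swap]; omega)) hb
  linarith

/-- stage E -/
theorem stE {R T : ℕ} (hn : 200 ≤ n) (hR : 1000 * (R + 1) ≤ n) (hT : Tube R e T) {s : ℕ}
    {d : ℤ × ℤ} (hs : s + 2 * n ≤ T) (hd : d ∈ FEN n) :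
    mis n e {q | Absn n q} (2 * n) s d ≤ 1 / 2 := by
  have hsw : Prod.swap ⁻¹' {q : ℤ × ℤ | Absn n q} = {q | Absn n q} := by
    ext q
    exact Absn_swap
  have hRr : (1000 : ℝ) * (R + 1) ≤ n := by exact_mod_cast hR
  have hnr : (200 : ℝ) ≤ n := by exact_mod_cast hn
  have key : ∀ (e : ℕ → Bool), Tube R e T → ∀ d : ℤ × ℤ, 0 < d.1 → 2 * d.1 < n → d.2 ≤ 0 →
      -1 ≤ d.2 → mis n e {q | Absn n q} (2 * n) s d ≤ 1 / 2 := by
    intro e hT d h0 h1 h2 h3
    have hW := abs_le.1 (hT s (by omega))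
    have hθ : (0 : ℝ) < (9 / 10 * n) ^ 2 := by positivity
    have h4 := side (n := n) (e := e) hT (θ := (9 / 10 * n) ^ 2) hθ (fun y hy => by
      have h5 : (9 / 10 * n : ℝ) ≤ y := by
        have h6 : ((n : ℤ) : ℝ) - 6 - 2 * R ≤ y := by exact_mod_cast hy
        push_cast at h6
        linarith
      unfold fq
      have h6 : (0 : ℝ) ≤ y := by linarith
      rw [max_eq_left h6]
      exact pow_le_pow_left₀ (by positivity) h5 2) (2 * n) s d hs h0 h1 h2 (by push_cast; omega)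
    refine h4.trans ?_
    have h5 : fq (-2 * d.2 + WW e s - R - 1) ≤ 1 := by
      refine (fq_mono (show -2 * d.2 + WW e s - R - 1 ≤ 1 by omega)).trans (le_of_eq ?_)
      unfold fq
      norm_num
    rw [div_le_iff₀ hθ]
    push_cast
    nlinarith
  rcases hd with ⟨h1, h2, h3, h4⟩ | ⟨h1, h2, h3, h4⟩
  · exact key e hT d h1 h2 h3 h4
  · rw [← mis_swap' (by omega) hsw]
    exact key _ (Tube_swap hT) d.swap h1 h2 h3 h4

/-- one block -/
theorem block {R T : ℕ} (hn : 200 ≤ n) (hR : 1000 * (R + 1) ≤ n) (hT : Tube R e T) {s : ℕ}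
    {d : ℤ × ℤ} (hs : s + n ^ 3 ≤ T) (hb : d ∈ Boxn n) :
    mis n e {q | Absn n q} (n ^ 3) s d ≤ 1 - 1 / 165888 := by
  have htot : 1 + ((tm n + (1 + 2 * n)) + (1 + ((tm n + 1) + 2 * n))) ≤ n ^ 3 := by
    have h1 : n ^ 3 = n * n ^ 2 := by ring
    have h2 : 200 * n ^ 2 ≤ n * n ^ 2 := Nat.mul_le_mul_right _ hn
    have h3 : 200 * n ≤ n ^ 2 := by rw [sq]; exact Nat.mul_le_mul_right _ hn
    unfold tm
    omega
  refine (mis_anti htot s d).trans ?_
  have hE : ∀ s' z, s' + 2 * n ≤ T → z ∈ Boxn n → z ∈ FEN n ∨ Absn n z →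
      mis n e {q | Absn n q} (2 * n) s' z ≤ 1 / 2 := by
    intro s' z h1 _ h2
    rcases h2 with h2 | h2
    · exact stE hn hR hT h1 h2
    · rw [mis_mem (show z ∈ {q : ℤ × ℤ | Absn n q} from h2)]; norm_num
  have hD : ∀ s' z, s' + ((tm n + 1) + 2 * n) ≤ T → z ∈ Boxn n → z ∈ Y0 n →
      mis n e {q | Absn n q} ((tm n + 1) + 2 * n) s' z ≤ 47 / 48 := by
    intro s' z h1 h2 h3
    rcases h3 with h3 | h3 | h3
    · rw [mis_mem (show z ∈ {q : ℤ × ℤ | Absn n q} from h3)]; norm_num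
    · have h4 := stD (e := e) (by omega) hR hT (s := s') (d := z) (by omega) h2 h3
      have h5 := comp (n := n) (e := e) (Z := FEN n) (Z' := {q | Absn n q}) (by omega)
        (m' := 2 * n) (β := 1 / 2) (by norm_num) (by norm_num) (tm n + 1) s' z
        (fun s'' z' h6 h7 h8 h9 => hE s'' z' (by omega) h9 (Or.inl h8)) h2
      linarith
    · refine (mis_anti (by omega : 2 * n ≤ _) s' z).trans
        ((hE s' z (by omega) h2 (Or.inl h3)).trans (by norm_num))
  have hC : ∀ s' z, s' + (1 + ((tm n + 1) + 2 * n)) ≤ T → z ∈ Boxn n → z ∈ X0 n →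
      mis n e {q | Absn n q} (1 + ((tm n + 1) + 2 * n)) s' z ≤ 1 - 1 / 576 := by
    intro s' z h1 h2 h3
    have h4 := stC (e := e) (by omega) (s := s') h2 h3
    have h5 := comp (n := n) (e := e) (Z := Y0 n) (Z' := {q | Absn n q}) (by omega)
      (m' := (tm n + 1) + 2 * n) (β := 47 / 48) (by norm_num) (by norm_num) 1 s' z
      (fun s'' z' h6 h7 h8 h9 => hD s'' z' (by omega) h9 h8) h2
    linarith
  have hB : ∀ s' z, s' + ((tm n + (1 + 2 * n)) + (1 + ((tm n + 1) + 2 * n))) ≤ T → z ∈ Boxn n →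
      z ∈ N1 n → mis n e {q | Absn n q} ((tm n + (1 + 2 * n)) + (1 + ((tm n + 1) + 2 * n))) s' z ≤
        1 - 1 / 13824 := by
    intro s' z h1 h2 h3
    have h4 := stB (e := e) (by omega) hR hT (s := s') (by omega) h2 h3
    have h5 := comp (n := n) (e := e) (Z := X0 n) (Z' := {q | Absn n q}) (by omega)
      (m' := 1 + ((tm n + 1) + 2 * n)) (β := 1 - 1 / 576) (by norm_num) (by norm_num)
      (tm n + (1 + 2 * n)) s' z (fun s'' z' h6 h7 h8 h9 => hC s'' z' (by omega) h9 h8) h2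
    linarith
  have h4 := stA (e := e) (s := s) (by omega) hb
  have h5 := comp (n := n) (e := e) (Z := N1 n) (Z' := {q | Absn n q}) (by omega)
    (m' := (tm n + (1 + 2 * n)) + (1 + ((tm n + 1) + 2 * n))) (β := 1 - 1 / 13824) (by norm_num)
    (by norm_num) 1 s d (fun s'' z' h6 h7 h8 h9 => hB s'' z' (by omega) h9 h8) hb
  linarith

/-- independence of the blocks -/
theorem mul_le (hn : 3 ≤ n) {Z : Set (ℤ × ℤ)} {m' : ℕ} {β : ℝ} (m : ℕ) :
    ∀ (s : ℕ) (d : ℤ × ℤ), (∀ s' z, s ≤ s' → s' ≤ s + m → z ∈ Boxn n → mis n e Z m' s' z ≤ β) →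
    d ∈ Boxn n → mis n e Z (m + m') s d ≤ β * mis n e Z m s d := by
  induction m with
  | zero =>
    intro s d h hb
    by_cases hd : d ∈ Z
    · rw [mis_mem hd, mis_mem hd, mul_zero]
    · rw [mis_zero hd, mul_one, zero_add]
      exact h s d le_rfl le_rfl hb
  | succ m ih =>
    intro s d h hb
    by_cases hd : d ∈ Z
    · rw [mis_mem hd, mis_mem hd, mul_zero]
    · have e1 : m + 1 + m' = (m + m') + 1 := by ring
      rw [e1, mis_succ hd, mis_succ hd]
      have h1 : ∑ u : Fin 12, mis n e Z (m + m') (s + 1) (nx n e s u d) ≤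
          ∑ u : Fin 12, β * mis n e Z m (s + 1) (nx n e s u d) :=
        sum_le_sum fun u _ => ih (s + 1) _ (fun s' z h1 h2 => h s' z (by omega) (by omega))
          (nx_box hn hb s u)
      rw [← mul_sum] at h1
      rw [div_le_iff₀ (by norm_num)]
      refine h1.trans (le_of_eq ?_)
      ring

theorem blocks {R T : ℕ} (hn : 200 ≤ n) (hR : 1000 * (R + 1) ≤ n) (hT : Tube R e T) (j : ℕ) :
    ∀ (s : ℕ) (d : ℤ × ℤ), s + n ^ 3 * j ≤ T → d ∈ Boxn n →
    mis n e {q | Absn n q} (n ^ 3 * j) s d ≤ (1 - 1 / 165888) ^ j := by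
  induction j with
  | zero =>
    intro s d _ _
    rw [pow_zero]
    exact mis_le_one _ _ _
  | succ j ih =>
    intro s d hs hb
    have e1 : n ^ 3 * (j + 1) = n ^ 3 + n ^ 3 * j := by ring
    rw [e1] at hs ⊢
    have h1 := mul_le (n := n) (e := e) (by omega) (Z := {q | Absn n q}) (m' := n ^ 3 * j)
      (β := (1 - 1 / 165888) ^ j) (n ^ 3) s d (fun s' z h1 h2 h3 => ih s' z (by omega) h3) hb
    have h2 := block (e := e) hn hR hT (s := s) (d := d) (by omega) hb
    refine h1.trans ?_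
    rw [pow_succ]
    exact mul_le_mul_of_nonneg_left h2 (by positivity)

end AbpL

open AbpL Finset Pool.Agent.Helper5K9.ZN in
theorem abp : S_ABP := by
  classical
  have hlim := tendsto_pow_const_mul_const_pow_of_lt_one 10
    (r := (1 - 1 / 165888 : ℝ)) (by norm_num) (by norm_num)
  have hev := hlim.eventually (gt_mem_nhds (show (0 : ℝ) < 1 by norm_num))
  obtain ⟨n₁, hn₁⟩ := Filter.eventually_atTop.1 hev
  refine ⟨max n₁ 200, fun n R T e p hn hR hTn hT hp => ?_⟩
  have hn1 : n₁ ≤ n := (le_max_left _ _).trans hn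
  have hn2 : 200 ≤ n := (le_max_right _ _).trans hn
  obtain ⟨m, rfl⟩ : ∃ m, T = m + 1 := by
    refine ⟨T - 1, ?_⟩
    have : 0 < n ^ 10 := by positivity
    omega
  have hm : n ^ 3 * n ≤ m := by
    have h1 : n ^ 3 * n = n ^ 4 := by ring
    have h2 : n ^ 4 < n ^ 10 := Nat.pow_lt_pow_right (by omega) (by norm_num)
    omega
  have hA : ∀ (s : ℕ) (u : Fin 12) (d : ℤ × ℤ), d ∈ {q : ℤ × ℤ | Absn n q} →
      nx n e s u d ∈ {q : ℤ × ℤ | Absn n q} := fun s u d hd => absn_step hd u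
  have hT' : Tube R e m := fun s hs => hT s (by omega)
  have hcount : ((univ.filter fun u : Fin (m + 1) → Fin 12 =>
      ¬ Absn n (du n (ext12 u) e p m)).card : ℝ) ≤ 12 ^ (m + 1) * (1 - 1 / 165888) ^ n := by
    rw [AbpL.card_cons]
    push_cast
    have h1 : ∀ u : Fin 12, ((univ.filter fun v : Fin m → Fin 12 =>
        ¬ Absn n (du n (ext12 (Fin.cons u v : Fin (m + 1) → Fin 12)) e p m)).card : ℝ) ≤
        12 ^ m * (1 - 1 / 165888) ^ n := by
      intro u
      have h2 := count_le (n := n) (e := e) (A := {q | Absn n q}) hA m 0 (zu n u p)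
      have h3 : mis n e {q | Absn n q} m 0 (zu n u p) ≤ (1 - 1 / 165888) ^ n :=
        (mis_anti hm 0 _).trans (blocks (e := e) hn2 hR hT' n 0 _ (by omega)
          (((bx n (by omega)).2 p hp).1 u))
      refine le_trans (le_of_eq ?_) (h2.trans (mul_le_mul_of_nonneg_left h3 (by positivity)))
      congr 2
      ext v
      simp only [mem_filter, mem_univ, true_and]
      rw [du_eq, ext12_cons_zero, ext12_cons_succ]
      rfl
    refine (sum_le_sum fun u _ => h1 u).trans (le_of_eq ?_)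
    rw [sum_const, card_univ, Fintype.card_fin, nsmul_eq_mul]
    push_cast
    ring
  have hfin : ((univ.filter fun u : Fin (m + 1) → Fin 12 =>
      ¬ Absn n (du n (ext12 u) e p m)).card : ℝ) * (n : ℝ) ^ 10 ≤ 12 ^ (m + 1) := by
    calc _ ≤ 12 ^ (m + 1) * (1 - 1 / 165888) ^ n * (n : ℝ) ^ 10 :=
          mul_le_mul_of_nonneg_right hcount (by positivity)
      _ = 12 ^ (m + 1) * ((n : ℝ) ^ 10 * (1 - 1 / 165888) ^ n) := by ring
      _ ≤ 12 ^ (m + 1) * 1 := mul_le_mul_of_nonneg_left (hn₁ n hn1).le (by positivity)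
      _ = 12 ^ (m + 1) := mul_one _
  simp only [Nat.add_sub_cancel]
  exact_mod_cast hfin

end Pool.Agent.Helper57K9.XZ
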