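import Pool.Agent.Helper57K9.XZ.Stm2

/-!
# Zombies on the torus: the symmetry of the two directions
-/

set_option autoImplicit false

namespace Pool.Agent.Helper57K9.XZ

open Finset Pool.Agent.Helper5K9.ZN

theorem tau_par : ∀ u : Fin 12, ((tau u).1 % 2 = 0 ↔ ¬ u.1 % 2 = 0) := by decide

theorem tau_four : ∀ u : Fin 12, ((tau u).1 % 4 < 2 ↔ u.1 % 4 < 2) := by decide

theorem tau_three : ∀ u : Fin 12, (tau u).1 % 3 = u.1 % 3 := by decide

theorem bt_tau : ∀ u : Fin 12, bt (tau u) = !(bt u) := by decide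

theorem tau_tau : ∀ u : Fin 12, tau (tau u) = u := by decide

theorem zu_swap (n : ℕ) (hn : 3 ≤ n) (u : Fin 12) (q : ℤ × ℤ) :
    zu n (tau u) q.swap = (zu n u q).swap := by
  obtain ⟨a, b⟩ := q
  have h0n : ¬ ((0 : ℤ) = (n : ℤ)) := by omega
  simp only [zu, cfs, Prod.swap_prod_mk, tau_par u, tau_four u, tau_three u]
  by_cases ha : 2 * a = (n : ℤ) <;> by_cases hb : 2 * b = (n : ℤ)
  · have ha0 : a ≠ 0 := by rintro rfl; omega
    have hb0 : b ≠ 0 := by rintro rfl; omega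
    by_cases hu : u.1 % 2 = 0 <;> simp [ha, hb, hu, zmg, ha0, hb0]
  · have ha0 : a ≠ 0 := by rintro rfl; omega
    by_cases hb0 : b = 0
    · subst hb0
      simp [ha, zmg, ha0, h0n]
    · by_cases hu : u.1 % 3 < 2 <;> simp [ha, hb, hu, zmg, ha0, hb0]
  · have hb0 : b ≠ 0 := by rintro rfl; omega
    by_cases ha0 : a = 0
    · subst ha0
      simp [hb, zmg, hb0, h0n]
    · by_cases hu : u.1 % 3 < 2 <;> simp [ha, hb, hu, zmg, ha0, hb0]
  · by_cases ha0 : a = 0 <;> by_cases hb0 : b = 0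
    · subst ha0; subst hb0
      simp [zmg, hx, h0n]
    · subst ha0
      by_cases hu : u.1 % 2 = 0 <;> simp [hb, hu, zmg, hb0, h0n]
    · subst hb0
      by_cases hu : u.1 % 2 = 0 <;> simp [ha, hu, zmg, ha0, h0n]
    · by_cases hu : u.1 % 2 = 0 <;> simp [ha, hb, hu, zmg, ha0, hb0]

theorem smg_swap (n : ℕ) (e : Bool) (q : ℤ × ℤ) : smg n (!e) q.swap = (smg n e q).swap := by
  obtain ⟨a, b⟩ := q
  cases e <;> simp [smg]

theorem tu_swap (n : ℕ) (hn : 3 ≤ n) (u : ℕ → Fin 12) (e : ℕ → Bool) (p : ℤ × ℤ) (t : ℕ) :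
    tu n (fun s => tau (u s)) (fun s => !(e s)) p.swap t = (tu n u e p t).swap := by
  induction t with
  | zero => rfl
  | succ t ih =>
    change smg n (!(e t)) (zu n (tau (u t)) (tu n (fun s => tau (u s)) (fun s => !(e s)) p.swap t)) =
      (smg n (e t) (zu n (u t) (tu n u e p t))).swap
    rw [ih, zu_swap n hn, smg_swap]

theorem du_swap (n : ℕ) (hn : 3 ≤ n) (u : ℕ → Fin 12) (e : ℕ → Bool) (p : ℤ × ℤ) (t : ℕ) :
    du n (fun s => tau (u s)) (fun s => !(e s)) p.swap t = (du n u e p t).swap := by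
  rw [du, tu_swap n hn, zu_swap n hn, du]

theorem swp : S_SWP :=
  ⟨bt_tau, tau_tau, fun n u e p t hn => ⟨tu_swap n hn u e p t, du_swap n hn u e p t⟩⟩

end Pool.Agent.Helper57K9.XZ
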