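import Pool.Agent.Helper57K9.XZ.Bx
import Pool.Agent.Helper57K9.XZ.Swp

/-!
# Leaf ABP (helper30), part A: probabilities of missing a set

`mis n e Z m s d` is the probability that a zombie with position `d` at the decision `s` does not
hit the set `Z` within `m` further rounds.
-/

set_option autoImplicit false

namespace Pool.Agent.Helper57K9.XZ
namespace AbpL

open Finset Pool.Agent.Helper5K9.ZN

/-- one round, from decision to decision -/
def nx (n : ℕ) (e : ℕ → Bool) (s : ℕ) (u : Fin 12) (d : ℤ × ℤ) : ℤ × ℤ := zu n u (smg n (e s) d)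

open Classical in
/-- the probability of missing `Z` -/
noncomputable def mis (n : ℕ) (e : ℕ → Bool) (Z : Set (ℤ × ℤ)) : ℕ → ℕ → ℤ × ℤ → ℝ
  | 0, _, d => if d ∈ Z then 0 else 1
  | m + 1, s, d => if d ∈ Z then 0 else (∑ u : Fin 12, mis n e Z m (s + 1) (nx n e s u d)) / 12

variable {n : ℕ} {e : ℕ → Bool} {Z Z' : Set (ℤ × ℤ)}

theorem mis_mem {d : ℤ × ℤ} (h : d ∈ Z) (m s : ℕ) : mis n e Z m s d = 0 := by
  cases m <;> simp [mis, h]

theorem mis_zero {d : ℤ × ℤ} (h : d ∉ Z) (s : ℕ) : mis n e Z 0 s d = 1 := by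
  simp [mis, h]

theorem mis_succ {d : ℤ × ℤ} (h : d ∉ Z) (m s : ℕ) : mis n e Z (m + 1) s d =
    (∑ u : Fin 12, mis n e Z m (s + 1) (nx n e s u d)) / 12 := by
  rw [mis, if_neg h]

theorem mis_nonneg (m : ℕ) : ∀ (s : ℕ) (d : ℤ × ℤ), 0 ≤ mis n e Z m s d := by
  induction m with
  | zero => intro s d; unfold mis; split_ifs <;> norm_num
  | succ m ih =>
    intro s d
    unfold mis
    split_ifs
    · exact le_rfl
    · exact div_nonneg (sum_nonneg fun u _ => ih _ _) (by norm_num)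

/-- averages of a function bounded by `C` -/
theorem avg_le {F : Fin 12 → ℝ} {C : ℝ} (h : ∀ u, F u ≤ C) : (∑ u, F u) / 12 ≤ C := by
  have h1 : ∑ u, F u ≤ ∑ _u : Fin 12, C := sum_le_sum fun u _ => h u
  rw [sum_const, card_univ, Fintype.card_fin, nsmul_eq_mul] at h1
  rw [div_le_iff₀ (by norm_num)]
  push_cast at h1
  linarith

theorem mis_le_one (m : ℕ) : ∀ (s : ℕ) (d : ℤ × ℤ), mis n e Z m s d ≤ 1 := by
  induction m with
  | zero => intro s d; unfold mis; split_ifs <;> norm_num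
  | succ m ih =>
    intro s d
    unfold mis
    split_ifs
    · norm_num
    · exact avg_le fun u => ih _ _

theorem mis_succ_le (m : ℕ) : ∀ (s : ℕ) (d : ℤ × ℤ), mis n e Z (m + 1) s d ≤ mis n e Z m s d := by
  induction m with
  | zero =>
    intro s d
    by_cases h : d ∈ Z
    · rw [mis_mem h, mis_mem h]
    · rw [mis_zero h]; exact mis_le_one _ _ _
  | succ m ih =>
    intro s d
    by_cases h : d ∈ Z
    · rw [mis_mem h, mis_mem h]
    · rw [mis_succ h, mis_succ h]
      exact div_le_div_of_nonneg_right (sum_le_sum fun u _ => ih _ _) (by norm_num)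

theorem mis_anti {m m' : ℕ} (h : m ≤ m') (s : ℕ) (d : ℤ × ℤ) :
    mis n e Z m' s d ≤ mis n e Z m s d := by
  induction h with
  | refl => exact le_rfl
  | step _ ih => exact (mis_succ_le _ _ _).trans ih

theorem mis_mono_set (h : Z ⊆ Z') (m : ℕ) : ∀ (s : ℕ) (d : ℤ × ℤ),
    mis n e Z' m s d ≤ mis n e Z m s d := by
  induction m with
  | zero =>
    intro s d
    by_cases h1 : d ∈ Z
    · rw [mis_mem h1, mis_mem (h h1)]
    · rw [mis_zero h1]; exact mis_le_one _ _ _
  | succ m ih =>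
    intro s d
    by_cases h2 : d ∈ Z'
    · rw [mis_mem h2]; exact mis_nonneg _ _ _
    · have h1 : d ∉ Z := fun h3 => h2 (h h3)
      rw [mis_succ h1, mis_succ h2]
      exact div_le_div_of_nonneg_right (sum_le_sum fun u _ => ih _ _) (by norm_num)

theorem nx_box (hn : 3 ≤ n) {d : ℤ × ℤ} (hd : d ∈ Boxn n) (s : ℕ) (u : Fin 12) :
    nx n e s u d ∈ Boxn n :=
  ((bx n hn).2 _ (((bx n hn).2 d hd).2 (e s))).1 u

/-- the strong Markov property -/
theorem comp (hn : 3 ≤ n) {m' : ℕ} {β : ℝ} (hβ0 : 0 ≤ β) (hβ1 : β ≤ 1) (m : ℕ) :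
    ∀ (s : ℕ) (d : ℤ × ℤ), (∀ s' z, s ≤ s' → s' ≤ s + m → z ∈ Z → z ∈ Boxn n →
      mis n e Z' m' s' z ≤ β) → d ∈ Boxn n →
    mis n e Z' (m + m') s d ≤ β + (1 - β) * mis n e Z m s d := by
  induction m with
  | zero =>
    intro s d hZ hd
    by_cases h : d ∈ Z
    · rw [mis_mem h, mul_zero, add_zero, zero_add]
      exact hZ s d le_rfl le_rfl h hd
    · rw [mis_zero h]
      have := mis_le_one (n := n) (e := e) (Z := Z') (0 + m') s d
      linarith
  | succ m ih =>
    intro s d hZ hd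
    by_cases h : d ∈ Z
    · rw [mis_mem h, mul_zero, add_zero]
      exact (mis_anti (Nat.le_add_left _ _) s d).trans
        (hZ s d le_rfl (Nat.le_add_right _ _) h hd)
    · by_cases h' : d ∈ Z'
      · rw [mis_mem h']
        have := mis_nonneg (n := n) (e := e) (Z := Z) (m + 1) s d
        have h1 : 0 ≤ (1 - β) * mis n e Z (m + 1) s d := mul_nonneg (by linarith) this
        linarith
      · have e1 : m + 1 + m' = (m + m') + 1 := by ring
        rw [e1, mis_succ h', mis_succ h]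
        have h1 : ∑ u : Fin 12, mis n e Z' (m + m') (s + 1) (nx n e s u d) ≤
            ∑ u : Fin 12, (β + (1 - β) * mis n e Z m (s + 1) (nx n e s u d)) :=
          sum_le_sum fun u _ => ih (s + 1) _ (fun s' z h1 h2 => hZ s' z (by omega) (by omega))
            (nx_box hn hd s u)
        rw [sum_add_distrib, sum_const, card_univ, Fintype.card_fin, ← mul_sum] at h1
        rw [div_le_iff₀ (by norm_num)]
        refine h1.trans (le_of_eq ?_)
        simp only [nsmul_eq_mul]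
        push_cast
        ring

/-- if all the coins are equally bad except one which hits -/
theorem one_coin {F : Fin 12 → ℝ} (u₀ : Fin 12) (h0 : F u₀ = 0) {C : ℝ} (h : ∀ u, F u ≤ C) :
    (∑ u, F u) / 12 ≤ 11 / 12 * C := by
  have h1 : ∑ u, F u = ∑ u ∈ univ.erase u₀, F u := by
    rw [← add_sum_erase univ F (mem_univ u₀), h0, zero_add]
  have h2 : ∑ u ∈ univ.erase u₀, F u ≤ ∑ _u ∈ univ.erase u₀, C := sum_le_sum fun u _ => h u
  rw [sum_const, card_erase_of_mem (mem_univ u₀), card_univ, Fintype.card_fin,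
    nsmul_eq_mul] at h2
  rw [h1, div_le_iff₀ (by norm_num)]
  push_cast at h2
  norm_num at h2
  linarith

/-- one round -/
theorem mis_one {d : ℤ × ℤ} {s : ℕ} (h : nx n e s 0 d ∈ Z) : mis n e Z 1 s d ≤ 11 / 12 := by
  by_cases h1 : d ∈ Z
  · rw [mis_mem h1]; norm_num
  · rw [mis_succ h1]
    have := one_coin (F := fun u => mis n e Z 0 (s + 1) (nx n e s u d)) 0 (mis_mem h _ _)
      (C := 1) fun u => mis_le_one _ _ _
    linarith

/-- expected hitting times -/
theorem hit_time {Dom : Set (ℤ × ℤ)} {Ψ : ℕ → ℤ × ℤ → ℝ} {T : ℕ}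
    (h0 : ∀ s d, s ≤ T → d ∈ Dom → d ∉ Z → 0 ≤ Ψ s d)
    (h1 : ∀ s d, s + 1 ≤ T → d ∈ Dom → d ∉ Z →
      (∀ u, nx n e s u d ∈ Dom ∨ nx n e s u d ∈ Z) ∧
      ∀ F : Fin 12 → ℝ, (∀ u, nx n e s u d ∈ Z → F u = 0) →
        (∀ u, nx n e s u d ∉ Z → F u ≤ Ψ (s + 1) (nx n e s u d)) →
        1 + (∑ u, F u) / 12 ≤ Ψ s d) (m : ℕ) :
    ∀ s d, s + m ≤ T → d ∈ Dom → d ∉ Z → ∑ j ∈ range m, mis n e Z j s d ≤ Ψ s d := by
  induction m with
  | zero =>
    intro s d hs hd hZ
    rw [range_zero, sum_empty]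
    exact h0 s d hs hd hZ
  | succ m ih =>
    intro s d hs hd hZ
    obtain ⟨h2, h3⟩ := h1 s d (by omega) hd hZ
    have h4 := h3 (fun u => ∑ j ∈ range m, mis n e Z j (s + 1) (nx n e s u d))
      (fun u hu => sum_eq_zero fun j _ => mis_mem hu _ _)
      (fun u hu => ih (s + 1) _ (by omega) ((h2 u).resolve_right hu) hu)
    rw [sum_range_succ', mis_zero hZ]
    simp only [mis_succ hZ]
    rw [← sum_div, sum_comm]
    linarith

theorem hit_prob {Dom : Set (ℤ × ℤ)} {Ψ : ℕ → ℤ × ℤ → ℝ} {T : ℕ}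
    (h0 : ∀ s d, s ≤ T → d ∈ Dom → d ∉ Z → 0 ≤ Ψ s d)
    (h1 : ∀ s d, s + 1 ≤ T → d ∈ Dom → d ∉ Z →
      (∀ u, nx n e s u d ∈ Dom ∨ nx n e s u d ∈ Z) ∧
      ∀ F : Fin 12 → ℝ, (∀ u, nx n e s u d ∈ Z → F u = 0) →
        (∀ u, nx n e s u d ∉ Z → F u ≤ Ψ (s + 1) (nx n e s u d)) →
        1 + (∑ u, F u) / 12 ≤ Ψ s d) {m s : ℕ} {d : ℤ × ℤ} (hs : s + m ≤ T) (hd : d ∈ Dom)
    (hZ : d ∉ Z) : m * mis n e Z m s d ≤ Ψ s d := by
  refine le_trans ?_ (hit_time h0 h1 m s d hs hd hZ)
  calc (m : ℝ) * mis n e Z m s d = ∑ _j ∈ range m, mis n e Z m s d := by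
        rw [sum_const, card_range, nsmul_eq_mul]
    _ ≤ ∑ j ∈ range m, mis n e Z j s d :=
        sum_le_sum fun j hj => mis_anti (mem_range.1 hj).le s d

theorem tau_bij : Function.Bijective tau :=
  Function.Involutive.bijective tau_tau

theorem nx_swap (hn : 3 ≤ n) (s : ℕ) (u : Fin 12) (d : ℤ × ℤ) :
    nx n (fun t => !(e t)) s (tau u) d.swap = (nx n e s u d).swap := by
  unfold nx
  rw [smg_swap, zu_swap n hn]

/-- symmetry -/
theorem mis_swap (hn : 3 ≤ n) (Z : Set (ℤ × ℤ)) (m : ℕ) : ∀ (s : ℕ) (d : ℤ × ℤ),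
    mis n (fun t => !(e t)) (Prod.swap ⁻¹' Z) m s d.swap = mis n e Z m s d := by
  induction m with
  | zero =>
    intro s d
    by_cases h : d ∈ Z
    · rw [mis_mem h, mis_mem]
      simpa using h
    · rw [mis_zero h, mis_zero]
      simpa using h
  | succ m ih =>
    intro s d
    by_cases h : d ∈ Z
    · rw [mis_mem h, mis_mem]
      simpa using h
    · rw [mis_succ h, mis_succ (by simpa using h)]
      congr 1
      rw [← (Equiv.ofBijective tau tau_bij).sum_comp]
      refine sum_congr rfl fun u _ => ?_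
      rw [Equiv.ofBijective_apply, nx_swap hn, ih]

/-! ### counting -/

theorem card_cons {m : ℕ} (P : (Fin (m + 1) → Fin 12) → Prop) [DecidablePred P] :
    (univ.filter fun v : Fin (m + 1) → Fin 12 => P v).card =
      ∑ u : Fin 12, (univ.filter fun v : Fin m → Fin 12 => P (Fin.cons u v)).card := by
  simp only [card_filter]
  rw [← (Fin.consEquiv (fun _ : Fin (m + 1) => Fin 12)).sum_comp, Fintype.sum_prod_type]
  rfl

/-- positions at the decisions, from the position `d` at the decision `s` -/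
def dp (n : ℕ) (e : ℕ → Bool) (u : ℕ → Fin 12) (s : ℕ) (d : ℤ × ℤ) : ℕ → ℤ × ℤ
  | 0 => d
  | i + 1 => nx n e (s + i) (u i) (dp n e u s d i)

theorem dp_shift (u : ℕ → Fin 12) (s : ℕ) (d : ℤ × ℤ) (i : ℕ) :
    dp n e u s d (i + 1) = dp n e (fun j => u (j + 1)) (s + 1) (nx n e s (u 0) d) i := by
  induction i with
  | zero => rfl
  | succ i ih =>
    rw [dp, ih, dp]
    congr 1
    ring

theorem du_eq (u : ℕ → Fin 12) (p : ℤ × ℤ) (t : ℕ) :
    du n u e p t = dp n e (fun j => u (j + 1)) 0 (zu n (u 0) p) t := by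
  induction t with
  | zero => rfl
  | succ t ih =>
    rw [dp, ← ih, zero_add]
    rfl

theorem ext12_cons_zero {m : ℕ} (u : Fin 12) (v : Fin m → Fin 12) :
    ext12 (Fin.cons u v : Fin (m + 1) → Fin 12) 0 = u := by
  simp [ext12]

theorem ext12_cons_succ {m : ℕ} (u : Fin 12) (v : Fin m → Fin 12) :
    (fun j => ext12 (Fin.cons u v : Fin (m + 1) → Fin 12) (j + 1)) = ext12 v := by
  funext j
  simp only [ext12]
  by_cases h : j < m
  · rw [dif_pos h, dif_pos (by omega)]
    have : (⟨j + 1, by omega⟩ : Fin (m + 1)) = Fin.succ ⟨j, h⟩ := rfl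
    rw [this, Fin.cons_succ]
  · rw [dif_neg h, dif_neg (by omega)]

open Classical in
/-- the number of coins which lead to a point outside an absorbing set -/
theorem count_le {A : Set (ℤ × ℤ)} (hA : ∀ s u d, d ∈ A → nx n e s u d ∈ A) (m : ℕ) :
    ∀ (s : ℕ) (d : ℤ × ℤ),
    ((univ.filter fun v : Fin m → Fin 12 => dp n e (ext12 v) s d m ∉ A).card : ℝ) ≤
      12 ^ m * mis n e A m s d := by
  induction m with
  | zero =>
    intro s d
    by_cases h : d ∈ A
    · rw [mis_mem h, mul_zero, filter_false_of_mem fun v _ => by simpa [dp] using h]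
      simp
    · rw [mis_zero h]
      refine (Nat.cast_le.2 (card_filter_le _ _)).trans ?_
      simp
  | succ m ih =>
    intro s d
    rw [card_cons]
    push_cast
    have h1 : ∀ u : Fin 12, ((univ.filter fun v : Fin m → Fin 12 =>
        dp n e (ext12 (Fin.cons u v : Fin (m + 1) → Fin 12)) s d (m + 1) ∉ A).card : ℝ) ≤
        12 ^ m * mis n e A m (s + 1) (nx n e s u d) := by
      intro u
      refine le_trans (le_of_eq ?_) (ih (s + 1) (nx n e s u d))
      congr 2
      ext v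
      simp only [mem_filter, mem_univ, true_and]
      rw [dp_shift, ext12_cons_zero, ext12_cons_succ]
    refine (sum_le_sum fun u _ => h1 u).trans ?_
    by_cases h : d ∈ A
    · rw [mis_mem h, mul_zero, sum_eq_zero fun u _ => ?_]
      rw [mis_mem (hA s u d h), mul_zero]
    · rw [mis_succ h, ← mul_sum]
      refine le_of_eq ?_
      rw [pow_succ]
      ring

end AbpL
end Pool.Agent.Helper57K9.XZ
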