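import Pool.Agent.Helper57K9.XZ.AbpA

/-!
# Leaf ABP (helper30), part B: the dynamics of one zombie
-/

set_option autoImplicit false

namespace Pool.Agent.Helper57K9.XZ
namespace AbpL

open Finset Pool.Agent.Helper5K9.ZN

variable {n : ℕ} {e : ℕ → Bool}

theorem hx_nt {a : ℤ} (h : 2 * a ≠ n) (s : Bool) : hx n s a = a - a.sign := by
  unfold hx
  rw [if_neg]
  exact fun h1 => h h1.1

theorem sign_cases (a : ℤ) : (a < 0 ∧ a.sign = -1) ∨ (a = 0 ∧ a.sign = 0) ∨ (0 < a ∧ a.sign = 1) := by
  rcases lt_trichotomy a 0 with h | h | h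
  · exact Or.inl ⟨h, Int.sign_eq_neg_one_of_neg h⟩
  · subst h; exact Or.inr (Or.inl ⟨rfl, Int.sign_zero⟩)
  · exact Or.inr (Or.inr ⟨h, Int.sign_eq_one_of_pos h⟩)

/-- the move of a zombie without tie -/
theorem zu_nt {q : ℤ × ℤ} (h1 : 2 * q.1 ≠ n) (h2 : 2 * q.2 ≠ n) (u : Fin 12) :
    zu n u q = if q.2 = 0 ∨ (bt u = true ∧ q.1 ≠ 0) then (q.1 - q.1.sign, q.2)
      else (q.1, q.2 - q.2.sign) := by
  unfold zu zmg cfs
  rw [if_neg h1, if_neg h2, hx_nt h1, hx_nt h2]
  rfl

/-- the first coordinate -/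
theorem zu_fst {q : ℤ × ℤ} (h1 : 2 * q.1 ≠ n) (u : Fin 12) :
    (zu n u q).1 = q.1 ∨ (zu n u q).1 = q.1 - q.1.sign := by
  unfold zu zmg
  split_ifs
  · right
    exact hx_nt h1 _
  · left
    rfl

/-- the coin `0` -/
theorem cfs_zero (q : ℤ × ℤ) : cfs n 0 q =
    if 2 * q.1 = n then (true, true) else if 2 * q.2 = n then (false, true) else (true, true) := by
  unfold cfs
  split_ifs <;> simp

/-- the coin `0` resolves a tie of the first coordinate -/
theorem zu_zero_tie {q : ℤ × ℤ} (hn : 1 ≤ n) (h1 : 2 * q.1 = n) : zu n 0 q = (q.1 - 1, q.2) := by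
  have h2 : 0 < q.1 := by omega
  unfold zu
  rw [cfs_zero, if_pos h1]
  unfold zmg
  rw [if_pos (Or.inr ⟨rfl, h2.ne'⟩)]
  unfold hx
  rw [if_neg (by simp), Int.sign_eq_one_of_pos h2]

/-- the coin `0` resolves a tie of the second coordinate -/
theorem zu_zero_tie2 {q : ℤ × ℤ} (hn : 1 ≤ n) (h1 : 2 * q.1 ≠ n) (h2 : 2 * q.2 = n) :
    zu n 0 q = (q.1, q.2 - 1) := by
  have h3 : 0 < q.2 := by omega
  unfold zu
  rw [cfs_zero, if_neg h1, if_pos h2]
  unfold zmg
  rw [if_neg (by
    rintro (h | h)
    · exact h3.ne' h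
    · exact absurd h.1 (by simp))]
  unfold hx
  rw [if_neg (by simp), Int.sign_eq_one_of_pos h3]

theorem smg_true (q : ℤ × ℤ) : smg n true q = (wrn n (q.1 - 1), q.2) := rfl

theorem smg_false (q : ℤ × ℤ) : smg n false q = (q.1, wrn n (q.2 - 1)) := rfl

theorem wrn_nt {a : ℤ} (h1 : -(n : ℤ) < 2 * a) (h2 : 2 * a ≤ n) : wrn n a = a := by
  unfold wrn
  rw [if_neg (by omega), if_neg (by omega)]

theorem wrn_w {a : ℤ} (h1 : 2 * a ≤ -(n : ℤ)) : wrn n a = a + n := by
  unfold wrn
  rw [if_pos h1]

theorem WW_succ (s : ℕ) : WW e (s + 1) = WW e s + sgn (e s) := by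
  unfold WW
  rw [sum_range_succ]

/-! ### the front -/

theorem front_step {s : ℕ} {d : ℤ × ℤ} (h0 : 0 < d.1) (h1 : 2 * d.1 < n) (u : Fin 12) :
    0 ≤ (nx n e s u d).1 ∧ 2 * (nx n e s u d).1 < n ∧
      2 * (nx n e s u d).1 + sgn (e s) ≤ 2 * d.1 - 1 := by
  unfold nx
  cases he : e s
  · have hq : (smg n false d).1 = d.1 := rfl
    have h2 : 2 * (smg n false d).1 ≠ n := by rw [hq]; omega
    have h3 : sgn false = -1 := rfl
    rcases zu_fst h2 u with h | h
    · rw [h, hq, h3]; omega
    · rw [h, hq, h3, Int.sign_eq_one_of_pos h0]; omega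
  · have hq : (smg n true d).1 = d.1 - 1 := by
      rw [smg_true]
      exact wrn_nt (by omega) (by omega)
    have h2 : 2 * (smg n true d).1 ≠ n := by rw [hq]; omega
    have h3 : sgn true = 1 := rfl
    rcases zu_fst h2 u with h | h
    · rw [h, hq, h3]; omega
    · rw [h, hq, h3]
      rcases sign_cases (d.1 - 1) with h4 | h4 | h4 <;> rw [h4.2] <;> omega

/-- from the front (without a tie) a zombie reaches the line `x = 0` -/
theorem front {R T : ℕ} (hT : Tube R e T) (m : ℕ) : ∀ (s : ℕ) (d : ℤ × ℤ), s + m ≤ T → 0 < d.1 →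
    2 * d.1 < n → 2 * d.1 + WW e s + R ≤ m → mis n e {q | q.1 = 0} m s d = 0 := by
  induction m with
  | zero =>
    intro s d hs h0 h1 h2
    have := (abs_le.1 (hT s (by omega))).1
    push_cast at h2
    omega
  | succ m ih =>
    intro s d hs h0 h1 h2
    have hd : d ∉ {q : ℤ × ℤ | q.1 = 0} := fun h => h0.ne' h
    rw [mis_succ hd, sum_eq_zero, zero_div]
    intro u _
    obtain ⟨h3, h4, h5⟩ := front_step (e := e) (s := s) h0 h1 u
    rcases h3.eq_or_lt with h6 | h6
    · exact mis_mem (show nx n e s u d ∈ {q : ℤ × ℤ | q.1 = 0} from h6.symm) _ _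
    · refine ih (s + 1) _ (by omega) h6 h4 ?_
      rw [WW_succ]
      push_cast at h2
      omega

/-! ### absorption -/

theorem absn_iff {q : ℤ × ℤ} : Absn n q ↔ q.1 ≤ 0 ∧ q.2 ≤ 0 ∧ 2 * (-q.1 - q.2) + 3 ≤ (n : ℤ) := by
  unfold Absn L1
  constructor
  · rintro ⟨h1, h2, h3⟩
    rw [abs_of_nonpos h1, abs_of_nonpos h2] at h3
    exact ⟨h1, h2, by omega⟩
  · rintro ⟨h1, h2, h3⟩
    refine ⟨h1, h2, ?_⟩
    rw [abs_of_nonpos h1, abs_of_nonpos h2]
    omega

theorem absn_step {s : ℕ} {d : ℤ × ℤ} (h : Absn n d) (u : Fin 12) : Absn n (nx n e s u d) := by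
  rw [absn_iff] at h ⊢
  obtain ⟨h1, h2, h3⟩ := h
  unfold nx
  cases he : e s
  · have hq : smg n false d = (d.1, d.2 - 1) := by
      rw [smg_false, wrn_nt (by omega) (by omega)]
    rw [hq, zu_nt (by simp only; omega) (by simp only; omega)]
    simp only
    have h4 : (d.2 - 1).sign = -1 := Int.sign_eq_neg_one_of_neg (by omega)
    rw [if_congr (or_iff_right (by omega : ¬ (d.2 - 1 = 0))) rfl rfl, h4]
    split_ifs with h5
    · have h6 : d.1.sign = -1 := Int.sign_eq_neg_one_of_neg (by
        rcases h5 with ⟨_, h5⟩; omega)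
      simp only [h6]
      omega
    · simp only
      omega
  · have hq : smg n true d = (d.1 - 1, d.2) := by
      rw [smg_true, wrn_nt (by omega) (by omega)]
    rw [hq, zu_nt (by simp only; omega) (by simp only; omega)]
    simp only
    have h4 : (d.1 - 1).sign = -1 := Int.sign_eq_neg_one_of_neg (by omega)
    rw [h4]
    split_ifs with h5
    · simp only
      omega
    · rw [not_or] at h5
      have h6 : d.2.sign = -1 := Int.sign_eq_neg_one_of_neg (by omega)
      simp only [h6]
      omega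

/-! ### the east side, near the axis -/

/-- one round on the east side -/
theorem side_step {s : ℕ} {d : ℤ × ℤ} (h0 : 0 < d.1) (h1 : 2 * d.1 < n) (h2 : d.2 ≤ 0)
    (h3 : -2 * d.2 + 2 < n) :
    ((∀ u, (nx n e s u d).2 ≤ 0 ∧ -2 * (nx n e s u d).2 ≤ -2 * d.2 + 2) ∧
      ((∀ u, (nx n e s u d).1 = 0) ∨
        (d.2 = 0 ∧ ∀ u, (nx n e s u d).1 = 0 ∨
          -2 * (nx n e s u d).2 + sgn (e s) = -2 * d.2 + 1) ∨
        (∀ u, (nx n e s u d).1 = 0 ∨ -2 * (nx n e s u d).2 + sgn (e s) =
          if bt u = true then -2 * d.2 + 1 else -2 * d.2 - 1))) := by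
  unfold nx
  cases he : e s
  · have hq : smg n false d = (d.1, d.2 - 1) := by
      rw [smg_false, wrn_nt (by omega) (by omega)]
    have hs : sgn false = -1 := rfl
    have h4 : (d.2 - 1).sign = -1 := Int.sign_eq_neg_one_of_neg (by omega)
    have hz : ∀ u, zu n u (smg n false d) = if bt u = true then (d.1 - 1, d.2 - 1) else
        (d.1, d.2) := by
      intro u
      rw [hq, zu_nt (by simp only; omega) (by simp only; omega)]
      simp only
      rw [if_congr (or_iff_right (by omega : ¬ (d.2 - 1 = 0))) rfl rfl, h4,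
        Int.sign_eq_one_of_pos h0]
      by_cases hb : bt u = true
      · rw [if_pos ⟨hb, h0.ne'⟩, if_pos hb]
      · rw [if_neg (fun h => hb h.1), if_neg hb]
        simp
    refine ⟨fun u => ?_, Or.inr (Or.inr fun u => Or.inr ?_)⟩
    · rw [hz]
      split_ifs <;> simp only <;> omega
    · rw [hz, hs]
      split_ifs <;> simp only <;> omega
  · have hq : smg n true d = (d.1 - 1, d.2) := by
      rw [smg_true, wrn_nt (by omega) (by omega)]
    have hs : sgn true = 1 := rfl
    by_cases hd2 : d.2 = 0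
    · have hz : ∀ u, (zu n u (smg n true d)).2 = 0 := by
        intro u
        rw [hq, zu_nt (by simp only; omega) (by simp only; omega)]
        simp only
        rw [if_pos (Or.inl hd2)]
        exact hd2
      refine ⟨fun u => ?_, Or.inr (Or.inl ⟨hd2, fun u => Or.inr ?_⟩)⟩
      · rw [hz u]; omega
      · rw [hz u, hs]; omega
    · have h4 : d.2.sign = -1 := Int.sign_eq_neg_one_of_neg (by omega)
      by_cases hd1 : d.1 - 1 = 0
      · have hz : ∀ u, zu n u (smg n true d) = (0, d.2 + 1) := by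
          intro u
          rw [hq, zu_nt (by simp only; omega) (by simp only; omega)]
          simp only
          rw [if_neg (by
            rintro (h | h)
            · exact hd2 h
            · exact h.2 hd1), h4, hd1]
          simp
        refine ⟨fun u => ?_, Or.inl fun u => ?_⟩
        · rw [hz u]; simp only; omega
        · rw [hz u]
      · have hz : ∀ u, zu n u (smg n true d) = if bt u = true then (d.1 - 2, d.2) else
            (d.1 - 1, d.2 + 1) := by
          intro u
          rw [hq, zu_nt (by simp only; omega) (by simp only; omega)]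
          simp only
          rw [if_congr (or_iff_right hd2) rfl rfl, h4,
            Int.sign_eq_one_of_pos (by omega : 0 < d.1 - 1)]
          by_cases hb : bt u = true
          · rw [if_pos ⟨hb, hd1⟩, if_pos hb]
            ext <;> simp only <;> omega
          · rw [if_neg (fun h => hb h.1), if_neg hb]
            simp
        refine ⟨fun u => ?_, Or.inr (Or.inr fun u => Or.inr ?_)⟩
        · rw [hz]
          split_ifs <;> simp only <;> omega
        · rw [hz, hs]
          split_ifs <;> simp only <;> omega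

/-- the sum over the coins of a function of the base bit -/
theorem sum_bt (a b : ℝ) : ∑ u : Fin 12, (if bt u = true then a else b) = 6 * a + 6 * b := by
  rw [sum_ite, sum_const, sum_const]
  have h1 : (univ.filter fun u : Fin 12 => bt u = true).card = 6 := by decide
  have h2 : (univ.filter fun u : Fin 12 => ¬ bt u = true).card = 6 := by decide
  rw [h1, h2]
  simp

/-- the square of the positive part -/
noncomputable def fq (y : ℤ) : ℝ := (max (y : ℝ) 0) ^ 2

theorem fq_nonneg (y : ℤ) : 0 ≤ fq y := sq_nonneg _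

theorem fq_step (y : ℤ) : fq (y + 1) + fq (y - 1) ≤ 2 * fq y + 2 := by
  unfold fq
  rcases lt_trichotomy y 0 with h | h | h
  · have h1 : ((y + 1 : ℤ) : ℝ) ≤ 0 := by exact_mod_cast (by omega : y + 1 ≤ 0)
    have h2 : ((y - 1 : ℤ) : ℝ) ≤ 0 := by exact_mod_cast (by omega : y - 1 ≤ 0)
    have h3 : ((y : ℤ) : ℝ) ≤ 0 := by exact_mod_cast (by omega : y ≤ 0)
    rw [max_eq_right h1, max_eq_right h2, max_eq_right h3]
    norm_num
  · subst h
    norm_num
  · have h1 : 0 ≤ ((y + 1 : ℤ) : ℝ) := by exact_mod_cast (by omega : 0 ≤ y + 1)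
    have h2 : 0 ≤ ((y - 1 : ℤ) : ℝ) := by exact_mod_cast (by omega : 0 ≤ y - 1)
    have h3 : 0 ≤ ((y : ℤ) : ℝ) := by exact_mod_cast (by omega : 0 ≤ y)
    rw [max_eq_left h1, max_eq_left h2, max_eq_left h3]
    push_cast
    nlinarith

theorem fq_mono {y z : ℤ} (h : y ≤ z) : fq y ≤ fq z := by
  unfold fq
  have h1 : (y : ℝ) ≤ z := by exact_mod_cast h
  exact pow_le_pow_left₀ (le_max_right _ _) (max_le_max h1 le_rfl) 2

theorem fq_nonpos {y : ℤ} (h : y ≤ 0) : fq y = 0 := by
  unfold fq
  have h1 : (y : ℝ) ≤ 0 := by exact_mod_cast h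
  rw [max_eq_right h1]
  norm_num

/-- from the east side near the axis to absorption -/
theorem side {R T : ℕ} (hT : Tube R e T) {θ : ℝ} (hθ : 0 < θ)
    (hθ2 : ∀ y : ℤ, (n : ℤ) - 6 - 2 * R ≤ y → θ ≤ fq y) (m : ℕ) :
    ∀ (s : ℕ) (d : ℤ × ℤ), s + m ≤ T → 0 < d.1 → 2 * d.1 < n → d.2 ≤ 0 →
    2 * d.1 + WW e s + R ≤ m →
    mis n e {q | Absn n q} m s d ≤ (fq (-2 * d.2 + WW e s - R - 1) + m) / θ := by
  induction m with
  | zero =>
    intro s d hs h0 h1 h2 h3
    have := (abs_le.1 (hT s (by omega))).1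
    push_cast at h3
    omega
  | succ m ih =>
    intro s d hs h0 h1 h2 h3
    have hWs := abs_le.1 (hT s (by omega))
    set Y := -2 * d.2 + WW e s - R - 1 with hY
    by_cases hH : (n : ℤ) - 5 ≤ -2 * d.2
    · refine (mis_le_one _ _ _).trans ?_
      rw [le_div_iff₀ hθ, one_mul]
      have h4 := hθ2 Y (by omega)
      have h5 : (0 : ℝ) ≤ ((m + 1 : ℕ) : ℝ) := Nat.cast_nonneg _
      linarith
    · have hd : d ∉ {q : ℤ × ℤ | Absn n q} := fun h => by
        have h : Absn n d := h
        rw [absn_iff] at h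
        omega
      rw [mis_succ hd]
      obtain ⟨hbd, hcase⟩ := side_step (e := e) (s := s) h0 h1 h2 (by omega)
      -- absorbed at the line
      have habs : ∀ u, (nx n e s u d).1 = 0 →
          mis n e {q | Absn n q} m (s + 1) (nx n e s u d) = 0 := by
        intro u hu
        refine mis_mem ?_ _ _
        show Absn n _
        rw [absn_iff]
        have := hbd u
        omega
      -- the others
      have hgen : ∀ u, (nx n e s u d).1 ≠ 0 →
          mis n e {q | Absn n q} m (s + 1) (nx n e s u d) ≤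
            (fq ((-2 * (nx n e s u d).2 + sgn (e s)) + WW e s - R - 1) + m) / θ := by
        intro u hu
        obtain ⟨h4, h5, h6⟩ := front_step (e := e) (s := s) h0 h1 u
        have h7 := ih (s + 1) (nx n e s u d) (by omega) (by omega) h5 (hbd u).1 (by
          rw [WW_succ]
          push_cast at h3
          omega)
        rw [WW_succ] at h7
        have e1 : -2 * (nx n e s u d).2 + (WW e s + sgn (e s)) - R - 1 =
            (-2 * (nx n e s u d).2 + sgn (e s)) + WW e s - R - 1 := by ring
        rwa [e1] at h7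
      have hm0 : (0 : ℝ) ≤ (m : ℝ) := Nat.cast_nonneg _
      rcases hcase with hc | ⟨hd2, hc⟩ | hc
      · rw [sum_eq_zero fun u _ => habs u (hc u), zero_div]
        exact div_nonneg (add_nonneg (fq_nonneg _) (Nat.cast_nonneg _)) hθ.le
      · refine avg_le fun u => ?_
        by_cases hu : (nx n e s u d).1 = 0
        · rw [habs u hu]
          exact div_nonneg (add_nonneg (fq_nonneg _) (Nat.cast_nonneg _)) hθ.le
        · refine (hgen u hu).trans (div_le_div_of_nonneg_right ?_ hθ.le)
          rw [(hc u).resolve_left hu, fq_nonpos (by omega)]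
          have := fq_nonneg Y
          push_cast
          linarith
      · have h8 : ∀ u, mis n e {q | Absn n q} m (s + 1) (nx n e s u d) ≤
            if bt u = true then (fq (Y + 1) + m) / θ else (fq (Y - 1) + m) / θ := by
          intro u
          by_cases hu : (nx n e s u d).1 = 0
          · rw [habs u hu]
            split_ifs <;>
              exact div_nonneg (add_nonneg (fq_nonneg _) (Nat.cast_nonneg _)) hθ.le
          · refine (hgen u hu).trans (le_of_eq ?_)
            rw [(hc u).resolve_left hu]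
            split_ifs
            · have e1 : -2 * d.2 + 1 + WW e s - R - 1 = Y + 1 := by rw [hY]; ring
              rw [e1]
            · have e1 : -2 * d.2 - 1 + WW e s - R - 1 = Y - 1 := by rw [hY]; ring
              rw [e1]
        have h9 := sum_le_sum fun u (_ : u ∈ (univ : Finset (Fin 12))) => h8 u
        rw [sum_bt] at h9
        rw [div_le_iff₀ (by norm_num)]
        refine h9.trans ?_
        have h10 := fq_step Y
        have e2 : 6 * ((fq (Y + 1) + m) / θ) + 6 * ((fq (Y - 1) + m) / θ) =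
            (6 * (fq (Y + 1) + fq (Y - 1)) + 12 * m) / θ := by ring
        rw [e2, div_mul_eq_mul_div]
        refine div_le_div_of_nonneg_right ?_ hθ.le
        push_cast
        linarith

end AbpL
end Pool.Agent.Helper57K9.XZ
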