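import Pool.Agent.Helper57K9.XZ.Stm2

/-!
# Zombies on the torus: the box and the symmetry
-/

set_option autoImplicit false

namespace Pool.Agent.Helper57K9.XZ

open Finset Pool.Agent.Helper5K9.ZN

theorem mem_In {n : ℕ} {a : ℤ} : a ∈ In n ↔ -(n : ℤ) < 2 * a ∧ 2 * a ≤ n := by
  simp only [In, mem_filter, mem_Icc]
  constructor
  · rintro ⟨_, h⟩; exact h
  · intro h; exact ⟨⟨by omega, by omega⟩, h⟩

theorem mem_Boxn {n : ℕ} {q : ℤ × ℤ} : q ∈ Boxn n ↔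
    (-(n : ℤ) < 2 * q.1 ∧ 2 * q.1 ≤ n) ∧ (-(n : ℤ) < 2 * q.2 ∧ 2 * q.2 ≤ n) := by
  rw [Boxn, mem_product, mem_In, mem_In]

theorem card_In (n : ℕ) (hn : 1 ≤ n) : (In n).card = n := by
  have h : In n = Icc (-(((n : ℤ) - 1) / 2)) ((n : ℤ) / 2) := by
    ext a
    rw [mem_In, mem_Icc]
    omega
  rw [h, Int.card_Icc]
  omega

theorem hx_mem {n : ℕ} (hn : 3 ≤ n) (s : Bool) {a : ℤ} (ha : -(n : ℤ) < 2 * a ∧ 2 * a ≤ n) :
    -(n : ℤ) < 2 * hx n s a ∧ 2 * hx n s a ≤ n := by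
  unfold hx
  split_ifs with h
  · omega
  · rcases lt_trichotomy a 0 with h1 | h1 | h1
    · rw [Int.sign_eq_neg_one_of_neg h1]; omega
    · subst h1; simp; omega
    · rw [Int.sign_eq_one_of_pos h1]; omega

theorem bx : S_BX := by
  intro n hn
  refine ⟨?_, ?_⟩
  · rw [Boxn, card_product, card_In n (by omega), sq]
  · intro q hq
    rw [mem_Boxn] at hq
    refine ⟨fun u => ?_, fun e => ?_⟩
    · rw [mem_Boxn]
      unfold zu zmg
      split_ifs with h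
      · exact ⟨hx_mem hn _ hq.1, hq.2⟩
      · exact ⟨hq.1, hx_mem hn _ hq.2⟩
    · rw [mem_Boxn]
      unfold smg wrn
      split_ifs <;> simp only <;> refine ⟨⟨?_, ?_⟩, ⟨?_, ?_⟩⟩ <;> omega

end Pool.Agent.Helper57K9.XZ
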