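import Pool.Agent.Helper57K9.XZ.Nvx

/-!
# Leaf CNT
-/

set_option autoImplicit false

namespace Pool.Agent.Helper57K9.XZ

open Finset Pool.Agent.Helper5K9.ZN

open NvxL in
/-- **CNT** -/
theorem cntl (hV : S_NVX) (hS : S_SPC) (hX : S_XIT) : S_CNT := by
  classical
  intro n K k i u e p hB hp hg hO hT hW hWin b hb
  obtain ⟨hn, hB1, hLam⟩ := big n K hB
  have hD1 : (D1 K : ℤ) = 4 * Lam K := by unfold D1; push_cast; ring
  have hLR : (Lam K : ℤ) = 8 * RR K := by unfold Lam; push_cast; ring
  have hRF : (RR K : ℤ) = 200 * Fq K := by unfold RR; push_cast; ring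
  have hFq : (1000 : ℤ) ≤ Fq K := by
    rw [Fq_eq]
    push_cast
    have : (0 : ℤ) ≤ K := Int.natCast_nonneg K
    linarith
  have hB2 : 1000000 * (Lam K : ℤ) ≤ n := by exact_mod_cast hB1
  by_contra hcon
  push Not at hcon
  -- the epochs
  obtain ⟨J, hJ⟩ : ∃ J : Finset ℕ, J = (Ico i (i + 600)).filter fun j => j % 2 = b := ⟨_, rfl⟩
  have hJc : J.card = 300 := by
    have h1 : J = (range 300).image fun r => i + 2 * r + (if i % 2 = b then 0 else 1) := by
      rw [hJ]
      ext j
      simp only [mem_filter, mem_Ico, mem_image, mem_range]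
      constructor
      · rintro ⟨⟨h1, h2⟩, h3⟩
        by_cases h : i % 2 = b
        · refine ⟨(j - i) / 2, by omega, ?_⟩
          rw [if_pos h]
          omega
        · refine ⟨(j - i) / 2, by omega, ?_⟩
          rw [if_neg h]
          omega
      · rintro ⟨r, hr, rfl⟩
        by_cases h : i % 2 = b
        · rw [if_pos h]
          omega
        · rw [if_neg h]
          omega
    rw [h1, card_image_of_injective _ (fun x y hxy => by
      split_ifs at hxy <;> omega), card_range]
  have hz : ∀ j ∈ J, ∃ z : Fin k, Viol K (PD n u e p (j * Lam K) z) := by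
    intro j hj
    rw [hJ, mem_filter, mem_Ico] at hj
    have h1 := hcon j hj.1.1 hj.1.2 hj.2
    unfold Clean at h1
    push Not at h1
    exact h1
  have : Nonempty (Fin k) := by
    obtain ⟨j, hj⟩ := card_pos.1 (show 0 < J.card by rw [hJc]; norm_num)
    exact ⟨(hz j hj).choose⟩
  choose! z hz using hz
  have hL : ∀ j ∈ J, L1 (PD n u e p (j * Lam K) (z j)) ≤ 8 * Lam K := by
    intro j hj
    obtain ⟨-, h1, h2, -⟩ := hz j hj
    unfold L1
    linarith
  have htime : ∀ j ∈ J, j * Lam K + Lam K ≤ (i + 600) * Lam K := by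
    intro j hj
    rw [hJ, mem_filter, mem_Ico] at hj
    have : j + 1 ≤ i + 600 := by omega
    calc j * Lam K + Lam K = (j + 1) * Lam K := by ring
      _ ≤ _ := Nat.mul_le_mul_right _ this
  -- they are special
  have hsp : ∀ j ∈ J, z j ∈ Spec n K u e p (i * Lam K) := by
    intro j hj
    have hv := hz j hj
    have hl := hL j hj
    have ht := htime j hj
    have hji : i ≤ j ∧ j < i + 600 := by
      rw [hJ, mem_filter, mem_Ico] at hj
      exact hj.1
    by_contra hno
    have h1 : ∀ s ≤ j * Lam K, j * Lam K ≤ s + GG K →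
        ¬ (NEp (du n (u (z j)) e (p (z j)) s) ∧ L1 (du n (u (z j)) e (p (z j)) s) ≤ D2 K) := by
      intro s hs1 hs2 hs3
      apply hno
      simp only [Spec, mem_filter, mem_univ, true_and]
      refine ⟨s, ?_, ?_, hs3.1, hs3.2⟩
      · have : i * Lam K ≤ j * Lam K := Nat.mul_le_mul_right _ hji.1
        omega
      · have h5 : j * Lam K ≤ (i + 600) * Lam K := Nat.mul_le_mul_right _ (by omega)
        have h6 : (i + 600) * Lam K ≤ i * Lam K + GG K := by
          unfold GG
          nlinarith
        omega
    have h2 := hV n K (j * Lam K) (u (z j)) e (p (z j)) hB (hp _).1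
      (by
        intro s w hsw
        exact hg (z j) s w (by omega)) (hp _).2 (fun s hs => hT s (by omega))
      (fun t' ht' hG => hWin t' (by omega) hG) hv.1 (by
        unfold PD at hl
        have : (0 : ℤ) ≤ Lam K := Int.natCast_nonneg _
        linarith) h1
    have h3 := hW j (by omega)
    rw [abs_le] at h3
    obtain ⟨-, -, -, h4, h5⟩ := hv
    unfold PD at h4 h5
    rcases h2 with ⟨-, h6⟩ | ⟨-, h6⟩
    · linarith
    · linarith
  -- fibres
  have hfib : ∀ j ∈ J, ∀ j' ∈ J, z j = z j' → j' ≤ j + 9 := by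
    intro j hj j' hj' hzz
    by_contra hlt
    push Not at hlt
    have h1 := hL j hj
    have ht' := htime j' hj'
    have h2 := hX n (RR K) (u (z j)) e (p (z j)) (j * Lam K) (j' * Lam K) hn (hp _).1
      (fun s hs => hT s (by omega)) (by
        unfold PD at h1
        linarith) (by
        unfold PD at h1
        have h3 : (j + 10) * Lam K ≤ j' * Lam K := Nat.mul_le_mul_right _ (by omega)
        have h4 : (((j + 10) * Lam K : ℕ) : ℤ) ≤ ((j' * Lam K : ℕ) : ℤ) := by exact_mod_cast h3
        push_cast at h4 ⊢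
        linarith)
    have h3 := (hz j' hj').1
    rw [← hzz] at h3
    exact h2 h3
  have hcard := hS n K k (i * Lam K) u e p hB hp (fun s hs => hO s (by
    have : i * Lam K ≤ (i + 600) * Lam K := Nat.mul_le_mul_right _ (by omega)
    have h1 : 1 ≤ GG K := by unfold GG; omega
    omega))
  have h1 : J.card ≤ 10 * (Spec n K u e p (i * Lam K)).card := by
    refine card_le_mul_card_image_of_maps_to (f := z) hsp 10 ?_
    intro y hy
    rcases (J.filter fun x => z x = y).eq_empty_or_nonempty with h0 | h0
    · rw [h0]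
      simp
    · obtain ⟨m, hm, hmin⟩ := exists_min_image _ (fun x => x) h0
      have h2 : (J.filter fun x => z x = y) ⊆ Icc m (m + 9) := by
        intro x hx
        rw [mem_Icc]
        refine ⟨hmin x hx, ?_⟩
        rw [mem_filter] at hx hm
        exact hfib m hm.1 x hx.1 (by rw [hx.2, hm.2])
      refine (card_le_card h2).trans ?_
      rw [Nat.card_Icc]
      omega
  rw [hJc] at h1
  omega

end Pool.Agent.Helper57K9.XZ
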