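import Pool.Agent.Helper57K9.XZ.Stm2

/-! [CRI] -/

set_option autoImplicit false

namespace Pool.Agent.Helper57K9.XZ

open Finset Pool.Agent.Helper5K9.ZN

namespace CriL

theorem abs_spec (a : ℤ) : (0 ≤ a ∧ |a| = a) ∨ (a ≤ 0 ∧ |a| = -a) := by
  rcases le_total 0 a with h | h
  · exact Or.inl ⟨h, abs_of_nonneg h⟩
  · exact Or.inr ⟨h, abs_of_nonpos h⟩

theorem hx_spec (n : ℕ) (s : Bool) (a : ℤ) :
    (2 * a = n ∧ s = false ∧ hx n s a = a + 1 - n) ∨
    (¬ (2 * a = n ∧ s = false) ∧ 0 < a ∧ hx n s a = a - 1) ∨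
    (¬ (2 * a = n ∧ s = false) ∧ a < 0 ∧ hx n s a = a + 1) ∨
    (¬ (2 * a = n ∧ s = false) ∧ a = 0 ∧ hx n s a = 0) := by
  unfold hx
  by_cases h : 2 * a = n ∧ s = false
  · rw [if_pos h]
    exact Or.inl ⟨h.1, h.2, rfl⟩
  · rw [if_neg h]
    rcases lt_trichotomy a 0 with h1 | h1 | h1
    · refine Or.inr (Or.inr (Or.inl ⟨h, h1, ?_⟩))
      rw [Int.sign_eq_neg_one_of_neg h1]
      ring
    · refine Or.inr (Or.inr (Or.inr ⟨h, h1, ?_⟩))
      rw [h1]
      simp
    · refine Or.inr (Or.inl ⟨h, h1, ?_⟩)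
      rw [Int.sign_eq_one_of_pos h1]

theorem hxT (n : ℕ) (a : ℤ) : (0 < a ∧ hx n true a = a - 1) ∨ (a < 0 ∧ hx n true a = a + 1) ∨
    (a = 0 ∧ hx n true a = 0) := by
  rcases hx_spec n true a with h | h | h | h
  · exact absurd h.2.1 (by decide)
  · exact Or.inl h.2
  · exact Or.inr (Or.inl h.2)
  · exact Or.inr (Or.inr h.2)

theorem hxF (n : ℕ) (a : ℤ) : (2 * a = n ∧ hx n false a = a + 1 - n) ∨
    (2 * a ≠ n ∧ 0 < a ∧ hx n false a = a - 1) ∨ (2 * a ≠ n ∧ a < 0 ∧ hx n false a = a + 1) ∨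
    (2 * a ≠ n ∧ a = 0 ∧ hx n false a = 0) := by
  rcases hx_spec n false a with h | h | h | h
  · exact Or.inl ⟨h.1, h.2.2⟩
  · exact Or.inr (Or.inl ⟨fun h' => h.1 ⟨h', rfl⟩, h.2⟩)
  · exact Or.inr (Or.inr (Or.inl ⟨fun h' => h.1 ⟨h', rfl⟩, h.2⟩))
  · exact Or.inr (Or.inr (Or.inr ⟨fun h' => h.1 ⟨h', rfl⟩, h.2⟩))

theorem hx_gen (n : ℕ) (s : Bool) (a : ℤ) : (2 * a = n ∧ hx n s a = a + 1 - n) ∨
    (0 < a ∧ hx n s a = a - 1) ∨ (a < 0 ∧ hx n s a = a + 1) ∨ (a = 0 ∧ hx n s a = 0) := by
  rcases hx_spec n s a with h | h | h | h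
  · exact Or.inl ⟨h.1, h.2.2⟩
  · exact Or.inr (Or.inl h.2)
  · exact Or.inr (Or.inr (Or.inl h.2))
  · exact Or.inr (Or.inr (Or.inr h.2))

theorem wrn_spec (n : ℕ) (a : ℤ) :
    (2 * a ≤ -(n : ℤ) ∧ wrn n a = a + n) ∨
    (¬ 2 * a ≤ -(n : ℤ) ∧ (n : ℤ) < 2 * a ∧ wrn n a = a - n) ∨
    (¬ 2 * a ≤ -(n : ℤ) ∧ ¬ (n : ℤ) < 2 * a ∧ wrn n a = a) := by
  unfold wrn
  split_ifs with h1 h2
  · exact Or.inl ⟨h1, rfl⟩
  · exact Or.inr (Or.inl ⟨h1, h2, rfl⟩)
  · exact Or.inr (Or.inr ⟨h1, h2, rfl⟩)

/-- one step in the critical shell, survivor to the east -/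
theorem stepE (n : ℕ) (hn : 1000 ≤ n) (c s : Bool) (q : ℤ × ℤ) (hq : BackN n q)
    (hq' : BackN n (zmg n c s (smg n true q))) :
    L1 (zmg n c s (smg n true q)) = L1 q ∧
    (|(zmg n c s (smg n true q)).1| = |q.1| ∨ |(zmg n c s (smg n true q)).1| = |q.1| + 1) := by
  obtain ⟨a, b⟩ := q
  have hs : smg n true (a, b) = (wrn n (a - 1), b) := rfl
  rw [hs] at hq' ⊢
  unfold BackN L1 at hq hq'
  unfold L1
  obtain ⟨h1, h2, h3, h4⟩ := hq
  have w := wrn_spec n (a - 1)
  generalize wrn n (a - 1) = x at *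
  unfold zmg at hq' ⊢
  simp only at h1 h2 h3 h4 hq' ⊢
  have e1 := abs_spec a
  have e2 := abs_spec b
  have hn' : (1000 : ℤ) ≤ n := by exact_mod_cast hn
  split_ifs at hq' ⊢ with hc
  · simp only at hq' ⊢
    obtain ⟨g1, g2, g3, g4⟩ := hq'
    have y := hx_gen n s x
    generalize hx n s x = z at *
    have e3 := abs_spec z
    constructor <;> omega
  · simp only at hq' ⊢
    obtain ⟨g1, g2, g3, g4⟩ := hq'
    have y := hx_gen n s b
    generalize hx n s b = z at *
    have e3 := abs_spec z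
    have e4 := abs_spec x
    constructor <;> omega

/-- one step in the critical shell, survivor to the north -/
theorem stepN (n : ℕ) (hn : 1000 ≤ n) (c s : Bool) (q : ℤ × ℤ) (hq : BackN n q)
    (hq' : BackN n (zmg n c s (smg n false q))) :
    L1 (zmg n c s (smg n false q)) = L1 q ∧
    (|(zmg n c s (smg n false q)).1| = |q.1| ∨ |(zmg n c s (smg n false q)).1| = |q.1| - 1) := by
  obtain ⟨a, b⟩ := q
  have hs : smg n false (a, b) = (a, wrn n (b - 1)) := rfl
  rw [hs] at hq' ⊢
  unfold BackN L1 at hq hq'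
  unfold L1
  obtain ⟨h1, h2, h3, h4⟩ := hq
  have w := wrn_spec n (b - 1)
  generalize wrn n (b - 1) = x at *
  unfold zmg at hq' ⊢
  simp only at h1 h2 h3 h4 hq' ⊢
  have e1 := abs_spec a
  have e2 := abs_spec b
  have hn' : (1000 : ℤ) ≤ n := by exact_mod_cast hn
  split_ifs at hq' ⊢ with hc
  · simp only at hq' ⊢
    obtain ⟨g1, g2, g3, g4⟩ := hq'
    have y := hx_gen n s a
    generalize hx n s a = z at *
    have e3 := abs_spec z
    have e4 := abs_spec x
    constructor <;> omega
  · simp only at hq' ⊢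
    obtain ⟨g1, g2, g3, g4⟩ := hq'
    rw [not_or] at hc
    have hc1 : x ≠ 0 := hc.1
    have y := hx_gen n s x
    generalize hx n s x = z at *
    have e3 := abs_spec z
    constructor
    · omega
    · exact Or.inl trivial

/-- summary of the position before the move of the zombie -/
theorem mid (n : ℕ) (hn : 1000 ≤ n) (b : Bool) (q : ℤ × ℤ) (hq : BackN n q) :
    ((smg n b q).1 ≤ 0 ∨ 2 * (smg n b q).1 = n ∨ (3 ≤ (smg n b q).1 ∧ 2 * (smg n b q).1 < n)) ∧
    ((smg n b q).2 ≤ 0 ∨ 2 * (smg n b q).2 = n ∨ (3 ≤ (smg n b q).2 ∧ 2 * (smg n b q).2 < n)) ∧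
    ¬ (2 * (smg n b q).1 = n ∧ 2 * (smg n b q).2 = n) ∧
    ((smg n b q).1 = 0 → 3 ≤ (smg n b q).2) ∧ ((smg n b q).2 = 0 → 3 ≤ (smg n b q).1) ∧
    -(n : ℤ) ≤ 2 * (smg n b q).1 ∧ -(n : ℤ) ≤ 2 * (smg n b q).2 := by
  obtain ⟨a, d⟩ := q
  unfold BackN L1 at hq
  obtain ⟨h1, h2, h3, h4⟩ := hq
  simp only at h1 h2 h3 h4
  have e1 := abs_spec a
  have e2 := abs_spec d
  have hn' : (1000 : ℤ) ≤ n := by exact_mod_cast hn
  cases b
  · have hs : smg n false (a, d) = (a, wrn n (d - 1)) := rfl
    rw [hs]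
    have w := wrn_spec n (d - 1)
    generalize wrn n (d - 1) = x at *
    simp only
    refine ⟨?_, ?_, ?_, ?_, ?_, ?_, ?_⟩ <;> omega
  · have hs : smg n true (a, d) = (wrn n (a - 1), d) := rfl
    rw [hs]
    have w := wrn_spec n (a - 1)
    generalize wrn n (a - 1) = x at *
    simp only
    refine ⟨?_, ?_, ?_, ?_, ?_, ?_, ?_⟩ <;> omega

theorem zu_def (n : ℕ) (c : Fin 12) (x : ℤ × ℤ) :
    zu n c x = zmg n (cfs n c x).1 (cfs n c x).2 x := rfl

theorem zmgH (n : ℕ) (c s : Bool) (x : ℤ × ℤ) (h : x.2 = 0 ∨ (c = true ∧ x.1 ≠ 0)) :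
    zmg n c s x = (hx n s x.1, x.2) := if_pos h

theorem zmgV (n : ℕ) (c s : Bool) (x : ℤ × ℤ) (h : ¬ (x.2 = 0 ∨ (c = true ∧ x.1 ≠ 0))) :
    zmg n c s x = (x.1, hx n s x.2) := if_neg h

/-- every value of the first coordinate is taken for at most six coins -/
theorem coins (n : ℕ) (hn : 1000 ≤ n) (b : Bool) (q : ℤ × ℤ) (hq : BackN n q) (m : ℤ) (D : Finset (Fin 12))
    (hD : ∀ c ∈ D, BackN n (zu n c (smg n b q)) ∧ |(zu n c (smg n b q)).1| = m) : D.card ≤ 6 := by
  have hm := mid n hn b q hq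
  set x := smg n b q with hx'
  clear_value x
  obtain ⟨m1, m2, m3, m4, m5, m6, m7⟩ := hm
  have hn' : (1000 : ℤ) ≤ n := by exact_mod_cast hn
  have e1 := abs_spec x.1
  have e2 := abs_spec x.2
  have k1 : (univ.filter fun c : Fin 12 => ¬ c.1 % 4 < 2).card ≤ 6 := by decide
  have k2 : (univ.filter fun c : Fin 12 => c.1 % 3 = 1).card ≤ 6 := by decide
  have k3 : (univ.filter fun c : Fin 12 => c.1 % 3 = 2).card ≤ 6 := by decide
  have k4 : (univ.filter fun c : Fin 12 => c.1 % 2 = 0).card ≤ 6 := by decide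
  have k5 : (univ.filter fun c : Fin 12 => ¬ c.1 % 2 = 0).card ≤ 6 := by decide
  by_cases t1 : 2 * x.1 = n
  · have t2 : ¬ 2 * x.2 = n := fun h => m3 ⟨t1, h⟩
    by_cases z2 : x.2 = 0
    · refine le_trans (card_le_card fun c hc => ?_) k1
      rw [mem_filter]
      refine ⟨mem_univ _, fun h4 => ?_⟩
      obtain ⟨⟨g1, g2, g3, g4⟩, -⟩ := hD c hc
      have hc' : cfs n c x = (true, true) := by
        unfold cfs
        rw [if_pos t1, if_neg t2, if_pos z2, decide_eq_true h4]
      rw [zu_def, hc', zmgH _ _ _ _ (Or.inl z2)] at g1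
      have y := hxT n x.1
      simp only at g1 y
      generalize hx n true x.1 = z at *
      omega
    · have hcf : ∀ c : Fin 12, cfs n c x = (decide (c.1 % 3 < 2), decide (c.1 % 3 = 0)) := by
        intro c
        unfold cfs
        rw [if_pos t1, if_neg t2, if_neg z2]
      have z1 : x.1 ≠ 0 := by omega
      have key : ∀ c ∈ D, (c.1 % 3 = 1 ∧ 2 * m = n - 2) ∨ (c.1 % 3 = 2 ∧ 2 * m = n) := by
        intro c hc
        obtain ⟨⟨g1, g2, g3, g4⟩, g5⟩ := hD c hc
        have h3 : c.1 % 3 = 0 ∨ c.1 % 3 = 1 ∨ c.1 % 3 = 2 := by omega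
        rcases h3 with h3 | h3 | h3
        · exfalso
          have hc' : cfs n c x = (true, true) := by
            rw [hcf, h3]
            rfl
          rw [zu_def, hc', zmgH _ _ _ _ (Or.inr ⟨rfl, z1⟩)] at g1
          have y := hxT n x.1
          simp only at g1 y
          generalize hx n true x.1 = z at *
          omega
        · left
          refine ⟨h3, ?_⟩
          have hc' : cfs n c x = (true, false) := by
            rw [hcf, h3]
            rfl
          rw [zu_def, hc', zmgH _ _ _ _ (Or.inr ⟨rfl, z1⟩)] at g5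
          have y := hxF n x.1
          simp only at g5 y
          generalize hx n false x.1 = z at *
          have e3 := abs_spec z
          omega
        · right
          refine ⟨h3, ?_⟩
          have hc' : cfs n c x = (false, false) := by
            rw [hcf, h3]
            rfl
          rw [zu_def, hc', zmgV _ _ _ _ (by simp [z2])] at g5
          simp only at g5
          omega
      by_cases hm : 2 * m = n
      · refine le_trans (card_le_card fun c hc => ?_) k3
        rw [mem_filter]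
        refine ⟨mem_univ _, ?_⟩
        rcases key c hc with h | h
        · omega
        · exact h.1
      · refine le_trans (card_le_card fun c hc => ?_) k2
        rw [mem_filter]
        refine ⟨mem_univ _, ?_⟩
        rcases key c hc with h | h
        · exact h.1
        · exact absurd h.2 hm
  · by_cases t2 : 2 * x.2 = n
    · have z2 : x.2 ≠ 0 := by omega
      by_cases z1 : x.1 = 0
      · refine le_trans (card_le_card fun c hc => ?_) k1
        rw [mem_filter]
        refine ⟨mem_univ _, fun h4 => ?_⟩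
        obtain ⟨⟨g1, g2, g3, g4⟩, -⟩ := hD c hc
        have hc' : cfs n c x = (false, true) := by
          unfold cfs
          rw [if_neg t1, if_pos t2, if_pos z1, decide_eq_true h4]
        rw [zu_def, hc', zmgV _ _ _ _ (by simp [z2])] at g2
        have y := hxT n x.2
        simp only at g2 y
        generalize hx n true x.2 = z at *
        omega
      · have hcf : ∀ c : Fin 12, cfs n c x = (!decide (c.1 % 3 < 2), decide (c.1 % 3 = 0)) := by
          intro c
          unfold cfs
          rw [if_neg t1, if_pos t2, if_neg z1]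
        have key : ∀ c ∈ D, (c.1 % 3 = 1 ∧ m = |x.1|) ∨ (c.1 % 3 = 2 ∧ m = |x.1| - 1) := by
          intro c hc
          obtain ⟨⟨g1, g2, g3, g4⟩, g5⟩ := hD c hc
          have h3 : c.1 % 3 = 0 ∨ c.1 % 3 = 1 ∨ c.1 % 3 = 2 := by omega
          rcases h3 with h3 | h3 | h3
          · exfalso
            have hc' : cfs n c x = (false, true) := by
              rw [hcf, h3]
              rfl
            rw [zu_def, hc', zmgV _ _ _ _ (by simp [z2])] at g2
            have y := hxT n x.2
            simp only at g2 y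
            generalize hx n true x.2 = z at *
            omega
          · left
            refine ⟨h3, ?_⟩
            have hc' : cfs n c x = (false, false) := by
              rw [hcf, h3]
              rfl
            rw [zu_def, hc', zmgV _ _ _ _ (by simp [z2])] at g5
            exact g5.symm
          · right
            refine ⟨h3, ?_⟩
            have hc' : cfs n c x = (true, false) := by
              rw [hcf, h3]
              rfl
            rw [zu_def, hc', zmgH _ _ _ _ (Or.inr ⟨rfl, z1⟩)] at g5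
            have y := hxF n x.1
            simp only at g5 y
            generalize hx n false x.1 = z at *
            have e3 := abs_spec z
            omega
        by_cases hm : m = |x.1|
        · refine le_trans (card_le_card fun c hc => ?_) k2
          rw [mem_filter]
          refine ⟨mem_univ _, ?_⟩
          rcases key c hc with h | h
          · exact h.1
          · omega
        · refine le_trans (card_le_card fun c hc => ?_) k3
          rw [mem_filter]
          refine ⟨mem_univ _, ?_⟩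
          rcases key c hc with h | h
          · exact absurd h.2 hm
          · exact h.1
    · have hcf : ∀ c : Fin 12, cfs n c x = (decide (c.1 % 2 = 0), true) := by
        intro c
        unfold cfs
        rw [if_neg t1, if_neg t2]
      have key : ∀ c ∈ D, (c.1 % 2 = 0 ∧ m = |x.1| - 1) ∨ (¬ c.1 % 2 = 0 ∧ m = |x.1|) := by
        intro c hc
        obtain ⟨⟨g1, g2, g3, g4⟩, g5⟩ := hD c hc
        by_cases z2 : x.2 = 0
        · exfalso
          rw [zu_def, hcf, zmgH _ _ _ _ (Or.inl z2)] at g1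
          have y := hxT n x.1
          simp only at g1 y
          generalize hx n true x.1 = z at *
          omega
        by_cases z1 : x.1 = 0
        · exfalso
          rw [zu_def, hcf, zmgV _ _ _ _ (by simp [z1, z2])] at g2
          have y := hxT n x.2
          simp only at g2 y
          generalize hx n true x.2 = z at *
          omega
        by_cases h2 : c.1 % 2 = 0
        · left
          refine ⟨h2, ?_⟩
          rw [zu_def, hcf, decide_eq_true h2, zmgH _ _ _ _ (Or.inr ⟨rfl, z1⟩)] at g5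
          have y := hxT n x.1
          simp only at g5 y
          generalize hx n true x.1 = z at *
          have e3 := abs_spec z
          omega
        · right
          refine ⟨h2, ?_⟩
          rw [zu_def, hcf, decide_eq_false h2, zmgV _ _ _ _ (by simp [z2])] at g5
          exact g5.symm
      by_cases hm : m = |x.1|
      · refine le_trans (card_le_card fun c hc => ?_) k5
        rw [mem_filter]
        refine ⟨mem_univ _, ?_⟩
        rcases key c hc with h | h
        · omega
        · exact h.1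
      · refine le_trans (card_le_card fun c hc => ?_) k4
        rw [mem_filter]
        refine ⟨mem_univ _, ?_⟩
        rcases key c hc with h | h
        · exact h.1
        · exact absurd h.2 hm

/-! dependence on the coins -/

theorem tu_congr (n : ℕ) {u u' : ℕ → Fin 12} (e : ℕ → Bool) (p : ℤ × ℤ) (t : ℕ)
    (h : ∀ s < t, u s = u' s) : tu n u e p t = tu n u' e p t := by
  induction t with
  | zero => rfl
  | succ t ih =>
    show smg n (e t) (zu n (u t) (tu n u e p t)) = smg n (e t) (zu n (u' t) (tu n u' e p t))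
    rw [ih fun s hs => h s (by omega), h t (by omega)]

theorem du_congr (n : ℕ) {u u' : ℕ → Fin 12} (e : ℕ → Bool) (p : ℤ × ℤ) (t : ℕ)
    (h : ∀ s ≤ t, u s = u' s) : du n u e p t = du n u' e p t := by
  show zu n (u t) (tu n u e p t) = zu n (u' t) (tu n u' e p t)
  rw [tu_congr n e p t fun s hs => h s hs.le, h t le_rfl]

theorem freeN_congr (n : ℕ) {u u' : ℕ → Fin 12} (e : ℕ → Bool) (p : ℤ × ℤ) (t : ℕ)
    (h : ∀ s < t, u s = u' s) (hf : FreeN n u e p t) : FreeN n u' e p t := by
  intro s hs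
  rw [← tu_congr n e p s fun r hr => h r (by omega), ← du_congr n e p s fun r hr => h r (by omega)]
  exact hf s hs

theorem classC_congr (n : ℕ) {u u' : ℕ → Fin 12} (e : ℕ → Bool) (p : ℤ × ℤ) (t : ℕ)
    (h : ∀ s ≤ t, u s = u' s) (hf : ClassC n u e p t) : ClassC n u' e p t := by
  obtain ⟨v, hv, h1, h2, h3⟩ := hf
  refine ⟨v, hv, freeN_congr n e p v (fun s hs => h s (by omega)) h1, ?_, fun s h4 h5 => ?_⟩
  · rw [← du_congr n e p v fun r hr => h r (by omega)]
    exact h2
  · rw [← du_congr n e p s fun r hr => h r (by omega)]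
    exact h3 s h4 h5

/-! counting -/

theorem cnt_mono {n T : ℕ} {P Q : ℤ × ℤ → (ℕ → Fin 12) → Prop} (h : ∀ p u, P p u → Q p u) :
    cnt n T P ≤ cnt n T Q := by
  classical
  unfold cnt
  apply card_le_card
  intro x hx
  rw [mem_filter] at hx ⊢
  exact ⟨hx.1, h _ _ hx.2⟩

theorem cnt_or {n T : ℕ} {P Q R : ℤ × ℤ → (ℕ → Fin 12) → Prop}
    (h : ∀ p u, P p u → Q p u ∨ R p u) : cnt n T P ≤ cnt n T Q + cnt n T R := by
  classical
  unfold cnt
  refine le_trans (card_le_card fun x hx => ?_) (card_union_le _ _)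
  rw [mem_filter] at hx
  rw [mem_union, mem_filter, mem_filter]
  rcases h _ _ hx.2 with h1 | h1
  · exact Or.inl ⟨hx.1, h1⟩
  · exact Or.inr ⟨hx.1, h1⟩

theorem cnt_zero {n T : ℕ} {P : ℤ × ℤ → (ℕ → Fin 12) → Prop} (h : ∀ p u, ¬ P p u) :
    cnt n T P = 0 := by
  classical
  unfold cnt
  rw [card_eq_zero, filter_eq_empty_iff]
  intro x _
  exact h _ _

theorem ext12_update {T : ℕ} (w : Fin T → Fin 12) (i : Fin T) (a : Fin 12) :
    ext12 (Function.update w i a) = Function.update (ext12 w) i.1 a := by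
  funext s
  by_cases h : s = i.1
  · subst h
    rw [Function.update_self]
    unfold ext12
    rw [dif_pos i.2]
    exact Function.update_self _ _ _
  · rw [Function.update_of_ne h]
    unfold ext12
    by_cases hs : s < T
    · rw [dif_pos hs, dif_pos hs]
      have hne : (⟨s, hs⟩ : Fin T) ≠ i := fun h' => h (congrArg Fin.val h')
      exact Function.update_of_ne hne _ _
    · rw [dif_neg hs, dif_neg hs]

theorem cnt_inj {n T : ℕ} {A B : ℤ × ℤ → (ℕ → Fin 12) → Prop}
    (φ : (Fin T → Fin 12) → (Fin T → Fin 12)) (hφ : Function.Injective φ)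
    (h : ∀ p w, A p (ext12 w) → B p (ext12 (φ w))) : cnt n T A ≤ cnt n T B := by
  classical
  unfold cnt
  refine card_le_card_of_injOn (fun x : (ℤ × ℤ) × (Fin T → Fin 12) => (x.1, φ x.2)) ?_ ?_
  · intro x hx
    obtain ⟨hx1, hx2⟩ := mem_filter.1 (mem_coe.1 hx)
    exact mem_coe.2 (mem_filter.2 ⟨mem_product.2 ⟨(mem_product.1 hx1).1, mem_univ _⟩,
      h _ _ hx2⟩)
  · intro x hx y hy hxy
    simp only [Prod.mk.injEq] at hxy
    exact Prod.ext hxy.1 (hφ hxy.2)

/-- conditioning on the coins up to `t` -/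
theorem cnt_half {n T t : ℕ} (ht : t + 1 < T) {P : ℤ × ℤ → (ℕ → Fin 12) → Prop}
    {Q : ℤ × ℤ → (ℕ → Fin 12) → Fin 12 → Prop}
    (hP : ∀ p u u', (∀ s ≤ t, u s = u' s) → P p u → P p u')
    (hQ : ∀ p u u', (∀ s ≤ t, u s = u' s) → ∀ c, Q p u c → Q p u' c)
    (hc : ∀ p u, P p u → ∀ D : Finset (Fin 12), (∀ c ∈ D, Q p u c) → D.card ≤ 6) :
    2 * cnt n T (fun p u => P p u ∧ Q p u (u (t + 1))) ≤ cnt n T P := by
  classical
  set i : Fin T := ⟨t + 1, ht⟩ with hi
  have hui : ∀ w : Fin T → Fin 12, ext12 w (t + 1) = w i := by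
    intro w
    unfold ext12
    rw [dif_pos ht]
  have hag : ∀ (w : Fin T → Fin 12) (a : Fin 12), ∀ s ≤ t,
      ext12 w s = ext12 (Function.update w i a) s := by
    intro w a s hs
    rw [ext12_update, Function.update_of_ne]
    rw [hi]
    show s ≠ t + 1
    omega
  -- shift of the coin
  have h1 : ∀ c : Fin 12, cnt n T (fun p u => P p u ∧ Q p u (u (t + 1))) ≤
      cnt n T (fun p u => P p u ∧ Q p u (u (t + 1) + c)) := by
    intro c
    refine cnt_inj (fun w => Function.update w i (w i - c)) ?_ ?_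
    · intro w w' e2
      funext j
      by_cases hj : j = i
      · have := congrFun e2 i
        simp only [Function.update_self] at this
        rw [hj]
        exact sub_left_injective this
      · have := congrFun e2 j
        simpa only [Function.update_of_ne hj] using this
    · rintro p w ⟨hx3, hx4⟩
      refine ⟨hP _ _ _ (hag w _) hx3, ?_⟩
      refine hQ _ _ _ (hag w _) _ ?_
      show Q p (ext12 w) (ext12 (Function.update w i (w i - c)) (t + 1) + c)
      rw [hui, Function.update_self, sub_add_cancel, ← hui w]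
      exact hx4
  have h2 : 12 * cnt n T (fun p u => P p u ∧ Q p u (u (t + 1))) ≤
      ∑ c : Fin 12, cnt n T (fun p u => P p u ∧ Q p u (u (t + 1) + c)) := by
    have := sum_le_sum fun (c : Fin 12) (_ : c ∈ univ) => h1 c
    rw [sum_const, card_univ, Fintype.card_fin, smul_eq_mul] at this
    exact this
  have h3 : ∑ c : Fin 12, cnt n T (fun p u => P p u ∧ Q p u (u (t + 1) + c)) ≤
      6 * cnt n T P := by
    unfold cnt
    simp only [card_filter]
    rw [sum_comm, mul_sum]
    refine sum_le_sum fun x _ => ?_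
    by_cases hx : P x.1 (ext12 x.2)
    · rw [if_pos hx, mul_one]
      rw [← card_filter]
      have h4 := hc _ _ hx ((univ.filter fun c : Fin 12 => P x.1 (ext12 x.2) ∧
        Q x.1 (ext12 x.2) (ext12 x.2 (t + 1) + c)).image fun c => ext12 x.2 (t + 1) + c) (by
          intro c hc
          rw [mem_image] at hc
          obtain ⟨d, hd, rfl⟩ := hc
          rw [mem_filter] at hd
          exact hd.2.2)
      rwa [card_image_of_injective _ (add_right_injective _)] at h4
    · rw [if_neg hx, mul_zero]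
      refine le_of_eq (sum_eq_zero fun c _ => ?_)
      rw [if_neg fun h => hx h.1]
  omega

/-- the number of zombies of the class C at the coordinates `lam`, `l - lam` -/
noncomputable def MM (n T : ℕ) (e : ℕ → Bool) (t : ℕ) (lam l : ℤ) : ℕ :=
  cnt n T fun p u => ClassC n u e p t ∧ |(du n u e p t).1| = lam ∧ L1 (du n u e p t) = l

/-- the number of injected zombies -/
noncomputable def II (n T : ℕ) (e : ℕ → Bool) (t : ℕ) (lam l : ℤ) : ℕ :=
  cnt n T fun p u => FreeN n u e p t ∧ OnAx (du n u e p t) ∧ |(du n u e p t).1| = lam ∧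
    L1 (du n u e p t) = l

theorem II_le (hO : S_OCC) (n T : ℕ) (e : ℕ → Bool) (t : ℕ) (lam l : ℤ) (hn : 3 ≤ n)
    (ht : t < T) : II n T e t lam l ≤ 20 * 12 ^ T := by
  have h1 : ∀ q, cnt n T (fun p u => FreeN n u e p t ∧ du n u e p t = q) ≤ 5 * 12 ^ T := fun q =>
    le_trans (hO n T t e q hn ht) (Nat.mul_le_mul_right _ (by norm_num))
  have h2 : II n T e t lam l ≤
      cnt n T (fun p u => FreeN n u e p t ∧ du n u e p t = (lam, l - lam)) +
      cnt n T (fun p u => (FreeN n u e p t ∧ du n u e p t = (lam, -(l - lam))) ∨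
        (FreeN n u e p t ∧ du n u e p t = (-lam, l - lam)) ∨
        (FreeN n u e p t ∧ du n u e p t = (-lam, -(l - lam)))) := by
    refine cnt_or ?_
    rintro p u ⟨g1, -, g3, g4⟩
    unfold L1 at g4
    have e1 := abs_spec (du n u e p t).1
    have e2 := abs_spec (du n u e p t).2
    have g5 : |(du n u e p t).2| = l - lam := by omega
    have k1 : (du n u e p t).1 = lam ∨ (du n u e p t).1 = -lam := by omega
    have k2 : (du n u e p t).2 = l - lam ∨ (du n u e p t).2 = -(l - lam) := by omega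
    rcases k1 with k1 | k1 <;> rcases k2 with k2 | k2
    · exact Or.inl ⟨g1, Prod.ext k1 k2⟩
    · exact Or.inr (Or.inl ⟨g1, Prod.ext k1 k2⟩)
    · exact Or.inr (Or.inr (Or.inl ⟨g1, Prod.ext k1 k2⟩))
    · exact Or.inr (Or.inr (Or.inr ⟨g1, Prod.ext k1 k2⟩))
  have h3 := cnt_or (n := n) (T := T) (P := fun p u =>
      (FreeN n u e p t ∧ du n u e p t = (lam, -(l - lam))) ∨
        (FreeN n u e p t ∧ du n u e p t = (-lam, l - lam)) ∨
        (FreeN n u e p t ∧ du n u e p t = (-lam, -(l - lam))))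
      (Q := fun p u => FreeN n u e p t ∧ du n u e p t = (lam, -(l - lam)))
      (R := fun p u => (FreeN n u e p t ∧ du n u e p t = (-lam, l - lam)) ∨
        (FreeN n u e p t ∧ du n u e p t = (-lam, -(l - lam)))) (fun p u h => h)
  have h4 := cnt_or (n := n) (T := T) (P := fun p u =>
        (FreeN n u e p t ∧ du n u e p t = (-lam, l - lam)) ∨
        (FreeN n u e p t ∧ du n u e p t = (-lam, -(l - lam))))
      (Q := fun p u => FreeN n u e p t ∧ du n u e p t = (-lam, l - lam))
      (R := fun p u => FreeN n u e p t ∧ du n u e p t = (-lam, -(l - lam))) (fun p u h => h)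
  have a1 := h1 (lam, l - lam)
  have a2 := h1 (lam, -(l - lam))
  have a3 := h1 (-lam, l - lam)
  have a4 := h1 (-lam, -(l - lam))
  omega

theorem II_zero (n T : ℕ) (e : ℕ → Bool) (t : ℕ) (lam l : ℤ) (h0 : lam ≠ 0) (h1 : lam ≠ l) :
    II n T e t lam l = 0 := by
  refine cnt_zero ?_
  rintro p u ⟨-, g2, g3, g4⟩
  unfold OnAx at g2
  unfold L1 at g4
  have e1 := abs_spec (du n u e p t).1
  have e2 := abs_spec (du n u e p t).2
  omega

theorem MM_out (n T : ℕ) (e : ℕ → Bool) (t : ℕ) (lam l : ℤ) (h : lam < 0 ∨ l < lam) :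
    MM n T e t lam l = 0 := by
  refine cnt_zero ?_
  rintro p u ⟨-, g3, g4⟩
  unfold L1 at g4
  have e1 := abs_nonneg (du n u e p t).1
  have e2 := abs_nonneg (du n u e p t).2
  omega

theorem MM_zero (n T : ℕ) (e : ℕ → Bool) (lam l : ℤ) : MM n T e 0 lam l ≤ II n T e 0 lam l := by
  refine cnt_mono ?_
  rintro p u ⟨⟨v, hv, h1, h2, h3⟩, h4, h5⟩
  obtain rfl : v = 0 := by omega
  exact ⟨h1, h2, h4, h5⟩

theorem MM_succ (n T : ℕ) (e : ℕ → Bool) (t : ℕ) (lam l : ℤ) (hn : 1000 ≤ n)
    (ht : t + 1 < T) : 2 * MM n T e (t + 1) lam l ≤ 2 * II n T e (t + 1) lam l +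
      MM n T e t lam l + MM n T e t (if e t = true then lam - 1 else lam + 1) l := by
  set lam' : ℤ := if e t = true then lam - 1 else lam + 1 with hl
  set P : ℤ × ℤ → (ℕ → Fin 12) → Prop := fun p u => ClassC n u e p t ∧
    (|(du n u e p t).1| = lam ∨ |(du n u e p t).1| = lam') ∧ L1 (du n u e p t) = l with hP
  set Q : ℤ × ℤ → (ℕ → Fin 12) → Fin 12 → Prop := fun p u c =>
    BackN n (zu n c (smg n (e t) (du n u e p t))) ∧
      |(zu n c (smg n (e t) (du n u e p t))).1| = lam with hQ
  have h1 : MM n T e (t + 1) lam l ≤ II n T e (t + 1) lam l +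
      cnt n T (fun p u => P p u ∧ Q p u (u (t + 1))) := by
    refine cnt_or ?_
    rintro p u ⟨⟨v, hv, g1, g2, g3⟩, g4, g5⟩
    rcases Nat.lt_or_ge t v with h | h
    · obtain rfl : v = t + 1 := by omega
      exact Or.inl ⟨g1, g2, g4, g5⟩
    · right
      have k1 := g3 t h (by omega)
      have k2 := g3 (t + 1) hv le_rfl
      have k3 : du n u e p (t + 1) = zu n (u (t + 1)) (smg n (e t) (du n u e p t)) := rfl
      rw [k3] at k2 g4 g5
      refine ⟨⟨⟨v, h, g1, g2, fun s h5 h6 => g3 s h5 (by omega)⟩, ?_, ?_⟩, k2, g4⟩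
      · rw [zu_def] at k2 g4
        by_cases he : e t = true
        · rw [hl, if_pos he]
          rw [he] at k2 g4
          have := (stepE n hn _ _ _ k1 k2).2
          omega
        · rw [hl, if_neg he]
          rw [Bool.not_eq_true] at he
          rw [he] at k2 g4
          have := (stepN n hn _ _ _ k1 k2).2
          omega
      · rw [zu_def] at k2 g5
        by_cases he : e t = true
        · rw [he] at k2 g5
          have := (stepE n hn _ _ _ k1 k2).1
          omega
        · rw [Bool.not_eq_true] at he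
          rw [he] at k2 g5
          have := (stepN n hn _ _ _ k1 k2).1
          omega
  have h2 : 2 * cnt n T (fun p u => P p u ∧ Q p u (u (t + 1))) ≤ cnt n T P := by
    refine cnt_half ht ?_ ?_ ?_
    · rintro p u u' hu ⟨g1, g2, g3⟩
      refine ⟨classC_congr n e p t hu g1, ?_, ?_⟩
      · rw [← du_congr n e p t hu]
        exact g2
      · rw [← du_congr n e p t hu]
        exact g3
    · rintro p u u' hu c ⟨g1, g2⟩
      refine ⟨?_, ?_⟩
      · rw [← du_congr n e p t hu]
        exact g1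
      · rw [← du_congr n e p t hu]
        exact g2
    · rintro p u ⟨⟨v, hv, -, -, g3⟩, -, -⟩ D hD
      exact coins n hn (e t) (du n u e p t) (g3 t hv le_rfl) lam D hD
  have h3 : cnt n T P ≤ MM n T e t lam l + MM n T e t lam' l := by
    refine cnt_or ?_
    rintro p u ⟨g1, g2, g3⟩
    rcases g2 with g2 | g2
    · exact Or.inl ⟨g1, g2, g3⟩
    · exact Or.inr ⟨g1, g2, g3⟩
  omega

/-! the supersolution -/

/-- the supersolution -/
noncomputable def FF (R : ℕ) (Y : ℝ) : ℝ :=
  80 * ((2 * R + 8) ^ 2 - (max (2 * R + 8 - Y) 0) ^ 2)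

theorem FF_conc (R : ℕ) (Y : ℝ) : FF R (Y + 1 / 2) + FF R (Y - 1 / 2) ≤ 2 * FF R Y := by
  unfold FF
  set d : ℝ := 2 * R + 8 - Y with hd
  have e1 : (2 * R + 8 - (Y + 1 / 2) : ℝ) = d - 1 / 2 := by rw [hd]; ring
  have e2 : (2 * R + 8 - (Y - 1 / 2) : ℝ) = d + 1 / 2 := by rw [hd]; ring
  rw [e1, e2]
  have key : 2 * (max d 0) ^ 2 ≤ (max (d - 1 / 2) 0) ^ 2 + (max (d + 1 / 2) 0) ^ 2 := by
    rcases le_or_gt (1 / 2) d with h | h
    · rw [max_eq_left (by linarith), max_eq_left (by linarith), max_eq_left (by linarith)]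
      nlinarith
    · rcases le_or_gt 0 d with h' | h'
      · rw [max_eq_left h', max_eq_right (by linarith), max_eq_left (by linarith)]
        nlinarith
      · rw [max_eq_right h'.le, max_eq_right (by linarith)]
        have := sq_nonneg (max (d + 1 / 2) 0)
        nlinarith
  linarith

theorem FF_drop (R : ℕ) (Y : ℝ) (h : Y + 1 / 2 ≤ 2 * R + 8) :
    FF R (Y + 1 / 2) + FF R (Y - 1 / 2) + 40 ≤ 2 * FF R Y := by
  unfold FF
  rw [max_eq_left (by linarith), max_eq_left (by linarith), max_eq_left (by linarith)]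
  apply le_of_eq
  ring

theorem FF_nonneg (R : ℕ) (Y : ℝ) (h : 0 ≤ Y) : 0 ≤ FF R Y := by
  unfold FF
  have hR : (0 : ℝ) ≤ R := Nat.cast_nonneg R
  have h1 : max (2 * (R : ℝ) + 8 - Y) 0 ≤ 2 * R + 8 := max_le (by linarith) (by positivity)
  have h2 : 0 ≤ max (2 * (R : ℝ) + 8 - Y) 0 := le_max_right _ _
  have h3 : (max (2 * (R : ℝ) + 8 - Y) 0) ^ 2 ≤ (2 * R + 8) ^ 2 := by gcongr
  linarith

theorem FF_le (R : ℕ) (Y : ℝ) : FF R Y ≤ 80 * (2 * R + 8) ^ 2 := by
  unfold FF
  have := sq_nonneg (max (2 * (R : ℝ) + 8 - Y) 0)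
  linarith

/-- the bound at the coordinates `lam`, `l - lam` -/
noncomputable def GG (R : ℕ) (w lam l : ℤ) : ℝ :=
  FF R (lam - w / 2 + R + 2) + FF R (l - lam + w / 2 + R + 2)

theorem GG_nonneg (R : ℕ) (w lam l : ℤ) (hw : |w| ≤ (R : ℤ)) (h1 : -1 ≤ lam) (h2 : lam ≤ l + 1) :
    0 ≤ GG R w lam l := by
  have hw' := abs_le.1 hw
  have w1 : (-(R : ℝ)) ≤ w := by exact_mod_cast hw'.1
  have w2 : (w : ℝ) ≤ R := by exact_mod_cast hw'.2
  have hR : (0 : ℝ) ≤ R := Nat.cast_nonneg R
  have a1 : (-1 : ℝ) ≤ lam := by exact_mod_cast h1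
  have a2 : (lam : ℝ) ≤ l + 1 := by exact_mod_cast h2
  exact add_nonneg (FF_nonneg _ _ (by linarith)) (FF_nonneg _ _ (by linarith))

/-- the induction step for the bound -/
theorem GG_step (R : ℕ) (w lam l : ℤ) (b : Bool) (hw' : |w + sgn b| ≤ (R : ℤ)) :
    (if lam = 0 ∨ lam = l then (40 : ℝ) else 0) + GG R w lam l +
      GG R w (if b = true then lam - 1 else lam + 1) l ≤ 2 * GG R (w + sgn b) lam l := by
  have hw'' := abs_le.1 hw'
  have w1 : (-(R : ℝ)) ≤ ((w + sgn b : ℤ) : ℝ) := by exact_mod_cast hw''.1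
  have w2 : ((w + sgn b : ℤ) : ℝ) ≤ R := by exact_mod_cast hw''.2
  have hR : (0 : ℝ) ≤ R := Nat.cast_nonneg R
  set y1 : ℝ := lam - ((w + sgn b : ℤ) : ℝ) / 2 + R + 2 with hy1
  set y2 : ℝ := l - lam + ((w + sgn b : ℤ) : ℝ) / 2 + R + 2 with hy2
  have e3 : GG R (w + sgn b) lam l = FF R y1 + FF R y2 := rfl
  have e4 : GG R w lam l + GG R w (if b = true then lam - 1 else lam + 1) l =
      (FF R (y1 + 1 / 2) + FF R (y1 - 1 / 2)) + (FF R (y2 + 1 / 2) + FF R (y2 - 1 / 2)) := by
    unfold GG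
    cases b
    · have hs : ((w + sgn false : ℤ) : ℝ) = w - 1 := by
        simp [sgn]
        ring
      have a1 : (lam : ℝ) - w / 2 + R + 2 = y1 - 1 / 2 := by
        rw [hy1, hs]; ring
      have a2 : (l : ℝ) - lam + w / 2 + R + 2 = y2 + 1 / 2 := by
        rw [hy2, hs]; ring
      have a3 : ((lam + 1 : ℤ) : ℝ) - w / 2 + R + 2 = y1 + 1 / 2 := by
        rw [hy1, hs]; push_cast; ring
      have a4 : (l : ℝ) - ((lam + 1 : ℤ) : ℝ) + w / 2 + R + 2 = y2 - 1 / 2 := by
        rw [hy2, hs]; push_cast; ring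
      rw [if_neg (by decide), a1, a2, a3, a4]
      ring
    · have hs : ((w + sgn true : ℤ) : ℝ) = w + 1 := by
        simp [sgn]
      have a1 : (lam : ℝ) - w / 2 + R + 2 = y1 + 1 / 2 := by
        rw [hy1, hs]; ring
      have a2 : (l : ℝ) - lam + w / 2 + R + 2 = y2 - 1 / 2 := by
        rw [hy2, hs]; ring
      have a3 : ((lam - 1 : ℤ) : ℝ) - w / 2 + R + 2 = y1 - 1 / 2 := by
        rw [hy1, hs]; push_cast; ring
      have a4 : (l : ℝ) - ((lam - 1 : ℤ) : ℝ) + w / 2 + R + 2 = y2 + 1 / 2 := by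
        rw [hy2, hs]; push_cast; ring
      rw [if_pos rfl, a1, a2, a3, a4]
      ring
  have c1 := FF_conc R y1
  have c2 := FF_conc R y2
  rw [add_assoc, e4, e3]
  split_ifs with h
  · rcases h with h | h
    · have := FF_drop R y1 (by rw [hy1, h]; push_cast at w1 w2 ⊢; linarith)
      linarith
    · have := FF_drop R y2 (by rw [hy2, h]; push_cast at w1 w2 ⊢; linarith)
      linarith
  · linarith

theorem bound (hO : S_OCC) (n R T : ℕ) (e : ℕ → Bool) (hn : 1000 ≤ n) (l : ℤ) (t : ℕ) :
    t < T → Tube R e t → ∀ lam : ℤ, -1 ≤ lam → lam ≤ l + 1 →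
    (MM n T e t lam l : ℝ) ≤ GG R (WW e t) lam l * 12 ^ T := by
  have hp : (0 : ℝ) < 12 ^ T := by positivity
  induction t with
  | zero =>
    intro ht hT lam h1 h2
    have hw : |WW e 0| ≤ (R : ℤ) := hT 0 le_rfl
    have k1 : (MM n T e 0 lam l : ℝ) ≤ II n T e 0 lam l := by exact_mod_cast MM_zero n T e lam l
    have hG := GG_nonneg R _ lam l hw h1 h2
    by_cases h0 : lam = 0 ∨ lam = l
    · have k2 : (II n T e 0 lam l : ℝ) ≤ 20 * 12 ^ T := by
        exact_mod_cast II_le hO n T e 0 lam l (by omega) ht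
      -- one step of the supersolution from a fictitious time
      have w0 : WW e 0 = 0 := by simp [WW]
      rw [w0] at hG hw ⊢
      have hw' := abs_le.1 hw
      have hR : (0 : ℝ) ≤ R := Nat.cast_nonneg R
      have a1 : (-1 : ℝ) ≤ lam := by exact_mod_cast h1
      have a2 : (lam : ℝ) ≤ l + 1 := by exact_mod_cast h2
      have k3 : (20 : ℝ) ≤ GG R 0 lam l := by
        unfold GG
        rcases h0 with h | h
        · have b1 := FF_drop R ((lam : ℝ) - ((0 : ℤ) : ℝ) / 2 + R + 2)
            (by rw [h]; push_cast; linarith)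
          have b2 := FF_nonneg R ((lam : ℝ) - ((0 : ℤ) : ℝ) / 2 + R + 2 + 1 / 2)
            (by push_cast; linarith)
          have b3 := FF_nonneg R ((lam : ℝ) - ((0 : ℤ) : ℝ) / 2 + R + 2 - 1 / 2)
            (by push_cast; linarith)
          have b4 := FF_nonneg R ((l : ℝ) - lam + ((0 : ℤ) : ℝ) / 2 + R + 2)
            (by push_cast; linarith)
          linarith
        · have b1 := FF_drop R ((l : ℝ) - lam + ((0 : ℤ) : ℝ) / 2 + R + 2)
            (by rw [h]; push_cast; linarith)
          have b2 := FF_nonneg R ((l : ℝ) - lam + ((0 : ℤ) : ℝ) / 2 + R + 2 + 1 / 2)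
            (by push_cast; linarith)
          have b3 := FF_nonneg R ((l : ℝ) - lam + ((0 : ℤ) : ℝ) / 2 + R + 2 - 1 / 2)
            (by push_cast; linarith)
          have b4 := FF_nonneg R ((lam : ℝ) - ((0 : ℤ) : ℝ) / 2 + R + 2)
            (by push_cast; linarith)
          linarith
      have k4 : (20 : ℝ) * 12 ^ T ≤ GG R 0 lam l * 12 ^ T :=
        mul_le_mul_of_nonneg_right k3 hp.le
      linarith
    · rw [not_or] at h0
      rw [II_zero n T e 0 lam l h0.1 h0.2, Nat.cast_zero] at k1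
      have := mul_nonneg hG hp.le
      linarith
  | succ t ih =>
    intro ht hT lam h1 h2
    have hT' : Tube R e t := fun s hs => hT s (by omega)
    have hw : |WW e (t + 1)| ≤ (R : ℤ) := hT (t + 1) le_rfl
    have hG := GG_nonneg R _ lam l hw h1 h2
    by_cases hout : lam < 0 ∨ l < lam
    · rw [MM_out n T e (t + 1) lam l hout, Nat.cast_zero]
      exact mul_nonneg hG hp.le
    · rw [not_or, not_lt, not_lt] at hout
      have hws : WW e (t + 1) = WW e t + sgn (e t) := by
        unfold WW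
        rw [sum_range_succ]
      rw [hws] at hw ⊢
      have b1 := ih (by omega) hT' lam h1 h2
      have b2 := ih (by omega) hT' (if e t = true then lam - 1 else lam + 1)
        (by split_ifs <;> omega) (by split_ifs <;> omega)
      have b3 := MM_succ n T e t lam l hn ht
      have b3' : 2 * (MM n T e (t + 1) lam l : ℝ) ≤ 2 * II n T e (t + 1) lam l +
          MM n T e t lam l + MM n T e t (if e t = true then lam - 1 else lam + 1) l := by
        exact_mod_cast b3
      have b4 := GG_step R (WW e t) lam l (e t) hw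
      have b5 : 2 * (II n T e (t + 1) lam l : ℝ) ≤
          (if lam = 0 ∨ lam = l then (40 : ℝ) else 0) * 12 ^ T := by
        by_cases h0 : lam = 0 ∨ lam = l
        · rw [if_pos h0]
          have k2 : (II n T e (t + 1) lam l : ℝ) ≤ 20 * 12 ^ T := by
            exact_mod_cast II_le hO n T e (t + 1) lam l (by omega) ht
          linarith
        · rw [if_neg h0, zero_mul]
          rw [not_or] at h0
          rw [II_zero n T e (t + 1) lam l h0.1 h0.2, Nat.cast_zero, mul_zero]
      have b6 := mul_le_mul_of_nonneg_right b4 hp.le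
      rw [add_mul, add_mul, mul_assoc] at b6
      linarith

end CriL

open CriL in
/-- [CRI] -/
theorem cri (hO : S_OCC) : S_CRI := by
  refine ⟨10240, ?_⟩
  intro n R T t e q hn ht hT
  have h1 : cnt n T (fun p u => ClassC n u e p t ∧ du n u e p t = q) ≤
      MM n T e t |q.1| (L1 q) := by
    refine cnt_mono ?_
    rintro p u ⟨g1, g2⟩
    rw [g2]
    exact ⟨g1, rfl, rfl⟩
  have h2 := bound hO n R T e (by nlinarith) (L1 q) t ht hT |q.1|
    (by have := abs_nonneg q.1; omega)
    (by unfold L1; have := abs_nonneg q.2; omega)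
  have h3 : GG R (WW e t) |q.1| (L1 q) ≤ 10240 * (R + 1) ^ 2 := by
    unfold GG
    have a1 := FF_le R (((|q.1| : ℤ) : ℝ) - WW e t / 2 + R + 2)
    have a2 := FF_le R (((L1 q : ℤ) : ℝ) - (|q.1| : ℤ) + WW e t / 2 + R + 2)
    have hR : (0 : ℝ) ≤ R := Nat.cast_nonneg R
    nlinarith
  have h4 : (cnt n T (fun p u => ClassC n u e p t ∧ du n u e p t = q) : ℝ) ≤
      10240 * (R + 1) ^ 2 * 12 ^ T := by
    have h5 : (cnt n T (fun p u => ClassC n u e p t ∧ du n u e p t = q) : ℝ) ≤
        MM n T e t |q.1| (L1 q) := by exact_mod_cast h1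
    have h6 := mul_le_mul_of_nonneg_right h3 (by positivity : (0 : ℝ) ≤ 12 ^ T)
    linarith
  exact_mod_cast h4

end Pool.Agent.Helper57K9.XZ
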