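import Pool.Agent.Helper57K9.XZ.Stm2

/-!
# XZ, [OCC]: occupation of the sites off the axes
-/

set_option autoImplicit false

namespace Pool.Agent.Helper57K9.XZ

open Finset Pool.Agent.Helper5K9.ZN

namespace OccL

/-! ### the box and the moves -/

theorem mem_In {n : ℕ} {a : ℤ} : a ∈ In n ↔ -(n : ℤ) < 2 * a ∧ 2 * a ≤ n := by
  unfold In
  rw [mem_filter, mem_Icc]
  constructor
  · exact fun h => h.2
  · intro h
    exact ⟨⟨by omega, by omega⟩, h⟩

theorem mem_Boxn {n : ℕ} {q : ℤ × ℤ} : q ∈ Boxn n ↔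
    (-(n : ℤ) < 2 * q.1 ∧ 2 * q.1 ≤ n) ∧ (-(n : ℤ) < 2 * q.2 ∧ 2 * q.2 ≤ n) := by
  unfold Boxn
  rw [mem_product, mem_In, mem_In]

/-- the coordinate before a move towards `a' ≠ 0` -/
def up (n : ℕ) (a' : ℤ) : ℤ :=
  if 0 < a' then a' + 1 else if -(n : ℤ) < 2 * (a' - 1) then a' - 1 else a' - 1 + n

theorem hx_cases {n : ℕ} (hn : 3 ≤ n) (s : Bool) {a : ℤ} (h1 : -(n : ℤ) < 2 * a)
    (h2 : 2 * a ≤ n) :
    (-(n : ℤ) < 2 * hx n s a ∧ 2 * hx n s a ≤ n) ∧ (a ≠ 0 → hx n s a ≠ a) ∧
    ((a = 0 ∧ hx n s a = 0) ∨ (hx n s a = 0 ∧ (a = 1 ∨ a = -1)) ∨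
      (hx n s a ≠ 0 ∧ a = up n (hx n s a))) := by
  unfold hx
  rcases lt_trichotomy a 0 with h | h | h
  · rw [if_neg (by omega), Int.sign_eq_neg_one_of_neg h]
    unfold up
    split_ifs <;> omega
  · subst h
    rw [if_neg (by omega)]
    simp
    omega
  · rw [Int.sign_eq_one_of_pos h]
    unfold up
    split_ifs <;> omega

theorem zu_mem {n : ℕ} (hn : 3 ≤ n) (u : Fin 12) {q : ℤ × ℤ} (hq : q ∈ Boxn n) :
    zu n u q ∈ Boxn n := by
  rw [mem_Boxn] at hq ⊢
  unfold zu zmg
  split_ifs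
  · exact ⟨(hx_cases hn _ hq.1.1 hq.1.2).1, hq.2⟩
  · exact ⟨hq.1, (hx_cases hn _ hq.2.1 hq.2.2).1⟩

theorem smg_mem {n : ℕ} (e : Bool) {q : ℤ × ℤ} (hq : q ∈ Boxn n) : smg n e q ∈ Boxn n := by
  rw [mem_Boxn] at hq ⊢
  unfold smg wrn
  split_ifs <;> simp only <;> omega

theorem smg_inj {n : ℕ} (e : Bool) {q q' : ℤ × ℤ} (hq : q ∈ Boxn n) (hq' : q' ∈ Boxn n)
    (h : smg n e q = smg n e q') : q = q' := by
  rw [mem_Boxn] at hq hq'
  unfold smg wrn at h
  rw [Prod.ext_iff] at h ⊢
  cases e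
  · simp only [Bool.false_eq_true, if_false] at h
    split_ifs at h <;> omega
  · simp only [if_true] at h
    split_ifs at h <;> omega

theorem tu_mem {n : ℕ} (hn : 3 ≤ n) (u : ℕ → Fin 12) (e : ℕ → Bool) {p : ℤ × ℤ}
    (hp : p ∈ Boxn n) (t : ℕ) : tu n u e p t ∈ Boxn n := by
  induction t with
  | zero => exact hp
  | succ t ih => exact smg_mem _ (zu_mem hn _ ih)

theorem du_mem {n : ℕ} (hn : 3 ≤ n) (u : ℕ → Fin 12) (e : ℕ → Bool) {p : ℤ × ℤ}
    (hp : p ∈ Boxn n) (t : ℕ) : du n u e p t ∈ Boxn n := zu_mem hn _ (tu_mem hn u e hp t)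

/-- predecessors -/
def p1 (n : ℕ) (a : ℤ) : ℤ := if a = 0 then 1 else up n a
def p2 (n : ℕ) (a : ℤ) : ℤ := if a = 0 then -1 else up n a

theorem zu_pred {n : ℕ} (hn : 3 ≤ n) {u : Fin 12} {r q : ℤ × ℤ} (hr : r ∈ Boxn n)
    (h : zu n u r = q) : (r = (0, 0) ∧ q = (0, 0)) ∨
      r = (p1 n q.1, q.2) ∨ r = (p2 n q.1, q.2) ∨ r = (q.1, p1 n q.2) ∨ r = (q.1, p2 n q.2) := by
  obtain ⟨a, b⟩ := r
  obtain ⟨a', b'⟩ := q
  rw [mem_Boxn] at hr
  simp only at hr
  unfold zu zmg at h
  generalize (cfs n u (a, b)).1 = c at h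
  generalize (cfs n u (a, b)).2 = s at h
  have h3 := (hx_cases hn s hr.1.1 hr.1.2).2.2
  have h4 := (hx_cases hn s hr.2.1 hr.2.2).2.2
  simp only at h
  split_ifs at h with hc
  · simp only [Prod.mk.injEq] at h
    obtain ⟨h5, h6⟩ := h
    rw [h5] at h3
    unfold p1 p2
    rcases h3 with ⟨h7, h8⟩ | ⟨h7, h8⟩ | ⟨h7, h8⟩
    · by_cases hb : b = 0
      · left
        simp only [Prod.mk.injEq]
        omega
      · rcases hc with hc | hc
        · exact absurd hc hb
        · exact absurd h7 hc.2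
    · rcases h8 with h8 | h8
      · right; left
        simp only [Prod.mk.injEq, if_pos h7]
        exact ⟨h8, h6⟩
      · right; right; left
        simp only [Prod.mk.injEq, if_pos h7]
        exact ⟨h8, h6⟩
    · right; left
      simp only [Prod.mk.injEq, if_neg h7]
      exact ⟨h8, h6⟩
  · simp only [Prod.mk.injEq] at h
    obtain ⟨h5, h6⟩ := h
    rw [h6] at h4
    have hb : b ≠ 0 := fun hb => hc (Or.inl hb)
    unfold p1 p2
    rcases h4 with ⟨h7, h8⟩ | ⟨h7, h8⟩ | ⟨h7, h8⟩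
    · exact absurd h7 hb
    · rcases h8 with h8 | h8
      · right; right; right; left
        simp only [Prod.mk.injEq, if_pos h7]
        exact ⟨h5, h8⟩
      · right; right; right; right
        simp only [Prod.mk.injEq, if_pos h7]
        exact ⟨h5, h8⟩
    · right; right; right; left
      simp only [Prod.mk.injEq, if_neg h7]
      exact ⟨h5, h8⟩

theorem par2 : ∀ c₀ : Fin 12, (univ.filter fun c : Fin 12 => c.1 % 2 = c₀.1 % 2).card ≤ 6 := by
  decide

theorem par3 : ∀ c₀ : Fin 12, (univ.filter fun c : Fin 12 => c.1 % 3 = c₀.1 % 3).card ≤ 6 := by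
  decide

open Classical in
theorem h6 {n : ℕ} (hn : 3 ≤ n) {r : ℤ × ℤ} (hr : r ∈ Boxn n) (h1 : r.1 ≠ 0) (h2 : r.2 ≠ 0)
    (q : ℤ × ℤ) : (univ.filter fun c : Fin 12 => zu n c r = q).card ≤ 6 := by
  obtain ⟨a, b⟩ := r
  rw [mem_Boxn] at hr
  simp only at hr h1 h2
  rcases (univ.filter fun c : Fin 12 => zu n c (a, b) = q).eq_empty_or_nonempty with h0 | h0
  · rw [h0]
    simp
  · obtain ⟨c₀, hc₀⟩ := h0
    rw [mem_filter] at hc₀
    by_cases ht : (2 * a = n ↔ 2 * b = n)
    · refine le_trans (card_le_card fun c hc => ?_) (par2 c₀)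
      rw [mem_filter] at hc ⊢
      refine ⟨mem_univ _, ?_⟩
      have h3 := hc.2.trans hc₀.2.symm
      have key : ∀ c : Fin 12, ∃ s, zu n c (a, b) =
          if c.1 % 2 = 0 then (hx n s a, b) else (a, hx n s b) := by
        intro c
        unfold zu zmg cfs
        by_cases h4 : 2 * a = n
        · have h5 := ht.1 h4
          simp only [if_pos h4, if_pos h5]
          refine ⟨decide (c.1 % 4 < 2), ?_⟩
          by_cases h6 : c.1 % 2 = 0
          · rw [if_pos h6, if_pos (Or.inr ⟨by simp [h6], h1⟩)]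
          · rw [if_neg h6, if_neg]
            rintro (h7 | h7)
            · exact h2 h7
            · exact h6 (by simpa using h7.1)
        · have h5 : ¬ 2 * b = n := fun h => h4 (ht.2 h)
          simp only [if_neg h4, if_neg h5]
          refine ⟨true, ?_⟩
          by_cases h6 : c.1 % 2 = 0
          · rw [if_pos h6, if_pos (Or.inr ⟨by simp [h6], h1⟩)]
          · rw [if_neg h6, if_neg]
            rintro (h7 | h7)
            · exact h2 h7
            · exact h6 (by simpa using h7.1)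
      obtain ⟨s, hs⟩ := key c
      obtain ⟨s₀, hs₀⟩ := key c₀
      rw [hs, hs₀] at h3
      have ha := (hx_cases hn s hr.1.1 hr.1.2).2.1 h1
      have ha₀ := (hx_cases hn s₀ hr.1.1 hr.1.2).2.1 h1
      split_ifs at h3 with h7 h8 h8
      · omega
      · simp only [Prod.mk.injEq] at h3
        exact absurd h3.1 ha
      · simp only [Prod.mk.injEq] at h3
        exact absurd h3.1.symm ha₀
      · omega
    · refine le_trans (card_le_card fun c hc => ?_) (par3 c₀)
      rw [mem_filter] at hc ⊢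
      refine ⟨mem_univ _, ?_⟩
      have h3 := hc.2.trans hc₀.2.symm
      by_cases h4 : 2 * a = n
      · have h5 : ¬ 2 * b = n := fun h => ht ⟨fun _ => h, fun _ => h4⟩
        have key : ∀ c : Fin 12, zu n c (a, b) =
            if c.1 % 3 = 0 then (a - a.sign, b) else if c.1 % 3 = 1 then (a + 1 - n, b)
              else (a, b - b.sign) := by
          intro c
          unfold zu zmg cfs hx
          simp only [if_pos h4, if_neg h5, if_neg h2]
          have h9 : c.1 % 3 < 3 := Nat.mod_lt _ (by norm_num)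
          by_cases h6 : c.1 % 3 = 0
          · simp [h6, h1, h2, h4]
          · by_cases h7 : c.1 % 3 = 1
            · simp [h7, h1, h2, h4]
            · have h8 : c.1 % 3 = 2 := by omega
              simp [h8, h1, h2, h5]
        rw [key c, key c₀, Int.sign_eq_one_of_pos (by omega : 0 < a)] at h3
        split_ifs at h3 with g1 g2 g3 g4 g5 g6 <;> simp only [Prod.mk.injEq] at h3 <;> omega
      · have h5 : 2 * b = n := by
          by_contra h
          exact ht ⟨fun h' => absurd h' h4, fun h' => absurd h' h⟩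
        have key : ∀ c : Fin 12, zu n c (a, b) =
            if c.1 % 3 = 0 then (a, b - b.sign) else if c.1 % 3 = 1 then (a, b + 1 - n)
              else (a - a.sign, b) := by
          intro c
          unfold zu zmg cfs hx
          simp only [if_neg h4, if_pos h5, if_neg h1]
          have h9 : c.1 % 3 < 3 := Nat.mod_lt _ (by norm_num)
          by_cases h6 : c.1 % 3 = 0
          · simp [h6, h1, h2, h5]
          · by_cases h7 : c.1 % 3 = 1
            · simp [h7, h1, h2, h5]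
            · have h8 : c.1 % 3 = 2 := by omega
              simp [h8, h1, h2, h4]
        rw [key c, key c₀, Int.sign_eq_one_of_pos (by omega : 0 < b)] at h3
        split_ifs at h3 with g1 g2 g3 g4 g5 g6 <;> simp only [Prod.mk.injEq] at h3 <;> omega

/-! ### counting -/

open Classical in
/-- the set which is counted -/
noncomputable def cs (n T : ℕ) (P : ℤ × ℤ → (ℕ → Fin 12) → Prop) :
    Finset ((ℤ × ℤ) × (Fin T → Fin 12)) :=
  (Boxn n ×ˢ (univ : Finset (Fin T → Fin 12))).filter fun x => P x.1 (ext12 x.2)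

theorem cnt_eq (n T : ℕ) (P : ℤ × ℤ → (ℕ → Fin 12) → Prop) : cnt n T P = (cs n T P).card := rfl

open Classical in
theorem mem_cs {n T : ℕ} {P : ℤ × ℤ → (ℕ → Fin 12) → Prop} {x : (ℤ × ℤ) × (Fin T → Fin 12)} :
    x ∈ cs n T P ↔ x.1 ∈ Boxn n ∧ P x.1 (ext12 x.2) := by
  unfold cs
  rw [mem_filter, mem_product]
  simp

theorem cnt_mono {n T : ℕ} {P P' : ℤ × ℤ → (ℕ → Fin 12) → Prop}
    (h : ∀ p ∈ Boxn n, ∀ u, P p u → P' p u) : cnt n T P ≤ cnt n T P' := by
  rw [cnt_eq, cnt_eq]
  refine card_le_card fun x hx => ?_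
  rw [mem_cs] at hx ⊢
  exact ⟨hx.1, h _ hx.1 _ hx.2⟩

/-- the coin at the time `t` is independent of an event which depends on the coins before `t` -/
theorem indep {n T t : ℕ} (ht : t < T) (A : ℤ × ℤ → (ℕ → Fin 12) → Prop)
    (hA : ∀ p u u', (∀ s < t, u s = u' s) → (A p u ↔ A p u')) (C : Finset (Fin 12)) :
    12 * cnt n T (fun p u => A p u ∧ u t ∈ C) = C.card * cnt n T A := by
  have h1 : ∀ (c c' : Fin 12), cnt n T (fun p u => A p u ∧ u t = c) ≤
      cnt n T (fun p u => A p u ∧ u t = c') := by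
    intro c c'
    rw [cnt_eq, cnt_eq]
    refine card_le_card_of_injOn (fun x => (x.1, Function.update x.2 ⟨t, ht⟩ c')) ?_ ?_
    · intro x hx
      rw [mem_coe, mem_cs] at hx ⊢
      refine ⟨hx.1, ?_, ?_⟩
      · rw [hA _ _ (ext12 x.2)]
        · exact hx.2.1
        · intro s hs
          have hs' : s < T := hs.trans ht
          simp only [ext12, dif_pos hs']
          rw [Function.update_of_ne]
          intro h
          have := congrArg Fin.val h
          simp only at this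
          omega
      · simp only [ext12, dif_pos ht]
        rw [Function.update_self]
    · intro x hx y hy hxy
      rw [mem_coe, mem_cs] at hx hy
      rw [Prod.mk.injEq] at hxy
      refine Prod.ext hxy.1 ?_
      funext i
      by_cases hi : i = ⟨t, ht⟩
      · have hx2 := hx.2.2
        have hy2 := hy.2.2
        simp only [ext12, dif_pos ht] at hx2 hy2
        rw [hi, hx2, hy2]
      · have h2 := congrFun hxy.2 i
        rwa [Function.update_of_ne hi, Function.update_of_ne hi] at h2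
  have h2 : ∀ c c', cnt n T (fun p u => A p u ∧ u t = c) = cnt n T (fun p u => A p u ∧ u t = c') :=
    fun c c' => le_antisymm (h1 c c') (h1 c' c)
  have h3 : ∀ C : Finset (Fin 12), cnt n T (fun p u => A p u ∧ u t ∈ C) =
      ∑ c ∈ C, cnt n T (fun p u => A p u ∧ u t = c) := by
    intro C
    rw [cnt_eq, card_eq_sum_card_fiberwise
      (f := fun x : (ℤ × ℤ) × (Fin T → Fin 12) => ext12 x.2 t)
      (t := C) (fun x hx => (mem_cs.1 (mem_coe.1 hx)).2.2)]
    refine sum_congr rfl fun c hc => ?_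
    rw [cnt_eq]
    congr 1
    ext x
    rw [mem_filter, mem_cs, mem_cs]
    constructor
    · rintro ⟨⟨h4, h5, h6⟩, h7⟩
      exact ⟨h4, h5, h7⟩
    · rintro ⟨h4, h5, h6⟩
      exact ⟨⟨h4, h5, h6 ▸ hc⟩, h6⟩
  have h4 : cnt n T A = ∑ c : Fin 12, cnt n T (fun p u => A p u ∧ u t = c) := by
    rw [← h3]
    simp
  rw [h3, h4, sum_congr rfl fun c _ => h2 c 0,
    sum_congr (s₁ := (univ : Finset (Fin 12))) rfl fun c _ => h2 c 0, sum_const, sum_const,
    card_univ, Fintype.card_fin, smul_eq_mul, smul_eq_mul]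
  ring

theorem tu_congr {n : ℕ} {u u' : ℕ → Fin 12} (e : ℕ → Bool) (p : ℤ × ℤ) : ∀ {t : ℕ},
    (∀ s < t, u s = u' s) → tu n u e p t = tu n u' e p t := by
  intro t
  induction t with
  | zero => intro _; rfl
  | succ t ih =>
    intro h
    show smg n (e t) (zu n (u t) (tu n u e p t)) = smg n (e t) (zu n (u' t) (tu n u' e p t))
    rw [ih fun s hs => h s (by omega), h t (by omega)]

theorem du_congr {n : ℕ} {u u' : ℕ → Fin 12} (e : ℕ → Bool) (p : ℤ × ℤ) {t : ℕ}
    (h : ∀ s ≤ t, u s = u' s) : du n u e p t = du n u' e p t := by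
  show zu n (u t) (tu n u e p t) = zu n (u' t) (tu n u' e p t)
  rw [tu_congr e p fun s hs => h s hs.le, h t le_rfl]

theorem free_congr {n : ℕ} {u u' : ℕ → Fin 12} (e : ℕ → Bool) (p : ℤ × ℤ) {t : ℕ}
    (h : ∀ s < t, u s = u' s) : FreeN n u e p t ↔ FreeN n u' e p t := by
  unfold FreeN
  refine forall₂_congr fun s hs => ?_
  rw [tu_congr e p fun s' hs' => h s' (by omega), du_congr e p fun s' hs' => h s' (by omega)]

open Classical in
/-- the coins which lead from `r` to `q` -/
noncomputable def Cr (n : ℕ) (r q : ℤ × ℤ) : Finset (Fin 12) :=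
  univ.filter fun c => (r ∈ Boxn n ∧ ¬ OnAx r) ∧ zu n c r = q

open Classical in
theorem mem_Cr {n : ℕ} {r q : ℤ × ℤ} {c : Fin 12} :
    c ∈ Cr n r q ↔ (r ∈ Boxn n ∧ ¬ OnAx r) ∧ zu n c r = q := by
  unfold Cr
  rw [mem_filter]
  simp

open Classical in
theorem card_Cr {n : ℕ} (hn : 3 ≤ n) (r q : ℤ × ℤ) : (Cr n r q).card ≤ 6 := by
  by_cases hr : r ∈ Boxn n ∧ ¬ OnAx r
  · refine le_trans (card_le_card fun c hc => ?_) (h6 hn hr.1 (fun h => hr.2 (Or.inl h))
      (fun h => hr.2 (Or.inr h)) q)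
    rw [mem_filter]
    exact ⟨mem_univ _, (mem_Cr.1 hc).2⟩
  · have h1 : Cr n r q = ∅ := by
      rw [eq_empty_iff_forall_notMem]
      intro c hc
      exact hr (mem_Cr.1 hc).1
    rw [h1]
    simp

/-- at most one zombie at every site at every turn -/
theorem main {n : ℕ} (hn : 3 ≤ n) (T : ℕ) (e : ℕ → Bool) : ∀ t, t ≤ T → ∀ q,
    cnt n T (fun p u => FreeN n u e p t ∧ tu n u e p t = q) ≤ 12 ^ T := by
  intro t
  induction t with
  | zero =>
    intro _ q
    rw [cnt_eq]
    have h1 : (univ : Finset (Fin T → Fin 12)).card = 12 ^ T := by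
      rw [card_univ, Fintype.card_fun, Fintype.card_fin, Fintype.card_fin]
    rw [← h1]
    refine card_le_card_of_injOn (fun x => x.2) (fun x _ => mem_coe.2 (mem_univ _)) ?_
    intro x hx y hy hxy
    rw [mem_coe, mem_cs] at hx hy
    have h2 : x.1 = q := hx.2.2
    have h3 : y.1 = q := hy.2.2
    exact Prod.ext (h2.trans h3.symm) hxy
  | succ t ih =>
    intro ht q
    by_cases h0 : ∃ q' ∈ Boxn n, ¬ OnAx q' ∧ smg n (e t) q' = q
    · obtain ⟨q', hq', hax, hsm⟩ := h0
      have hq1 : q'.1 ≠ 0 := fun h => hax (Or.inl h)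
      have hq2 : q'.2 ≠ 0 := fun h => hax (Or.inr h)
      have key : ∀ r : ℤ × ℤ, 12 * cnt n T (fun p u => (FreeN n u e p t ∧ tu n u e p t = r) ∧
          u t ∈ Cr n r q') ≤ 6 * 12 ^ T := by
        intro r
        rw [indep (by omega) (fun p u => FreeN n u e p t ∧ tu n u e p t = r) (fun p u u' h => by
          rw [free_congr e p h, tu_congr e p h])]
        exact Nat.mul_le_mul (card_Cr hn r q') (ih (by omega) r)
      have hsub : cnt n T (fun p u => FreeN n u e p (t + 1) ∧ tu n u e p (t + 1) = q) ≤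
          cnt n T (fun p u => (FreeN n u e p t ∧ tu n u e p t = (up n q'.1, q'.2)) ∧
            u t ∈ Cr n (up n q'.1, q'.2) q') +
          cnt n T (fun p u => (FreeN n u e p t ∧ tu n u e p t = (q'.1, up n q'.2)) ∧
            u t ∈ Cr n (q'.1, up n q'.2) q') := by
        simp only [cnt_eq]
        refine (card_le_card ?_).trans (card_union_le _ _)
        intro x hx
        rw [mem_cs] at hx
        obtain ⟨hp, hx2, hx3⟩ := hx
        have h1 := hx2 t (by omega)
        have h2 : FreeN n (ext12 x.2) e x.1 t := fun s hs => hx2 s (by omega)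
        have h3 : du n (ext12 x.2) e x.1 t = q' :=
          smg_inj (e t) (du_mem hn _ e hp t) hq' (hx3.trans hsm.symm)
        have hr := tu_mem hn (ext12 x.2) e hp t
        have h4 : zu n (ext12 x.2 t) (tu n (ext12 x.2) e x.1 t) = q' := h3
        have h5 := zu_pred hn hr h4
        unfold p1 p2 at h5
        simp only [if_neg hq1, if_neg hq2] at h5
        rw [mem_union, mem_cs, mem_cs]
        have h6 : ∀ r, tu n (ext12 x.2) e x.1 t = r → (FreeN n (ext12 x.2) e x.1 t ∧
            tu n (ext12 x.2) e x.1 t = r) ∧ ext12 x.2 t ∈ Cr n r q' := by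
          intro r h7
          refine ⟨⟨h2, h7⟩, mem_Cr.2 ?_⟩
          rw [← h7]
          exact ⟨⟨hr, h1.1⟩, h4⟩
        rcases h5 with h5 | h5 | h5 | h5 | h5
        · exact absurd (by rw [h5.2]) hq1
        · exact Or.inl ⟨hp, h6 _ h5⟩
        · exact Or.inl ⟨hp, h6 _ h5⟩
        · exact Or.inr ⟨hp, h6 _ h5⟩
        · exact Or.inr ⟨hp, h6 _ h5⟩
      have h1 := key (up n q'.1, q'.2)
      have h2 := key (q'.1, up n q'.2)
      omega
    · have h1 : cnt n T (fun p u => FreeN n u e p (t + 1) ∧ tu n u e p (t + 1) = q) = 0 := by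
        rw [cnt_eq, card_eq_zero, eq_empty_iff_forall_notMem]
        intro x hx
        rw [mem_cs] at hx
        exact h0 ⟨_, du_mem hn (ext12 x.2) e hx.1 t, (hx.2.1 t (by omega)).2, hx.2.2⟩
      rw [h1]
      exact Nat.zero_le _

theorem union_bound {n T : ℕ} (L : List (ℤ × ℤ)) (B : ℕ) (A : ℤ × ℤ → (ℕ → Fin 12) → Prop)
    (g : ℤ × ℤ → (ℕ → Fin 12) → ℤ × ℤ) (hL : ∀ p ∈ Boxn n, ∀ u, A p u → g p u ∈ L)
    (hB : ∀ r, cnt n T (fun p u => A p u ∧ g p u = r) ≤ B) : cnt n T A ≤ L.length * B := by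
  have h1 : ∀ L : List (ℤ × ℤ), cnt n T (fun p u => A p u ∧ g p u ∈ L) ≤ L.length * B := by
    intro L
    induction L with
    | nil =>
      rw [cnt_eq, List.length_nil, zero_mul, Nat.le_zero, card_eq_zero, eq_empty_iff_forall_notMem]
      intro x hx
      rw [mem_cs] at hx
      exact absurd hx.2.2 (List.not_mem_nil)
    | cons r L ih =>
      have h2 : cnt n T (fun p u => A p u ∧ g p u ∈ r :: L) ≤
          cnt n T (fun p u => A p u ∧ g p u = r) + cnt n T (fun p u => A p u ∧ g p u ∈ L) := by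
        simp only [cnt_eq]
        refine (card_le_card ?_).trans (card_union_le _ _)
        intro x hx
        rw [mem_cs] at hx
        rw [mem_union, mem_cs, mem_cs]
        rcases List.mem_cons.1 hx.2.2 with h | h
        · exact Or.inl ⟨hx.1, hx.2.1, h⟩
        · exact Or.inr ⟨hx.1, hx.2.1, h⟩
      have h3 := hB r
      rw [List.length_cons, add_mul, one_mul]
      omega
  refine (cnt_mono fun p hp u h => ?_).trans (h1 L)
  exact ⟨h, hL p hp u h⟩

end OccL

open OccL

/-- occupation of the sites, all sites -/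
theorem occ5 (n T t : ℕ) (e : ℕ → Bool) (q : ℤ × ℤ) (hn : 3 ≤ n) (ht : t < T) :
    cnt n T (fun p u => FreeN n u e p t ∧ du n u e p t = q) ≤ 5 * 12 ^ T := by
  refine union_bound [(0, 0), (p1 n q.1, q.2), (p2 n q.1, q.2), (q.1, p1 n q.2), (q.1, p2 n q.2)]
    (12 ^ T) _ (fun p u => tu n u e p t) ?_ ?_
  · intro p hp u h
    have h1 := zu_pred hn (tu_mem hn u e hp t) (h.2 : zu n (u t) (tu n u e p t) = q)
    simp only [List.mem_cons, List.not_mem_nil, or_false]
    rcases h1 with h1 | h1 | h1 | h1 | h1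
    · exact Or.inl h1.1
    · exact Or.inr (Or.inl h1)
    · exact Or.inr (Or.inr (Or.inl h1))
    · exact Or.inr (Or.inr (Or.inr (Or.inl h1)))
    · exact Or.inr (Or.inr (Or.inr (Or.inr h1)))
  · intro r
    refine (cnt_mono fun p _ u h => ?_).trans (main hn T e t ht.le r)
    exact ⟨h.1.1, h.2⟩

theorem occ : S_OCC := occ5

/-- occupation of the sites, `q ≠ 0` -/
theorem occ4 (n T t : ℕ) (e : ℕ → Bool) (q : ℤ × ℤ) (hn : 3 ≤ n) (ht : t < T) (hq : q ≠ (0, 0)) :
    cnt n T (fun p u => FreeN n u e p t ∧ du n u e p t = q) ≤ 4 * 12 ^ T := by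
  refine union_bound [(p1 n q.1, q.2), (p2 n q.1, q.2), (q.1, p1 n q.2), (q.1, p2 n q.2)]
    (12 ^ T) _ (fun p u => tu n u e p t) ?_ ?_
  · intro p hp u h
    have h1 := zu_pred hn (tu_mem hn u e hp t) (h.2 : zu n (u t) (tu n u e p t) = q)
    simp only [List.mem_cons, List.not_mem_nil, or_false]
    rcases h1 with h1 | h1 | h1 | h1 | h1
    · exact absurd h1.2 hq
    · exact Or.inl h1
    · exact Or.inr (Or.inl h1)
    · exact Or.inr (Or.inr (Or.inl h1))
    · exact Or.inr (Or.inr (Or.inr h1))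
  · intro r
    refine (cnt_mono fun p _ u h => ?_).trans (main hn T e t ht.le r)
    exact ⟨h.1.1, h.2⟩

/-- occupation of the sites at the turns of the zombies -/
theorem occ1 (n T t : ℕ) (e : ℕ → Bool) (q : ℤ × ℤ) (hn : 3 ≤ n) (ht : t ≤ T) :
    cnt n T (fun p u => FreeN n u e p t ∧ tu n u e p t = q) ≤ 12 ^ T := main hn T e t ht q

end Pool.Agent.Helper57K9.XZ
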