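import Pool.Agent.Helper57K9.XZ.Stm3
import Pool.Agent.Helper57K9.XZ.Occ

/-!
# XZ, [PLA]: planar dynamics near the survivor
-/

set_option autoImplicit false

namespace Pool.Agent.Helper57K9.XZ

open Finset Pool.Agent.Helper5K9.ZN

namespace PlaL

theorem L1_eq (q : ℤ × ℤ) : L1 q = max q.1 (-q.1) + max q.2 (-q.2) := by
  unfold L1
  rw [abs_eq_max_neg, abs_eq_max_neg]

/-- the two coordinates after the move of a zombie -/
theorem zm_cases (c : Bool) (q : ℤ × ℤ) :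
    ((q.2 = 0 ∨ (c = true ∧ q.1 ≠ 0)) ∧ (zm c q).2 = q.2 ∧ ((0 < q.1 ∧ (zm c q).1 = q.1 - 1) ∨
      (q.1 < 0 ∧ (zm c q).1 = q.1 + 1) ∨ (q.1 = 0 ∧ (zm c q).1 = 0))) ∨
    (¬ (q.2 = 0 ∨ (c = true ∧ q.1 ≠ 0)) ∧ (zm c q).1 = q.1 ∧ ((0 < q.2 ∧ (zm c q).2 = q.2 - 1) ∨
      (q.2 < 0 ∧ (zm c q).2 = q.2 + 1))) := by
  unfold zm
  by_cases h : q.2 = 0 ∨ (c = true ∧ q.1 ≠ 0)
  · left
    rw [if_pos h]
    refine ⟨h, rfl, ?_⟩
    rcases lt_trichotomy q.1 0 with h1 | h1 | h1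
    · right; left
      refine ⟨h1, ?_⟩
      simp only [Int.sign_eq_neg_one_of_neg h1]
      ring
    · right; right
      simp only [h1, Int.sign_zero]
      exact ⟨trivial, by ring⟩
    · left
      exact ⟨h1, by simp only [Int.sign_eq_one_of_pos h1]⟩
  · right
    rw [if_neg h]
    refine ⟨h, rfl, ?_⟩
    push Not at h
    rcases lt_trichotomy q.2 0 with h1 | h1 | h1
    · right
      refine ⟨h1, ?_⟩
      simp only [Int.sign_eq_neg_one_of_neg h1]
      ring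
    · exact absurd h1 h.1
    · left
      exact ⟨h1, by simp only [Int.sign_eq_one_of_pos h1]⟩

theorem zu_noTie {n : ℕ} (u : Fin 12) {q : ℤ × ℤ} (h1 : 2 * q.1 ≠ n) (h2 : 2 * q.2 ≠ n) :
    zu n u q = zm (bt u) q := by
  unfold zu zmg zm cfs hx bt
  simp only [h1, h2, false_and, if_false]

theorem smg_noWrap {n : ℕ} (e : Bool) {q : ℤ × ℤ} (h1 : -(n : ℤ) < 2 * (q.1 - 1))
    (h2 : -(n : ℤ) < 2 * (q.2 - 1)) (h3 : 2 * q.1 ≤ n) (h4 : 2 * q.2 ≤ n) :
    smg n e q = shp e q := by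
  unfold smg shp wrn
  cases e
  · simp only [Bool.false_eq_true, if_false]
    rw [if_neg (by omega), if_neg (by omega)]
  · simp only [if_true]
    rw [if_neg (by omega), if_neg (by omega)]

theorem hx_abs {n : ℕ} (hn : 3 ≤ n) (s : Bool) {a : ℤ} (h1 : -(n : ℤ) < 2 * a)
    (h2 : 2 * a ≤ n) : (a = 0 ∧ hx n s a = 0) ∨
      max (hx n s a) (-(hx n s a)) = max a (-a) - 1 := by
  unfold hx
  rcases lt_trichotomy a 0 with h | h | h
  · rw [if_neg (by omega), Int.sign_eq_neg_one_of_neg h]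
    omega
  · subst h
    rw [if_neg (by omega)]
    simp
  · rw [Int.sign_eq_one_of_pos h]
    split_ifs <;> omega

theorem zu_L1 {n : ℕ} (hn : 3 ≤ n) (u : Fin 12) {q : ℤ × ℤ} (hq : q ∈ Boxn n) :
    (L1 q = 0 ∧ L1 (zu n u q) = 0) ∨ (0 < L1 q ∧ L1 (zu n u q) = L1 q - 1) := by
  rw [OccL.mem_Boxn] at hq
  unfold zu zmg
  split_ifs with h
  · have h3 := hx_abs hn (cfs n u q).2 hq.1.1 hq.1.2
    simp only [L1_eq]
    omega
  · have h3 := hx_abs hn (cfs n u q).2 hq.2.1 hq.2.2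
    simp only [L1_eq]
    omega

theorem smg_L1 {n : ℕ} (e : Bool) {q : ℤ × ℤ} (hq : q ∈ Boxn n) :
    L1 (smg n e q) ≤ L1 q + 1 ∧ L1 q ≤ L1 (smg n e q) + 1 := by
  rw [OccL.mem_Boxn] at hq
  unfold smg wrn
  simp only [L1_eq]
  cases e
  · simp only [Bool.false_eq_true, if_false]
    split_ifs <;> omega
  · simp only [if_true]
    split_ifs <;> omega

end PlaL

open PlaL OccL

theorem pla : S_PLA := by
  intro n u e p t hn hp
  have hn3 : 3 ≤ n := by omega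
  have hd := du_mem hn3 u e hp t
  have hsm := smg_L1 (e t) hd
  have hsm' := smg_mem (e t) hd
  have hz := zu_L1 hn3 (u (t + 1)) hsm'
  have hz0 := zu_L1 hn3 (u 0) hp
  have e1 : du n u e p (t + 1) = zu n (u (t + 1)) (smg n (e t) (du n u e p t)) := rfl
  have e0 : du n u e p 0 = zu n (u 0) p := rfl
  have h0 : 0 ≤ L1 (du n u e p t) := by
    rw [L1_eq]
    omega
  refine ⟨fun h => ?_, ?_, ?_, ?_⟩
  · have h1 := L1_eq (du n u e p t)
    have h2 : smg n (e t) (du n u e p t) = shp (e t) (du n u e p t) := by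
      refine smg_noWrap _ ?_ ?_ ?_ ?_ <;> omega
    refine ⟨h2, ?_⟩
    rw [e1, h2]
    refine zu_noTie _ ?_ ?_
    · unfold shp
      split_ifs <;> simp only <;> omega
    · unfold shp
      split_ifs <;> simp only <;> omega
  · rw [e1]
    omega
  · rw [e1]
    omega
  · rw [e0]
    omega

end Pool.Agent.Helper57K9.XZ
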