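import Pool.Agent.Helper57K9.XZ.UpA
import Pool.Agent.Helper57K9.XZ.Pla

/-!
# Zombies on the torus: the play is fine as long as nothing unusual happens (leaf DET)
-/

set_option autoImplicit false

namespace Pool.Agent.Helper57K9.XZ

open Finset Pool.Agent.Helper5K9.ZN

namespace DeL

variable {n K k : ℕ} {u : Fin k → ℕ → Fin 12} {e : ℕ → Bool} {p : Fin k → ℤ × ℤ}

theorem Gd_mono {i j : ℕ} (h : i ≤ j) (hj : Gd K n u e p j) : Gd K n u e p i := by
  have h0 : i * Lam K ≤ j * Lam K := Nat.mul_le_mul_right _ h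
  obtain ⟨h1, h2, h3, h4⟩ := hj
  exact ⟨fun s hs => h1 s (hs.trans h0), fun i' hi' => h2 i' (hi'.trans h),
    fun t' ht' => h3 t' (ht'.trans h0), fun t ht => h4 t (lt_of_lt_of_le ht h0)⟩

theorem GC_mono {T T' : ℕ} (h : T ≤ T') {c : ℕ → Bool} (hc : GC K T' c) : GC K T c :=
  fun s w hs => hc s w (hs.trans h)

theorem abs_aux {x y F : ℤ} (h : |x - y| ≤ F) (h' : |y| ≤ 1) : |x| ≤ F + 1 := by
  rw [abs_le] at *
  omega

/-- no zombie is at the position of the survivor -/
theorem pd_ne (hn : 12 ≤ n) (hp : ∀ z, p z ∈ Boxn n ∧ (D3 K : ℤ) < L1 (p z)) (hD : 2 ≤ D3 K) {j : ℕ}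
    (hj : Gd K n u e p j) : ∀ z, PD n u e p (j * Lam K) z ≠ 0 := by
  intro z h
  have h1 : 2 ≤ L1 (tu n (u z) e (p z) (j * Lam K)) := by
    rcases Nat.eq_zero_or_pos (j * Lam K) with h0 | h0
    · rw [h0]
      change 2 ≤ L1 (p z)
      have := (hp z).2
      omega
    · obtain ⟨t, ht⟩ : ∃ t, j * Lam K = t + 1 := ⟨j * Lam K - 1, by omega⟩
      rw [ht]
      exact hj.2.2.2 t (by omega) z
  have h2 := PlaL.zu_L1 (by omega : 3 ≤ n) (u z (j * Lam K))
    (OccL.tu_mem (by omega : 3 ≤ n) (u z) e (hp z).1 (j * Lam K))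
  have h3 : zu n (u z (j * Lam K)) (tu n (u z) e (p z) (j * Lam K)) = 0 := h
  rw [h3] at h2
  have h4 : L1 (0 : ℤ × ℤ) = 0 := by simp [L1]
  rw [h4] at h2
  omega

/-- the epoch `0` is clean -/
theorem clean0 (hn : 12 ≤ n) (hp : ∀ z, p z ∈ Boxn n ∧ (D3 K : ℤ) < L1 (p z)) (hL : 1 ≤ Lam K) :
    Clean K (PD n u e p (0 * Lam K)) := by
  intro z hV
  rw [Nat.zero_mul] at hV
  obtain ⟨_, h1, h2, _, _⟩ := hV
  have h3 := PlaL.zu_L1 (by omega : 3 ≤ n) (u z 0) (hp z).1
  have h4 := (hp z).2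
  have h5 : PD n u e p 0 z = zu n (u z 0) (p z) := rfl
  rw [h5] at h1 h2
  have h6 : L1 (zu n (u z 0) (p z)) = |(zu n (u z 0) (p z)).1| + |(zu n (u z 0) (p z)).2| := rfl
  have h7 : (D3 K : ℤ) = 10000 * Lam K := by unfold D3; push_cast; rfl
  have h8 : (D1 K : ℤ) = 4 * Lam K := by unfold D1; push_cast; rfl
  omega

end DeL

open DeL in
theorem det : S_UP → S_DN → S_SBL → S_CNT → S_SPC → S_PLA → S_DET := by
  classical
  intro hUP hDN hSBL hCNT _ _ n K k j u e p hBig hp
  obtain ⟨_, hF⟩ := UpL.Fq_ge K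
  have hL := UpL.Lam_eq K
  have hR := UpL.RR_eq K
  have hn : 12 ≤ n := by unfold Big at hBig; omega
  have hD : 2 ≤ D3 K := by unfold D3; omega
  have hG : GG K = 610 * Lam K := rfl
  have hF1 : (1 : ℤ) ≤ Fq K + 1 := by omega
  suffices key : ∀ j : ℕ, (∀ z, GC K (j * Lam K) (bts (u z))) → Desc n K (PD n u e p) e →
      (∀ t, t < j * Lam K → OkC n K u e p t) → (∀ i < j, OkD n K u e p i) → Gd K n u e p j ∧
      ∀ i < j, Clean K (PD n u e p (i * Lam K)) → |WW e ((i + 1) * Lam K)| ≤ 1 ∧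
        (i % 2 = 0 → ∃ t, i * Lam K ≤ t ∧ t < (i + 1) * Lam K ∧ WW e t = RR K) ∧
        (i % 2 = 1 → ∃ t, i * Lam K ≤ t ∧ t < (i + 1) * Lam K ∧ WW e t = -(RR K : ℤ)) by
    intro h1 h2 h3 h4
    exact (key j h1 h2 h3 h4).1
  clear j
  intro j
  induction j with
  | zero =>
    intro _ _ _ _
    refine ⟨⟨?_, ?_, ?_, ?_⟩, fun i hi => absurd hi (Nat.not_lt_zero i)⟩
    · intro s hs
      obtain rfl : s = 0 := by omega
      simp [WW]
    · intro i hi
      obtain rfl : i = 0 := by omega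
      simp only [WW, Nat.zero_mul, range_zero, sum_empty, abs_zero]
      positivity
    · intro t' h1 h2
      omega
    · intro t ht
      omega
  | succ j ih =>
    intro hgc hdesc hokc hokd
    have hj1 : (j + 1) * Lam K = j * Lam K + Lam K := by ring
    obtain ⟨hGd, hcl⟩ := ih (fun z => GC_mono (by omega) (hgc z)) hdesc
      (fun t ht => hokc t (by omega)) (fun i hi => hokd i (by omega))
    have hcnt : ∀ i, i + 600 ≤ j → ∀ b < 2, ∃ j', i ≤ j' ∧ j' < i + 600 ∧ j' % 2 = b ∧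
        Clean K (PD n u e p (j' * Lam K)) := by
      intro i hi
      have h0 : (i + 600) * Lam K ≤ j * Lam K := Nat.mul_le_mul_right _ hi
      have hGi := Gd_mono hi hGd
      exact hCNT n K k i u e p hBig hp (fun z => GC_mono (by omega) (hgc z))
        (fun t ht => hokc t (by omega)) hGi.1 hGi.2.1 hGi.2.2.1
    have hwin : Win K e ((j + 1) * Lam K) := by
      intro t' ht' hGt
      rcases Nat.lt_or_ge (j * Lam K) t' with h1 | h1
      · have h2 : 609 ≤ j := by
          by_contra h2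
          have h3 : (j + 1) * Lam K ≤ 609 * Lam K := Nat.mul_le_mul_right _ (by omega)
          omega
        obtain ⟨i, rfl⟩ : ∃ i, j = i + 600 := ⟨j - 600, by omega⟩
        have hb : ∀ j' s : ℕ, i ≤ j' → j' < i + 600 → j' * Lam K ≤ s → s < (j' + 1) * Lam K →
            s ≤ t' ∧ t' ≤ s + GG K := by
          intro j' s h3 h4 h5 h6
          have h7 : (j' + 1) * Lam K ≤ (i + 600) * Lam K := Nat.mul_le_mul_right _ (by omega)
          have h8 : (i + 600 + 1) * Lam K ≤ (j' + 601) * Lam K := Nat.mul_le_mul_right _ (by omega)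
          have h9 : (j' + 601) * Lam K = j' * Lam K + 601 * Lam K := by ring
          omega
        constructor
        · obtain ⟨j', h3, h4, h5, h6⟩ := hcnt i le_rfl 0 (by norm_num)
          obtain ⟨s, h7, h8, h9⟩ := (hcl j' h4 h6).2.1 h5
          obtain ⟨h10, h11⟩ := hb j' s h3 h4 h7 h8
          exact ⟨s, h10, h11, h9⟩
        · obtain ⟨j', h3, h4, h5, h6⟩ := hcnt i le_rfl 1 (by norm_num)
          obtain ⟨s, h7, h8, h9⟩ := (hcl j' h4 h6).2.2 h5
          obtain ⟨h10, h11⟩ := hb j' s h3 h4 h7 h8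
          exact ⟨s, h10, h11, h9⟩
      · exact hGd.2.2.1 t' h1 hGt
    have hne := pd_ne hn hp hD hGd
    -- assembly of the conclusion
    have fin : (∀ t, j * Lam K ≤ t → t ≤ (j + 1) * Lam K → |WW e t| ≤ RR K) →
        |WW e ((j + 1) * Lam K)| ≤ Fq K + 1 →
        (∀ t, j * Lam K ≤ t → t < (j + 1) * Lam K → ∀ z, 2 ≤ L1 (tu n (u z) e (p z) (t + 1))) →
        Gd K n u e p (j + 1) := by
      intro h1 h2 h3
      refine ⟨?_, ?_, hwin, ?_⟩
      · intro s hs
        rcases Nat.le_total s (j * Lam K) with h4 | h4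
        · exact hGd.1 s h4
        · exact h1 s h4 hs
      · intro i hi
        rcases Nat.lt_or_ge j i with h4 | h4
        · obtain rfl : i = j + 1 := by omega
          exact h2
        · exact hGd.2.1 i h4
      · intro t ht z
        rcases Nat.lt_or_ge t (j * Lam K) with h4 | h4
        · exact hGd.2.2.2 t h4 z
        · exact h3 t h4 ht z
    have hp1 : ∀ z, p z ∈ Boxn n := fun z => (hp z).1
    have hgc' : ∀ z, GC K (j * Lam K + Lam K) (bts (u z)) := fun z => GC_mono hj1.ge (hgc z)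
    have hWj : WW e ((j + 1) * Lam K) = WW e (j * Lam K + Lam K) := congrArg (WW e) hj1
    by_cases hc : Clean K (PD n u e p (j * Lam K))
    · have hW := hGd.2.1 j le_rfl
      have hd := hdesc.1 j hc
      have ho := hokd j (by omega) hc
      rcases Nat.mod_two_eq_zero_or_one j with hpar | hpar
      · obtain ⟨a1, ⟨t, a2, a2', a2''⟩, a3, a4, a5⟩ := hUP n K k (j * Lam K) u e p hBig hp1 hgc' hW hc hne
          (hd.1 hpar) (ho.1 hpar)
        rw [← hWj] at a3 a4
        have a2t : t < (j + 1) * Lam K := lt_of_lt_of_eq a2' hj1.symm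
        refine ⟨fin (fun t h1 h2 => a1 t h1 (h2.trans hj1.le)) (abs_le.2 ⟨(neg_nonpos.2 (zero_le_one.trans hF1)).trans a3, a4.trans hF1⟩)
          (fun t h1 h2 => a5 t h1 (lt_of_lt_of_eq h2 hj1)), ?_⟩
        intro i hi hci
        rcases Nat.lt_or_ge i j with h4 | h4
        · exact hcl i h4 hci
        · obtain rfl : i = j := by omega
          exact ⟨abs_le.2 ⟨(neg_nonpos.2 zero_le_one).trans a3, a4⟩, fun _ => ⟨t, a2, a2t, a2''⟩, fun h => by omega⟩
      · obtain ⟨a1, ⟨t, a2, a2', a2''⟩, a3, a4, a5⟩ := hDN n K k (j * Lam K) u e p hBig hp1 hgc' hW hc hne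
          (hd.2 hpar) (ho.2 hpar)
        rw [← hWj] at a3 a4
        have a2t : t < (j + 1) * Lam K := lt_of_lt_of_eq a2' hj1.symm
        refine ⟨fin (fun t h1 h2 => a1 t h1 (h2.trans hj1.le)) (abs_le.2 ⟨(neg_le_neg hF1).trans a3, a4.trans (zero_le_one.trans hF1)⟩)
          (fun t h1 h2 => a5 t h1 (lt_of_lt_of_eq h2 hj1)), ?_⟩
        intro i hi hci
        rcases Nat.lt_or_ge i j with h4 | h4
        · exact hcl i h4 hci
        · obtain rfl : i = j := by omega
          exact ⟨abs_le.2 ⟨a3, a4.trans zero_le_one⟩, fun h => by omega, fun _ => ⟨t, a2, a2t, a2''⟩⟩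
    · -- a block
      obtain ⟨i, hij, hi1, hi2⟩ : ∃ i, i < j ∧ Clean K (PD n u e p (i * Lam K)) ∧
          ∀ j', i < j' → j' ≤ j → ¬ Clean K (PD n u e p (j' * Lam K)) := by
        have h0 : Clean K (PD n u e p (0 * Lam K)) := clean0 hn hp (by omega)
        have h1 := Nat.findGreatest_spec (P := fun i => Clean K (PD n u e p (i * Lam K)))
          (Nat.zero_le j) h0
        refine ⟨Nat.findGreatest (fun i => Clean K (PD n u e p (i * Lam K))) j, ?_, h1, ?_⟩
        · refine lt_of_le_of_ne (Nat.findGreatest_le j) ?_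
          intro h2
          rw [h2] at h1
          exact hc h1
        · intro j' h2 h3
          exact Nat.findGreatest_is_greatest h2 h3
      obtain ⟨l, rfl⟩ : ∃ l, j = i + l := ⟨j - i, by omega⟩
      have hl : l ≤ 600 := by
        by_contra h1
        obtain ⟨j', h3, h4, h5, h6⟩ := hcnt (i + 1) (by omega) 0 (by norm_num)
        exact hi2 j' (by omega) (by omega) h6
      obtain ⟨b1, b2, b3⟩ := hcl i hij hi1
      have hGi : Gd K n u e p (i + 1) := Gd_mono (by omega) hGd
      have e1 : i + 1 + l = i + l + 1 := by ring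
      have e2 : (i + 1) * Lam K ≤ (i + l) * Lam K := Nat.mul_le_mul_right _ (by omega)
      have e3 : (i + l) * Lam K ≤ (i + l + 1) * Lam K := Nat.mul_le_mul_right _ (by omega)
      have hS := hSBL n K k (i + 1) l u e p hBig hp (by omega) hl (by rw [e1]; exact hgc) hdesc
        (fun t ht => hokc t (by omega)) (by rw [Nat.add_sub_cancel]; exact hi1)
        (fun j' h1 h2 => hi2 j' (by omega) (by omega)) hGi.1
        (by rw [Nat.add_sub_cancel]; exact hGd.2.1 i (by omega)) b1
        (by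
          rw [Nat.add_sub_cancel]
          rcases Nat.mod_two_eq_zero_or_one i with hpar | hpar
          · obtain ⟨t, c1, c2, c3⟩ := b2 hpar
            exact Or.inl ⟨t, c1, c2.le, c3⟩
          · obtain ⟨t, c1, c2, c3⟩ := b3 hpar
            exact Or.inr ⟨t, c1, c2.le, c3⟩)
        (by rw [e1]; exact hwin) (pd_ne hn hp hD hGi)
      rw [e1] at hS
      refine ⟨fin ?_ ?_ ?_, ?_⟩
      · intro t h1 h2
        exact (abs_aux (hS t (e2.trans h1) h2).1 b1).trans (by omega)
      · exact abs_aux (hS ((i + l + 1) * Lam K) (e2.trans e3) le_rfl).1 b1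
      · intro t h1 h2
        exact (hS t (e2.trans h1) h2.le).2 h2
      · intro i' hi' hci
        rcases Nat.lt_or_ge i' (i + l) with h4 | h4
        · exact hcl i' h4 hci
        · obtain rfl : i' = i + l := by omega
          exact absurd hci hc

end Pool.Agent.Helper57K9.XZ
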