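import Pool.Agent.Helper57K9.XZ.Dx

/-!
Zombies which block the north during a run of moves to the east.
-/

set_option autoImplicit false

namespace Pool.Agent.Helper57K9.XZ

open Finset Pool.Agent.Helper5K9.ZN

namespace DxnL

theorem sgn_not : ∀ b : Bool, sgn (!b) = - sgn b := by decide

theorem WW_not (c : ℕ → Bool) (t : ℕ) : WW (fun s => !(c s)) t = - WW c t := by
  unfold WW
  rw [← Finset.sum_neg_distrib]
  exact Finset.sum_congr rfl fun s _ => sgn_not _

theorem GC_not {K t : ℕ} {c : ℕ → Bool} (h : GC K t c) : GC K t (fun s => !(c s)) := by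
  intro s w hsw
  rw [WW_not, WW_not]
  have := h s w hsw
  nlinarith

theorem Tube_not {R t : ℕ} {e : ℕ → Bool} (h : Tube R e t) : Tube R (fun s => !(e s)) t := by
  intro s hs
  rw [WW_not, abs_neg]
  exact h s hs

theorem ext_tau {T : ℕ} (u : Fin T → Fin 12) {s : ℕ} (hs : s < T) :
    ext12 (fun i => tau (u i)) s = tau (ext12 u s) := by
  unfold ext12
  rw [dif_pos hs, dif_pos hs]

end DxnL

open DxL DxnL in
theorem dxn : S_DX → S_SWP → S_DXN := by
  rintro ⟨C, hC, h⟩ ⟨w1, w2, w3⟩
  refine ⟨C, hC, ?_⟩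
  intro n R K T α t σ e hn hα hαt htT hR he1 he0 hσ hσn
  have h0 := h n R K T α t σ (fun s => !(e s)) hn hα hαt htT (Tube_not hR) (by
    simp [he1]) (fun s hs hs' => by simp [he0 s hs hs']) hσ hσn
  refine le_trans ?_ h0
  have hn3 : 3 ≤ n := by nlinarith
  norm_cast
  unfold cnt
  apply Finset.card_le_card_of_injOn (fun x => (x.1.swap, fun i => tau (x.2 i)))
  · intro x hx
    simp only [Finset.coe_filter, Finset.mem_product, Finset.mem_univ, and_true,
      Set.mem_ofPred_eq] at hx ⊢
    obtain ⟨h1, h2, h3⟩ := hx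
    refine ⟨?_, ?_, ?_⟩
    · unfold Boxn at h1 ⊢
      rw [Finset.mem_product] at h1 ⊢
      exact ⟨h1.2, h1.1⟩
    · refine GC_congr (c := fun s => !(bts (ext12 x.2) s)) (fun s hs => ?_) (GC_not h2)
      show (!(bt (ext12 x.2 s))) = bt (ext12 (fun i => tau (x.2 i)) s)
      rw [ext_tau _ (by omega), w1]
    · intro s hs hs'
      have e1 : du n (ext12 fun i => tau (x.2 i)) (fun s => !(e s)) x.1.swap s =
          du n (fun s => tau (ext12 x.2 s)) (fun s => !(e s)) x.1.swap s :=
        du_congr fun r hr => ext_tau _ (by omega)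
      rw [e1, (w3 n (ext12 x.2) e x.1 s hn3).2]
      exact h3 s hs hs'
  · intro x _ y _ hxy
    simp only [Prod.mk.injEq] at hxy
    obtain ⟨h1, h2⟩ := hxy
    refine Prod.ext (Prod.swap_injective h1) ?_
    funext i
    have := congrFun h2 i
    rw [← w2 (x.2 i), this, w2]

end Pool.Agent.Helper57K9.XZ
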