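import Pool.Agent.Helper57K9.XZ.Up
import Pool.Agent.Helper57K9.XZ.Dxn

/-!
A clean odd epoch.
-/

set_option autoImplicit false

namespace Pool.Agent.Helper57K9.XZ

open Finset Pool.Agent.Helper5K9.ZN

namespace DnL

theorem L1_swap (q : ℤ × ℤ) : L1 q.swap = L1 q := by
  unfold L1; simp only [Prod.fst_swap, Prod.snd_swap]; ring

theorem viol_swap {K : ℕ} {q : ℤ × ℤ} (h : Viol K q.swap) : Viol K q := by
  obtain ⟨h1, h2, h3, h4, h5⟩ := h
  exact ⟨h1.symm, h3, h2, h5, h4⟩

theorem BE_swap {q : ℤ × ℤ} : BE q.swap ↔ BN q := by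
  unfold BE BN
  rw [L1_swap]
  simp only [Prod.fst_swap]

theorem mem_swap {n : ℕ} {q : ℤ × ℤ} (h : q ∈ Boxn n) : q.swap ∈ Boxn n := by
  unfold Boxn at h ⊢
  rw [Finset.mem_product] at h ⊢
  exact ⟨h.2, h.1⟩

end DnL

open UpL DxnL DnL in
theorem dn : S_UP → S_SWP → S_DN := by
  classical
  intro hup hsw n K k t0 u e p hbig hp hgc h0 hcl hne hm hb
  obtain ⟨w1, w2, w3⟩ := hsw
  obtain ⟨hF1, hF2⟩ := Fq_ge K
  have hL := Lam_eq K
  have hn : 3 ≤ n := by unfold Big at hbig; omega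
  set u' : Fin k → ℕ → Fin 12 := fun z s => tau (u z s) with hu'
  set e' : ℕ → Bool := fun s => !(e s) with he'
  set p' : Fin k → ℤ × ℤ := fun z => (p z).swap with hp'
  have hPD : ∀ t z, PD n u' e' p' t z = (PD n u e p t z).swap := fun t z =>
    (w3 n (u z) e (p z) t hn).2
  have htu : ∀ t z, tu n (u' z) e' (p' z) t = (tu n (u z) e (p z) t).swap := fun t z =>
    (w3 n (u z) e (p z) t hn).1
  have hW : ∀ t, WW e' t = - WW e t := fun t => WW_not e t
  have hrun : ∀ t, (∀ s, t0 ≤ s → s ≤ t → WW e' s < RR K) ↔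
      ∀ s, t0 ≤ s → s ≤ t → -(RR K : ℤ) < WW e s := by
    intro t
    constructor
    · intro h s h1 h2
      have := h s h1 h2
      rw [hW] at this
      linarith
    · intro h s h1 h2
      have := h s h1 h2
      rw [hW]
      linarith
  have hgc' : ∀ z, GC K (t0 + Lam K) (bts (u' z)) := by
    intro z
    have : bts (u' z) = fun s => !(bts (u z) s) := by
      funext s
      exact w1 _
    rw [this]
    exact GC_not (hgc z)
  have hb' : (BlkU K e' t0).card ≤ Bet K := by
    refine le_trans (le_of_eq ?_) hb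
    congr 1
    unfold BlkU BlkD
    ext t
    simp only [Finset.mem_filter]
    rw [hrun]
    simp [he']
  have hm' : ModeUp K (PD n u' e' p') e' t0 := by
    intro t h1 h2
    have h3 := hm t h1 h2
    have e1 : (e' t = true) ↔ e t = false := by simp [he']
    rw [e1, h3]
    have e2 : (∀ z, ¬ BN (PD n u e p t z)) ↔ ∀ z, ¬ BE (PD n u' e' p' t z) := by
      refine forall_congr' fun z => ?_
      rw [hPD, BE_swap]
    have e3 : (0 ≤ WW e t) ↔ WW e' t ≤ 0 := by rw [hW]; constructor <;> intro h <;> linarith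
    by_cases hr : ∀ s, t0 ≤ s → s ≤ t → -(RR K : ℤ) < WW e s
    · rw [if_pos hr, if_pos ((hrun t).2 hr)]
      exact e2
    · rw [if_neg hr, if_neg (fun h => hr ((hrun t).1 h))]
      exact e3
  obtain ⟨a1, ⟨t1, a2, a3, a4⟩, a5, a6, a7⟩ := hup n K k t0 u' e' p' hbig
    (fun z => mem_swap (hp z)) hgc' (by rw [hW, abs_neg]; exact h0)
    (fun z hz => hcl z (viol_swap (by rw [← hPD]; exact hz)))
    (fun z hz => hne z (by
      rw [hPD] at hz
      have := congrArg Prod.swap hz
      simpa using this)) hm' hb'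
  refine ⟨fun t h1 h2 => ?_, ⟨t1, a2, a3, ?_⟩, ?_, ?_, fun t h1 h2 z => ?_⟩
  · have := a1 t h1 h2
    rwa [hW, abs_neg] at this
  · rw [hW] at a4; linarith
  · rw [hW] at a6; linarith
  · rw [hW] at a5; linarith
  · have := a7 t h1 h2 z
    rwa [htu, L1_swap] at this

end Pool.Agent.Helper57K9.XZ
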