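import Pool.Agent.Helper57K9.XZ.Stm2

/-!
Zombies which block the east during a run of moves to the north.
-/

set_option autoImplicit false

namespace Pool.Agent.Helper57K9.XZ

open Finset Pool.Agent.Helper5K9.ZN

namespace DxL

theorem WW_congr {c c' : ℕ → Bool} {t : ℕ} (h : ∀ s < t, c s = c' s) : WW c t = WW c' t := by
  unfold WW
  exact Finset.sum_congr rfl fun s hs => by rw [h s (Finset.mem_range.1 hs)]

theorem GC_congr {c c' : ℕ → Bool} {K t : ℕ} (h : ∀ s < t, c s = c' s) (hc : GC K t c) :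
    GC K t c' := by
  intro s w hsw
  rw [← WW_congr (t := s + w) fun r hr => h r (by omega),
    ← WW_congr (t := s) fun r hr => h r (by omega)]
  exact hc s w hsw

theorem tu_congr {n : ℕ} {u u' : ℕ → Fin 12} {e : ℕ → Bool} {p : ℤ × ℤ} {t : ℕ}
    (h : ∀ s < t, u s = u' s) : tu n u e p t = tu n u' e p t := by
  induction t with
  | zero => rfl
  | succ t ih =>
    change smg n (e t) (zu n (u t) (tu n u e p t)) = smg n (e t) (zu n (u' t) (tu n u' e p t))
    rw [ih fun s hs => h s (by omega), h t (by omega)]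

theorem du_congr {n : ℕ} {u u' : ℕ → Fin 12} {e : ℕ → Bool} {p : ℤ × ℤ} {t : ℕ}
    (h : ∀ s ≤ t, u s = u' s) : du n u e p t = du n u' e p t := by
  unfold du
  rw [tu_congr fun s hs => h s (by omega), h t le_rfl]

open Classical in
theorem cnt_mono {n T : ℕ} {P Q : ℤ × ℤ → (ℕ → Fin 12) → Prop} (h : ∀ p u, P p u → Q p u) :
    cnt n T P ≤ cnt n T Q := by
  unfold cnt
  apply Finset.card_le_card
  intro x hx
  rw [Finset.mem_filter] at hx ⊢
  exact ⟨hx.1, h _ _ hx.2⟩

open Classical in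
theorem cnt_or {n T : ℕ} {P Q R : ℤ × ℤ → (ℕ → Fin 12) → Prop}
    (h : ∀ p u, P p u → Q p u ∨ R p u) : cnt n T P ≤ cnt n T Q + cnt n T R := by
  unfold cnt
  refine le_trans (Finset.card_le_card ?_) (Finset.card_union_le _ _)
  intro x hx
  rw [Finset.mem_filter] at hx
  rw [Finset.mem_union, Finset.mem_filter, Finset.mem_filter]
  rcases h _ _ hx.2 with h1 | h1
  · exact Or.inl ⟨hx.1, h1⟩
  · exact Or.inr ⟨hx.1, h1⟩

open Classical in
theorem cnt_split {n T : ℕ} {P : ℤ × ℤ → (ℕ → Fin 12) → Prop}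
    (Q : ℤ × ℤ → (ℕ → Fin 12) → Prop) :
    cnt n T (fun p u => P p u ∧ Q p u) + cnt n T (fun p u => P p u ∧ ¬ Q p u) = cnt n T P := by
  have h := Finset.card_filter_add_card_filter_not (s := (Boxn n ×ˢ (univ : Finset (Fin T →
    Fin 12))).filter fun x => P x.1 (ext12 x.2)) (fun x => Q x.1 (ext12 x.2))
  rw [Finset.filter_filter, Finset.filter_filter] at h
  unfold cnt
  convert h using 3
  · ext x; simp only [Finset.mem_filter]
  · ext x; simp only [Finset.mem_filter]

theorem bt_succ : ∀ u : Fin 12, bt (u + 1) = !(bt u) := by decide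

theorem ext_update {T j : ℕ} (hj : j < T) (u : Fin T → Fin 12) (x : Fin 12) (s : ℕ) :
    ext12 (Function.update u ⟨j, hj⟩ x) s = if s = j then x else ext12 u s := by
  unfold ext12
  by_cases hs : s < T
  · rw [dif_pos hs, dif_pos hs]
    by_cases h : s = j
    · subst h; simp
    · rw [if_neg h, Function.update_of_ne]
      intro h'
      exact h (congrArg Fin.val h')
  · rw [dif_neg hs, dif_neg hs, if_neg (by omega)]

/-- a property which does not depend on the coin `j` is independent of the base bit of this coin -/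
theorem half {n T j : ℕ} (hj : j < T) {P : ℤ × ℤ → (ℕ → Fin 12) → Prop}
    (hP : ∀ p u u', (∀ s < j, u s = u' s) → P p u → P p u') (b : Bool) :
    2 * cnt n T (fun p u => P p u ∧ bt (u j) = b) ≤ cnt n T P := by
  classical
  have h1 : ∀ b : Bool, cnt n T (fun p u => P p u ∧ bt (u j) = b) ≤
      cnt n T (fun p u => P p u ∧ bt (u j) = !b) := by
    intro b
    unfold cnt
    apply Finset.card_le_card_of_injOn
      (fun x => (x.1, Function.update x.2 ⟨j, hj⟩ (x.2 ⟨j, hj⟩ + 1)))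
    · intro x hx
      simp only [Finset.coe_filter, Finset.mem_product, Finset.mem_univ, and_true,
        Set.mem_ofPred_eq] at hx ⊢
      obtain ⟨h1, h2, h3⟩ := hx
      refine ⟨h1, hP _ _ _ ?_ h2, ?_⟩
      · intro s hs
        rw [ext_update, if_neg (by omega)]
      · rw [ext_update, if_pos rfl, bt_succ]
        congr 1
        unfold ext12 at h3
        rw [dif_pos hj] at h3
        exact h3
    · intro x _ y _ hxy
      simp only [Prod.mk.injEq] at hxy
      obtain ⟨h1, h2⟩ := hxy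
      refine Prod.ext h1 ?_
      funext i
      by_cases hi : i = ⟨j, hj⟩
      · subst hi
        have := congrFun h2 ⟨j, hj⟩
        simpa using this
      · have := congrFun h2 i
        rwa [Function.update_of_ne hi, Function.update_of_ne hi] at this
  have h2 := cnt_split (n := n) (T := T) (P := P) (fun _ u => bt (u j) = b)
  have h3 : cnt n T (fun p u => P p u ∧ ¬ bt (u j) = b) =
      cnt n T (fun p u => P p u ∧ bt (u j) = !b) := by
    congr 1
    funext p u
    cases b <;> simp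
  have := h1 b
  omega

theorem du_succ (n : ℕ) (u : ℕ → Fin 12) (e : ℕ → Bool) (p : ℤ × ℤ) (s : ℕ) :
    du n u e p (s + 1) = zu n (u (s + 1)) (smg n (e s) (du n u e p s)) := rfl

theorem sm_north {n : ℕ} (hn : 1000 ≤ n) {a b : ℤ} (hb : -3 ≤ b) (hb' : b ≤ 3) :
    smg n false (a, b) = (a, b - 1) := by
  have h1 : ¬ 2 * (b - 1) ≤ -(n : ℤ) := by omega
  have h2 : ¬ (n : ℤ) < 2 * (b - 1) := by omega
  simp only [smg, wrn, Bool.false_eq_true, if_false, if_neg h1, if_neg h2]

theorem zu_near {n : ℕ} (hn : 1000 ≤ n) {a b : ℤ} (ha : -5 ≤ a) (ha' : a ≤ 5) (hb : -5 ≤ b)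
    (hb' : b ≤ 5) (hb0 : b ≠ 0) (u : Fin 12) :
    zu n u (a, b) = if bt u = true ∧ a ≠ 0 then (a - a.sign, b) else (a, b - b.sign) := by
  have h1 : ¬ 2 * a = (n : ℤ) := by omega
  have h2 : ¬ 2 * b = (n : ℤ) := by omega
  simp only [zu, cfs, zmg, hx, bt, hb0, false_or, h1, h2, false_and, if_false]
  rfl

theorem nxt20 {n : ℕ} (hn : 1000 ≤ n) {u : ℕ → Fin 12} {e : ℕ → Bool} {p : ℤ × ℤ} {s : ℕ}
    (he : e s = false) (h : du n u e p s = (2, 0)) :
    du n u e p (s + 1) = if bt (u (s + 1)) = true then (1, -1) else (2, 0) := by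
  rw [du_succ, he, h, sm_north hn (by norm_num) (by norm_num),
    zu_near hn (by norm_num) (by norm_num) (by norm_num) (by norm_num) (by norm_num)]
  cases bt (u (s + 1)) <;> simp [show Int.sign 2 = 1 from rfl]

theorem nxt10 {n : ℕ} (hn : 1000 ≤ n) {u : ℕ → Fin 12} {e : ℕ → Bool} {p : ℤ × ℤ} {s : ℕ}
    (he : e s = false) (h : du n u e p s = (1, 0)) :
    du n u e p (s + 1) = if bt (u (s + 1)) = true then (0, -1) else (1, 0) := by
  rw [du_succ, he, h, sm_north hn (by norm_num) (by norm_num),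
    zu_near hn (by norm_num) (by norm_num) (by norm_num) (by norm_num) (by norm_num)]
  cases bt (u (s + 1)) <;> simp [show Int.sign 2 = 1 from rfl]

theorem nxt11 {n : ℕ} (hn : 1000 ≤ n) {u : ℕ → Fin 12} {e : ℕ → Bool} {p : ℤ × ℤ} {s : ℕ}
    (he : e s = false) (h : du n u e p s = (1, -1)) :
    du n u e p (s + 1) = if bt (u (s + 1)) = true then (0, -2) else (1, -1) := by
  rw [du_succ, he, h, sm_north hn (by norm_num) (by norm_num),
    zu_near hn (by norm_num) (by norm_num) (by norm_num) (by norm_num) (by norm_num)]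
  cases bt (u (s + 1)) <;> simp [show Int.sign 2 = 1 from rfl]

theorem CE_cases {q : ℤ × ℤ} (h : CE q) : q = (2, 0) ∨ q = (1, 0) ∨ q = (1, -1) := by
  obtain ⟨a, b⟩ := q
  obtain ⟨h1, h2, h3⟩ := h
  simp only at h1 h2 h3
  have : (a = 2 ∧ b = 0) ∨ (a = 1 ∧ b = 0) ∨ (a = 1 ∧ b = -1) := by omega
  rcases this with ⟨rfl, rfl⟩ | ⟨rfl, rfl⟩ | ⟨rfl, rfl⟩ <;> simp

/-- the base event -/
def Ev (n K α : ℕ) (e : ℕ → Bool) (i : ℕ) (p : ℤ × ℤ) (u : ℕ → Fin 12) : Prop :=
  GC K (α + 1) (bts u) ∧ ∀ s, α ≤ s → s ≤ α + i → CE (du n u e p s)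

theorem Ev_congr {n K α : ℕ} {e : ℕ → Bool} {i : ℕ} {p : ℤ × ℤ} {u u' : ℕ → Fin 12}
    (h : ∀ s < α + i + 1, u s = u' s) (hE : Ev n K α e i p u) : Ev n K α e i p u' := by
  refine ⟨GC_congr (fun s hs => ?_) hE.1, fun s hs hs' => ?_⟩
  · unfold bts; rw [h s (by omega)]
  · rw [← du_congr fun r hr => h r (by omega)]
    exact hE.2 s hs hs'

theorem Ev_succ {n K α : ℕ} {e : ℕ → Bool} {i : ℕ} {p : ℤ × ℤ} {u : ℕ → Fin 12}
    (hE : Ev n K α e (i + 1) p u) : Ev n K α e i p u :=
  ⟨hE.1, fun s hs hs' => hE.2 s hs (by omega)⟩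

section steps

variable {n K T α : ℕ} {e : ℕ → Bool} {i : ℕ}

theorem stepA (hn : 1000 ≤ n) (hT : α + (i + 1) < T) (he : e (α + i) = false) :
    2 * cnt n T (fun p u => Ev n K α e (i + 1) p u ∧ du n u e p (α + (i + 1)) = (2, 0)) ≤
      cnt n T (fun p u => Ev n K α e i p u ∧ du n u e p (α + i) = (2, 0)) := by
  refine le_trans (Nat.mul_le_mul_left 2 (cnt_mono (Q := fun p u =>
    (Ev n K α e i p u ∧ du n u e p (α + i) = (2, 0)) ∧ bt (u (α + (i + 1))) = false) ?_))
    (half hT ?_ false)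
  · rintro p u ⟨h1, h2⟩
    have h3 := CE_cases (h1.2 (α + i) (by omega) (by omega))
    have h2' : du n u e p (α + i + 1) = (2, 0) := h2
    rcases h3 with h3 | h3 | h3
    · refine ⟨⟨Ev_succ h1, h3⟩, ?_⟩
      rw [nxt20 hn he h3] at h2'
      show bt (u (α + i + 1)) = false
      by_contra hc
      rw [Bool.not_eq_false] at hc
      rw [hc] at h2'
      simp at h2'
    · rw [nxt10 hn he h3] at h2'
      exfalso
      split_ifs at h2' <;> simp at h2'
    · rw [nxt11 hn he h3] at h2'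
      exfalso
      split_ifs at h2' <;> simp at h2'
  · rintro p u u' h ⟨h1, h2⟩
    refine ⟨Ev_congr (fun s hs => h s (by omega)) h1, ?_⟩
    rw [← du_congr fun s hs => h s (by omega)]
    exact h2

theorem stepB (hn : 1000 ≤ n) (hT : α + (i + 1) < T) (he : e (α + i) = false) :
    2 * cnt n T (fun p u => Ev n K α e (i + 1) p u ∧ ¬ du n u e p (α + (i + 1)) = (2, 0)) ≤
      cnt n T (fun p u => Ev n K α e i p u ∧ du n u e p (α + i) = (2, 0)) +
      cnt n T (fun p u => Ev n K α e i p u ∧ ¬ du n u e p (α + i) = (2, 0)) := by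
  have h0 := cnt_or (n := n) (T := T)
    (P := fun p u => Ev n K α e (i + 1) p u ∧ ¬ du n u e p (α + (i + 1)) = (2, 0))
    (Q := fun p u =>
      (Ev n K α e i p u ∧ du n u e p (α + i) = (2, 0)) ∧ bt (u (α + (i + 1))) = true)
    (R := fun p u =>
      (Ev n K α e i p u ∧ ¬ du n u e p (α + i) = (2, 0)) ∧ bt (u (α + (i + 1))) = false) (by
    rintro p u ⟨h1, h2⟩
    have h3 := CE_cases (h1.2 (α + i) (by omega) (by omega))
    have h4 := h1.2 (α + i + 1) (by omega) (by omega)
    rcases h3 with h3 | h3 | h3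
    · left
      refine ⟨⟨Ev_succ h1, h3⟩, ?_⟩
      have h2' : ¬ du n u e p (α + i + 1) = (2, 0) := h2
      rw [nxt20 hn he h3] at h2'
      show bt (u (α + i + 1)) = true
      by_contra hc
      rw [if_neg hc] at h2'
      exact h2' rfl
    · right
      refine ⟨⟨Ev_succ h1, by rw [h3]; simp⟩, ?_⟩
      rw [nxt10 hn he h3] at h4
      show bt (u (α + i + 1)) = false
      by_contra hc
      rw [Bool.not_eq_false] at hc
      rw [if_pos hc] at h4
      exact absurd h4.1 (by norm_num)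
    · right
      refine ⟨⟨Ev_succ h1, by rw [h3]; simp⟩, ?_⟩
      rw [nxt11 hn he h3] at h4
      show bt (u (α + i + 1)) = false
      by_contra hc
      rw [Bool.not_eq_false] at hc
      rw [if_pos hc] at h4
      exact absurd h4.1 (by norm_num))
  have h1 := half (n := n) hT (P := fun p u => Ev n K α e i p u ∧ du n u e p (α + i) = (2, 0)) (by
    rintro p u u' h ⟨h1, h2⟩
    refine ⟨Ev_congr (fun s hs => h s (by omega)) h1, ?_⟩
    rw [← du_congr fun s hs => h s (by omega)]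
    exact h2) true
  have h2 := half (n := n) hT (P := fun p u => Ev n K α e i p u ∧ ¬ du n u e p (α + i) = (2, 0))
    (by
    rintro p u u' h ⟨h1, h2⟩
    refine ⟨Ev_congr (fun s hs => h s (by omega)) h1, ?_⟩
    rw [← du_congr fun s hs => h s (by omega)]
    exact h2) false
  omega

theorem total (hn : 1000 ≤ n) (m : ℕ) (hT : α + m < T)
    (he : ∀ s, α ≤ s → s < α + m → e s = false) :
    (cnt n T (fun p u => Ev n K α e m p u ∧ du n u e p (α + m) = (2, 0)) : ℝ) ≤
      cnt n T (fun p u => Ev n K α e 0 p u ∧ du n u e p (α + 0) = (2, 0)) * (1 / 2) ^ m ∧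
    (cnt n T (fun p u => Ev n K α e m p u ∧ ¬ du n u e p (α + m) = (2, 0)) : ℝ) ≤
      (cnt n T (fun p u => Ev n K α e 0 p u ∧ ¬ du n u e p (α + 0) = (2, 0)) +
        m * cnt n T (fun p u => Ev n K α e 0 p u ∧ du n u e p (α + 0) = (2, 0))) *
        (1 / 2) ^ m := by
  induction m with
  | zero => simp
  | succ m ih =>
    obtain ⟨i1, i2⟩ := ih (by omega) fun s hs hs' => he s hs (by omega)
    have s1 := stepA (K := K) hn hT (he (α + m) (by omega) (by omega))
    have s2 := stepB (K := K) hn hT (he (α + m) (by omega) (by omega))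
    have s1' : (2 : ℝ) * (cnt n T (fun p u => Ev n K α e (m + 1) p u ∧
        du n u e p (α + (m + 1)) = (2, 0)) : ℝ) ≤
        (cnt n T (fun p u => Ev n K α e m p u ∧ du n u e p (α + m) = (2, 0)) : ℝ) := by
      exact_mod_cast s1
    have s2' : (2 : ℝ) * (cnt n T (fun p u => Ev n K α e (m + 1) p u ∧
        ¬ du n u e p (α + (m + 1)) = (2, 0)) : ℝ) ≤
        (cnt n T (fun p u => Ev n K α e m p u ∧ du n u e p (α + m) = (2, 0)) : ℝ) +
        (cnt n T (fun p u => Ev n K α e m p u ∧ ¬ du n u e p (α + m) = (2, 0)) : ℝ) := by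
      exact_mod_cast s2
    rw [pow_succ]
    push_cast
    constructor
    · nlinarith
    · nlinarith

end steps

end DxL

open DxL in
theorem dx : S_DXA → S_DX := by
  rintro ⟨C, hC, h⟩
  refine ⟨C, hC, ?_⟩
  intro n R K T α t σ e hn hα hαt htT hR he1 he0 hσ hσn
  obtain ⟨m, rfl⟩ : ∃ m, t = α + m := ⟨t - α, by omega⟩
  have h0 := h n R K T α σ e hn hα (by omega) hR he1 hσ hσn
  have hn' : 1000 ≤ n := by nlinarith
  obtain ⟨t1, t2⟩ := total (K := K) (T := T) hn' m htT he0
  have hsp := cnt_split (n := n) (T := T) (P := fun p u => Ev n K α e m p u)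
    (fun p u => du n u e p (α + m) = (2, 0))
  have hsp0 := cnt_split (n := n) (T := T) (P := fun p u => Ev n K α e 0 p u)
    (fun p u => du n u e p (α + 0) = (2, 0))
  have e0 : cnt n T (fun p u => Ev n K α e 0 p u) =
      cnt n T (fun p u => GC K (α + 1) (bts u) ∧ CE (du n u e p α)) := by
    congr 1
    funext p u
    apply propext
    constructor
    · rintro ⟨h1, h2⟩
      exact ⟨h1, h2 α le_rfl (by omega)⟩
    · rintro ⟨h1, h2⟩
      refine ⟨h1, fun s hs hs' => ?_⟩
      have : s = α := by omega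
      rw [this]; exact h2
  have e1 : cnt n T (fun p u => GC K (α + 1) (bts u) ∧
      ∀ s, α ≤ s → s ≤ α + m → CE (du n u e p s)) = cnt n T (fun p u => Ev n K α e m p u) := rfl
  rw [e1, ← hsp]
  rw [← e0, ← hsp0] at h0
  push_cast at h0 ⊢
  set a0 : ℝ := (cnt n T (fun p u => Ev n K α e 0 p u ∧ du n u e p (α + 0) = (2, 0)) : ℝ)
    with ha0
  set b0 : ℝ := (cnt n T (fun p u => Ev n K α e 0 p u ∧ ¬ du n u e p (α + 0) = (2, 0)) : ℝ)
    with hb0
  have a0n : 0 ≤ a0 := Nat.cast_nonneg _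
  have b0n : 0 ≤ b0 := Nat.cast_nonneg _
  have hp : (0 : ℝ) ≤ (1 / 2) ^ m := by positivity
  have hm : (0 : ℝ) ≤ m := Nat.cast_nonneg _
  have e3 : α + m - α = m := by omega
  rw [e3]
  have key : a0 * (1 / 2) ^ m + (b0 + m * a0) * (1 / 2) ^ m ≤
      ((m : ℝ) + 1) * (1 / 2) ^ m * (a0 + b0) := by
    nlinarith [mul_nonneg (mul_nonneg hm b0n) hp]
  refine (add_le_add t1 t2).trans (key.trans ?_)
  have e4 : ((α : ℝ) + m - α + 1) = m + 1 := by ring
  rw [e4]
  calc ((m : ℝ) + 1) * (1 / 2) ^ m * (a0 + b0)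
      ≤ ((m : ℝ) + 1) * (1 / 2) ^ m * (C * (1 + prof (fun s => e (σ + s)) (α - 1 - σ) 2 +
        (R + 1) ^ 3) * 12 ^ T) := mul_le_mul_of_nonneg_left h0 (by positivity)
    _ = _ := by ring

end Pool.Agent.Helper57K9.XZ
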