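import Pool.Agent.Helper57K9.XZ.Stm2
import Pool.Agent.Helper57K9.XZ.Occ
import Pool.Agent.Helper57K9.XZ.Dx

/-!
# Zombies on the torus, leaf DXA: zombies which block the east (helper71)
-/

set_option autoImplicit false

namespace Pool.Agent.Helper57K9.XZ

open Finset Pool.Agent.Helper5K9.ZN

namespace DxaL

/-- the profile of one particle injected at the time `v` -/
noncomputable def pi1 (e : ℕ → Bool) (v : ℕ) : ℕ → ℕ → ℝ
  | 0 => fun _ => 1
  | i + 1 => fun h => stp (e (v + i)) (pi1 e v i) h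

theorem stp_sum {ι : Type} (S : Finset ι) (e : Bool) (U : ι → ℕ → ℝ) (h : ℕ) :
    stp e (fun h => ∑ j ∈ S, U j h) h = ∑ j ∈ S, stp e (U j) h := by
  unfold stp
  cases e
  · simp only [Bool.false_eq_true, if_false]
    by_cases hh : h = 0
    · simp only [hh, if_true, add_zero, sum_div]
    · simp only [if_neg hh]
      rw [← sum_add_distrib, sum_div]
  · simp only [if_true]
    rw [← sum_add_distrib, sum_div]

theorem prof_eq (e : ℕ → Bool) (σ m : ℕ) (h : ℕ) :
    prof (fun s => e (σ + s)) m h = ∑ j ∈ range (m + 1), pi1 e (σ + j) (m - j) h := by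
  induction m generalizing h with
  | zero => simp [prof, pi1]
  | succ m ih =>
    have h1 : prof (fun s => e (σ + s)) (m + 1) h = stp (e (σ + m)) (prof (fun s => e (σ + s)) m) h + 1 := rfl
    have h2 : prof (fun s => e (σ + s)) m = fun h => ∑ j ∈ range (m + 1), pi1 e (σ + j) (m - j) h := by
      funext h
      exact ih h
    rw [h1, h2, stp_sum, sum_range_succ _ (m + 1)]
    congr 1
    · refine sum_congr rfl fun j hj => ?_
      rw [mem_range] at hj
      have h3 : m + 1 - j = (m - j) + 1 := by omega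
      have h4 : σ + m = σ + j + (m - j) := by omega
      rw [h3, h4]
      rfl
    · simp [pi1]

/-- `A` and small distance to the axis -/
theorem cnt_pi {n T v : ℕ} (e : ℕ → Bool) (A : ℤ × ℤ → (ℕ → Fin 12) → Prop)
    (hA : ∀ p u u', (∀ s < v + 1, u s = u' s) → A p u → A p u') (i : ℕ) (hi : v + i < T) (h : ℕ) :
    (cnt n T (fun p u => A p u ∧ Hc (bts u) e v i ≤ h) : ℝ) ≤ pi1 e v i h * cnt n T A := by
  induction i generalizing h with
  | zero =>
    have h1 : pi1 e v 0 h = 1 := rfl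
    rw [h1, one_mul]
    exact_mod_cast DxL.cnt_mono (n := n) (T := T) (P := fun p u => A p u ∧ Hc (bts u) e v 0 ≤ h) (Q := A)
      fun p u hh => hh.1
  | succ i ih =>
    have hloc : ∀ k : ℕ, ∀ p u u', (∀ s < v + i + 1, u s = u' s) →
        (A p u ∧ Hc (bts u) e v i ≤ k) → (A p u' ∧ Hc (bts u') e v i ≤ k) := by
      intro k p u u' huu hh
      refine ⟨hA p u u' (fun s hs => huu s (by omega)) hh.1, ?_⟩
      have h2 : ∀ j ≤ i, Hc (bts u') e v j = Hc (bts u) e v j := by
        intro j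
        induction j with
        | zero => intro _; rfl
        | succ j ihj =>
          intro hj
          have h3 : bts u' (v + j + 1) = bts u (v + j + 1) := by
            unfold bts
            rw [huu (v + j + 1) (by omega)]
          change Hst (e (v + j)) (bts u' (v + j + 1)) (Hc (bts u') e v j) =
            Hst (e (v + j)) (bts u (v + j + 1)) (Hc (bts u) e v j)
          rw [ihj (by omega), h3]
      rw [h2 i le_rfl]
      exact hh.2
    have hhalf : ∀ (k : ℕ) (b : Bool),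
        2 * (cnt n T (fun p u => (A p u ∧ Hc (bts u) e v i ≤ k) ∧ bt (u (v + i + 1)) = b) : ℝ) ≤
          pi1 e v i k * cnt n T A := by
      intro k b
      refine le_trans ?_ (ih (by omega) k)
      exact_mod_cast DxL.half (T := T) (n := n) (j := v + i + 1) (by omega) (hloc k) b
    have hH : ∀ u : ℕ → Fin 12, Hc (bts u) e v (i + 1) =
        Hst (e (v + i)) (bt (u (v + i + 1))) (Hc (bts u) e v i) := fun u => rfl
    have hp : pi1 e v (i + 1) h = stp (e (v + i)) (pi1 e v i) h := rfl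
    rw [hp]
    unfold stp
    cases he : e (v + i)
    · simp only [Bool.false_eq_true, if_false]
      by_cases h0 : h = 0
      · subst h0
        have h1 : cnt n T (fun p u => A p u ∧ Hc (bts u) e v (i + 1) ≤ 0) ≤
            cnt n T (fun p u => (A p u ∧ Hc (bts u) e v i ≤ 0) ∧ bt (u (v + i + 1)) = false) := by
          apply DxL.cnt_mono
          intro p u hh
          obtain ⟨ha, hb⟩ := hh
          rw [hH, he] at hb
          unfold Hst at hb
          cases hc : bt (u (v + i + 1))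
          · rw [hc] at hb
            simp only [Bool.false_eq_true, if_false] at hb
            exact ⟨⟨ha, hb⟩, rfl⟩
          · rw [hc] at hb
            simp only [Bool.false_eq_true, if_false, if_true] at hb
            omega
        have h2 := hhalf 0 false
        have h3 : (cnt n T (fun p u => A p u ∧ Hc (bts u) e v (i + 1) ≤ 0) : ℝ) ≤
            cnt n T (fun p u => (A p u ∧ Hc (bts u) e v i ≤ 0) ∧ bt (u (v + i + 1)) = false) := by
          exact_mod_cast h1
        simp only [if_true, add_zero]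
        linarith
      · have h1 := DxL.cnt_or (n := n) (T := T)
          (P := fun p u => A p u ∧ Hc (bts u) e v (i + 1) ≤ h)
          (Q := fun p u => (A p u ∧ Hc (bts u) e v i ≤ h) ∧ bt (u (v + i + 1)) = false)
          (R := fun p u => (A p u ∧ Hc (bts u) e v i ≤ h - 1) ∧ bt (u (v + i + 1)) = true) (by
            intro p u hh
            obtain ⟨ha, hb⟩ := hh
            rw [hH, he] at hb
            unfold Hst at hb
            cases hc : bt (u (v + i + 1))
            · rw [hc] at hb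
              simp only [Bool.false_eq_true, if_false] at hb
              exact Or.inl ⟨⟨ha, hb⟩, rfl⟩
            · rw [hc] at hb
              simp only [Bool.false_eq_true, if_false, if_true] at hb
              exact Or.inr ⟨⟨ha, by omega⟩, rfl⟩)
        have h2 := hhalf h false
        have h4 := hhalf (h - 1) true
        have h3 : (cnt n T (fun p u => A p u ∧ Hc (bts u) e v (i + 1) ≤ h) : ℝ) ≤
            cnt n T (fun p u => (A p u ∧ Hc (bts u) e v i ≤ h) ∧ bt (u (v + i + 1)) = false) +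
            cnt n T (fun p u => (A p u ∧ Hc (bts u) e v i ≤ h - 1) ∧ bt (u (v + i + 1)) = true) := by
          exact_mod_cast h1
        rw [if_neg h0]
        nlinarith
    · simp only [if_true]
      have h1 := DxL.cnt_or (n := n) (T := T)
          (P := fun p u => A p u ∧ Hc (bts u) e v (i + 1) ≤ h)
          (Q := fun p u => (A p u ∧ Hc (bts u) e v i ≤ h + 1) ∧ bt (u (v + i + 1)) = false)
          (R := fun p u => (A p u ∧ Hc (bts u) e v i ≤ h) ∧ bt (u (v + i + 1)) = true) (by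
            intro p u hh
            obtain ⟨ha, hb⟩ := hh
            rw [hH, he] at hb
            unfold Hst at hb
            cases hc : bt (u (v + i + 1))
            · rw [hc] at hb
              simp only [Bool.false_eq_true, if_false, if_true] at hb
              exact Or.inl ⟨⟨ha, by omega⟩, rfl⟩
            · rw [hc] at hb
              simp only [if_true] at hb
              exact Or.inr ⟨⟨ha, hb⟩, rfl⟩)
      have h2 := hhalf (h + 1) false
      have h4 := hhalf h true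
      have h3 : (cnt n T (fun p u => A p u ∧ Hc (bts u) e v (i + 1) ≤ h) : ℝ) ≤
            cnt n T (fun p u => (A p u ∧ Hc (bts u) e v i ≤ h + 1) ∧ bt (u (v + i + 1)) = false) +
            cnt n T (fun p u => (A p u ∧ Hc (bts u) e v i ≤ h) ∧ bt (u (v + i + 1)) = true) := by
          exact_mod_cast h1
      nlinarith

theorem pi1_nonneg (e : ℕ → Bool) (v i h : ℕ) : 0 ≤ pi1 e v i h := by
  induction i generalizing h with
  | zero => exact zero_le_one
  | succ i ih =>
    change 0 ≤ stp (e (v + i)) (pi1 e v i) h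
    unfold stp
    have h1 := ih h
    have h2 := ih (h + 1)
    have h3 := ih (h - 1)
    split_ifs <;> linarith

/-- union bound over times -/
theorem cnt_ex {n T : ℕ} (S : Finset ℕ) (P : ℕ → ℤ × ℤ → (ℕ → Fin 12) → Prop) :
    cnt n T (fun p u => ∃ v ∈ S, P v p u) ≤ ∑ v ∈ S, cnt n T (P v) := by
  classical
  induction S using Finset.induction_on with
  | empty =>
    rw [sum_empty, OccL.cnt_eq, Nat.le_zero, card_eq_zero, eq_empty_iff_forall_notMem]
    intro x hx
    rw [OccL.mem_cs] at hx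
    obtain ⟨_, v, hv, _⟩ := hx
    exact absurd hv (notMem_empty v)
  | insert a S ha ih =>
    rw [sum_insert ha]
    refine le_trans (DxL.cnt_or (Q := P a) (R := fun p u => ∃ v ∈ S, P v p u) ?_) (Nat.add_le_add_left ih _)
    rintro p u ⟨v, hv, h⟩
    rcases mem_insert.1 hv with rfl | hv
    · exact Or.inl h
    · exact Or.inr ⟨v, hv, h⟩

theorem WW_eq (e : ℕ → Bool) (t : ℕ) : WW e t = 2 * xE e t - t := by
  induction t with
  | zero => simp [WW, xE]
  | succ t ih =>
    have h1 : WW e (t + 1) = WW e t + sgn (e t) := by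
      unfold WW
      rw [sum_range_succ]
    have h2 : xE e (t + 1) = xE e t + if e t then 1 else 0 := by
      unfold xE
      rw [sum_range_succ]
    rw [h1, h2, ih]
    unfold sgn
    cases e t <;> simp <;> ring

/-- the second case -/
theorem case2 (hO : S_OCC) {n T α σ : ℕ} (hn : 3 ≤ n) (e : ℕ → Bool) (hαT : α < T) (hσ : σ + 1 ≤ α) :
    (cnt n T (fun p u => ∃ v ∈ Ico σ α, FreeN n u e p v ∧ (du n u e p v).2 = 0 ∧
      ((du n u e p v).1 = 1 + 2 * (xE e α - xE e v) ∨ (du n u e p v).1 = 2 + 2 * (xE e α - xE e v)) ∧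
      Hc (bts u) e v (α - 1 - v) ≤ 2) : ℝ) ≤
      10 * prof (fun s => e (σ + s)) (α - 1 - σ) 2 * 12 ^ T := by
  have h1 : ∀ v ∈ Ico σ α, (cnt n T (fun p u => FreeN n u e p v ∧ (du n u e p v).2 = 0 ∧
      ((du n u e p v).1 = 1 + 2 * (xE e α - xE e v) ∨ (du n u e p v).1 = 2 + 2 * (xE e α - xE e v)) ∧
      Hc (bts u) e v (α - 1 - v) ≤ 2) : ℝ) ≤ 10 * pi1 e v (α - 1 - v) 2 * 12 ^ T := by
    intro v hv
    rw [mem_Ico] at hv
    have h2 : ∀ ℓ : ℤ, (cnt n T (fun p u => (FreeN n u e p v ∧ du n u e p v = (ℓ, 0)) ∧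
        Hc (bts u) e v (α - 1 - v) ≤ 2) : ℝ) ≤ pi1 e v (α - 1 - v) 2 * (5 * 12 ^ T) := by
      intro ℓ
      refine (cnt_pi e (fun p u => FreeN n u e p v ∧ du n u e p v = (ℓ, 0)) ?_ (α - 1 - v) (by omega) 2).trans ?_
      · rintro p u u' huu ⟨h3, h4⟩
        refine ⟨(OccL.free_congr e p fun s hs => huu s (by omega)).1 h3, ?_⟩
        rw [← OccL.du_congr e p fun s hs => huu s (by omega)]
        exact h4
      · apply mul_le_mul_of_nonneg_left _ (pi1_nonneg _ _ _ _)
        exact_mod_cast hO n T v e (ℓ, 0) hn (by omega)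
    have h3 := DxL.cnt_or (n := n) (T := T)
      (P := fun p u => FreeN n u e p v ∧ (du n u e p v).2 = 0 ∧
      ((du n u e p v).1 = 1 + 2 * (xE e α - xE e v) ∨ (du n u e p v).1 = 2 + 2 * (xE e α - xE e v)) ∧
      Hc (bts u) e v (α - 1 - v) ≤ 2)
      (Q := fun p u => (FreeN n u e p v ∧ du n u e p v = (1 + 2 * (xE e α - xE e v), 0)) ∧
        Hc (bts u) e v (α - 1 - v) ≤ 2)
      (R := fun p u => (FreeN n u e p v ∧ du n u e p v = (2 + 2 * (xE e α - xE e v), 0)) ∧
        Hc (bts u) e v (α - 1 - v) ≤ 2) (by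
          rintro p u ⟨a1, a2, a3, a4⟩
          rcases a3 with a3 | a3
          · exact Or.inl ⟨⟨a1, Prod.ext a3 a2⟩, a4⟩
          · exact Or.inr ⟨⟨a1, Prod.ext a3 a2⟩, a4⟩)
    have h4 := h2 (1 + 2 * (xE e α - xE e v))
    have h5 := h2 (2 + 2 * (xE e α - xE e v))
    have h6 : (cnt n T (fun p u => FreeN n u e p v ∧ (du n u e p v).2 = 0 ∧
      ((du n u e p v).1 = 1 + 2 * (xE e α - xE e v) ∨ (du n u e p v).1 = 2 + 2 * (xE e α - xE e v)) ∧
      Hc (bts u) e v (α - 1 - v) ≤ 2) : ℝ) ≤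
      cnt n T (fun p u => (FreeN n u e p v ∧ du n u e p v = (1 + 2 * (xE e α - xE e v), 0)) ∧
        Hc (bts u) e v (α - 1 - v) ≤ 2) +
      cnt n T (fun p u => (FreeN n u e p v ∧ du n u e p v = (2 + 2 * (xE e α - xE e v), 0)) ∧
        Hc (bts u) e v (α - 1 - v) ≤ 2) := by
      exact_mod_cast h3
    linarith
  have h2 : (cnt n T (fun p u => ∃ v ∈ Ico σ α, FreeN n u e p v ∧ (du n u e p v).2 = 0 ∧
      ((du n u e p v).1 = 1 + 2 * (xE e α - xE e v) ∨ (du n u e p v).1 = 2 + 2 * (xE e α - xE e v)) ∧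
      Hc (bts u) e v (α - 1 - v) ≤ 2) : ℝ) ≤
      ∑ v ∈ Ico σ α, (cnt n T (fun p u => FreeN n u e p v ∧ (du n u e p v).2 = 0 ∧
      ((du n u e p v).1 = 1 + 2 * (xE e α - xE e v) ∨ (du n u e p v).1 = 2 + 2 * (xE e α - xE e v)) ∧
      Hc (bts u) e v (α - 1 - v) ≤ 2) : ℝ) := by
    exact_mod_cast cnt_ex (n := n) (T := T) (Ico σ α) fun v p u => FreeN n u e p v ∧ (du n u e p v).2 = 0 ∧
      ((du n u e p v).1 = 1 + 2 * (xE e α - xE e v) ∨ (du n u e p v).1 = 2 + 2 * (xE e α - xE e v)) ∧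
      Hc (bts u) e v (α - 1 - v) ≤ 2
  refine h2.trans ((sum_le_sum h1).trans (le_of_eq ?_))
  rw [prof_eq, ← sum_mul, ← mul_sum]
  congr 2
  rw [sum_Ico_eq_sum_range]
  have h3 : α - σ = α - 1 - σ + 1 := by omega
  rw [h3]
  refine sum_congr rfl fun j hj => ?_
  rw [mem_range] at hj
  congr 1
  omega

/-- the third case -/
theorem case3 {n R T α : ℕ} (hn : 1000 * (R + 1) ≤ n) (e : ℕ → Bool) (hαT : α < T) (hR : Tube R e α)
    (Cc : ℕ) (hC : ∀ (s : ℕ) (q : ℤ × ℤ), s < α →
      cnt n T (fun p u => ClassC n u e p s ∧ du n u e p s = q) ≤ Cc * (R + 1) ^ 2 * 12 ^ T) :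
    cnt n T (fun p u => ∃ s ∈ range α, ClassC n u e p s ∧ (n : ℤ) - 2 ≤ 2 * |(du n u e p s).1| ∧
      (n : ℤ) - 8 ≤ 4 * (xE e α - xE e (s + 1)) ∧ 4 * (xE e α - xE e (s + 1)) ≤ n + 2) ≤
      48 * Cc * (R + 1) ^ 3 * 12 ^ T := by
  classical
  set J := (range α).filter fun s => (n : ℤ) - 8 ≤ 4 * (xE e α - xE e (s + 1)) ∧
    4 * (xE e α - xE e (s + 1)) ≤ n + 2 with hJ
  have hJc : J.card ≤ 2 * R + 6 := by
    have h1 : ∀ s ∈ J, (s : ℤ) ∈ Icc (((4 * xE e α - n - 4 - 2 * R) / 2 : ℤ))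
        (((4 * xE e α - n + 6 + 2 * R) / 2 : ℤ)) := by
      intro s hs
      rw [hJ, mem_filter, mem_range] at hs
      have h2 := hR (s + 1) (by omega)
      rw [WW_eq, abs_le] at h2
      push_cast at h2
      rw [mem_Icc]
      constructor
      · rw [Int.ediv_le_iff_le_mul (by norm_num)]
        omega
      · rw [Int.le_ediv_iff_mul_le (by norm_num)]
        omega
    have h2 : J.card ≤ (Icc (((4 * xE e α - n - 4 - 2 * R) / 2 : ℤ))
        (((4 * xE e α - n + 6 + 2 * R) / 2 : ℤ))).card := by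
      apply card_le_card_of_injOn (fun s : ℕ => (s : ℤ)) (fun s hs => h1 s hs)
      intro a _ b _ hab
      have hab' : (a : ℤ) = (b : ℤ) := hab
      exact_mod_cast hab'
    refine h2.trans ?_
    rw [Int.card_Icc]
    omega
  have h0 : cnt n T (fun p u => ∃ s ∈ range α, ClassC n u e p s ∧ (n : ℤ) - 2 ≤ 2 * |(du n u e p s).1| ∧
      (n : ℤ) - 8 ≤ 4 * (xE e α - xE e (s + 1)) ∧ 4 * (xE e α - xE e (s + 1)) ≤ n + 2) ≤
      cnt n T (fun p u => ∃ s ∈ J, ClassC n u e p s ∧ (n : ℤ) - 2 ≤ 2 * |(du n u e p s).1|) := by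
    apply DxL.cnt_mono
    rintro p u ⟨s, hs, a1, a2, a3, a4⟩
    exact ⟨s, mem_filter.2 ⟨hs, a3, a4⟩, a1, a2⟩
  have h1 : ∀ s ∈ J, cnt n T (fun p u => ClassC n u e p s ∧ (n : ℤ) - 2 ≤ 2 * |(du n u e p s).1|) ≤
      8 * (Cc * (R + 1) ^ 2 * 12 ^ T) := by
    intro s hs
    rw [hJ, mem_filter, mem_range] at hs
    obtain ⟨a, ha⟩ : ∃ a : ℤ, a = (n : ℤ) / 2 := ⟨_, rfl⟩
    refine OccL.union_bound [(a, 0), (a, -1), (-a, 0), (-a, -1), (a - 1, 0), (a - 1, -1), (-(a - 1), 0), (-(a - 1), -1)]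
      (Cc * (R + 1) ^ 2 * 12 ^ T) _ (fun p u => du n u e p s) ?_ ?_
    · rintro p hp u ⟨⟨v, hv, _, _, hB⟩, h2⟩
      obtain ⟨b1, b2, b3, b4⟩ := hB s hv le_rfl
      unfold L1 at b3 b4
      generalize du n u e p s = q at b1 b2 b3 b4 h2
      obtain ⟨x, y⟩ := q
      simp only at b1 b2 b3 b4 h2
      simp only [List.mem_cons, List.not_mem_nil, or_false, Prod.mk.injEq]
      have hx : x ≤ 0 ∨ 0 < x := le_or_gt x 0
      have hy : y = 0 ∨ y = -1 := by
        rcases abs_cases x with ⟨c1, c2⟩ | ⟨c1, c2⟩ <;> rcases abs_cases y with ⟨c3, c4⟩ | ⟨c3, c4⟩ <;>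
          rw [c1, c3] at b3 b4 <;> rw [c1] at h2 <;> omega
      have hxx : x = a ∨ x = -a ∨ x = a - 1 ∨ x = -(a - 1) := by
        rcases abs_cases x with ⟨c1, c2⟩ | ⟨c1, c2⟩ <;> rcases abs_cases y with ⟨c3, c4⟩ | ⟨c3, c4⟩ <;>
          rw [c1, c3] at b3 b4 <;> rw [c1] at h2 <;> omega
      rcases hy with hy | hy <;> rcases hxx with hxx | hxx | hxx | hxx <;> simp [hxx, hy]
    · intro r
      refine le_trans (DxL.cnt_mono ?_) (hC s r hs.1)
      rintro p u ⟨c1, c2⟩
      exact ⟨c1.1, c2⟩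
  refine h0.trans ((cnt_ex J _).trans ((sum_le_sum h1).trans ?_))
  rw [sum_const, smul_eq_mul]
  calc J.card * (8 * (Cc * (R + 1) ^ 2 * 12 ^ T)) ≤ (6 * (R + 1)) * (8 * (Cc * (R + 1) ^ 2 * 12 ^ T)) :=
        Nat.mul_le_mul_right _ (by omega)
    _ = 48 * Cc * (R + 1) ^ 3 * 12 ^ T := by ring

end DxaL

open DxaL in
theorem dxa : S_OCC → S_CRI → S_FAR → S_DXA := by
  intro hO hC hF
  obtain ⟨Cc, hC⟩ := hC
  refine ⟨15 + 48 * Cc, by positivity, ?_⟩
  intro n R K T α σ e hn hα hαT hR he hσ hσn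
  have hn3 : 3 ≤ n := by nlinarith
  have hnR : 1000 * (R + 1) ≤ n := by nlinarith
  have hp0 : 0 ≤ prof (fun s => e (σ + s)) (α - 1 - σ) 2 := by
    rw [prof_eq]
    exact sum_nonneg fun j _ => pi1_nonneg _ _ _ _
  have h1 : cnt n T (fun p u => CE (du n u e p α) ∧ FreeN n u e p α) ≤ 15 * 12 ^ T := by
    have := OccL.union_bound (n := n) (T := T) [(2, 0), (1, 0), (1, -1)] (5 * 12 ^ T)
      (fun p u => CE (du n u e p α) ∧ FreeN n u e p α) (fun p u => du n u e p α) (by
        rintro p _ u ⟨h, _⟩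
        simp only [List.mem_cons, List.not_mem_nil, or_false]
        exact DxL.CE_cases h) (by
        intro r
        refine le_trans (DxL.cnt_mono ?_) (hO n T α e r hn3 hαT)
        rintro p u ⟨c1, c2⟩
        exact ⟨c1.2, c2⟩)
    refine this.trans (le_of_eq ?_)
    simp only [List.length_cons, List.length_nil]
    ring
  have h2 := case2 hO hn3 e hαT hσ
  have h3 := case3 hnR e hαT hR Cc fun s q hs => hC n R T s e q hnR (by omega)
    (fun r hr => hR r (by omega))
  have h4 : cnt n T (fun p u => GC K (α + 1) (bts u) ∧ CE (du n u e p α)) ≤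
      cnt n T (fun p u => CE (du n u e p α) ∧ FreeN n u e p α) +
      (cnt n T (fun p u => ∃ v ∈ Ico σ α, FreeN n u e p v ∧ (du n u e p v).2 = 0 ∧
      ((du n u e p v).1 = 1 + 2 * (xE e α - xE e v) ∨ (du n u e p v).1 = 2 + 2 * (xE e α - xE e v)) ∧
      Hc (bts u) e v (α - 1 - v) ≤ 2) +
      cnt n T (fun p u => ∃ s ∈ range α, ClassC n u e p s ∧ (n : ℤ) - 2 ≤ 2 * |(du n u e p s).1| ∧
      (n : ℤ) - 8 ≤ 4 * (xE e α - xE e (s + 1)) ∧ 4 * (xE e α - xE e (s + 1)) ≤ n + 2)) := by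
    refine (OccL.cnt_mono (P' := fun p u => p ∈ Boxn n ∧ GC K (α + 1) (bts u) ∧ CE (du n u e p α))
      fun p hp u h => ⟨hp, h⟩).trans ?_
    refine (DxL.cnt_or (Q := fun p u => CE (du n u e p α) ∧ FreeN n u e p α)
      (R := fun p u => (∃ v ∈ Ico σ α, FreeN n u e p v ∧ (du n u e p v).2 = 0 ∧
      ((du n u e p v).1 = 1 + 2 * (xE e α - xE e v) ∨ (du n u e p v).1 = 2 + 2 * (xE e α - xE e v)) ∧
      Hc (bts u) e v (α - 1 - v) ≤ 2) ∨ ∃ s ∈ range α, ClassC n u e p s ∧
      (n : ℤ) - 2 ≤ 2 * |(du n u e p s).1| ∧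
      (n : ℤ) - 8 ≤ 4 * (xE e α - xE e (s + 1)) ∧ 4 * (xE e α - xE e (s + 1)) ≤ n + 2) ?_).trans ?_
    · rintro p u ⟨hp, hG, hCE⟩
      rcases hF n R K α u e p hn hp hR hG hCE with h | h | h
      · exact Or.inl ⟨hCE, h⟩
      · obtain ⟨v, hv, hv2, hf, h5, h6, h7⟩ := h
        rcases hv.lt_or_eq with hlt | heq
        · right
          left
          have hσv : σ ≤ v := by
            rcases hσn with h | h <;> omega
          obtain ⟨h8, h9⟩ := h7 α hv le_rfl
          obtain ⟨h10, h11⟩ := h7 (α - 1) (by omega) (by omega)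
          have hH : Hc (bts u) e v (α - v) =
              Hst (e (v + (α - 1 - v))) (bts u (v + (α - 1 - v) + 1)) (Hc (bts u) e v (α - 1 - v)) := by
            have : α - v = (α - 1 - v) + 1 := by omega
            rw [this]
            rfl
          have hidx : v + (α - 1 - v) = α - 1 := by omega
          rw [hidx, he] at hH
          unfold Hst at hH
          simp only [if_true] at hH
          obtain ⟨c1, c2, c3⟩ := hCE
          have hle : Hc (bts u) e v (α - 1 - v) ≤ 2 := by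
            have h12 : (Hc (bts u) e v (α - v) : ℤ) ≤ 1 := by omega
            split_ifs at hH <;> omega
          refine ⟨v, mem_Ico.2 ⟨hσv, hlt⟩, hf, h5, ?_, hle⟩
          rw [h9] at c3
          have h13 : 1 ≤ (du n u e p α).1 - (du n u e p α).2 := by omega
          rw [h9] at h13
          omega
        · rw [heq] at hf
          exact Or.inl ⟨hCE, hf⟩
      · right
        right
        obtain ⟨s, hs, hs2, hcl, h5, h6, h7, h8⟩ := h
        have h9 := h8 α (by omega) le_rfl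
        obtain ⟨c1, c2, c3⟩ := hCE
        refine ⟨s, mem_range.2 hs, hcl, h5, ?_, ?_⟩ <;> omega
    · exact Nat.add_le_add_left (DxL.cnt_or fun p u h => h) _
  have h5 : (cnt n T (fun p u => GC K (α + 1) (bts u) ∧ CE (du n u e p α)) : ℝ) ≤
      (cnt n T (fun p u => CE (du n u e p α) ∧ FreeN n u e p α) : ℝ) +
      ((cnt n T (fun p u => ∃ v ∈ Ico σ α, FreeN n u e p v ∧ (du n u e p v).2 = 0 ∧
      ((du n u e p v).1 = 1 + 2 * (xE e α - xE e v) ∨ (du n u e p v).1 = 2 + 2 * (xE e α - xE e v)) ∧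
      Hc (bts u) e v (α - 1 - v) ≤ 2) : ℝ) +
      (cnt n T (fun p u => ∃ s ∈ range α, ClassC n u e p s ∧ (n : ℤ) - 2 ≤ 2 * |(du n u e p s).1| ∧
      (n : ℤ) - 8 ≤ 4 * (xE e α - xE e (s + 1)) ∧ 4 * (xE e α - xE e (s + 1)) ≤ n + 2) : ℝ)) := by
    exact_mod_cast h4
  have h1' : (cnt n T (fun p u => CE (du n u e p α) ∧ FreeN n u e p α) : ℝ) ≤ 15 * 12 ^ T := by
    exact_mod_cast h1
  have h3' : (cnt n T (fun p u => ∃ s ∈ range α, ClassC n u e p s ∧ (n : ℤ) - 2 ≤ 2 * |(du n u e p s).1| ∧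
      (n : ℤ) - 8 ≤ 4 * (xE e α - xE e (s + 1)) ∧ 4 * (xE e α - xE e (s + 1)) ≤ n + 2) : ℝ) ≤
      48 * Cc * (R + 1) ^ 3 * 12 ^ T := by
    exact_mod_cast h3
  refine h5.trans ?_
  have hT : (0 : ℝ) < 12 ^ T := by positivity
  have hX : (0 : ℝ) ≤ (R + 1 : ℝ) ^ 3 := by positivity
  have hCc : (0 : ℝ) ≤ (Cc : ℝ) := Nat.cast_nonneg _
  have key : (15 : ℝ) + 10 * prof (fun s => e (σ + s)) (α - 1 - σ) 2 + 48 * Cc * (R + 1) ^ 3 ≤
      (15 + 48 * Cc) * (1 + prof (fun s => e (σ + s)) (α - 1 - σ) 2 + (R + 1) ^ 3) := by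
    nlinarith [mul_nonneg hCc hp0, mul_nonneg hCc hX]
  have := mul_le_mul_of_nonneg_right key hT.le
  nlinarith

end Pool.Agent.Helper57K9.XZ
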