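import Pool.Agent.Helper57K9.XZ.Stm2

/-!
# XZ, [FAC]: factorisation
-/

set_option autoImplicit false

namespace Pool.Agent.Helper57K9.XZ

open Finset

namespace FacL

variable {X : Type} {k m : ℕ}

/-- exchange the coordinates `z j` with `y` -/
noncomputable def sw (z : Fin m → Fin k) (x : (Fin k → X) × (Fin m → X)) :
    (Fin k → X) × (Fin m → X) := (Function.extend z x.2 x.1, x.1 ∘ z)

theorem sw_sw {z : Fin m → Fin k} (hz : Function.Injective z) (x : (Fin k → X) × (Fin m → X)) :
    sw z (sw z x) = x := by
  unfold sw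
  refine Prod.ext (funext fun i => ?_) (funext fun j => ?_)
  · by_cases h : ∃ j, z j = i
    · obtain ⟨j, rfl⟩ := h
      simp only
      rw [hz.extend_apply]
      rfl
    · simp only
      rw [Function.extend_apply' _ _ _ h, Function.extend_apply' _ _ _ h]
  · simp only [Function.comp_apply]
    rw [hz.extend_apply]

end FacL

open FacL Classical in
theorem fac : S_FAC := by
  intro X _ k m z hz A B hAB
  have h1 : ∀ (ω : Fin k → X) (y : Fin m → X), (A (Function.extend z y ω) ↔ A ω) ∧
      ∀ j x, B (Function.extend z y ω) j x ↔ B ω j x := fun ω y => hAB _ _ fun i hi =>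
    Function.extend_apply' _ _ _ (by rintro ⟨j, hj⟩; exact hi j hj)
  have h2 : (univ.filter fun ω : Fin k → X => A ω ∧ ∀ j, B ω j (ω (z j))).card *
      Fintype.card X ^ m = (univ.filter fun x : (Fin k → X) × (Fin m → X) =>
        A x.1 ∧ ∀ j, B x.1 j (x.1 (z j))).card := by
    have h3 : (univ : Finset (Fin m → X)).card = Fintype.card X ^ m := by
      rw [card_univ, Fintype.card_fun, Fintype.card_fin]
    rw [← h3, ← card_product]
    congr 1
    ext x
    simp
  have h4 : (univ.filter fun x : (Fin k → X) × (Fin m → X) =>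
        A x.1 ∧ ∀ j, B x.1 j (x.1 (z j))).card = (univ.filter fun x : (Fin k → X) × (Fin m → X) =>
        A x.1 ∧ ∀ j, B x.1 j (x.2 j)).card := by
    refine card_nbij' (sw z) (sw z) ?_ ?_ (fun x _ => sw_sw hz x) (fun x _ => sw_sw hz x)
    · intro x hx
      simp only [coe_filter, mem_univ, true_and, Set.mem_ofPred_eq] at hx ⊢
      refine ⟨(h1 _ _).1.2 hx.1, fun j => ?_⟩
      exact ((h1 _ _).2 j _).2 (hx.2 j)
    · intro x hx
      simp only [coe_filter, mem_univ, true_and, Set.mem_ofPred_eq] at hx ⊢
      refine ⟨(h1 _ _).1.2 hx.1, fun j => ?_⟩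
      refine ((h1 _ _).2 j _).2 ?_
      unfold sw
      simp only
      rw [hz.extend_apply]
      exact hx.2 j
  have h5 : (univ.filter fun x : (Fin k → X) × (Fin m → X) =>
        A x.1 ∧ ∀ j, B x.1 j (x.2 j)).card =
        ∑ ω : Fin k → X, if A ω then ∏ j, (univ.filter fun x => B ω j x).card else 0 := by
    rw [card_filter, Fintype.sum_prod_type]
    refine sum_congr rfl fun ω _ => ?_
    by_cases hA : A ω
    · simp only [hA, true_and, if_true]
      rw [← card_filter, ← Fintype.card_piFinset]
      congr 1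
      ext y
      simp
    · simp [hA]
  rw [h2, h4, h5]

end Pool.Agent.Helper57K9.XZ
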