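import Pool.Agent.Helper57K9.XZ.FarE

/-!
# FAR and FNE: the classification of the zombies near the survivor (helper5)
-/

set_option autoImplicit false

namespace Pool.Agent.Helper57K9.XZ

open Finset Pool.Agent.Helper5K9.ZN

namespace FarL

variable {n R K : ℕ} {u : ℕ → Fin 12} {e : ℕ → Bool} {p : ℤ × ℤ}

/-- leaving the critical shell to the east between `s` and `s + 1` -/
def ExE (n : ℕ) (u : ℕ → Fin 12) (e : ℕ → Bool) (p : ℤ × ℤ) (s : ℕ) : Prop :=
  0 < (du n u e p (s + 1)).1 ∧ 2 * (du n u e p (s + 1)).1 < n ∧ -2 ≤ (du n u e p (s + 1)).2 ∧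
  (du n u e p (s + 1)).2 ≤ 0 ∧ (n : ℤ) - 2 ≤ 2 * |(du n u e p s).1| ∧
  (n : ℤ) - 4 ≤ 2 * ((du n u e p (s + 1)).1 - (du n u e p (s + 1)).2) ∧
  2 * ((du n u e p (s + 1)).1 - (du n u e p (s + 1)).2) ≤ (n : ℤ) + 4

/-- leaving the critical shell to the north between `s` and `s + 1` -/
def ExN (n : ℕ) (u : ℕ → Fin 12) (e : ℕ → Bool) (p : ℤ × ℤ) (s : ℕ) : Prop :=
  0 < (du n u e p (s + 1)).2 ∧ 2 * (du n u e p (s + 1)).2 < n ∧ -2 ≤ (du n u e p (s + 1)).1 ∧
  (du n u e p (s + 1)).1 ≤ 0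

theorem back_step (hn : 16 ≤ n) (hp : p ∈ Boxn n) (s : ℕ) (h : BackN n (du n u e p s)) :
    BackN n (du n u e p (s + 1)) ∨ ExE n u e p s ∨ ExN n u e p s := by
  have hb := du_bx (by omega) u e hp s
  have hb' := du_bx (by omega) u e hp (s + 1)
  rw [BackN_iff] at *
  obtain ⟨x, y, h1, h2⟩ := any_step (by omega) u e hp s
  obtain ⟨a, b, ha, hb1, hc1, hc2⟩ := h
  have s2 := sgn_cs (e s)
  have habs : |(du n u e p s).1| = a := by
    rcases ha with ha | ha
    · rw [abs_of_nonpos ha.1]; exact ha.2.symm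
    · rw [abs_of_nonneg (by omega)]; exact ha.2.symm
  unfold ExE ExN
  rw [habs]
  unfold SM at h1
  unfold BxI at hb hb'
  unfold ZA TwU at h2
  generalize (du n u e p (s + 1)).1 = X at *
  generalize (du n u e p (s + 1)).2 = Y at *
  generalize (du n u e p s).1 = X0 at *
  generalize (du n u e p s).2 = Y0 at *
  by_cases hX : X ≤ 0 ∨ 2 * X = n
  · by_cases hY : Y ≤ 0 ∨ 2 * Y = n
    · left
      rcases hX with hX | hX
      · rcases hY with hY | hY
        · exact ⟨-X, -Y, Or.inl ⟨hX, rfl⟩, Or.inl ⟨hY, rfl⟩, by omega, by omega⟩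
        · exact ⟨-X, Y, Or.inl ⟨hX, rfl⟩, Or.inr ⟨hY, rfl⟩, by omega, by omega⟩
      · rcases hY with hY | hY
        · exact ⟨X, -Y, Or.inr ⟨hX, rfl⟩, Or.inl ⟨hY, rfl⟩, by omega, by omega⟩
        · exact ⟨X, Y, Or.inr ⟨hX, rfl⟩, Or.inr ⟨hY, rfl⟩, by omega, by omega⟩
    · right; right; omega
  · right
    by_cases hY : Y ≤ 0
    · left; omega
    · right; omega

theorem back_class {v t : ℕ} (hn : 16 ≤ n) (hp : p ∈ Boxn n) (hvt : v ≤ t)
    (h : BackN n (du n u e p v)) :
    (∀ s, v ≤ s → s ≤ t → BackN n (du n u e p s)) ∨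
    ∃ s, v ≤ s ∧ s < t ∧ (∀ s', v ≤ s' → s' ≤ s → BackN n (du n u e p s')) ∧
      (ExE n u e p s ∨ ExN n u e p s) := by
  induction t, hvt using Nat.le_induction with
  | base => left; intro s h1 h2; have : s = v := by omega
            rw [this]; exact h
  | succ t hvt ih =>
    rcases ih with ih | ⟨s, h1, h2, h3⟩
    · rcases back_step hn hp t (ih t hvt (le_refl _)) with h' | h'
      · left
        intro s h1 h2
        rcases Nat.lt_or_ge t s with h3 | h3
        · have : s = t + 1 := by omega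
          rw [this]; exact h'
        · exact ih s h1 h3
      · right
        exact ⟨t, hvt, by omega, ih, h'⟩
    · right
      exact ⟨s, h1, by omega, h3⟩

theorem onAx_next (n : ℕ) (u : Fin 12) (q : ℤ × ℤ) (h : OnAx q) : OnAx (zu n u q) := by
  have := zu_any n u q
  unfold ZA at this
  unfold OnAx at *
  omega

/-- the classification -/
theorem classify {t : ℕ} (hbig : 1000 * (R + K + 1) ≤ n) (hp : p ∈ Boxn n) (he : Tube R e t)
    (hc : GC K (t + 1) (bts u)) :
    FreeN n u e p t ∨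
    (∃ v, v < t ∧ FreeN n u e p v ∧ (du n u e p v).2 = 0 ∧ 0 < (du n u e p v).1 ∧
      2 * (du n u e p v).1 < n ∧ (t : ℤ) - v + 1 ≤ n ∧ ∀ r, v ≤ r → r ≤ t → EP n u e p v r) ∨
    (∃ s, s < t ∧ ClassC n u e p s ∧ ExE n u e p s ∧ (t : ℤ) - (s + 1 : ℕ) + 1 ≤ n ∧
      ∀ r, s + 1 ≤ r → r ≤ t → EP n u e p (s + 1) r) ∨
    ((du n u e p t).1 ≤ 0 ∧ 0 < (du n u e p t).2) ∨ Absn n (du n u e p t) ∨
    BackN n (du n u e p t) := by
  classical
  by_cases hf : FreeN n u e p t
  · exact Or.inl hf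
  right
  unfold FreeN at hf
  push Not at hf
  have hex : ∃ s, OnAx (tu n u e p s) ∨ OnAx (du n u e p s) := by
    obtain ⟨s, -, h2⟩ := hf
    by_cases h3 : OnAx (tu n u e p s)
    · exact ⟨s, Or.inl h3⟩
    · exact ⟨s, Or.inr (by have := h2 h3; exact this)⟩
  have hlt : Nat.find hex < t := by
    obtain ⟨s, h1, h2⟩ := hf
    refine lt_of_le_of_lt (Nat.find_le ?_) h1
    by_cases h3 : OnAx (tu n u e p s)
    · exact Or.inl h3
    · exact Or.inr (h2 h3)
  have hsp := Nat.find_spec hex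
  have hmin : FreeN n u e p (Nat.find hex) := by
    intro s hs
    have := Nat.find_min hex hs
    push Not at this
    exact this
  generalize Nat.find hex = v at *
  have hax : OnAx (du n u e p v) := by
    rcases hsp with h | h
    · exact onAx_next _ _ _ h
    · exact h
  have hb := du_bx (by omega) u e hp v
  unfold BxI at hb
  have hback : BackN n (du n u e p v) →
      ((∃ s, s < t ∧ ClassC n u e p s ∧ ExE n u e p s ∧ (t : ℤ) - (s + 1 : ℕ) + 1 ≤ n ∧
      ∀ r, s + 1 ≤ r → r ≤ t → EP n u e p (s + 1) r) ∨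
      ((du n u e p t).1 ≤ 0 ∧ 0 < (du n u e p t).2) ∨ Absn n (du n u e p t) ∨
      BackN n (du n u e p t)) := by
    intro hB
    rcases back_class (by omega) hp hlt.le hB with h | ⟨s, h1, h2, h3, h4 | h4⟩
    · exact Or.inr (Or.inr (Or.inr (h t hlt.le (le_refl _))))
    · have h4' := h4
      unfold ExE at h4'
      rcases east hbig hp he hc h4'.1 h4'.2.1 h4'.2.2.1 h4'.2.2.2.1 (by omega : s + 1 ≤ t) with h | h
      · left
        exact ⟨s, h2, ⟨v, h1, hmin, hax, h3⟩, h4, h.1, h.2⟩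
      · exact Or.inr (Or.inr (Or.inl h))
    · have h4' := h4
      unfold ExN at h4'
      rcases north hbig hp he hc h4'.1 h4'.2.1 h4'.2.2.1 h4'.2.2.2 (by omega : s + 1 ≤ t) with h | h
      · exact Or.inr (Or.inl ⟨h.2.2.1, h.1⟩)
      · exact Or.inr (Or.inr (Or.inl h))
  unfold OnAx at hax
  rcases hax with hax | hax
  · by_cases hn1 : 0 < (du n u e p v).2 ∧ 2 * (du n u e p v).2 < n
    · rcases north hbig hp he hc hn1.1 hn1.2 (by omega) (by omega) hlt.le with h | h
      · exact Or.inr (Or.inr (Or.inl ⟨h.2.2.1, h.1⟩))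
      · exact Or.inr (Or.inr (Or.inr (Or.inl h)))
    · by_cases ha : Absn n (du n u e p v)
      · exact Or.inr (Or.inr (Or.inr (Or.inl (absn_mono (by omega) hp hlt.le ha))))
      · right
        apply hback
        rw [BackN_iff]
        rw [absn_iff] at ha
        rcases le_or_gt (du n u e p v).2 0 with hy | hy
        · exact ⟨0, -(du n u e p v).2, Or.inl ⟨by omega, by omega⟩, Or.inl ⟨hy, rfl⟩, by omega,
            by omega⟩
        · exact ⟨0, (du n u e p v).2, Or.inl ⟨by omega, by omega⟩, Or.inr ⟨by omega, rfl⟩,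
            by omega, by omega⟩
  · by_cases hn1 : 0 < (du n u e p v).1 ∧ 2 * (du n u e p v).1 < n
    · rcases east hbig hp he hc hn1.1 hn1.2 (by omega) (by omega) hlt.le with h | h
      · exact Or.inl ⟨v, hlt, hmin, hax, hn1.1, hn1.2, h.1, h.2⟩
      · exact Or.inr (Or.inr (Or.inr (Or.inl h)))
    · by_cases ha : Absn n (du n u e p v)
      · exact Or.inr (Or.inr (Or.inr (Or.inl (absn_mono (by omega) hp hlt.le ha))))
      · right
        apply hback
        rw [BackN_iff]
        rw [absn_iff] at ha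
        rcases le_or_gt (du n u e p v).1 0 with hy | hy
        · exact ⟨-(du n u e p v).1, 0, Or.inl ⟨hy, rfl⟩, Or.inl ⟨by omega, by omega⟩, by omega,
            by omega⟩
        · exact ⟨(du n u e p v).1, 0, Or.inr ⟨by omega, rfl⟩, Or.inl ⟨by omega, by omega⟩,
            by omega, by omega⟩

end FarL

open FarL in
theorem far : S_FAR := by
  intro n R K t u e p hbig hp he hc hce
  unfold CE at hce
  rcases classify hbig hp he hc with h | ⟨v, h1, h2, h3, h4, h5, h6, h7⟩ |
    ⟨s, h1, h2, h3, h4, h5⟩ | h | h | h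
  · exact Or.inl h
  · right; left
    refine ⟨v, h1.le, by omega, h2, h3, h4, fun s hs1 hs2 => ⟨?_, ?_⟩⟩
    · have := east_Hc hbig hp he hc h5 h3 h7 (s - v) (by omega)
      rw [show v + (s - v) = s by omega] at this
      exact this
    · have := (h7 s hs1 hs2).2.2.2.1
      rw [h3] at this
      rw [this]; ring
  · right; right
    have h3' := h3
    unfold ExE at h3'
    refine ⟨s, h1, by push_cast at h4; omega, h2, h3'.2.2.2.2.1, h3'.2.2.2.2.2.1, h3'.2.2.2.2.2.2,
      fun r hr1 hr2 => ?_⟩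
    exact (h5 r hr1 hr2).2.2.2.1
  · omega
  · rw [absn_iff] at h; omega
  · rw [BackN_iff] at h
    obtain ⟨a, b, h1, h2, h3, h4⟩ := h
    omega

open FarL in
theorem fne : S_FNE := by
  intro n R K t u e p hbig hp he hc hx hy hl
  rcases classify hbig hp he hc with h | ⟨v, h1, h2, h3, h4, h5, h6, h7⟩ |
    ⟨s, h1, h2, h3, h4, h5⟩ | h | h | h
  · exact h
  · have := (h7 t h1.le (le_refl _)).2.2.1; omega
  · have := (h5 t (by omega) (le_refl _)).2.2.1; omega
  · omega
  · rw [absn_iff] at h; omega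
  · unfold BackN at h
    omega

end Pool.Agent.Helper57K9.XZ
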