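import Pool.Agent.Helper57K9.XZ.Nvx

/-!
# Leaf FD
-/

set_option autoImplicit false

namespace Pool.Agent.Helper57K9.XZ

open Finset Pool.Agent.Helper5K9.ZN

namespace FdL

open NvxL

theorem L1_nonneg (q : ℤ × ℤ) : 0 ≤ L1 q := by unfold L1; positivity

theorem xE_const (e : ℕ → Bool) (s m : ℕ) (h : ∀ r, s ≤ r → r < s + m → e r = false) :
    xE e (s + m) = xE e s := by
  induction m with
  | zero => rfl
  | succ m ih =>
    have h1 := ih fun r h1 h2 => h r h1 (by omega)
    have h2 : s + (m + 1) = s + m + 1 := by ring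
    rw [h2]
    unfold xE at h1 ⊢
    rw [sum_range_succ, h1, h (s + m) (by omega) (by omega)]
    simp

theorem WW_false (e : ℕ → Bool) (s m : ℕ) (h : ∀ r, s ≤ r → r < s + m → e r = false) :
    WW e (s + m) = WW e s - m := by
  induction m with
  | zero => simp
  | succ m ih =>
    have h1 := ih fun r h1 h2 => h r h1 (by omega)
    have h2 : s + (m + 1) = s + m + 1 := by ring
    rw [h2]
    unfold WW at h1 ⊢
    rw [sum_range_succ, h1, h (s + m) (by omega) (by omega)]
    unfold sgn
    push_cast
    ring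

theorem xE_true (e : ℕ → Bool) (s : ℕ) (h : e s = true) : xE e (s + 1) = xE e s + 1 := by
  unfold xE
  rw [sum_range_succ, h]
  simp

theorem ce_of (q : ℤ × ℤ) (h1 : ESide q) (h2 : L1 q ≤ 2) : CE q := by
  obtain ⟨a, b⟩ := h1
  unfold L1 at h2
  rw [abs_of_pos a, abs_of_nonpos b] at h2
  exact ⟨a, b, by linarith⟩

theorem L1_of_e (q : ℤ × ℤ) (h1 : ESide q) : L1 q = q.1 - q.2 := by
  obtain ⟨a, b⟩ := h1
  unfold L1
  rw [abs_of_pos a, abs_of_nonpos b]
  ring

/-- a blocking zombie in the run of a clean even epoch -/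
theorem side (hP : S_PLA) (hS : S_SID) (n K : ℕ) (u : ℕ → Fin 12) (e : ℕ → Bool) (p : ℤ × ℤ)
    (t0 t : ℕ) (hB : Big n K) (hp : p ∈ Boxn n) (ht : t0 ≤ t) (ht' : t < t0 + Lam K)
    (hv : ¬ Viol K (du n u e p t0)) (hb : BE (du n u e p t)) :
    (∀ r, t0 ≤ r → r ≤ t → ESide (du n u e p r)) ∧ 4 * L1 (du n u e p t0) + 8 ≤ (n : ℤ) ∧
      4 * (du n u e p t0).2 ≤ -(RR K : ℤ) := by
  obtain ⟨hn, hB1, hLam⟩ := big n K hB
  have hB2 : 1000000 * (Lam K : ℤ) ≤ n := by exact_mod_cast hB1
  have hL1 : (1000 : ℤ) ≤ Lam K := by exact_mod_cast hLam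
  have hD1 : (D1 K : ℤ) = 4 * Lam K := by unfold D1; push_cast; ring
  obtain ⟨m, rfl⟩ := Nat.exists_eq_add_of_le ht
  have hm : (m : ℤ) < Lam K := by
    have : m < Lam K := by omega
    exact_mod_cast this
  have h1 := drop hP n u e p hn hp t0 m
  obtain ⟨hb1, hb2⟩ := hb
  have h2 : L1 (du n u e p t0) ≤ 2 + 2 * Lam K := by linarith
  have h3 : 4 * L1 (du n u e p t0) + 8 ≤ (n : ℤ) := by linarith
  obtain ⟨a1, a2, a3, -, a5, -⟩ := hS n u e p t0 (t0 + m) hn hp ht h3
  have h4 : Fr (du n u e p t0) := by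
    by_contra h
    exact a1 h (Or.inl hb1)
  have h5 : |(du n u e p t0).1| ≤ (D1 K : ℤ) ∧ |(du n u e p t0).2| ≤ (D1 K : ℤ) := by
    unfold L1 at h2
    have b1 := abs_nonneg (du n u e p t0).1
    have b2 := abs_nonneg (du n u e p t0).2
    constructor <;> linarith
  have h6 : 4 * (du n u e p t0).1 ≤ -(RR K : ℤ) ∨ 4 * (du n u e p t0).2 ≤ -(RR K : ℤ) := by
    by_contra h
    push Not at h
    exact hv ⟨h4, h5.1, h5.2, h.1, h.2⟩
  have hR : (0 : ℤ) ≤ RR K := Int.natCast_nonneg _
  rcases h6 with h6 | h6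
  · exfalso
    have h7 : NSide (du n u e p t0) := by
      refine ⟨by linarith, ?_⟩
      rcases h4 with h | h
      · linarith
      · exact h
    rcases a3 h7 with h | h
    · have := h.1
      linarith
    · exact h (Or.inl hb1)
  · have h7 : ESide (du n u e p t0) := by
      refine ⟨?_, by linarith⟩
      rcases h4 with h | h
      · exact h
      · linarith
    have h8 : ESide (du n u e p (t0 + m)) := by
      rcases a2 h7 with h | h
      · exact h
      · exact absurd (Or.inl hb1) h
    exact ⟨(a5 h7 h8).1, h3, h6⟩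

end FdL

open FdL NvxL in
/-- **FD** -/
theorem fd (hP : S_PLA) (hS : S_SID) (hV : S_NVX) (hC : S_SPC) (hX : S_XIT) : S_FD := by
  classical
  intro n K k j L u e p hk hB hp hLL hg hO hGd hcl hmode _
  obtain ⟨hn, hB1, hLam⟩ := big n K hB
  have hB2 : 1000000 * (Lam K : ℤ) ≤ n := by exact_mod_cast hB1
  have hL1 : (1000 : ℤ) ≤ Lam K := by exact_mod_cast hLam
  have hD1 : (D1 K : ℤ) = 4 * Lam K := by unfold D1; push_cast; ring
  have hD2 : (D2 K : ℤ) = 2000 * Lam K := by unfold D2; push_cast; ring
  have hGG : (GG K : ℤ) = 610 * Lam K := by unfold GG; push_cast; ring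
  have hLR : (Lam K : ℤ) = 8 * RR K := by unfold Lam; push_cast; ring
  have hRF : (RR K : ℤ) = 200 * Fq K := by unfold RR; push_cast; ring
  have hFe : Fe 30 K = Fq K := rfl
  have hFq : (1000 : ℤ) ≤ Fq K := by
    rw [Fq_eq]
    push_cast
    have : (0 : ℤ) ≤ K := Int.natCast_nonneg K
    linarith
  obtain ⟨hT, hW, hWin, -⟩ := hGd
  obtain ⟨t0, ht0⟩ : ∃ t0, t0 = j * Lam K := ⟨_, rfl⟩
  rw [← ht0] at hg hO hT hWin hcl hmode ⊢
  -- blocking zombies
  have hblk : ∀ t, t0 ≤ t → t < t0 + L → ∀ z, BE (PD n u e p t z) →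
      (∀ r, t0 ≤ r → r ≤ t → ESide (du n (u z) e (p z) r)) ∧
      4 * L1 (du n (u z) e (p z) t0) + 8 ≤ (n : ℤ) ∧
      4 * (du n (u z) e (p z) t0).2 ≤ -(RR K : ℤ) := fun t h1 h2 z hz =>
    side hP hS n K (u z) e (p z) t0 t hB (hp z).1 h1 (by omega) (hcl z) hz
  have hex : ∀ t, t0 ≤ t → t < t0 + L → e t = false → ∃ z, BE (PD n u e p t z) := by
    intro t h1 h2 h3
    by_contra h
    push Not at h
    have := (hmode t h1 h2).2.2 h
    rw [h3] at this
    exact absurd this (by decide)
  refine ⟨fun hL => ?_, ?_⟩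
  · refine (hmode t0 le_rfl (by omega)).2.2 fun z hz => ?_
    obtain ⟨-, -, h3⟩ := hblk t0 le_rfl (by omega) z hz
    obtain ⟨h4, h5⟩ := hz
    unfold PD L1 at h5
    unfold PD at h4
    have h6 := neg_abs_le (du n (u z) e (p z) t0).2
    have h7 := abs_nonneg (du n (u z) e (p z) t0).1
    linarith
  -- the last blocked decision of a column
  obtain ⟨Col, hCol⟩ : ∃ Col : ℕ → ℕ → Prop, ∀ α t, Col α t ↔ (t0 < α ∧ α ≤ t ∧ t < t0 + L ∧
      e (α - 1) = true ∧ (∀ s, α ≤ s → s ≤ t → e s = false) ∧
      (t + 1 < t0 + L → e (t + 1) = true)) := ⟨_, fun _ _ => Iff.rfl⟩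
  have huniq : ∀ α t t', Col α t → Col α t' → t = t' := by
    intro α t t' h h'
    rw [hCol] at h h'
    obtain ⟨a1, a2, a3, a4, a5, a6⟩ := h
    obtain ⟨b1, b2, b3, b4, b5, b6⟩ := h'
    by_contra hne
    rcases Nat.lt_or_gt_of_ne hne with hlt | hlt
    · have h1 := a6 (by omega)
      rw [b5 (t + 1) (by omega) (by omega)] at h1
      exact absurd h1 (by decide)
    · have h1 := b6 (by omega)
      rw [a5 (t' + 1) (by omega) (by omega)] at h1
      exact absurd h1 (by decide)
  have hf : ∀ α, ∃ z : Fin k, ∀ t, Col α t → BE (PD n u e p t z) := by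
    intro α
    by_cases h : ∃ t, Col α t
    · obtain ⟨t, ht⟩ := h
      have ht' := ht
      rw [hCol] at ht'
      obtain ⟨z, hz⟩ := hex t (by omega) (by omega) (ht'.2.2.2.2.1 t (by omega) le_rfl)
      refine ⟨z, fun t' h' => ?_⟩
      rw [huniq α t' t h' ht]
      exact hz
    · refine ⟨⟨0, hk⟩, fun t ht => absurd ⟨t, ht⟩ h⟩
  choose f hf using hf
  refine ⟨Spec n K u e p t0, f, ?_, ?_, ?_⟩
  · exact hC n K k t0 u e p hB hp fun s hs => hO s (by
      have : 1 ≤ GG K := by unfold GG; omega
      omega)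
  · intro α t h1 h2 h3 h4 h5 h6
    have hcol : Col α t := (hCol α t).2 ⟨h1, h2, h3, h4, h5, h6⟩
    have hbe := hf α t hcol
    obtain ⟨c1, c2, c3⟩ := hblk t (by omega) h3 (f α) hbe
    have hL2 : L1 (du n (u (f α)) e (p (f α)) t) ≤ 2 := hbe.2
    -- constant distance
    have hconst : ∀ s, α ≤ s → s ≤ t → L1 (du n (u (f α)) e (p (f α)) s) =
        L1 (du n (u (f α)) e (p (f α)) t) ∧ CE (du n (u (f α)) e (p (f α)) s) := by
      intro s hs1 hs2
      have hEs := c1 s (by omega) hs2
      have hEt := c1 t (by omega) le_rfl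
      obtain ⟨m, rfl⟩ := Nat.exists_eq_add_of_le hs2
      have hx := xE_const e s m fun r hr1 hr2 => h5 r (by omega) (by omega)
      -- near at s
      have hne : 4 * L1 (du n (u (f α)) e (p (f α)) s) + 8 ≤ (n : ℤ) := by
        have hd := drop hP n (u (f α)) e (p (f α)) hn (hp _).1 s m
        have hm : (m : ℤ) < Lam K := by
          have : m < Lam K := by omega
          exact_mod_cast this
        linarith
      obtain ⟨-, -, -, -, a5, -⟩ := hS n (u (f α)) e (p (f α)) s (s + m) hn (hp _).1 (by omega) hne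
      obtain ⟨-, b2, -⟩ := a5 hEs hEt
      rw [hx, sub_self, mul_zero, sub_zero] at b2
      exact ⟨b2.symm, ce_of _ hEs (by rw [← b2]; exact hL2)⟩
    refine ⟨fun s hs1 hs2 => (hconst s hs1 hs2).2, fun _ => ?_, ?_⟩
    · -- length of the column
      obtain ⟨m, rfl⟩ := Nat.exists_eq_add_of_le h2
      have hEs := c1 α (by omega) h2
      have hEt := c1 (α + m) (by omega) le_rfl
      have hne : 4 * L1 (du n (u (f α)) e (p (f α)) α) + 8 ≤ (n : ℤ) := by
        rw [(hconst α le_rfl h2).1]
        linarith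
      obtain ⟨-, -, -, -, a5, -⟩ := hS n (u (f α)) e (p (f α)) α (α + m) hn (hp _).1 h2 hne
      obtain ⟨-, -, b3⟩ := a5 hEs hEt
      rw [WW_false e α m fun r hr1 hr2 => h5 r hr1 (by omega)] at b3
      have hgc := hg (f α) (α + 1) m (by omega)
      have h7 : α + 1 + m = α + m + 1 := by ring
      rw [h7] at hgc
      obtain ⟨X, hX'⟩ : ∃ X : ℤ, X = WW (bts (u (f α))) (α + m + 1) - WW (bts (u (f α))) (α + 1) :=
        ⟨_, rfl⟩
      rw [← hX'] at hgc b3
      have h8 : (du n (u (f α)) e (p (f α)) α).2 ≤ 0 := hEs.2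
      have h9 := (hconst (α + m) h2 le_rfl).2
      obtain ⟨d1, d2, d3⟩ := h9
      have h10 : (m : ℤ) + X ≤ 2 := by linarith
      by_contra hlt
      push Not at hlt
      have h11 : (K : ℤ) + 5 ≤ m := by
        have : K + 5 ≤ m := by omega
        exact_mod_cast this
      have h12 : (m : ℤ) - 2 ≤ -X := by linarith
      have hK0 : (0 : ℤ) ≤ K := Int.natCast_nonneg K
      have h13 : ((m : ℤ) - 2) ^ 2 ≤ X ^ 2 := by
        have h14 : (0 : ℤ) ≤ (m : ℤ) - 2 := by linarith
        nlinarith
      nlinarith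
    · -- never relevant
      intro hZ s hs hR
      -- the distance before
      have hEa := c1 (α - 1) (by omega) (by omega)
      have hEb := c1 α (by omega) h2
      have hd1 : 3 ≤ L1 (du n (u (f α)) e (p (f α)) (α - 1)) := by
        have hne : 4 * L1 (du n (u (f α)) e (p (f α)) (α - 1)) + 8 ≤ (n : ℤ) := by
          have hd := drop hP n (u (f α)) e (p (f α)) hn (hp _).1 (α - 1) 1
          have h7 : α - 1 + 1 = α := by omega
          rw [h7, (hconst α le_rfl h2).1] at hd
          push_cast at hd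
          linarith
        obtain ⟨-, -, -, -, a5, -⟩ := hS n (u (f α)) e (p (f α)) (α - 1) α hn (hp _).1
          (by omega) hne
        obtain ⟨-, b2, -⟩ := a5 hEa hEb
        have h7 : α - 1 + 1 = α := by omega
        have h8 := xE_true e (α - 1) h4
        rw [h7] at h8
        rw [h8, L1_of_e _ hEb] at b2
        obtain ⟨d1, d2⟩ := hEb
        linarith
      have hd2 : ∀ r m, L1 (du n (u (f α)) e (p (f α)) (r + m)) ≤
          L1 (du n (u (f α)) e (p (f α)) r) := by
        intro r m
        induction m with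
        | zero => exact le_rfl
        | succ m ih =>
          have h7 := (hP n (u (f α)) e (p (f α)) (r + m) hn (hp _).1).2.1
          exact h7.trans ih
      have hd3 : 3 ≤ L1 (du n (u (f α)) e (p (f α)) s) := by
        have h7 := hd2 s (α - 1 - s)
        have h8 : s + (α - 1 - s) = α - 1 := by omega
        rw [h8] at h7
        linarith
      have hE0 := c1 t0 le_rfl (by omega)
      have hFr0 : Fr (du n (u (f α)) e (p (f α)) t0) := Or.inl hE0.1
      have hnotS : ∀ r, t0 ≤ r + 2 * GG K → r ≤ t0 + GG K →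
          ¬ (NEp (du n (u (f α)) e (p (f α)) r) ∧ L1 (du n (u (f α)) e (p (f α)) r) ≤ D2 K) := by
        intro r hr1 hr2 hr3
        apply hZ
        simp only [Spec, mem_filter, mem_univ, true_and]
        exact ⟨r, hr1, hr2, hr3.1, hr3.2⟩
      have hxit : 4 * L1 (du n (u (f α)) e (p (f α)) s) + 8 ≤ (n : ℤ) →
          (t0 : ℤ) < s + L1 (du n (u (f α)) e (p (f α)) s) + 2 * RR K + 4 := by
        intro hne
        by_contra h
        push Not at h
        exact hX n (RR K) (u (f α)) e (p (f α)) s t0 hn (hp _).1 hT hne h hFr0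
      rcases hR with ⟨hdvd, hviol⟩ | h0 | ⟨hNE, hl⟩ | ⟨-, hl⟩
      · -- Viol
        have hv := hviol
        obtain ⟨v1, v2, v3, v4, v5⟩ := hviol
        unfold PD at v1 v2 v3 v4 v5
        have hl : L1 (du n (u (f α)) e (p (f α)) s) ≤ 8 * Lam K := by
          unfold L1
          linarith
        have h7 := hxit (by linarith)
        have h8 : t0 ≤ s + 10 * Lam K := by
          have : (t0 : ℤ) ≤ s + 10 * Lam K := by linarith
          exact_mod_cast this
        have hGL : GG K = 610 * Lam K := rfl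
        have h9 := hV n K s (u (f α)) e (p (f α)) hB (hp _).1
          (fun a w haw => hg (f α) a w (by omega)) (hp _).2
          (fun r hr => hT r (by omega)) (fun t' ht' hG => hWin t' (by omega) hG) v1
          (by linarith) (fun r hr1 hr2 hr3 => hnotS r (by omega) (by omega) hr3)
        obtain ⟨i, hi⟩ := hdvd
        have hij : i ≤ j := by
          by_contra h
          push Not at h
          have h10 : j * Lam K ≤ i * Lam K := Nat.mul_le_mul_right _ h.le
          rw [← ht0, mul_comm i, ← hi] at h10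
          omega
        have h10 := hW i hij
        rw [mul_comm, ← hi, abs_le] at h10
        rcases h9 with ⟨-, h11⟩ | ⟨-, h11⟩
        · linarith
        · linarith
      · unfold PD at h0
        rw [h0] at hd3
        unfold L1 at hd3
        simp at hd3
      · unfold PD at hNE hl
        rw [hFe] at hl
        have h7 := hxit (by linarith)
        have h8 : t0 ≤ s + 2 * GG K := by
          have : (t0 : ℤ) ≤ s + 2 * GG K := by linarith
          exact_mod_cast this
        exact hnotS s h8 (by omega) ⟨hNE, by linarith⟩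
      · unfold PD at hl
        linarith
  · -- different columns
    intro α β h1 h2 h3 h4 h5 h6 h7 heq
    -- the end of the first column
    obtain ⟨t, ht⟩ : ∃ t, Col α t ∧ t + 1 ≤ β - 1 := by
      have hex1 : ∃ r, α ≤ r ∧ e r = true := ⟨β - 1, by
        rcases Nat.lt_or_ge α β with h | h
        · omega
        · omega, h6⟩
      obtain ⟨r, hr⟩ : ∃ r, r = Nat.find hex1 := ⟨_, rfl⟩
      have hr1 := Nat.find_spec hex1
      rw [← hr] at hr1
      have hr2 : ∀ m < r, ¬ (α ≤ m ∧ e m = true) := fun m hm => Nat.find_min hex1 (by rw [← hr]; exact hm)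
      have hr3 : r ≤ β - 1 := by
        by_contra h
        push Not at h
        exact hr2 (β - 1) h ⟨by omega, h6⟩
      have hr4 : α < r := by
        rcases Nat.lt_or_ge α r with h | h
        · exact h
        · have : α = r := by omega
          rw [← this, h5] at hr1
          exact absurd hr1.2 (by decide)
      refine ⟨r - 1, (hCol α (r - 1)).2 ⟨h1, by omega, by omega, h4, fun s hs1 hs2 => ?_, fun _ => ?_⟩,
        by omega⟩
      · have := hr2 s (by omega)
        by_contra hs3
        exact this ⟨hs1, by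
          rcases Bool.eq_false_or_eq_true (e s) with h | h
          · exact h
          · exact absurd h hs3⟩
      · have : r - 1 + 1 = r := by omega
        rw [this]
        exact hr1.2
    -- the end of the second column
    obtain ⟨t', ht'⟩ : ∃ t', Col β t' := by
      by_cases hex2 : ∃ r, β ≤ r ∧ r < t0 + L ∧ e r = true
      · obtain ⟨r, hr⟩ : ∃ r, r = Nat.find hex2 := ⟨_, rfl⟩
        have hr1 := Nat.find_spec hex2
        rw [← hr] at hr1
        have hr2 : ∀ m < r, ¬ (β ≤ m ∧ m < t0 + L ∧ e m = true) :=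
          fun m hm => Nat.find_min hex2 (by rw [← hr]; exact hm)
        have hr4 : β < r := by
          rcases Nat.lt_or_ge β r with h | h
          · exact h
          · have : β = r := by omega
            rw [← this, h7] at hr1
            exact absurd hr1.2.2 (by decide)
        refine ⟨r - 1, (hCol β (r - 1)).2 ⟨by omega, by omega, by omega, h6,
          fun s hs1 hs2 => ?_, fun _ => ?_⟩⟩
        · have := hr2 s (by omega)
          by_contra hs3
          exact this ⟨hs1, by omega, by
            rcases Bool.eq_false_or_eq_true (e s) with h | h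
            · exact h
            · exact absurd h hs3⟩
        · have : r - 1 + 1 = r := by omega
          rw [this]
          exact hr1.2.2
      · refine ⟨t0 + L - 1, (hCol β _).2 ⟨by omega, by omega, by omega, h6, fun s hs1 hs2 => ?_,
          fun h => by omega⟩⟩
        by_contra hs3
        exact hex2 ⟨s, hs1, by omega, by
          rcases Bool.eq_false_or_eq_true (e s) with h | h
          · exact h
          · exact absurd h hs3⟩
    obtain ⟨hcol, htb⟩ := ht
    have hbe := hf α t hcol
    have hbe' := hf β t' ht'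
    rw [← heq] at hbe'
    have hc := (hCol α t).1 hcol
    have hc' := (hCol β t').1 ht'
    obtain ⟨b1, b2, b3, b4, b5, b6⟩ := hc
    have hEt := (hblk t (by omega) b3 (f α) hbe).1 t (by omega) le_rfl
    have hE' := (hblk t' (by omega) (by omega) (f α) hbe').1 (t + 1) (by omega) (by omega)
    have h8 : e (t + 1) = true := b6 (by omega)
    have h9 := (hmode (t + 1) (by omega) (by omega)).2.1 h8 (f α)
    apply h9
    refine ⟨hE'.1, ?_⟩
    have h10 := (hP n (u (f α)) e (p (f α)) t hn (hp _).1).2.1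
    exact h10.trans hbe.2

end Pool.Agent.Helper57K9.XZ
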