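import Pool.Agent.Helper57K9.XZ.Stm4
import Pool.Agent.Helper57K9.XZ.Dxn

/-!
# The facts on the run of a clean odd epoch, by symmetry
-/

set_option autoImplicit false

namespace Pool.Agent.Helper57K9.XZ

open Finset Pool.Agent.Helper5K9.ZN

namespace FdnL

theorem L1_swap (q : ℤ × ℤ) : L1 q.swap = L1 q := by
  unfold L1; simp only [Prod.fst_swap, Prod.snd_swap]; ring

theorem viol_swap {K : ℕ} {q : ℤ × ℤ} (h : Viol K q) : Viol K q.swap := by
  obtain ⟨h1, h2, h3, h4, h5⟩ := h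
  exact ⟨h1.symm, h3, h2, h5, h4⟩

theorem BE_swap {q : ℤ × ℤ} : BE q.swap ↔ BN q := by
  unfold BE BN
  rw [L1_swap]
  simp only [Prod.fst_swap]

theorem NEp_swap {q : ℤ × ℤ} : NEp q.swap ↔ NEp q := by
  unfold NEp
  rw [Prod.fst_swap, Prod.snd_swap, and_comm]

theorem mem_swap {n : ℕ} {q : ℤ × ℤ} (h : q ∈ Boxn n) : q.swap ∈ Boxn n := by
  unfold Boxn at h ⊢
  rw [Finset.mem_product] at h ⊢
  exact ⟨h.2, h.1⟩

theorem rel_swap {K s : ℕ} {q : ℤ × ℤ} (h : Rel K s q) : Rel K s q.swap := by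
  rcases h with ⟨h1, h2⟩ | h1 | ⟨h1, h2⟩ | ⟨h1, h2⟩
  · exact Or.inl ⟨h1, viol_swap h2⟩
  · right; left
    rw [h1]
    rfl
  · right; right; left
    exact ⟨NEp_swap.2 h1, by rw [L1_swap]; exact h2⟩
  · right; right; right
    exact ⟨h1.symm, by rw [L1_swap]; exact h2⟩

end FdnL

open DxnL FdnL in
/-- **FDN** -/
theorem fdn : S_FD → S_SWP → S_FDN := by
  classical
  intro hfd hsw n K k j L u e p hk hbig hp hL hgc hok hgd hcl hrun hb
  obtain ⟨w1, w2, w3⟩ := hsw
  have hn : 3 ≤ n := by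
    unfold Big at hbig
    have : 0 < Lam K := by
      unfold Lam RR Fq Fe lm dl
      positivity
    omega
  set u' : Fin k → ℕ → Fin 12 := fun z s => tau (u z s) with hu'
  set e' : ℕ → Bool := fun s => !(e s) with he'
  set p' : Fin k → ℤ × ℤ := fun z => (p z).swap with hp'
  have hPD : ∀ t z, PD n u' e' p' t z = (PD n u e p t z).swap := fun t z =>
    (w3 n (u z) e (p z) t hn).2
  have htu : ∀ t z, tu n (u' z) e' (p' z) t = (tu n (u z) e (p z) t).swap := fun t z =>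
    (w3 n (u z) e (p z) t hn).1
  have hW : ∀ t, WW e' t = - WW e t := fun t => WW_not e t
  have ht : ∀ s, e' s = true ↔ e s = false := fun s => by simp [he']
  have hf : ∀ s, e' s = false ↔ e s = true := fun s => by simp [he']
  have hgc' : ∀ z, GC K (j * Lam K + L) (bts (u' z)) := by
    intro z
    have : bts (u' z) = fun s => !(bts (u z) s) := by
      funext s
      exact w1 _
    rw [this]
    exact GC_not (hgc z)
  have hok' : ∀ t, t < j * Lam K → OkC n K u' e' p' t := by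
    intro t ht
    have h1 := hok t ht
    unfold OkC at h1 ⊢
    refine lt_of_le_of_lt (le_of_eq ?_) h1
    congr 1
    ext z
    simp only [Finset.mem_filter, hPD, NEp_swap, L1_swap]
  have hgd' : Gd K n u' e' p' j := by
    obtain ⟨g1, g2, g3, g4⟩ := hgd
    refine ⟨Tube_not g1, fun i hi => ?_, fun t' h1 h2 => ?_, fun t h1 z => ?_⟩
    · rw [hW, abs_neg]
      exact g2 i hi
    · obtain ⟨⟨s1, a1, a2, a3⟩, ⟨s2, b1, b2, b3⟩⟩ := g3 t' h1 h2
      refine ⟨⟨s2, b1, b2, ?_⟩, ⟨s1, a1, a2, ?_⟩⟩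
      · rw [hW, b3, neg_neg]
      · rw [hW, a3]
    · rw [htu, L1_swap]
      exact g4 t h1 z
  have hcl' : Clean K (PD n u' e' p' (j * Lam K)) := by
    intro z hz
    rw [hPD] at hz
    have := viol_swap hz
    rw [Prod.swap_swap] at this
    exact hcl z this
  obtain ⟨c1, Z, f, c2, c3, c4⟩ := hfd n K k j L u' e' p' hk hbig
    (fun z => ⟨mem_swap (hp z).1, by rw [L1_swap]; exact (hp z).2⟩) hL hgc' hok' hgd' hcl'
    (fun s h1 h2 => by
      obtain ⟨h3, h4⟩ := hrun s h1 h2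
      refine ⟨by rw [hW]; linarith, ?_⟩
      rw [ht, h4]
      refine forall_congr' fun z => ?_
      rw [hPD, BE_swap])
    (by
      refine le_trans (le_of_eq ?_) hb
      congr 1
      ext s
      simp only [Finset.mem_filter, hf])
  refine ⟨fun h => (ht _).1 (c1 h), Z, f, c2, fun α t h1 h2 h3 h4 h5 h6 => ?_,
    fun α β h1 h2 h3 h4 h5 h6 h7 => ?_⟩
  · obtain ⟨d1, d2, d3⟩ := c3 α t h1 h2 h3 ((ht _).2 h4) (fun s a b => (hf _).2 (h5 s a b))
      (fun h => (ht _).2 (h6 h))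
    refine ⟨fun s a b => ?_, d2, fun hz s hs hR => ?_⟩
    · have := d1 s a b
      rwa [hPD] at this
    · apply d3 hz s hs
      rw [hPD]
      exact rel_swap hR
  · exact c4 α β h1 h2 h3 ((ht _).2 h4) ((hf _).2 h5) ((ht _).2 h6) ((hf _).2 h7)

end Pool.Agent.Helper57K9.XZ
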