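import Pool.Agent.Helper57K9.XZ.Fin1A

/-!
The union bound.
-/

set_option autoImplicit false

namespace Pool.Agent.Helper57K9.XZ

open Finset Pool.Agent.Helper5K9.ZN

namespace FinL

open UpL DxL

/-- no failure up to the end -/
def Ok (n K k N : ℕ) (ω : Fin k → XX n (N * Lam K)) : Prop :=
  EA K ω ∧ EB K ω ∧
  (∀ t < N * Lam K, Tube (RR K + Lam K) (ee K ω) t → OkC n K (uu ω) (ee K ω) (pp ω) t) ∧
  (∀ j < N, Pre K ω j → Clean K (PD n (uu ω) (ee K ω) (pp ω) (j * Lam K)) →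
    (j % 2 = 0 → (BlkU K (ee K ω) (j * Lam K)).card ≤ Bet K) ∧
    (j % 2 = 1 → (BlkD K (ee K ω) (j * Lam K)).card ≤ Bet K)) ∧
  (Tube (RR K) (ee K ω) (N * Lam K - 1) →
    (∀ t < N * Lam K, ∀ z, PD n (uu ω) (ee K ω) (pp ω) t z ≠ 0) →
    ∀ z, Absn n (PD n (uu ω) (ee K ω) (pp ω) (N * Lam K - 1) z))

section

variable {n K k N : ℕ} {ω : Fin k → XX n (N * Lam K)}

theorem gd_of (det : S_DET) (str : S_STR) (hbig : Big n K) (j : ℕ) (hj : j ≤ N)
    (h : Pre K ω j) : Gd K n (uu ω) (ee K ω) (pp ω) j := by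
  have hjN : j * Lam K ≤ N * Lam K := Nat.mul_le_mul_right _ hj
  refine det n K k j (uu ω) (ee K ω) (pp ω) hbig (fun z => ⟨(ω z).1.2, h.2.1 z⟩)
    (fun z => GC_mono (h.1 z) hjN) ?_ h.2.2.1 h.2.2.2
  exact str n K k (fun s z => uu ω z s) (pp ω)

theorem pre_all (det : S_DET) (str : S_STR) (hbig : Big n K) (hok : Ok n K k N ω) (j : ℕ)
    (hj : j ≤ N) : Pre K ω j := by
  obtain ⟨h1, h2, h3, h4, h5⟩ := hok
  induction j with
  | zero => exact ⟨h1, h2, fun t ht => absurd ht (by simp), fun i hi => absurd hi (by simp)⟩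
  | succ j ih =>
    have hp := ih (by omega)
    have hg := gd_of det str hbig j (by omega) hp
    have hjN : (j + 1) * Lam K ≤ N * Lam K := Nat.mul_le_mul_right _ hj
    refine ⟨h1, h2, ?_, ?_⟩
    · intro t ht
      by_cases htj : t < j * Lam K
      · exact hp.2.2.1 t htj
      · apply h3 t (by omega)
        intro s hs
        by_cases hsj : s ≤ j * Lam K
        · have := hg.1 s hsj
          push_cast
          have : (0 : ℤ) ≤ Lam K := Int.natCast_nonneg _
          linarith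
        · have e1 := hg.1 (j * Lam K) le_rfl
          have e2 := WW_count (ee K ω) (j * Lam K) (s - j * Lam K)
          rw [show j * Lam K + (s - j * Lam K) = s by omega] at e2
          have e3 : ((Ico (j * Lam K) s).filter fun s => ee K ω s = false).card ≤
              s - j * Lam K := by
            refine (Finset.card_filter_le _ _).trans ?_
            simp
          have e4 : s - j * Lam K ≤ Lam K := by
            have : (j + 1) * Lam K = j * Lam K + Lam K := by ring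
            omega
          have e3' : (((Ico (j * Lam K) s).filter fun s => ee K ω s = false).card : ℤ) ≤
              ((s - j * Lam K : ℕ) : ℤ) := by exact_mod_cast e3
          have e4' : ((s - j * Lam K : ℕ) : ℤ) ≤ Lam K := by exact_mod_cast e4
          have e5 : (0 : ℤ) ≤ (((Ico (j * Lam K) s).filter fun s => ee K ω s = false).card : ℤ) :=
            Int.natCast_nonneg _
          rw [abs_le] at e1 ⊢
          push_cast
          constructor <;> linarith [e1.1, e1.2]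
    · intro i hi
      by_cases hij : i < j
      · exact hp.2.2.2 i hij
      · have : i = j := by omega
        subst this
        intro hc
        exact h4 i (by omega) hp hc

/-- up to the end -/
theorem good_T (det : S_DET) (str : S_STR) (hbig : Big n K) (hok : Ok n K k N ω) :
    (∀ t ≤ N * Lam K, ∀ z, tu n (uu ω z) (ee K ω) (pp ω z) t ≠ 0) ∧
    (∀ t < N * Lam K, ∀ z, du n (uu ω z) (ee K ω) (pp ω z) t ≠ 0) ∧
    (∀ z, Absn n (du n (uu ω z) (ee K ω) (pp ω z) (N * Lam K - 1))) := by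
  have hn : 12 ≤ n := by
    have := (Fq_ge K).2
    have := Lam_eq K
    unfold Big at hbig; omega
  have hg := gd_of det str hbig N le_rfl (pre_all det str hbig hok N le_rfl)
  have hD : (3 : ℤ) ≤ D3 K := by
    have h1 := (Fq_ge K).2
    have h2 := Lam_eq K
    have : D3 K = 10000 * Lam K := rfl
    have : 3 ≤ D3 K := by omega
    exact_mod_cast this
  have h2 : ∀ t ≤ N * Lam K, ∀ z, 2 ≤ L1 (tu n (uu ω z) (ee K ω) (pp ω z) t) := by
    intro t ht z
    rcases t with _ | t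
    · have := hok.2.1 z
      change 2 ≤ L1 (pp ω z)
      linarith
    · exact hg.2.2.2 t (by omega) z
  have h3 : ∀ t < N * Lam K, ∀ z, du n (uu ω z) (ee K ω) (pp ω z) t ≠ 0 := by
    intro t ht z
    apply L1_ne
    have h4 := (zu_L1 hn (uu ω z t) (tu n (uu ω z) (ee K ω) (pp ω z) t)).2
    have h5 := h2 t ht.le z
    have h6 : L1 (du n (uu ω z) (ee K ω) (pp ω z) t) =
        L1 (zu n (uu ω z t) (tu n (uu ω z) (ee K ω) (pp ω z) t)) := rfl
    rw [h6]; linarith
  refine ⟨fun t ht z => L1_ne (by linarith [h2 t ht z]), h3, ?_⟩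
  exact hok.2.2.2.2 (fun s hs => hg.1 s (by omega)) h3

/-- for ever -/
theorem good_all (det : S_DET) (str : S_STR) (en : S_END) (hbig : Big n K)
    (hok : Ok n K k N ω) (hT : 1 ≤ N * Lam K) (c : ℕ → Fin k → Fin 12)
    (hc : ∀ (z : Fin k) (i : Fin (N * Lam K)), c i z = (ω z).2 i) (t : ℕ) (z : Fin k) :
    (playn n (xs n K k) c (pp ω) t).2 z ≠ 0 ∧
      zu n (c t z) ((playn n (xs n K k) c (pp ω) t).2 z) ≠ 0 := by
  have hn : 12 ≤ n := by
    have := (Fq_ge K).2
    have := Lam_eq K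
    unfold Big at hbig; omega
  obtain ⟨g1, g2, g3⟩ := good_T det str hbig hok
  have hu : ∀ s < N * Lam K, c s z = uu ω z s := by
    intro s hs
    show c s z = ext12 (ω z).2 s
    unfold ext12
    rw [dif_pos hs]
    exact hc z ⟨s, hs⟩
  have he : ∀ s < N * Lam K, mvn n (xs n K k) c (pp ω) s = ee K ω s := fun s hs =>
    ee_eq ω c hc hs
  rw [playn_snd]
  have e1 : ∀ s ≤ N * Lam K, tu n (fun s => c s z) (mvn n (xs n K k) c (pp ω)) (pp ω z) s =
      tu n (uu ω z) (ee K ω) (pp ω z) s := fun s hs =>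
    tu_congr2 (fun r hr => hu r (by omega)) (fun r hr => he r (by omega))
  have e2 : ∀ s < N * Lam K, du n (fun s => c s z) (mvn n (xs n K k) c (pp ω)) (pp ω z) s =
      du n (uu ω z) (ee K ω) (pp ω z) s := fun s hs =>
    du_congr2 (fun r hr => hu r (by omega)) (fun r hr => he r (by omega))
  have e3 : zu n (c t z) (tu n (fun s => c s z) (mvn n (xs n K k) c (pp ω)) (pp ω z) t) =
      du n (fun s => c s z) (mvn n (xs n K k) c (pp ω)) (pp ω z) t := rfl
  rw [e3]
  have hend := en n (fun s => c s z) (mvn n (xs n K k) c (pp ω)) (pp ω z) (N * Lam K - 1) hn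
    (ω z).1.2 (by rw [e2 _ (by omega)]; exact g3 z) (by rw [e2 _ (by omega)]; exact g2 _ (by omega) z)
  by_cases ht : t < N * Lam K
  · rw [e1 t ht.le, e2 t ht]
    exact ⟨g1 t ht.le z, g2 t ht z⟩
  · refine ⟨?_, (hend t (by omega)).2.1⟩
    have := (hend (t - 1) (by omega)).2.2
    rwa [show t - 1 + 1 = t by omega] at this

/-- one zombie of the sample -/
def phi {n k T : ℕ} (ω : Fin k → XX n T) (z : Fin k) : (ℤ × ℤ) × (Fin T → Fin 12) :=
  ((ω z).1.1, (ω z).2)

theorem phi_inj {n k T : ℕ} : Function.Injective (phi (n := n) (k := k) (T := T)) := by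
  intro ω ω' h
  funext z
  have := congrFun h z
  unfold phi at this
  rw [Prod.mk.injEq] at this
  exact Prod.ext (Subtype.ext this.1) this.2

open Classical in
theorem fin_game (det : S_DET) (str : S_STR) (en : S_END) (gam : S_GAMEN) (hn3 : 3 ≤ n)
    (hbig : Big n K) (hT1 : 1 ≤ N * Lam K) (Bad : Finset (Fin k → XX n (N * Lam K)))
    (hGood : ∀ ω : Fin k → XX n (N * Lam K), ω ∉ Bad → Ok n K k N ω)
    (htot : ((univ : Finset (Fin k → XX n (N * Lam K))).card : ℝ) =
      ((n : ℝ) ^ 2 * 12 ^ (N * Lam K)) ^ k) (hΩ0 : 0 < ((n : ℝ) ^ 2 * 12 ^ (N * Lam K)) ^ k)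
    (hBadc : (Bad.card : ℝ) ≤ ((n : ℝ) ^ 2 * 12 ^ (N * Lam K)) ^ k * (1 / 4)) :
    3 / 4 ≤ Pool.Agent.Helper57K9.Zomb.survivalProb (Pool.Agent.Helper57K9.Zomb.torus n) k := by
  have hg := gam n k (N * Lam K) (xs n K k) hn3 ((Badᶜ).image phi) (by
    intro x hx z
    obtain ⟨ω, _, rfl⟩ := Finset.mem_image.1 hx
    exact (ω z).1.2) (by
    intro x hx c hc t z
    obtain ⟨ω, hω, rfl⟩ := Finset.mem_image.1 hx
    have hω' : ω ∉ Bad := Finset.mem_compl.1 hω
    exact good_all det str en hbig (hGood ω hω') hT1 c hc t z)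
  refine le_trans ?_ hg
  rw [Finset.card_image_of_injective _ phi_inj, le_div_iff₀ hΩ0]
  have h1 : ((Badᶜ).card : ℝ) = ((n : ℝ) ^ 2 * 12 ^ (N * Lam K)) ^ k - Bad.card := by
    have := Finset.card_add_card_compl Bad
    have h2 : (Bad.card : ℝ) + ((Badᶜ).card : ℝ) =
        (Fintype.card (Fin k → XX n (N * Lam K)) : ℝ) := by
      exact_mod_cast this
    rw [← Finset.card_univ, htot] at h2
    linarith
  rw [h1]
  linarith

end

end FinL

open FinL UpL in
open Classical in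
theorem fin1 : S_DET → S_STR → S_PC → S_PE → S_PDU → S_PDD → S_MBD → S_END → S_GCB → S_FAC →
    S_GAMEN → S_BX → S_FIN1 := by
  intro det str pc ⟨n0, pe⟩ ⟨C1, hC1, pdu⟩ ⟨C2, hC2, pdd⟩ ⟨C3, hC3, mbd⟩ en gcb fac gam bx
  refine ⟨max (max C1 C2) C3, lt_max_of_lt_right hC3, n0, ?_⟩
  intro n K k N hn0 hbig hN hfB
  have hn12 : 12 ≤ n := by
    have := (Fq_ge K).2
    have := Lam_eq K
    unfold Big at hbig; omega
  have hn3 : 3 ≤ n := by omega
  have hnR : (0 : ℝ) < n := by exact_mod_cast (by omega : 0 < n)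
  have hT1 : 1 ≤ N * Lam K := by omega
  have hcard := card_XX bx hn3 (N * Lam K)
  have hcardR : (Fintype.card (XX n (N * Lam K)) : ℝ) = (n : ℝ) ^ 2 * 12 ^ (N * Lam K) := by
    rw [hcard]; push_cast; ring
  have hΩ0 : 0 < ((n : ℝ) ^ 2 * 12 ^ (N * Lam K)) ^ k := by positivity
  have htot : ((univ : Finset (Fin k → XX n (N * Lam K))).card : ℝ) =
      ((n : ℝ) ^ 2 * 12 ^ (N * Lam K)) ^ k := by
    rw [Finset.card_univ, Fintype.card_fun, Fintype.card_fin, ← hcardR]
    push_cast; rfl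
  -- the bad events
  have c1 := bad1 (n := n) (K := K) (k := k) (T := N * Lam K) fac gcb bx hn3
  have c2 := bad2 (n := n) (K := K) (k := k) (T := N * Lam K) fac bx hn3
  have c3 := bun (f := fun t => univ.filter fun ω : Fin k → XX n (N * Lam K) => EA K ω ∧
      Tube (RR K + Lam K) (ee K ω) t ∧ ¬ OkC n K (uu ω) (ee K ω) (pp ω) t) (N * Lam K)
    (fun t ht => pc n K k (N * Lam K) t hbig ht)
  have c4 := bun (f := fun j => univ.filter fun ω : Fin k → XX n (N * Lam K) => PD4 K j ω) N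
    (fun j hj => bad4 hC1.le hC2.le hC3.le ((le_max_left C1 C2).trans (le_max_left _ C3))
      ((le_max_right C1 C2).trans (le_max_left _ C3)) (le_max_right _ C3) pdu pdd mbd hbig j
      (Nat.mul_le_mul_right _ hj))
  have c5 := pe n K k (N * Lam K) hn0 hbig hN
  have cc := un c1 (un c2 (un c3 (un c4 c5)))
  have u2 : ((n : ℝ) ^ 2 * 12 ^ (N * Lam K)) ^ k * fB (max (max C1 C2) C3) n K k N ≤
      ((n : ℝ) ^ 2 * 12 ^ (N * Lam K)) ^ k * (1 / 4) := mul_le_mul_of_nonneg_left hfB hΩ0.le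
  have u3 : ((n : ℝ) ^ 2 * 12 ^ (N * Lam K)) ^ k * fB (max (max C1 C2) C3) n K k N =
      ((n : ℝ) ^ 2 * 12 ^ (N * Lam K)) ^ k *
        (k * (2 * (((N * Lam K : ℕ) : ℝ) + 1) ^ 2 * Real.exp (-(K : ℝ) / 2))) +
      (((n : ℝ) ^ 2 * 12 ^ (N * Lam K)) ^ k * (k * ((2 * (D3 K : ℝ) + 1) ^ 2 / (n : ℝ) ^ 2)) +
      (((N * Lam K : ℕ) : ℝ) * (((n : ℝ) ^ 2 * 12 ^ (N * Lam K)) ^ k *
        (5 * k * (D3 K : ℝ) ^ 2 / (n : ℝ) ^ 2) ^ 30) +
      ((N : ℝ) * (((n : ℝ) ^ 2 * 12 ^ (N * Lam K)) ^ k *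
        pdB K k (max (max C1 C2) C3 / (n : ℝ) ^ 2) (max (max C1 C2) C3 * mB n K)) +
      ((n : ℝ) ^ 2 * 12 ^ (N * Lam K)) ^ k * (k / (n : ℝ) ^ 10)))) := by
    unfold fB
    ring
  rw [u3] at u2
  have hBadc := cc.trans u2
  generalize hBad : ((univ.filter fun ω : Fin k → XX n (N * Lam K) => ¬ EA K ω) ∪
    ((univ.filter fun ω : Fin k → XX n (N * Lam K) => ¬ EB K ω) ∪
    (((range (N * Lam K)).biUnion fun t => univ.filter fun ω : Fin k → XX n (N * Lam K) =>
      EA K ω ∧ Tube (RR K + Lam K) (ee K ω) t ∧ ¬ OkC n K (uu ω) (ee K ω) (pp ω) t) ∪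
    (((range N).biUnion fun j => univ.filter fun ω : Fin k → XX n (N * Lam K) =>
      PD4 K j ω) ∪
    (univ.filter fun ω : Fin k → XX n (N * Lam K) => EA K ω ∧
      Tube (RR K) (ee K ω) (N * Lam K - 1) ∧
      (∀ t < N * Lam K, ∀ z, PD n (uu ω) (ee K ω) (pp ω) t z ≠ 0) ∧
      ∃ z, ¬ Absn n (PD n (uu ω) (ee K ω) (pp ω) (N * Lam K - 1) z)))))) = Bad at hBadc
  have hGood : ∀ ω : Fin k → XX n (N * Lam K), ω ∉ Bad → Ok n K k N ω := by
    intro ω hω
    rw [← hBad] at hω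
    simp only [Finset.mem_union, Finset.mem_filter, Finset.mem_univ, true_and,
      Finset.mem_biUnion, Finset.mem_range, not_or, not_exists, not_and, not_not] at hω
    obtain ⟨o1, o2, o3, o4, o5⟩ := hω
    refine ⟨o1, o2, fun t ht htu => o3 t ht o1 htu, ?_, fun h1 h2 z => ?_⟩
    · intro j hj hp hcl
      have := o4 j hj
      constructor
      · intro h2
        by_contra hc
        push Not at hc
        exact this ⟨hp, hcl, Or.inl ⟨h2, hc⟩⟩
      · intro h2
        by_contra hc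
        push Not at hc
        exact this ⟨hp, hcl, Or.inr ⟨h2, hc⟩⟩
    · exact o5 o1 h1 h2 z
  exact fin_game det str en gam hn3 hbig hT1 Bad hGood htot hΩ0 hBadc

end Pool.Agent.Helper57K9.XZ
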