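import Pool.Agent.Helper57K9.XZ.Stm4
import Pool.Agent.Helper57K9.Zomb.Upper

/-!
# The last step: from `FIN1` and `FIN2` to the order of the zombie number
-/

set_option autoImplicit false

namespace Pool.Agent.Helper57K9.XZ

open Finset Pool.Agent.Helper57K9.Zomb Pool.Agent.Helper5K9.ZN

namespace Fin3L

theorem spec {n : ℕ} (hn : 3 ≤ n) : survivalProb (torus n) (zombieNumber (torus n)) ≤ 1 / 2 := by
  apply Nat.sInf_mem (s := {k : ℕ | survivalProb (torus n) k ≤ 1 / 2})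
  refine ⟨⌈2560 * ((n : ℝ) * Real.sqrt n)⌉₊, (upper n hn _ (Nat.le_ceil _)).trans ?_⟩
  have h1 : Real.exp (-(n : ℝ)) ≤ Real.exp (-1) := by
    apply Real.exp_le_exp.2
    have : (3 : ℝ) ≤ n := by exact_mod_cast hn
    linarith
  have h2 : Real.exp (-1) ≤ 1 / 2 := by
    rw [Real.exp_neg, one_div]
    apply inv_anti₀ (by norm_num)
    have := Real.exp_one_gt_d9; linarith
  linarith

theorem zero (hGame : S_GAMEN) (n : ℕ) (h1 : 3 ≤ n) : 1 ≤ survivalProb (torus n) 0 := by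
  have := hGame n 0 0 (xs n 0 0) h1 {fun z => z.elim0} (fun x _ z => z.elim0)
    (fun x _ c _ t z => z.elim0)
  simpa using this

end Fin3L

open Fin3L in
/-- the order of the zombie number -/
theorem order (h1 : S_FIN1) (h2 : S_FIN2) (hGame : S_GAMEN) :
    ∃ c : ℝ, 0 < c ∧ ∀ n : ℕ, 3 ≤ n →
      c * (n : ℝ) ^ (3 / 2 : ℝ) ≤ zombieNumber (torus n) ∧
      (zombieNumber (torus n) : ℝ) ≤ 2561 * (n : ℝ) ^ (3 / 2 : ℝ) := by
  obtain ⟨C, hC, n₁, f1⟩ := h1
  obtain ⟨c₁, hc₁, n₂, f2⟩ := h2 C hC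
  obtain ⟨n₀, hn₀⟩ : ∃ n₀, n₀ = max n₁ n₂ := ⟨_, rfl⟩
  refine ⟨min c₁ (1 / ((n₀ : ℝ) + 1) ^ 2), by positivity, fun n hn => ?_⟩
  have hpow : (n : ℝ) ^ (3 / 2 : ℝ) = (n : ℝ) * Real.sqrt n := by
    rw [Real.sqrt_eq_rpow, show (3 / 2 : ℝ) = 1 + 1 / 2 by norm_num,
      Real.rpow_add (by have : 0 < n := by omega
                        exact_mod_cast this), Real.rpow_one]
  rw [hpow]
  refine ⟨?_, zombieNumber_le n hn⟩
  set c := min c₁ (1 / ((n₀ : ℝ) + 1) ^ 2) with hc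
  have hcpos : 0 < c := by rw [hc]; positivity
  have hspec := spec hn
  set z := zombieNumber (torus n) with hz
  have hn0 : (0 : ℝ) ≤ n := by positivity
  have h8 : 0 ≤ (n : ℝ) * Real.sqrt n := by positivity
  rcases Nat.lt_or_ge n n₀ with h5 | h5
  · have hz1 : 1 ≤ z := by
      by_contra hcon
      have hz0 : z = 0 := by omega
      rw [hz0] at hspec
      have := zero hGame n hn
      linarith
    have h6 : (n : ℝ) ≤ n₀ + 1 := by
      have : (n : ℝ) < n₀ := by exact_mod_cast h5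
      linarith
    have h7 : Real.sqrt n ≤ n := by
      rw [Real.sqrt_le_left (by positivity)]
      have : (3 : ℝ) ≤ n := by exact_mod_cast hn
      nlinarith
    have h9 : (n : ℝ) * Real.sqrt n ≤ ((n₀ : ℝ) + 1) ^ 2 := by
      calc (n : ℝ) * Real.sqrt n ≤ n * n := mul_le_mul_of_nonneg_left h7 hn0
        _ ≤ (n₀ + 1) * (n₀ + 1) := mul_le_mul h6 h6 hn0 (by positivity)
        _ = _ := by ring
    have h10 : c * (n * Real.sqrt n) ≤ 1 := by
      calc c * (n * Real.sqrt n) ≤ 1 / ((n₀ : ℝ) + 1) ^ 2 * ((n₀ : ℝ) + 1) ^ 2 :=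
            mul_le_mul (min_le_right _ _) h9 (by positivity) (by positivity)
        _ = 1 := by field_simp
    have hz1' : (1 : ℝ) ≤ z := by exact_mod_cast hz1
    linarith
  · by_contra hcon
    push Not at hcon
    have hk : (z : ℝ) ≤ c₁ * ((n : ℝ) * Real.sqrt n) :=
      hcon.le.trans (mul_le_mul_of_nonneg_right (min_le_left _ _) h8)
    obtain ⟨K, N, a1, a2, a3⟩ := f2 n (by omega) z hk
    have key := f1 n K z N (by omega) a1 a2 a3
    linarith

end Pool.Agent.Helper57K9.XZ
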