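import Pool.Agent.Helper57K9.XZ.Bx
import Pool.Agent.Helper57K9.Zomb.Torus

/-!
# Zombies on the torus `C_n □ C_n`: from strategies with memory to the survival probability
-/

set_option autoImplicit false

namespace Pool.Agent.Helper57K9.XZ

namespace GaN

open Finset Pool.Agent.Helper57K9.Zomb Pool.Agent.Helper5K9.ZN

/-! ## Averages over products of images of the coins -/

/-- all fibres of the choice have the same cardinality `M` -/
def Unif {V : Type} [DecidableEq V] (φ : Fin 12 → V) (M : ℕ) : Prop :=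
  0 < M ∧ ∀ u0 : Fin 12, (univ.filter fun u : Fin 12 => φ u = φ u0).card = M

theorem avg_pi {V : Type} [DecidableEq V] {k : ℕ} (φ : Fin k → Fin 12 → V)
    (hφ : ∀ i, ∃ M, Unif (φ i) M) (F : (Fin k → V) → ℝ) :
    (∑ z' ∈ Fintype.piFinset fun i => (univ : Finset (Fin 12)).image (φ i), F z') /
        ((Fintype.piFinset fun i => (univ : Finset (Fin 12)).image (φ i)).card : ℝ) =
      (∑ c : Fin k → Fin 12, F fun i => φ i (c i)) / 12 ^ k := by
  classical
  choose Mi hMi using hφ
  set A := Fintype.piFinset fun i => (univ : Finset (Fin 12)).image (φ i) with hA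
  set g : (Fin k → Fin 12) → Fin k → V := fun c i => φ i (c i) with hg
  set M : ℕ := ∏ i, Mi i with hM
  have hmaps : ∀ c ∈ (univ : Finset (Fin k → Fin 12)), g c ∈ A := by
    intro c _
    rw [hA, Fintype.mem_piFinset]
    intro i
    exact mem_image_of_mem _ (mem_univ _)
  have hfib : ∀ z' ∈ A, (univ.filter fun c => g c = z').card = M := by
    intro z' hz'
    rw [hA, Fintype.mem_piFinset] at hz'
    have h1 : (univ.filter fun c => g c = z') =
        Fintype.piFinset fun i => univ.filter fun b : Fin 12 => φ i b = z' i := by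
      ext c
      simp only [mem_filter, mem_univ, true_and, Fintype.mem_piFinset, hg, funext_iff]
    rw [h1, Fintype.card_piFinset, hM]
    refine prod_congr rfl fun i _ => ?_
    obtain ⟨u0, -, hu0⟩ := mem_image.1 (hz' i)
    rw [← hu0]
    exact (hMi i).2 u0
  have hsum : ∀ F' : (Fin k → V) → ℝ, ∑ c, F' (g c) = (∑ z' ∈ A, F' z') * M := by
    intro F'
    rw [← sum_fiberwise_of_maps_to hmaps, sum_mul]
    refine sum_congr rfl fun z' hz' => ?_
    rw [sum_congr rfl (g := fun _ => F' z') (fun c hc => by rw [(mem_filter.1 hc).2]), sum_const,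
      hfib z' hz', nsmul_eq_mul, mul_comm]
  have h2 : (12 : ℝ) ^ k = (A.card : ℝ) * M := by
    have := hsum fun _ => 1
    simpa using this
  have hMpos : (0 : ℝ) < M := by
    have : 0 < M := by
      rw [hM]
      exact prod_pos fun i _ => (hMi i).1
    exact_mod_cast this
  have hApos : (0 : ℝ) < A.card := by
    have h3 : (0 : ℝ) < 12 ^ k := by positivity
    rw [h2] at h3
    exact (pos_iff_pos_of_mul_pos h3).2 hMpos
  rw [h2]
  change _ = (∑ c, F (g c)) / _
  rw [hsum F, mul_div_mul_right _ _ hMpos.ne']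

/-! ## Relative coordinates -/

variable {m : ℕ}

/-- the vertices of the torus -/
abbrev Vt (m : ℕ) : Type := ZMod (m + 3) × ZMod (m + 3)

/-- the representative in the box -/
def rc (v : Vt m) : ℤ × ℤ := (v.1.valMinAbs, v.2.valMinAbs)

theorem pr_rc (v : Vt m) : pr m (rc v) = v := by
  simp [pr, rc]

theorem rc_box (v : Vt m) : rc v ∈ Boxn (m + 3) := by
  have h1 := v.1.valMinAbs_mem_Ioc
  have h2 := v.2.valMinAbs_mem_Ioc
  rw [Set.mem_Ioc] at h1 h2
  rw [mem_Boxn]
  simp only [rc]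
  omega

theorem rc_pr {q : ℤ × ℤ} (hq : q ∈ Boxn (m + 3)) : rc (pr m q) = q := by
  rw [mem_Boxn] at hq
  refine Prod.ext ?_ ?_
  · refine (ZMod.valMinAbs_spec (n := m + 3) ((q.1 : ℤ) : ZMod (m + 3)) q.1).2 ⟨rfl, ?_⟩
    rw [Set.mem_Ioc]; omega
  · refine (ZMod.valMinAbs_spec (n := m + 3) ((q.2 : ℤ) : ZMod (m + 3)) q.2).2 ⟨rfl, ?_⟩
    rw [Set.mem_Ioc]; omega

theorem pr_zero : pr m 0 = 0 := by
  simp only [pr, Prod.fst_zero, Prod.snd_zero, Int.cast_zero]; rfl

theorem pr_inj_box {p q : ℤ × ℤ} (hp : p ∈ Boxn (m + 3))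
    (hq : q ∈ Boxn (m + 3)) (h' : pr m p = pr m q) : p = q := by
  rw [← rc_pr hp, h', rc_pr hq]

theorem zero_box : (0 : ℤ × ℤ) ∈ Boxn (m + 3) := by
  rw [mem_Boxn]
  simp only [Prod.fst_zero, Prod.snd_zero]
  omega

theorem zu_box (u : Fin 12) {q : ℤ × ℤ} (hq : q ∈ Boxn (m + 3)) : zu (m + 3) u q ∈ Boxn (m + 3) :=
  ((bx (m + 3) (by omega)).2 q hq).1 u

theorem smg_box (e : Bool) {q : ℤ × ℤ} (hq : q ∈ Boxn (m + 3)) :
    smg (m + 3) e q ∈ Boxn (m + 3) :=
  ((bx (m + 3) (by omega)).2 q hq).2 e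

/-- the step of the survivor -/
def stp (m : ℕ) (e : Bool) : Vt m := if e then (1, 0) else (0, 1)

theorem cast_n : (((m + 3 : ℕ) : ℤ) : ZMod (m + 3)) = 0 := by
  rw [Int.cast_natCast]
  exact ZMod.natCast_self (m + 3)

theorem cast_wrn (a : ℤ) : ((wrn (m + 3) a : ℤ) : ZMod (m + 3)) = (a : ZMod (m + 3)) := by
  unfold wrn
  split_ifs
  · rw [Int.cast_add, cast_n, add_zero]
  · rw [Int.cast_sub, cast_n, sub_zero]
  · rfl

theorem pr_smg (e : Bool) (q : ℤ × ℤ) :
    pr m (smg (m + 3) e q) = pr m q - stp m e := by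
  obtain ⟨a, b⟩ := q
  cases e
  · simp only [smg, stp, Bool.false_eq_true, if_false, pr, Prod.mk_sub_mk, sub_zero,
      Prod.mk.injEq, true_and]
    rw [cast_wrn, Int.cast_sub, Int.cast_one]
  · simp only [smg, stp, if_true, pr, Prod.mk_sub_mk, sub_zero, Prod.mk.injEq, and_true]
    rw [cast_wrn, Int.cast_sub, Int.cast_one]

/-! ## The moves of the zombies -/

/-- the sign as a case distinction -/
theorem sgn_cases (a : ℤ) : (a.sign = -1 ∧ a < 0) ∨ (a.sign = 0 ∧ a = 0) ∨ (a.sign = 1 ∧ 0 < a) := by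
  rcases lt_trichotomy a 0 with h | h | h
  · left; exact ⟨Int.sign_eq_neg_one_of_neg h, h⟩
  · right; left; exact ⟨by rw [h]; rfl, h⟩
  · right; right; exact ⟨Int.sign_eq_one_of_pos h, h⟩

theorem unif_of {V : Type} [DecidableEq V] (φ : Fin 12 → V) (g : Fin 12 → ℕ) (M : ℕ) (hM : 0 < M)
    (hg : ∀ u0 : Fin 12, (univ.filter fun u : Fin 12 => g u = g u0).card = M)
    (h : ∀ u u0 : Fin 12, φ u = φ u0 ↔ g u = g u0) : Unif φ M := by
  refine ⟨hM, fun u0 => ?_⟩
  rw [← hg u0]
  congr 1
  ext u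
  simp only [mem_filter, mem_univ, true_and]
  exact h u u0

set_option linter.unusedSimpArgs false in
theorem zu_unif {n : ℕ} (hn : 3 ≤ n) (q : ℤ × ℤ) (hq : q ≠ 0) :
    ∃ M, Unif (fun u => zu n u q) M := by
  obtain ⟨a, b⟩ := q
  have hab : ¬ (a = 0 ∧ b = 0) := fun h => hq (Prod.ext h.1 h.2)
  have sa := sgn_cases a
  have sb := sgn_cases b
  by_cases h1 : 2 * a = n
  · by_cases h2 : 2 * b = n
    · refine ⟨3, unif_of _ (fun u => u.1 % 4) 3 (by norm_num) (by decide) fun u u0 => ?_⟩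
      simp only [zu, zmg, cfs, hx, h1, h2, if_true, true_and, decide_eq_true_eq,
        decide_eq_false_iff_not]
      split_ifs <;> rw [Prod.mk.injEq] <;>
          (try simp only [decide_eq_false_iff_not, decide_eq_true_eq, true_iff, iff_true, and_true,
            true_and] at *) <;> omega
    · by_cases h3 : b = 0
      · refine ⟨6, unif_of _ (fun u => (u.1 % 4) / 2) 6 (by norm_num) (by decide) fun u u0 => ?_⟩
        simp only [zu, zmg, cfs, hx, h1, h2, h3, if_true, if_false, true_and, true_or,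
          decide_eq_false_iff_not, decide_eq_true_eq]
        split_ifs <;> rw [Prod.mk.injEq] <;>
          (try simp only [decide_eq_false_iff_not, decide_eq_true_eq, true_iff, iff_true, and_true,
            true_and] at *) <;> omega
      · refine ⟨4, unif_of _ (fun u => u.1 % 3) 4 (by norm_num) (by decide) fun u u0 => ?_⟩
        simp only [zu, zmg, cfs, hx, h1, h2, h3, if_true, if_false, true_and, false_and, false_or,
          decide_eq_false_iff_not, decide_eq_true_eq]
        split_ifs <;> rw [Prod.mk.injEq] <;>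
          (try simp only [decide_eq_false_iff_not, decide_eq_true_eq, true_iff, iff_true, and_true,
            true_and] at *) <;> omega
  · by_cases h2 : 2 * b = n
    · by_cases h3 : a = 0
      · refine ⟨6, unif_of _ (fun u => (u.1 % 4) / 2) 6 (by norm_num) (by decide) fun u u0 => ?_⟩
        simp only [zu, zmg, cfs, hx, h1, h2, h3, if_true, if_false, true_and, false_and,
          decide_eq_false_iff_not, decide_eq_true_eq]
        split_ifs <;> rw [Prod.mk.injEq] <;>
          (try simp only [decide_eq_false_iff_not, decide_eq_true_eq, true_iff, iff_true, and_true,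
            true_and] at *) <;> omega
      · refine ⟨4, unif_of _ (fun u => u.1 % 3) 4 (by norm_num) (by decide) fun u u0 => ?_⟩
        simp only [zu, zmg, cfs, hx, h1, h2, h3, if_true, if_false, true_and, false_and,
          decide_eq_false_iff_not, decide_eq_true_eq, Bool.not_eq_true', Bool.not_eq_false']
        split_ifs <;> rw [Prod.mk.injEq] <;>
          (try simp only [decide_eq_false_iff_not, decide_eq_true_eq, true_iff, iff_true, and_true,
            true_and] at *) <;> omega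
    · by_cases h3 : a = 0 ∨ b = 0
      · refine ⟨12, unif_of _ (fun _ => 0) 12 (by norm_num) (by decide) fun u u0 => ?_⟩
        simp only [zu, zmg, cfs, hx, h1, h2, if_true, if_false, true_and, false_and,
          decide_eq_false_iff_not, decide_eq_true_eq]
        split_ifs <;> rw [Prod.mk.injEq] <;>
          (try simp only [decide_eq_false_iff_not, decide_eq_true_eq, true_iff, iff_true, and_true,
            true_and] at *) <;> omega
      · refine ⟨6, unif_of _ (fun u => u.1 % 2) 6 (by norm_num) (by decide) fun u u0 => ?_⟩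
        simp only [zu, zmg, cfs, hx, h1, h2, if_true, if_false, true_and, false_and,
          decide_eq_false_iff_not, decide_eq_true_eq]
        split_ifs <;> rw [Prod.mk.injEq] <;>
          (try simp only [decide_eq_false_iff_not, decide_eq_true_eq, true_iff, iff_true, and_true,
            true_and] at *) <;> omega

/-- a coin moves the zombie closer: `zu n u q` is `q + v` up to a multiple of `n` -/
theorem zu_closer {n : ℕ} (hn : 3 ≤ n) (u : Fin 12) {q : ℤ × ℤ} (hq : q ≠ 0)
    (hb : q ∈ Boxn n) : ∃ v w : ℤ × ℤ, nrm v = 1 ∧ zu n u q = q + v + (n * w.1, n * w.2) ∧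
      nrm (zu n u q) + 1 = nrm q := by
  obtain ⟨a, b⟩ := q
  rw [mem_Boxn] at hb
  simp only at hb
  have hab : ¬ (a = 0 ∧ b = 0) := fun h => hq (Prod.ext h.1 h.2)
  have sa := sgn_cases a
  have sb := sgn_cases b
  -- the horizontal move
  have H : ∀ s : Bool, a ≠ 0 → ∃ v w : ℤ × ℤ, nrm v = 1 ∧ (hx n s a, b) = (a, b) + v +
      (n * w.1, n * w.2) ∧ nrm (hx n s a, b) + 1 = nrm (a, b) := by
    intro s ha
    by_cases ht : 2 * a = n ∧ s = false
    · refine ⟨(1, 0), (-1, 0), by simp [nrm], ?_, ?_⟩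
      · simp only [hx, if_pos ht, Prod.mk_add_mk, Prod.mk.injEq]
        constructor <;> ring
      · simp only [hx, if_pos ht, nrm]
        omega
    · refine ⟨(-a.sign, 0), (0, 0), ?_, ?_, ?_⟩
      · simp only [nrm]
        omega
      · simp only [hx, if_neg ht, Prod.mk_add_mk, Prod.mk.injEq]
        constructor <;> ring
      · simp only [hx, if_neg ht, nrm]
        omega
  have V : ∀ s : Bool, b ≠ 0 → ∃ v w : ℤ × ℤ, nrm v = 1 ∧ (a, hx n s b) = (a, b) + v +
      (n * w.1, n * w.2) ∧ nrm (a, hx n s b) + 1 = nrm (a, b) := by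
    intro s ha
    by_cases ht : 2 * b = n ∧ s = false
    · refine ⟨(0, 1), (0, -1), by simp [nrm], ?_, ?_⟩
      · simp only [hx, if_pos ht, Prod.mk_add_mk, Prod.mk.injEq]
        constructor <;> ring
      · simp only [hx, if_pos ht, nrm]
        omega
    · refine ⟨(0, -b.sign), (0, 0), ?_, ?_, ?_⟩
      · simp only [nrm]
        omega
      · simp only [hx, if_neg ht, Prod.mk_add_mk, Prod.mk.injEq]
        constructor <;> ring
      · simp only [hx, if_neg ht, nrm]
        omega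
  unfold zu zmg
  split_ifs with h
  · refine H _ ?_
    rcases h with h | h
    · intro h0; exact hab ⟨h0, h⟩
    · exact h.2
  · refine V _ ?_
    intro h0; exact h (Or.inl h0)

theorem pr_mul (w : ℤ × ℤ) : pr m (((m + 3 : ℕ) : ℤ) * w.1, ((m + 3 : ℕ) : ℤ) * w.2) = 0 := by
  simp only [pr]
  rw [Int.cast_mul, Int.cast_mul, cast_n, zero_mul, zero_mul]
  rfl

set_option linter.unusedSimpArgs false in
/-- every closer neighbour is reached -/
theorem zu_surj {p v : ℤ × ℤ} (hp : p ∈ Boxn (m + 3)) (hv : nrm v = 1)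
    (hr : nrm (rc (pr m (p + v))) + 1 = nrm p) :
    ∃ u : Fin 12, pr m (zu (m + 3) u p) = pr m (p + v) := by
  obtain ⟨a, b⟩ := p
  have hb := hp
  rw [mem_Boxn] at hb
  simp only at hb
  have sa := sgn_cases a
  have sb := sgn_cases b
  obtain ⟨N, hN⟩ : ∃ N : ℕ, N = m + 3 := ⟨_, rfl⟩
  -- the cases `p + v ∈ Boxn` and not
  have key : ∃ r : ℤ × ℤ, r ∈ Boxn (m + 3) ∧ pr m r = pr m ((a, b) + v) ∧
      (r = (a, b) + v ∨ (v = (1, 0) ∧ r = (a + 1 - (m + 3 : ℕ), b)) ∨
        (v = (-1, 0) ∧ r = (a - 1 + (m + 3 : ℕ), b)) ∨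
        (v = (0, 1) ∧ r = (a, b + 1 - (m + 3 : ℕ))) ∨
        (v = (0, -1) ∧ r = (a, b - 1 + (m + 3 : ℕ)))) := by
    by_cases hb2 : (a, b) + v ∈ Boxn (m + 3)
    · exact ⟨(a, b) + v, hb2, rfl, Or.inl rfl⟩
    rw [mem_Boxn] at hb2
    rcases nrm_one hv with rfl | rfl | rfl | rfl
    · refine ⟨(a + 1 - (m + 3 : ℕ), b), ?_, ?_, Or.inr (Or.inl ⟨rfl, rfl⟩)⟩
      · rw [mem_Boxn]; simp only [Prod.mk_add_mk] at hb2 ⊢; omega
      · simp only [pr, Prod.mk_add_mk, Prod.mk.injEq]
        refine ⟨?_, by simp⟩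
        rw [Int.cast_sub (a + 1), cast_n, sub_zero]
    · refine ⟨(a - 1 + (m + 3 : ℕ), b), ?_, ?_, Or.inr (Or.inr (Or.inl ⟨rfl, rfl⟩))⟩
      · rw [mem_Boxn]; simp only [Prod.mk_add_mk] at hb2 ⊢; omega
      · simp only [pr, Prod.mk_add_mk, Prod.mk.injEq]
        refine ⟨?_, by simp⟩
        rw [Int.cast_add (a - 1), cast_n, add_zero]; rfl
    · refine ⟨(a, b + 1 - (m + 3 : ℕ)), ?_, ?_, Or.inr (Or.inr (Or.inr (Or.inl ⟨rfl, rfl⟩)))⟩
      · rw [mem_Boxn]; simp only [Prod.mk_add_mk] at hb2 ⊢; omega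
      · simp only [pr, Prod.mk_add_mk, Prod.mk.injEq]
        refine ⟨by simp, ?_⟩
        rw [Int.cast_sub (b + 1), cast_n, sub_zero]
    · refine ⟨(a, b - 1 + (m + 3 : ℕ)), ?_, ?_, Or.inr (Or.inr (Or.inr (Or.inr ⟨rfl, rfl⟩)))⟩
      · rw [mem_Boxn]; simp only [Prod.mk_add_mk] at hb2 ⊢; omega
      · simp only [pr, Prod.mk_add_mk, Prod.mk.injEq]
        refine ⟨by simp, ?_⟩
        rw [Int.cast_add (b - 1), cast_n, add_zero]; rfl
  obtain ⟨r, hr1, hr2, hr3⟩ := key
  rw [← hr2, rc_pr hr1] at hr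
  rw [← hr2]
  rw [mem_Boxn] at hr1
  suffices h : ∃ u : Fin 12, zu (m + 3) u (a, b) = r by
    obtain ⟨u, hu⟩ := h
    exact ⟨u, by rw [hu]⟩
  clear hr2 hp
  obtain ⟨r1, r2⟩ := r
  simp only [nrm] at hr
  simp only at hr1
  -- horizontal or vertical; towards zero or across the tie
  have hcase : (a ≠ 0 ∧ (r1, r2) = (a - a.sign, b)) ∨ (b ≠ 0 ∧ (r1, r2) = (a, b - b.sign)) ∨
      (2 * a = (m + 3 : ℕ) ∧ (r1, r2) = (a + 1 - (m + 3 : ℕ), b)) ∨
      (2 * b = (m + 3 : ℕ) ∧ (r1, r2) = (a, b + 1 - (m + 3 : ℕ))) := by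
    simp only [Prod.mk.injEq]
    rcases hr3 with h | ⟨-, h⟩ | ⟨-, h⟩ | ⟨-, h⟩ | ⟨-, h⟩
    · rcases nrm_one hv with rfl | rfl | rfl | rfl <;>
        simp only [Prod.mk_add_mk, Prod.mk.injEq] at h <;> omega
    all_goals simp only [Prod.mk.injEq] at h; omega
  rw [← hN] at *
  clear hr3 hr hv
  rcases hcase with ⟨h0, h⟩ | ⟨h0, h⟩ | ⟨h0, h⟩ | ⟨h0, h⟩
  · rw [h]
    by_cases h1 : 2 * a = N
    · refine ⟨0, ?_⟩
      by_cases h2 : 2 * b = N
      · simp [zu, zmg, cfs, hx, h1, h2, h0]
      · by_cases h3 : b = 0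
        · simp [zu, zmg, cfs, hx, h1, h2, h0, h3]
        · simp [zu, zmg, cfs, hx, h1, h2, h0, h3]
    · by_cases h2 : 2 * b = N
      · refine ⟨2, ?_⟩
        simp [zu, zmg, cfs, hx, h1, h2, h0]
      · refine ⟨0, ?_⟩
        simp [zu, zmg, cfs, hx, h1, h2, h0]
  · rw [h]
    by_cases h1 : 2 * a = N
    · by_cases h2 : 2 * b = N
      · refine ⟨1, ?_⟩
        simp [zu, zmg, cfs, hx, h1, h2, h0]
      · refine ⟨2, ?_⟩
        simp [zu, zmg, cfs, hx, h1, h2, h0]
    · by_cases h2 : 2 * b = N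
      · refine ⟨0, ?_⟩
        by_cases h3 : a = 0
        · have h4 : ¬ ((0 : ℤ) = N) := by omega
          simp [zu, zmg, cfs, hx, h2, h0, h3, h4]
        · simp [zu, zmg, cfs, hx, h1, h2, h0, h3]
      · refine ⟨1, ?_⟩
        simp [zu, zmg, cfs, hx, h1, h2, h0]
  · rw [h]
    have ha : a ≠ 0 := by omega
    by_cases h2 : 2 * b = N
    · refine ⟨2, ?_⟩
      simp [zu, zmg, cfs, hx, h0, h2, ha]
    · by_cases h3 : b = 0
      · refine ⟨2, ?_⟩
        simp [zu, zmg, cfs, hx, h0, h2, h3]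
      · refine ⟨1, ?_⟩
        simp [zu, zmg, cfs, hx, h0, h2, h3, ha]
  · rw [h]
    have hb' : b ≠ 0 := by omega
    by_cases h2 : 2 * a = N
    · refine ⟨3, ?_⟩
      simp [zu, zmg, cfs, hx, h0, h2, hb']
    · by_cases h3 : a = 0
      · refine ⟨2, ?_⟩
        have h4 : ¬ ((0 : ℤ) = N) := by omega
        simp [zu, zmg, cfs, hx, h0, h3, hb', h4]
      · refine ⟨1, ?_⟩
        simp [zu, zmg, cfs, hx, h0, h2, h3, hb']

/-- the closer neighbours are the images of the coins -/
theorem closer_eq (s : Vt m) {p : ℤ × ℤ} (hp : p ∈ Boxn (m + 3)) (h0 : p ≠ 0) :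
    closer (To m) (s + pr m p) s =
      (univ : Finset (Fin 12)).image fun u => s + pr m (zu (m + 3) u p) := by
  have hp' := hp
  rw [mem_Boxn] at hp'
  have hd : ∀ q : ℤ × ℤ, q ∈ Boxn (m + 3) → (To m).dist (s + pr m q) s = nrm q := by
    intro q hq
    rw [mem_Boxn] at hq
    exact To_dist s q (by omega) (by omega)
  apply Subset.antisymm
  · intro w hw
    simp only [closer, mem_filter, mem_univ, true_and] at hw
    obtain ⟨h3, h4⟩ := hw
    obtain ⟨v, hv, rfl⟩ := (To_adj _ _).1 h3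
    have h5 : s + pr m p + pr m v = s + pr m (p + v) := by rw [pr_add]; ring
    rw [h5] at h4 ⊢
    rw [hd p hp, ← pr_rc (pr m (p + v)), hd _ (rc_box _)] at h4
    obtain ⟨u, hu⟩ := zu_surj hp hv h4
    rw [← hu]
    exact mem_image_of_mem _ (mem_univ _)
  · intro w hw
    obtain ⟨u, -, rfl⟩ := mem_image.1 hw
    obtain ⟨v, w', hv, h1, h2⟩ := zu_closer (n := m + 3) (by omega) u h0 hp
    simp only [closer, mem_filter, mem_univ, true_and]
    refine ⟨(To_adj _ _).2 ⟨v, hv, ?_⟩, ?_⟩
    · rw [h1, pr_add, pr_mul, add_zero, pr_add]; ring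
    · rw [hd _ (zu_box u hp), hd p hp, h2]

theorem closer_unif (s : Vt m) {p : ℤ × ℤ} (hp : p ∈ Boxn (m + 3)) (h0 : p ≠ 0) :
    ∃ M, Unif (fun u => s + pr m (zu (m + 3) u p)) M := by
  obtain ⟨M, hM⟩ := zu_unif (n := m + 3) (by omega) p h0
  refine ⟨M, hM.1, fun u0 => ?_⟩
  rw [← hM.2 u0]
  congr 1
  ext u
  simp only [mem_filter, mem_univ, true_and]
  constructor
  · intro h
    exact pr_inj_box (zu_box u hp) (zu_box u0 hp) (add_left_cancel h)
  · intro h
    rw [h]

/-! ## The survival probability as an average over coins -/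

/-- the configuration after the move of the zombies with the coins `c` -/
def nx {k : ℕ} (z : Fin k → Vt m) (s : Vt m) (c : Fin k → Fin 12) : Fin k → Vt m :=
  fun i => s + pr m (zu (m + 3) (c i) (rc (z i - s)))

/-- the survivor is not eaten now nor in the next `T` rounds, with the coins `c` -/
def Sv {k : ℕ} (σ : List (Fin k → Vt m) → Vt m) :
    ℕ → (Fin k → Vt m) → List (Fin k → Vt m) → (ℕ → Fin k → Fin 12) → Prop
  | 0, z, h, _ => ∀ i, z i ≠ σ (z :: h)
  | T + 1, z, h, c => (∀ i, z i ≠ σ (z :: h)) ∧ (∀ i, nx z (σ (z :: h)) (c 0) i ≠ σ (z :: h)) ∧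
      Sv σ T (nx z (σ (z :: h)) (c 0)) (z :: h) fun t => c (t + 1)

/-- finitely many coins as an infinite sequence -/
def ex {k N : ℕ} (c : Fin N → Fin k → Fin 12) : ℕ → Fin k → Fin 12 :=
  fun t => if ht : t < N then c ⟨t, ht⟩ else fun _ => 0

theorem ex_cons_zero {k N : ℕ} (b : Fin k → Fin 12) (c : Fin N → Fin k → Fin 12) :
    ex (Fin.cons (α := fun _ => Fin k → Fin 12) b c) 0 = b := by
  unfold ex
  rw [dif_pos (Nat.succ_pos N)]
  rfl

theorem ex_cons_succ {k N : ℕ} (b : Fin k → Fin 12) (c : Fin N → Fin k → Fin 12) :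
    (fun t => ex (Fin.cons (α := fun _ => Fin k → Fin 12) b c) (t + 1)) = ex c := by
  funext t
  unfold ex
  by_cases ht : t < N
  · rw [dif_pos (Nat.succ_lt_succ ht), dif_pos ht]
    rfl
  · rw [dif_neg (fun h => ht (Nat.lt_of_succ_lt_succ h)), dif_neg ht]

/-- indicator of a proposition -/
noncomputable def ind (p : Prop) : ℝ := by classical exact if p then 1 else 0

theorem ind_true {p : Prop} (h : p) : ind p = 1 := by unfold ind; exact if_pos h
theorem ind_false {p : Prop} (h : ¬ p) : ind p = 0 := by unfold ind; exact if_neg h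
theorem ind_nonneg (p : Prop) : 0 ≤ ind p := by unfold ind; split_ifs <;> norm_num
theorem ind_le_one (p : Prop) : ind p ≤ 1 := by unfold ind; split_ifs <;> norm_num

theorem rep {k : ℕ} (σ : List (Fin k → Vt m) → Vt m) :
    ∀ (T N : ℕ), T ≤ N → ∀ (z : Fin k → Vt m) (l : List (Fin k → Vt m)),
      survive (To m) σ T z l =
        (∑ c : Fin N → Fin k → Fin 12, ind (Sv σ T z l (ex c))) / (12 ^ k) ^ N := by
  classical
  intro T
  induction T with
  | zero =>
    intro N _ z l
    have hcard : (Fintype.card (Fin N → Fin k → Fin 12) : ℝ) = (12 ^ k) ^ N := by simp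
    simp only [survive]
    by_cases h1 : ∃ i, z i = σ (z :: l)
    · rw [if_pos h1]
      have h2 : ∀ c, ¬ Sv σ 0 z l c := by
        rintro c hc
        obtain ⟨i, hi⟩ := h1
        exact hc i hi
      rw [sum_eq_zero fun c _ => ind_false (h2 _), zero_div]
    · rw [if_neg h1]
      have h2 : ∀ c, Sv σ 0 z l c := fun c i hi => h1 ⟨i, hi⟩
      rw [sum_congr rfl fun c _ => ind_true (h2 _)]
      rw [sum_const, card_univ, nsmul_eq_mul, mul_one, hcard, div_self (by positivity)]
  | succ T ih =>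
    intro N hN z l
    obtain ⟨N', rfl⟩ : ∃ N', N = N' + 1 := ⟨N - 1, by omega⟩
    simp only [survive]
    by_cases h1 : ∃ i, z i = σ (z :: l)
    · rw [if_pos h1]
      have h2 : ∀ c, ¬ Sv σ (T + 1) z l c := by
        intro c hc
        obtain ⟨i, hi⟩ := h1
        exact hc.1 i hi
      rw [sum_eq_zero fun c _ => ind_false (h2 _), zero_div]
    · rw [if_neg h1]
      have h1' : ∀ i, z i ≠ σ (z :: l) := fun i hi => h1 ⟨i, hi⟩
      set s := σ (z :: l) with hs
      have hne : ∀ i, rc (z i - s) ≠ 0 := by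
        intro i h3
        apply h1' i
        have h2 : z i = s + pr m (rc (z i - s)) := by rw [pr_rc]; ring
        rw [h2, h3]
        simp [pr]
      have hcl : (Fintype.piFinset fun i => closer (To m) (z i) s) =
          Fintype.piFinset fun i => (univ : Finset (Fin 12)).image
            fun u => s + pr m (zu (m + 3) u (rc (z i - s))) := by
        congr 1
        funext i
        have h2 : z i = s + pr m (rc (z i - s)) := by rw [pr_rc]; ring
        have h4 := closer_eq s (rc_box (z i - s)) (hne i)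
        rw [← h2] at h4
        exact h4
      rw [hcl]
      have h5 := avg_pi (fun (i : Fin k) (b : Fin 12) => s + pr m (zu (m + 3) b (rc (z i - s))))
        (fun i => closer_unif s (rc_box _) (hne i))
        (fun z' => if ∃ i, z' i = s then (0 : ℝ) else survive (To m) σ T z' (z :: l))
      rw [h5]
      have h6 : ∀ (b : Fin k → Fin 12) (c' : Fin N' → Fin k → Fin 12),
          ind (Sv σ (T + 1) z l (ex (Fin.cons (α := fun _ => Fin k → Fin 12) b c'))) =
            ind ((∀ i, nx z s b i ≠ s) ∧ Sv σ T (nx z s b) (z :: l) (ex c')) := by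
        intro b c'
        congr 1
        simp only [Sv]
        rw [ex_cons_zero, ex_cons_succ, eq_iff_iff]
        exact ⟨fun h => h.2, fun h => ⟨h1', h⟩⟩
      have h7 : ∑ c : Fin (N' + 1) → Fin k → Fin 12, ind (Sv σ (T + 1) z l (ex c)) =
          ∑ b : Fin k → Fin 12, ∑ c' : Fin N' → Fin k → Fin 12,
            ind ((∀ i, nx z s b i ≠ s) ∧ Sv σ T (nx z s b) (z :: l) (ex c')) := by
        rw [← (Fin.consEquiv fun _ => Fin k → Fin 12).sum_comp, Fintype.sum_prod_type]
        exact sum_congr rfl fun b _ => sum_congr rfl fun c' _ => h6 b c'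
      rw [h7, pow_succ, mul_comm, ← div_div, div_right_comm]
      congr 1
      rw [sum_div]
      refine sum_congr rfl fun b _ => ?_
      change (if ∃ i, nx z s b i = s then (0 : ℝ) else survive (To m) σ T (nx z s b) (z :: l)) = _
      by_cases h8 : ∃ i, nx z s b i = s
      · rw [if_pos h8]
        rw [sum_eq_zero fun c _ => ind_false ?_, zero_div]
        rintro ⟨h9, -⟩
        obtain ⟨i, hi⟩ := h8
        exact h9 i hi
      · rw [if_neg h8, ih N' (by omega)]
        congr 1
        refine sum_congr rfl fun c' _ => ?_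
        congr 1
        rw [eq_iff_iff]
        exact ⟨fun h => ⟨fun i hi => h8 ⟨i, hi⟩, h⟩, fun h => h.2⟩

theorem survive_nonneg' {k : ℕ} (σ : List (Fin k → Vt m) → Vt m)
    (T : ℕ) (z : Fin k → Vt m) (l : List (Fin k → Vt m)) : 0 ≤ survive (To m) σ T z l := by
  rw [rep σ T T le_rfl]
  exact div_nonneg (sum_nonneg fun c _ => ind_nonneg _) (by positivity)

theorem survive_le_one' {k : ℕ} (σ : List (Fin k → Vt m) → Vt m)
    (T : ℕ) (z : Fin k → Vt m) (l : List (Fin k → Vt m)) : survive (To m) σ T z l ≤ 1 := by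
  rw [rep σ T T le_rfl, div_le_one (by positivity)]
  calc _ ≤ ∑ _c : Fin T → Fin k → Fin 12, (1 : ℝ) := sum_le_sum fun c _ => ind_le_one _
    _ = _ := by simp

/-! ## The strategy -/

/-- memory and vertex of the survivor after a history -/
def stt {k : ℕ} (S : Strat k) : List (Fin k → Vt m) → S.μ × Vt m
  | [] => (S.init, 0)
  | [_] => (S.init, 0)
  | z' :: z :: l =>
    let p := stt S (z :: l)
    let m' := S.upd p.1 fun i => rc (z' i - p.2)
    (m', p.2 + stp m (S.out m'))

/-- the strategy with histories -/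
def sig {k : ℕ} (S : Strat k) (l : List (Fin k → Vt m)) : Vt m := (stt S l).2

theorem sig_legal {k : ℕ} (S : Strat k) : Legal (To m) (sig S) := by
  intro z' z l
  right
  rw [To_adj]
  change ∃ v : ℤ × ℤ, nrm v = 1 ∧ (stt S (z :: l)).2 + stp m _ = (stt S (z :: l)).2 + pr m v
  cases S.out (S.upd (stt S (z :: l)).1 fun i => rc (z' i - (stt S (z :: l)).2))
  · exact ⟨(0, 1), by simp [nrm], by rw [pr_e2]; rfl⟩
  · exact ⟨(1, 0), by simp [nrm], by rw [pr_e1]; rfl⟩

/-- the history in the play with the coins `c` -/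
def hs {k : ℕ} (S : Strat k) (c : ℕ → Fin k → Fin 12) (z : Fin k → Vt m) :
    ℕ → (Fin k → Vt m) × List (Fin k → Vt m)
  | 0 => (z, [])
  | t + 1 => (nx (hs S c z t).1 (sig S ((hs S c z t).1 :: (hs S c z t).2)) (c t),
      (hs S c z t).1 :: (hs S c z t).2)

theorem playn_box {k : ℕ} (S : Strat k) (c : ℕ → Fin k → Fin 12) (p : Fin k → ℤ × ℤ)
    (hp : ∀ i, p i ∈ Boxn (m + 3)) (t : ℕ) (i : Fin k) :
    (playn (m + 3) S c p t).2 i ∈ Boxn (m + 3) := by
  induction t with
  | zero => exact hp i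
  | succ t ih => exact smg_box _ (zu_box _ ih)

theorem hs_playn {k : ℕ} (S : Strat k) (c : ℕ → Fin k → Fin 12)
    (z : Fin k → Vt m) (t : ℕ) :
    (stt S ((hs S c z t).1 :: (hs S c z t).2)).1 = (playn (m + 3) S c (fun i => rc (z i)) t).1 ∧
    ∀ i, rc ((hs S c z t).1 i - sig S ((hs S c z t).1 :: (hs S c z t).2)) =
      (playn (m + 3) S c (fun i => rc (z i)) t).2 i := by
  induction t with
  | zero =>
    refine ⟨rfl, fun i => ?_⟩
    change rc (z i - 0) = rc (z i)
    rw [sub_zero]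
  | succ t ih =>
    obtain ⟨ih1, ih2⟩ := ih
    set s := sig S ((hs S c z t).1 :: (hs S c z t).2) with hs'
    have hbox := playn_box S c (fun i => rc (z i)) (fun i => rc_box _) t
    have h1 : ∀ i, rc ((hs S c z (t + 1)).1 i - s) =
        zu (m + 3) (c t i) ((playn (m + 3) S c (fun i => rc (z i)) t).2 i) := by
      intro i
      change rc (s + pr m (zu (m + 3) (c t i) (rc ((hs S c z t).1 i - s))) - s) = _
      rw [add_sub_cancel_left, ih2 i, rc_pr (zu_box _ (hbox i))]
    have h2 : (stt S ((hs S c z (t + 1)).1 :: (hs S c z (t + 1)).2)).1 =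
        (playn (m + 3) S c (fun i => rc (z i)) (t + 1)).1 := by
      change S.upd (stt S ((hs S c z t).1 :: (hs S c z t).2)).1
        (fun i => rc ((hs S c z (t + 1)).1 i - s)) = S.upd _ _
      rw [ih1]
      congr 1
      funext i
      exact h1 i
    refine ⟨h2, fun i => ?_⟩
    have h3 : sig S ((hs S c z (t + 1)).1 :: (hs S c z (t + 1)).2) =
        s + stp m (S.out (playn (m + 3) S c (fun i => rc (z i)) (t + 1)).1) := by
      rw [← h2]; rfl
    rw [h3]
    have h4 : (hs S c z (t + 1)).1 i - s =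
        pr m (zu (m + 3) (c t i) ((playn (m + 3) S c (fun i => rc (z i)) t).2 i)) := by
      rw [← h1 i, pr_rc]
    rw [← sub_sub, h4, ← pr_smg, rc_pr (smg_box _ (zu_box _ (hbox i)))]
    rfl

theorem hs_sv {k : ℕ} (S : Strat k) (c : ℕ → Fin k → Fin 12)
    (z : Fin k → Vt m)
    (hc : ∀ (t : ℕ) (i : Fin k), (playn (m + 3) S c (fun i => rc (z i)) t).2 i ≠ 0 ∧
      zu (m + 3) (c t i) ((playn (m + 3) S c (fun i => rc (z i)) t).2 i) ≠ 0) (T : ℕ) :
    ∀ t, Sv (sig S) T (hs S c z t).1 (hs S c z t).2 fun j => c (t + j) := by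
  have key1 : ∀ t i, (hs S c z t).1 i ≠ sig S ((hs S c z t).1 :: (hs S c z t).2) := by
    intro t i h0
    have h1 := (hs_playn S c z t).2 i
    rw [h0, sub_self] at h1
    apply (hc t i).1
    rw [← h1]
    have := rc_pr (m := m) (q := 0) zero_box
    rwa [pr_zero] at this
  have key2 : ∀ t i, nx (hs S c z t).1 (sig S ((hs S c z t).1 :: (hs S c z t).2)) (c t) i ≠
      sig S ((hs S c z t).1 :: (hs S c z t).2) := by
    intro t i h0
    have h1 := (hs_playn S c z t).2 i
    unfold nx at h0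
    rw [h1] at h0
    have h2 : pr m (zu (m + 3) (c t i) ((playn (m + 3) S c (fun i => rc (z i)) t).2 i)) = pr m 0 := by
      rw [pr_zero]; exact add_eq_left.1 h0
    exact (hc t i).2 (pr_inj_box (zu_box _ (playn_box S c _ (fun i => rc_box _) t i))
      zero_box h2)
  induction T with
  | zero => intro t i; exact key1 t i
  | succ T ih =>
    intro t
    refine ⟨key1 t, key2 t, ?_⟩
    have h1 := ih (t + 1)
    have h2 : (fun j => c (t + 1 + j)) = fun j => (fun j => c (t + j)) (j + 1) := by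
      funext j
      change c (t + 1 + j) = c (t + (j + 1))
      congr 1; omega
    rw [h2] at h1
    exact h1

/-- the main step: fixed starting positions -/
theorem inf_le {k : ℕ} (S : Strat k) (T : ℕ)
    (Good : Finset (Fin k → (ℤ × ℤ) × (Fin T → Fin 12)))
    (hG : ∀ x ∈ Good, ∀ c : ℕ → Fin k → Fin 12, (∀ (z : Fin k) (i : Fin T), c i z = (x z).2 i) →
      ∀ (t : ℕ) (z : Fin k), (playn (m + 3) S c (fun z => (x z).1) t).2 z ≠ 0 ∧
        zu (m + 3) (c t z) ((playn (m + 3) S c (fun z => (x z).1) t).2 z) ≠ 0) (z : Fin k → Vt m) :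
    (∑ a : Fin T → Fin k → Fin 12, ind ((fun i => (rc (z i), fun j => a j i)) ∈ Good)) / (12 ^ k) ^ T ≤
      ⨅ T' : ℕ, survive (To m) (sig S) T' z [] := by
  refine le_ciInf fun T' => ?_
  rw [rep (sig S) T' (T + T') (by omega)]
  rw [← (Fin.appendEquiv T T').sum_comp, Fintype.sum_prod_type]
  rw [pow_add, ← div_div, le_div_iff₀ (by positivity), div_mul_eq_mul_div]
  refine div_le_div_of_nonneg_right ?_ (by positivity)
  rw [sum_mul]
  refine sum_le_sum fun a _ => ?_
  have hcard : (Fintype.card (Fin T' → Fin k → Fin 12) : ℝ) = (12 ^ k) ^ T' := by simp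
  rw [← hcard]
  by_cases h1 : (fun i => (rc (z i), fun j => a j i)) ∈ Good
  · rw [ind_true h1, one_mul]
    rw [sum_congr rfl (g := fun _ => (1 : ℝ))]
    · simp
    · intro b _
      apply ind_true
      have h2 := hG _ h1 (ex (Fin.append a b)) (by
        intro i j
        unfold ex
        rw [dif_pos (show (j : ℕ) < T + T' by omega)]
        have : (⟨(j : ℕ), by omega⟩ : Fin (T + T')) = Fin.castAdd T' j := rfl
        rw [this, Fin.append_left])
      have h3 := hs_sv S (ex (Fin.append a b)) z h2 T' 0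
      simp only [zero_add] at h3
      exact h3
  · rw [ind_false h1, zero_mul]
    exact sum_nonneg fun b _ => ind_nonneg _

theorem game_aux {k : ℕ} (S : Strat k) (T : ℕ)
    (Good : Finset (Fin k → (ℤ × ℤ) × (Fin T → Fin 12)))
    (hB : ∀ x ∈ Good, ∀ z, (x z).1 ∈ Boxn (m + 3))
    (hG : ∀ x ∈ Good, ∀ c : ℕ → Fin k → Fin 12, (∀ (z : Fin k) (i : Fin T), c i z = (x z).2 i) →
      ∀ (t : ℕ) (z : Fin k), (playn (m + 3) S c (fun z => (x z).1) t).2 z ≠ 0 ∧
        zu (m + 3) (c t z) ((playn (m + 3) S c (fun z => (x z).1) t).2 z) ≠ 0) :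
    (Good.card : ℝ) / (((m + 3 : ℕ) : ℝ) ^ 2 * 12 ^ T) ^ k ≤ survivalProb (To m) k := by
  classical
  have hcV : (Fintype.card (Vt m) : ℝ) = ((m + 3 : ℕ) : ℝ) ^ 2 := by
    have h1 : Fintype.card (Vt m) = (m + 3) * (m + 3) := by
      rw [Fintype.card_prod, ZMod.card]
    rw [h1]; push_cast; ring
  have hbdd : BddAbove (Set.range fun σ : {σ : List (Fin k → Vt m) → Vt m // Legal (To m) σ} =>
      (∑ z : Fin k → Vt m, ⨅ T : ℕ, survive (To m) σ.1 T z []) / (Fintype.card (Vt m) : ℝ) ^ k) := by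
    refine ⟨1, ?_⟩
    rintro _ ⟨σ, rfl⟩
    have hpos : (0 : ℝ) < (Fintype.card (Vt m) : ℝ) ^ k := by rw [hcV]; positivity
    change _ / _ ≤ (1 : ℝ)
    rw [div_le_one hpos]
    calc _ ≤ ∑ _z : Fin k → Vt m, (1 : ℝ) := by
          refine sum_le_sum fun z _ => ?_
          exact (ciInf_le ⟨0, by rintro _ ⟨T, rfl⟩; exact survive_nonneg' _ _ _ _⟩ 0).trans
            (survive_le_one' _ _ _ _)
      _ = _ := by simp
  refine le_trans ?_ (le_ciSup hbdd ⟨sig S, sig_legal S⟩)
  change _ ≤ (∑ z : Fin k → Vt m, ⨅ T : ℕ, survive (To m) (sig S) T z []) / _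
  rw [hcV, mul_pow, ← div_div, ← pow_mul, ← pow_mul, mul_comm T k]
  rw [div_right_comm]
  refine div_le_div_of_nonneg_right ?_ (by positivity)
  have h1 : (Good.card : ℝ) ≤ ∑ z : Fin k → Vt m, ∑ a : Fin T → Fin k → Fin 12,
      ind ((fun i => (rc (z i), fun j => a j i)) ∈ Good) := by
    have h2 : ∑ z : Fin k → Vt m, ∑ a : Fin T → Fin k → Fin 12,
        ind ((fun i => (rc (z i), fun j => a j i)) ∈ Good) =
        ((univ.filter fun y : (Fin k → Vt m) × (Fin T → Fin k → Fin 12) =>
          (fun i => (rc (y.1 i), fun j => y.2 j i)) ∈ Good).card : ℝ) := by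
      rw [← Fintype.sum_prod_type', card_filter]
      push_cast
      refine sum_congr rfl fun y _ => ?_
      unfold ind
      congr
    rw [h2]
    norm_cast
    refine card_le_card_of_injOn
      (fun x => ((fun i => pr m (x i).1), fun j i => (x i).2 j)) ?_ ?_
    · intro x hx
      simp only [coe_filter, mem_univ, true_and, Set.mem_ofPred_eq]
      have : (fun i => (rc (pr m (x i).1), fun j => (x i).2 j)) = x := by
        funext i
        rw [rc_pr (hB x hx i)]
      rw [this]
      exact hx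
    · intro x hx y hy hxy
      simp only [Prod.mk.injEq] at hxy
      funext i
      refine Prod.ext ?_ ?_
      · exact pr_inj_box (hB x hx i) (hB y hy i) (congrFun hxy.1 i)
      · funext j
        exact congrFun (congrFun hxy.2 j) i
  calc (Good.card : ℝ) / 12 ^ (k * T) ≤ (∑ z : Fin k → Vt m, ∑ a : Fin T → Fin k → Fin 12,
        ind ((fun i => (rc (z i), fun j => a j i)) ∈ Good)) / 12 ^ (k * T) :=
        div_le_div_of_nonneg_right h1 (by positivity)
    _ = ∑ z : Fin k → Vt m, (∑ a : Fin T → Fin k → Fin 12,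
        ind ((fun i => (rc (z i), fun j => a j i)) ∈ Good)) / (12 ^ k) ^ T := by
        rw [sum_div, pow_mul]
    _ ≤ _ := sum_le_sum fun z _ => inf_le S T Good hG z

end GaN

/-- from strategies with memory to the survival probability -/
theorem gamen : S_GAMEN := by
  intro n k T S h1 Good hB hG
  obtain ⟨m, hm⟩ : ∃ m, n = m + 3 := ⟨n - 3, by omega⟩
  subst hm
  have h2 := GaN.game_aux S T Good hB hG
  have h3 : Pool.Agent.Helper57K9.Zomb.survivalProb
      (Pool.Agent.Helper57K9.Zomb.torus (m + 3)) k =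
      Pool.Agent.Helper57K9.Zomb.survivalProb (Pool.Agent.Helper57K9.Zomb.To m) k := rfl
  rw [h3]
  exact h2

end Pool.Agent.Helper57K9.XZ
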