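import Pool.Agent.Helper57K9.XZ.Stm2
import Pool.Agent.Helper5K9.ZN.Walk4

/-!
# XZ, [GCB]: the base bits are good with high probability
-/

set_option autoImplicit false

namespace Pool.Agent.Helper57K9.XZ

open Finset Pool.Agent.Helper5K9.ZN

namespace GcbL

theorem WW_congr' {c c' : ℕ → Bool} {t : ℕ} (h : ∀ s < t, c s = c' s) : WW c t = WW c' t := by
  unfold WW
  refine sum_congr rfl fun s hs => ?_
  rw [h s (mem_range.mp hs)]

theorem GC_iff {K T : ℕ} {c c' : ℕ → Bool} (h : ∀ s < T, c s = c' s) : GC K T c ↔ GC K T c' := by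
  unfold GC
  refine forall_congr' fun s => forall_congr' fun w => forall_congr' fun hw => ?_
  rw [WW_congr' (t := s + w) fun i hi => h i (by omega),
    WW_congr' (t := s) fun i hi => h i (by omega)]

theorem gc_bts {K T : ℕ} (u : Fin T → Fin 12) :
    GC K T (bts (ext12 u)) ↔ GC K T (ext fun i => bt (u i)) := by
  refine GC_iff fun s hs => ?_
  unfold bts ext12 Pool.Agent.Helper5K9.ZN.ext
  rw [dif_pos hs, dif_pos hs]

theorem card6 : ∀ b : Bool, (univ.filter fun x : Fin 12 => bt x = b).card = 6 := by
  decide

theorem fib (T : ℕ) (c : Fin T → Bool) :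
    (univ.filter fun u : Fin T → Fin 12 => (fun i => bt (u i)) = c).card = 6 ^ T := by
  have h1 : (univ.filter fun u : Fin T → Fin 12 => (fun i => bt (u i)) = c) =
      Fintype.piFinset fun i => univ.filter fun x : Fin 12 => bt x = c i := by
    ext u
    rw [mem_filter, Fintype.mem_piFinset]
    constructor
    · intro h i
      rw [mem_filter]
      exact ⟨mem_univ _, congrFun h.2 i⟩
    · intro h
      exact ⟨mem_univ _, funext fun i => (mem_filter.1 (h i)).2⟩
  rw [h1, Fintype.card_piFinset, prod_congr rfl fun i _ => card6 (c i), prod_const, card_univ,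
    Fintype.card_fin]

end GcbL

open GcbL Classical in
theorem gcb : S_GCB := by
  intro K T
  have h1 : (univ.filter fun u : Fin T → Fin 12 => ¬ GC K T (bts (ext12 u))).card =
      (univ.filter fun c : Fin T → Bool => ¬ GC K T (ext c)).card * 6 ^ T := by
    rw [card_eq_sum_card_fiberwise (f := fun u : Fin T → Fin 12 => fun i => bt (u i))
      (t := univ.filter fun c : Fin T → Bool => ¬ GC K T (ext c))]
    · rw [← smul_eq_mul, ← sum_const]
      refine sum_congr rfl fun c hc => ?_
      rw [← fib T c, filter_filter]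
      congr 1
      ext u
      simp only [mem_filter, mem_univ, true_and]
      constructor
      · exact fun h => h.2
      · intro h
        refine ⟨?_, h⟩
        rw [gc_bts, h]
        exact (mem_filter.1 hc).2
    · intro u hu
      rw [mem_coe, mem_filter] at hu ⊢
      exact ⟨mem_univ _, fun h => hu.2 ((gc_bts u).2 h)⟩
  rw [h1]
  push_cast
  have h2 := w4 K T
  have h3 := mul_le_mul_of_nonneg_right h2 (by positivity : (0 : ℝ) ≤ 6 ^ T)
  have h4 : (12 : ℝ) ^ T = 2 ^ T * 6 ^ T := by rw [← mul_pow]; norm_num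
  rw [h4]
  calc _ ≤ _ := h3
    _ = _ := by ring

end Pool.Agent.Helper57K9.XZ
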