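import Pool.Agent.Helper57K9.XZ.Xdef
import Pool.Agent.Helper57K9.XZ.Bx

/-!
# Zombies on the torus: zombies which are never relevant
-/

set_option autoImplicit false

namespace Pool.Agent.Helper57K9.XZ

open Finset Pool.Agent.Helper5K9.ZN

namespace MaskL

variable {k : ℕ}

theorem all_iff {P P' : Fin k → ℤ × ℤ} {φ : ℤ × ℤ → Prop}
    (h : ∀ z, P z = P' z ∨ (φ (P z) ∧ φ (P' z))) : (∀ z, φ (P z)) = ∀ z, φ (P' z) := by
  apply propext
  constructor
  · intro h1 z
    rcases h z with h2 | h2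
    · rw [← h2]; exact h1 z
    · exact h2.2
  · intro h1 z
    rcases h z with h2 | h2
    · rw [h2]; exact h1 z
    · exact h2.1

theorem safe_of {n K s : ℕ} (hn : 3 ≤ n) {q : ℤ × ℤ} (hq : q ∈ Boxn n) (h : ¬ Rel K s q)
    (e : Bool) : 2 ≤ L1 (sm n e q) := by
  obtain ⟨a, b⟩ := q
  rw [mem_Boxn] at hq
  by_contra hcon
  apply h
  simp only at hq
  unfold Rel
  cases e
  · have h1 : sm n false (a, b) = (a, b - 1) := by
      simp only [sm, wr, Bool.false_eq_true, if_false]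
      rw [if_neg (by omega)]
    rw [h1] at hcon
    simp only [L1] at hcon
    have hx1 := abs_choice a
    have hx2 := abs_nonneg a
    have hy1 := abs_choice b
    have hy2 := abs_nonneg b
    have hz1 := abs_choice (b - 1)
    have hz2 := abs_nonneg (b - 1)
    by_cases h0 : a = 0 ∧ b = 0
    · right; left
      rw [h0.1, h0.2]; rfl
    · right; right; right
      unfold Fr
      simp only [L1]
      omega
  · have h1 : sm n true (a, b) = (a - 1, b) := by
      simp only [sm, wr, if_true]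
      rw [if_neg (by omega)]
    rw [h1] at hcon
    simp only [L1] at hcon
    have hx1 := abs_choice a
    have hx2 := abs_nonneg a
    have hy1 := abs_choice b
    have hy2 := abs_nonneg b
    have hz1 := abs_choice (a - 1)
    have hz2 := abs_nonneg (a - 1)
    by_cases h0 : a = 0 ∧ b = 0
    · right; left
      rw [h0.1, h0.2]; rfl
    · right; right; right
      unfold Fr
      simp only [L1]
      omega

theorem xupd_congr {n K : ℕ} (hn : 3 ≤ n) (x : XM) {P P' : Fin k → ℤ × ℤ}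
    (h : ∀ z, P z = P' z ∨ (P z ∈ Boxn n ∧ P' z ∈ Boxn n ∧ ¬ Rel K x.t (P z) ∧
      ¬ Rel K x.t (P' z))) : xupd n K x P = xupd n K x P' := by
  classical
  have hS : ∀ e, Safe n e P = Safe n e P' := fun e => all_iff (φ := fun q => 2 ≤ L1 (sm n e q))
    fun z => (h z).imp id fun h1 => ⟨safe_of hn h1.1 h1.2.2.1 e, safe_of hn h1.2.1 h1.2.2.2 e⟩
  have hne : ∀ {q : ℤ × ℤ}, ¬ Rel K x.t q → ¬ (0 < q.1 ∧ 0 < q.2 ∧ L1 q ≤ 5 * Fe 30 K) :=
    fun {q} h1 h2 => h1 (Or.inr (Or.inr (Or.inl ⟨⟨h2.1, h2.2.1⟩, h2.2.2⟩)))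
  have hL : ∀ D i, LaneOK 30 K P D i = LaneOK 30 K P' D i := fun D i =>
    all_iff (φ := fun q => 0 < q.1 → 0 < q.2 → L1 q ≤ 5 * Fe 30 K →
      (QQ1 30 K : ℤ) < |q.1 - q.2 + D - i * Sp 30 K|)
    fun z => (h z).imp id fun h1 => ⟨fun a b c => absurd ⟨a, b, c⟩ (hne h1.2.2.1),
      fun a b c => absurd ⟨a, b, c⟩ (hne h1.2.2.2)⟩
  have hG : ∀ i, GapOK 30 K P i = GapOK 30 K P' i := fun i =>
    all_iff (φ := fun q => 0 < q.1 → 0 < q.2 → L1 q ≤ 5 * Fe 30 K →
      L1 q < 2 * gp 30 K i ∨ 2 * ((gp 30 K i : ℤ) + Gg 30 K + Bb 30 K) < L1 q)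
    fun z => (h z).imp id fun h1 => ⟨fun a b c => absurd ⟨a, b, c⟩ (hne h1.2.2.1),
      fun a b c => absurd ⟨a, b, c⟩ (hne h1.2.2.2)⟩
  have hU : ∀ m : Mem, upd n 30 K m P = upd n 30 K m P' := by
    intro m
    simp only [upd, hS, hL, hG]
  have hBE : (∀ z, ¬ BE (P z)) = ∀ z, ¬ BE (P' z) := all_iff (φ := fun q => ¬ BE q)
    fun z => (h z).imp id fun h1 => ⟨fun h2 => h1.2.2.1 (Or.inr (Or.inr (Or.inr ⟨Or.inl h2.1, h2.2⟩))),
      fun h2 => h1.2.2.2 (Or.inr (Or.inr (Or.inr ⟨Or.inl h2.1, h2.2⟩)))⟩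
  have hBN : (∀ z, ¬ BN (P z)) = ∀ z, ¬ BN (P' z) := all_iff (φ := fun q => ¬ BN q)
    fun z => (h z).imp id fun h1 => ⟨fun h2 => h1.2.2.1 (Or.inr (Or.inr (Or.inr ⟨Or.inr h2.1, h2.2⟩))),
      fun h2 => h1.2.2.2 (Or.inr (Or.inr (Or.inr ⟨Or.inr h2.1, h2.2⟩)))⟩
  by_cases hd : Lam K ∣ x.t
  · have hC : Clean K P = Clean K P' := all_iff (φ := fun q => ¬ Viol K q)
      fun z => (h z).imp id fun h1 => ⟨fun h2 => h1.2.2.1 (Or.inl ⟨hd, h2⟩),
        fun h2 => h1.2.2.2 (Or.inl ⟨hd, h2⟩)⟩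
    simp only [xupd, hU, hBE, hBN, hC]
  · simp only [xupd, hU, hBE, hBN, if_neg hd]

theorem time (n K : ℕ) (c : ℕ → Fin k → Fin 12) (p : Fin k → ℤ × ℤ) (s : ℕ) :
    (playn n (xs n K k) c p s).1.t = s := by
  induction s with
  | zero => rfl
  | succ s ih =>
    change (playn n (xs n K k) c p s).1.t + 1 = s + 1
    rw [ih]

theorem tu_congr {n : ℕ} {u u' : ℕ → Fin 12} {e e' : ℕ → Bool} {p : ℤ × ℤ} {s : ℕ}
    (hu : ∀ i, i < s → u i = u' i) (he : ∀ i, i < s → e i = e' i) :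
    tu n u e p s = tu n u' e' p s := by
  induction s with
  | zero => rfl
  | succ s ih =>
    change smg n (e s) (zu n (u s) (tu n u e p s)) = smg n (e' s) (zu n (u' s) (tu n u' e' p s))
    rw [ih (fun i hi => hu i (by omega)) (fun i hi => he i (by omega)), hu s (by omega),
      he s (by omega)]

theorem du_mem {n : ℕ} (hn : 3 ≤ n) (u : ℕ → Fin 12) (e : ℕ → Bool) {p : ℤ × ℤ} (hp : p ∈ Boxn n)
    (t : ℕ) : du n u e p t ∈ Boxn n := by
  have h : tu n u e p t ∈ Boxn n := by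
    induction t with
    | zero => exact hp
    | succ t ih => exact ((bx n hn).2 _ (((bx n hn).2 _ ih).1 _)).2 _
  exact ((bx n hn).2 _ h).1 _

/-- the memory after a round -/
theorem play_succ (n K : ℕ) (c : ℕ → Fin k → Fin 12) (p : Fin k → ℤ × ℤ) (s : ℕ) :
    (playn n (xs n K k) c p (s + 1)).1 = xupd n K (playn n (xs n K k) c p s).1
      (fun z => du n (fun s => c s z) (mvn n (xs n K k) c p) (p z) s) := by
  change xupd n K (playn n (xs n K k) c p s).1 (fun z => zu n (c s z)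
    ((playn n (xs n K k) c p s).2 z)) = _
  congr 1
  funext z
  rw [playn_snd]
  rfl

end MaskL

theorem mask : S_MASK := by
  intro n K k t c c' p p' hn hp h s
  induction s using Nat.strong_induction_on with
  | _ s ih =>
    intro hs
    cases s with
    | zero => rfl
    | succ s =>
      have h1 := ih s (by omega) (by omega)
      have hmv : ∀ i, i < s → mvn n (xs n K k) c p i = mvn n (xs n K k) c' p' i := by
        intro i hi
        unfold mvn
        rw [ih (i + 1) (by omega) (by omega)]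
      rw [MaskL.play_succ, MaskL.play_succ, h1]
      apply MaskL.xupd_congr hn
      intro z
      rw [MaskL.time]
      rcases h z with ⟨h2, h3⟩ | ⟨h2, h3⟩
      · left
        change zu n (c s z) _ = zu n (c' s z) _
        rw [MaskL.tu_congr (u := fun s => c s z) (u' := fun s => c' s z) (fun i _ => h2 i) hmv,
          h2 s, h3]
      · right
        exact ⟨MaskL.du_mem hn _ _ (hp z).1 s, MaskL.du_mem hn _ _ (hp z).2 s, h2 s (by omega),
          h3 _ s⟩

end Pool.Agent.Helper57K9.XZ
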