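import Pool.Agent.Helper57K9.XZ.Stm4

/-!
# Zombies on the torus: the near sum in an epoch
-/

set_option autoImplicit false

namespace Pool.Agent.Helper57K9.XZ

open Finset Pool.Agent.Helper5K9.ZN

namespace MbdL

theorem WW_shift (e : ℕ → Bool) (σ t : ℕ) :
    WW (fun s => e (σ + s)) t = WW e (σ + t) - WW e σ := by
  unfold WW
  rw [sum_range_add]
  ring

theorem RR_pos (K : ℕ) : 0 < RR K := by
  unfold RR Fq Fe lm dl
  positivity

end MbdL

theorem mbd (hNS : S_NS) : S_MBD := by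
  obtain ⟨C, hC, hns⟩ := hNS
  refine ⟨4 * C + 2, by positivity, ?_⟩
  intro n K j L e hB hL hW hwin
  have hRR := MbdL.RR_pos K
  have hLam : Lam K = 8 * RR K := rfl
  have hGG : GG K = 610 * Lam K := rfl
  unfold Big at hB
  unfold Win at hwin
  unfold mB DW
  generalize RR K = R at *
  generalize Lam K = Λ at *
  generalize GG K = Γ at *
  obtain ⟨a, ha⟩ : ∃ a, a = j * Λ := ⟨_, rfl⟩
  rw [← ha] at hW hwin ⊢
  obtain ⟨σ, hσ⟩ : ∃ σ, σ = a - 2 * n := ⟨_, rfl⟩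
  rw [← hσ]
  have hσa : σ ≤ a := by omega
  have h1 := hns (fun s => e (σ + s)) (2 * R) (Γ + Λ) (a - σ + L) (a - σ) (a - σ + L)
    ((R : ℤ) - WW e σ) (by omega) (by omega) (by omega) le_rfl (by omega)
    (by
      intro t ht
      rw [MbdL.WW_shift]
      have h2 := hW (σ + t) (by omega)
      rw [abs_le] at h2
      push_cast
      constructor <;> linarith [h2.1, h2.2])
    (by
      intro t ht
      obtain ⟨⟨s, hs1, hs2, hs3⟩, _⟩ := hwin (σ + t + Γ) (by omega) (by omega)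
      refine ⟨s - σ, by omega, by omega, ?_⟩
      rw [MbdL.WW_shift, show σ + (s - σ) = s by omega, hs3])
  -- the sum
  have h2 : ∑ i ∈ (range L).filter (fun i => e (a + i) = true), (1 + prof (fun s => e (σ + s)) (a + i + 1 - 1 - σ) 2 + ((R : ℝ) + 1) ^ 3) =
      ∑ i ∈ (range L).filter (fun i => e (a + i) = true), (1 + ((R : ℝ) + 1) ^ 3) +
      ∑ t ∈ est (fun s => e (σ + s)) (a - σ) (a - σ + L), prof (fun s => e (σ + s)) t 2 := by
    have h3 : est (fun s => e (σ + s)) (a - σ) (a - σ + L) =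
        ((range L).filter (fun i => e (a + i) = true)).image (fun i => a - σ + i) := by
      ext t
      simp only [est, mem_filter, mem_Ico, mem_image, mem_range]
      constructor
      · rintro ⟨⟨h4, h5⟩, h6⟩
        refine ⟨t - (a - σ), ⟨by omega, ?_⟩, by omega⟩
        rw [← h6]
        congr 1
        omega
      · rintro ⟨i, ⟨h4, h5⟩, rfl⟩
        refine ⟨⟨by omega, by omega⟩, ?_⟩
        rw [← h5]
        congr 1
        omega
    rw [h3, sum_image (by intro x _ y _ h; simpa using h), ← sum_add_distrib]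
    refine sum_congr rfl fun i _ => ?_
    rw [show a + i + 1 - 1 - σ = a - σ + i by omega]
    ring
  rw [h2]
  have h3 : ∑ i ∈ (range L).filter (fun i => e (a + i) = true), (1 + ((R : ℝ) + 1) ^ 3) ≤
      2 * (Λ * ((R : ℝ) + 1) ^ 3) := by
    rw [sum_const, nsmul_eq_mul]
    have h4 : (((range L).filter (fun i => e (a + i) = true)).card : ℝ) ≤ Λ := by
      have h5 := card_filter_le (range L) (fun i => e (a + i) = true)
      rw [card_range] at h5
      exact_mod_cast h5.trans hL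
    have h5 : (1 : ℝ) ≤ ((R : ℝ) + 1) ^ 3 := one_le_pow₀ (by linarith [Nat.cast_nonneg (α := ℝ) (R)])
    have h6 : (0 : ℝ) ≤ Λ := Nat.cast_nonneg _
    calc (((range L).filter (fun i => e (a + i) = true)).card : ℝ) * (1 + ((R : ℝ) + 1) ^ 3) ≤
        Λ * (1 + ((R : ℝ) + 1) ^ 3) := mul_le_mul_of_nonneg_right h4 (by positivity)
      _ ≤ Λ * (((R : ℝ) + 1) ^ 3 + ((R : ℝ) + 1) ^ 3) :=
        mul_le_mul_of_nonneg_left (by linarith) h6
      _ = _ := by ring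
  have hnR : (0 : ℝ) ≤ n := Nat.cast_nonneg _
  have hG0 : (0 : ℝ) ≤ Γ := Nat.cast_nonneg _
  have hGL : ((Γ + Λ : ℕ) : ℝ) ≤ 2 * Γ := by
    have : Γ + Λ ≤ 2 * Γ := by omega
    exact_mod_cast this
  have hsq : Real.sqrt (((a - σ + L : ℕ) : ℝ) + 1) ≤ 2 * Real.sqrt n := by
    have h4 : ((a - σ + L : ℕ) : ℝ) + 1 ≤ 4 * n := by
      have : a - σ + L + 1 ≤ 4 * n := by omega
      exact_mod_cast this
    calc Real.sqrt (((a - σ + L : ℕ) : ℝ) + 1) ≤ Real.sqrt (4 * n) := Real.sqrt_le_sqrt h4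
      _ = 2 * Real.sqrt n := by
        rw [Real.sqrt_mul (by norm_num), show (4 : ℝ) = 2 ^ 2 by norm_num,
          Real.sqrt_sq (by norm_num)]
  have hexp : Real.exp (((2 * R : ℕ) : ℝ) / Real.sqrt ((Γ + Λ : ℕ) : ℝ)) ≤
      Real.exp (2 * R / Real.sqrt (Γ)) := by
    apply Real.exp_le_exp.2
    push_cast
    have hGpos : (0 : ℝ) < Γ := by
      have : 0 < Γ := by omega
      exact_mod_cast this
    apply div_le_div_of_nonneg_left (by positivity) (Real.sqrt_pos.2 hGpos)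
    apply Real.sqrt_le_sqrt
    have : (0 : ℝ) ≤ Λ := Nat.cast_nonneg _
    linarith
  have h4 : ((Γ + Λ : ℕ) : ℝ) * Real.sqrt (((a - σ + L : ℕ) : ℝ) + 1) ≤
      4 * (Γ * Real.sqrt n) := by
    calc ((Γ + Λ : ℕ) : ℝ) * Real.sqrt (((a - σ + L : ℕ) : ℝ) + 1) ≤
        (2 * Γ) * (2 * Real.sqrt n) := mul_le_mul hGL hsq (Real.sqrt_nonneg _) (by positivity)
      _ = _ := by ring
  have h5 : ((Γ + Λ : ℕ) : ℝ) ^ 2 *
      Real.exp (((2 * R : ℕ) : ℝ) / Real.sqrt ((Γ + Λ : ℕ) : ℝ)) ≤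
      4 * ((Γ : ℝ) ^ 2 * Real.exp (2 * R / Real.sqrt (Γ))) := by
    calc ((Γ + Λ : ℕ) : ℝ) ^ 2 *
      Real.exp (((2 * R : ℕ) : ℝ) / Real.sqrt ((Γ + Λ : ℕ) : ℝ)) ≤
        (2 * Γ) ^ 2 * Real.exp (2 * R / Real.sqrt (Γ)) :=
        mul_le_mul (pow_le_pow_left₀ (Nat.cast_nonneg _) hGL 2) hexp (Real.exp_nonneg _)
          (by positivity)
      _ = _ := by ring
  have h6 : (0 : ℝ) ≤ Γ * Real.sqrt n := by positivity
  have h7 : (0 : ℝ) ≤ (Γ : ℝ) ^ 2 * Real.exp (2 * R / Real.sqrt (Γ)) := by positivity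
  have h8 : (0 : ℝ) ≤ Λ * ((R : ℝ) + 1) ^ 3 := by positivity
  have h9 : C * (((Γ + Λ : ℕ) : ℝ) * Real.sqrt (((a - σ + L : ℕ) : ℝ) + 1) +
      ((Γ + Λ : ℕ) : ℝ) ^ 2 *
      Real.exp (((2 * R : ℕ) : ℝ) / Real.sqrt ((Γ + Λ : ℕ) : ℝ))) ≤
      C * (4 * (Γ * Real.sqrt n) + 4 * ((Γ : ℝ) ^ 2 * Real.exp (2 * R / Real.sqrt (Γ)))) :=
    mul_le_mul_of_nonneg_left (by linarith) hC.le
  nlinarith [mul_nonneg hC.le h6, mul_nonneg hC.le h7, mul_nonneg hC.le h8]

end Pool.Agent.Helper57K9.XZ
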