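import Pool.Agent.Helper57K9.XZ.Xdef

/-!
# A zombie starting at `(-1, -1)` is never relevant
-/

set_option autoImplicit false

namespace Pool.Agent.Helper57K9.XZ

open Finset Pool.Agent.Helper5K9.ZN

namespace Msk0L

theorem hx_neg (n : ℕ) (s : Bool) (a : ℤ) (ha : a < 0) : hx n s a = a + 1 := by
  unfold hx
  rw [if_neg (by rintro ⟨h, -⟩; omega), Int.sign_eq_neg_one_of_neg ha]
  ring

/-- the positions at the turns -/
def Tn (q : ℤ × ℤ) : Prop := q = (-1, -1) ∨ q = (0, -2) ∨ q = (-2, 0)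
/-- the positions at the decisions -/
def Dn (q : ℤ × ℤ) : Prop := q = (0, -1) ∨ q = (-1, 0)

theorem zu_T (n : ℕ) (u : Fin 12) (q : ℤ × ℤ) (h : Tn q) : Dn (zu n u q) := by
  unfold Dn zu zmg
  rcases h with rfl | rfl | rfl
  · by_cases hc : (cfs n u (-1, -1)).1 = true
    · left
      rw [if_pos (Or.inr ⟨hc, by norm_num⟩), hx_neg _ _ _ (by norm_num)]
      norm_num
    · right
      rw [if_neg (by simp [hc]), hx_neg _ _ _ (by norm_num)]
      norm_num
  · left
    rw [if_neg (by simp), hx_neg _ _ _ (by norm_num)]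
    norm_num
  · right
    rw [if_pos (Or.inl rfl), hx_neg _ _ _ (by norm_num)]
    norm_num

theorem wrn_eq (n : ℕ) (a : ℤ) (h1 : -(n : ℤ) < 2 * a) (h2 : 2 * a ≤ n) : wrn n a = a := by
  unfold wrn
  rw [if_neg (by omega), if_neg (by omega)]

theorem smg_D (n : ℕ) (hn : 12 ≤ n) (e : Bool) (q : ℤ × ℤ) (h : Dn q) : Tn (smg n e q) := by
  unfold Tn smg
  rcases h with rfl | rfl
  · cases e
    · right; left
      rw [if_neg (by simp), wrn_eq n _ (by norm_num; try omega) (by norm_num; try omega)]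
      norm_num
    · left
      rw [if_pos rfl, wrn_eq n _ (by norm_num; try omega) (by norm_num; try omega)]
      norm_num
  · cases e
    · left
      rw [if_neg (by simp), wrn_eq n _ (by norm_num; try omega) (by norm_num; try omega)]
      norm_num
    · right; right
      rw [if_pos rfl, wrn_eq n _ (by norm_num; try omega) (by norm_num; try omega)]
      norm_num

theorem tu_T (n : ℕ) (hn : 12 ≤ n) (u : ℕ → Fin 12) (e : ℕ → Bool) (t : ℕ) :
    Tn (tu n u e (-1, -1) t) := by
  induction t with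
  | zero => exact Or.inl rfl
  | succ t ih => exact smg_D n hn _ _ (zu_T n _ _ ih)

theorem not_Fr {q : ℤ × ℤ} (h : Dn q) : ¬ Fr q := by
  rcases h with rfl | rfl <;> (unfold Fr; norm_num)

theorem ne_zero {q : ℤ × ℤ} (h : Dn q) : q ≠ 0 := by
  rcases h with rfl | rfl
  · intro h0
    have := congrArg Prod.snd h0
    simp at this
  · intro h0
    have := congrArg Prod.fst h0
    simp at this

end Msk0L

open Msk0L in
/-- **MSK0** -/
theorem msk0 : S_MSK0 := by
  intro n K u e s hn
  have h : Dn (du n u e (-1, -1) s) := zu_T n _ _ (tu_T n hn u e s)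
  rintro (⟨-, h1⟩ | h1 | ⟨h1, -⟩ | ⟨h1, -⟩)
  · exact not_Fr h h1.1
  · exact ne_zero h h1
  · exact not_Fr h (Or.inl h1.1)
  · exact not_Fr h h1

end Pool.Agent.Helper57K9.XZ
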