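import Pool.Agent.Helper57K9.XZ.Pu

/-!
# [NS] the near sum (helper71)
-/

set_option autoImplicit false

namespace Pool.Agent.Helper57K9.XZ

open Finset Pool.Agent.Helper5K9.ZN

/-- [NS] -/
theorem ns : S_SLO → S_TB → S_PU → S_NS := by
  rintro ⟨C1, hC1, hslo⟩ ⟨C2, hC2, htb⟩ ⟨C3, hC3, hpu⟩
  refine ⟨C1 * (C3 * (2 * C2) + 4 * C3 + C2 + 2), by positivity,
    fun e W G T t0 t1 B hG hWG h01 h1T h1G htube htouch => ?_⟩
  have hG1 : (1 : ℝ) ≤ G := by exact_mod_cast hG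
  have hG0 : (0 : ℝ) < G := by linarith
  have hr1 : 1 ≤ Real.sqrt (G : ℝ) := Real.one_le_sqrt.2 hG1
  have hrr : Real.sqrt (G : ℝ) * Real.sqrt (G : ℝ) = G := Real.mul_self_sqrt hG0.le
  have hrG : Real.sqrt (G : ℝ) ≤ G := by nlinarith
  obtain ⟨Y, hY⟩ : ∃ Y, Y = Real.sqrt ((T : ℝ) + 1) := ⟨_, rfl⟩
  have hY1 : 1 ≤ Y := by
    rw [hY]
    apply Real.one_le_sqrt.2
    have : (0 : ℝ) ≤ T := Nat.cast_nonneg T
    linarith
  have hmono : ∀ t : ℕ, t ≤ T → Real.sqrt ((t : ℝ) + 1) ≤ Y := by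
    intro t ht
    rw [hY]
    apply Real.sqrt_le_sqrt
    have : (t : ℝ) ≤ T := by exact_mod_cast ht
    linarith
  have htb' := htb e G T B hG (fun t ht => (htube t ht).2) htouch
  rw [← hY]
  -- slopes
  have h1 := hslo e t0 t1 W (C2 * (Real.sqrt G * Y)) h01 (by
    intro s t hst ht
    obtain ⟨a1, a2⟩ := htube t (ht.trans h1T)
    obtain ⟨a3, a4⟩ := htube s ((hst.trans ht).trans h1T)
    rw [abs_le]
    constructor <;> linarith) (by
    intro s hs
    have hsT : s ≤ T := (hs.trans h01).trans h1T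
    refine (htb' s hsT 0).trans ?_
    have h2 := hmono s hsT
    simp only [Nat.cast_zero, zero_add]
    rw [mul_assoc]
    exact mul_le_mul_of_nonneg_left (mul_le_mul_of_nonneg_left h2 (Real.sqrt_nonneg _)) hC2.le)
  -- the last touch
  obtain ⟨s0, hs0, hs1, hs2⟩ : ∃ s0 : ℕ, s0 ≤ t0 ∧ t1 ≤ s0 + 2 * G ∧
      ((WW e s0 = B ∧ ∀ h : ℕ, prof e s0 h ≤ (C2 * Y) * (h + Real.sqrt ((2 * G : ℕ) : ℝ))) ∨ s0 = 0) := by
    rcases Nat.lt_or_ge t0 G with h | h
    · exact ⟨0, Nat.zero_le _, by omega, Or.inr rfl⟩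
    · obtain ⟨s, h2, h3, h4⟩ := htouch (t0 - G) (by omega)
      refine ⟨s, by omega, by omega, Or.inl ⟨h4, fun k => ?_⟩⟩
      have hsT : s ≤ T := by omega
      refine (htb' s hsT k).trans ?_
      have h5 := hmono s hsT
      have h6 : Real.sqrt (G : ℝ) ≤ Real.sqrt ((2 * G : ℕ) : ℝ) := by
        apply Real.sqrt_le_sqrt
        push_cast
        linarith
      calc C2 * ((k : ℝ) + Real.sqrt G) * Real.sqrt ((s : ℝ) + 1)
          ≤ C2 * ((k : ℝ) + Real.sqrt ((2 * G : ℕ) : ℝ)) * Y := by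
            apply mul_le_mul _ h5 (Real.sqrt_nonneg _) (by positivity)
            exact mul_le_mul_of_nonneg_left (by linarith) hC2.le
        _ = _ := by ring
  have h2 := hpu e s0 t1 W (2 * G) B (C2 * Y) (by omega) (by omega) hs1 (by positivity)
    (fun t _ ht => htube t (ht.trans h1T)) hs2
  have hexp : Real.exp ((W : ℝ) / Real.sqrt ((2 * G : ℕ) : ℝ)) ≤ Real.exp (W / Real.sqrt G) := by
    apply Real.exp_le_exp.2
    apply div_le_div_of_nonneg_left (Nat.cast_nonneg _) (by linarith)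
    apply Real.sqrt_le_sqrt
    push_cast
    linarith
  obtain ⟨E, hE⟩ : ∃ E, E = Real.exp ((W : ℝ) / Real.sqrt G) := ⟨_, rfl⟩
  rw [← hE] at hexp ⊢
  have hE0 : 0 < E := by rw [hE]; exact Real.exp_pos _
  have h3 : ∑ t ∈ est e t0 t1, prof e t 0 ≤ ∑ t ∈ est e s0 t1, prof e t 0 := by
    apply sum_le_sum_of_subset_of_nonneg
    · intro t ht
      unfold est at ht ⊢
      rw [mem_filter, mem_Ico] at ht ⊢
      exact ⟨⟨by omega, ht.1.2⟩, ht.2⟩
    · intro t _ _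
      exact (PuL.prof_bd e t 0).1
  have h4 : ∑ t ∈ est e t0 t1, prof e t 0 ≤ C3 * (2 * C2) * (G * Y) + 4 * C3 * ((G : ℝ) ^ 2 * E) := by
    refine (h3.trans h2).trans ?_
    push_cast at hexp ⊢
    have h5 : (2 * (G : ℝ)) ^ 2 * Real.exp (W / Real.sqrt (2 * G)) ≤ (2 * (G : ℝ)) ^ 2 * E :=
      mul_le_mul_of_nonneg_left hexp (by positivity)
    calc C3 * (C2 * Y * (2 * G) + (2 * (G : ℝ)) ^ 2 * Real.exp (W / Real.sqrt (2 * G)))
        ≤ C3 * (C2 * Y * (2 * G) + (2 * (G : ℝ)) ^ 2 * E) :=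
          mul_le_mul_of_nonneg_left (by linarith) hC3.le
      _ = _ := by ring
  have h5 : Real.sqrt (G : ℝ) * Y ≤ G * Y := mul_le_mul_of_nonneg_right hrG (by linarith)
  have h6 : C2 * (Real.sqrt G * Y) ≤ C2 * (G * Y) := mul_le_mul_of_nonneg_left h5 hC2.le
  have h7 : (W : ℝ) ≤ G * Y := by
    have : (W : ℝ) ≤ G := by exact_mod_cast hWG
    nlinarith
  have h8 : (t1 : ℝ) - t0 ≤ G * Y := by
    have : (t1 : ℝ) ≤ t0 + G := by exact_mod_cast h1G
    nlinarith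
  have hGY : 0 ≤ (G : ℝ) * Y := by positivity
  have hGE : 0 ≤ (G : ℝ) ^ 2 * E := by positivity
  calc ∑ t ∈ est e t0 t1, prof e t 2 ≤ _ := h1
    _ ≤ C1 * ((C3 * (2 * C2) + C2 + 2) * (G * Y) + 4 * C3 * ((G : ℝ) ^ 2 * E)) := by
        apply mul_le_mul_of_nonneg_left _ hC1.le
        linarith
    _ ≤ C1 * ((C3 * (2 * C2) + 4 * C3 + C2 + 2) * (G * Y) + (C3 * (2 * C2) + 4 * C3 + C2 + 2) * ((G : ℝ) ^ 2 * E)) := by
        apply mul_le_mul_of_nonneg_left _ hC1.le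
        apply add_le_add
        · apply mul_le_mul_of_nonneg_right _ hGY
          linarith
        · apply mul_le_mul_of_nonneg_right _ hGE
          have : 0 ≤ C3 * (2 * C2) := by positivity
          linarith
    _ = _ := by ring

end Pool.Agent.Helper57K9.XZ
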