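import Pool.Agent.Helper57K9.XZ.Stm3

/-!
# Leaf NVX
-/

set_option autoImplicit false

namespace Pool.Agent.Helper57K9.XZ

open Finset Pool.Agent.Helper5K9.ZN

namespace NvxL

theorem Fq_eq (K : ℕ) : Fq K = 97200000000 * (K + 5) := by
  unfold Fq Fe lm dl
  ring

theorem RR_eq (K : ℕ) : RR K = 19440000000000 * (K + 5) := by
  unfold RR
  rw [Fq_eq]
  ring

theorem big (n K : ℕ) (h : Big n K) : 12 ≤ n ∧ 1000000 * Lam K ≤ n ∧ 1000 ≤ Lam K := by
  have h1 : 1000 ≤ Lam K := by
    unfold Lam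
    rw [RR_eq]
    omega
  have h2 : 1000000 * Lam K ≤ n := h
  omega

theorem drop (hP : S_PLA) (n : ℕ) (u : ℕ → Fin 12) (e : ℕ → Bool) (p : ℤ × ℤ) (hn : 12 ≤ n)
    (hp : p ∈ Boxn n) (s m : ℕ) : L1 (du n u e p s) ≤ L1 (du n u e p (s + m)) + 2 * m := by
  induction m with
  | zero => simp
  | succ m ih =>
    have h1 := (hP n u e p (s + m) hn hp).2.2.1
    have h2 : s + (m + 1) = s + m + 1 := by ring
    rw [h2]
    push_cast
    linarith

theorem drop0 (hP : S_PLA) (n : ℕ) (u : ℕ → Fin 12) (e : ℕ → Bool) (p : ℤ × ℤ) (hn : 12 ≤ n)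
    (hp : p ∈ Boxn n) (t : ℕ) : L1 p ≤ L1 (du n u e p t) + 2 * t + 1 := by
  have h1 := (hP n u e p 0 hn hp).2.2.2
  have h2 := drop hP n u e p hn hp 0 t
  rw [zero_add] at h2
  linarith

/-- deviation of good coins in a window of length at most `GG` -/
theorem dev (K T s w : ℕ) (c : ℕ → Bool) (h : GC K T c) (hs : s + w ≤ T) (hw : w ≤ GG K) :
    1000 * |WW c (s + w) - WW c s| ≤ (RR K : ℤ) := by
  have h1 := h s w hs
  have h2 : (w : ℤ) ≤ 4880 * RR K := by
    have : w ≤ 4880 * RR K := by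
      refine hw.trans (le_of_eq ?_)
      unfold GG Lam
      ring
    exact_mod_cast this
  have h3 : (RR K : ℤ) = 19440000000000 * ((K : ℤ) + 5) := by
    rw [RR_eq]
    push_cast
    ring
  have h4 : (0 : ℤ) ≤ K := Int.natCast_nonneg K
  have h5 : (K : ℤ) * w ≤ K * (4880 * RR K) := mul_le_mul_of_nonneg_left h2 h4
  have h6 : (1000 * |WW c (s + w) - WW c s|) ^ 2 ≤ (RR K : ℤ) ^ 2 := by
    rw [mul_pow, sq_abs]
    calc (1000 : ℤ) ^ 2 * (WW c (s + w) - WW c s) ^ 2
        ≤ 1000 ^ 2 * (K * (4880 * RR K)) := by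
          have := h1.trans h5
          linarith
      _ ≤ (RR K : ℤ) ^ 2 := by
          have h7 : (1000 : ℤ) ^ 2 * (K * 4880) ≤ RR K := by
            rw [h3]
            nlinarith
          have h8 : (0 : ℤ) ≤ RR K := Int.natCast_nonneg _
          nlinarith
  exact (le_abs_self _).trans (abs_le_of_sq_le_sq h6 (Int.natCast_nonneg _))

theorem fr_cases (q : ℤ × ℤ) (h : Fr q) (h' : ¬ NEp q) : ESide q ∨ NSide q := by
  unfold Fr NEp ESide NSide at *
  omega

end NvxL

open NvxL in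
/-- **NVX** -/
theorem nvx (hP : S_PLA) (hS : S_SID) : S_NVX := by
  intro n K t u e p hB hp hg hD hT hW hF hL hno
  obtain ⟨hn, hB1, hLam⟩ := big n K hB
  have hD3 : (D3 K : ℤ) = 10000 * Lam K := by unfold D3; push_cast; ring
  have hD2 : (D2 K : ℤ) = 2000 * Lam K := by unfold D2; push_cast; ring
  have hGG : (GG K : ℤ) = 610 * Lam K := by unfold GG; push_cast; ring
  have hB2 : 1000000 * (Lam K : ℤ) ≤ n := by exact_mod_cast hB1
  have hL1 : (1000 : ℤ) ≤ Lam K := by exact_mod_cast hLam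
  have h0 := drop0 hP n u e p hn hp t
  have hGt : GG K ≤ t := by
    have : (GG K : ℤ) ≤ t := by
      rw [hGG]
      rw [hD3] at hD
      linarith
    exact_mod_cast this
  -- the window
  have hwin : ∀ s ≤ t, t ≤ s + GG K → L1 (du n u e p s) ≤ 1240 * Lam K ∧
      (ESide (du n u e p s) ∨ NSide (du n u e p s)) ∧
      (ESide (du n u e p s) → ESide (du n u e p t)) ∧
      (NSide (du n u e p s) → NSide (du n u e p t)) := by
    intro s hs hts
    obtain ⟨m, rfl⟩ := Nat.exists_eq_add_of_le hs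
    have h1 := drop hP n u e p hn hp s m
    have h2 : (m : ℤ) ≤ GG K := by
      have : m ≤ GG K := by omega
      exact_mod_cast this
    have h3 : L1 (du n u e p s) ≤ 1240 * Lam K := by
      rw [hGG] at h2
      linarith
    have h4 : 4 * L1 (du n u e p s) + 8 ≤ (n : ℤ) := by linarith
    obtain ⟨a1, a2, a3, -⟩ := hS n u e p s (s + m) hn hp hs h4
    have h5 : Fr (du n u e p s) := by
      by_contra h
      exact a1 h hF
    have h6 : ¬ NEp (du n u e p s) := by
      intro h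
      refine hno s hs hts ⟨h, ?_⟩
      rw [hD2]
      linarith
    refine ⟨h3, fr_cases _ h5 h6, fun h => ?_, fun h => ?_⟩
    · rcases a2 h with h | h
      · exact h
      · exact absurd hF h
    · rcases a3 h with h | h
      · exact h
      · exact absurd hF h
  obtain ⟨⟨s1, hs1, hs1', hw1⟩, s2, hs2, hs2', hw2⟩ := hW t le_rfl hGt
  obtain ⟨-, hc, -, -⟩ := hwin t le_rfl (by omega)
  rcases hc with hE | hN
  · left
    refine ⟨hE, ?_⟩
    obtain ⟨b1, b2, b3, b4⟩ := hwin s1 hs1 hs1'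
    have hEs : ESide (du n u e p s1) := by
      rcases b2 with h | h
      · exact h
      · exfalso
        have h1 := b4 h
        unfold NSide at h1
        unfold ESide at hE
        omega
    have h4 : 4 * L1 (du n u e p s1) + 8 ≤ (n : ℤ) := by linarith
    obtain ⟨-, -, -, -, a5, -⟩ := hS n u e p s1 t hn hp hs1 h4
    obtain ⟨-, -, c3⟩ := a5 hEs hE
    obtain ⟨m, rfl⟩ := Nat.exists_eq_add_of_le hs1
    have h5 := dev K (s1 + m + 1) (s1 + 1) m (bts u) hg (by omega) (by omega)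
    have h6 : s1 + 1 + m = s1 + m + 1 := by ring
    rw [h6] at h5
    have h7 := neg_abs_le (WW (bts u) (s1 + m + 1) - WW (bts u) (s1 + 1))
    have h8 : (du n u e p s1).2 ≤ 0 := hEs.2
    rw [hw1] at c3
    linarith
  · right
    refine ⟨hN, ?_⟩
    obtain ⟨b1, b2, b3, b4⟩ := hwin s2 hs2 hs2'
    have hNs : NSide (du n u e p s2) := by
      rcases b2 with h | h
      · exfalso
        have h1 := b3 h
        unfold ESide at h1
        unfold NSide at hN
        omega
      · exact h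
    have h4 : 4 * L1 (du n u e p s2) + 8 ≤ (n : ℤ) := by linarith
    obtain ⟨-, -, -, -, -, a6⟩ := hS n u e p s2 t hn hp hs2 h4
    obtain ⟨-, -, c3⟩ := a6 hNs hN
    obtain ⟨m, rfl⟩ := Nat.exists_eq_add_of_le hs2
    have h5 := dev K (s2 + m + 1) (s2 + 1) m (bts u) hg (by omega) (by omega)
    have h6 : s2 + 1 + m = s2 + m + 1 := by ring
    rw [h6] at h5
    have h7 := le_abs_self (WW (bts u) (s2 + m + 1) - WW (bts u) (s2 + 1))
    have h8 : (du n u e p s2).1 ≤ 0 := hNs.1
    rw [hw2] at c3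
    linarith

end Pool.Agent.Helper57K9.XZ
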