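import Pool.Agent.Helper57K9.XZ.MskA

/-!
# XZ, [PC]: 30 zombies in the outer north-east box
-/

set_option autoImplicit false

namespace Pool.Agent.Helper57K9.XZ

open Finset Pool.Agent.Helper5K9.ZN

namespace PcL

open MskL

/-- the bound for one zombie and a fixed path -/
theorem one (hO : S_OCC) (hN : S_FNE) {n K T t : ℕ} (hB : Big n K) (ht : t < T) (e : ℕ → Bool)
    (he : Tube (RR K + Lam K) e t) :
    cnt n T (fun p u => GC K T (bts u) ∧ NEp (du n u e p t) ∧ L1 (du n u e p t) ≤ D3 K) ≤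
      D3 K ^ 2 * (5 * 12 ^ T) := by
  classical
  have hF := UpL.Fq_ge K
  have hL := UpL.Lam_eq K
  have hR := UpL.RR_eq K
  have hD3 : D3 K = 10000 * Lam K := rfl
  unfold Big at hB
  have hn : 3 ≤ n := by omega
  have h1 := OccL.union_bound (n := n) (T := T)
    (((Icc 1 (D3 K : ℤ)) ×ˢ (Icc 1 (D3 K : ℤ))).toList) (5 * 12 ^ T)
    (fun p u => GC K T (bts u) ∧ NEp (du n u e p t) ∧ L1 (du n u e p t) ≤ D3 K)
    (fun p u => du n u e p t) (by
      intro p _ u h
      rw [mem_toList, mem_product, mem_Icc, mem_Icc]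
      obtain ⟨-, ⟨h1, h2⟩, h3⟩ := h
      unfold L1 at h3
      rw [abs_of_pos h1, abs_of_pos h2] at h3
      show (1 ≤ (du n u e p t).1 ∧ (du n u e p t).1 ≤ D3 K) ∧ 1 ≤ (du n u e p t).2 ∧
        (du n u e p t).2 ≤ D3 K
      omega) (by
      intro r
      refine le_trans (OccL.cnt_mono fun p hp u h => ?_) (hO n T t e r hn ht)
      obtain ⟨⟨h1, ⟨h2, h3⟩, h4⟩, h5⟩ := h
      refine ⟨hN n (RR K + Lam K) K t u e p (by omega) hp he (GC_mono (by omega) h1) h2 h3 ?_, h5⟩
      have : (D3 K : ℤ) = 10000 * Lam K := by rw [hD3]; push_cast; ring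
      have : (1000000 : ℤ) * Lam K ≤ n := by exact_mod_cast hB
      omega)
  refine h1.trans (le_of_eq ?_)
  congr 1
  have h3 : ∀ D : ℕ, (((Icc 1 (D : ℤ)) ×ˢ (Icc 1 (D : ℤ))).toList).length = D ^ 2 := by
    intro D
    rw [length_toList, card_product, Int.card_Icc]
    have h2 : ((D : ℤ) + 1 - 1).toNat = D := by simp
    rw [h2, sq]
  exact h3 _

end PcL

open MskL PcL

theorem pc (hM : S_MASK) (h0 : S_MSK0) (hFac : S_FAC) (hO : S_OCC) (hN : S_FNE) (hP : S_PLA) :
    S_PC := by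
  classical
  intro n K k T t hB ht
  have hF := UpL.Fq_ge K
  have hL := UpL.Lam_eq K
  have hn : 12 ≤ n := by
    unfold Big at hB
    omega
  have hn3 : 3 ≤ n := by omega
  obtain ⟨X, hX⟩ : ∃ X : ℕ, X = n ^ 2 * 12 ^ T := ⟨_, rfl⟩
  have hX0 : 0 < X := by
    rw [hX]
    positivity
  have hcard : Fintype.card (XX n T) = X := by rw [fcard hn3, hX]
  obtain ⟨Y, hY⟩ : ∃ Y : ℕ, Y = D3 K ^ 2 * (5 * 12 ^ T) := ⟨_, rfl⟩
  -- the events
  obtain ⟨Q, hQ⟩ : ∃ Q : (ℕ → Bool) → XX n T → Prop, ∀ e x, Q e x ↔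
      (GC K T (bts (ext12 x.2)) ∧ NEp (du n (ext12 x.2) e x.1.1 t) ∧
        L1 (du n (ext12 x.2) e x.1.1 t) ≤ D3 K) := ⟨_, fun _ _ => Iff.rfl⟩
  obtain ⟨Bz, hBz⟩ : ∃ Bz : (Fin 30 → Fin k) → Finset (Fin k → XX n T), ∀ z ω, ω ∈ Bz z ↔
      (Tube (RR K + Lam K) (ee K (mk hn3 (univ.image z) ω)) t ∧
        ∀ j, Q (ee K (mk hn3 (univ.image z) ω)) (ω (z j))) :=
    ⟨fun z => univ.filter fun ω => (Tube (RR K + Lam K) (ee K (mk hn3 (univ.image z) ω)) t ∧
        ∀ j, Q (ee K (mk hn3 (univ.image z) ω)) (ω (z j))), fun z ω => by simp⟩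
  have hcardB : ∀ z : Fin 30 → Fin k, Function.Injective z →
      (Bz z).card * X ^ 30 ≤ X ^ k * Y ^ 30 := by
    intro z hz
    have h1 := hFac (XX n T) k 30 z hz
      (fun ω => Tube (RR K + Lam K) (ee K (mk hn3 (univ.image z) ω)) t)
      (fun ω _ x => Q (ee K (mk hn3 (univ.image z) ω)) x) (by
        intro ω ω' h
        have e1 : mk hn3 (univ.image z) ω = mk hn3 (univ.image z) ω' := mk_congr hn3 fun i hi =>
          h i fun j hj => hi (mem_image.2 ⟨j, mem_univ _, hj⟩)
        rw [e1]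
        exact ⟨Iff.rfl, fun _ _ => Iff.rfl⟩)
    have h2 : (Bz z).card = (univ.filter fun ω : Fin k → XX n T =>
        (Tube (RR K + Lam K) (ee K (mk hn3 (univ.image z) ω)) t ∧
        ∀ j, Q (ee K (mk hn3 (univ.image z) ω)) (ω (z j)))).card := by
      congr 1
      ext ω
      rw [hBz]
      simp
    rw [← hcard, h2]
    refine le_trans (le_of_eq ?_) ((le_of_eq h1).trans ?_)
    · congr!
    · have h3 : ∀ ω : Fin k → XX n T,
          (if Tube (RR K + Lam K) (ee K (mk hn3 (univ.image z) ω)) t then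
            ∏ j : Fin 30, (univ.filter fun x => Q (ee K (mk hn3 (univ.image z) ω)) x).card else 0) ≤
          Y ^ 30 := by
        intro ω
        split_ifs with hT
        · rw [prod_const, card_univ, Fintype.card_fin]
          refine Nat.pow_le_pow_left ?_ 30
          rw [hY]
          have h7 := one hO hN hB ht _ hT
          have key : ∀ P : ℤ × ℤ → (ℕ → Fin 12) → Prop,
              (∀ x : XX n T, Q (ee K (mk hn3 (univ.image z) ω)) x ↔ P x.1.1 (ext12 x.2)) →
              (univ.filter fun x : XX n T => Q (ee K (mk hn3 (univ.image z) ω)) x).card =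
                cnt n T P := by
            intro P hP
            rw [← card_XX P (fun _ => Classical.dec _)]
            congr 1
            ext x
            rw [mem_filter, mem_filter, hP]
          exact (key _ fun x => hQ _ x).trans_le h7
        · exact Nat.zero_le _
      refine le_trans (sum_le_sum (g := fun _ => Y ^ 30) fun ω _ => ?_) ?_
      · convert h3 ω
      · rw [sum_const, card_univ, Fintype.card_fun, Fintype.card_fin, smul_eq_mul]
  -- the union
  have hsub : (univ.filter fun ω : Fin k → XX n T => EA K ω ∧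
      Tube (RR K + Lam K) (ee K ω) t ∧ ¬ OkC n K (uu ω) (ee K ω) (pp ω) t) ⊆
      (univ.filter fun z : Fin 30 → Fin k => Function.Injective z).biUnion Bz := by
    intro ω hω
    rw [mem_filter] at hω
    obtain ⟨-, hA, hT, hC⟩ := hω
    unfold OkC at hC
    push Not at hC
    obtain ⟨F', hF', hc⟩ := exists_subset_card_eq hC
    rw [mem_biUnion]
    refine ⟨F'.orderEmbOfFin hc, mem_filter.2 ⟨mem_univ _, (F'.orderEmbOfFin hc).injective⟩, ?_⟩
    have hin : ∀ j, NEp (PD n (uu ω) (ee K ω) (pp ω) t (F'.orderEmbOfFin hc j)) ∧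
        (D2 K : ℤ) < L1 (PD n (uu ω) (ee K ω) (pp ω) t (F'.orderEmbOfFin hc j)) ∧
        L1 (PD n (uu ω) (ee K ω) (pp ω) t (F'.orderEmbOfFin hc j)) ≤ D3 K := fun j =>
      (mem_filter.1 (hF' (orderEmbOfFin_mem F' hc j))).2
    have hpath := path_eq hM h0 hn K t (univ.image (F'.orderEmbOfFin hc)) ω (by
      intro z hz s hs
      obtain ⟨j, -, rfl⟩ := mem_image.1 hz
      refine not_rel ?_
      have hmono : ∀ w, s + w ≤ t → L1 (PD n (uu ω) (ee K ω) (pp ω) (s + w)
          (F'.orderEmbOfFin hc j)) ≤ L1 (PD n (uu ω) (ee K ω) (pp ω) s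
          (F'.orderEmbOfFin hc j)) := by
        intro w
        induction w with
        | zero => exact fun _ => le_rfl
        | succ w ih =>
          intro hw
          have h2 := (hP n (uu ω (F'.orderEmbOfFin hc j)) (ee K ω)
            (pp ω (F'.orderEmbOfFin hc j)) (s + w) hn (ω _).1.2).2.1
          exact h2.trans (ih (by omega))
      have h3 := hmono (t - s) (by omega)
      rw [show s + (t - s) = t by omega] at h3
      exact lt_of_lt_of_le (hin j).2.1 h3)
    rw [hBz]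
    refine ⟨(Tube_e hpath).1 hT, fun j => ?_⟩
    rw [hQ]
    have h4 := du_e (n := n) (u := uu ω (F'.orderEmbOfFin hc j)) (pp ω (F'.orderEmbOfFin hc j))
      hpath
    have h5 : PD n (uu ω) (ee K ω) (pp ω) t (F'.orderEmbOfFin hc j) =
      du n (ext12 (ω (F'.orderEmbOfFin hc j)).2)
        (ee K (mk hn3 (univ.image (F'.orderEmbOfFin hc)) ω))
        (ω (F'.orderEmbOfFin hc j)).1.1 t := h4
    rw [← h5]
    exact ⟨hA _, (hin j).1, (hin j).2.2⟩
  have hXr : (0 : ℝ) < X := by exact_mod_cast hX0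
  have hN1 : (univ.filter fun z : Fin 30 → Fin k => Function.Injective z).card ≤ k ^ 30 := by
    refine (card_le_univ _).trans ?_
    rw [Fintype.card_fun, Fintype.card_fin, Fintype.card_fin]
  have hbound : ((((univ.filter fun z : Fin 30 → Fin k => Function.Injective z).biUnion
      Bz).card : ℕ) : ℝ) ≤ (k : ℝ) ^ 30 * ((X : ℝ) ^ k * ((Y : ℝ) ^ 30 / (X : ℝ) ^ 30)) := by
    have h1 : (((univ.filter fun z : Fin 30 → Fin k => Function.Injective z).biUnion
      Bz).card : ℝ) ≤ ∑ z ∈ (univ.filter fun z : Fin 30 → Fin k => Function.Injective z),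
        ((Bz z).card : ℝ) := by exact_mod_cast card_biUnion_le
    refine h1.trans ?_
    have h2 : ∀ z ∈ (univ.filter fun z : Fin 30 → Fin k => Function.Injective z),
        ((Bz z).card : ℝ) ≤ (X : ℝ) ^ k * ((Y : ℝ) ^ 30 / (X : ℝ) ^ 30) := by
      intro z hz
      have h3 := hcardB z (mem_filter.1 hz).2
      rw [← mul_div_assoc, le_div_iff₀ (by positivity)]
      exact_mod_cast h3
    refine (sum_le_sum h2).trans ?_
    rw [sum_const, nsmul_eq_mul]
    refine mul_le_mul_of_nonneg_right ?_ (by positivity)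
    exact_mod_cast hN1
  refine le_trans (Nat.cast_le.2 (card_le_card ?_)) (hbound.trans (le_of_eq ?_))
  · convert hsub
  · have hXe : (X : ℝ) = (n : ℝ) ^ 2 * 12 ^ T := by rw [hX]; push_cast; ring
    have hnr : (0 : ℝ) < n := by exact_mod_cast (by omega : 0 < n)
    rw [← hXe]
    have hYe : (Y : ℝ) = (D3 K : ℝ) ^ 2 * (5 * 12 ^ T) := by rw [hY]; push_cast; ring
    have h6 : (5 * (k : ℝ) * (D3 K : ℝ) ^ 2 / (n : ℝ) ^ 2) = k * ((Y : ℝ) / X) := by
      rw [hXe, hYe]
      field_simp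
    rw [h6, mul_pow, div_pow]
    exact mul_left_comm _ _ _

end Pool.Agent.Helper57K9.XZ
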