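import Pool.Agent.Helper57K9.XZ.PduL

/-! [PDD] a bad odd epoch -/

set_option autoImplicit false

namespace Pool.Agent.Helper57K9.XZ

open Finset Pool.Agent.Helper5K9.ZN

namespace PduL

theorem WW_not (c : ℕ → Bool) (t : ℕ) : WW (fun s => !(c s)) t = - WW c t := by
  have h : ∀ b : Bool, sgn (!b) = - sgn b := by decide
  unfold WW
  rw [← Finset.sum_neg_distrib]
  exact Finset.sum_congr rfl fun s _ => h _

theorem Win_not {K : ℕ} {e : ℕ → Bool} {t : ℕ} (hw : Win K e t) : Win K (fun s => !(e s)) t := by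
  intro t' h1 h2
  obtain ⟨⟨s, a1, a2, a3⟩, s', b1, b2, b3⟩ := hw t' h1 h2
  refine ⟨⟨s', b1, b2, ?_⟩, s, a1, a2, ?_⟩
  · rw [WW_not, b3, neg_neg]
  · rw [WW_not, a3]

end PduL

open PduL in
/-- the run of a bad odd epoch -/
theorem run_dn (hfd : S_FDN) {n K k j T t0 : ℕ} (ht0 : j * Lam K = t0) (hk : 1 ≤ k)
    (hBig : Big n K) (u : Fin k → ℕ → Fin 12) (e : ℕ → Bool) (p : Fin k → ℤ × ℤ)
    (hT : t0 + Lam K ≤ T) (hj : j % 2 = 1)
    (hbox : ∀ z, p z ∈ Boxn n ∧ (D3 K : ℤ) < L1 (p z)) (hEA : ∀ z, GC K T (bts (u z)))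
    (hC : ∀ t, t < j * Lam K → OkC n K u e p t) (hGd : Gd K n u e p j)
    (hcl : Clean K (PD n u e p (j * Lam K))) (hD : Desc n K (PD n u e p) e)
    (hb : Bet K < (BlkD K e t0).card) :
    ∃ L ≤ Lam K, ∃ w : Fin L → Bool,
      ((∀ s ≤ t0 + L, |WW (cat (fun s => !(e s)) t0 (ext w)) s| ≤ RR K) ∧
        Win K (cat (fun s => !(e s)) t0 (ext w)) t0) ∧
      (0 < L → ext w 0 = true) ∧ ((range L).filter fun i => ext w i = false).card = Bet K + 1 ∧
      ∃ (Z : Finset (Fin k)) (f : ℕ → Fin k), Z.card ≤ 29 ∧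
        (∀ i ∈ stt (ext w) L, (f i ∈ Z → ln (ext w) L i ≤ K + 5) ∧
          (f i ∉ Z → (∀ s < t0, ¬ Rel K s (PD n u e p s (f i))) ∧
            GC K (t0 + i + 1) (bts (u (f i))) ∧
            ∀ s, t0 + i ≤ s → s ≤ t0 + i + ln (ext w) L i - 1 →
              CE (du n (u (f i)) (fun s => !(cat (fun s => !(e s)) t0 (ext w) s))
                (p (f i)) s).swap)) ∧
        ∀ i ∈ stt (ext w) L, ∀ i' ∈ stt (ext w) L, f i = f i' → i = i' := by
  classical
  have hF := UpL.Fq_ge K
  have hRR := UpL.RR_eq K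
  have hBet := UpL.Bet_eq K
  have hmode := (hD.1 j hcl).2 hj
  have hGd' := hGd
  obtain ⟨hG1, hG2, hG3, -⟩ := hGd'
  have hG2' := abs_le.1 (hG2 j le_rfl)
  have hfd' := hfd n K k j
  rw [ht0] at hmode hG1 hG3 hG2' hcl hC hfd'
  obtain ⟨L, hL0, hL1, hL2, hL3⟩ := exists_L (BlkD K e t0) t0 (Lam K) (Bet K) (by
    intro s hs
    unfold BlkD at hs
    exact mem_Ico.1 (mem_filter.1 hs).1) hb
  unfold BlkD at hL2
  rw [mem_filter, mem_Ico] at hL2
  obtain ⟨⟨-, -⟩, hL4, hL5⟩ := hL2
  have hrun : ∀ s, t0 ≤ s → s < t0 + L → ∀ r, t0 ≤ r → r ≤ s → -(RR K : ℤ) < WW e r := by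
    intro s h1 h2 r h3 h4
    exact hL4 r h3 (by omega)
  have hfalse : ((Ico t0 (t0 + L)).filter fun s => e s = true) =
      (BlkD K e t0).filter fun s => s < t0 + L := by
    ext s
    unfold BlkD
    simp only [mem_filter, mem_Ico]
    constructor
    · rintro ⟨⟨h1, h2⟩, h3⟩
      exact ⟨⟨⟨h1, by omega⟩, hrun s h1 h2, h3⟩, h2⟩
    · rintro ⟨⟨⟨h1, h2⟩, h3, h4⟩, h5⟩
      exact ⟨⟨h1, h5⟩, h4⟩
  have hcount : ((Ico t0 (t0 + L)).filter fun s => e s = true).card = Bet K + 1 := by
    rw [hfalse, hL3]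
  obtain ⟨f1, Z, f, f2, f3, f4⟩ := hfd' L u e p hk hBig hbox hL1
    (fun z => GC_mono (by omega) (hEA z)) hC hGd hcl (by
      intro s h1 h2
      refine ⟨hrun s h1 h2 s h1 le_rfl, ?_⟩
      have h3 := hmode s h1 (by omega)
      rw [if_pos (hrun s h1 h2)] at h3
      exact h3) (le_of_eq hcount)
  -- the word
  have hw : ∀ i, Pool.Agent.Helper5K9.ZN.ext (fun i : Fin L => !(e (t0 + i))) i =
      if i < L then !(e (t0 + i)) else false := by
    intro i
    unfold Pool.Agent.Helper5K9.ZN.ext
    by_cases h : i < L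
    · rw [dif_pos h, if_pos h]
    · rw [dif_neg h, if_neg h]
  have hcat : ∀ s < t0 + L, (fun s => !(e s)) s = cat (fun s => !(e s)) t0
      (Pool.Agent.Helper5K9.ZN.ext (fun i : Fin L => !(e (t0 + i)))) s := by
    intro s hs
    unfold cat
    by_cases h : s < t0
    · rw [if_pos h]
    · rw [if_neg h, hw, if_pos (by omega)]
      show (!(e s)) = !(e (t0 + (s - t0)))
      rw [show t0 + (s - t0) = s by omega]
  refine ⟨L, hL1, fun i => !(e (t0 + i)), ⟨?_, ?_⟩, ?_, ?_, Z, fun i => f (t0 + i), by omega,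
    ?_, ?_⟩
  · -- the tube
    intro s hs
    rw [← WW_congr (t := s) fun r hr => hcat r (by omega), WW_not, abs_neg]
    rcases Nat.lt_or_ge t0 s with h | h
    · obtain ⟨i, rfl⟩ : ∃ i, s = t0 + i := ⟨s - t0, by omega⟩
      have h1 := UpL.WW_count e t0 i
      have h2 : ((Ico t0 (t0 + i)).filter fun s => e s = true).card ≤ Bet K + 1 := by
        rw [← hcount]
        refine card_le_card fun r hr => ?_
        rw [mem_filter, mem_Ico] at hr ⊢
        exact ⟨⟨hr.1.1, by omega⟩, hr.2⟩
      have h3 : ((Ico t0 (t0 + i)).filter fun s => e s = true).card +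
          ((Ico t0 (t0 + i)).filter fun s => e s = false).card = i := by
        have h4 := card_filter_add_card_filter_not (s := Ico t0 (t0 + i)) (fun s => e s = true)
        rw [Nat.card_Ico] at h4
        have h5 : ((Ico t0 (t0 + i)).filter fun s => ¬ e s = true) =
            (Ico t0 (t0 + i)).filter fun s => e s = false := by
          refine filter_congr fun s _ => ?_
          rw [Bool.not_eq_true]
        rw [h5] at h4
        omega
      have h5 : -(RR K : ℤ) ≤ WW e (t0 + i) := by
        rcases Nat.lt_or_ge i L with h6 | h6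
        · exact (hrun (t0 + i) (by omega) (by omega) (t0 + i) (by omega) le_rfl).le
        · have h7 := hrun (t0 + L - 1) (by omega) (by omega) (t0 + L - 1) (by omega) le_rfl
          have h8 : t0 + i = (t0 + L - 1) + 1 := by omega
          have h10 : sgn true = 1 := rfl
          rw [h8, UpL.WW_succ, hL5, h10]
          omega
      rw [abs_le]
      constructor
      · exact h5
      · omega
    · exact hG1 s (by omega)
  · exact Win_congr (fun r hr => hcat r (by omega)) (Win_not hG3)
  · intro _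
    rw [hw, if_pos hL0, Nat.add_zero, f1 hL0]
    rfl
  · rw [← hcount]
    refine card_bij (fun i _ => t0 + i) ?_ ?_ ?_
    · intro i hi
      rw [mem_filter, mem_range, hw] at hi
      rw [if_pos hi.1] at hi
      exact mem_filter.2 ⟨mem_Ico.2 ⟨by omega, by omega⟩, by simpa using hi.2⟩
    · intro i _ i' _ h
      omega
    · intro s hs
      rw [mem_filter, mem_Ico] at hs
      refine ⟨s - t0, ?_, by omega⟩
      rw [mem_filter, mem_range, hw, if_pos (by omega)]
      refine ⟨by omega, ?_⟩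
      rw [show t0 + (s - t0) = s by omega, hs.2]
      rfl
  · intro i hi
    obtain ⟨b, hb'⟩ : ∃ b, Pool.Agent.Helper5K9.ZN.ext (fun i : Fin L => !(e (t0 + i))) = b :=
      ⟨_, rfl⟩
    rw [hb'] at hi hw hcat ⊢
    have hwt : ∀ i < L, b i = true → e (t0 + i) = false := by
      intro i hi h
      rw [hw, if_pos hi] at h
      simpa using h
    have hwf : ∀ i < L, b i = false → e (t0 + i) = true := by
      intro i hi h
      rw [hw, if_pos hi] at h
      simpa using h
    obtain ⟨⟨h1, h2⟩, h3, h4⟩ := WsumL.mem_stt.1 hi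
    have hln1 : 1 ≤ ln b L i := by
      refine WsumL.le_ln fun r hr1 hr2 => ?_
      obtain rfl : r = i := by omega
      exact ⟨h2, h4⟩
    have hln2 : i + ln b L i ≤ L := by
      by_contra hcon
      have := (WsumL.ln_lt (b := b) (L := L) (i := i) (l := L - i) (by omega)).1
      omega
    have key := f3 (t0 + i) (t0 + i + ln b L i - 1) (by omega) (by omega) (by omega)
      (by rw [show t0 + i - 1 = t0 + (i - 1) by omega]; exact hwt _ (by omega) h3) (by
        intro s hs1 hs2
        have h5 := (WsumL.ln_lt (b := b) (L := L) (i := i) (l := s - (t0 + i)) (by omega)).2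
        have h6 := hwf _ (by omega) h5
        rw [← h6]
        congr 1
        omega) (by
        intro hs
        rcases WsumL.ln_mem b L i with h5 | h5
        · omega
        · have h6 := hwt _ (by omega) h5
          rw [← h6]
          congr 1
          omega)
    refine ⟨fun hZ => ?_, fun hZ => ⟨key.2.2 hZ, ?_, ?_⟩⟩
    · have := key.2.1 hZ
      omega
    · exact GC_mono (by omega) (hEA (f (t0 + i)))
    · intro s hs1 hs2
      rw [← du_congr n (u (f (t0 + i))) (e := e) (p (f (t0 + i))) (t := s) fun r hr => ?_]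
      · exact key.1 s hs1 hs2
      · rw [← hcat r (by omega)]
        simp
  · intro i hi i' hi' hff
    obtain ⟨⟨h1, h2⟩, h3, h4⟩ := WsumL.mem_stt.1 hi
    obtain ⟨⟨h1', h2'⟩, h3', h4'⟩ := WsumL.mem_stt.1 hi'
    rw [hw, if_pos (by omega)] at h3 h4 h3' h4'
    have k3 : e (t0 + (i - 1)) = false := by simpa using h3
    have k4 : e (t0 + i) = true := by simpa using h4
    have k3' : e (t0 + (i' - 1)) = false := by simpa using h3'
    have k4' : e (t0 + i') = true := by simpa using h4'
    by_contra hne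
    rcases Nat.lt_or_gt_of_ne hne with h | h
    · exact f4 (t0 + i) (t0 + i') (by omega) (by omega) (by omega)
        (by rw [show t0 + i - 1 = t0 + (i - 1) by omega]; exact k3) k4
        (by rw [show t0 + i' - 1 = t0 + (i' - 1) by omega]; exact k3') k4' hff
    · exact f4 (t0 + i') (t0 + i) (by omega) (by omega) (by omega)
        (by rw [show t0 + i' - 1 = t0 + (i' - 1) by omega]; exact k3') k4'
        (by rw [show t0 + i - 1 = t0 + (i - 1) by omega]; exact k3) k4 hff.symm

open PduL Classical in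
/-- [PDD] -/
theorem pdd (hpdx : S_PDX) (hdx : S_DXN) (hmask : S_MASK) (hmsk0 : S_MSK0) (hfd : S_FDN)
    (hdet : S_DET) (hstr : S_STR) (hbx : S_BX) : S_PDD := by
  obtain ⟨C, hC, hdx⟩ := hdx
  refine ⟨C, hC, ?_⟩
  intro n K k T j M hBig hT hj hM hsum
  have hF := UpL.Fq_ge K
  have hLam := UpL.Lam_eq K
  have hRR := UpL.RR_eq K
  have hBet := UpL.Bet_eq K
  have hBig' : 1000000 * Lam K ≤ n := hBig
  have hn : 1000 * (RR K + K + 1) ≤ n := by omega
  have hn3 : 3 ≤ n := by omega
  set t0 := j * Lam K with ht0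
  have hT' : t0 + Lam K ≤ T := by
    have : (j + 1) * Lam K = t0 + Lam K := by rw [ht0]; ring
    omega
  have hnpos : (0 : ℝ) < n := by exact_mod_cast (by omega : 0 < n)
  have hXc := card_XX hbx (T := T) hn3
  rcases Nat.eq_zero_or_pos k with hk | hk
  · -- no zombies
    have h0 : (univ.filter fun ω : Fin k → XX n T => Pre K ω j ∧
        Clean K (PD n (uu ω) (ee K ω) (pp ω) t0) ∧ Bet K < (BlkD K (ee K ω) t0).card) = ∅ := by
      rw [filter_eq_empty_iff]
      rintro ω - ⟨hpre, hcl, hb⟩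
      obtain ⟨-, hD, -⟩ := facts hdet hstr hBig hT hpre
      have hmode := (hD.1 j hcl).2 hj
      have : BlkD K (ee K ω) t0 = ∅ := by
        unfold BlkD
        rw [filter_eq_empty_iff]
        rintro t ht ⟨h1, h2⟩
        rw [mem_Ico] at ht
        have h3 := hmode t ht.1 ht.2
        rw [if_pos h1] at h3
        have h4 := h3.2 fun z => by
          subst hk
          exact z.elim0
        rw [h4] at h2
        exact absurd h2 (by decide)
      rw [this, card_empty] at hb
      omega
    rw [h0, card_empty, Nat.cast_zero]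
    have := pdB_nonneg K k (x := C / (n : ℝ) ^ 2) M
    positivity
  -- the data
  let x₀ : XX n T := (⟨(-1, -1), mem_Boxn.2 ⟨⟨by omega, by omega⟩, ⟨by omega, by omega⟩⟩⟩, fun _ => 0)
  let Sil : (Fin k → XX n T) → Fin k → Prop := fun ω z =>
    ∀ s < t0, ¬ Rel K s (PD n (uu ω) (ee K ω) (pp ω) s z)
  let Okp : (ℕ → Bool) → ℕ → Prop := fun e L =>
    (∀ s ≤ t0 + L, |WW e s| ≤ RR K) ∧ Win K e t0
  let Ev : (ℕ → Bool) → ℕ → ℕ → XX n T → Prop := fun e α t y =>
    GC K (α + 1) (bts (ext12 y.2)) ∧ ∀ s, α ≤ s → s ≤ t → CE (du n (ext12 y.2) (fun s => !(e s)) y.1.1 s).swap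
  have hmain := hpdx (XX n T) k t0 (Lam K) 29 (K + 5) (Bet K + 1) (C / (n : ℝ) ^ 2) M x₀
    (fun ω s => !(ee K ω s)) Sil Okp Ev (fun e α => DW e (t0 - 2 * n) (RR K) α)
    (fun ω => Pre K ω j ∧ Clean K (PD n (uu ω) (ee K ω) (pp ω) t0) ∧
      Bet K < (BlkD K (ee K ω) t0).card) (by positivity) hM
    (fun b i => DW_nonneg _ _ _ _) (fun b b' i h => DW_congr _ _ h) ?_ ?_ ?_
  · rw [hXc, ← PdxL.nc_eq] at hmain
    rw [← PdxL.nc_eq]
    exact hmain
  · -- mask
    intro ω I hI s hs
    exact congrArg (fun b : Bool => !b)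
      (mask_ee hmask hmsk0 (by omega) x₀ rfl ω I hI s hs)
  · -- bad
    rintro ω ⟨hpre, hcl, hb⟩
    obtain ⟨hbox, hD, hG⟩ := facts hdet hstr hBig hT hpre
    exact run_dn hfd ht0.symm hk hBig (uu ω) (ee K ω) (pp ω) hT' hj hbox hpre.1 hpre.2.2.1 hG hcl
      hD hb
  · -- probabilities
    intro e L w hL hok
    obtain ⟨ok1, ok2⟩ := hok
    set e' := cat e t0 (ext w) with he'
    have hcat : ∀ i, e' (t0 + i) = ext w i := by
      intro i
      rw [he']
      unfold cat
      rw [if_neg (by omega)]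
      congr 1
      omega
    constructor
    · intro i hi
      obtain ⟨⟨h1, h2⟩, h3, h4⟩ := WsumL.mem_stt.1 hi
      have hln1 : 1 ≤ ln (ext w) L i := by
        refine WsumL.le_ln fun r hr1 hr2 => ?_
        obtain rfl : r = i := by omega
        exact ⟨h2, h4⟩
      have hln2 : i + ln (ext w) L i ≤ L := by
        by_contra hcon
        have := (WsumL.ln_lt (b := ext w) (L := L) (i := i) (l := L - i) (by omega)).1
        omega
      have key := hdx n (RR K) K T (t0 + i) (t0 + i + ln (ext w) L i - 1) (t0 - 2 * n)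
        (fun s => !(e' s)) hn (by omega) (by omega) (by omega)
        (fun s hs => by rw [WW_not, abs_neg]; exact ok1 s (by omega))
        (by
          show (!(e' (t0 + i - 1))) = false
          rw [show t0 + i - 1 = t0 + (i - 1) by omega, hcat, h3]
          rfl) (by
          intro s hs1 hs2
          have h5 := (WsumL.ln_lt (b := ext w) (L := L) (i := i) (l := s - (t0 + i))
            (by omega)).2
          show (!(e' s)) = true
          rw [show s = t0 + (s - t0) by omega, hcat,
            show s - t0 = i + (s - (t0 + i)) by omega, h5]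
          rfl) (by omega) (by omega)
      simp only [Bool.not_not] at key
      have hcc := nc_cnt (n := n) (T := T) (fun p u => GC K (t0 + i + 1) (bts u) ∧
        ∀ s, t0 + i ≤ s → s ≤ t0 + i + ln (ext w) L i - 1 →
          CE (du n u (fun s => !(e' s)) p s).swap)
      rw [← PdxL.nc_eq]
      refine le_trans (le_of_eq (congrArg (Nat.cast : ℕ → ℝ) hcc)) ?_
      refine le_trans key (le_of_eq ?_)
      rw [hXc]
      have h6 : ((t0 + i + ln (ext w) L i - 1 : ℕ) : ℝ) - ((t0 + i : ℕ) : ℝ) + 1 =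
          ln (ext w) L i := by
        have : t0 + i + ln (ext w) L i - 1 + 1 = t0 + i + ln (ext w) L i := by omega
        have h7 : ((t0 + i + ln (ext w) L i - 1 : ℕ) : ℝ) + 1 =
            ((t0 + i : ℕ) : ℝ) + ln (ext w) L i := by exact_mod_cast this
        linarith
      have h7 : t0 + i + ln (ext w) L i - 1 - (t0 + i) = ln (ext w) L i - 1 := by omega
      rw [h6, h7]
      unfold DW
      field_simp
    · have key := hsum e' L hL ok1 ok2
      refine le_trans (le_of_eq ?_) key
      refine sum_congr ?_ fun i _ => rfl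
      ext i
      rw [mem_filter, mem_filter, hcat]

end Pool.Agent.Helper57K9.XZ
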