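import Pool.Agent.Helper57K9.XZ.Stm4

/-! [PDX] the abstract form of the estimate of a bad epoch -/

set_option autoImplicit false

namespace Pool.Agent.Helper57K9.XZ

open Finset Pool.Agent.Helper5K9.ZN

namespace PdxL

/-- the number of the elements with the property `P` -/
noncomputable def nc {Ω : Type} [Fintype Ω] (P : Ω → Prop) : ℕ :=
  (@Finset.filter Ω P (Classical.decPred P) univ).card

theorem nc_eq {Ω : Type} [Fintype Ω] (P : Ω → Prop) [DecidablePred P] :
    nc P = (univ.filter P).card := by
  unfold nc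
  congr!

/-- union bound -/
theorem ub {Ω ι : Type} [Fintype Ω] (J : Finset ι) (P : Ω → Prop) (Q : ι → Ω → Prop)
    (h : ∀ ω, P ω → ∃ a ∈ J, Q a ω) : nc P ≤ ∑ a ∈ J, nc (Q a) := by
  classical
  simp only [nc_eq]
  refine le_trans (card_le_card fun ω hω => ?_) card_biUnion_le
  rw [mem_filter] at hω
  obtain ⟨a, ha, hQ⟩ := h ω hω.2
  rw [mem_biUnion]
  exact ⟨a, ha, mem_filter.2 ⟨mem_univ _, hQ⟩⟩

/-- enumeration of a finite set -/
noncomputable def en (S : Finset ℕ) (j : ℕ) : ℕ :=
  if h : j < S.card then S.orderEmbOfFin rfl ⟨j, h⟩ else 0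

theorem en_mem {S : Finset ℕ} {j : ℕ} (h : j < S.card) : en S j ∈ S := by
  unfold en
  rw [dif_pos h]
  exact orderEmbOfFin_mem _ _ _

theorem en_inj {S : Finset ℕ} {i j : ℕ} (hi : i < S.card) (hj : j < S.card)
    (h : en S i = en S j) : i = j := by
  unfold en at h
  rw [dif_pos hi, dif_pos hj] at h
  have := (S.orderEmbOfFin rfl).injective h
  exact congrArg Fin.val this

theorem prod_en (S : Finset ℕ) {m : ℕ} (hm : S.card = m) (g : ℕ → ℝ) :
    ∏ j : Fin m, g (en S j) = ∏ i ∈ S, g i := by
  subst hm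
  have h1 : (univ : Finset (Fin S.card)).image (fun j : Fin S.card => en S j) = S := by
    apply eq_of_subset_of_card_le
    · intro i hi
      rw [mem_image] at hi
      obtain ⟨j, -, rfl⟩ := hi
      exact en_mem j.2
    · rw [card_image_of_injective _ fun i j h => Fin.ext (en_inj i.2 j.2 h), card_univ,
        Fintype.card_fin]
  conv_rhs => rw [← h1]
  rw [prod_image fun i _ j _ h => Fin.ext (en_inj i.2 j.2 h)]

/-- masking of the coordinates in the range of `z` -/
def mk {X : Type} {k m : ℕ} (x₀ : X) (z : Fin m → Fin k) (ω : Fin k → X) : Fin k → X :=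
  fun i => if i ∈ univ.image z then x₀ else ω i

theorem mk_congr {X : Type} {k m : ℕ} (x₀ : X) (z : Fin m → Fin k) {ω ω' : Fin k → X}
    (h : ∀ i, (∀ j, z j ≠ i) → ω i = ω' i) : mk x₀ z ω = mk x₀ z ω' := by
  funext i
  unfold mk
  by_cases hi : i ∈ univ.image z
  · rw [if_pos hi, if_pos hi]
  · rw [if_neg hi, if_neg hi]
    apply h
    intro j hj
    exact hi (mem_image.2 ⟨j, mem_univ _, hj⟩)

theorem stt_card (b : ℕ → Bool) (L : ℕ) : (stt b L).card ≤ L := by
  unfold stt
  refine le_trans (card_filter_le _ _) ?_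
  rw [Nat.card_Ico]
  omega

theorem cat_congr {e e' : ℕ → Bool} {t0 : ℕ} (h : ∀ s < t0, e s = e' s) (b : ℕ → Bool) :
    cat e t0 b = cat e' t0 b := by
  funext s
  unfold cat
  by_cases hs : s < t0
  · rw [if_pos hs, if_pos hs, h s hs]
  · rw [if_neg hs, if_neg hs]

end PdxL

open PdxL in
/-- [PDX] -/
theorem pdx (hF : S_FAC) (hW : S_WSUM) : S_PDX := by
  intro X _ k t0 Λ N1 d β x M x₀ E Sil Okp Ev D Bad hx hM hD hDc hmask hbad hprob
  classical
  set B : ℝ := (5 / 6) ^ β * ((Λ + 1) * (3 / 2) ^ d) ^ N1 * Real.exp 4 *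
    Real.exp (12 * (k * x) * M) with hB
  have hB0 : 0 ≤ B := by positivity
  have hX : 0 < Fintype.card X := Fintype.card_pos_iff.2 ⟨x₀⟩
  let Fil : (L : ℕ) → (Fin L → Bool) → ℕ → Finset (Finset ℕ) := fun L w m =>
    (stt (ext w) L).powerset.filter (fun F => (F.card ≤ N1 ∧ ∀ i ∈ F, ln (ext w) L i ≤ d) ∧
      (stt (ext w) L \ F).card = m)
  let A : (L m : ℕ) → (Fin m → Fin k) → (Fin L → Bool) → (Fin k → X) → Prop :=
    fun L m z w ω => Okp (cat (E (mk x₀ z ω)) t0 (ext w)) L ∧ (0 < L → ext w 0 = true) ∧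
      ((range L).filter fun i => ext w i = false).card = β
  let Bp : (L m : ℕ) → (Fin m → Fin k) → (Fin L → Bool) → Finset ℕ → (Fin k → X) → Fin m →
      X → Prop := fun L m z w F ω j y =>
    Ev (cat (E (mk x₀ z ω)) t0 (ext w)) (t0 + en (stt (ext w) L \ F) j)
      (t0 + en (stt (ext w) L \ F) j + ln (ext w) L (en (stt (ext w) L \ F) j) - 1) y
  let Q : (L m : ℕ) → (Fin m → Fin k) → (Fin L → Bool) → Finset ℕ → (Fin k → X) → Prop :=
    fun L m z w F ω => A L m z w ω ∧ ∀ j, Bp L m z w F ω j (ω (z j))
  -- the union bound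
  have h1 : nc Bad ≤ ∑ L ∈ range (Λ + 1),
      ∑ m ∈ range (Λ + 1), ∑ z ∈ univ.filter (fun z : Fin m → Fin k => Function.Injective z),
        ∑ w : Fin L → Bool, ∑ F ∈ Fil L w m, nc (Q L m z w F) := by
    refine le_trans (ub (range (Λ + 1)) _ (fun L ω => ∃ m ∈ range (Λ + 1),
      ∃ z ∈ univ.filter (fun z : Fin m → Fin k => Function.Injective z),
      ∃ w ∈ (univ : Finset (Fin L → Bool)), ∃ F ∈ Fil L w m, Q L m z w F ω) ?_) ?_
    · intro ω hω
      obtain ⟨L, hL, w, g1, g2, g3, Z, f, g4, g5, g6⟩ := hbad ω hω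
      set F := (stt (ext w) L).filter fun i => f i ∈ Z with hFd
      set S := stt (ext w) L \ F with hS
      have hSm : ∀ i ∈ S, i ∈ stt (ext w) L ∧ f i ∉ Z := by
        intro i hi
        rw [hS, mem_sdiff, hFd, mem_filter] at hi
        exact ⟨hi.1, fun h => hi.2 ⟨hi.1, h⟩⟩
      have hcard : S.card ≤ L := le_trans (card_le_card sdiff_subset) (stt_card _ _)
      have hz : Function.Injective (fun j : Fin S.card => f (en S j)) := by
        intro i j hij
        have := g6 _ (hSm _ (en_mem i.2)).1 _ (hSm _ (en_mem j.2)).1 hij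
        exact Fin.ext (en_inj i.2 j.2 this)
      have hE : ∀ s < t0, E ω s = E (mk x₀ (fun j : Fin S.card => f (en S j)) ω) s := by
        intro s hs
        refine hmask ω (univ.image (fun j : Fin S.card => f (en S j))) ?_ s hs
        intro y hy
        rw [mem_image] at hy
        obtain ⟨j, -, rfl⟩ := hy
        have h2 := hSm _ (en_mem j.2)
        exact ((g5 _ h2.1).2 h2.2).1
      refine ⟨L, mem_range.2 (by omega), S.card, mem_range.2 (by omega), _,
        mem_filter.2 ⟨mem_univ _, hz⟩, w, mem_univ _, F, ?_, ?_⟩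
      · refine mem_filter.2 ⟨mem_powerset.2 (filter_subset _ _), ⟨?_, ?_⟩, rfl⟩
        · refine le_trans ?_ g4
          rw [← card_image_of_injOn (s := F) (f := f)]
          · refine card_le_card fun y hy => ?_
            rw [mem_image] at hy
            obtain ⟨i, hi, rfl⟩ := hy
            exact (mem_filter.1 hi).2
          · intro i hi j hj hij
            exact g6 _ (mem_filter.1 (mem_coe.1 hi)).1 _ (mem_filter.1 (mem_coe.1 hj)).1 hij
        · intro i hi
          have := mem_filter.1 hi
          exact (g5 i this.1).1 this.2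
      · refine ⟨⟨?_, g2, g3⟩, ?_⟩
        · rw [← cat_congr hE]
          exact g1
        · intro j
          show Ev (cat (E (mk x₀ _ ω)) t0 (ext w)) _ _ _
          rw [← cat_congr hE]
          have h2 := hSm _ (en_mem j.2)
          exact ((g5 _ h2.1).2 h2.2).2
    · refine sum_le_sum fun L _ => ?_
      refine le_trans (ub (range (Λ + 1)) _ (fun m ω =>
        ∃ z ∈ univ.filter (fun z : Fin m → Fin k => Function.Injective z),
        ∃ w ∈ (univ : Finset (Fin L → Bool)), ∃ F ∈ Fil L w m, Q L m z w F ω)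
        (fun ω h => h)) ?_
      refine sum_le_sum fun m _ => ?_
      refine le_trans (ub (univ.filter (fun z : Fin m → Fin k => Function.Injective z)) _
        (fun z ω => ∃ w ∈ (univ : Finset (Fin L → Bool)), ∃ F ∈ Fil L w m, Q L m z w F ω)
        (fun ω h => h)) ?_
      refine sum_le_sum fun z _ => ?_
      refine le_trans (ub (univ : Finset (Fin L → Bool)) _
        (fun w ω => ∃ F ∈ Fil L w m, Q L m z w F ω) (fun ω h => h)) ?_
      refine sum_le_sum fun w _ => ?_
      exact ub (Fil L w m) _ (fun F ω => Q L m z w F ω) (fun ω h => h)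
  -- the estimate for given `L`, `m`, `z`
  have h2 : ∀ L ∈ range (Λ + 1), ∀ m ∈ range (Λ + 1),
      ∀ z ∈ univ.filter (fun z : Fin m → Fin k => Function.Injective z),
      (k : ℝ) ^ m * (∑ w : Fin L → Bool, ∑ F ∈ Fil L w m,
        nc (Q L m z w F) : ℕ) ≤ (Fintype.card X : ℝ) ^ k * B := by
    intro L hL m hm z hz
    have hL' : L ≤ Λ := by
      rw [mem_range] at hL
      omega
    have hzi : Function.Injective z := (mem_filter.1 hz).2
    -- the weight of a column
    let G : (Fin k → X) → (Fin L → Bool) → ℕ → ℝ := fun ω w i =>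
      x * D (cat (E (mk x₀ z ω)) t0 (ext w)) (t0 + i) *
        (ln (ext w) L i * (1 / 2) ^ (ln (ext w) L i - 1))
    have hG0 : ∀ ω w i, 0 ≤ G ω w i := by
      intro ω w i
      have := hD (cat (E (mk x₀ z ω)) t0 (ext w)) (t0 + i)
      positivity
    have h3 : ∀ w F, F ∈ Fil L w m → (nc (Q L m z w F) : ℝ) ≤
        ∑ ω : Fin k → X, if A L m z w ω then ∏ i ∈ stt (ext w) L \ F, G ω w i else 0 := by
      intro w F hFm
      obtain ⟨hF1, -, hF3⟩ := mem_filter.1 hFm
      have h4 := hF X k m z hzi (A L m z w) (Bp L m z w F) (by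
        intro ω ω' hωω
        have h5 := mk_congr x₀ z hωω
        constructor
        · show (Okp (cat (E (mk x₀ z ω)) t0 (ext w)) L ∧ _) ↔
            (Okp (cat (E (mk x₀ z ω')) t0 (ext w)) L ∧ _)
          rw [h5]
        · intro j y
          show Ev (cat (E (mk x₀ z ω)) t0 (ext w)) _ _ y ↔
            Ev (cat (E (mk x₀ z ω')) t0 (ext w)) _ _ y
          rw [h5])
      have hXm : (0 : ℝ) < (Fintype.card X : ℝ) ^ m := by
        have : (0 : ℝ) < Fintype.card X := by exact_mod_cast hX
        positivity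
      refine le_of_mul_le_mul_right ?_ hXm
      have h5 : (nc (Q L m z w F) : ℝ) * (Fintype.card X : ℝ) ^ m =
          ∑ ω : Fin k → X, if A L m z w ω then
            ∏ j, ((univ.filter fun y => Bp L m z w F ω j y).card : ℝ) else 0 := by
        have h6 := congrArg (Nat.cast : ℕ → ℝ) h4
        rw [Nat.cast_mul, Nat.cast_pow, Nat.cast_sum] at h6
        refine Eq.trans ?_ (h6.trans ?_)
        · rw [nc_eq]
          congr!
        · refine sum_congr rfl fun ω _ => ?_
          rw [Nat.cast_ite, Nat.cast_prod, Nat.cast_zero]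
          congr!
      rw [h5, sum_mul]
      refine sum_le_sum fun ω _ => ?_
      by_cases hA : A L m z w ω
      · rw [if_pos hA, if_pos hA]
        have h7 : (∏ i ∈ stt (ext w) L \ F, G ω w i) * (Fintype.card X : ℝ) ^ m =
            ∏ j : Fin m, (Fintype.card X * G ω w (en (stt (ext w) L \ F) j)) := by
          rw [← prod_en _ hF3 (G ω w), show (∏ j : Fin m, (Fintype.card X : ℝ) *
            G ω w (en (stt (ext w) L \ F) j)) = (∏ _j : Fin m, (Fintype.card X : ℝ)) *
              ∏ j : Fin m, G ω w (en (stt (ext w) L \ F) j) from prod_mul_distrib, prod_const,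
            card_univ, Fintype.card_fin]
          exact mul_comm _ _
        rw [h7]
        refine prod_le_prod (fun j _ => Nat.cast_nonneg _) fun j _ => ?_
        have hmem : en (stt (ext w) L \ F) j ∈ stt (ext w) L :=
          (mem_sdiff.1 (en_mem (by rw [hF3]; exact j.2))).1
        exact (hprob (E (mk x₀ z ω)) L w hL' hA.1).1 _ hmem
      · rw [if_neg hA, if_neg hA, zero_mul]
    have h4 : ((∑ w : Fin L → Bool, ∑ F ∈ Fil L w m,
        nc (Q L m z w F) : ℕ) : ℝ) ≤
        ∑ ω : Fin k → X, ∑ w ∈ univ.filter (fun w => A L m z w ω), ∑ F ∈ Fil L w m,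
          ∏ i ∈ stt (ext w) L \ F, G ω w i := by
      rw [Nat.cast_sum]
      calc (∑ w : Fin L → Bool, ((∑ F ∈ Fil L w m,
            nc (Q L m z w F) : ℕ) : ℝ))
          ≤ ∑ w : Fin L → Bool, ∑ ω : Fin k → X, (if A L m z w ω then
              ∑ F ∈ Fil L w m, ∏ i ∈ stt (ext w) L \ F, G ω w i else 0) := by
            refine sum_le_sum fun w _ => ?_
            rw [Nat.cast_sum]
            refine le_trans (sum_le_sum fun F hFm => h3 w F hFm) ?_
            rw [sum_comm]
            refine sum_le_sum fun ω _ => ?_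
            by_cases hA : A L m z w ω
            · simp only [if_pos hA]
              exact le_rfl
            · simp only [if_neg hA]
              rw [sum_const_zero]
        _ = _ := by
            rw [sum_comm]
            refine sum_congr rfl fun ω _ => ?_
            rw [sum_filter]
    have h5 : ∀ ω : Fin k → X, (k : ℝ) ^ m * ∑ w ∈ univ.filter (fun w => A L m z w ω),
        ∑ F ∈ Fil L w m, ∏ i ∈ stt (ext w) L \ F, G ω w i ≤ B := by
      intro ω
      set e := E (mk x₀ z ω) with he
      have h6 := hW L N1 d β (k * x) M (fun b i => D (cat e t0 b) (t0 + i))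
        (univ.filter (fun w => A L m z w ω)) (by positivity) hM (fun b i => hD _ _) (by
          intro b b' i hbb
          refine hDc _ _ _ fun s hs => ?_
          unfold cat
          by_cases h : s < t0
          · rw [if_pos h, if_pos h]
          · rw [if_neg h, if_neg h]
            exact hbb _ (by omega)) (by
          intro w hw
          obtain ⟨a1, a2, a3⟩ := (mem_filter.1 hw).2
          exact ⟨a2, a3, (hprob e L w hL' a1).2⟩)
      have h7 : (5 / 6 : ℝ) ^ β * ((L + 1) * (3 / 2) ^ d) ^ N1 * Real.exp 4 *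
          Real.exp (12 * (k * x) * M) ≤ B := by
        rw [hB]
        have : (L : ℝ) ≤ Λ := by exact_mod_cast hL'
        gcongr
      refine le_trans ?_ (le_trans h6 h7)
      rw [mul_sum]
      refine sum_le_sum fun w _ => ?_
      rw [mul_sum]
      calc ∑ F ∈ Fil L w m, (k : ℝ) ^ m * ∏ i ∈ stt (ext w) L \ F, G ω w i
          = ∑ F ∈ Fil L w m, ∏ i ∈ stt (ext w) L \ F, (k * x * D (cat e t0 (ext w)) (t0 + i) *
              (ln (ext w) L i * (1 / 2) ^ (ln (ext w) L i - 1))) := by
            refine sum_congr rfl fun F hFm => ?_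
            obtain ⟨-, -, hF3⟩ := mem_filter.1 hFm
            rw [← hF3, ← prod_const, ← prod_mul_distrib]
            refine prod_congr rfl fun i _ => ?_
            show (k : ℝ) * (x * D (cat e t0 (ext w)) (t0 + i) * _) = _
            ring
        _ ≤ _ := by
            refine sum_le_sum_of_subset_of_nonneg ?_ ?_
            · intro F hFm
              obtain ⟨a1, a2, -⟩ := mem_filter.1 hFm
              exact mem_filter.2 ⟨a1, a2⟩
            · intro F _ _
              refine prod_nonneg fun i _ => ?_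
              have := hD (cat e t0 (ext w)) (t0 + i)
              positivity
    calc (k : ℝ) ^ m * ((∑ w : Fin L → Bool, ∑ F ∈ Fil L w m,
          nc (Q L m z w F) : ℕ) : ℝ)
        ≤ (k : ℝ) ^ m * ∑ ω : Fin k → X, ∑ w ∈ univ.filter (fun w => A L m z w ω),
            ∑ F ∈ Fil L w m, ∏ i ∈ stt (ext w) L \ F, G ω w i :=
          mul_le_mul_of_nonneg_left h4 (by positivity)
      _ ≤ ∑ ω : Fin k → X, B := by
          rw [mul_sum]
          exact sum_le_sum fun ω _ => h5 ω
      _ = (Fintype.card X : ℝ) ^ k * B := by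
          rw [sum_const, card_univ, Fintype.card_fun, Fintype.card_fin, nsmul_eq_mul]
          push_cast
          ring
  -- the sum over `z`
  have h3 : ∀ L ∈ range (Λ + 1), ∀ m ∈ range (Λ + 1),
      ((∑ z ∈ univ.filter (fun z : Fin m → Fin k => Function.Injective z),
        ∑ w : Fin L → Bool, ∑ F ∈ Fil L w m, nc (Q L m z w F) : ℕ) : ℝ) ≤
      (Fintype.card X : ℝ) ^ k * B := by
    intro L hL m hm
    have hXB : 0 ≤ (Fintype.card X : ℝ) ^ k * B := by positivity
    by_cases hkm : (k : ℝ) ^ m = 0
    · -- no functions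
      have hk : k ^ m = 0 := by exact_mod_cast hkm
      have : IsEmpty (Fin m → Fin k) := by
        rw [← Fintype.card_eq_zero_iff, Fintype.card_fun, Fintype.card_fin, Fintype.card_fin]
        exact hk
      rw [sum_eq_zero]
      · rw [Nat.cast_zero]
        exact hXB
      · intro z _
        exact isEmptyElim z
    · have hpos : 0 < (k : ℝ) ^ m := lt_of_le_of_ne (by positivity) (Ne.symm hkm)
      rw [Nat.cast_sum]
      calc (∑ z ∈ univ.filter (fun z : Fin m → Fin k => Function.Injective z),
            ((∑ w : Fin L → Bool, ∑ F ∈ Fil L w m,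
              nc (Q L m z w F) : ℕ) : ℝ))
          ≤ ∑ z ∈ univ.filter (fun z : Fin m → Fin k => Function.Injective z),
              ((Fintype.card X : ℝ) ^ k * B) / (k : ℝ) ^ m := by
            refine sum_le_sum fun z hz => ?_
            rw [le_div_iff₀ hpos, mul_comm]
            exact h2 L hL m hm z hz
        _ ≤ (k : ℝ) ^ m * (((Fintype.card X : ℝ) ^ k * B) / (k : ℝ) ^ m) := by
            rw [sum_const, nsmul_eq_mul]
            refine mul_le_mul_of_nonneg_right ?_ (by positivity)
            have : (univ.filter (fun z : Fin m → Fin k => Function.Injective z)).card ≤ k ^ m := by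
              refine le_trans (card_filter_le _ _) ?_
              rw [card_univ, Fintype.card_fun, Fintype.card_fin, Fintype.card_fin]
            exact_mod_cast this
        _ = (Fintype.card X : ℝ) ^ k * B := by
            field_simp
  rw [show ((univ.filter fun ω : Fin k → X => Bad ω).card : ℝ) = nc Bad by rw [nc_eq]]
  calc (nc Bad : ℝ)
      ≤ ((∑ L ∈ range (Λ + 1),
      ∑ m ∈ range (Λ + 1), ∑ z ∈ univ.filter (fun z : Fin m → Fin k => Function.Injective z),
        ∑ w : Fin L → Bool, ∑ F ∈ Fil L w m, nc (Q L m z w F) : ℕ) : ℝ) := by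
        exact_mod_cast h1
    _ ≤ ∑ L ∈ range (Λ + 1), ∑ m ∈ range (Λ + 1), (Fintype.card X : ℝ) ^ k * B := by
        rw [Nat.cast_sum]
        refine sum_le_sum fun L hL => ?_
        rw [Nat.cast_sum]
        exact sum_le_sum fun m hm => h3 L hL m hm
    _ = (Fintype.card X : ℝ) ^ k * (((Λ : ℝ) + 1) ^ 2 * B) := by
        rw [sum_const, sum_const, card_range, nsmul_eq_mul, nsmul_eq_mul]
        push_cast
        ring

end Pool.Agent.Helper57K9.XZ
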