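import Pool.Agent.Helper57K9.XZ.One

/-!
# [PU] the exponential weight (helper71)
-/

set_option autoImplicit false

namespace Pool.Agent.Helper57K9.XZ

open Finset Pool.Agent.Helper5K9.ZN

namespace PuL

theorem stp_bd (b : Bool) (U : ℕ → ℝ) (c : ℝ) (hc : 0 ≤ c) (hU : ∀ h, 0 ≤ U h ∧ U h ≤ c) (h : ℕ) :
    0 ≤ stp b U h ∧ stp b U h ≤ c := by
  unfold stp
  obtain ⟨h1, h2⟩ := hU h
  obtain ⟨h3, h4⟩ := hU (h + 1)
  obtain ⟨h5, h6⟩ := hU (h - 1)
  split_ifs <;> constructor <;> linarith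

theorem prof_bd (e : ℕ → Bool) (t : ℕ) : ∀ h, 0 ≤ prof e t h ∧ prof e t h ≤ (t : ℝ) + 1 := by
  induction t with
  | zero =>
    intro h
    show 0 ≤ (1 : ℝ) ∧ (1 : ℝ) ≤ ((0 : ℕ) : ℝ) + 1
    norm_num
  | succ t ih =>
    intro h
    have h1 := stp_bd (e t) (prof e t) ((t : ℝ) + 1) (by positivity) ih h
    show 0 ≤ stp (e t) (prof e t) h + 1 ∧ stp (e t) (prof e t) h + 1 ≤ ((t + 1 : ℕ) : ℝ) + 1
    push_cast
    constructor <;> linarith [h1.1, h1.2]

theorem summ (U : ℕ → ℝ) (c x : ℝ) (hU : ∀ h, 0 ≤ U h ∧ U h ≤ c) (hx0 : 0 < x) (hx1 : x < 1) :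
    Summable fun h => U h * x ^ h := by
  apply Summable.of_nonneg_of_le (fun h => mul_nonneg (hU h).1 (by positivity)) (fun h => ?_)
    ((summable_geometric_of_lt_one hx0.le hx1).mul_left c)
  exact mul_le_mul_of_nonneg_right (hU h).2 (by positivity)

/-- the generating function -/
noncomputable def gf (U : ℕ → ℝ) (x : ℝ) : ℝ := ∑' h, U h * x ^ h

theorem gf_nonneg (U : ℕ → ℝ) (x : ℝ) (hU : ∀ h, 0 ≤ U h) (hx0 : 0 < x) : 0 ≤ gf U x :=
  tsum_nonneg fun h => mul_nonneg (hU h) (by positivity)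

/-- one step -/
theorem gf_step (b : Bool) (U : ℕ → ℝ) (c x : ℝ) (hU : ∀ h, 0 ≤ U h ∧ U h ≤ c) (hx0 : 0 < x) (hx1 : x < 1) :
    gf (fun h => stp b U h + 1) x =
      (if b then (gf U x + (gf U x - U 0) / x) / 2 else (1 + x) / 2 * gf U x) + (1 - x)⁻¹ := by
  have hs := summ U c x hU hx0 hx1
  have hg := summable_geometric_of_lt_one hx0.le hx1
  have hU' : ∀ h, 0 ≤ U (h + 1) ∧ U (h + 1) ≤ c := fun h => hU (h + 1)
  have hs' := summ (fun h => U (h + 1)) c x hU' hx0 hx1
  have h0 : gf U x = U 0 + x * ∑' h, U (h + 1) * x ^ h := by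
    unfold gf
    rw [hs.tsum_eq_zero_add, ← tsum_mul_left]
    congr 1
    · ring
    · exact tsum_congr fun h => by ring
  cases b with
  | true =>
    simp only [if_true]
    have h1 : gf (fun h => stp true U h + 1) x =
        ∑' h, ((U h * x ^ h + U (h + 1) * x ^ h) / 2 + x ^ h) := by
      unfold gf
      refine tsum_congr fun h => ?_
      unfold stp
      simp only [if_true]
      ring
    rw [h1, ((hs.add hs').div_const 2).tsum_add hg, tsum_div_const, hs.tsum_add hs',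
      tsum_geometric_of_lt_one hx0.le hx1]
    have h2 : ∑' h, U (h + 1) * x ^ h = (gf U x - U 0) / x := by
      rw [h0]
      field_simp
      ring
    rw [h2]
    rfl
  | false =>
    simp only [Bool.false_eq_true, if_false]
    set V : ℕ → ℝ := fun h => if h = 0 then 0 else U (h - 1) with hV
    have hVb : ∀ h, 0 ≤ V h ∧ V h ≤ c := by
      intro h
      rw [hV]
      simp only
      split_ifs
      · exact ⟨le_rfl, (hU 0).1.trans (hU 0).2⟩
      · exact hU _
    have hsV := summ V c x hVb hx0 hx1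
    have h1 : gf (fun h => stp false U h + 1) x = ∑' h, ((U h * x ^ h + V h * x ^ h) / 2 + x ^ h) := by
      unfold gf
      refine tsum_congr fun h => ?_
      unfold stp
      simp only [Bool.false_eq_true, if_false]
      rw [hV]
      ring
    rw [h1, ((hs.add hsV).div_const 2).tsum_add hg, tsum_div_const, hs.tsum_add hsV,
      tsum_geometric_of_lt_one hx0.le hx1]
    have h2 : ∑' h, V h * x ^ h = x * gf U x := by
      rw [hsV.tsum_eq_zero_add]
      unfold gf
      rw [← tsum_mul_left]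
      have h3 : V 0 * x ^ 0 = 0 := by
        rw [hV]
        simp
      rw [h3, zero_add]
      refine tsum_congr fun h => ?_
      rw [hV]
      simp only [Nat.add_sub_cancel, Nat.succ_ne_zero, if_false]
      ring
    rw [h2]
    show (gf U x + x * gf U x) / 2 + (1 - x)⁻¹ = _
    ring

theorem WW_succ (c : ℕ → Bool) (t : ℕ) : WW c (t + 1) = WW c t + sgn (c t) := by
  unfold WW
  rw [sum_range_succ]

theorem cosh_le (θ : ℝ) : (Real.exp (θ / 2) + Real.exp (-(θ / 2))) / 2 ≤ Real.exp (θ ^ 2 / 8) := by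
  rw [← Real.cosh_eq]
  have := Real.cosh_le_exp_half_sq (θ / 2)
  calc Real.cosh (θ / 2) ≤ Real.exp ((θ / 2) ^ 2 / 2) := this
    _ = _ := by congr 1; ring

/-- the potential -/
noncomputable def Ph (e : ℕ → Bool) (B : ℤ) (θ : ℝ) (t1 t : ℕ) : ℝ :=
  gf (prof e t) (Real.exp (-θ)) * Real.exp (θ * ((B : ℝ) - WW e t) / 2 + θ ^ 2 * ((t1 : ℝ) - t) / 8)

theorem step (e : ℕ → Bool) (B : ℤ) (θ : ℝ) (hθ : 0 < θ) (t1 t W : ℕ) (ht : t < t1)
    (hG : θ ^ 2 * ((t1 : ℝ) - (t + 1)) ≤ 1)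
    (hd : WW e (t + 1) ≤ B) (hd' : B - W ≤ WW e (t + 1)) :
    Ph e B θ t1 (t + 1) + (if e t then prof e t 0 / 2 else 0) ≤
      Ph e B θ t1 t + Real.exp (θ * W / 2 + 1 / 8) * (1 - Real.exp (-θ))⁻¹ := by
  have hx0 : 0 < Real.exp (-θ) := Real.exp_pos _
  have hx1 : Real.exp (-θ) < 1 := by
    rw [Real.exp_lt_one_iff]
    linarith
  have hU := prof_bd e t
  have hgs := gf_step (e t) (prof e t) _ (Real.exp (-θ)) hU hx0 hx1
  have hg0 : 0 ≤ gf (prof e t) (Real.exp (-θ)) := gf_nonneg _ _ (fun h => (hU h).1) hx0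
  have hinv : 0 < (1 - Real.exp (-θ))⁻¹ := inv_pos.2 (by linarith)
  have hU0 := (hU 0).1
  have ht' : (t : ℝ) + 1 ≤ t1 := by exact_mod_cast ht
  set S := gf (prof e t) (Real.exp (-θ)) with hS
  have hprof : gf (prof e (t + 1)) (Real.exp (-θ)) = gf (fun h => stp (e t) (prof e t) h + 1) (Real.exp (-θ)) := rfl
  unfold Ph
  rw [hprof, hgs, ← hS]
  set D : ℝ := (B : ℝ) - WW e t with hD
  -- the last factor
  obtain ⟨F, hF⟩ : ∃ F, F = Real.exp (θ * ((B : ℝ) - WW e (t + 1)) / 2 + θ ^ 2 * ((t1 : ℝ) - ((t + 1 : ℕ) : ℝ)) / 8) :=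
    ⟨_, rfl⟩
  rw [← hF]
  have hF0 : 0 < F := by rw [hF]; exact Real.exp_pos _
  have hdr : (0 : ℝ) ≤ (B : ℝ) - WW e (t + 1) := by
    have : (WW e (t + 1) : ℝ) ≤ B := by exact_mod_cast hd
    linarith
  have hdr' : (B : ℝ) - WW e (t + 1) ≤ W := by
    have : ((B - W : ℤ) : ℝ) ≤ WW e (t + 1) := by exact_mod_cast hd'
    push_cast at this
    linarith
  have hFle : F ≤ Real.exp (θ * W / 2 + 1 / 8) := by
    rw [hF]
    apply Real.exp_le_exp.2
    push_cast
    have h1 : θ * ((B : ℝ) - WW e (t + 1)) ≤ θ * W := mul_le_mul_of_nonneg_left hdr' hθ.le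
    linarith
  have hF1 : 1 ≤ F := by
    rw [hF]
    apply Real.one_le_exp
    push_cast
    have h1 : 0 ≤ θ * ((B : ℝ) - WW e (t + 1)) := mul_nonneg hθ.le hdr
    have h2 : 0 ≤ θ ^ 2 * ((t1 : ℝ) - (t + 1)) := mul_nonneg (by positivity) (by linarith)
    linarith
  have hinj : (1 - Real.exp (-θ))⁻¹ * F ≤ Real.exp (θ * W / 2 + 1 / 8) * (1 - Real.exp (-θ))⁻¹ := by
    rw [mul_comm]
    exact mul_le_mul_of_nonneg_right hFle hinv.le
  have hc := cosh_le θ
  -- the comparison of the factors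
  have hWs := WW_succ e t
  rcases Bool.eq_false_or_eq_true (e t) with hb | hb
  · rw [hb] at hWs ⊢
    simp only [if_true]
    have hWr : (WW e (t + 1) : ℝ) = WW e t + 1 := by
      rw [hWs]
      simp [sgn]
    have hFe : F = Real.exp (θ * D / 2 + θ ^ 2 * ((t1 : ℝ) - t) / 8) * (Real.exp (-(θ / 2)) * Real.exp (-(θ ^ 2 / 8))) := by
      rw [hF, hWr, hD, ← Real.exp_add, ← Real.exp_add]
      congr 1
      push_cast
      ring
    obtain ⟨E, hE⟩ : ∃ E, E = Real.exp (θ * D / 2 + θ ^ 2 * ((t1 : ℝ) - t) / 8) := ⟨_, rfl⟩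
    rw [← hE] at hFe ⊢
    have hE0 : 0 < E := by rw [hE]; exact Real.exp_pos _
    have hxi : (1 : ℝ) / Real.exp (-θ) = Real.exp θ := by
      rw [Real.exp_neg, one_div, inv_inv]
    have h1 : ((S + (S - prof e t 0) / Real.exp (-θ)) / 2 + (1 - Real.exp (-θ))⁻¹) * F =
        S * ((1 + Real.exp θ) / 2 * F) - prof e t 0 / 2 * (Real.exp θ * F) + (1 - Real.exp (-θ))⁻¹ * F := by
      rw [← hxi]
      ring
    rw [h1]
    have h2 : (1 + Real.exp θ) / 2 * F ≤ E := by
      have h3 : (1 + Real.exp θ) * Real.exp (-(θ / 2)) = Real.exp (θ / 2) + Real.exp (-(θ / 2)) := by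
        rw [add_mul, one_mul, ← Real.exp_add, add_comm]
        congr 2
        ring
      have h4 : (1 + Real.exp θ) / 2 * F = E * (((Real.exp (θ / 2) + Real.exp (-(θ / 2))) / 2) * Real.exp (-(θ ^ 2 / 8))) := by
        rw [hFe, ← h3]
        ring
      rw [h4]
      apply mul_le_of_le_one_right hE0.le
      calc ((Real.exp (θ / 2) + Real.exp (-(θ / 2))) / 2) * Real.exp (-(θ ^ 2 / 8))
          ≤ Real.exp (θ ^ 2 / 8) * Real.exp (-(θ ^ 2 / 8)) :=
            mul_le_mul_of_nonneg_right hc (Real.exp_pos _).le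
        _ = 1 := by rw [← Real.exp_add]; simp
    have h5 : S * ((1 + Real.exp θ) / 2 * F) ≤ S * E := mul_le_mul_of_nonneg_left h2 hg0
    have h6 : (1 : ℝ) ≤ Real.exp θ * F := by
      have : 1 ≤ Real.exp θ := Real.one_le_exp hθ.le
      nlinarith
    have h7 : prof e t 0 / 2 * 1 ≤ prof e t 0 / 2 * (Real.exp θ * F) :=
      mul_le_mul_of_nonneg_left h6 (by linarith)
    linarith
  · rw [hb] at hWs ⊢
    simp only [Bool.false_eq_true, if_false]
    have hWr : (WW e (t + 1) : ℝ) = WW e t - 1 := by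
      rw [hWs]
      simp [sgn]
      ring
    have hFe : F = Real.exp (θ * D / 2 + θ ^ 2 * ((t1 : ℝ) - t) / 8) * (Real.exp (θ / 2) * Real.exp (-(θ ^ 2 / 8))) := by
      rw [hF, hWr, hD, ← Real.exp_add, ← Real.exp_add]
      congr 1
      push_cast
      ring
    obtain ⟨E, hE⟩ : ∃ E, E = Real.exp (θ * D / 2 + θ ^ 2 * ((t1 : ℝ) - t) / 8) := ⟨_, rfl⟩
    rw [← hE] at hFe ⊢
    have hE0 : 0 < E := by rw [hE]; exact Real.exp_pos _
    have h2 : (1 + Real.exp (-θ)) / 2 * F ≤ E := by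
      have h3 : (1 + Real.exp (-θ)) * Real.exp (θ / 2) = Real.exp (θ / 2) + Real.exp (-(θ / 2)) := by
        rw [add_mul, one_mul, ← Real.exp_add]
        congr 2
        ring
      have h4 : (1 + Real.exp (-θ)) / 2 * F = E * (((Real.exp (θ / 2) + Real.exp (-(θ / 2))) / 2) * Real.exp (-(θ ^ 2 / 8))) := by
        rw [hFe, ← h3]
        ring
      rw [h4]
      apply mul_le_of_le_one_right hE0.le
      calc ((Real.exp (θ / 2) + Real.exp (-(θ / 2))) / 2) * Real.exp (-(θ ^ 2 / 8))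
          ≤ Real.exp (θ ^ 2 / 8) * Real.exp (-(θ ^ 2 / 8)) :=
            mul_le_mul_of_nonneg_right hc (Real.exp_pos _).le
        _ = 1 := by rw [← Real.exp_add]; simp
    have h5 : S * ((1 + Real.exp (-θ)) / 2 * F) ≤ S * E := mul_le_mul_of_nonneg_left h2 hg0
    have h6 : ((1 + Real.exp (-θ)) / 2 * S + (1 - Real.exp (-θ))⁻¹) * F =
        S * ((1 + Real.exp (-θ)) / 2 * F) + (1 - Real.exp (-θ))⁻¹ * F := by ring
    rw [h6]
    linarith

/-- the sum over the steps -/
theorem total (e : ℕ → Bool) (B : ℤ) (θ : ℝ) (hθ : 0 < θ) (s0 t1 W : ℕ) (hs : s0 ≤ t1)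
    (hG : θ ^ 2 * ((t1 : ℝ) - s0) ≤ 1)
    (hd : ∀ t : ℕ, s0 ≤ t → t ≤ t1 → B - W ≤ WW e t ∧ WW e t ≤ B) :
    ∑ t ∈ est e s0 t1, prof e t 0 ≤ 2 * (Ph e B θ t1 s0 +
      ((t1 : ℝ) - s0) * (Real.exp (θ * W / 2 + 1 / 8) * (1 - Real.exp (-θ))⁻¹)) := by
  have hx0 : 0 < Real.exp (-θ) := Real.exp_pos _
  obtain ⟨J, hJ⟩ : ∃ J, J = Real.exp (θ * W / 2 + 1 / 8) * (1 - Real.exp (-θ))⁻¹ := ⟨_, rfl⟩
  rw [← hJ]
  have key : ∀ n : ℕ, s0 + n ≤ t1 →
      ∑ t ∈ Ico s0 (s0 + n), (if e t then prof e t 0 / 2 else 0) + Ph e B θ t1 (s0 + n) ≤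
        Ph e B θ t1 s0 + n * J := by
    intro n
    induction n with
    | zero =>
      intro _
      simp
    | succ n ih =>
      intro hn
      have h1 := ih (by omega)
      have h2 : θ ^ 2 * ((t1 : ℝ) - (((s0 + n : ℕ) : ℝ) + 1)) ≤ 1 := by
        refine le_trans (mul_le_mul_of_nonneg_left ?_ (by positivity)) hG
        push_cast
        have : (0 : ℝ) ≤ n := Nat.cast_nonneg n
        linarith
      have h3 := step e B θ hθ t1 (s0 + n) W (by omega) h2 (hd (s0 + n + 1) (by omega) (by omega)).2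
        (hd (s0 + n + 1) (by omega) (by omega)).1
      rw [← hJ] at h3
      rw [← Nat.add_assoc, sum_Ico_succ_top (by omega)]
      push_cast
      linarith
  have h1 := key (t1 - s0) (by omega)
  rw [Nat.add_sub_cancel' hs, Nat.cast_sub hs] at h1
  have h2 : 0 ≤ Ph e B θ t1 t1 :=
    mul_nonneg (gf_nonneg _ _ (fun h => (prof_bd e t1 h).1) hx0) (Real.exp_pos _).le
  have h3 : ∑ t ∈ est e s0 t1, prof e t 0 = 2 * ∑ t ∈ Ico s0 t1, (if e t then prof e t 0 / 2 else 0) := by
    unfold est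
    rw [sum_filter, mul_sum]
    refine sum_congr rfl fun t _ => ?_
    split_ifs
    · ring
    · ring
  rw [h3]
  linarith

theorem inv_le (θ : ℝ) (hθ : 0 < θ) (hθ1 : θ ≤ 1) : (1 - Real.exp (-θ))⁻¹ ≤ 2 / θ := by
  have h1 : Real.exp (-θ) ≤ (1 + θ)⁻¹ := by
    rw [Real.exp_neg]
    apply inv_anti₀ (by linarith)
    have := Real.add_one_le_exp θ
    linarith
  have h2 : θ / 2 ≤ 1 - Real.exp (-θ) := by
    have h3 : (1 + θ)⁻¹ ≤ 1 - θ / 2 := by
      rw [inv_le_iff_one_le_mul₀ (by linarith)]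
      nlinarith
    linarith
  calc (1 - Real.exp (-θ))⁻¹ ≤ (θ / 2)⁻¹ := inv_anti₀ (by linarith) h2
    _ = 2 / θ := by rw [inv_div]

end PuL

open PuL in
/-- [PU] -/
theorem pu : S_PU := by
  refine ⟨20 * Real.exp (1 / 8), by positivity, fun e s0 t1 W G B A hG hs hs' hA hd hini => ?_⟩
  have hG1 : (1 : ℝ) ≤ G := by exact_mod_cast hG
  have hG0 : (0 : ℝ) < G := by linarith
  obtain ⟨r, hr⟩ : ∃ r, r = Real.sqrt (G : ℝ) := ⟨_, rfl⟩
  have hr1 : 1 ≤ r := by
    rw [hr]
    exact Real.one_le_sqrt.2 hG1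
  have hr0 : 0 < r := by linarith
  have hrr : r * r = G := by
    rw [hr]
    exact Real.mul_self_sqrt hG0.le
  rw [← hr] at hini ⊢
  obtain ⟨θ, hθ⟩ : ∃ θ, θ = 1 / r := ⟨_, rfl⟩
  have hθ0 : 0 < θ := by rw [hθ]; positivity
  have hθ1 : θ ≤ 1 := by
    rw [hθ, div_le_one hr0]
    exact hr1
  have hθr : 2 / θ = 2 * r := by
    rw [hθ]
    field_simp
  have hθ2 : θ ^ 2 * G = 1 := by
    rw [hθ, ← hrr]
    field_simp
  have hlen : (t1 : ℝ) - s0 ≤ G := by
    have : (t1 : ℝ) ≤ s0 + G := by exact_mod_cast hs'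
    linarith
  have hlen0 : (0 : ℝ) ≤ (t1 : ℝ) - s0 := by
    have : (s0 : ℝ) ≤ t1 := by exact_mod_cast hs
    linarith
  have hGl : θ ^ 2 * ((t1 : ℝ) - s0) ≤ 1 := by
    rw [← hθ2]
    exact mul_le_mul_of_nonneg_left hlen (by positivity)
  have htot := total e B θ hθ0 s0 t1 W hs hGl hd
  have hx0 : 0 < Real.exp (-θ) := Real.exp_pos _
  have hx1 : Real.exp (-θ) < 1 := by
    rw [Real.exp_lt_one_iff]
    linarith
  have hinv := inv_le θ hθ0 hθ1
  rw [hθr] at hinv
  have hinv0 : 0 < (1 - Real.exp (-θ))⁻¹ := inv_pos.2 (by linarith)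
  obtain ⟨c, hc⟩ : ∃ c, c = Real.exp ((1 : ℝ) / 8) := ⟨_, rfl⟩
  rw [← hc]
  have hc0 : 0 < c := by rw [hc]; exact Real.exp_pos _
  obtain ⟨E, hE⟩ : ∃ E, E = Real.exp ((W : ℝ) / r) := ⟨_, rfl⟩
  rw [← hE]
  have hE1 : 1 ≤ E := by
    rw [hE]
    apply Real.one_le_exp
    positivity
  have hW0 : (0 : ℝ) ≤ W := Nat.cast_nonneg W
  have hEle : Real.exp (θ * W / 2 + 1 / 8) ≤ c * E := by
    rw [hc, hE, ← Real.exp_add]
    apply Real.exp_le_exp.2
    have h1 : θ * W = W / r := by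
      rw [hθ]
      ring
    rw [h1]
    have h2 : 0 ≤ (W : ℝ) / r := by positivity
    linarith
  -- the injections
  have hinj : ((t1 : ℝ) - s0) * (Real.exp (θ * W / 2 + 1 / 8) * (1 - Real.exp (-θ))⁻¹) ≤
      G * (c * E * (2 * r)) := by
    apply mul_le_mul hlen _ (by positivity) hG0.le
    exact mul_le_mul hEle hinv hinv0.le (by positivity)
  have hrG : r ≤ G := by nlinarith
  have hinj2 : G * (c * E * (2 * r)) ≤ 2 * (c * ((G : ℝ) ^ 2 * E)) := by
    have h1 : G * (c * E * (2 * r)) = (2 * c * E * G) * r := by ring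
    have h2 : 2 * (c * ((G : ℝ) ^ 2 * E)) = (2 * c * E * G) * G := by ring
    rw [h1, h2]
    exact mul_le_mul_of_nonneg_left hrG (by positivity)
  -- the initial value
  have hG2 : 0 ≤ c * ((G : ℝ) ^ 2 * E) := by positivity
  have hAG : 0 ≤ c * (A * G) := by positivity
  have hPh : Ph e B θ t1 s0 ≤ 6 * (c * (A * G)) + 2 * (c * ((G : ℝ) ^ 2 * E)) := by
    rcases hini with ⟨hB, hA'⟩ | h0
    · have h1 : Ph e B θ t1 s0 ≤ (A * (6 * G)) * c := by
        unfold Ph
        apply mul_le_mul _ _ (Real.exp_pos _).le (by positivity)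
        · unfold gf
          have hU := prof_bd e s0
          have hsm := summ (prof e s0) _ (Real.exp (-θ)) hU hx0 hx1
          have hn : ‖Real.exp (-θ)‖ < 1 := by
            rw [Real.norm_of_nonneg hx0.le]
            exact hx1
          have hs1 : Summable fun h : ℕ => (h : ℝ) * Real.exp (-θ) ^ h := by
            have := summable_pow_mul_geometric_of_norm_lt_one 1 hn
            simpa using this
          have hs2 := summable_geometric_of_lt_one hx0.le hx1
          have hs3 : Summable fun h : ℕ => A * ((h : ℝ) * Real.exp (-θ) ^ h + r * Real.exp (-θ) ^ h) :=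
            (hs1.add (hs2.mul_left r)).mul_left A
          calc ∑' h, prof e s0 h * Real.exp (-θ) ^ h
              ≤ ∑' h : ℕ, A * ((h : ℝ) * Real.exp (-θ) ^ h + r * Real.exp (-θ) ^ h) := by
                apply hsm.tsum_le_tsum _ hs3
                intro h
                have := mul_le_mul_of_nonneg_right (hA' h) (by positivity : 0 ≤ Real.exp (-θ) ^ h)
                linarith
            _ = A * (Real.exp (-θ) / (1 - Real.exp (-θ)) ^ 2 + r * (1 - Real.exp (-θ))⁻¹) := by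
                rw [tsum_mul_left, hs1.tsum_add (hs2.mul_left r), tsum_mul_left,
                  tsum_geometric_of_lt_one hx0.le hx1, tsum_coe_mul_geometric_of_norm_lt_one hn]
            _ ≤ A * (6 * G) := by
                apply mul_le_mul_of_nonneg_left _ hA
                have h2 : Real.exp (-θ) / (1 - Real.exp (-θ)) ^ 2 ≤ 4 * G := by
                  calc Real.exp (-θ) / (1 - Real.exp (-θ)) ^ 2 =
                      Real.exp (-θ) * ((1 - Real.exp (-θ))⁻¹ * (1 - Real.exp (-θ))⁻¹) := by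
                        rw [div_eq_mul_inv, pow_two, mul_inv]
                    _ ≤ 1 * ((2 * r) * (2 * r)) := by
                        apply mul_le_mul hx1.le _ (by positivity) (by norm_num)
                        exact mul_le_mul hinv hinv hinv0.le (by positivity)
                    _ = 4 * G := by rw [← hrr]; ring
                have h3 : r * (1 - Real.exp (-θ))⁻¹ ≤ 2 * G := by
                  calc r * (1 - Real.exp (-θ))⁻¹ ≤ r * (2 * r) := mul_le_mul_of_nonneg_left hinv hr0.le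
                    _ = 2 * G := by rw [← hrr]; ring
                linarith
        · rw [hc]
          apply Real.exp_le_exp.2
          rw [hB]
          simp only [sub_self, mul_zero, zero_div, zero_add]
          linarith
      calc Ph e B θ t1 s0 ≤ (A * (6 * G)) * c := h1
        _ = 6 * (c * (A * G)) := by ring
        _ ≤ _ := by linarith
    · have h1 : Ph e B θ t1 s0 ≤ (2 * r) * (c * E) := by
        unfold Ph
        apply mul_le_mul _ _ (Real.exp_pos _).le (by positivity)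
        · rw [h0]
          have h2 : gf (prof e 0) (Real.exp (-θ)) = (1 - Real.exp (-θ))⁻¹ := by
            rw [← tsum_geometric_of_lt_one hx0.le hx1]
            unfold gf
            refine tsum_congr fun h => ?_
            show (1 : ℝ) * _ = _
            rw [one_mul]
          rw [h2]
          exact hinv
        · refine le_trans (Real.exp_le_exp.2 ?_) hEle
          have h2 := (hd s0 le_rfl hs).1
          have h3 : (B : ℝ) - WW e s0 ≤ W := by
            have : ((B - W : ℤ) : ℝ) ≤ WW e s0 := by exact_mod_cast h2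
            push_cast at this
            linarith
          have h4 := mul_le_mul_of_nonneg_left h3 hθ0.le
          linarith
      calc Ph e B θ t1 s0 ≤ (2 * r) * (c * E) := h1
        _ ≤ 2 * (c * ((G : ℝ) ^ 2 * E)) := by
            have h2 : r ≤ (G : ℝ) ^ 2 := by nlinarith
            have h3 : (2 * r) * (c * E) = (2 * (c * E)) * r := by ring
            have h4 : 2 * (c * ((G : ℝ) ^ 2 * E)) = (2 * (c * E)) * (G : ℝ) ^ 2 := by ring
            rw [h3, h4]
            exact mul_le_mul_of_nonneg_left h2 (by positivity)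
        _ ≤ _ := by linarith
  calc ∑ t ∈ est e s0 t1, prof e t 0 ≤ _ := htot
    _ ≤ 2 * ((6 * (c * (A * G)) + 2 * (c * ((G : ℝ) ^ 2 * E))) + 2 * (c * ((G : ℝ) ^ 2 * E))) := by
        linarith
    _ ≤ 20 * c * (A * G + (G : ℝ) ^ 2 * E) := by
        have h1 : 20 * c * (A * G + (G : ℝ) ^ 2 * E) = 20 * (c * (A * G)) + 20 * (c * ((G : ℝ) ^ 2 * E)) := by ring
        rw [h1]
        linarith

end Pool.Agent.Helper57K9.XZ
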