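import Pool.Agent.Helper57K9.XZ.SblC

/-!
# SBL: a block of epochs which are not clean (helper5)
-/

set_option autoImplicit false

namespace Pool.Agent.Helper57K9.XZ

open Finset Pool.Agent.Helper5K9.ZN

namespace SblL

theorem FqFe (K : ℕ) : Fe 30 K = Fq K := rfl

theorem consts' (K : ℕ) : GG K = 610 * Lam K ∧ D2 K = 2000 * Lam K := ⟨rfl, rfl⟩

end SblL

attribute [local irreducible] Lam GG D1 D2 D3 RR Fq Fe

open FarL SphL SblL in
/-- **SBL** -/
theorem sbl : S_SPH → S_NVX → S_SPC → S_SID → S_NEB → S_PLA → S_SBL := by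
  classical
  intro hSPH hNVX hSPC hSID hNEB hPLA n K k i l u e p hbig hp hi hl hgc hdesc hokc hclean hnclean
    htube hw1 hw0 htouch hwin hnz
  obtain ⟨hn, hbl, hlam⟩ := NvxL.big n K hbig
  obtain ⟨hGG, hD2⟩ := consts' K
  obtain ⟨c1, c2, c3, c4, c5⟩ := consts K
  obtain ⟨i', rfl⟩ : ∃ i', i = i' + 1 := ⟨i - 1, by omega⟩
  rw [Nat.add_sub_cancel] at hclean hw1 htouch
  obtain ⟨m, hm0, hm⟩ := hdesc.2 (i' + 1) l hnclean (Or.inr ⟨i', rfl, hclean⟩)
  have hs0 : (i' + 1) * Lam K = i' * Lam K + Lam K := by ring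
  have hLL : l * Lam K ≤ 600 * Lam K := Nat.mul_le_mul_right _ hl
  have hend : (i' + 1 + l) * Lam K = i' * Lam K + Lam K + l * Lam K := by ring
  clear hnclean hdesc htouch
  simp only [hs0, hend] at *
  clear hs0 hend
  generalize i' * Lam K = s1 at *
  generalize l * Lam K = L at *
  rcases Nat.eq_zero_or_pos L with hL0 | hL0
  · subst hL0
    intro t h1 h2
    have : t = s1 + Lam K := by omega
    subst this
    exact ⟨by simp, fun h => absurd h (by omega)⟩
  have hpb : ∀ z, p z ∈ Boxn n := fun z => (hp z).1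
  let Z : Finset (Fin k) := (Spec n K u e p (s1 + Lam K)).filter fun z => Fr (PD n u e p (s1 + Lam K) z)
  have hZ : Z.card < 30 := by
    refine lt_of_le_of_lt (card_filter_le _ _) ?_
    refine hSPC n K k (s1 + Lam K) u e p hbig hp ?_
    intro s hs
    exact hokc s (by omega)
  have hdev : ∀ z (s w : ℕ), s + w ≤ s1 + Lam K + L → w ≤ GG K →
      |WW (bts (u z)) (s + w) - WW (bts (u z)) s| ≤ (Fq K : ℤ) := by
    intro z s w h1 h2
    have h3 := NvxL.dev K (s1 + Lam K + L) s w (bts (u z)) (hgc z) h1 h2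
    rw [c1] at h3
    have := abs_nonneg (WW (bts (u z)) (s + w) - WW (bts (u z)) s)
    linarith
  have hZn : ∀ z ∈ Z, L1 (du n (u z) e (p z) (s1 + Lam K)) ≤ D2 K + 2 * GG K := by
    intro z hz
    obtain ⟨hz1, hz2⟩ := mem_filter.mp hz
    obtain ⟨-, s, a1, a2, a3, a4⟩ := mem_filter.mp hz1
    have hG : (0 : ℤ) ≤ GG K := Int.natCast_nonneg _
    rcases le_or_gt s (s1 + Lam K) with h | h
    · have := mono hPLA n (u z) e (p z) hn (hpb z) h
      change L1 (du n (u z) e (p z) s) ≤ _ at a4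
      linarith
    · have := drop' hPLA n (u z) e (p z) hn (hpb z) h.le
      change L1 (du n (u z) e (p z) s) ≤ _ at a4
      have h5 : (s : ℤ) ≤ (s1 + Lam K : ℕ) + GG K := by exact_mod_cast a2
      linarith
  have hothers : ∀ z, z ∉ Z → ∀ s < L,
      (∀ r ≤ s, |WW e (s1 + Lam K + r) - WW e (s1 + Lam K)| ≤ (Fe 30 K : ℤ)) →
      Harmless K (PD n u e p (s1 + Lam K + s) z) := by
    intro z hz s hs hwb
    refine others hNVX hSID hPLA hbig (u z) e (p z) (hpb z) (hp z).2 (s1 + Lam K) L hLL (hgc z)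
      htube hwin hw0 (hnz z) ?_ s hs hwb
    by_cases hf : Fr (du n (u z) e (p z) (s1 + Lam K))
    · left
      intro v hv1 hv2 hv3 hv4
      apply hz
      refine mem_filter.mpr ⟨mem_filter.mpr ⟨mem_univ _, v, hv1, hv2, hv3, hv4⟩, hf⟩
    · exact Or.inr hf
  have hsph := hSPH n K k (s1 + Lam K) L u e p m Z hbig hpb hZ hm0 hm (by
    intro z hz
    obtain ⟨hz1, hz2⟩ := mem_filter.mp hz
    have hL1 := hZn z hz
    refine ⟨?_, ?_, ?_⟩
    · exact axisfar hSID hPLA hbig (u z) e (p z) (hpb z) s1 hL1 hz2 (hclean z) hw1 hw0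
        (hdev z (s1 + 1) (Lam K) (by omega) (by omega))
    · have hbl' : 1000000 * (Lam K : ℤ) ≤ n := by exact_mod_cast hbl
      have hlam' : (1000 : ℤ) ≤ Lam K := by exact_mod_cast hlam
      have hGG' : (GG K : ℤ) = 610 * Lam K := by rw [hGG]; push_cast; ring
      have hD2' : (D2 K : ℤ) = 2000 * Lam K := by rw [hD2]; push_cast; ring
      have hnear : 4 * L1 (du n (u z) e (p z) (s1 + Lam K)) + 8 ≤ n := by linarith
      have h1 : LB (L1 (du n (u z) e (p z) (s1 + Lam K)) + 1) (tu n (u z) e (p z) (s1 + Lam K)) := by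
        rcases tu_abs n (u z) e (p z) (s1 + Lam K) hn (hpb z) hnear with h | h
        · exact h.1
        · exact h.1
      rw [LB_iff] at h1
      linarith
    · intro a b hab
      have h1 := hgc z (s1 + Lam K + a) b (by omega)
      have h2 : ∀ r, WW (fun s => bt (u z (s1 + Lam K + s))) r =
          WW (bts (u z)) (s1 + Lam K + r) - WW (bts (u z)) (s1 + Lam K) :=
        fun r => WW_shift (bts (u z)) (s1 + Lam K) r
      rw [h2, h2]
      rw [show s1 + Lam K + (a + b) = s1 + Lam K + a + b by ring]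
      have h3 : WW (bts (u z)) (s1 + Lam K + a + b) - WW (bts (u z)) (s1 + Lam K) -
          (WW (bts (u z)) (s1 + Lam K + a) - WW (bts (u z)) (s1 + Lam K)) =
          WW (bts (u z)) (s1 + Lam K + a + b) - WW (bts (u z)) (s1 + Lam K + a) := by ring
      rw [h3]
      exact h1) hothers
  intro t h1 h2
  obtain ⟨s, rfl⟩ := Nat.exists_eq_add_of_le h1
  refine ⟨by rw [← FqFe]; exact (hsph s (by omega)).1, fun h3 z => ?_⟩
  by_cases hz : z ∈ Z
  · have := (hsph (s + 1) (by omega)).2 z hz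
    exact this
  · have hh := hothers z hz s (by omega) (fun r hr => (hsph r (by omega)).1)
    exact harmless_tu hn (u z) e (p z) (hpb z) _ hh

end Pool.Agent.Helper57K9.XZ
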