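import Pool.Agent.Helper57K9.XZ.Pla

/-!
# XZ, [SID], [NEB], [XIT]: the sides of the survivor
-/

set_option autoImplicit false

namespace Pool.Agent.Helper57K9.XZ

open Finset Pool.Agent.Helper5K9.ZN

namespace SidL

open PlaL

theorem WW_succ (e : ℕ → Bool) (t : ℕ) : WW e (t + 1) = WW e t + sgn (e t) := by
  unfold WW
  rw [sum_range_succ]

theorem xE_succ (e : ℕ → Bool) (t : ℕ) : xE e (t + 1) = xE e t + if e t then 1 else 0 := by
  unfold xE
  rw [sum_range_succ]

/-- one planar round -/
theorem step (e c : Bool) (q : ℤ × ℤ) :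
    (¬ Fr q → ¬ Fr (zm c (shp e q))) ∧
    (ESide q → ¬ Fr (zm c (shp e q)) ∨ (ESide (zm c (shp e q)) ∧
      L1 (zm c (shp e q)) = L1 q - 2 * (if e then 1 else 0) ∧
      -2 * q.2 - sgn e + sgn c ≤ -2 * (zm c (shp e q)).2)) ∧
    (NSide q → ¬ Fr (zm c (shp e q)) ∨ (NSide (zm c (shp e q)) ∧
      L1 (zm c (shp e q)) = L1 q - 2 * (if e then 0 else 1) ∧
      -2 * q.1 + sgn e - sgn c ≤ -2 * (zm c (shp e q)).1)) ∧
    (NEp q → L1 (zm c (shp e q)) = L1 q - 2) := by
  have h := zm_cases c (shp e q)
  obtain ⟨a, b⟩ := q
  simp only [Fr, ESide, NSide, NEp, L1_eq]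
  cases e <;> cases c <;> simp only [shp, sgn, Bool.false_eq_true, if_false, if_true, false_and,
    or_false, true_and] at h ⊢ <;> refine ⟨?_, ?_, ?_, ?_⟩ <;> intro hq <;> omega

theorem cases4 (q : ℤ × ℤ) : ¬ Fr q ∨ ESide q ∨ NSide q ∨ NEp q := by
  unfold Fr ESide NSide NEp
  omega

theorem NE_not (q : ℤ × ℤ) (h : NEp q) : Fr q ∧ ¬ ESide q ∧ ¬ NSide q := by
  unfold Fr ESide NSide NEp at *
  omega

theorem E_not (q : ℤ × ℤ) (h : ESide q) : Fr q ∧ ¬ NEp q ∧ ¬ NSide q := by
  unfold Fr ESide NSide NEp at *
  omega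

theorem N_not (q : ℤ × ℤ) (h : NSide q) : Fr q ∧ ¬ NEp q ∧ ¬ ESide q := by
  unfold Fr ESide NSide NEp at *
  omega

end SidL

open PlaL SidL OccL

theorem sid : S_SID := by
  intro n u e p s t hn hp hst hnear
  obtain ⟨w, rfl⟩ := Nat.exists_eq_add_of_le hst
  have hL : ∀ w, 4 * L1 (du n u e p (s + w)) + 8 ≤ n := by
    intro w
    induction w with
    | zero => exact hnear
    | succ w ih =>
      have h := (pla n u e p (s + w) hn hp).2.1
      have : s + (w + 1) = s + w + 1 := by ring
      rw [this]
      omega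
  have hstep : ∀ w, du n u e p (s + w + 1) =
      zm (bts u (s + w + 1)) (shp (e (s + w)) (du n u e p (s + w))) := fun w =>
    ((pla n u e p (s + w) hn hp).1 (hL w)).2
  -- the classes which are left only to the back
  have hB : ∀ w, ¬ Fr (du n u e p (s + w)) → ∀ w', w ≤ w' → ¬ Fr (du n u e p (s + w')) := by
    intro w h w' hw'
    induction w', hw' using Nat.le_induction with
    | base => exact h
    | succ w' _ ih =>
      rw [← add_assoc, hstep w']
      exact (step _ _ _).1 ih
  have hE : ∀ w, ESide (du n u e p s) → ESide (du n u e p (s + w)) ∨ ¬ Fr (du n u e p (s + w)) := by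
    intro w h
    induction w with
    | zero => exact Or.inl h
    | succ w ih =>
      rw [← add_assoc, hstep w]
      rcases ih with ih | ih
      · rcases (step (e (s + w)) (bts u (s + w + 1)) _).2.1 ih with h1 | h1
        · exact Or.inr h1
        · exact Or.inl h1.1
      · exact Or.inr ((step _ _ _).1 ih)
  have hN : ∀ w, NSide (du n u e p s) → NSide (du n u e p (s + w)) ∨ ¬ Fr (du n u e p (s + w)) := by
    intro w h
    induction w with
    | zero => exact Or.inl h
    | succ w ih =>
      rw [← add_assoc, hstep w]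
      rcases ih with ih | ih
      · rcases (step (e (s + w)) (bts u (s + w + 1)) _).2.2.1 ih with h1 | h1
        · exact Or.inr h1
        · exact Or.inl h1.1
      · exact Or.inr ((step _ _ _).1 ih)
  have hEx : ∀ w, ESide (du n u e p s) → ESide (du n u e p (s + w)) →
      (∀ r, s ≤ r → r ≤ s + w → ESide (du n u e p r)) ∧
      L1 (du n u e p (s + w)) = L1 (du n u e p s) - 2 * (xE e (s + w) - xE e s) ∧
      -2 * (du n u e p s).2 + (WW e s - WW e (s + w)) +
        (WW (bts u) (s + w + 1) - WW (bts u) (s + 1)) ≤ -2 * (du n u e p (s + w)).2 := by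
    intro w h
    induction w with
    | zero =>
      intro _
      refine ⟨fun r h1 h2 => ?_, by rw [add_zero]; ring, by rw [add_zero]; linarith⟩
      have : r = s := by omega
      rw [this]
      exact h
    | succ w ih =>
      intro h'
      have h1 : ESide (du n u e p (s + w)) := by
        rcases hE w h with h1 | h1
        · exact h1
        · exact absurd (E_not _ h').1 (hB w h1 (w + 1) (by omega))
      obtain ⟨g1, g2, g3⟩ := ih h1
      rcases (step (e (s + w)) (bts u (s + w + 1)) _).2.1 h1 with h2 | ⟨-, h2, h3⟩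
      · rw [← hstep w] at h2
        exact absurd (E_not _ h').1 h2
      · rw [← hstep w] at h2 h3
        refine ⟨fun r h4 h5 => ?_, ?_, ?_⟩
        · rcases Nat.lt_or_ge r (s + (w + 1)) with h6 | h6
          · exact g1 r h4 (by omega)
          · have : r = s + (w + 1) := by omega
            rw [this]
            exact h'
        · rw [← add_assoc, h2, g2, xE_succ]
          ring
        · rw [← add_assoc, WW_succ e, WW_succ (bts u) (s + w + 1)]
          linarith
  have hNx : ∀ w, NSide (du n u e p s) → NSide (du n u e p (s + w)) →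
      (∀ r, s ≤ r → r ≤ s + w → NSide (du n u e p r)) ∧
      L1 (du n u e p (s + w)) = L1 (du n u e p s) - 2 * ((w : ℤ) - (xE e (s + w) - xE e s)) ∧
      -2 * (du n u e p s).1 - (WW e s - WW e (s + w)) -
        (WW (bts u) (s + w + 1) - WW (bts u) (s + 1)) ≤ -2 * (du n u e p (s + w)).1 := by
    intro w h
    induction w with
    | zero =>
      intro _
      refine ⟨fun r h1 h2 => ?_, by rw [add_zero]; push_cast; ring, by rw [add_zero]; linarith⟩
      have : r = s := by omega
      rw [this]
      exact h
    | succ w ih =>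
      intro h'
      have h1 : NSide (du n u e p (s + w)) := by
        rcases hN w h with h1 | h1
        · exact h1
        · exact absurd (N_not _ h').1 (hB w h1 (w + 1) (by omega))
      obtain ⟨g1, g2, g3⟩ := ih h1
      rcases (step (e (s + w)) (bts u (s + w + 1)) _).2.2.1 h1 with h2 | ⟨-, h2, h3⟩
      · rw [← hstep w] at h2
        exact absurd (N_not _ h').1 h2
      · rw [← hstep w] at h2 h3
        refine ⟨fun r h4 h5 => ?_, ?_, ?_⟩
        · rcases Nat.lt_or_ge r (s + (w + 1)) with h6 | h6
          · exact g1 r h4 (by omega)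
          · have : r = s + (w + 1) := by omega
            rw [this]
            exact h'
        · rw [← add_assoc, h2, g2, xE_succ]
          cases e (s + w) <;> simp only [Bool.false_eq_true, if_false, if_true] <;> push_cast <;>
            ring
        · rw [← add_assoc, WW_succ e, WW_succ (bts u) (s + w + 1)]
          linarith
  refine ⟨fun h => hB 0 h w (Nat.zero_le _), hE w, hN w, ?_, hEx w, ?_⟩
  · have hNE : ∀ w, NEp (du n u e p (s + w)) → NEp (du n u e p s) ∧
        L1 (du n u e p s) = L1 (du n u e p (s + w)) + 2 * (w : ℤ) := by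
      intro w
      induction w with
      | zero => exact fun h => ⟨h, by rw [add_zero]; simp⟩
      | succ w ih =>
        intro h
        have h1 : NEp (du n u e p (s + w)) := by
          have h2 := NE_not _ h
          rw [← add_assoc, hstep w] at h2
          rcases cases4 (du n u e p (s + w)) with h3 | h3 | h3 | h3
          · exact absurd h2.1 ((step _ _ _).1 h3)
          · rcases (step (e (s + w)) (bts u (s + w + 1)) _).2.1 h3 with h4 | h4
            · exact absurd h2.1 h4
            · exact absurd h4.1 h2.2.1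
          · rcases (step (e (s + w)) (bts u (s + w + 1)) _).2.2.1 h3 with h4 | h4
            · exact absurd h2.1 h4
            · exact absurd h4.1 h2.2.2
          · exact h3
        obtain ⟨g1, g2⟩ := ih h1
        refine ⟨g1, ?_⟩
        have h5 := (step (e (s + w)) (bts u (s + w + 1)) _).2.2.2 h1
        rw [← hstep w] at h5
        rw [← add_assoc, h5, g2]
        push_cast
        ring
    intro h
    obtain ⟨g1, g2⟩ := hNE w h
    refine ⟨g1, ?_⟩
    rw [g2]
    push_cast
    ring
  · intro h h'
    obtain ⟨g1, g2, g3⟩ := hNx w h h'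
    refine ⟨g1, ?_, g3⟩
    rw [g2]
    push_cast
    ring

theorem neb : S_NEB := by
  intro n u e p w t hn hp hw hnear h
  obtain ⟨s, rfl⟩ := Nat.exists_eq_add_of_le hw
  have hL : ∀ w', w' ≤ w → L1 (du n u e p (w + s - w')) ≤ L1 (du n u e p (w + s)) + 2 * w' := by
    intro w'
    induction w' with
    | zero => intro _; simp
    | succ w' ih =>
      intro h1
      have h2 := ih (by omega)
      have h3 := (pla n u e p (w + s - (w' + 1)) hn hp).2.2.1
      have e1 : w + s - (w' + 1) + 1 = w + s - w' := by omega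
      rw [e1] at h3
      push_cast
      linarith
  have h1 := hL w le_rfl
  have h2 := (sid n u e p (w + s - w) (w + s) hn hp (by omega) (by omega)).2.2.2.1 h
  refine ⟨h2.1, ?_⟩
  rw [h2.2]
  have : w + s - w = s := by omega
  rw [this]
  push_cast
  ring

theorem xit : S_XIT := by
  intro n R u e p s t hn hp hT hnear hst
  have h0 : 0 ≤ L1 (du n u e p s) := by
    rw [L1_eq]
    omega
  have hle : s ≤ t := by omega
  obtain ⟨w, rfl⟩ := Nat.exists_eq_add_of_le hle
  have hL : ∀ w, 4 * L1 (du n u e p (s + w)) + 8 ≤ n := by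
    intro w
    induction w with
    | zero => exact hnear
    | succ w ih =>
      have h := (pla n u e p (s + w) hn hp).2.1
      have : s + (w + 1) = s + w + 1 := by ring
      rw [this]
      omega
  have hstep : ∀ w, du n u e p (s + w + 1) =
      zm (bts u (s + w + 1)) (shp (e (s + w)) (du n u e p (s + w))) := fun w =>
    ((pla n u e p (s + w) hn hp).1 (hL w)).2
  have inv : ∀ w, (NEp (du n u e p (s + w)) →
        L1 (du n u e p (s + w)) = L1 (du n u e p s) - 2 * (w : ℤ)) ∧
      (ESide (du n u e p (s + w)) → ∃ r, r ≤ s + w ∧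
        L1 (du n u e p (s + w)) + w + WW e (s + w) ≤ L1 (du n u e p s) + WW e r) ∧
      (NSide (du n u e p (s + w)) → ∃ r, r ≤ s + w ∧
        L1 (du n u e p (s + w)) + w - WW e (s + w) ≤ L1 (du n u e p s) - WW e r) := by
    intro w
    induction w with
    | zero =>
      refine ⟨fun _ => by rw [add_zero]; simp, fun _ => ⟨s, le_rfl, ?_⟩, fun _ => ⟨s, le_rfl, ?_⟩⟩
      · rw [add_zero]
        push_cast
        linarith
      · rw [add_zero]
        push_cast
        linarith
    | succ w ih =>
      obtain ⟨i1, i2, i3⟩ := ih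
      have hst := step (e (s + w)) (bts u (s + w + 1)) (du n u e p (s + w))
      rw [← hstep w] at hst
      obtain ⟨s1, s2, s3, s4⟩ := hst
      rw [← add_assoc]
      have hcase := cases4 (du n u e p (s + w))
      refine ⟨fun h => ?_, fun h => ?_, fun h => ?_⟩
      · have h2 := NE_not _ h
        rcases hcase with h3 | h3 | h3 | h3
        · exact absurd h2.1 (s1 h3)
        · rcases s2 h3 with h4 | h4
          · exact absurd h2.1 h4
          · exact absurd h4.1 h2.2.1
        · rcases s3 h3 with h4 | h4
          · exact absurd h2.1 h4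
          · exact absurd h4.1 h2.2.2
        · rw [s4 h3, i1 h3]
          push_cast
          ring
      · have h2 := E_not _ h
        rcases hcase with h3 | h3 | h3 | h3
        · exact absurd h2.1 (s1 h3)
        · rcases s2 h3 with h4 | ⟨-, h4, -⟩
          · exact absurd h2.1 h4
          · obtain ⟨r, hr, hr'⟩ := i2 h3
            refine ⟨r, by omega, ?_⟩
            rw [h4, WW_succ]
            cases e (s + w) <;>
              simp only [sgn, Bool.false_eq_true, if_false, if_true] <;> push_cast <;> linarith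
        · rcases s3 h3 with h4 | h4
          · exact absurd h2.1 h4
          · exact absurd h4.1 h2.2.2
        · refine ⟨s + w + 1, le_rfl, ?_⟩
          rw [s4 h3, i1 h3]
          push_cast
          linarith
      · have h2 := N_not _ h
        rcases hcase with h3 | h3 | h3 | h3
        · exact absurd h2.1 (s1 h3)
        · rcases s2 h3 with h4 | h4
          · exact absurd h2.1 h4
          · exact absurd h4.1 h2.2.2
        · rcases s3 h3 with h4 | ⟨-, h4, -⟩
          · exact absurd h2.1 h4
          · obtain ⟨r, hr, hr'⟩ := i3 h3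
            refine ⟨r, by omega, ?_⟩
            rw [h4, WW_succ]
            cases e (s + w) <;>
              simp only [sgn, Bool.false_eq_true, if_false, if_true] <;> push_cast <;> linarith
        · refine ⟨s + w + 1, le_rfl, ?_⟩
          rw [s4 h3, i1 h3]
          push_cast
          linarith
  obtain ⟨i1, i2, i3⟩ := inv w
  have hpos : 0 ≤ L1 (du n u e p (s + w)) := by
    rw [L1_eq]
    omega
  have hTw := abs_le.1 (hT (s + w) le_rfl)
  push_cast at hst
  intro hF
  rcases cases4 (du n u e p (s + w)) with h3 | h3 | h3 | h3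
  · exact h3 hF
  · obtain ⟨r, hr, hr'⟩ := i2 h3
    have := abs_le.1 (hT r hr)
    linarith
  · obtain ⟨r, hr, hr'⟩ := i3 h3
    have := abs_le.1 (hT r hr)
    linarith
  · have := i1 h3
    linarith

/-- one round of an absorbed zombie -/
theorem SidL.absn_step {n : ℕ} (hn : 12 ≤ n) (u : Fin 12) (e : Bool) {q : ℤ × ℤ} (hA : Absn n q)
    (h0 : q ≠ 0) : smg n e q ≠ 0 ∧ Absn n (zu n u (smg n e q)) ∧ zu n u (smg n e q) ≠ 0 := by
  obtain ⟨h1, h2, h3⟩ := hA
  have h0' : ¬ (q.1 = 0 ∧ q.2 = 0) := fun h => h0 (Prod.ext h.1 h.2)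
  rw [L1_eq] at h3
  have e1 : smg n e q = shp e q := by
    refine smg_noWrap _ ?_ ?_ ?_ ?_ <;> omega
  have e2 : zu n u (shp e q) = zm (bt u) (shp e q) := by
    refine zu_noTie _ ?_ ?_ <;> cases e <;>
      simp only [shp, Bool.false_eq_true, if_false, if_true] <;> omega
  rw [e1, e2]
  have hne : ∀ x : ℤ × ℤ, ¬ (x.1 = 0 ∧ x.2 = 0) → x ≠ 0 := by
    rintro x hx rfl
    exact hx ⟨rfl, rfl⟩
  have h4 : (shp e q).1 ≤ 0 ∧ (shp e q).2 ≤ 0 ∧
      (shp e q).1 + (shp e q).2 = q.1 + q.2 - 1 := by
    cases e <;> simp only [shp, Bool.false_eq_true, if_false, if_true] <;> omega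
  have h := zm_cases (bt u) (shp e q)
  generalize shp e q = p at *
  generalize zm (bt u) p = z at *
  have h5 : z.1 ≤ 0 ∧ z.2 ≤ 0 ∧ z.1 + z.2 = q.1 + q.2 := by
    rcases Bool.eq_false_or_eq_true (bt u) with hb | hb <;> rw [hb] at h <;>
      simp only [Bool.false_eq_true, false_and, or_false, true_and] at h <;> omega
  refine ⟨hne _ (by omega), ⟨h5.1, h5.2.1, ?_⟩, hne _ (by omega)⟩
  rw [L1_eq]
  omega

theorem end_ : S_END := by
  intro n u e p t hn hp hA h0 s hs
  have key : Absn n (du n u e p s) ∧ du n u e p s ≠ 0 := by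
    induction s, hs using Nat.le_induction with
    | base => exact ⟨hA, h0⟩
    | succ s _ ih => exact (SidL.absn_step hn (u (s + 1)) (e s) ih.1 ih.2).2
  exact ⟨key.1, key.2, (SidL.absn_step hn (u (s + 1)) (e s) key.1 key.2).1⟩

end Pool.Agent.Helper57K9.XZ
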