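import Pool.Agent.Helper57K9.XZ.One

set_option autoImplicit false

/-! [SLO] slopes -/

namespace Pool.Agent.Helper57K9.XZ

open Finset Pool.Agent.Helper5K9.ZN

namespace SloL

/-- the slopes of `U` are at most the slopes of `F` -/
def Sl (U F : ℕ → ℝ) : Prop := ∀ i j, i ≤ j → U j * F i ≤ U i * F j

theorem stpN_zero (U : ℕ → ℝ) : stp false U 0 = U 0 / 2 := by simp [stp]

theorem stpN_succ (U : ℕ → ℝ) (h : ℕ) : stp false U (h + 1) = (U (h + 1) + U h) / 2 := by
  simp [stp]

theorem stpE (U : ℕ → ℝ) (h : ℕ) : stp true U h = (U h + U (h + 1)) / 2 := by simp [stp]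

theorem Sl.N {U F : ℕ → ℝ} (h : Sl U F) : Sl (stp false U) (stp false F) := by
  intro i j hij
  rcases hij.eq_or_lt with rfl | hlt
  · exact le_rfl
  obtain ⟨j, rfl⟩ : ∃ j', j = j' + 1 := ⟨j - 1, by omega⟩
  cases i with
  | zero =>
    rw [stpN_zero, stpN_zero, stpN_succ, stpN_succ]
    linarith [h 0 (j + 1) (by omega), h 0 j (by omega)]
  | succ i =>
    rw [stpN_succ, stpN_succ, stpN_succ, stpN_succ]
    linarith [h (i + 1) (j + 1) (by omega), h i (j + 1) (by omega), h (i + 1) j (by omega),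
      h i j (by omega)]

theorem Sl.E {U F : ℕ → ℝ} (h : Sl U F) : Sl (stp true U) (stp true F) := by
  intro i j hij
  rcases hij.eq_or_lt with rfl | hlt
  · exact le_rfl
  rw [stpE, stpE, stpE, stpE]
  linarith [h i j hij, h (i + 1) j (by omega), h i (j + 1) (by omega),
    h (i + 1) (j + 1) (by omega)]

theorem Sl.trans {U F G : ℕ → ℝ} (h : Sl U F) (h' : Sl F G) (hF : ∀ i, 0 < F i)
    (hU : ∀ i, 0 ≤ U i) (hG : ∀ i, 0 ≤ G i) : Sl U G := by
  intro i j hij
  have h1 := mul_le_mul_of_nonneg_right (h i j hij) (hG i)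
  have h2 := mul_le_mul_of_nonneg_left (h' i j hij) (hU i)
  have h3 : F i * (U j * G i) ≤ F i * (U i * G j) := by linarith
  exact le_of_mul_le_mul_left h3 (hF i)

theorem Sl.refl (U : ℕ → ℝ) : Sl U U := fun _ _ _ => le_of_eq (mul_comm _ _)

theorem comm {G : ℕ → ℝ} (hG : ∀ i, 0 ≤ G i) :
    Sl (stp true (stp false G)) (stp false (stp true G)) := by
  have key : ∀ h, stp true (stp false G) (h + 1) = stp false (stp true G) (h + 1) := by
    intro h
    rw [stpE, stpN_succ, stpN_succ, stpN_succ, stpE, stpE]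
    ring
  intro i j hij
  rcases hij.eq_or_lt with rfl | hlt
  · exact le_rfl
  obtain ⟨j, rfl⟩ : ∃ j', j = j' + 1 := ⟨j - 1, by omega⟩
  cases i with
  | zero =>
    rw [key j]
    have h1 : stp false (stp true G) 0 ≤ stp true (stp false G) 0 := by
      rw [stpN_zero, stpE, stpE, stpN_zero, stpN_succ]
      linarith [hG 0]
    have h2 : 0 ≤ stp false (stp true G) (j + 1) := by
      rw [stpN_succ, stpE, stpE]
      linarith [hG j, hG (j + 1), hG (j + 1 + 1)]
    calc stp false (stp true G) (j + 1) * stp false (stp true G) 0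
        ≤ stp false (stp true G) (j + 1) * stp true (stp false G) 0 :=
          mul_le_mul_of_nonneg_left h1 h2
      _ = _ := mul_comm _ _
  | succ i =>
    rw [key j, key i]
    exact le_of_eq (mul_comm _ _)

/-- log-concave functions -/
def LC (F : ℕ → ℝ) : Prop := ∀ i j, i ≤ j → F (j + 1) * F i ≤ F (i + 1) * F j

theorem LC.N {F : ℕ → ℝ} (h : LC F) (hF : ∀ i, 0 ≤ F i) : LC (stp false F) := by
  intro i j hij
  rcases hij.eq_or_lt with rfl | hlt
  · exact le_rfl
  obtain ⟨j, rfl⟩ : ∃ j', j = j' + 1 := ⟨j - 1, by omega⟩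
  cases i with
  | zero =>
    rw [stpN_zero, stpN_succ, stpN_succ, stpN_succ]
    have h1 := h 0 (j + 1) (by omega)
    have h2 : 0 ≤ F 1 * F j := mul_nonneg (hF _) (hF _)
    have h3 : 0 ≤ F 0 * F j := mul_nonneg (hF _) (hF _)
    rw [zero_add] at h1 ⊢
    linarith
  | succ i =>
    rw [stpN_succ, stpN_succ, stpN_succ, stpN_succ]
    have h1 := h (i + 1) (j + 1) (by omega)
    have h2 := h i (j + 1) (by omega)
    have h3 := h (i + 1) j (by omega)
    have h4 := h i j (by omega)
    linarith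

theorem LC.sl {F : ℕ → ℝ} (h : LC F) (hF : ∀ i, 0 ≤ F i) : Sl F (stp false F) := by
  intro i j hij
  rcases hij.eq_or_lt with rfl | hlt
  · exact le_rfl
  obtain ⟨j, rfl⟩ : ∃ j', j = j' + 1 := ⟨j - 1, by omega⟩
  cases i with
  | zero =>
    rw [stpN_zero, stpN_succ]
    have h3 : 0 ≤ F 0 * F j := mul_nonneg (hF _) (hF _)
    linarith
  | succ i =>
    rw [stpN_succ, stpN_succ]
    have h4 := h i j (by omega)
    linarith

/-- the functions `N ^ b F0` -/
noncomputable def Fn : ℕ → ℕ → ℝ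
  | 0 => fun h => ((h : ℝ) + 1) * 4 ^ h
  | b + 1 => stp false (Fn b)

theorem Fn_pos (b h : ℕ) : 0 < Fn b h := by
  induction b generalizing h with
  | zero => simp only [Fn]; positivity
  | succ b ih =>
    cases h with
    | zero => simp only [Fn]; rw [stpN_zero]; linarith [ih 0]
    | succ h => simp only [Fn]; rw [stpN_succ]; linarith [ih h, ih (h + 1)]

theorem Fn_LC (b : ℕ) : LC (Fn b) := by
  induction b with
  | zero =>
    intro i j hij
    simp only [Fn]
    have h1 : ((((i + 1 : ℕ) : ℝ) + 1) * 4 ^ (i + 1)) * (((j : ℝ) + 1) * 4 ^ j)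
        - ((((j + 1 : ℕ) : ℝ) + 1) * 4 ^ (j + 1)) * (((i : ℝ) + 1) * 4 ^ i)
        = 4 ^ (i + j + 1) * ((j : ℝ) - i) := by
      push_cast
      ring
    have h2 : (0 : ℝ) ≤ 4 ^ (i + j + 1) * ((j : ℝ) - i) := by
      have : (i : ℝ) ≤ j := by exact_mod_cast hij
      have h3 : (0 : ℝ) ≤ (j : ℝ) - i := by linarith
      positivity
    linarith
  | succ b ih => exact ih.N fun i => (Fn_pos b i).le

theorem Fn_succ (b : ℕ) : Sl (Fn b) (Fn (b + 1)) := (Fn_LC b).sl fun i => (Fn_pos b i).le

theorem Fn_mono {b b' : ℕ} (h : b ≤ b') : Sl (Fn b) (Fn b') := by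
  induction b', h using Nat.le_induction with
  | base => exact Sl.refl _
  | succ b' _ ih =>
    exact ih.trans (Fn_succ b') (Fn_pos b') (fun i => (Fn_pos b i).le) fun i => (Fn_pos _ i).le

theorem consec {U F : ℕ → ℝ} (hF : ∀ i, 0 < F i)
    (h : ∀ i, U (i + 1) * F i ≤ U i * F (i + 1)) : Sl U F := by
  intro i j hij
  induction j, hij using Nat.le_induction with
  | base => exact le_rfl
  | succ j _ ih =>
    have h1 := mul_le_mul_of_nonneg_right (h j) (hF i).le
    have h2 := mul_le_mul_of_nonneg_right ih (hF (j + 1)).le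
    have h3 : F j * (U (j + 1) * F i) ≤ F j * (U i * F (j + 1)) := by linarith
    exact le_of_mul_le_mul_left h3 (hF j)

theorem Fn4 (n : ℕ) : Fn 4 (n + 3) = 4 ^ (n + 3) * (125 / 4096) * (5 * (n + 3) + 1) := by
  cases n with
  | zero =>
    simp only [Fn, stpN_succ, stpN_zero]
    norm_num
  | succ n =>
    have e : n + 1 + 3 = n + 4 := by ring
    rw [e]
    simp only [Fn, stpN_succ]
    push_cast
    ring

theorem base : Sl (stp true (Fn 4)) (Fn 0) := by
  apply consec
  · exact Fn_pos 0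
  · intro i
    rw [stpE, stpE]
    match i with
    | 0 =>
      simp only [Fn, stpN_succ, stpN_zero]
      norm_num
    | 1 =>
      simp only [Fn, stpN_succ, stpN_zero]
      norm_num
    | 2 =>
      simp only [Fn, stpN_succ, stpN_zero]
      norm_num
    | n + 3 =>
      have e1 := Fn4 n
      have e2 := Fn4 (n + 1)
      have e3 := Fn4 (n + 2)
      have e4 : n + 1 + 3 = n + 3 + 1 := by ring
      have e5 : n + 2 + 3 = n + 3 + 1 + 1 := by ring
      rw [e4] at e2
      rw [e5] at e3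
      rw [e1, e2, e3]
      simp only [Fn]
      push_cast
      apply le_of_eq
      ring

theorem EF (n : ℕ) : Sl (stp true (Fn (n + 4))) (Fn n) := by
  induction n with
  | zero => exact base
  | succ n ih =>
    have h1 : Sl (stp true (stp false (Fn (n + 4)))) (stp false (stp true (Fn (n + 4)))) :=
      comm fun i => (Fn_pos _ i).le
    have h2 : Sl (stp false (stp true (Fn (n + 4)))) (stp false (Fn n)) := ih.N
    have hE : ∀ i, 0 < stp true (Fn (n + 4)) i := by
      intro i
      rw [stpE]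
      linarith [Fn_pos (n + 4) i, Fn_pos (n + 4) (i + 1)]
    have h3 : ∀ i, 0 < stp false (stp true (Fn (n + 4))) i := by
      intro i
      cases i with
      | zero => rw [stpN_zero]; linarith [hE 0]
      | succ i => rw [stpN_succ]; linarith [hE i, hE (i + 1)]
    have h4 : ∀ i, 0 ≤ stp true (stp false (Fn (n + 4))) i := by
      intro i
      have h5 : ∀ i, 0 < stp false (Fn (n + 4)) i := Fn_pos (n + 5)
      rw [stpE]
      linarith [h5 i, h5 (i + 1)]
    have e : n + 1 + 4 = n + 4 + 1 := by ring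
    rw [e]
    exact h1.trans h2 h3 h4 fun i => (Fn_pos (n + 1) i).le

theorem EF' (b : ℕ) : Sl (stp true (Fn b)) (Fn (b - 4)) := by
  rcases le_or_gt 4 b with h | h
  · obtain ⟨n, rfl⟩ : ∃ n, b = n + 4 := ⟨b - 4, by omega⟩
    rw [Nat.add_sub_cancel]
    exact EF n
  · have e : b - 4 = 0 := by omega
    rw [e]
    have hE : ∀ (b i : ℕ), 0 < stp true (Fn b) i := by
      intro b i
      rw [stpE]
      linarith [Fn_pos b i, Fn_pos b (i + 1)]
    exact (Fn_mono h.le).E.trans base (hE 4) (fun i => (hE b i).le) fun i => (Fn_pos 0 i).le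

theorem Fn_zero (b : ℕ) : Fn b 0 = (1 / 2) ^ b := by
  induction b with
  | zero => simp [Fn]
  | succ b ih => simp only [Fn]; rw [stpN_zero, ih, pow_succ]; ring

theorem Fn_one (b : ℕ) : Fn b 1 = (8 + b) * (1 / 2) ^ b := by
  induction b with
  | zero => simp [Fn]; norm_num
  | succ b ih =>
    simp only [Fn]
    rw [stpN_succ, ih, Fn_zero]
    push_cast
    rw [pow_succ]
    ring

/-- the profile of the particle injected at time `v` -/
noncomputable def P (e : ℕ → Bool) (v : ℕ) : ℕ → ℕ → ℝ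
  | 0 => fun _ => if v = 0 then 1 else 0
  | t + 1 => if v = t + 1 then fun _ => 1 else stp (e t) (P e v t)

/-- the queue and the potential of the particle injected at time `v` -/
noncomputable def Q (e : ℕ → Bool) (v : ℕ) : ℕ → ℕ × ℝ
  | 0 => (0, 1)
  | t + 1 => if t + 1 ≤ v then (0, 1) else
      if e t = true then
        if (Q e v t).1 ≤ 4 then (0, P e v (t + 1) 0)
        else ((Q e v t).1 - 4, 9 / 2 * (9 / 16) ^ 4 * (Q e v t).2)
      else ((Q e v t).1 + 1, (Q e v t).2)

theorem P_self (e : ℕ → Bool) (v : ℕ) : P e v v = fun _ => 1 := by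
  cases v with
  | zero => simp [P]
  | succ v => simp [P]

theorem P_succ (e : ℕ → Bool) {v t : ℕ} (h : v ≤ t) : P e v (t + 1) = stp (e t) (P e v t) := by
  simp only [P]
  rw [if_neg (by omega)]

theorem Q_self (e : ℕ → Bool) (v : ℕ) : Q e v v = (0, 1) := by
  cases v with
  | zero => simp [Q]
  | succ v => simp [Q]

theorem Q_N (e : ℕ → Bool) {v t : ℕ} (h : v ≤ t) (he : e t = false) :
    Q e v (t + 1) = ((Q e v t).1 + 1, (Q e v t).2) := by
  simp only [Q]
  rw [if_neg (by omega), if_neg (by rw [he]; simp)]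

theorem Q_E (e : ℕ → Bool) {v t : ℕ} (h : v ≤ t) (he : e t = true) (hq : (Q e v t).1 ≤ 4) :
    Q e v (t + 1) = (0, P e v (t + 1) 0) := by
  simp only [Q]
  rw [if_neg (by omega), if_pos he, if_pos hq]

theorem Q_E' (e : ℕ → Bool) {v t : ℕ} (h : v ≤ t) (he : e t = true) (hq : ¬ (Q e v t).1 ≤ 4) :
    Q e v (t + 1) = ((Q e v t).1 - 4, 9 / 2 * (9 / 16) ^ 4 * (Q e v t).2) := by
  simp only [Q]
  rw [if_neg (by omega), if_pos he, if_neg hq]

/-- the invariants -/
structure Inv (U : ℕ → ℝ) (b : ℕ) (g : ℝ) : Prop where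
  nn : ∀ h, 0 ≤ U h
  le : ∀ h, U h ≤ 1
  sl : Sl U (Fn b)
  bd : ∀ h, U h ≤ g * (9 / 16) ^ b * 8 ^ h
  g0 : 0 ≤ g
  g1 : g ≤ 1
  eq : b = 0 → g = U 0

theorem two_pow_ge (h : ℕ) : ((h : ℝ) + 1) * 4 ^ h ≤ 8 ^ h := by
  have h1 : ((h : ℝ) + 1) ≤ 2 ^ h := by
    have : h + 1 ≤ 2 ^ h := Nat.lt_two_pow_self
    exact_mod_cast this
  calc ((h : ℝ) + 1) * 4 ^ h ≤ 2 ^ h * 4 ^ h := mul_le_mul_of_nonneg_right h1 (by positivity)
    _ = 8 ^ h := by rw [← mul_pow]; norm_num

theorem Inv.start : Inv (fun _ => 1) 0 1 where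
  nn _ := zero_le_one
  le _ := le_rfl
  sl := by
    intro i j hij
    simp only [Fn, one_mul]
    have h1 : (i : ℝ) ≤ j := by exact_mod_cast hij
    have h2 : (4 : ℝ) ^ i ≤ 4 ^ j := pow_le_pow_right₀ (by norm_num) hij
    have h3 : (0 : ℝ) < 4 ^ i := by positivity
    exact mul_le_mul (by linarith) h2 h3.le (by positivity)
  bd h := by
    rw [pow_zero, mul_one, one_mul]
    exact one_le_pow₀ (by norm_num)
  g0 := zero_le_one
  g1 := le_rfl
  eq _ := rfl

theorem Inv.N {U : ℕ → ℝ} {b : ℕ} {g : ℝ} (h : Inv U b g) : Inv (stp false U) (b + 1) g where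
  nn i := by
    cases i with
    | zero => rw [stpN_zero]; linarith [h.nn 0]
    | succ i => rw [stpN_succ]; linarith [h.nn i, h.nn (i + 1)]
  le i := by
    cases i with
    | zero => rw [stpN_zero]; linarith [h.le 0]
    | succ i => rw [stpN_succ]; linarith [h.le i, h.le (i + 1)]
  sl := h.sl.N
  bd i := by
    have hg : 0 ≤ g * (9 / 16 : ℝ) ^ b := mul_nonneg h.g0 (by positivity)
    cases i with
    | zero =>
      rw [stpN_zero]
      have h1 := h.bd 0
      rw [pow_succ]
      simp only [pow_zero, mul_one] at h1 ⊢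
      nlinarith
    | succ i =>
      rw [stpN_succ]
      have h1 := h.bd i
      have h2 := h.bd (i + 1)
      rw [pow_succ] at h2
      rw [pow_succ, pow_succ]
      nlinarith
  g0 := h.g0
  g1 := h.g1
  eq h' := absurd h' (Nat.succ_ne_zero b)

theorem nnE {U : ℕ → ℝ} (h : ∀ i, 0 ≤ U i) (i : ℕ) : 0 ≤ stp true U i := by
  rw [stpE]; linarith [h i, h (i + 1)]

theorem Inv.slE {U : ℕ → ℝ} {b : ℕ} {g : ℝ} (h : Inv U b g) : Sl (stp true U) (Fn (b - 4)) := by
  refine h.sl.E.trans (EF' b) (fun i => ?_) (nnE h.nn) fun i => (Fn_pos _ i).le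
  rw [stpE]; linarith [Fn_pos b i, Fn_pos b (i + 1)]

theorem Inv.E {U : ℕ → ℝ} {b : ℕ} {g : ℝ} (h : Inv U b g) (hb : b ≤ 4) :
    Inv (stp true U) 0 (stp true U 0) where
  nn := nnE h.nn
  le i := by rw [stpE]; linarith [h.le i, h.le (i + 1)]
  sl := by
    have := h.slE
    rwa [show b - 4 = 0 by omega] at this
  bd i := by
    have h1 := h.slE
    rw [show b - 4 = 0 by omega] at h1
    have h2 := h1 0 i (Nat.zero_le i)
    simp only [Fn, CharP.cast_eq_zero, zero_add, pow_zero, mul_one] at h2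
    rw [pow_zero, mul_one]
    exact h2.trans (mul_le_mul_of_nonneg_left (two_pow_ge i) (nnE h.nn 0))
  g0 := nnE h.nn 0
  g1 := by rw [stpE]; linarith [h.le 0, h.le 1]
  eq _ := rfl

theorem Inv.E' {U : ℕ → ℝ} {b : ℕ} {g : ℝ} (h : Inv U b g) (hb : ¬ b ≤ 4) :
    Inv (stp true U) (b - 4) (9 / 2 * (9 / 16) ^ 4 * g) where
  nn := nnE h.nn
  le i := by rw [stpE]; linarith [h.le i, h.le (i + 1)]
  sl := h.slE
  bd i := by
    obtain ⟨n, rfl⟩ : ∃ n, b = n + 4 := ⟨b - 4, by omega⟩
    rw [stpE, Nat.add_sub_cancel]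
    have h1 := h.bd i
    have h2 := h.bd (i + 1)
    rw [pow_add] at h1 h2
    rw [pow_succ (8 : ℝ) i] at h2
    linarith
  g0 := mul_nonneg (by norm_num) h.g0
  g1 := by
    have h1 := h.g0
    have h2 := h.g1
    norm_num
    linarith
  eq h' := absurd h' (by omega)

theorem inv (e : ℕ → Bool) {v t : ℕ} (h : v ≤ t) : Inv (P e v t) (Q e v t).1 (Q e v t).2 := by
  induction t, h using Nat.le_induction with
  | base => rw [P_self, Q_self]; exact Inv.start
  | succ t h ih =>
    rw [P_succ e h]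
    cases he : e t with
    | false => rw [Q_N e h he]; exact ih.N
    | true =>
      by_cases hq : (Q e v t).1 ≤ 4
      · rw [Q_E e h he hq, P_succ e h, he]
        exact ih.E hq
      · rw [Q_E' e h he hq]
        exact ih.E' hq

/-- the inequality for one particle and one step -/
theorem step1 (e : ℕ → Bool) {v t : ℕ} (h : v ≤ t) :
    (if e t = true then P e v t 2 else 0) ≤ 416 * (if e t = true then P e v t 0 else 0)
      + 64 * ((Q e v t).2 - (Q e v (t + 1)).2) := by
  have hI := inv e h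
  cases he : e t with
  | false =>
    rw [Q_N e h he]
    simp
  | true =>
    rw [if_pos rfl, if_pos rfl]
    by_cases hq : (Q e v t).1 ≤ 4
    · rw [Q_E e h he hq, P_succ e h, he, stpE, zero_add]
      -- `U 1 ≤ 12 U 0`
      have h1 := hI.sl 0 1 (by norm_num)
      rw [Fn_zero, Fn_one] at h1
      have h2 : (0 : ℝ) < (1 / 2) ^ (Q e v t).1 := by positivity
      have h3 : P e v t 1 ≤ P e v t 0 * (8 + (Q e v t).1) := by
        have h4 : (1 / 2 : ℝ) ^ (Q e v t).1 * P e v t 1
            ≤ (1 / 2 : ℝ) ^ (Q e v t).1 * (P e v t 0 * (8 + (Q e v t).1)) := by linarith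
        exact le_of_mul_le_mul_left h4 h2
      have h5 : ((Q e v t).1 : ℝ) ≤ 4 := by exact_mod_cast hq
      have h6 : P e v t 0 * (8 + (Q e v t).1) ≤ P e v t 0 * 12 :=
        mul_le_mul_of_nonneg_left (by linarith) (hI.nn 0)
      have h7 := hI.bd 2
      have h8 : (9 / 16 : ℝ) ^ (Q e v t).1 ≤ 1 := pow_le_one₀ (by norm_num) (by norm_num)
      have h9 : (Q e v t).2 * (9 / 16) ^ (Q e v t).1 ≤ (Q e v t).2 * 1 :=
        mul_le_mul_of_nonneg_left h8 hI.g0
      linarith
    · rw [Q_E' e h he hq]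
      have h7 := hI.bd 2
      have h8 : (9 / 16 : ℝ) ^ (Q e v t).1 ≤ (9 / 16) ^ 2 :=
        pow_le_pow_of_le_one (by norm_num) (by norm_num) (by omega)
      have h9 : (Q e v t).2 * (9 / 16) ^ (Q e v t).1 ≤ (Q e v t).2 * (9 / 16) ^ 2 :=
        mul_le_mul_of_nonneg_left h8 hI.g0
      have h10 := hI.nn 0
      have h11 := hI.g0
      norm_num at h7 h9 ⊢
      linarith

theorem stp_sum (b : Bool) (s : Finset ℕ) (f : ℕ → ℕ → ℝ) (h : ℕ) :
    stp b (fun h => ∑ v ∈ s, f v h) h = ∑ v ∈ s, stp b (f v) h := by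
  cases b with
  | true =>
    simp only [stpE]
    rw [← Finset.sum_add_distrib, Finset.sum_div]
  | false =>
    cases h with
    | zero =>
      simp only [stpN_zero]
      rw [Finset.sum_div]
    | succ h =>
      simp only [stpN_succ]
      rw [← Finset.sum_add_distrib, Finset.sum_div]

theorem prof_eq (e : ℕ → Bool) (t : ℕ) : prof e t = fun h => ∑ v ∈ range (t + 1), P e v t h := by
  induction t with
  | zero => funext h; simp [prof, P]
  | succ t ih =>
    funext h
    simp only [prof]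
    rw [ih, stp_sum, Finset.sum_range_succ _ (t + 1), P_self]
    congr 1
    refine Finset.sum_congr rfl fun v hv => ?_
    rw [mem_range] at hv
    rw [P_succ e (by omega)]

/-- the sum of the potentials -/
noncomputable def Gs (e : ℕ → Bool) (t : ℕ) : ℝ := ∑ v ∈ range (t + 1), (Q e v t).2

theorem step2 (e : ℕ → Bool) (t : ℕ) :
    (if e t = true then prof e t 2 else 0) ≤ 416 * (if e t = true then prof e t 0 else 0)
      + 64 * (Gs e t - Gs e (t + 1) + 1) := by
  have h1 : Gs e (t + 1) = ∑ v ∈ range (t + 1), (Q e v (t + 1)).2 + 1 := by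
    unfold Gs
    rw [Finset.sum_range_succ _ (t + 1), Q_self]
  have h2 : ∀ k : ℕ, (if e t = true then prof e t k else 0)
      = ∑ v ∈ range (t + 1), (if e t = true then P e v t k else 0) := by
    intro k
    rw [prof_eq]
    split_ifs
    · rfl
    · simp
  rw [h1, h2, h2]
  unfold Gs
  have h3 : 64 * (∑ v ∈ range (t + 1), (Q e v t).2
      - (∑ v ∈ range (t + 1), (Q e v (t + 1)).2 + 1) + 1)
      = ∑ v ∈ range (t + 1), 64 * ((Q e v t).2 - (Q e v (t + 1)).2) := by
    rw [← Finset.mul_sum, Finset.sum_sub_distrib]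
    ring
  rw [h3, Finset.mul_sum, ← Finset.sum_add_distrib]
  refine Finset.sum_le_sum fun v hv => ?_
  rw [mem_range] at hv
  exact step1 e (by omega)

theorem step3 (e : ℕ → Bool) {t0 t1 : ℕ} (h : t0 ≤ t1) :
    ∑ t ∈ est e t0 t1, prof e t 2 ≤ 416 * ∑ t ∈ est e t0 t1, prof e t 0
      + 64 * (Gs e t0 - Gs e t1 + ((t1 : ℝ) - t0)) := by
  unfold est
  rw [sum_filter, sum_filter]
  induction t1, h using Nat.le_induction with
  | base => simp
  | succ t1 h ih =>
    rw [sum_Ico_succ_top h, sum_Ico_succ_top h]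
    have h1 := step2 e t1
    push_cast
    linarith

theorem Gs_nonneg (e : ℕ → Bool) (t : ℕ) : 0 ≤ Gs e t :=
  Finset.sum_nonneg fun v hv => (inv e (by rw [mem_range] at hv; omega)).g0

theorem mono0 (e : ℕ → Bool) {v t : ℕ} (h : v ≤ t) : (Q e v t).1 ≤ (Q e 0 t).1 := by
  induction t, h using Nat.le_induction with
  | base => rw [Q_self]; exact Nat.zero_le _
  | succ t h ih =>
    cases he : e t with
    | false =>
      rw [Q_N e h he, Q_N e (Nat.zero_le t) he]
      exact Nat.succ_le_succ ih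
    | true =>
      by_cases hq : (Q e v t).1 ≤ 4
      · rw [Q_E e h he hq]
        exact Nat.zero_le _
      · have hq' : ¬ (Q e 0 t).1 ≤ 4 := by omega
        rw [Q_E' e h he hq, Q_E' e (Nat.zero_le t) he hq']
        exact Nat.sub_le_sub_right ih 4

theorem busy (e : ℕ → Bool) (t : ℕ) : ∃ s ≤ t, (∀ v ≤ s, (Q e v t).1 = (Q e 0 t).1) ∧
    ∑ v ∈ range (s + 1), (Q e v t).2 ≤ prof e s 0 ∧
    3 * ((t : ℤ) - s) + 2 * ((Q e 0 t).1 : ℤ) = 5 * (WW e s - WW e t) := by
  induction t with
  | zero =>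
    refine ⟨0, le_rfl, ?_, ?_, ?_⟩
    · intro v hv
      have : v = 0 := by omega
      rw [this]
    · simp [prof, Q]
    · simp [Q]
  | succ t ih =>
    by_cases h0 : (Q e 0 (t + 1)).1 = 0
    · refine ⟨t + 1, le_rfl, ?_, ?_, ?_⟩
      · intro v hv
        have := mono0 e hv
        omega
      · apply le_of_eq
        rw [prof_eq]
        refine Finset.sum_congr rfl fun v hv => ?_
        rw [mem_range] at hv
        apply (inv e (by omega)).eq
        have := mono0 e (v := v) (t := t + 1) (by omega)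
        omega
      · rw [h0]
        simp
    · obtain ⟨s, hs, h1, h2, h3⟩ := ih
      have hW : WW e (t + 1) = WW e t + sgn (e t) := by
        unfold WW
        rw [Finset.sum_range_succ]
      cases he : e t with
      | false =>
        refine ⟨s, by omega, ?_, ?_, ?_⟩
        · intro v hv
          rw [Q_N e (by omega) he, Q_N e (by omega) he, h1 v hv]
        · refine le_trans (le_of_eq ?_) h2
          refine Finset.sum_congr rfl fun v hv => ?_
          rw [mem_range] at hv
          rw [Q_N e (by omega) he]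
        · rw [Q_N e (by omega) he, hW, he]
          simp only [sgn, Bool.false_eq_true, if_false]
          push_cast
          linarith
      | true =>
        have hq : ¬ (Q e 0 t).1 ≤ 4 := by
          intro hq
          rw [Q_E e (by omega) he hq] at h0
          exact h0 rfl
        refine ⟨s, by omega, ?_, ?_, ?_⟩
        · intro v hv
          have hq' : ¬ (Q e v t).1 ≤ 4 := by rw [h1 v hv]; exact hq
          rw [Q_E' e (by omega) he hq, Q_E' e (by omega) he hq', h1 v hv]
        · refine le_trans (Finset.sum_le_sum fun v hv => ?_) h2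
          rw [mem_range] at hv
          have hq' : ¬ (Q e v t).1 ≤ 4 := by rw [h1 v (by omega)]; exact hq
          rw [Q_E' e (by omega) he hq']
          have h4 := (inv e (v := v) (t := t) (by omega)).g0
          norm_num
          linarith
        · rw [Q_E' e (by omega) he hq, hW, he]
          simp only [sgn, if_true]
          have h5 : (((Q e 0 t).1 - 4 : ℕ) : ℤ) = ((Q e 0 t).1 : ℤ) - 4 := by
            rw [Nat.cast_sub (by omega)]
            rfl
          rw [h5]
          push_cast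
          linarith

theorem Gs_le (e : ℕ → Bool) (t W : ℕ) (M : ℝ)
    (hW : ∀ s : ℕ, s ≤ t → |WW e t - WW e s| ≤ (W : ℤ)) (hM : ∀ s ≤ t, prof e s 0 ≤ M) :
    Gs e t ≤ M + 2 * W := by
  obtain ⟨s, hs, h1, h2, h3⟩ := busy e t
  have h4 : Gs e t ≤ ∑ v ∈ range (s + 1), (Q e v t).2 + ((t : ℝ) - s) := by
    unfold Gs
    have h5 : range (t + 1) = range (s + 1) ∪ Ico (s + 1) (t + 1) := by
      ext x
      simp only [mem_union, mem_range, mem_Ico]
      omega
    have h6 : Disjoint (range (s + 1)) (Ico (s + 1) (t + 1)) := by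
      rw [Finset.disjoint_left]
      intro x hx hx'
      rw [mem_range] at hx
      rw [mem_Ico] at hx'
      omega
    rw [h5, Finset.sum_union h6]
    have h7 : ∑ v ∈ Ico (s + 1) (t + 1), (Q e v t).2 ≤ ∑ v ∈ Ico (s + 1) (t + 1), (1 : ℝ) := by
      refine Finset.sum_le_sum fun v hv => ?_
      rw [mem_Ico] at hv
      exact (inv e (by omega)).g1
    have h8 : ∑ v ∈ Ico (s + 1) (t + 1), (1 : ℝ) = (t : ℝ) - s := by
      rw [Finset.sum_const, Nat.card_Ico, nsmul_eq_mul, mul_one, Nat.cast_sub (by omega)]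
      push_cast
      ring
    linarith
  have h5 := hM s hs
  have h6 : WW e s - WW e t ≤ (W : ℤ) := by
    have := hW s hs
    rw [abs_le] at this
    linarith
  have h7 : (t : ℤ) - s ≤ 2 * W := by omega
  have h8 : (t : ℝ) - s ≤ 2 * W := by exact_mod_cast h7
  linarith

end SloL

/-- [SLO] -/
theorem slo : S_SLO := by
  refine ⟨416, by norm_num, ?_⟩
  intro e t0 t1 W M h01 hW hM
  have h1 := SloL.step3 e h01
  have h2 := SloL.Gs_nonneg e t1
  have h3 := SloL.Gs_le e t0 W M (fun s hs => hW s t0 hs h01) hM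
  have h4 : (0 : ℝ) ≤ (t1 : ℝ) - t0 := by
    have : (t0 : ℝ) ≤ t1 := by exact_mod_cast h01
    linarith
  have h5 : 0 ≤ M := by
    refine le_trans ?_ (hM t0 le_rfl)
    rw [SloL.prof_eq]
    refine Finset.sum_nonneg fun v hv => ?_
    rw [mem_range] at hv
    exact (SloL.inv e (by omega)).nn 0
  have h6 : (0 : ℝ) ≤ W := Nat.cast_nonneg W
  linarith

end Pool.Agent.Helper57K9.XZ
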