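import Pool.Agent.Helper57K9.XZ.Nvx

/-!
# Leaf SPC
-/

set_option autoImplicit false

namespace Pool.Agent.Helper57K9.XZ

open Finset Pool.Agent.Helper5K9.ZN

open NvxL in
/-- **SPC** -/
theorem spc (hP : S_PLA) (hN : S_NEB) : S_SPC := by
  intro n K k t u e p hB hp hO
  obtain ⟨hn, hB1, hLam⟩ := big n K hB
  have hD3 : (D3 K : ℤ) = 10000 * Lam K := by unfold D3; push_cast; ring
  have hD2 : (D2 K : ℤ) = 2000 * Lam K := by unfold D2; push_cast; ring
  have hGG : (GG K : ℤ) = 610 * Lam K := by unfold GG; push_cast; ring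
  have hB2 : 1000000 * (Lam K : ℤ) ≤ n := by exact_mod_cast hB1
  have hL1 : (1000 : ℤ) ≤ Lam K := by exact_mod_cast hLam
  rcases le_or_gt (2 * GG K + D2 K) t with ht | ht
  · obtain ⟨s0, hs0⟩ := Nat.exists_eq_add_of_le' ht
    have h1 := hO s0 (by omega)
    unfold OkC at h1
    refine lt_of_le_of_lt (card_le_card ?_) h1
    intro z hz
    simp only [Spec, mem_filter, mem_univ, true_and] at hz
    obtain ⟨s, hs1, hs2, hs3, hs4⟩ := hz
    simp only [mem_filter, mem_univ, true_and]
    have h2 : s0 ≤ s := by omega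
    obtain ⟨w, hw⟩ := Nat.exists_eq_add_of_le h2
    have hw1 : D2 K ≤ w := by omega
    have hw2 : w ≤ D2 K + 3 * GG K := by omega
    have hw1' : (D2 K : ℤ) ≤ w := by exact_mod_cast hw1
    have hw2' : (w : ℤ) ≤ D2 K + 3 * GG K := by exact_mod_cast hw2
    have h3 : 4 * (L1 (du n (u z) e (p z) s) + 2 * (w : ℤ)) + 8 ≤ (n : ℤ) := by
      unfold PD at hs4
      linarith
    obtain ⟨a1, a2⟩ := hN n (u z) e (p z) w s hn (hp z).1 (by omega) h3 hs3
    have h4 : s - w = s0 := by omega
    rw [h4] at a1 a2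
    have h5 : (0 : ℤ) ≤ L1 (du n (u z) e (p z) s) := by unfold L1; positivity
    unfold PD at hs4 ⊢
    refine ⟨a1, ?_, ?_⟩
    · rw [a2]
      linarith
    · rw [a2]
      linarith
  · have h1 : Spec n K u e p t = ∅ := by
      rw [Finset.eq_empty_iff_forall_notMem]
      intro z hz
      simp only [Spec, mem_filter, mem_univ, true_and] at hz
      obtain ⟨s, hs1, hs2, hs3, hs4⟩ := hz
      have h2 := drop0 hP n (u z) e (p z) hn (hp z).1 s
      have h3 := (hp z).2
      have h4 : (s : ℤ) ≤ 3 * GG K + D2 K := by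
        have : s ≤ 3 * GG K + D2 K := by omega
        exact_mod_cast this
      unfold PD at hs4
      linarith
    rw [h1]
    simp

end Pool.Agent.Helper57K9.XZ
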