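import Pool.Agent.Helper57K9.XZ.Stm2

/-!
# One round in linear form, and the phases of a zombie (helper5)
-/

set_option autoImplicit false

namespace Pool.Agent.Helper57K9.XZ

open Finset Pool.Agent.Helper5K9.ZN

namespace FarL

/-- a coordinate moves towards `0` -/
def TwU (n : ℕ) (a a' : ℤ) : Prop :=
  (0 < a ∧ a' = a - 1) ∨ (a < 0 ∧ a' = a + 1) ∨ (a = 0 ∧ a' = 0) ∨ (2 * a = (n : ℤ) ∧ a' = a + 1 - n)

theorem hx_cases (n : ℕ) (s : Bool) (a : ℤ) : TwU n a (hx n s a) := by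
  unfold TwU hx
  by_cases h : 2 * a = n ∧ s = false
  · rw [if_pos h]; exact Or.inr (Or.inr (Or.inr ⟨h.1, rfl⟩))
  · rw [if_neg h]
    rcases lt_trichotomy a 0 with hx | hx | hx
    · exact Or.inr (Or.inl ⟨hx, by rw [Int.sign_eq_neg_one_of_neg hx]; ring⟩)
    · exact Or.inr (Or.inr (Or.inl ⟨hx, by subst hx; simp⟩))
    · exact Or.inl ⟨hx, by rw [Int.sign_eq_one_of_pos hx]⟩

/-- any move of a zombie -/
def ZA (n : ℕ) (x y x1 y1 : ℤ) : Prop :=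
  ((y = 0 ∨ x ≠ 0) ∧ y1 = y ∧ TwU n x x1) ∨ (y ≠ 0 ∧ x1 = x ∧ TwU n y y1)

theorem zu_any (n : ℕ) (u : Fin 12) (q : ℤ × ℤ) : ZA n q.1 q.2 (zu n u q).1 (zu n u q).2 := by
  unfold zu zmg ZA
  by_cases h : q.2 = 0 ∨ ((cfs n u q).1 = true ∧ q.1 ≠ 0)
  · rw [if_pos h]
    left
    exact ⟨by tauto, rfl, hx_cases _ _ _⟩
  · rw [if_neg h]
    push Not at h
    right
    exact ⟨h.1, rfl, hx_cases _ _ _⟩

/-- a move of a zombie without ties, `sc` the sign of the base bit -/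
def ZF (sc x y x1 y1 : ℤ) : Prop :=
  (((y = 0 ∨ (sc = 1 ∧ x ≠ 0)) ∧ y1 = y ∧
      ((0 < x ∧ x1 = x - 1) ∨ (x < 0 ∧ x1 = x + 1) ∨ (x = 0 ∧ x1 = 0))) ∨
    (y ≠ 0 ∧ (sc = -1 ∨ x = 0) ∧ x1 = x ∧ ((0 < y ∧ y1 = y - 1) ∨ (y < 0 ∧ y1 = y + 1))))

theorem sgn_cs (b : Bool) : sgn b = 1 ∨ sgn b = -1 := by cases b <;> simp [sgn]

theorem zu_front (n : ℕ) (u : Fin 12) (q : ℤ × ℤ) (h1 : 2 * q.1 ≠ n) (h2 : 2 * q.2 ≠ n) :
    ZF (sgn (bt u)) q.1 q.2 (zu n u q).1 (zu n u q).2 := by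
  have hc : cfs n u q = (bt u, true) := by
    unfold cfs bt
    rw [if_neg h1, if_neg h2]
  have hxt : ∀ a : ℤ, hx n true a = a - a.sign := by
    intro a; unfold hx; simp
  have hsg : ∀ a : ℤ, (0 < a ∧ a - a.sign = a - 1) ∨ (a < 0 ∧ a - a.sign = a + 1) ∨
      (a = 0 ∧ a - a.sign = 0) := by
    intro x
    rcases lt_trichotomy x 0 with hx | hx | hx
    · right; left; exact ⟨hx, by rw [Int.sign_eq_neg_one_of_neg hx]; ring⟩
    · right; right; exact ⟨hx, by subst hx; simp⟩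
    · left; exact ⟨hx, by rw [Int.sign_eq_one_of_pos hx]⟩
  unfold zu zmg ZF
  rw [hc]
  simp only [hxt]
  by_cases h : q.2 = 0 ∨ (bt u = true ∧ q.1 ≠ 0)
  · rw [if_pos h]
    left
    refine ⟨?_, rfl, hsg _⟩
    rcases h with h | ⟨h, h'⟩
    · exact Or.inl h
    · exact Or.inr ⟨by rw [h]; rfl, h'⟩
  · rw [if_neg h]
    push Not at h
    right
    refine ⟨h.1, ?_, rfl, ?_⟩
    · cases hb : bt u with
      | true => exact Or.inr (h.2 hb)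
      | false => exact Or.inl rfl
    · rcases hsg q.2 with hh | hh | hh
      · exact Or.inl hh
      · exact Or.inr hh
      · exact absurd hh.1 h.1

/-- the move of the survivor, linear form -/
def SM (n : ℕ) (se x1 y1 x' y' : ℤ) : Prop :=
  ((se = 1 ∧ y' = y1 ∧ ((2 * (x1 - 1) ≤ -(n : ℤ) ∧ x' = x1 - 1 + n) ∨
      (-(n : ℤ) < 2 * (x1 - 1) ∧ x' = x1 - 1))) ∨
    (se = -1 ∧ x' = x1 ∧ ((2 * (y1 - 1) ≤ -(n : ℤ) ∧ y' = y1 - 1 + n) ∨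
      (-(n : ℤ) < 2 * (y1 - 1) ∧ y' = y1 - 1))))

theorem smg_lin (n : ℕ) (e : Bool) (m : ℤ × ℤ) (h1 : 2 * m.1 ≤ n) (h2 : 2 * m.2 ≤ n) :
    SM n (sgn e) m.1 m.2 (smg n e m).1 (smg n e m).2 := by
  have key : ∀ a : ℤ, 2 * a ≤ n → (2 * (a - 1) ≤ -(n : ℤ) ∧ wrn n (a - 1) = a - 1 + n) ∨
      (-(n : ℤ) < 2 * (a - 1) ∧ wrn n (a - 1) = a - 1) := by
    intro a ha
    unfold wrn
    by_cases h : 2 * (a - 1) ≤ -(n : ℤ)
    · left; rw [if_pos h]; exact ⟨h, rfl⟩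
    · right
      rw [if_neg h, if_neg (by omega)]
      exact ⟨by omega, rfl⟩
  unfold SM smg
  cases e with
  | false =>
    right
    simp only [sgn, Bool.false_eq_true, if_false]
    exact ⟨trivial, trivial, key m.2 h2⟩
  | true =>
    left
    simp only [sgn, if_true]
    exact ⟨trivial, trivial, key m.1 h1⟩

/-- in the box -/
def BxI (n : ℕ) (q : ℤ × ℤ) : Prop :=
  (-(n : ℤ) < 2 * q.1 ∧ 2 * q.1 ≤ n) ∧ (-(n : ℤ) < 2 * q.2 ∧ 2 * q.2 ≤ n)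

theorem bxI_of {n : ℕ} {q : ℤ × ℤ} (h : q ∈ Boxn n) : BxI n q := by
  unfold Boxn In at h
  rw [mem_product, mem_filter, mem_filter] at h
  exact ⟨h.1.2, h.2.2⟩

theorem zu_bx {n : ℕ} (hn : 3 ≤ n) (u : Fin 12) {q : ℤ × ℤ} (h : BxI n q) : BxI n (zu n u q) := by
  have := zu_any n u q
  unfold BxI ZA TwU at *
  omega

theorem smg_bx {n : ℕ} (hn : 3 ≤ n) (e : Bool) {q : ℤ × ℤ} (h : BxI n q) : BxI n (smg n e q) := by
  have h1 := smg_lin n e q h.1.2 h.2.2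
  have h2 := sgn_cs e
  unfold BxI SM at *
  omega

theorem tu_bx {n : ℕ} (hn : 3 ≤ n) (u : ℕ → Fin 12) (e : ℕ → Bool) {p : ℤ × ℤ} (hp : p ∈ Boxn n)
    (t : ℕ) : BxI n (tu n u e p t) := by
  induction t with
  | zero => exact bxI_of hp
  | succ t ih => exact smg_bx hn _ (zu_bx hn _ ih)

theorem du_bx {n : ℕ} (hn : 3 ≤ n) (u : ℕ → Fin 12) (e : ℕ → Bool) {p : ℤ × ℤ} (hp : p ∈ Boxn n)
    (t : ℕ) : BxI n (du n u e p t) := zu_bx hn _ (tu_bx hn u e hp t)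

theorem du_succ (n : ℕ) (u : ℕ → Fin 12) (e : ℕ → Bool) (p : ℤ × ℤ) (t : ℕ) :
    du n u e p (t + 1) = zu n (u (t + 1)) (smg n (e t) (du n u e p t)) := rfl

/-- one round, any position -/
theorem any_step {n : ℕ} (hn : 3 ≤ n) (u : ℕ → Fin 12) (e : ℕ → Bool) {p : ℤ × ℤ}
    (hp : p ∈ Boxn n) (t : ℕ) : ∃ x y : ℤ,
    SM n (sgn (e t)) (du n u e p t).1 (du n u e p t).2 x y ∧
    ZA n x y (du n u e p (t + 1)).1 (du n u e p (t + 1)).2 := by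
  have hb := du_bx hn u e hp t
  exact ⟨_, _, smg_lin n (e t) _ hb.1.2 hb.2.2, by rw [du_succ]; exact zu_any _ _ _⟩

/-- one round without ties -/
theorem front_step {n : ℕ} (hn : 3 ≤ n) (u : ℕ → Fin 12) (e : ℕ → Bool) {p : ℤ × ℤ}
    (hp : p ∈ Boxn n) (t : ℕ) : ∃ x y : ℤ,
    SM n (sgn (e t)) (du n u e p t).1 (du n u e p t).2 x y ∧
    (2 * x ≠ n → 2 * y ≠ n →
      ZF (sgn (bts u (t + 1))) x y (du n u e p (t + 1)).1 (du n u e p (t + 1)).2) := by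
  have hb := du_bx hn u e hp t
  exact ⟨_, _, smg_lin n (e t) _ hb.1.2 hb.2.2, fun h1 h2 => by
    rw [du_succ]; exact zu_front _ _ _ h1 h2⟩

theorem WWs (c : ℕ → Bool) (t : ℕ) : WW c (t + 1) = WW c t + sgn (c t) := by
  simp [WW, Finset.sum_range_succ]

theorem xEs (e : ℕ → Bool) (t : ℕ) : 2 * xE e (t + 1) = 2 * xE e t + 1 + sgn (e t) := by
  unfold xE
  rw [Finset.sum_range_succ]
  cases e t <;> simp [sgn] <;> ring

theorem xE_WW (e : ℕ → Bool) (t : ℕ) : 2 * xE e t = t + WW e t := by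
  induction t with
  | zero => simp [xE, WW]
  | succ t ih => rw [xEs, WWs, ih]; push_cast; ring

end FarL

end Pool.Agent.Helper57K9.XZ
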