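import Pool.Agent.Helper57K9.XZ.Stm3
import Pool.Agent.Helper57K9.XZ.FarK
import Pool.Agent.Helper5K9.ZN.Main

/-!
# SPH: the strategy of `ZN` against the special zombies (helper5)
-/

set_option autoImplicit false

namespace Pool.Agent.Helper57K9.XZ

open Finset Pool.Agent.Helper5K9.ZN

namespace SphL

open FarL

/-- the distance to the survivor is at most `B` -/
def LB (B : ℤ) (q : ℤ × ℤ) : Prop :=
  q.1 + q.2 ≤ B ∧ q.1 - q.2 ≤ B ∧ -q.1 + q.2 ≤ B ∧ -q.1 - q.2 ≤ B

theorem LB_iff (B : ℤ) (q : ℤ × ℤ) : LB B q ↔ L1 q ≤ B := by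
  unfold LB L1
  constructor
  · rintro ⟨h1, h2, h3, h4⟩
    rcases abs_cases q.1 with ⟨a, _⟩ | ⟨a, _⟩ <;> rcases abs_cases q.2 with ⟨b, _⟩ | ⟨b, _⟩ <;>
      rw [a, b] <;> linarith
  · intro h
    have a1 := le_abs_self q.1
    have a2 := neg_le_abs q.1
    have b1 := le_abs_self q.2
    have b2 := neg_le_abs q.2
    exact ⟨by linarith, by linarith, by linarith, by linarith⟩

theorem zm_ZF (c : Bool) (q : ℤ × ℤ) : ZF (sgn c) q.1 q.2 (zm c q).1 (zm c q).2 := by
  have hsg : ∀ a : ℤ, (0 < a ∧ a - a.sign = a - 1) ∨ (a < 0 ∧ a - a.sign = a + 1) ∨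
      (a = 0 ∧ a - a.sign = 0) := by
    intro x
    rcases lt_trichotomy x 0 with hx | hx | hx
    · right; left; exact ⟨hx, by rw [Int.sign_eq_neg_one_of_neg hx]; ring⟩
    · right; right; exact ⟨hx, by subst hx; simp⟩
    · left; exact ⟨hx, by rw [Int.sign_eq_one_of_pos hx]⟩
  unfold ZF zm
  by_cases h : q.2 = 0 ∨ (c = true ∧ q.1 ≠ 0)
  · rw [if_pos h]
    left
    refine ⟨?_, rfl, hsg _⟩
    rcases h with h | ⟨h, h'⟩
    · exact Or.inl h
    · exact Or.inr ⟨by rw [h]; rfl, h'⟩
  · rw [if_neg h]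
    push Not at h
    right
    refine ⟨h.1, ?_, rfl, ?_⟩
    · cases hb : c with
      | true => exact Or.inr (h.2 hb)
      | false => exact Or.inl rfl
    · rcases hsg q.2 with hh | hh | hh
      · exact Or.inl hh
      · exact Or.inr hh
      · exact absurd hh.1 h.1

/-- without ties the move of a zombie is the move of `ZN` -/
theorem zu_eq (n : ℕ) (u : Fin 12) (q : ℤ × ℤ) (h1 : 2 * q.1 ≠ n) (h2 : 2 * q.2 ≠ n) :
    zu n u q = zm (bt u) q := by
  have hc : cfs n u q = (bt u, true) := by
    unfold cfs bt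
    rw [if_neg h1, if_neg h2]
  have hxt : ∀ a : ℤ, hx n true a = a - a.sign := by
    intro a; unfold hx; simp
  unfold zu zmg zm
  rw [hc]
  simp only [hxt]

/-- without wrapping around the move of the survivor is the move of `ZN` -/
theorem smg_eq (n : ℕ) (e : Bool) (q : ℤ × ℤ) (h1 : -(n : ℤ) + 2 < 2 * q.1) (h1' : 2 * q.1 ≤ n)
    (h2 : -(n : ℤ) + 2 < 2 * q.2) (h2' : 2 * q.2 ≤ n) :
    smg n e q = sm n e q := by
  have hw : ∀ a : ℤ, -(n : ℤ) + 2 < 2 * a → 2 * a ≤ n → wrn n (a - 1) = a - 1 ∧ wr n (a - 1) = a - 1 := by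
    intro a h h'
    unfold wrn wr
    rw [if_neg (by omega), if_neg (by omega), if_neg (by omega)]
    exact ⟨rfl, rfl⟩
  unfold smg sm
  cases e
  · simp only [Bool.false_eq_true, if_false]
    rw [(hw q.2 h2 h2').1, (hw q.2 h2 h2').2]
  · simp only [if_true]
    rw [(hw q.1 h1 h1').1, (hw q.1 h1 h1').2]

theorem sm_plain (n : ℕ) (e : Bool) (q : ℤ × ℤ) (h : BxI n q) (hn : 12 ≤ n) :
    sm n e q = if e then (q.1 - 1, q.2) else (q.1, q.2 - 1) := by
  unfold BxI at h
  unfold sm wr
  cases e
  · simp only [Bool.false_eq_true, if_false]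
    rw [if_neg (by omega)]
  · simp only [if_true]
    rw [if_neg (by omega)]

theorem harmless_safe {n K : ℕ} (hn : 12 ≤ n) {q : ℤ × ℤ} (hb : BxI n q) (hq : Harmless K q)
    (e : Bool) : 2 ≤ L1 (sm n e q) := by
  obtain ⟨h0, -, h2⟩ := hq
  rw [sm_plain n e q hb hn]
  have h0' : ¬ (q.1 = 0 ∧ q.2 = 0) := fun h => h0 (Prod.ext h.1 h.2)
  by_contra hcon
  push Not at hcon
  have hcon' : LB 1 (if e then (q.1 - 1, q.2) else (q.1, q.2 - 1)) := by
    rw [LB_iff]; omega
  have h2' : ¬ (Fr q ∧ LB 2 q) := by rw [LB_iff]; exact h2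
  unfold LB Fr at *
  cases e <;> simp only [Bool.false_eq_true, if_false, if_true] at hcon' <;> omega

variable {k k' : ℕ}

open Classical in
theorem upd_congr (h N K : ℕ) (m : Mem) (P : Fin k → ℤ × ℤ) (P' : Fin k' → ℤ × ℤ)
    (h1 : ∀ e, Safe h e P = Safe h e P') (h2 : ∀ D i, LaneOK N K P D i = LaneOK N K P' D i)
    (h3 : ∀ i, GapOK N K P i = GapOK N K P' i) : upd h N K m P = upd h N K m P' := by
  unfold upd
  simp only [h1, h2, h3]

theorem upd_sub (n K : ℕ) (hn : 12 ≤ n) (m : Mem) (P : Fin k → ℤ × ℤ) (P' : Fin k' → ℤ × ℤ)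
    (g : Fin k' → Fin k) (hg : ∀ z', P' z' = P (g z')) (hb : ∀ z, BxI n (P z))
    (hh : ∀ z, (∀ z', g z' ≠ z) → Harmless K (P z)) : upd n 30 K m P = upd n 30 K m P' := by
  refine upd_congr n 30 K m P P' ?_ ?_ ?_
  · intro e
    apply propext
    unfold Safe
    constructor
    · intro h z'
      rw [hg]; exact h _
    · intro h z
      by_cases hz : ∃ z', g z' = z
      · obtain ⟨z', rfl⟩ := hz
        rw [← hg]; exact h z'
      · push Not at hz
        exact harmless_safe hn (hb z) (hh z hz) e
  · intro D i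
    apply propext
    unfold LaneOK
    constructor
    · intro h z'
      rw [hg]; exact h _
    · intro h z a b c
      by_cases hz : ∃ z', g z' = z
      · obtain ⟨z', rfl⟩ := hz
        have := h z'
        rw [hg] at this
        exact this a b c
      · push Not at hz
        exact absurd ⟨⟨a, b⟩, c⟩ (hh z hz).2.1
  · intro i
    apply propext
    unfold GapOK
    constructor
    · intro h z'
      rw [hg]; exact h _
    · intro h z a b c
      by_cases hz : ∃ z', g z' = z
      · obtain ⟨z', rfl⟩ := hz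
        have := h z'
        rw [hg] at this
        exact this a b c
      · push Not at hz
        exact absurd ⟨⟨a, b⟩, c⟩ (hh z hz).2.1

theorem WW_shift (e : ℕ → Bool) (s0 s : ℕ) :
    WW (fun r => e (s0 + r)) s = WW e (s0 + s) - WW e s0 := by
  induction s with
  | zero => simp [WW]
  | succ s ih => rw [FarL.WWs, ih, ← Nat.add_assoc, FarL.WWs]; ring

theorem WW_congr {e e' : ℕ → Bool} {s : ℕ} (h : ∀ r < s, e r = e' r) : WW e s = WW e' s := by
  unfold WW
  exact sum_congr rfl fun r hr => by rw [h r (mem_range.mp hr)]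

end SphL

open FarL SphL in
/-- **SPH** -/
theorem sph : S_SPH := by
  classical
  intro n K k s0 L u e p m Z hbig hp hZ hm0 hm hz hout
  unfold Big at hbig
  have hF : 100 * Fe 30 K ≤ n := by
    unfold Lam RR Fq at hbig
    omega
  have hFpos : 600 ≤ Fe 30 K := by
    have := (Lo.nums (N := 30) (K := K) (by norm_num)).2.2.2.1
    have h1 := (Lo.nums (N := 30) (K := K) (by norm_num)).1
    have h2 := (Lo.nums (N := 30) (K := K) (by norm_num)).2.1
    omega
  have hn : 60000 ≤ n := by omega
  -- the sub-family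
  let g : Fin Z.card → Fin k := fun z => (Z.equivFin.symm z : Fin k)
  have hgZ : ∀ z', g z' ∈ Z := fun z' => (Z.equivFin.symm z').2
  have hgs : ∀ z, (∀ z', g z' ≠ z) → z ∉ Z := by
    intro z h hzZ
    exact h (Z.equivFin ⟨z, hzZ⟩) (by simp [g])
  let c' : ℕ → Fin Z.card → Bool := fun s z => bt (u (g z) (s0 + s))
  let p' : Fin Z.card → ℤ × ℤ := fun z => tu n (u (g z)) e (p (g z)) s0
  have hp' : ∀ z, LB ((n : ℤ) / 8) (p' z) := by
    intro z
    rw [LB_iff]
    have := (hz (g z) (hgZ z)).2.1
    change L1 (tu n (u (g z)) e (p (g z)) s0) ≤ _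
    omega
  have main := Lo.main 30 K n Z.card L c' p' (by norm_num) hF (by
      intro z
      have := hp' z
      unfold LB at this
      rw [Lo.box_iff]
      omega)
    (fun z => (hz (g z) (hgZ z)).2.2) (fun z => (hz (g z) (hgZ z)).1)
    (fun t _ _ => lt_of_le_of_lt (card_filter_le _ _) (by rw [card_univ, Fintype.card_fin]; exact hZ))
  set e' := mv n (strat n 30 K Z.card) c' p' with he'
  have key : ∀ s ≤ L, (play n (strat n 30 K Z.card) c' p' s).1 = m s ∧ (∀ r < s, e' r = e (s0 + r)) ∧
      ∀ z, (play n (strat n 30 K Z.card) c' p' s).2 z = tu n (u (g z)) e (p (g z)) (s0 + s) ∧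
        LB ((n : ℤ) / 8) (tu n (u (g z)) e (p (g z)) (s0 + s)) := by
    intro s
    induction s with
    | zero =>
      intro _
      exact ⟨hm0.symm, fun r hr => absurd hr (by omega), fun z => ⟨rfl, hp' z⟩⟩
    | succ s ih =>
      intro hs
      obtain ⟨i1, i2, i3⟩ := ih (by omega)
      have htube : ∀ r ≤ s, |WW e (s0 + r) - WW e s0| ≤ (Fe 30 K : ℤ) := by
        intro r hr
        have h1 := (main s (by omega)).1 r hr
        rw [WW_congr (fun r' hr' => i2 r' (by omega)), WW_shift] at h1
        exact h1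
      have hzm : ∀ z, zm (c' s z) ((play n (strat n 30 K Z.card) c' p' s).2 z) =
          PD n u e p (s0 + s) (g z) := by
        intro z
        rw [(i3 z).1]
        have hb := (i3 z).2
        unfold LB at hb
        unfold PD du
        rw [zu_eq _ _ _ (by omega) (by omega)]
      have hbx : ∀ z, BxI n (PD n u e p (s0 + s) z) := fun z => du_bx (by omega) _ _ (hp z) _
      have hmem : (play n (strat n 30 K Z.card) c' p' (s + 1)).1 = m (s + 1) := by
        rw [(hm s (by omega)).1]
        change upd n 30 K (play n (strat n 30 K Z.card) c' p' s).1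
          (fun z => zm (c' s z) ((play n (strat n 30 K Z.card) c' p' s).2 z)) = _
        rw [i1]
        refine (upd_sub n K (by omega) (m s) (PD n u e p (s0 + s)) _ g hzm hbx ?_).symm
        intro z hz'
        exact hout z (hgs z hz') s (by omega) htube
      have hee : e' s = e (s0 + s) := by
        rw [(hm s (by omega)).2, ← hmem]; rfl
      refine ⟨hmem, ?_, ?_⟩
      · intro r hr
        rcases Nat.lt_or_ge r s with h | h
        · exact i2 r h
        · have : r = s := by omega
          subst this; exact hee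
      · intro z
        have hb := (i3 z).2
        have h2 := (main s (by omega)).2 z
        rw [(i3 z).1] at h2
        have h2' : ¬ LB 1 (tu n (u (g z)) e (p (g z)) (s0 + s)) := by
          rw [LB_iff]; omega
        have hf := zu_front n (u (g z) (s0 + s)) (tu n (u (g z)) e (p (g z)) (s0 + s))
          (by unfold LB at hb; omega) (by unfold LB at hb; omega)
        have hs1 := sgn_cs (bt (u (g z) (s0 + s)))
        change ZF _ _ _ (du n (u (g z)) e (p (g z)) (s0 + s)).1
          (du n (u (g z)) e (p (g z)) (s0 + s)).2 at hf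
        have hbd : LB ((n : ℤ) / 8 - 1) (du n (u (g z)) e (p (g z)) (s0 + s)) := by
          unfold LB at hb h2' ⊢
          unfold ZF at hf
          omega
        have hsm : smg n (e (s0 + s)) (du n (u (g z)) e (p (g z)) (s0 + s)) =
            sm n (e (s0 + s)) (du n (u (g z)) e (p (g z)) (s0 + s)) := by
          unfold LB at hbd
          exact smg_eq _ _ _ (by omega) (by omega) (by omega) (by omega)
        constructor
        · change sm n ((strat n 30 K Z.card).out (play n (strat n 30 K Z.card) c' p' (s + 1)).1)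
            (zm (c' s z) ((play n (strat n 30 K Z.card) c' p' s).2 z)) =
            smg n (e (s0 + s)) (du n (u (g z)) e (p (g z)) (s0 + s))
          rw [hsm, hzm z, hmem, (hm s (by omega)).2]
          rfl
        · change LB _ (smg n (e (s0 + s)) (du n (u (g z)) e (p (g z)) (s0 + s)))
          have hbz : BxI n (du n (u (g z)) e (p (g z)) (s0 + s)) := hbx (g z)
          rw [hsm, sm_plain _ _ _ hbz (by omega)]
          unfold LB at *
          cases e (s0 + s) <;> simp only [Bool.false_eq_true, if_false, if_true] <;> omega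
  intro s hs
  obtain ⟨i1, i2, i3⟩ := key s hs
  constructor
  · have h1 := (main s hs).1 s (le_refl _)
    rw [WW_congr (fun r' hr' => i2 r' hr'), WW_shift] at h1
    exact h1
  · intro z hzZ
    have h2 := (main s hs).2 (Z.equivFin ⟨z, hzZ⟩)
    rw [(i3 _).1] at h2
    simpa [g] using h2

end Pool.Agent.Helper57K9.XZ
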