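import Pool.Agent.Helper57K9.XZ.Xdef

/-!
# The description of the play against the strategy
-/

set_option autoImplicit false

namespace Pool.Agent.Helper57K9.XZ

open Finset Pool.Agent.Helper5K9.ZN

namespace StrL

theorem lam_pos (K : ℕ) : 0 < Lam K := by
  unfold Lam RR Fq Fe lm dl
  positivity

variable {k : ℕ} (n K : ℕ) (c : ℕ → Fin k → Fin 12) (p : Fin k → ℤ × ℤ)

/-- the memory -/
noncomputable def xx (t : ℕ) : XM := (playn n (xs n K k) c p t).1

/-- the moves -/
noncomputable def em : ℕ → Bool := mvn n (xs n K k) c p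

/-- the positions at the decisions -/
noncomputable def Pt (t : ℕ) : Fin k → ℤ × ℤ := PD n (fun z s => c s z) (em n K c p) p t

theorem step (t : ℕ) : xx n K c p (t + 1) = xupd n K (xx n K c p t) (Pt n K c p t) := by
  have h : (fun z => zu n (c t z) ((playn n (xs n K k) c p t).2 z)) = Pt n K c p t := by
    funext z
    rw [playn_snd]
    rfl
  change xupd n K (playn n (xs n K k) c p t).1
    (fun z => zu n (c t z) ((playn n (xs n K k) c p t).2 z)) = _
  rw [h]
  rfl

theorem e_eq (t : ℕ) : (xx n K c p (t + 1)).e = em n K c p t := rfl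

theorem t_eq (t : ℕ) : (xx n K c p t).t = t := by
  induction t with
  | zero => rfl
  | succ t ih =>
    rw [step]
    change (xx n K c p t).t + 1 = t + 1
    rw [ih]

theorem v_eq (t : ℕ) : (xx n K c p t).v = WW (em n K c p) t := by
  induction t with
  | zero => simp [xx, playn, xs, WW]
  | succ t ih =>
    have h1 : (xx n K c p (t + 1)).v = (xx n K c p t).v + sgn (xx n K c p (t + 1)).e := by
      rw [step]
      rfl
    rw [h1, e_eq, ih, WW, WW, Finset.sum_range_succ]

theorem not_dvd (j r : ℕ) (hr : r + 1 < Lam K) : ¬ Lam K ∣ j * Lam K + (r + 1) := by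
  intro h
  have h1 : Lam K ∣ r + 1 := (Nat.dvd_add_right (Dvd.intro_left j rfl)).1 h
  exact absurd (Nat.le_of_dvd (Nat.succ_pos r) h1) (not_le.2 hr)

theorem div_eq (j r : ℕ) (hr : r < Lam K) : (j * Lam K + r) / Lam K = j := by
  rw [mul_comm, Nat.mul_add_div (lam_pos K), Nat.div_eq_of_lt hr, add_zero]

open Classical in
theorem cl_eq (j r : ℕ) (hr : r < Lam K) : (xx n K c p (j * Lam K + r + 1)).cl =
    decide (Clean K (Pt n K c p (j * Lam K))) := by
  induction r with
  | zero =>
    rw [add_zero, step]
    change (if Lam K ∣ (xx n K c p (j * Lam K)).t then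
      decide (Clean K (Pt n K c p (j * Lam K))) else _) = _
    rw [t_eq, if_pos (Dvd.intro_left j rfl)]
  | succ r ih =>
    rw [step]
    change (if Lam K ∣ (xx n K c p (j * Lam K + (r + 1))).t then
      decide (Clean K (Pt n K c p (j * Lam K + (r + 1)))) else
      (xx n K c p (j * Lam K + (r + 1))).cl) = _
    rw [t_eq, if_neg (not_dvd K j r hr)]
    have ih' := ih (by omega)
    rw [add_assoc] at ih'
    exact ih'

/-- the condition for the run -/
def Cd (j : ℕ) (s : ℕ) : Prop :=
  if j % 2 = 0 then WW (em n K c p) s < RR K else -(RR K : ℤ) < WW (em n K c p) s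

open Classical in
theorem rn_step (t : ℕ) : (xx n K c p (t + 1)).rn =
    ((if Lam K ∣ t then true else (xx n K c p t).rn) && decide (Cd n K c p (t / Lam K) t)) := by
  have h1 : (xx n K c p (t + 1)).rn = ((if Lam K ∣ (xx n K c p t).t then true else
      (xx n K c p t).rn) && (if (xx n K c p t).t / Lam K % 2 = 0 then
        decide ((xx n K c p t).v < RR K) else decide (-(RR K : ℤ) < (xx n K c p t).v))) := by
    rw [step]
    rfl
  rw [h1, t_eq, v_eq]
  congr 1
  unfold Cd
  split_ifs <;> rfl

open Classical in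
theorem rn_eq (j r : ℕ) (hr : r < Lam K) : (xx n K c p (j * Lam K + r + 1)).rn =
    decide (∀ s, j * Lam K ≤ s → s ≤ j * Lam K + r → Cd n K c p j s) := by
  induction r with
  | zero =>
    rw [add_zero, rn_step, if_pos (Dvd.intro_left j rfl), Bool.true_and]
    have hd := div_eq K j 0 (lam_pos K)
    rw [add_zero] at hd
    rw [hd]
    congr 1
    apply propext
    constructor
    · intro h s h1 h2
      have : s = j * Lam K := by omega
      rw [this]
      exact h
    · intro h
      exact h _ le_rfl le_rfl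
  | succ r ih =>
    have ih' := ih (by omega)
    rw [add_assoc] at ih'
    rw [rn_step, if_neg (not_dvd K j r hr), ih', div_eq K j (r + 1) hr, ← Bool.decide_and]
    congr 1
    apply propext
    constructor
    · rintro ⟨h1, h2⟩ s h3 h4
      rcases Nat.lt_or_ge s (j * Lam K + (r + 1)) with h5 | h5
      · exact h1 s h3 (by omega)
      · have : s = j * Lam K + (r + 1) := by omega
        rw [this]
        exact h2
    · intro h
      exact ⟨fun s h3 h4 => h s h3 (by omega), h _ (by omega) le_rfl⟩

open Classical in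
theorem m_step (t : ℕ) (h : (xx n K c p (t + 1)).cl = false) :
    (xx n K c p (t + 1)).m = upd n 30 K (if Lam K ∣ t ∧ (xx n K c p t).cl = true then m0 else
      (xx n K c p t).m) (Pt n K c p t) ∧ em n K c p t = (xx n K c p (t + 1)).m.e := by
  rw [step] at h
  have h0 : (if Lam K ∣ (xx n K c p t).t then decide (Clean K (Pt n K c p t)) else
      (xx n K c p t).cl) = false := h
  have h1 : (xx n K c p (t + 1)).m = upd n 30 K (if Lam K ∣ t ∧ (xx n K c p t).cl = true then m0
      else (xx n K c p t).m) (Pt n K c p t) := by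
    rw [step]
    change (if (if Lam K ∣ (xx n K c p t).t then decide (Clean K (Pt n K c p t)) else
      (xx n K c p t).cl) = true then (xx n K c p t).m else upd n 30 K (if Lam K ∣
        (xx n K c p t).t ∧ (xx n K c p t).cl = true then m0 else (xx n K c p t).m)
        (Pt n K c p t)) = _
    rw [h0, t_eq]
    rfl
  refine ⟨h1, ?_⟩
  rw [← e_eq, h1, step]
  change (if (if Lam K ∣ (xx n K c p t).t then decide (Clean K (Pt n K c p t)) else
      (xx n K c p t).cl) = true then _ else (if (if Lam K ∣ (xx n K c p t).t then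
        decide (Clean K (Pt n K c p t)) else (xx n K c p t).cl) = true then _ else
        upd n 30 K (if Lam K ∣ (xx n K c p t).t ∧ (xx n K c p t).cl = true then m0 else
          (xx n K c p t).m) (Pt n K c p t)).e) = _
  rw [h0, t_eq]
  rfl

open Classical in
theorem e_step (t : ℕ) (h : (xx n K c p (t + 1)).cl = true) :
    em n K c p t = if t / Lam K % 2 = 0 then
        (if (xx n K c p (t + 1)).rn = true then decide (∀ z, ¬ BE (Pt n K c p t z)) else
          decide (WW (em n K c p) t ≤ 0))
      else (if (xx n K c p (t + 1)).rn = true then !(decide (∀ z, ¬ BN (Pt n K c p t z))) else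
        decide (WW (em n K c p) t < 0)) := by
  have h1 : em n K c p t = if (xx n K c p (t + 1)).cl = true then
      (if (xx n K c p t).t / Lam K % 2 = 0 then
        (if (xx n K c p (t + 1)).rn = true then decide (∀ z, ¬ BE (Pt n K c p t z)) else
          decide ((xx n K c p t).v ≤ 0))
      else (if (xx n K c p (t + 1)).rn = true then !(decide (∀ z, ¬ BN (Pt n K c p t z))) else
        decide ((xx n K c p t).v < 0))) else (xx n K c p (t + 1)).m.e := by
    rw [← e_eq, step]
    rfl
  rw [h, if_pos rfl, t_eq, v_eq] at h1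
  exact h1

theorem x0 : (xx n K c p 0).m = m0 := rfl

theorem add_sub (a b : ℕ) (hb : 0 < b) : (a + 1) * b = a * b + (b - 1) + 1 := by
  rw [add_mul, one_mul]
  omega

open Classical in
theorem init_eq (i : ℕ) (hi : i = 0 ∨ ∃ i', i' + 1 = i ∧ Clean K (Pt n K c p (i' * Lam K))) :
    (if Lam K ∣ i * Lam K ∧ (xx n K c p (i * Lam K)).cl = true then m0 else
      (xx n K c p (i * Lam K)).m) = m0 := by
  rcases hi with hi | ⟨i', hi, hi'⟩
  · rw [hi, zero_mul, x0, ite_self]
  · rw [if_pos]
    refine ⟨Dvd.intro_left _ rfl, ?_⟩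
    rw [← hi, add_sub i' (Lam K) (lam_pos K), cl_eq n K c p i' (Lam K - 1)
      (Nat.sub_lt (lam_pos K) one_pos)]
    exact decide_eq_true hi'

end StrL

open StrL in
/-- **STR** -/
theorem str : S_STR := by
  classical
  intro n K k c p
  refine ⟨fun j hj => ⟨fun hj2 t h1 h2 => ?_, fun hj2 t h1 h2 => ?_⟩, fun i l hl hi => ?_⟩
  · obtain ⟨r, rfl⟩ := Nat.exists_eq_add_of_le h1
    have hr : r < Lam K := by omega
    have hcl := cl_eq n K c p j r hr
    rw [show decide (Clean K (Pt n K c p (j * Lam K))) = true from decide_eq_true hj] at hcl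
    have he := e_step n K c p _ hcl
    rw [div_eq K j r hr, if_pos hj2, rn_eq n K c p j r hr] at he
    have hC : (∀ s, j * Lam K ≤ s → s ≤ j * Lam K + r → Cd n K c p j s) ↔
        (∀ s, j * Lam K ≤ s → s ≤ j * Lam K + r → WW (em n K c p) s < RR K) := by
      simp only [Cd, if_pos hj2]
    change em n K c p (j * Lam K + r) = true ↔ if (∀ s, j * Lam K ≤ s → s ≤ j * Lam K + r →
      WW (em n K c p) s < RR K) then (∀ z, ¬ BE (Pt n K c p (j * Lam K + r) z)) else
      WW (em n K c p) (j * Lam K + r) ≤ 0
    rw [he]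
    by_cases h : ∀ s, j * Lam K ≤ s → s ≤ j * Lam K + r → Cd n K c p j s
    · rw [if_pos (decide_eq_true h), if_pos (hC.1 h), decide_eq_true_iff]
    · rw [if_neg (by rw [decide_eq_true_iff]; exact h), if_neg (fun h' => h (hC.2 h')),
        decide_eq_true_iff]
  · obtain ⟨r, rfl⟩ := Nat.exists_eq_add_of_le h1
    have hr : r < Lam K := by omega
    have hcl := cl_eq n K c p j r hr
    rw [show decide (Clean K (Pt n K c p (j * Lam K))) = true from decide_eq_true hj] at hcl
    have he := e_step n K c p _ hcl
    have hj2' : ¬ j % 2 = 0 := by omega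
    rw [div_eq K j r hr, if_neg hj2', rn_eq n K c p j r hr] at he
    have hC : (∀ s, j * Lam K ≤ s → s ≤ j * Lam K + r → Cd n K c p j s) ↔
        (∀ s, j * Lam K ≤ s → s ≤ j * Lam K + r → -(RR K : ℤ) < WW (em n K c p) s) := by
      simp only [Cd, if_neg hj2']
    change em n K c p (j * Lam K + r) = false ↔ if (∀ s, j * Lam K ≤ s → s ≤ j * Lam K + r →
      -(RR K : ℤ) < WW (em n K c p) s) then (∀ z, ¬ BN (Pt n K c p (j * Lam K + r) z)) else
      0 ≤ WW (em n K c p) (j * Lam K + r)
    rw [he]
    by_cases h : ∀ s, j * Lam K ≤ s → s ≤ j * Lam K + r → Cd n K c p j s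
    · rw [if_pos (decide_eq_true h), if_pos (hC.1 h), Bool.not_eq_false', decide_eq_true_iff]
    · rw [if_neg (by rw [decide_eq_true_iff]; exact h), if_neg (fun h' => h (hC.2 h')),
        decide_eq_false_iff_not, not_lt]
  · have hΛ := lam_pos K
    refine ⟨fun s => if s = 0 then m0 else (xx n K c p (i * Lam K + s)).m, if_pos rfl,
      fun s hs => ?_⟩
    have hcl : ∀ s < l * Lam K, (xx n K c p (i * Lam K + s + 1)).cl = false := by
      intro s hs
      have h1 : s / Lam K < l := Nat.div_lt_of_lt_mul (by rwa [mul_comm])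
      have h2 : i * Lam K + s = (i + s / Lam K) * Lam K + s % Lam K := by
        have := Nat.div_add_mod s (Lam K)
        rw [add_mul, mul_comm (s / Lam K)]
        omega
      rw [h2, cl_eq n K c p _ _ (Nat.mod_lt _ hΛ)]
      exact decide_eq_false (hl _ (Nat.le_add_right _ _) (Nat.add_lt_add_left h1 i))
    obtain ⟨h3, h4⟩ := m_step n K c p _ (hcl s hs)
    have hA : (if Lam K ∣ i * Lam K + s ∧ (xx n K c p (i * Lam K + s)).cl = true then m0 else
        (xx n K c p (i * Lam K + s)).m) =
        if s = 0 then m0 else (xx n K c p (i * Lam K + s)).m := by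
      by_cases hs0 : s = 0
      · rw [if_pos hs0, hs0, add_zero]
        exact init_eq n K c p i hi
      · rw [if_neg hs0, if_neg]
        rintro ⟨-, h5⟩
        have h6 := hcl (s - 1) (lt_of_le_of_lt (Nat.sub_le _ _) hs)
        rw [add_assoc, Nat.sub_add_cancel (Nat.one_le_iff_ne_zero.2 hs0), h5] at h6
        exact Bool.noConfusion h6
    rw [hA] at h3
    have h7 : (if s + 1 = 0 then m0 else (xx n K c p (i * Lam K + (s + 1))).m) =
        (xx n K c p (i * Lam K + s + 1)).m := by
      rw [if_neg (Nat.succ_ne_zero s), ← add_assoc]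
    exact ⟨h7.trans h3, h4.trans (congrArg Mem.e h7.symm)⟩

end Pool.Agent.Helper57K9.XZ
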