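import Pool.Agent.Helper57K9.XZ.One

/-!
# Leaf [TB]: the profile is small near `0` if the path touches its upper level often

Supersolution in the coordinate `z = 2 h - (B - WW e t)` (a simple random walk between the touches):
`φ z = (z + α) (Λ - z - α)` and `φ z - (A ^ k q) z`, `q = φ 1_(z < 0)`, `k` steps after a touch, where
`A` is the average over the two neighbours.
-/

set_option autoImplicit false

namespace Pool.Agent.Helper57K9.XZ

open Finset Pool.Agent.Helper5K9.ZN

namespace TbL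

/-- the average over the two neighbours -/
noncomputable def A : (ℤ → ℝ) →ₗ[ℝ] (ℤ → ℝ) where
  toFun f z := (f (z - 1) + f (z + 1)) / 2
  map_add' f g := by funext z; simp only [Pi.add_apply]; ring
  map_smul' c f := by
    funext z
    simp only [Pi.smul_apply, smul_eq_mul, RingHom.id_apply]; ring

theorem A_apply (f : ℤ → ℝ) (z : ℤ) : A f z = (f (z - 1) + f (z + 1)) / 2 := rfl

theorem A_succ (k : ℕ) (f : ℤ → ℝ) (z : ℤ) :
    (A ^ (k + 1)) f z = ((A ^ k) f (z - 1) + (A ^ k) f (z + 1)) / 2 := by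
  rw [pow_succ', Module.End.mul_apply, A_apply]

theorem A_mono {f g : ℤ → ℝ} (h : ∀ z, f z ≤ g z) (k : ℕ) : ∀ z, (A ^ k) f z ≤ (A ^ k) g z := by
  induction k with
  | zero => intro z; simpa using h z
  | succ k ih =>
    intro z
    rw [A_succ, A_succ]
    have h1 := ih (z - 1)
    have h2 := ih (z + 1)
    linarith

theorem A_const (c : ℝ) (k : ℕ) : ∀ z, (A ^ k) (fun _ => c) z = c := by
  induction k with
  | zero => intro z; rfl
  | succ k ih => intro z; rw [A_succ, ih, ih]; ring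

theorem A_id (k : ℕ) : ∀ z, (A ^ k) (fun z => (z : ℝ)) z = z := by
  induction k with
  | zero => intro z; rfl
  | succ k ih => intro z; rw [A_succ, ih, ih]; push_cast; ring

theorem A_sq (k : ℕ) : ∀ z, (A ^ k) (fun z => (z : ℝ) ^ 2) z = (z : ℝ) ^ 2 + k := by
  induction k with
  | zero => intro z; simp
  | succ k ih => intro z; rw [A_succ, ih, ih]; push_cast; ring

theorem A_neg (f : ℤ → ℝ) (k : ℕ) : ∀ z, (A ^ k) (fun z => f (-z)) z = (A ^ k) f (-z) := by
  induction k with
  | zero => intro z; rfl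
  | succ k ih =>
    intro z
    rw [A_succ, A_succ, ih, ih, show -(z - 1) = -z + 1 by ring, show -(z + 1) = -z - 1 by ring,
      add_comm]

theorem A_monotone {f : ℤ → ℝ} (h : ∀ z, f z ≤ f (z + 1)) (k : ℕ) :
    ∀ z, (A ^ k) f z ≤ (A ^ k) f (z + 1) := by
  induction k with
  | zero => intro z; simpa using h z
  | succ k ih =>
    intro z
    rw [A_succ, A_succ]
    have h1 := ih (z - 1)
    have h2 := ih (z + 1)
    rw [show z - 1 + 1 = z by ring] at h1
    rw [show z + 1 - 1 = z by ring]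
    linarith

theorem A_le_zero {f : ℤ → ℝ} (h : ∀ z, f z ≤ f (z + 1)) (k : ℕ) (n : ℕ) :
    (A ^ k) f (-(n : ℤ)) ≤ (A ^ k) f 0 := by
  induction n with
  | zero => simp
  | succ n ih =>
    have := A_monotone h k (-((n + 1 : ℕ) : ℤ))
    rw [show (-((n + 1 : ℕ) : ℤ) + 1) = -(n : ℤ) by push_cast; ring] at this
    exact this.trans ih

/-- indicator of the negative integers, times `g` -/
noncomputable def ng (g : ℤ → ℝ) (z : ℤ) : ℝ := if z < 0 then g z else 0

/-- indicator of the positive integers, times `g` -/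
noncomputable def ps (g : ℤ → ℝ) (z : ℤ) : ℝ := if 0 < z then g z else 0

theorem ps_eq (g : ℤ → ℝ) (hg : ∀ z, g (-z) = g z) : ps g = fun z => ng g (-z) := by
  funext z
  unfold ps ng
  by_cases h : 0 < z
  · rw [if_pos h, if_pos (by omega), hg]
  · rw [if_neg h, if_neg (by omega)]

theorem A_ps (g : ℤ → ℝ) (hg : ∀ z, g (-z) = g z) (k : ℕ) :
    (A ^ k) (ps g) 0 = (A ^ k) (ng g) 0 := by
  rw [ps_eq g hg, A_neg, neg_zero]

/-- for even functions vanishing at `0` -/
theorem A_half (g : ℤ → ℝ) (hg : ∀ z, g (-z) = g z) (h0 : g 0 = 0) (k : ℕ) :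
    2 * (A ^ k) (ng g) 0 = (A ^ k) g 0 := by
  have h1 : g = ng g + ps g := by
    funext z
    simp only [Pi.add_apply, ng, ps]
    rcases lt_trichotomy z 0 with h | h | h
    · rw [if_pos h, if_neg (by omega), add_zero]
    · rw [if_neg (by omega), if_neg (by omega), h, h0, add_zero]
    · rw [if_neg (by omega), if_pos h, zero_add]
  have h2 : (A ^ k) g 0 = (A ^ k) (ng g) 0 + (A ^ k) (ps g) 0 := by
    conv_lhs => rw [h1]
    rw [map_add, Pi.add_apply]
  rw [h2, A_ps g hg]
  ring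

theorem A_one0 (k : ℕ) : ∀ z, (A ^ (k + 1)) (fun z => if z = 0 then (1 : ℝ) else 0) z ≤ 1 / 2 := by
  intro z
  have h1 : (A ^ (k + 1)) (fun z => if z = 0 then (1 : ℝ) else 0) =
      (A ^ k) (A (fun z => if z = 0 then (1 : ℝ) else 0)) := by
    rw [pow_succ, Module.End.mul_apply]
  rw [h1, ← A_const (1 / 2) k z]
  refine A_mono ?_ k z
  intro w
  rw [A_apply]
  by_cases h : w - 1 = 0
  · rw [if_pos h, if_neg (by omega)]; norm_num
  · rw [if_neg h]
    split_ifs <;> norm_num

/-- the walk is negative with probability at least `1/4` -/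
theorem A_neg_prob (k : ℕ) (hk : 1 ≤ k) : 1 / 4 ≤ (A ^ k) (ng fun _ => 1) 0 := by
  obtain ⟨k, rfl⟩ : ∃ m, k = m + 1 := ⟨k - 1, by omega⟩
  have h1 : (fun _ : ℤ => (1 : ℝ)) = ng (fun _ => 1) + ps (fun _ => 1) +
      fun z => if z = 0 then (1 : ℝ) else 0 := by
    funext z
    simp only [Pi.add_apply, ng, ps]
    rcases lt_trichotomy z 0 with h | h | h
    · rw [if_pos h, if_neg (by omega), if_neg (by omega)]; ring
    · rw [if_neg (by omega), if_neg (by omega), if_pos h]; ring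
    · rw [if_neg (by omega), if_pos h, if_neg (by omega)]; ring
  have h2 := A_const 1 (k + 1) 0
  have h3 := A_ps (fun _ => 1) (fun _ => rfl) (k + 1)
  have h4 := A_one0 k 0
  have h5 : (A ^ (k + 1)) (fun _ : ℤ => (1 : ℝ)) 0 = (A ^ (k + 1)) (ng fun _ => 1) 0 +
      (A ^ (k + 1)) (ps fun _ => 1) 0 +
      (A ^ (k + 1)) (fun z => if z = 0 then (1 : ℝ) else 0) 0 := by
    conv_lhs => rw [h1]
    rw [map_add, map_add, Pi.add_apply, Pi.add_apply]
  linarith

theorem A_abs (k : ℕ) (r : ℝ) (hr : 0 < r) (hk : (k : ℝ) ≤ r ^ 2) :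
    (A ^ k) (fun z => |(z : ℝ)|) 0 ≤ r := by
  have h1 : ∀ z : ℤ, |(z : ℝ)| ≤
      ((1 / (2 * r)) • (fun z : ℤ => (z : ℝ) ^ 2) + (fun _ : ℤ => r / 2) : ℤ → ℝ) z := by
    intro z
    simp only [Pi.add_apply, Pi.smul_apply, smul_eq_mul]
    have h2 : 0 ≤ (|(z : ℝ)| - r) ^ 2 := sq_nonneg _
    have h3 : |(z : ℝ)| ^ 2 = (z : ℝ) ^ 2 := sq_abs _
    have h4 : 1 / (2 * r) * (z : ℝ) ^ 2 + r / 2 - |(z : ℝ)| = (|(z : ℝ)| - r) ^ 2 / (2 * r) := by
      rw [← h3]
      field_simp
      ring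
    have h5 : 0 ≤ (|(z : ℝ)| - r) ^ 2 / (2 * r) := by positivity
    linarith
  have h2 := A_mono h1 k 0
  rw [map_add, map_smul, Pi.add_apply, Pi.smul_apply, A_sq, A_const, smul_eq_mul] at h2
  refine h2.trans ?_
  have h3 : 1 / (2 * r) * (((0 : ℤ) : ℝ) ^ 2 + k) ≤ 1 / (2 * r) * r ^ 2 := by
    refine mul_le_mul_of_nonneg_left ?_ (by positivity)
    push_cast
    linarith
  have h4 : 1 / (2 * r) * r ^ 2 = r / 2 := by field_simp
  linarith

/-! ## the supersolution -/

/-- the solution of `A φ + 1 = φ` -/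
noncomputable def ph (α Λ : ℝ) (z : ℤ) : ℝ := (z + α) * (Λ - z - α)

theorem A_ph (α Λ : ℝ) (k : ℕ) : ∀ z, (A ^ k) (ph α Λ) z = ph α Λ z - k := by
  induction k with
  | zero => intro z; simp
  | succ k ih => intro z; rw [A_succ, ih, ih]; unfold ph; push_cast; ring

theorem ng_ph (α Λ : ℝ) : ng (ph α Λ) = (α * (Λ - α)) • (ng fun _ => 1) -
    (Λ - 2 * α) • (ng fun z => |(z : ℝ)|) - (ng fun z => (z : ℝ) ^ 2) := by
  funext z
  simp only [Pi.sub_apply, Pi.smul_apply, smul_eq_mul, ng]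
  split_ifs with h
  · have h1 : (z : ℝ) < 0 := by exact_mod_cast h
    rw [abs_of_neg h1]
    unfold ph
    ring
  · ring

/-- parameters: `r = √(G + 1)`, `α = 4 r`, `Λ = 32 r + 8 R` -/
theorem q_zero (r R : ℝ) (hr : 1 ≤ r) (hR : 0 ≤ R) (k : ℕ) (hk1 : 1 ≤ k) (hk : (k : ℝ) ≤ r ^ 2) :
    0 ≤ (A ^ k) (ng (ph (4 * r) (32 * r + 8 * R))) 0 := by
  rw [ng_ph, map_sub, map_sub, map_smul, map_smul, Pi.sub_apply, Pi.sub_apply, Pi.smul_apply,
    Pi.smul_apply, smul_eq_mul, smul_eq_mul]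
  have h1 := A_neg_prob k hk1
  have h2 := A_half (fun z => |(z : ℝ)|) (fun z => by push_cast; rw [abs_neg]) (by simp) k
  have h3 := A_half (fun z => (z : ℝ) ^ 2) (fun z => by push_cast; ring) (by simp) k
  have h4 := A_abs k r (by linarith) hk
  rw [A_sq] at h3
  have h5 : (A ^ k) (ng fun z => |(z : ℝ)|) 0 ≤ r / 2 := by linarith
  have h6 : (A ^ k) (ng fun z => (z : ℝ) ^ 2) 0 ≤ r ^ 2 / 2 := by
    push_cast at h3
    linarith
  have h7 : 0 ≤ 4 * r * (32 * r + 8 * R - 4 * r) := by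
    have : 0 ≤ 28 * r + 8 * R := by linarith
    nlinarith
  have h8 : 0 ≤ 32 * r + 8 * R - 2 * (4 * r) := by linarith
  have h9 := mul_le_mul_of_nonneg_left h1 h7
  have h10 := mul_le_mul_of_nonneg_left h5 h8
  nlinarith [mul_nonneg (show (0 : ℝ) ≤ r by linarith) hR]

theorem q_nonneg (r R : ℝ) (hr : 1 ≤ r) (hR : 0 ≤ R) (k : ℕ) (hk : (k : ℝ) ≤ r ^ 2) :
    ∀ z : ℤ, 0 ≤ z → 0 ≤ (A ^ k) (ng (ph (4 * r) (32 * r + 8 * R))) z := by
  induction k with
  | zero =>
    intro z hz
    simp only [pow_zero, Module.End.one_apply, ng, if_neg (not_lt.2 hz), le_refl]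
  | succ k ih =>
    intro z hz
    rcases eq_or_lt_of_le hz with rfl | hz
    · exact q_zero r R hr hR (k + 1) (by omega) hk
    · have hk' : (k : ℝ) ≤ r ^ 2 := by push_cast at hk; linarith
      have h1 := ih hk' (z - 1) (by omega)
      have h2 := ih hk' (z + 1) (by omega)
      rw [A_succ]
      linarith

/-- the supersolution `k` steps after a touch -/
noncomputable def w (α Λ : ℝ) (k : ℕ) (z : ℤ) : ℝ := ph α Λ z - (A ^ k) (ng (ph α Λ)) z

theorem w_succ (α Λ : ℝ) (k : ℕ) (z : ℤ) :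
    w α Λ (k + 1) z = (w α Λ k (z - 1) + w α Λ k (z + 1)) / 2 + 1 := by
  unfold w
  rw [A_succ]
  unfold ph
  push_cast
  ring

theorem w_nonneg (r R : ℝ) (hr : 1 ≤ r) (hR : 0 ≤ R) (k : ℕ) (n : ℕ) :
    0 ≤ w (4 * r) (32 * r + 8 * R) k (-(n : ℤ)) := by
  have h1 : w (4 * r) (32 * r + 8 * R) k (-(n : ℤ)) = k +
      (A ^ k) (ph (4 * r) (32 * r + 8 * R) - ng (ph (4 * r) (32 * r + 8 * R))) (-(n : ℤ)) := by
    unfold w
    rw [map_sub, Pi.sub_apply, A_ph]
    ring
  rw [h1]
  have h2 : ∀ z : ℤ, ((-2 : ℝ) • ps (fun z => (z : ℝ) ^ 2)) z ≤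
      (ph (4 * r) (32 * r + 8 * R) - ng (ph (4 * r) (32 * r + 8 * R))) z := by
    intro z
    simp only [Pi.sub_apply, Pi.smul_apply, smul_eq_mul, ng, ps]
    by_cases hz : z < 0
    · rw [if_pos hz, if_neg (by omega)]
      simp
    · rw [if_neg hz, sub_zero]
      rcases eq_or_lt_of_le (not_lt.1 hz) with h0 | h0
      · rw [← h0, if_neg (lt_irrefl _)]
        unfold ph
        push_cast
        nlinarith
      · rw [if_pos h0]
        have hz' : (0 : ℝ) < z := by exact_mod_cast h0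
        unfold ph
        by_cases hc : (z : ℝ) ≤ 28 * r + 8 * R
        · have : 0 ≤ ((z : ℝ) + 4 * r) * (32 * r + 8 * R - z - 4 * r) := by
            refine mul_nonneg (by linarith) (by linarith)
          nlinarith
        · have hc' : 28 * r + 8 * R < z := not_le.1 hc
          have h3 : ((z : ℝ) + 4 * r) * (z - (28 * r + 8 * R)) ≤ 2 * z * z := by
            refine mul_le_mul (by linarith) (by linarith) (by linarith) (by linarith)
          nlinarith
  have h3 := A_mono h2 k (-(n : ℤ))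
  rw [map_smul, Pi.smul_apply, smul_eq_mul] at h3
  have h4 := A_le_zero (f := ps fun z => (z : ℝ) ^ 2) (by
    intro z
    unfold ps
    by_cases hz : 0 < z
    · rw [if_pos hz, if_pos (by omega)]
      have hz' : (0 : ℝ) < z := by exact_mod_cast hz
      push_cast
      nlinarith
    · rw [if_neg hz]
      split_ifs
      · positivity
      · exact le_refl _) k n
  have h5 := A_ps (fun z => (z : ℝ) ^ 2) (fun z => by push_cast; ring) k
  have h6 := A_half (fun z => (z : ℝ) ^ 2) (fun z => by push_cast; ring) (by simp) k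
  rw [A_sq] at h6
  push_cast at h6
  nlinarith

theorem w_top (r R : ℝ) (hr : 1 ≤ r) (hR : 0 ≤ R) (k : ℕ) (z : ℤ)
    (h1 : 16 * r + 4 * R ≤ z + 4 * r) (h2 : z + 4 * r ≤ 16 * r + 4 * R + 2) :
    R ^ 2 ≤ w (4 * r) (32 * r + 8 * R) k z := by
  have h3 : (A ^ k) (ng (ph (4 * r) (32 * r + 8 * R))) z ≤ 4 * r * (28 * r + 8 * R) := by
    rw [← A_const (4 * r * (28 * r + 8 * R)) k z]
    refine A_mono ?_ k z
    intro v
    unfold ng
    split_ifs with hv
    · have hv' : (v : ℝ) < 0 := by exact_mod_cast hv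
      unfold ph
      nlinarith
    · have : 0 ≤ 28 * r + 8 * R := by linarith
      nlinarith
  unfold w
  have h4 : (16 * r + 4 * R) ^ 2 - 4 ≤ ph (4 * r) (32 * r + 8 * R) z := by
    unfold ph
    have h5 : 0 ≤ (z : ℝ) + 4 * r - (16 * r + 4 * R) := by linarith
    have h6 : (z : ℝ) + 4 * r - (16 * r + 4 * R) ≤ 2 := by linarith
    nlinarith
  nlinarith [mul_nonneg (show (0 : ℝ) ≤ r by linarith) hR]

/-! ## the profile -/

theorem prof_nonneg (e : ℕ → Bool) (t : ℕ) : ∀ h, 0 ≤ prof e t h := by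
  induction t with
  | zero => intro h; exact zero_le_one
  | succ t ih =>
    intro h
    show 0 ≤ stp (e t) (prof e t) h + 1
    have h1 := ih h
    have h2 := ih (h + 1)
    have h3 := ih (h - 1)
    unfold stp
    split_ifs <;> linarith

theorem prof_le (e : ℕ → Bool) (t : ℕ) : ∀ h, prof e t h ≤ t + 1 := by
  induction t with
  | zero => intro h; show (1 : ℝ) ≤ _; simp
  | succ t ih =>
    intro h
    show stp (e t) (prof e t) h + 1 ≤ _
    have h1 := ih h
    have h2 := ih (h + 1)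
    have h3 := ih (h - 1)
    have h4 : (0 : ℝ) ≤ t := Nat.cast_nonneg t
    unfold stp
    push_cast
    split_ifs <;> linarith

theorem prof_mono (e : ℕ → Bool) (t : ℕ) : ∀ h, prof e t h ≤ prof e t (h + 1) := by
  induction t with
  | zero => intro h; exact le_refl _
  | succ t ih =>
    intro h
    show stp (e t) (prof e t) h + 1 ≤ stp (e t) (prof e t) (h + 1) + 1
    have h1 := ih h
    have h2 := ih (h + 1)
    have h3 := ih (h - 1)
    have h4 := prof_nonneg e t 0
    unfold stp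
    by_cases he : e t = true
    · rw [if_pos he, if_pos he]
      linarith
    · rw [if_neg he, if_neg he, if_neg (Nat.succ_ne_zero h), Nat.add_sub_cancel]
      split_ifs with h0
      · rw [h0] at h1 ⊢
        linarith
      · rw [Nat.sub_add_cancel (by omega)] at h3
        linarith

theorem prof_mono' (e : ℕ → Bool) (t h h' : ℕ) (hh : h ≤ h') : prof e t h ≤ prof e t h' := by
  induction h' with
  | zero => rw [Nat.le_zero.1 hh]
  | succ h' ih =>
    rcases Nat.lt_or_ge h (h' + 1) with h1 | h1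
    · exact (ih (by omega)).trans (prof_mono e t h')
    · rw [le_antisymm hh h1]

theorem WW_succ (e : ℕ → Bool) (t : ℕ) : WW e (t + 1) = WW e t + sgn (e t) := by
  unfold WW
  rw [sum_range_succ]

/-- the claim `k` steps after a touch -/
def Cl (e : ℕ → Bool) (B : ℤ) (r R : ℝ) (t k : ℕ) : Prop :=
  ∀ h : ℕ, ((2 * h - (B - WW e t) : ℤ) : ℝ) + 4 * r ≤ 16 * r + 4 * R + 1 →
    prof e t h ≤ w (4 * r) (32 * r + 8 * R) k (2 * h - (B - WW e t))

theorem Cl_succ (e : ℕ → Bool) (B : ℤ) (r R : ℝ) (hr : 1 ≤ r) (hR : 0 ≤ R) (t k : ℕ)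
    (hB : WW e t ≤ B) (hT : (t : ℝ) + 1 ≤ R ^ 2) (hc : Cl e B r R t k) :
    Cl e B r R (t + 1) (k + 1) := by
  intro h hh
  have key : ∀ (g : ℕ) (z : ℤ), z = 2 * g - (B - WW e t) → (z : ℝ) + 4 * r ≤ 16 * r + 4 * R + 2 →
      prof e t g ≤ w (4 * r) (32 * r + 8 * R) k z := by
    rintro g z rfl hz
    by_cases h1 : ((2 * g - (B - WW e t) : ℤ) : ℝ) + 4 * r ≤ 16 * r + 4 * R + 1
    · exact hc g h1
    · have h2 := not_le.1 h1
      exact (prof_le e t g).trans (hT.trans (w_top r R hr hR k _ (by linarith) hz))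
  show stp (e t) (prof e t) h + 1 ≤ _
  rw [w_succ]
  rw [WW_succ] at hh ⊢
  unfold stp
  by_cases he : e t = true
  · rw [if_pos he]
    rw [he] at hh ⊢
    have hs : sgn true = 1 := rfl
    rw [hs] at hh ⊢
    have h1 := key h (2 * h - (B - (WW e t + 1)) - 1) (by ring) (by push_cast at hh ⊢; linarith)
    have h2 := key (h + 1) (2 * h - (B - (WW e t + 1)) + 1) (by push_cast; ring)
      (by push_cast at hh ⊢; linarith)
    linarith
  · rw [if_neg he]
    have he' : e t = false := by simpa using he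
    rw [he'] at hh ⊢
    have hs : sgn false = -1 := rfl
    rw [hs] at hh ⊢
    have h1 := key h (2 * h - (B - (WW e t + -1)) + 1) (by ring) (by push_cast at hh ⊢; linarith)
    have h2 : (if h = 0 then 0 else prof e t (h - 1)) ≤ w (4 * r) (32 * r + 8 * R) k
        (2 * h - (B - (WW e t + -1)) - 1) := by
      by_cases h0 : h = 0
      · rw [if_pos h0]
        obtain ⟨d, hd⟩ := Int.eq_ofNat_of_zero_le (show 0 ≤ B - WW e t by omega)
        have h3 : (2 * (h : ℤ) - (B - (WW e t + -1)) - 1) = -((d + 2 : ℕ) : ℤ) := by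
          rw [h0]
          push_cast
          omega
        rw [h3]
        exact w_nonneg r R hr hR k (d + 2)
      · rw [if_neg h0]
        refine key (h - 1) _ ?_ (by push_cast at hh ⊢; linarith)
        have : ((h - 1 : ℕ) : ℤ) = (h : ℤ) - 1 := by omega
        rw [this]
        ring
    linarith

theorem Cl_add (e : ℕ → Bool) (B : ℤ) (r R : ℝ) (hr : 1 ≤ r) (hR : 0 ≤ R) (s k : ℕ)
    (hB : ∀ t, t < s + k → WW e t ≤ B) (hT : (s : ℝ) + k ≤ R ^ 2) (hc : Cl e B r R s 0) :
    Cl e B r R (s + k) k := by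
  induction k with
  | zero => exact hc
  | succ k ih =>
    have h1 := ih (fun t ht => hB t (by omega)) (by push_cast at hT; linarith)
    exact Cl_succ e B r R hr hR (s + k) k (hB _ (by omega)) (by push_cast at hT ⊢; linarith) h1

theorem w_zero_eq (α Λ : ℝ) (z : ℤ) (hz : 0 ≤ z) : w α Λ 0 z = ph α Λ z := by
  unfold w
  simp only [pow_zero, Module.End.one_apply, ng, if_neg (not_lt.2 hz), sub_zero]

theorem Cl_touch (e : ℕ → Bool) (B : ℤ) (G T : ℕ) (r R : ℝ) (hr : 1 ≤ r) (hR : 0 ≤ R)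
    (hr2 : r ^ 2 = G + 1) (hR2 : R ^ 2 = T + 1) (hB : ∀ t ≤ T, WW e t ≤ B)
    (hG : ∀ t : ℕ, t + G ≤ T → ∃ s, t ≤ s ∧ s ≤ t + G ∧ WW e s = B) :
    ∀ s ≤ T, WW e s = B → Cl e B r R s 0 := by
  intro s
  induction s using Nat.strong_induction_on with
  | _ s ih =>
    intro hs hsB
    by_cases hsG : s ≤ G
    · intro h hh
      have h1 := prof_le e s h
      have h2 : (2 * (h : ℤ) - (B - WW e s)) = 2 * h := by rw [hsB]; ring
      rw [h2] at hh ⊢
      rw [w_zero_eq _ _ _ (by positivity)]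
      have h3 : (s : ℝ) ≤ G := by exact_mod_cast hsG
      have h4 : (0 : ℝ) ≤ h := Nat.cast_nonneg h
      refine h1.trans ?_
      unfold ph
      push_cast at hh ⊢
      nlinarith [mul_nonneg (show (0 : ℝ) ≤ r by linarith) hR]
    · obtain ⟨s', h1, h2, h3⟩ := hG (s - 1 - G) (by omega)
      have h4 := ih s' (by omega) (by omega) h3
      obtain ⟨k, rfl⟩ := Nat.exists_eq_add_of_le (show s' ≤ s by omega)
      have hk : (k : ℝ) ≤ r ^ 2 := by
        rw [hr2]
        have : k ≤ G + 1 := by omega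
        exact_mod_cast this
      have hT : (s' : ℝ) + k ≤ R ^ 2 := by
        rw [hR2]
        have : s' + k ≤ T + 1 := by omega
        exact_mod_cast this
      have h5 := Cl_add e B r R hr hR s' k (fun t ht => hB t (by omega)) hT h4
      intro h hh
      have h6 := h5 h hh
      have h7 : (2 * (h : ℤ) - (B - WW e (s' + k))) = 2 * h := by rw [hsB]; ring
      rw [h7] at h6 ⊢
      rw [w_zero_eq _ _ _ (by positivity)]
      unfold w at h6
      have h8 := q_nonneg r R hr hR k hk (2 * h) (by positivity)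
      linarith

end TbL

open TbL in
theorem tb : S_TB := by
  refine ⟨300, by norm_num, ?_⟩
  intro e G T B hG1 hB hG t ht h
  have hGr : (1 : ℝ) ≤ G := by exact_mod_cast hG1
  have hsG : 1 ≤ Real.sqrt G := Real.one_le_sqrt.2 hGr
  have hh0 : (0 : ℝ) ≤ h := Nat.cast_nonneg h
  have ht0 : (0 : ℝ) ≤ t := Nat.cast_nonneg t
  have hR2 : Real.sqrt (t + 1) ^ 2 = t + 1 := Real.sq_sqrt (by linarith)
  have hR1 : 1 ≤ Real.sqrt (t + 1) := Real.one_le_sqrt.2 (by linarith)
  by_cases htG : t < G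
  · have h1 := prof_le e t h
    have h2 : Real.sqrt (t + 1) ≤ Real.sqrt G := by
      refine Real.sqrt_le_sqrt ?_
      have : t + 1 ≤ G := htG
      exact_mod_cast this
    have h3 : (t : ℝ) + 1 = Real.sqrt (t + 1) * Real.sqrt (t + 1) := by rw [← sq, hR2]
    have h4 : Real.sqrt (t + 1) * Real.sqrt (t + 1) ≤
        300 * (h + Real.sqrt G) * Real.sqrt (t + 1) :=
      mul_le_mul_of_nonneg_right (by linarith) (by linarith)
    linarith
  · have hGt : G ≤ t := not_lt.1 htG
    obtain ⟨r, hr⟩ : ∃ r : ℝ, r = Real.sqrt (G + 1) := ⟨_, rfl⟩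
    obtain ⟨R, hR⟩ : ∃ R : ℝ, R = Real.sqrt (t + 1) := ⟨_, rfl⟩
    rw [← hR] at hR2 hR1 ⊢
    have hr2 : r ^ 2 = G + 1 := by rw [hr]; exact Real.sq_sqrt (by linarith)
    have hr1 : 1 ≤ r := by rw [hr]; exact Real.one_le_sqrt.2 (by linarith)
    have hrR : r ≤ R := by
      rw [hr, hR]
      refine Real.sqrt_le_sqrt ?_
      have : (G : ℝ) ≤ t := by exact_mod_cast hGt
      linarith
    have hrG : r ≤ 3 / 2 * Real.sqrt G := by
      have h1 : Real.sqrt G ^ 2 = G := Real.sq_sqrt (by linarith)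
      have h2 : r ^ 2 ≤ (3 / 2 * Real.sqrt G) ^ 2 := by
        rw [mul_pow, h1, hr2]
        linarith
      exact le_of_sq_le_sq h2 (by positivity)
    obtain ⟨s, h1, h2, h3⟩ := hG (t - G) (by omega)
    obtain ⟨k, hk⟩ := Nat.exists_eq_add_of_le (show s ≤ t by omega)
    have hB' : ∀ u ≤ t, WW e u ≤ B := fun u hu => hB u (hu.trans ht)
    have hc0 := Cl_touch e B G t r R hr1 (by linarith) hr2 hR2 hB'
      (fun u hu => hG u (hu.trans ht)) s (by omega) h3
    have hc : Cl e B r R t k := by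
      rw [hk]
      refine Cl_add e B r R hr1 (by linarith) s k (fun u hu => hB' u (by omega)) ?_ hc0
      rw [hR2, hk]
      push_cast
      linarith
    obtain ⟨d, hd⟩ := Int.eq_ofNat_of_zero_le (show 0 ≤ B - WW e t by have := hB' t (le_refl t); omega)
    obtain ⟨h', hh', hz0, hz1⟩ : ∃ h' : ℕ, h ≤ h' ∧ (0 : ℤ) ≤ 2 * h' - (B - WW e t) ∧
        (2 * h' - (B - WW e t) : ℤ) ≤ 2 * h + 1 := by
      refine ⟨max h ((d + 1) / 2), le_max_left _ _, ?_, ?_⟩
      · rw [hd]; omega
      · rw [hd]; omega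
    have hz1' : ((2 * h' - (B - WW e t) : ℤ) : ℝ) ≤ 2 * h + 1 := by exact_mod_cast hz1
    have hz0' : (0 : ℝ) ≤ ((2 * h' - (B - WW e t) : ℤ) : ℝ) := by exact_mod_cast hz0
    have hmono := prof_mono' e t h h' hh'
    have hfin : prof e t h' ≤ (2 * h + 1 + 4 * r) * (32 * r + 8 * R) := by
      by_cases hreg : ((2 * h' - (B - WW e t) : ℤ) : ℝ) + 4 * r ≤ 16 * r + 4 * R + 1
      · have h4 := hc h' hreg
        unfold w at h4
        have hkr : (k : ℝ) ≤ r ^ 2 := by
          rw [hr2]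
          have : k ≤ G + 1 := by omega
          exact_mod_cast this
        have h5 := q_nonneg r R hr1 (by linarith) k hkr _ hz0
        have h6 : ph (4 * r) (32 * r + 8 * R) (2 * h' - (B - WW e t)) ≤
            (2 * h + 1 + 4 * r) * (32 * r + 8 * R) := by
          unfold ph
          have e1 : 32 * r + 8 * R - ((2 * h' - (B - WW e t) : ℤ) : ℝ) - 4 * r ≤
              32 * r + 8 * R := by linarith
          exact (mul_le_mul_of_nonneg_left e1 (by linarith)).trans
            (mul_le_mul_of_nonneg_right (by linarith) (by linarith))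
        linarith
      · have h4 := not_le.1 hreg
        have h5 := prof_le e t h'
        have h6 : (16 * r + 4 * R) * (32 * r + 8 * R) ≤ (2 * h + 1 + 4 * r) * (32 * r + 8 * R) :=
          mul_le_mul_of_nonneg_right (by linarith) (by linarith)
        have h7 : R ^ 2 ≤ (16 * r + 4 * R) * (32 * r + 8 * R) := by nlinarith
        rw [← hR2] at h5
        linarith
    refine hmono.trans (hfin.trans ?_)
    have h4 : 2 * (h : ℝ) + 1 + 4 * r ≤ 7 * (h + Real.sqrt G) := by linarith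
    have h5 : 32 * r + 8 * R ≤ 40 * R := by linarith
    have h6 : (2 * (h : ℝ) + 1 + 4 * r) * (32 * r + 8 * R) ≤ 7 * (h + Real.sqrt G) * (40 * R) :=
      mul_le_mul h4 h5 (by linarith) (by positivity)
    refine h6.trans ?_
    have h7 : 0 ≤ (h + Real.sqrt G) * R := by positivity
    nlinarith

end Pool.Agent.Helper57K9.XZ
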