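import Pool.Agent.Helper57K9.XZ.UpA

/-!
A clean even epoch.
-/

set_option autoImplicit false

namespace Pool.Agent.Helper57K9.XZ

open Finset Pool.Agent.Helper5K9.ZN

namespace UpL

theorem L1_bd (q : ℤ × ℤ) : q.1 ≤ L1 q ∧ -q.1 ≤ L1 q ∧ q.2 ≤ L1 q ∧ -q.2 ≤ L1 q ∧ 0 ≤ L1 q := by
  unfold L1
  have a1 := le_abs_self q.1
  have a2 := neg_le_abs q.1
  have a3 := le_abs_self q.2
  have a4 := neg_le_abs q.2
  have a5 := abs_nonneg q.1
  have a6 := abs_nonneg q.2
  exact ⟨by linarith, by linarith, by linarith, by linarith, by linarith⟩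

theorem L1_ne {q : ℤ × ℤ} (h : 0 < L1 q) : q ≠ 0 := by
  rintro rfl
  simp [L1] at h

theorem L1_pos {q : ℤ × ℤ} (h : q ≠ 0) : 0 < L1 q := by
  unfold L1
  rcases Classical.em (q.1 = 0) with h1 | h1
  · have h2 : q.2 ≠ 0 := fun h2 => h (Prod.ext h1 h2)
    have := abs_pos.2 h2
    have := abs_nonneg q.1
    linarith
  · have := abs_pos.2 h1
    have := abs_nonneg q.2
    linarith

theorem hx_le {n : ℕ} (hn : 12 ≤ n) (s : Bool) (a : ℤ) : |hx n s a| ≤ |a| ∧ |a| - 1 ≤ |hx n s a| := by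
  unfold hx
  split_ifs with h
  · have h1 := h.1
    rw [abs_of_nonpos (by omega : a + 1 - n ≤ 0), abs_of_nonneg (by omega : 0 ≤ a)]
    constructor <;> omega
  · rcases lt_trichotomy a 0 with h1 | h1 | h1
    · rw [Int.sign_eq_neg_one_of_neg h1, abs_of_nonpos (by omega : a - -1 ≤ 0), abs_of_neg h1]
      constructor <;> omega
    · subst h1; simp
    · rw [Int.sign_eq_one_of_pos h1, abs_of_nonneg (by omega : 0 ≤ a - 1), abs_of_pos h1]
      constructor <;> omega

theorem zu_L1 {n : ℕ} (hn : 12 ≤ n) (u : Fin 12) (q : ℤ × ℤ) :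
    L1 (zu n u q) ≤ L1 q ∧ L1 q - 1 ≤ L1 (zu n u q) := by
  unfold zu zmg L1
  split_ifs
  · have := hx_le hn (cfs n u q).2 q.1
    constructor <;> simp only <;> linarith [this.1, this.2]
  · have := hx_le hn (cfs n u q).2 q.2
    constructor <;> simp only <;> linarith [this.1, this.2]

theorem L1_back (pla : S_PLA) {n : ℕ} (hn : 12 ≤ n) (u : ℕ → Fin 12) (e : ℕ → Bool) {p : ℤ × ℤ}
    (hp : p ∈ Boxn n) (s i : ℕ) : L1 (du n u e p s) ≤ L1 (du n u e p (s + i)) + 2 * i := by
  induction i with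
  | zero => simp
  | succ i ih =>
    have := (pla n u e p (s + i) hn hp).2.2.1
    rw [← Nat.add_assoc]
    push_cast
    linarith

/-- a move towards a zombie -/
theorem toward_e {q : ℤ × ℤ} (hq : q ≠ 0) (h : L1 (shp true q) ≤ 1) : 0 < q.1 ∧ L1 q ≤ 2 := by
  have h' : |q.1 - 1| + |q.2| ≤ 1 := h
  have a1 := neg_le_abs (q.1 - 1)
  have a2 := abs_nonneg q.2
  have a3 := le_abs_self (q.1 - 1)
  have a4 := le_abs_self q.2
  have a5 := neg_le_abs q.2
  have hp : 0 < q.1 := by
    by_contra hc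
    push Not at hc
    have h1 : q.1 = 0 := by linarith
    have h2 : |q.2| = 0 := by linarith
    exact hq (Prod.ext h1 (abs_eq_zero.1 h2))
  refine ⟨hp, ?_⟩
  unfold L1
  rw [abs_of_pos hp]
  linarith

theorem toward_n {q : ℤ × ℤ} (hq : q ≠ 0) (h : L1 (shp false q) ≤ 1) : 0 < q.2 ∧ L1 q ≤ 2 := by
  have h' : |q.1| + |q.2 - 1| ≤ 1 := h
  have a1 := neg_le_abs (q.2 - 1)
  have a2 := abs_nonneg q.1
  have a3 := le_abs_self (q.2 - 1)
  have a4 := le_abs_self q.1
  have a5 := neg_le_abs q.1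
  have hp : 0 < q.2 := by
    by_contra hc
    push Not at hc
    have h1 : q.2 = 0 := by linarith
    have h2 : |q.1| = 0 := by linarith
    exact hq (Prod.ext (abs_eq_zero.1 h2) h1)
  refine ⟨hp, ?_⟩
  unfold L1
  rw [abs_of_pos hp]
  linarith

end UpL

open UpL in
theorem up : S_PLA → S_SID → S_UP := by
  classical
  intro pla sid n K k t0 u e p hbig hp hgc h0 hcl hne hm hb
  obtain ⟨hF1, hF2⟩ := Fq_ge K
  have hR := RR_eq K
  have hL := Lam_eq K
  have hB := Bet_eq K
  have hD := D1_eq K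
  have hn : 12 ≤ n := by unfold Big at hbig; omega
  have hm' : ∀ t, t0 ≤ t → t < t0 + Lam K → (e t = true ↔
      ((∀ s, t0 ≤ s → s ≤ t → WW e s < RR K) ∧ ∀ z, ¬ BE (PD n u e p t z)) ∨
      (¬ (∀ s, t0 ≤ s → s ≤ t → WW e s < RR K) ∧ WW e t ≤ 0)) := by
    intro t h1 h2
    rw [hm t h1 h2]
    split_ifs with h
    · exact ⟨fun h' => Or.inl ⟨h, h'⟩, fun h' => h'.elim (fun x => x.2) (fun x => absurd h x.1)⟩
    · exact ⟨fun h' => Or.inr ⟨h, h'⟩, fun h' => h'.elim (fun x => absurd x.1 h) (fun x => x.2)⟩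
  obtain ⟨pA, pB, pC1, pC2⟩ := path h0 hm' hb
  have h0' := abs_le.1 h0
  have hRz : (RR K : ℤ) = 200 * Fq K := by rw [hR]; push_cast; ring
  have hLz : (Lam K : ℤ) = 1600 * Fq K := by rw [hL]; push_cast; ring
  have hDz : (D1 K : ℤ) = 6400 * Fq K := by rw [hD]; push_cast; ring
  have hFz : (1000 : ℤ) ≤ Fq K := by exact_mod_cast hF2
  have hFz1 : (1600 : ℤ) * K ≤ Fq K := by exact_mod_cast hF1
  have hnz : (1000000 : ℤ) * Lam K ≤ n := by unfold Big at hbig; exact_mod_cast hbig
  refine ⟨fun t h1 h2 => abs_le.2 ?_, pB, pC1, pC2, ?_⟩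
  · have := pA t h1 h2
    constructor <;> linarith [this.1, this.2]
  -- one zombie near the survivor
  have key : ∀ t, t0 ≤ t → t < t0 + Lam K → ∀ z, PD n u e p t z ≠ 0 →
      2 ≤ L1 (tu n (u z) e (p z) (t + 1)) := by
    intro t h1 h2 z hz
    by_contra hc
    push Not at hc
    have hc' : L1 (tu n (u z) e (p z) (t + 1)) ≤ 1 := by omega
    have hpl := pla n (u z) e (p z) t hn (hp z)
    -- near
    have hnear : L1 (du n (u z) e (p z) t) ≤ 3 := by
      have a1 := hpl.2.2.1
      have a2 : L1 (du n (u z) e (p z) (t + 1)) ≤ L1 (tu n (u z) e (p z) (t + 1)) :=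
        (zu_L1 hn _ _).1
      linarith
    have htu := (hpl.1 (by
      have : (12 : ℤ) ≤ n := by exact_mod_cast hn
      linarith)).1
    rw [htu] at hc'
    -- back to `t0`
    have hback := L1_back pla hn (u z) e (hp z) t0 (t - t0)
    rw [show t0 + (t - t0) = t by omega] at hback
    have hti : ((t - t0 : ℕ) : ℤ) ≤ Lam K := by
      have : t - t0 ≤ Lam K := by omega
      exact_mod_cast this
    have hq0 : L1 (du n (u z) e (p z) t0) ≤ 3 + 2 * Lam K := by linarith
    obtain ⟨s1, s2, s3, s4, s5, s6⟩ := sid n (u z) e (p z) t0 t hn (hp z) h1 (by linarith)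
    have hfr : Fr (du n (u z) e (p z) t) → Fr (du n (u z) e (p z) t0) := fun h => by
      by_contra h'
      exact s1 h' h
    -- the coins
    have hg := hgc z (t0 + 1) (t - t0) (by omega)
    rw [show t0 + 1 + (t - t0) = t + 1 by omega] at hg
    have hg' : |WW (bts (u z)) (t + 1) - WW (bts (u z)) (t0 + 1)| ≤ Fq K := by
      apply abs_le_of_sq_le_sq _ (by linarith)
      refine hg.trans ?_
      have : (K : ℤ) * ((t - t0 : ℕ) : ℤ) ≤ K * Lam K :=
        mul_le_mul_of_nonneg_left hti (Int.natCast_nonneg _)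
      rw [hLz] at this
      nlinarith
    obtain ⟨g1, g2⟩ := abs_le.1 hg'
    have pt := pA t h1 h2.le
    have main : Fr (du n (u z) e (p z) t) → L1 (du n (u z) e (p z) t) ≤ 2 →
        (ESide (du n (u z) e (p z) t) ∧ 0 < WW e t) ∨ (NSide (du n (u z) e (p z) t) ∧ False) := by
      intro hf hl
      have hf0 := hfr hf
      have hv := hcl z
      have b0 := L1_bd (du n (u z) e (p z) t0)
      have bt' := L1_bd (du n (u z) e (p z) t)
      have hcase : 4 * (du n (u z) e (p z) t0).1 ≤ -(RR K : ℤ) ∨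
          4 * (du n (u z) e (p z) t0).2 ≤ -(RR K : ℤ) := by
        by_contra hcc
        push Not at hcc
        apply hv
        refine ⟨hf0, abs_le.2 ⟨?_, ?_⟩, abs_le.2 ⟨?_, ?_⟩, hcc.1, hcc.2⟩
        · show -(D1 K : ℤ) ≤ (du n (u z) e (p z) t0).1
          linarith [b0.2.1]
        · show (du n (u z) e (p z) t0).1 ≤ (D1 K : ℤ)
          linarith [b0.1]
        · show -(D1 K : ℤ) ≤ (du n (u z) e (p z) t0).2
          linarith [b0.2.2.2.1]
        · show (du n (u z) e (p z) t0).2 ≤ (D1 K : ℤ)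
          linarith [b0.2.2.1]
      rcases hcase with hcase | hcase
      · -- the north side
        have hN0 : NSide (du n (u z) e (p z) t0) := by
          refine ⟨by linarith, ?_⟩
          rcases hf0 with h | h
          · linarith
          · exact h
        rcases s3 hN0 with hN | hN
        · right
          refine ⟨hN, ?_⟩
          have := (s6 hN0 hN).2.2
          linarith [bt'.2.1, pt.2, h0'.2]
        · exact absurd hf hN
      · have hE0 : ESide (du n (u z) e (p z) t0) := by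
          refine ⟨?_, by linarith⟩
          rcases hf0 with h | h
          · exact h
          · linarith
        rcases s2 hE0 with hE | hE
        · left
          refine ⟨hE, ?_⟩
          have := (s5 hE0 hE).2.2
          linarith [bt'.2.2.2.1, h0'.1]
        · exact absurd hf hE
    have hz' : du n (u z) e (p z) t ≠ 0 := hz
    cases he : e t
    · rw [he] at hc'
      obtain ⟨k1, k2⟩ := toward_n hz' hc'
      rcases main (Or.inr k1) k2 with ⟨hE, _⟩ | ⟨_, h⟩
      · exact absurd hE.2 (by linarith)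
      · exact h
    · rw [he] at hc'
      obtain ⟨k1, k2⟩ := toward_e hz' hc'
      rcases (hm' t h1 h2).1 he with ⟨_, hbe⟩ | ⟨_, hw⟩
      · exact hbe z ⟨k1, k2⟩
      · rcases main (Or.inl k1) k2 with ⟨_, hw'⟩ | ⟨_, h⟩
        · linarith
        · exact h
  -- induction
  have hnz' : ∀ i, i < Lam K → ∀ z, PD n u e p (t0 + i) z ≠ 0 := by
    intro i
    induction i with
    | zero => intro _ z; exact hne z
    | succ i ih =>
      intro hi z
      have h1 := key (t0 + i) (by omega) (by omega) z (ih (by omega) z)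
      apply L1_ne
      have h2 := (zu_L1 hn (u z (t0 + i + 1)) (tu n (u z) e (p z) (t0 + i + 1))).2
      have h3 : L1 (PD n u e p (t0 + (i + 1)) z) =
          L1 (zu n (u z (t0 + i + 1)) (tu n (u z) e (p z) (t0 + i + 1))) := rfl
      rw [h3]; linarith
  intro t h1 h2 z
  have := hnz' (t - t0) (by omega) z
  rw [show t0 + (t - t0) = t by omega] at this
  exact key t h1 h2 z this

end Pool.Agent.Helper57K9.XZ
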