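import Pool.Agent.Helper57K9.XZ.Stm4

/-!
# The weighted sum over words
-/

set_option autoImplicit false

namespace Pool.Agent.Helper57K9.XZ

namespace WsumL

open Finset Pool.Agent.Helper5K9.ZN

/-! ## Columns -/

theorem ln_lt {b : ℕ → Bool} {L i l : ℕ} (h : l < ln b L i) : i + l < L ∧ b (i + l) = false := by
  have h1 : l ∉ {l : ℕ | L ≤ i + l ∨ b (i + l) = true} := Nat.notMem_of_lt_sInf h
  simp only [Set.mem_ofPred_eq, not_or, not_le, Bool.not_eq_true] at h1
  exact h1

theorem ln_mem (b : ℕ → Bool) (L i : ℕ) : L ≤ i + ln b L i ∨ b (i + ln b L i) = true := by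
  have h1 : ln b L i ∈ {l : ℕ | L ≤ i + l ∨ b (i + l) = true} :=
    Nat.sInf_mem ⟨L, Or.inl (by omega)⟩
  exact h1

theorem le_ln {b : ℕ → Bool} {L i l : ℕ} (h : ∀ j, i ≤ j → j < i + l → j < L ∧ b j = false) :
    l ≤ ln b L i := by
  by_contra hlt
  push Not at hlt
  have h1 := h (i + ln b L i) (by omega) (by omega)
  rcases ln_mem b L i with h2 | h2
  · omega
  · rw [h1.2] at h2; exact absurd h2 (by decide)

theorem mem_stt {b : ℕ → Bool} {L i : ℕ} :
    i ∈ stt b L ↔ (1 ≤ i ∧ i < L) ∧ b (i - 1) = true ∧ b i = false := by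
  simp only [stt, mem_filter, mem_Ico]

/-- the false positions are the disjoint union of the columns -/
theorem sum_ln (b : ℕ → Bool) (L : ℕ) (h0 : 0 < L → b 0 = true) :
    ∑ i ∈ stt b L, ln b L i = ((range L).filter fun i => b i = false).card := by
  classical
  have h1 : ((range L).filter fun i => b i = false) =
      (stt b L).biUnion fun i => Ico i (i + ln b L i) := by
    ext j
    simp only [mem_filter, mem_range, mem_biUnion, mem_Ico]
    constructor
    · rintro ⟨hj, hb⟩
      -- the last `true` before `j`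
      have hb0 := h0 (by omega)
      have hj0 : 0 < j := by
        rcases Nat.eq_zero_or_pos j with rfl | h
        · rw [hb0] at hb; exact absurd hb (by decide)
        · exact h
      obtain ⟨m, hm, hmax⟩ : ∃ m, (m < j ∧ b m = true) ∧ ∀ m', m < m' → m' ≤ j → b m' = false := by
        have hne : ((range j).filter fun m => b m = true).Nonempty :=
          ⟨0, mem_filter.2 ⟨mem_range.2 hj0, hb0⟩⟩
        have hmm := max'_mem _ hne
        refine ⟨((range j).filter fun m => b m = true).max' hne, ?_, fun m' h2 h3 => ?_⟩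
        · rw [mem_filter, mem_range] at hmm
          exact hmm
        · by_contra hc
          rw [Bool.not_eq_false] at hc
          rcases Nat.lt_or_ge m' j with h4 | h4
          · have h5 := le_max' ((range j).filter fun m => b m = true) m'
              (mem_filter.2 ⟨mem_range.2 h4, hc⟩)
            omega
          · have h6 : m' = j := by omega
            rw [h6, hb] at hc
            exact absurd hc (by decide)
      refine ⟨m + 1, mem_stt.2 ⟨⟨by omega, by omega⟩, ?_, ?_⟩, by omega, ?_⟩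
      · rw [Nat.add_sub_cancel]; exact hm.2
      · exact hmax (m + 1) (by omega) (by omega)
      · have h7 : j - m ≤ ln b L (m + 1) := by
          refine le_ln fun j' h8 h9 => ⟨by omega, hmax j' (by omega) (by omega)⟩
        omega
    · rintro ⟨i, hi, h2, h3⟩
      have h4 := ln_lt (b := b) (L := L) (i := i) (l := j - i) (by omega)
      rw [show i + (j - i) = j by omega] at h4
      exact h4
  rw [h1, card_biUnion]
  · refine sum_congr rfl fun i _ => ?_
    rw [Nat.card_Ico]; omega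
  · intro i hi i' hi' hne
    rw [Function.onFun_apply, disjoint_left]
    intro j hj hj'
    rw [mem_Ico] at hj hj'
    have key : ∀ a a' : ℕ, a' ∈ stt b L → a < a' → a' ≤ j → a ≤ j → j < a + ln b L a → False := by
      intro a a' ha' h1 h2 h3 h4
      rw [mem_stt] at ha'
      have h5 := ln_lt (b := b) (L := L) (i := a) (l := a' - 1 - a) (by omega)
      rw [show a + (a' - 1 - a) = a' - 1 by omega, ha'.2.1] at h5
      exact absurd h5.2 (by decide)
    rcases Nat.lt_or_gt_of_ne hne with h | h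
    · exact key i i' hi' h hj'.1 hj.1 hj.2
    · exact key i' i hi h hj.1 hj'.1 hj'.2

/-! ## The elementary inequality -/

theorem elem1 (l : ℕ) : ((l : ℝ) + 1) * (1 / 2) ^ l ≤ 64 / 25 * (2 / 3) ^ (l + 1) := by
  rcases Nat.lt_or_ge l 2 with h | h
  · interval_cases l <;> norm_num
  · induction l, h using Nat.le_induction with
    | base => norm_num
    | succ l hl ih =>
      have hl' : (2 : ℝ) ≤ l := by exact_mod_cast hl
      have h1 : (0 : ℝ) < (1 / 2) ^ l := by positivity
      calc (((l + 1 : ℕ) : ℝ) + 1) * (1 / 2) ^ (l + 1)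
          = (((l : ℝ) + 2) / 2) * (1 / 2) ^ l := by push_cast; ring
        _ ≤ ((2 / 3) * ((l : ℝ) + 1)) * (1 / 2) ^ l :=
            mul_le_mul_of_nonneg_right (by linarith) h1.le
        _ = (2 / 3) * (((l : ℝ) + 1) * (1 / 2) ^ l) := by ring
        _ ≤ (2 / 3) * (64 / 25 * (2 / 3) ^ (l + 1)) := by linarith
        _ = _ := by ring

theorem elem (l : ℕ) : (l : ℝ) * (1 / 2) ^ (l - 1) ≤ 64 / 25 * (2 / 3) ^ l := by
  rcases Nat.eq_zero_or_pos l with rfl | h
  · norm_num
  · obtain ⟨l', rfl⟩ : ∃ l', l = l' + 1 := ⟨l - 1, by omega⟩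
    rw [Nat.add_sub_cancel]
    have := elem1 l'
    push_cast
    exact this

/-! ## The sum over the exceptional columns -/

theorem sumF (L N1 d β : ℕ) (x : ℝ) (D : (ℕ → Bool) → ℕ → ℝ) (b : ℕ → Bool) (hx : 0 ≤ x)
    (hD : ∀ b i, 0 ≤ D b i) (h0 : 0 < L → b 0 = true)
    (hβ : ((range L).filter fun i => b i = false).card = β) :
    ∑ F ∈ (stt b L).powerset.filter (fun F => F.card ≤ N1 ∧ ∀ i ∈ F, ln b L i ≤ d),
      ∏ i ∈ stt b L \ F, x * D b i * (ln b L i * (1 / 2) ^ (ln b L i - 1)) ≤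
    (5 / 6) ^ β * ((L + 1) * (3 / 2) ^ d) ^ N1 *
      ((∏ i ∈ stt b L, (64 / 25 * x * D b i + 1 / ((L : ℝ) + 1))) * (4 / 5) ^ β) := by
  classical
  set S := stt b L with hS
  set c : ℝ := 1 / ((L : ℝ) + 1) with hc
  set Kc : ℝ := ((L : ℝ) + 1) * (3 / 2) ^ d with hK
  have hL1 : (0 : ℝ) < (L : ℝ) + 1 := by positivity
  have hcpos : 0 < c := by positivity
  have hKc : Kc * c = (3 / 2) ^ d := by rw [hK, hc]; field_simp
  have hK1 : 1 ≤ Kc := by
    rw [hK]
    have h1 : (1 : ℝ) ≤ (3 / 2) ^ d := one_le_pow₀ (by norm_num)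
    have h2 : (1 : ℝ) ≤ (L : ℝ) + 1 := by
      have : (0 : ℝ) ≤ L := Nat.cast_nonneg _
      linarith
    nlinarith
  have hsum : ∑ i ∈ S, ln b L i = β := by rw [hS, sum_ln b L h0, hβ]
  have hpow : ∀ y : ℝ, ∏ i ∈ S, y ^ (ln b L i) = y ^ β := by
    intro y
    rw [prod_pow_eq_pow_sum, hsum]
  have hF : ∀ F ∈ S.powerset.filter (fun F => F.card ≤ N1 ∧ ∀ i ∈ F, ln b L i ≤ d),
      ∏ i ∈ S \ F, x * D b i * (ln b L i * (1 / 2) ^ (ln b L i - 1)) ≤
      ((5 / 6) ^ β * (4 / 5) ^ β * Kc ^ N1) *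
        ((∏ _i ∈ F, c) * ∏ i ∈ S \ F, 64 / 25 * x * D b i) := by
    intro F hFm
    rw [mem_filter, mem_powerset] at hFm
    obtain ⟨hFS, hFN, hFd⟩ := hFm
    have e1 : ∏ i ∈ S \ F, x * D b i * (ln b L i * (1 / 2) ^ (ln b L i - 1)) ≤
        ∏ i ∈ S \ F, (2 / 3) ^ (ln b L i) * (64 / 25 * x * D b i) := by
      refine prod_le_prod (fun i _ => ?_) fun i _ => ?_
      · have := hD b i; positivity
      · have h1 := elem (ln b L i)
        have h2 : 0 ≤ x * D b i := mul_nonneg hx (hD b i)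
        calc _ ≤ x * D b i * (64 / 25 * (2 / 3) ^ (ln b L i)) := mul_le_mul_of_nonneg_left h1 h2
          _ = _ := by ring
    have e2 : (1 : ℝ) ≤ ∏ i ∈ F, (2 / 3) ^ (ln b L i) * (Kc * c) := by
      calc (1 : ℝ) = ∏ i ∈ F, (1 : ℝ) := by simp
        _ ≤ _ := by
          refine prod_le_prod (fun _ _ => zero_le_one) fun i hi => ?_
          rw [hKc]
          obtain ⟨r, hr⟩ : ∃ r, d = ln b L i + r := ⟨d - ln b L i, by have := hFd i hi; omega⟩
          rw [hr, pow_add, ← mul_assoc, ← mul_pow]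
          have : (2 / 3 : ℝ) * (3 / 2) = 1 := by norm_num
          rw [this, one_pow, one_mul]
          exact one_le_pow₀ (by norm_num)
    have e3 : 0 ≤ ∏ i ∈ S \ F, (2 / 3) ^ (ln b L i) * (64 / 25 * x * D b i) :=
      prod_nonneg fun i _ => by have := hD b i; positivity
    have e4 : Kc ^ F.card ≤ Kc ^ N1 := pow_le_pow_right₀ hK1 hFN
    have e5 : (∏ i ∈ F, (2 / 3 : ℝ) ^ (ln b L i)) * ∏ i ∈ S \ F, (2 / 3 : ℝ) ^ (ln b L i) =
        (5 / 6) ^ β * (4 / 5) ^ β := by
      rw [mul_comm, prod_sdiff hFS, hpow, ← mul_pow]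
      norm_num
    calc _ ≤ ∏ i ∈ S \ F, (2 / 3) ^ (ln b L i) * (64 / 25 * x * D b i) := e1
      _ ≤ (∏ i ∈ F, (2 / 3) ^ (ln b L i) * (Kc * c)) *
          ∏ i ∈ S \ F, (2 / 3) ^ (ln b L i) * (64 / 25 * x * D b i) :=
            le_mul_of_one_le_left e3 e2
      _ = ((∏ i ∈ F, (2 / 3 : ℝ) ^ (ln b L i)) * ∏ i ∈ S \ F, (2 / 3 : ℝ) ^ (ln b L i)) *
          Kc ^ F.card * ((∏ _i ∈ F, c) * ∏ i ∈ S \ F, 64 / 25 * x * D b i) := by
            have g1 : ∏ i ∈ F, (2 / 3 : ℝ) ^ (ln b L i) * (Kc * c) =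
                (∏ i ∈ F, (2 / 3 : ℝ) ^ (ln b L i)) * (Kc ^ F.card * ∏ _i ∈ F, c) := by
              rw [prod_mul_distrib, prod_const, prod_const, mul_pow]
            have g2 : ∏ i ∈ S \ F, (2 / 3 : ℝ) ^ (ln b L i) * (64 / 25 * x * D b i) =
                (∏ i ∈ S \ F, (2 / 3 : ℝ) ^ (ln b L i)) * ∏ i ∈ S \ F, 64 / 25 * x * D b i :=
              prod_mul_distrib
            rw [g1, g2]
            generalize (∏ i ∈ F, (2 / 3 : ℝ) ^ (ln b L i)) = A1
            generalize (∏ i ∈ S \ F, (2 / 3 : ℝ) ^ (ln b L i)) = A2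
            generalize (∏ i ∈ S \ F, 64 / 25 * x * D b i) = A3
            generalize (∏ _i ∈ F, c) = A4
            generalize Kc ^ F.card = A5
            ring
      _ = ((5 / 6) ^ β * (4 / 5) ^ β) * Kc ^ F.card *
          ((∏ _i ∈ F, c) * ∏ i ∈ S \ F, 64 / 25 * x * D b i) := by rw [e5]
      _ ≤ _ := by
            refine mul_le_mul_of_nonneg_right (mul_le_mul_of_nonneg_left e4 (by positivity)) ?_
            exact mul_nonneg (prod_nonneg fun _ _ => hcpos.le)
              (prod_nonneg fun i _ => by have := hD b i; positivity)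
  calc _ ≤ ∑ F ∈ S.powerset.filter (fun F => F.card ≤ N1 ∧ ∀ i ∈ F, ln b L i ≤ d),
        ((5 / 6) ^ β * (4 / 5) ^ β * Kc ^ N1) *
        ((∏ _i ∈ F, c) * ∏ i ∈ S \ F, 64 / 25 * x * D b i) := sum_le_sum hF
    _ ≤ ∑ F ∈ S.powerset, ((5 / 6) ^ β * (4 / 5) ^ β * Kc ^ N1) *
        ((∏ _i ∈ F, c) * ∏ i ∈ S \ F, 64 / 25 * x * D b i) := by
          refine sum_le_sum_of_subset_of_nonneg (filter_subset _ _) fun F _ _ => ?_
          have hk : 0 ≤ Kc := by linarith
          refine mul_nonneg (by positivity) (mul_nonneg (prod_nonneg fun _ _ => hcpos.le)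
              (prod_nonneg fun i _ => by have := hD b i; positivity))
    _ = _ := by
          rw [← mul_sum, ← prod_add]
          have : ∀ i, c + 64 / 25 * x * D b i = 64 / 25 * x * D b i + c := fun i => by ring
          simp only [this]
          ring

/-! ## The induction over the length of the words -/

/-- one letter -/
noncomputable def stpw (x c : ℝ) (D : (ℕ → Bool) → ℕ → ℝ) (b : ℕ → Bool) (i : ℕ) : ℝ :=
  if b i = true then Real.exp (-(12 * x * D b (i + 1) + 4 * c))
  else (if 1 ≤ i ∧ b (i - 1) = true then 64 / 25 * x * D b i + c else 1) * (4 / 5)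

/-- the weight of a word -/
noncomputable def wt (x c : ℝ) (D : (ℕ → Bool) → ℕ → ℝ) (b : ℕ → Bool) (i : ℕ) : ℝ :=
  ∏ j ∈ range i, stpw x c D b j

/-- the potential -/
noncomputable def pot (x c : ℝ) (D : (ℕ → Bool) → ℕ → ℝ) (b : ℕ → Bool) (i : ℕ) : ℝ :=
  if 1 ≤ i then (if b (i - 1) = true then Real.exp (12 * x * D b i + 4 * c) else 5) else 1

theorem wt_congr (x c : ℝ) (D : (ℕ → Bool) → ℕ → ℝ)
    (hD : ∀ b b' i, (∀ s < i, b s = b' s) → D b i = D b' i) (b b' : ℕ → Bool) (i : ℕ)
    (h : ∀ s < i, b s = b' s) : wt x c D b i = wt x c D b' i := by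
  refine prod_congr rfl fun j hj => ?_
  rw [mem_range] at hj
  unfold stpw
  rw [h j hj, h (j - 1) (by omega), hD b b' (j + 1) (fun s hs => h s (by omega)),
    hD b b' j (fun s hs => h s (by omega))]

theorem pot_congr (x c : ℝ) (D : (ℕ → Bool) → ℕ → ℝ)
    (hD : ∀ b b' i, (∀ s < i, b s = b' s) → D b i = D b' i) (b b' : ℕ → Bool) (i : ℕ)
    (h : ∀ s < i, b s = b' s) : pot x c D b i = pot x c D b' i := by
  unfold pot
  by_cases hi : 1 ≤ i
  · rw [if_pos hi, if_pos hi, h (i - 1) (by omega), hD b b' i h]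
  · rw [if_neg hi, if_neg hi]

theorem wt_nonneg (x c : ℝ) (D : (ℕ → Bool) → ℕ → ℝ) (hx : 0 ≤ x) (hc : 0 ≤ c)
    (hD : ∀ b i, 0 ≤ D b i) (b : ℕ → Bool) (i : ℕ) : 0 ≤ wt x c D b i := by
  refine prod_nonneg fun j _ => ?_
  unfold stpw
  have := hD b j
  split_ifs <;> positivity

theorem one_le_pot (x c : ℝ) (D : (ℕ → Bool) → ℕ → ℝ) (hx : 0 ≤ x) (hc : 0 ≤ c)
    (hD : ∀ b i, 0 ≤ D b i) (b : ℕ → Bool) (i : ℕ) : 1 ≤ pot x c D b i := by
  unfold pot
  have := hD b i
  split_ifs
  · exact Real.one_le_exp (by positivity)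
  · norm_num
  · exact le_rfl

/-- the word `w` followed by the letter `y` -/
theorem ext_snoc_lt {i : ℕ} (w : Fin i → Bool) (y : Bool) (s : ℕ) (hs : s < i) :
    ext (Fin.snoc (α := fun _ => Bool) w y) s = ext w s := by
  unfold Pool.Agent.Helper5K9.ZN.ext
  rw [dif_pos (show s < i + 1 by omega), dif_pos hs]
  simp only [Fin.snoc, hs, dif_pos]
  rfl

theorem ext_snoc_eq {i : ℕ} (w : Fin i → Bool) (y : Bool) :
    ext (Fin.snoc (α := fun _ => Bool) w y) i = y := by
  unfold Pool.Agent.Helper5K9.ZN.ext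
  rw [dif_pos (show i < i + 1 by omega)]
  simp [Fin.snoc]

open Classical in
theorem key (x c : ℝ) (D : (ℕ → Bool) → ℕ → ℝ) (hx : 0 ≤ x) (hc : 0 ≤ c)
    (hD0 : ∀ b i, 0 ≤ D b i)
    (hD : ∀ b b' i, (∀ s < i, b s = b' s) → D b i = D b' i) (i : ℕ) :
    ∑ w : Fin i → Bool, (if (0 < i → ext w 0 = true) then
      wt x c D (ext w) i * pot x c D (ext w) i else 0) ≤ 1 := by
  induction i with
  | zero =>
    have : ∀ w : Fin 0 → Bool, (if (0 < 0 → ext w 0 = true) then
      wt x c D (ext w) 0 * pot x c D (ext w) 0 else 0) = 1 := by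
      intro w
      rw [if_pos (fun h => absurd h (lt_irrefl _))]
      simp [wt, pot]
    simp only [this]
    simp
  | succ i ih =>
    refine le_trans ?_ ih
    rw [← (Fin.snocEquiv fun _ : Fin (i + 1) => Bool).sum_comp, Fintype.sum_prod_type_right]
    refine sum_le_sum fun w _ => ?_
    rw [Fintype.sum_bool]
    change (if (0 < i + 1 → ext (Fin.snoc (α := fun _ => Bool) w true) 0 = true) then
        wt x c D (ext (Fin.snoc (α := fun _ => Bool) w true)) (i + 1) *
        pot x c D (ext (Fin.snoc (α := fun _ => Bool) w true)) (i + 1) else 0) +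
      (if (0 < i + 1 → ext (Fin.snoc (α := fun _ => Bool) w false) 0 = true) then
        wt x c D (ext (Fin.snoc (α := fun _ => Bool) w false)) (i + 1) *
        pot x c D (ext (Fin.snoc (α := fun _ => Bool) w false)) (i + 1) else 0) ≤ _
    obtain ⟨e, he⟩ : ∃ e, e = ext w := ⟨_, rfl⟩
    obtain ⟨e1, he1⟩ : ∃ e1, e1 = ext (Fin.snoc (α := fun _ => Bool) w true) := ⟨_, rfl⟩
    obtain ⟨e2, he2⟩ : ∃ e2, e2 = ext (Fin.snoc (α := fun _ => Bool) w false) := ⟨_, rfl⟩
    have a1 : ∀ s < i, e1 s = e s := fun s hs => by rw [he1, he, ext_snoc_lt w true s hs]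
    have a2 : ∀ s < i, e2 s = e s := fun s hs => by rw [he2, he, ext_snoc_lt w false s hs]
    have b1 : e1 i = true := by rw [he1, ext_snoc_eq]
    have b2 : e2 i = false := by rw [he2, ext_snoc_eq]
    rw [← he, ← he1, ← he2]
    have w1 : wt x c D e1 (i + 1) = wt x c D e i * stpw x c D e1 i := by
      rw [← wt_congr x c D hD e1 e i a1]; exact prod_range_succ _ _
    have w2 : wt x c D e2 (i + 1) = wt x c D e i * stpw x c D e2 i := by
      rw [← wt_congr x c D hD e2 e i a2]; exact prod_range_succ _ _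
    have w3 : wt x c D e1 (i + 1) * pot x c D e1 (i + 1) = wt x c D e i := by
      rw [w1, stpw, if_pos b1, pot, if_pos (by omega), Nat.add_sub_cancel, if_pos b1, mul_assoc,
        ← Real.exp_add, neg_add_cancel, Real.exp_zero, mul_one]
    have hw0 : 0 ≤ wt x c D e i := wt_nonneg x c D hx hc hD0 e i
    rcases Nat.eq_zero_or_pos i with h0 | h0
    · subst h0
      rw [if_pos (fun _ => b1), if_neg (fun h => by rw [b2] at h; exact absurd (h Nat.one_pos) (by decide)),
        if_pos (fun h => absurd h (lt_irrefl _)), w3, add_zero]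
      simp [pot]
    · rw [a1 0 h0, a2 0 h0]
      by_cases hc0 : e 0 = true
      · have b2' : ¬ (e2 i = true) := by rw [b2]; decide
        have w4 : stpw x c D e2 i =
            (if 1 ≤ i ∧ e (i - 1) = true then 64 / 25 * x * D e i + c else 1) * (4 / 5) := by
          rw [stpw, if_neg b2', a2 (i - 1) (by omega), hD e2 e i a2]
        have w5 : pot x c D e2 (i + 1) = 5 := by
          rw [pot, if_pos (Nat.succ_le_succ (Nat.zero_le i)), Nat.add_sub_cancel, if_neg b2']
        have w6 : pot x c D e i = if e (i - 1) = true then Real.exp (12 * x * D e i + 4 * c) else 5 := by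
          rw [pot, if_pos (show 1 ≤ i from h0)]
        rw [if_pos (fun _ => hc0), if_pos (fun _ => hc0), if_pos (fun _ => hc0), w3, w2, w4, w5, w6]
        have hDi := hD0 e i
        by_cases h1 : e (i - 1) = true
        · rw [if_pos ⟨h0, h1⟩, if_pos h1]
          have h2 := Real.add_one_le_exp (12 * x * D e i + 4 * c)
          have h3 : 0 ≤ x * D e i := mul_nonneg hx hDi
          calc _ = wt x c D e i * (1 + 4 * (64 / 25 * x * D e i + c)) := by ring
            _ ≤ wt x c D e i * Real.exp (12 * x * D e i + 4 * c) :=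
                mul_le_mul_of_nonneg_left (by nlinarith) hw0
        · rw [if_neg (fun h => h1 h.2), if_neg h1]
          exact le_of_eq (by ring)
      · have h2 : ¬ (0 < i + 1 → e 0 = true) := fun h => hc0 (h (Nat.succ_pos i))
        have h3 : ¬ (0 < i → e 0 = true) := fun h => hc0 (h h0)
        rw [if_neg h2, if_neg h2, if_neg h3, add_zero]

/-! ## The weight in closed form -/

theorem stt_succ (b : ℕ → Bool) (i : ℕ) : stt b (i + 1) =
    if 1 ≤ i ∧ b (i - 1) = true ∧ b i = false then insert i (stt b i) else stt b i := by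
  ext j
  split_ifs with h
  · rw [mem_insert, mem_stt, mem_stt]
    constructor
    · rintro ⟨⟨h1, h2⟩, h3⟩
      rcases Nat.lt_or_ge j i with h4 | h4
      · exact Or.inr ⟨⟨h1, h4⟩, h3⟩
      · exact Or.inl (by omega)
    · rintro (rfl | ⟨⟨h1, h2⟩, h3⟩)
      · exact ⟨⟨h.1, by omega⟩, h.2⟩
      · exact ⟨⟨h1, by omega⟩, h3⟩
  · rw [mem_stt, mem_stt]
    constructor
    · rintro ⟨⟨h1, h2⟩, h3⟩
      refine ⟨⟨h1, ?_⟩, h3⟩
      by_contra h4
      have h5 : j = i := by omega
      rw [h5] at h1 h3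
      exact h ⟨h1, h3⟩
    · rintro ⟨⟨h1, h2⟩, h3⟩
      exact ⟨⟨h1, by omega⟩, h3⟩

theorem wt_eq (x c : ℝ) (D : (ℕ → Bool) → ℕ → ℝ) (b : ℕ → Bool) (i : ℕ) :
    wt x c D b i = (∏ j ∈ stt b i, (64 / 25 * x * D b j + c)) *
      (4 / 5) ^ ((range i).filter fun j => b j = false).card *
      Real.exp (-∑ j ∈ (range i).filter (fun j => b j = true), (12 * x * D b (j + 1) + 4 * c)) := by
  induction i with
  | zero => simp [wt, stt]
  | succ i ih =>
    have h1 : wt x c D b (i + 1) = wt x c D b i * stpw x c D b i := prod_range_succ _ _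
    rw [h1, ih, stt_succ, range_add_one, filter_insert, filter_insert]
    by_cases hb : b i = true
    · have hb' : ¬ (b i = false) := by rw [hb]; decide
      rw [if_neg (fun h => hb' h.2.2), if_neg hb', if_pos hb, sum_insert (by simp), neg_add,
        Real.exp_add, stpw, if_pos hb]
      ring
    · have hb' : b i = false := by simpa using hb
      have hs : stpw x c D b i =
          (if 1 ≤ i ∧ b (i - 1) = true then 64 / 25 * x * D b i + c else 1) * (4 / 5) := by
        rw [stpw, if_neg hb]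
      rw [if_pos hb', if_neg hb, card_insert_of_notMem (by simp), pow_succ, hs]
      by_cases h2 : 1 ≤ i ∧ b (i - 1) = true
      · rw [if_pos h2, if_pos (show 1 ≤ i ∧ b (i - 1) = true ∧ b i = false from ⟨h2.1, h2.2, hb'⟩),
          prod_insert (by rw [mem_stt]; omega)]
        ring
      · rw [if_neg h2, if_neg (show ¬ (1 ≤ i ∧ b (i - 1) = true ∧ b i = false) from
          fun h => h2 ⟨h.1, h.2.1⟩)]
        ring

end WsumL

open Finset Pool.Agent.Helper5K9.ZN in
/-- the weighted sum over words -/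
theorem wsum : S_WSUM := by
  classical
  intro L N1 d β x M D W hx hM hD0 hD hW
  obtain ⟨c, hc⟩ : ∃ c : ℝ, c = 1 / ((L : ℝ) + 1) := ⟨_, rfl⟩
  have hL1 : (0 : ℝ) < (L : ℝ) + 1 := by positivity
  have hc0 : 0 < c := by rw [hc]; positivity
  have hcL : (L : ℝ) * c ≤ 1 := by
    rw [hc, mul_one_div, div_le_one hL1]; linarith
  have hKpos : (0 : ℝ) ≤ (5 / 6) ^ β * ((L + 1) * (3 / 2) ^ d) ^ N1 := by positivity
  -- each word
  have h1 : ∀ w ∈ W, ∑ F ∈ (stt (ext w) L).powerset.filter
      (fun F => F.card ≤ N1 ∧ ∀ i ∈ F, ln (ext w) L i ≤ d),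
      ∏ i ∈ stt (ext w) L \ F, x * D (ext w) i * (ln (ext w) L i * (1 / 2) ^ (ln (ext w) L i - 1)) ≤
      (5 / 6) ^ β * ((L + 1) * (3 / 2) ^ d) ^ N1 * ((Real.exp 4 * Real.exp (12 * x * M)) *
        (if (0 < L → ext w 0 = true) then
          WsumL.wt x c D (ext w) L * WsumL.pot x c D (ext w) L else 0)) := by
    intro w hw
    obtain ⟨h0, hβ, hMw⟩ := hW w hw
    have h2 := WsumL.sumF L N1 d β x D (ext w) hx hD0 h0 hβ
    refine h2.trans ?_
    refine mul_le_mul_of_nonneg_left ?_ hKpos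
    rw [if_pos h0, ← hc]
    have h3 := WsumL.wt_eq x c D (ext w) L
    rw [hβ] at h3
    have h4 : ∑ j ∈ (range L).filter (fun j => ext w j = true), (12 * x * D (ext w) (j + 1) + 4 * c) ≤
        12 * x * M + 4 := by
      rw [sum_add_distrib, ← mul_sum, sum_const, nsmul_eq_mul]
      have h5 : (((range L).filter fun j => ext w j = true).card : ℝ) ≤ L := by
        have := card_filter_le (range L) fun j => ext w j = true
        rw [card_range] at this
        exact_mod_cast this
      have h6 : (((range L).filter fun j => ext w j = true).card : ℝ) * (4 * c) ≤ 4 := by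
        calc _ ≤ (L : ℝ) * (4 * c) := mul_le_mul_of_nonneg_right h5 (by positivity)
          _ = 4 * (L * c) := by ring
          _ ≤ 4 := by linarith
      have h7 : 12 * x * ∑ j ∈ (range L).filter (fun j => ext w j = true), D (ext w) (j + 1) ≤
          12 * x * M := mul_le_mul_of_nonneg_left hMw (by positivity)
      linarith
    have h5 := WsumL.one_le_pot x c D hx hc0.le hD0 (ext w) L
    set Pr := (∏ i ∈ stt (ext w) L, (64 / 25 * x * D (ext w) i + c)) * (4 / 5) ^ β with hPr
    have hPr0 : 0 ≤ Pr := by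
      refine mul_nonneg (prod_nonneg fun i _ => ?_) (by positivity)
      have := hD0 (ext w) i
      positivity
    rw [h3]
    have h6 : 1 ≤ (Real.exp 4 * Real.exp (12 * x * M)) *
        Real.exp (-∑ j ∈ (range L).filter (fun j => ext w j = true),
          (12 * x * D (ext w) (j + 1) + 4 * c)) := by
      rw [← Real.exp_add, ← Real.exp_add]
      apply Real.one_le_exp
      linarith
    set Ex := Real.exp (-∑ j ∈ (range L).filter (fun j => ext w j = true),
          (12 * x * D (ext w) (j + 1) + 4 * c)) with hEx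
    have hEx0 : 0 < Ex := Real.exp_pos _
    calc Pr = Pr * 1 * 1 := by ring
      _ ≤ Pr * ((Real.exp 4 * Real.exp (12 * x * M)) * Ex) * WsumL.pot x c D (ext w) L := by
          refine mul_le_mul (mul_le_mul_of_nonneg_left h6 hPr0) h5 zero_le_one ?_
          positivity
      _ = _ := by ring
  calc _ ≤ ∑ w ∈ W, (5 / 6) ^ β * ((L + 1) * (3 / 2) ^ d) ^ N1 *
      ((Real.exp 4 * Real.exp (12 * x * M)) * (if (0 < L → ext w 0 = true) then
          WsumL.wt x c D (ext w) L * WsumL.pot x c D (ext w) L else 0)) := sum_le_sum h1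
    _ = (5 / 6) ^ β * ((L + 1) * (3 / 2) ^ d) ^ N1 * ((Real.exp 4 * Real.exp (12 * x * M)) *
        ∑ w ∈ W, (if (0 < L → ext w 0 = true) then
          WsumL.wt x c D (ext w) L * WsumL.pot x c D (ext w) L else 0)) := by
        rw [← mul_sum, ← mul_sum]
    _ ≤ (5 / 6) ^ β * ((L + 1) * (3 / 2) ^ d) ^ N1 * ((Real.exp 4 * Real.exp (12 * x * M)) * 1) := by
        refine mul_le_mul_of_nonneg_left (mul_le_mul_of_nonneg_left ?_ (by positivity)) hKpos
        refine le_trans ?_ (WsumL.key x c D hx hc0.le hD0 hD L)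
        refine sum_le_sum_of_subset_of_nonneg (subset_univ _) fun w _ _ => ?_
        split_ifs
        · exact mul_nonneg (WsumL.wt_nonneg x c D hx hc0.le hD0 _ _)
            (le_trans zero_le_one (WsumL.one_le_pot x c D hx hc0.le hD0 _ _))
        · exact le_rfl
    _ = _ := by ring

end Pool.Agent.Helper57K9.XZ
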