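import Pool.Agent.Helper57K9.XZ.Abp
import Pool.Agent.Helper57K9.XZ.Bx
import Pool.Agent.Helper57K9.XZ.Cnt
import Pool.Agent.Helper57K9.XZ.Cri
import Pool.Agent.Helper57K9.XZ.Det
import Pool.Agent.Helper57K9.XZ.Dn
import Pool.Agent.Helper57K9.XZ.Dxa
import Pool.Agent.Helper57K9.XZ.Dxn
import Pool.Agent.Helper57K9.XZ.Fac
import Pool.Agent.Helper57K9.XZ.Far
import Pool.Agent.Helper57K9.XZ.Fd
import Pool.Agent.Helper57K9.XZ.Fdn
import Pool.Agent.Helper57K9.XZ.Fin1
import Pool.Agent.Helper57K9.XZ.Fin2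
import Pool.Agent.Helper57K9.XZ.Fin3
import Pool.Agent.Helper57K9.XZ.Gamen
import Pool.Agent.Helper57K9.XZ.Gcb
import Pool.Agent.Helper57K9.XZ.Mask
import Pool.Agent.Helper57K9.XZ.Mbd
import Pool.Agent.Helper57K9.XZ.Msk0
import Pool.Agent.Helper57K9.XZ.Ns
import Pool.Agent.Helper57K9.XZ.Nvx
import Pool.Agent.Helper57K9.XZ.Occ
import Pool.Agent.Helper57K9.XZ.Pc
import Pool.Agent.Helper57K9.XZ.Pdd
import Pool.Agent.Helper57K9.XZ.Pdu
import Pool.Agent.Helper57K9.XZ.Pdx
import Pool.Agent.Helper57K9.XZ.Pe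
import Pool.Agent.Helper57K9.XZ.Pla
import Pool.Agent.Helper57K9.XZ.Pu
import Pool.Agent.Helper57K9.XZ.Sbl
import Pool.Agent.Helper57K9.XZ.Sid
import Pool.Agent.Helper57K9.XZ.Slo
import Pool.Agent.Helper57K9.XZ.Spc
import Pool.Agent.Helper57K9.XZ.Sph
import Pool.Agent.Helper57K9.XZ.Str
import Pool.Agent.Helper57K9.XZ.Swp
import Pool.Agent.Helper57K9.XZ.Tb
import Pool.Agent.Helper57K9.XZ.Up
import Pool.Agent.Helper57K9.XZ.Wsum

/-!
# The order of the zombie number of `C_n □ C_n`: assembly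
-/

set_option autoImplicit false

namespace Pool.Agent.Helper57K9.XZ

open Pool.Agent.Helper57K9.Zomb

theorem all_nvx : S_NVX := nvx pla sid
theorem all_spc : S_SPC := spc pla neb
theorem all_cnt : S_CNT := cntl all_nvx all_spc xit
theorem all_up : S_UP := up pla sid
theorem all_dn : S_DN := dn all_up swp
theorem all_fd : S_FD := fd pla sid all_nvx all_spc xit
theorem all_fdn : S_FDN := fdn all_fd swp
theorem all_dxa : S_DXA := dxa occ (cri occ) far
theorem all_dx : S_DX := dx all_dxa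
theorem all_dxn : S_DXN := dxn all_dx swp
theorem all_pdx : S_PDX := pdx fac wsum
theorem all_mbd : S_MBD := mbd (ns slo tb pu)
theorem all_pc : S_PC := pc mask msk0 fac occ fne pla
theorem all_pe : S_PE := pe mask msk0 fac abp xit pla
theorem all_sbl : S_SBL := sbl sph all_nvx all_spc sid neb pla
theorem all_det : S_DET := det all_up all_dn all_sbl all_cnt all_spc pla
theorem all_pdu : S_PDU := pdu all_pdx all_dx mask msk0 all_fd all_det str bx
theorem all_pdd : S_PDD := pdd all_pdx all_dxn mask msk0 all_fdn all_det str bx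
theorem all_fin1 : S_FIN1 :=
  fin1 all_det str all_pc all_pe all_pdu all_pdd all_mbd end_ gcb fac gamen bx

/-- **The order of the zombie number of the torus.** -/
theorem exact_order : ∃ c : ℝ, 0 < c ∧ ∀ n : ℕ, 3 ≤ n →
    c * (n : ℝ) ^ (3 / 2 : ℝ) ≤ (zombieNumber (torus n) : ℝ) ∧
      (zombieNumber (torus n) : ℝ) ≤ 2561 * (n : ℝ) ^ (3 / 2 : ℝ) :=
  order all_fin1 fin2 gamen

end Pool.Agent.Helper57K9.XZ
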