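import Pool.Agent.Helper57K9.XZ.Bx
import Pool.Agent.Helper57K9.XZ.Swp

/-!
# Zombies on the torus: deterministic lemmas about one zombie after its first visit of an axis
-/

set_option autoImplicit false

namespace Pool.Agent.Helper57K9.XZ

open Finset Pool.Agent.Helper5K9.ZN

namespace DetL

theorem du_succ (n : ℕ) (u : ℕ → Fin 12) (e : ℕ → Bool) (p : ℤ × ℤ) (t : ℕ) :
    du n u e p (t + 1) = zu n (u (t + 1)) (smg n (e t) (du n u e p t)) := rfl

theorem sgn_pos {a : ℤ} (h : 0 < a) : a.sign = 1 := Int.sign_eq_one_of_pos h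

theorem sgn_neg {a : ℤ} (h : a < 0) : a.sign = -1 := Int.sign_eq_neg_one_of_neg h

/-- the possible moves -/
theorem zu_cases {n : ℕ} (_hn : 3 ≤ n) (c : Fin 12) (a b : ℤ) :
    (zu n c (a, b) = (a - a.sign, b) ∧ (a ≠ 0 ∨ b = 0)) ∨
    (zu n c (a, b) = (a, b - b.sign) ∧ b ≠ 0) ∨
    (2 * a = n ∧ zu n c (a, b) = (a + 1 - n, b)) ∨ (2 * b = n ∧ zu n c (a, b) = (a, b + 1 - n)) := by
  unfold zu zmg
  generalize (cfs n c (a, b)).1 = x
  generalize (cfs n c (a, b)).2 = y
  simp only
  split_ifs with h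
  · unfold hx
    split_ifs with h2
    · right; right; left; exact ⟨h2.1, rfl⟩
    · left
      refine ⟨rfl, ?_⟩
      rcases h with h | h
      · exact Or.inr h
      · exact Or.inl h.2
  · unfold hx
    push Not at h
    split_ifs with h2
    · right; right; right; exact ⟨h2.1, rfl⟩
    · right; left; exact ⟨rfl, h.1⟩

/-- the exact move if there is no tie -/
theorem zu_noTie {n : ℕ} (c : Fin 12) {a b : ℤ} (ha : 2 * a ≠ n) (hb : 2 * b ≠ n) :
    zu n c (a, b) = if b = 0 ∨ (bt c = true ∧ a ≠ 0) then (a - a.sign, b) else (a, b - b.sign) := by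
  unfold zu zmg cfs hx bt
  simp only [ha, hb, if_false, false_and]

theorem onAx_zu {n : ℕ} (hn : 3 ≤ n) (c : Fin 12) {q : ℤ × ℤ} (h : OnAx q) : OnAx (zu n c q) := by
  obtain ⟨a, b⟩ := q
  unfold OnAx at h ⊢
  simp only at h
  rcases zu_cases hn c a b with ⟨h1, h2⟩ | ⟨h1, h2⟩ | ⟨h1, h2⟩ | ⟨h1, h2⟩
  · rw [h1]
    rcases h with rfl | rfl
    · left; simp
    · right; rfl
  · rw [h1]
    rcases h with rfl | rfl
    · left; rfl
    · exact absurd rfl h2
  · rw [h2]
    rcases h with rfl | rfl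
    · omega
    · right; rfl
  · rw [h2]
    rcases h with rfl | rfl
    · left; rfl
    · omega

/-- the position at every decision is in the box -/
theorem du_mem {n : ℕ} (hn : 3 ≤ n) (u : ℕ → Fin 12) (e : ℕ → Bool) {p : ℤ × ℤ} (hp : p ∈ Boxn n)
    (t : ℕ) : tu n u e p t ∈ Boxn n ∧ du n u e p t ∈ Boxn n := by
  have h : tu n u e p t ∈ Boxn n := by
    induction t with
    | zero => exact hp
    | succ t ih => exact ((bx n hn).2 _ (((bx n hn).2 _ ih).1 _)).2 _
  exact ⟨h, ((bx n hn).2 _ h).1 _⟩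

/-- there is a first decision on an axis -/
theorem exists_first {n : ℕ} (hn : 3 ≤ n) {u : ℕ → Fin 12} {e : ℕ → Bool} {p : ℤ × ℤ} {t : ℕ}
    (h : ¬ FreeN n u e p t) : ∃ v < t, FreeN n u e p v ∧ OnAx (du n u e p v) := by
  classical
  have h1 : ∃ s, s < t ∧ OnAx (du n u e p s) := by
    unfold FreeN at h
    push Not at h
    obtain ⟨s, hs, h2⟩ := h
    refine ⟨s, hs, ?_⟩
    by_cases h3 : OnAx (tu n u e p s)
    · exact onAx_zu hn _ h3
    · exact h2 h3
  refine ⟨Nat.find h1, (Nat.find_spec h1).1, ?_, (Nat.find_spec h1).2⟩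
  intro s hs
  have h4 := Nat.find_min h1 hs
  have h5 : s < t := lt_trans hs (Nat.find_spec h1).1
  have h6 : ¬ OnAx (du n u e p s) := fun h7 => h4 ⟨h5, h7⟩
  exact ⟨fun h7 => h6 (onAx_zu hn _ h7), h6⟩

/-- absorbed zombies stay absorbed -/
theorem absn_step {n : ℕ} (hn : 3 ≤ n) (e : Bool) (c : Fin 12) {q : ℤ × ℤ} (h : Absn n q) :
    Absn n (zu n c (smg n e q)) := by
  obtain ⟨a, b⟩ := q
  obtain ⟨h1, h2, h3⟩ := h
  simp only [L1] at h1 h2 h3
  rw [abs_of_nonpos h1, abs_of_nonpos h2] at h3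
  have key : ∀ a' b' : ℤ, a' ≤ 0 → b' ≤ 0 → a' + b' = a + b - 1 → Absn n (zu n c (a', b')) := by
    intro a' b' ha hb hab
    rcases zu_cases hn c a' b' with ⟨h4, h5⟩ | ⟨h4, h5⟩ | ⟨h4, h5⟩ | ⟨h4, h5⟩
    · rw [h4]
      have ha0 : a' < 0 := by
        rcases h5 with h5 | h5
        · omega
        · subst h5; omega
      rw [sgn_neg ha0]
      refine ⟨by simp only; omega, by simpa using hb, ?_⟩
      simp only [L1]
      rw [abs_of_nonpos (by omega), abs_of_nonpos hb]
      omega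
    · rw [h4]
      have hb0 : b' < 0 := by omega
      rw [sgn_neg hb0]
      refine ⟨by simpa using ha, by simp only; omega, ?_⟩
      simp only [L1]
      rw [abs_of_nonpos ha, abs_of_nonpos (by omega)]
      omega
    · omega
    · omega
  unfold smg wrn
  cases e
  · simp only [Bool.false_eq_true, if_false]
    rw [if_neg (by omega), if_neg (by omega)]
    exact key _ _ (by omega) (by omega) (by omega)
  · simp only [if_true]
    rw [if_neg (by omega), if_neg (by omega)]
    exact key _ _ (by omega) (by omega) (by omega)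

theorem absn_from {n : ℕ} (hn : 3 ≤ n) {u : ℕ → Fin 12} {e : ℕ → Bool} {p : ℤ × ℤ} {s t : ℕ}
    (hst : s ≤ t) (h : Absn n (du n u e p s)) : Absn n (du n u e p t) := by
  induction t, hst using Nat.le_induction with
  | base => exact h
  | succ t _ ih => exact absn_step hn _ _ ih

/-- entry on the east side from the critical shell -/
def EEnt (n : ℕ) (q : ℤ × ℤ) : Prop :=
  0 < q.1 ∧ 2 * q.1 < n ∧ -1 ≤ q.2 ∧ q.2 ≤ 0 ∧ (n : ℤ) - 4 ≤ 2 * (q.1 - q.2) ∧ 2 * (q.1 - q.2) ≤ n

theorem back_mk {n : ℕ} {a b : ℤ} (h1 : a ≤ 0 ∨ 2 * a = n) (h2 : b ≤ 0 ∨ 2 * b = n)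
    (h3 : ∀ x y : ℤ, (x = a ∨ x = -a) → 0 ≤ x → (y = b ∨ y = -b) → 0 ≤ y →
      (n : ℤ) - 2 ≤ 2 * (x + y) ∧ 2 * (x + y) ≤ (n : ℤ)) : BackN n (a, b) := by
  have h4 := h3 |a| |b| (abs_choice a) (abs_nonneg a) (abs_choice b) (abs_nonneg b)
  exact ⟨h1, h2, h4.1, h4.2⟩

/-- the move from the critical shell after a move of the survivor to the east -/
theorem back_step_e {n : ℕ} (hn : 100 ≤ n) (c : Fin 12) {q : ℤ × ℤ} (hq : q ∈ Boxn n)
    (h : BackN n q) : BackN n (zu n c (smg n true q)) ∨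
      ((n : ℤ) - 2 ≤ 2 * |q.1| ∧ EEnt n (zu n c (smg n true q))) ∨
      ((n : ℤ) - 2 ≤ 2 * |q.2| ∧ EEnt n (zu n c (smg n true q)).swap) := by
  obtain ⟨a, b⟩ := q
  rw [mem_Boxn] at hq
  obtain ⟨h1, h2, h3, h4⟩ := h
  simp only [L1] at h1 h2 h3 h4 hq ⊢
  have hx1 := abs_choice a
  have hx2 := abs_nonneg a
  have hy1 := abs_choice b
  have hy2 := abs_nonneg b
  generalize |a| = x at hx1 hx2 h3 h4 ⊢
  generalize |b| = y at hy1 hy2 h3 h4 ⊢
  have hs : smg n true (a, b) = (wrn n (a - 1), b) := by simp [smg]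
  rw [hs]
  rcases h1 with h1 | h1
  · by_cases hw : 2 * (a - 1) ≤ -(n : ℤ)
    · -- wrap around
      have hwr : wrn n (a - 1) = a - 1 + n := by rw [wrn, if_pos hw]
      rw [hwr]
      have hb : b ≤ 0 := by omega
      rcases zu_cases (n := n) (by omega) c (a - 1 + n) b with ⟨h5, h6⟩ | ⟨h5, h6⟩ | ⟨h5, h6⟩ | ⟨h5, h6⟩
      · rw [h5, sgn_pos (by omega)]
        right; left
        refine ⟨by omega, ?_⟩
        unfold EEnt
        simp only
        omega
      · rw [h5, sgn_neg (by omega)]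
        by_cases h7 : 2 * (a - 1 + n) = n
        · left
          exact back_mk (by omega) (by omega) (by intro x' y' _ _ _ _; omega)
        · omega
      · rw [h6]
        left
        exact back_mk (by omega) (by omega) (by intro x' y' _ _ _ _; omega)
      · omega
    · have hwr : wrn n (a - 1) = a - 1 := by rw [wrn, if_neg hw, if_neg (by omega)]
      rw [hwr]
      rcases h2 with h2 | h2
      · rcases zu_cases (n := n) (by omega) c (a - 1) b with ⟨h5, h6⟩ | ⟨h5, h6⟩ | ⟨h5, h6⟩ | ⟨h5, h6⟩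
        · rw [h5, sgn_neg (by omega)]
          left
          exact back_mk (by omega) (by omega) (by intro x' y' _ _ _ _; omega)
        · rw [h5, sgn_neg (by omega)]
          left
          exact back_mk (by omega) (by omega) (by intro x' y' _ _ _ _; omega)
        · omega
        · omega
      · rcases zu_cases (n := n) (by omega) c (a - 1) b with ⟨h5, h6⟩ | ⟨h5, h6⟩ | ⟨h5, h6⟩ | ⟨h5, h6⟩
        · rw [h5, sgn_neg (by omega)]
          left
          exact back_mk (by omega) (by omega) (by intro x' y' _ _ _ _; omega)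
        · rw [h5, sgn_pos (by omega)]
          right; right
          refine ⟨by omega, ?_⟩
          unfold EEnt
          simp only [Prod.swap_prod_mk]
          omega
        · omega
        · rw [h6]
          left
          exact back_mk (by omega) (by omega) (by intro x' y' _ _ _ _; omega)
  · have hwr : wrn n (a - 1) = a - 1 := by rw [wrn, if_neg (by omega), if_neg (by omega)]
    rw [hwr]
    have hb : b = 0 := by omega
    rcases zu_cases (n := n) (by omega) c (a - 1) b with ⟨h5, h6⟩ | ⟨h5, h6⟩ | ⟨h5, h6⟩ | ⟨h5, h6⟩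
    · rw [h5, sgn_pos (by omega)]
      right; left
      refine ⟨by omega, ?_⟩
      unfold EEnt
      simp only
      omega
    · omega
    · omega
    · omega

theorem back_swap {n : ℕ} {q : ℤ × ℤ} (h : BackN n q) : BackN n q.swap := by
  obtain ⟨h1, h2, h3, h4⟩ := h
  simp only [L1] at h3 h4
  refine ⟨h2, h1, ?_, ?_⟩ <;> simp only [L1, Prod.fst_swap, Prod.snd_swap] <;> omega

theorem box_swap {n : ℕ} {q : ℤ × ℤ} (h : q ∈ Boxn n) : q.swap ∈ Boxn n := by
  rw [mem_Boxn] at h ⊢
  exact ⟨h.2, h.1⟩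

/-- the move from the critical shell -/
theorem back_step {n : ℕ} (hn : 100 ≤ n) (e : Bool) (c : Fin 12) {q : ℤ × ℤ} (hq : q ∈ Boxn n)
    (h : BackN n q) : BackN n (zu n c (smg n e q)) ∨
      ((n : ℤ) - 2 ≤ 2 * |q.1| ∧ EEnt n (zu n c (smg n e q))) ∨
      ((n : ℤ) - 2 ≤ 2 * |q.2| ∧ EEnt n (zu n c (smg n e q)).swap) := by
  cases e
  · have h1 := back_step_e hn (tau c) (box_swap hq) (back_swap h)
    have h2 : zu n (tau c) (smg n true q.swap) = (zu n c (smg n false q)).swap := by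
      rw [← zu_swap n (by omega) c, ← smg_swap]; rfl
    rw [h2] at h1
    rcases h1 with h1 | h1 | h1
    · left
      have := back_swap h1
      rwa [Prod.swap_swap] at this
    · right; right; exact h1
    · right; left
      rw [Prod.swap_swap] at h1
      exact h1
  · exact back_step_e hn c hq h

end DetL

end Pool.Agent.Helper57K9.XZ
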