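import Pool.Agent.Helper57K9.XZ.FarK

/-!
# The east, north and shell phases (helper5)
-/

set_option autoImplicit false

namespace Pool.Agent.Helper57K9.XZ

open Finset Pool.Agent.Helper5K9.ZN

namespace FarL

variable {n R K : ℕ} {u : ℕ → Fin 12} {e : ℕ → Bool} {p : ℤ × ℤ}

theorem absn_iff (q : ℤ × ℤ) :
    Absn n q ↔ q.1 ≤ 0 ∧ q.2 ≤ 0 ∧ 2 * (-q.1 - q.2) + 3 ≤ (n : ℤ) := by
  unfold Absn L1
  constructor
  · rintro ⟨h1, h2, h3⟩
    rw [abs_of_nonpos h1, abs_of_nonpos h2] at h3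
    exact ⟨h1, h2, by linarith⟩
  · rintro ⟨h1, h2, h3⟩
    rw [abs_of_nonpos h1, abs_of_nonpos h2]
    exact ⟨h1, h2, by linarith⟩

theorem absn_step (hn : 8 ≤ n) (hp : p ∈ Boxn n) (t : ℕ) (h : Absn n (du n u e p t)) :
    Absn n (du n u e p (t + 1)) := by
  rw [absn_iff] at *
  obtain ⟨x, y, h1, h2⟩ := front_step (by omega) u e hp t
  have s1 := sgn_cs (bts u (t + 1))
  have s2 := sgn_cs (e t)
  unfold SM at h1
  have h3 := h2 (by omega) (by omega)
  unfold ZF at h3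
  omega

theorem absn_mono (hn : 8 ≤ n) (hp : p ∈ Boxn n) {s t : ℕ} (hst : s ≤ t)
    (h : Absn n (du n u e p s)) : Absn n (du n u e p t) := by
  induction t, hst using Nat.le_induction with
  | base => exact h
  | succ t _ ih => exact absn_step hn hp t ih

/-- the east phase -/
def EP (n : ℕ) (u : ℕ → Fin 12) (e : ℕ → Bool) (p : ℤ × ℤ) (v r : ℕ) : Prop :=
  0 < (du n u e p r).1 ∧ 2 * (du n u e p r).1 < n ∧ (du n u e p r).2 ≤ 0 ∧
  (du n u e p r).1 - (du n u e p r).2 =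
    (du n u e p v).1 - (du n u e p v).2 - 2 * (xE e r - xE e v) ∧
  ∃ j, v ≤ j ∧ j ≤ r ∧ -2 * (du n u e p r).2 ≤
    4 + (WW (bts u) (r + 1) - WW (bts u) (j + 1)) - (WW e r - WW e j)

theorem EP.short {t v r : ℕ} (hbig : 1000 * (R + K + 1) ≤ n) (he : Tube R e t)
    (hv1 : 2 * (du n u e p v).1 < n) (hv2 : -2 ≤ (du n u e p v).2)
    (hvr : v ≤ r) (hrt : r ≤ t) (h : EP n u e p v r) : (r : ℤ) - v + 1 ≤ n := by
  obtain ⟨a1, a2, a3, a4, -⟩ := h
  have x1 := xE_WW e r
  have x2 := xE_WW e v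
  have e1 := abs_le.mp (he r hrt)
  have e2 := abs_le.mp (he v (hvr.trans hrt))
  omega

theorem sq_bd {a : ℤ} (hbig : 1000 * (R + K + 1) ≤ n) (h : a ^ 2 ≤ (K : ℤ) * n)
    (h1 : (n : ℤ) ≤ 4 * a + 8 * R + 16) : False := by
  have hbig' : 1000 * ((R : ℤ) + K + 1) ≤ n := by exact_mod_cast hbig
  have hR : (0 : ℤ) ≤ R := Int.natCast_nonneg R
  have hK : (0 : ℤ) ≤ K := Int.natCast_nonneg K
  have hpos : 0 < (n : ℤ) - 8 * R - 16 := by linarith
  have h2 : ((n : ℤ) - 8 * R - 16) ^ 2 ≤ (4 * a) ^ 2 := by nlinarith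
  nlinarith

theorem gcw {t j r : ℕ} (hbig : 1000 * (R + K + 1) ≤ n) {c : ℕ → Bool} (hc : GC K (t + 1) c)
    (hjr : j ≤ r) (hrt : r ≤ t) (hs : (r : ℤ) - j ≤ n) :
    (WW c (r + 1) - WW c (j + 1)) ^ 2 ≤ (K : ℤ) * n := by
  have := hc (j + 1) (r - j) (by omega)
  rw [show j + 1 + (r - j) = r + 1 by omega] at this
  refine this.trans (mul_le_mul_of_nonneg_left ?_ (Int.natCast_nonneg K))
  rw [Nat.cast_sub hjr]; exact hs

theorem EP.bd {t v r : ℕ} (hbig : 1000 * (R + K + 1) ≤ n) (he : Tube R e t)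
    (hc : GC K (t + 1) (bts u))
    (hv1 : 2 * (du n u e p v).1 < n) (hv2 : -2 ≤ (du n u e p v).2)
    (hvr : v ≤ r) (hrt : r ≤ t) (h : EP n u e p v r) : -8 * (du n u e p r).2 < n := by
  have hs := h.short hbig he hv1 hv2 hvr hrt
  obtain ⟨a1, a2, a3, a4, j, j1, j2, j3⟩ := h
  have e1 := abs_le.mp (he r hrt)
  have e2 := abs_le.mp (he j (j2.trans hrt))
  have hw := gcw hbig hc j2 hrt (by omega)
  by_contra hcon
  push Not at hcon
  exact sq_bd hbig hw (by omega)

theorem EP.step {t v r : ℕ} (hbig : 1000 * (R + K + 1) ≤ n) (hp : p ∈ Boxn n) (he : Tube R e t)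
    (hc : GC K (t + 1) (bts u))
    (hv1 : 2 * (du n u e p v).1 < n) (hv2 : -2 ≤ (du n u e p v).2)
    (hvr : v ≤ r) (hrt : r ≤ t) (h : EP n u e p v r) :
    EP n u e p v (r + 1) ∨ Absn n (du n u e p (r + 1)) := by
  have hb := h.bd hbig he hc hv1 hv2 hvr hrt
  obtain ⟨a1, a2, a3, a4, j, j1, j2, j3⟩ := h
  obtain ⟨x, y, h1, h2⟩ := front_step (by omega) u e hp r
  have s1 := sgn_cs (bts u (r + 1))
  have s2 := sgn_cs (e r)
  unfold SM at h1
  have h3 := h2 (by omega) (by omega)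
  unfold ZF at h3
  have x1 := xEs e r
  by_cases ha : 0 < (du n u e p (r + 1)).1
  · left
    have b3 : (du n u e p (r + 1)).2 ≤ 0 := by omega
    refine ⟨ha, by omega, b3, by omega, ?_⟩
    by_cases hz : (du n u e p (r + 1)).2 = 0
    · refine ⟨r + 1, by omega, le_refl _, ?_⟩
      rw [hz]; simp
    · refine ⟨j, j1, by omega, ?_⟩
      rw [WWs (bts u) (r + 1), WWs e r]
      omega
  · right
    rw [absn_iff]
    omega

/-- the east phase is short and ends with absorption -/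
theorem east {t v : ℕ} (hbig : 1000 * (R + K + 1) ≤ n) (hp : p ∈ Boxn n) (he : Tube R e t)
    (hc : GC K (t + 1) (bts u)) (hv0 : 0 < (du n u e p v).1)
    (hv1 : 2 * (du n u e p v).1 < n) (hv2 : -2 ≤ (du n u e p v).2) (hv3 : (du n u e p v).2 ≤ 0)
    (hvt : v ≤ t) :
    ((t : ℤ) - v + 1 ≤ n ∧ ∀ r, v ≤ r → r ≤ t → EP n u e p v r) ∨ Absn n (du n u e p t) := by
  have key : ∀ t', v ≤ t' → t' ≤ t → (∀ r, v ≤ r → r ≤ t' → EP n u e p v r) ∨
      Absn n (du n u e p t') := by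
    intro t' hvt'
    induction t', hvt' using Nat.le_induction with
    | base =>
      intro _
      left
      intro r h1 h2
      have : r = v := by omega
      subst this
      exact ⟨hv0, hv1, hv3, by ring, r, le_refl _, le_refl _, by simp; omega⟩
    | succ t' hvt' ih =>
      intro ht
      rcases ih (by omega) with ih | ih
      · rcases (ih t' hvt' (le_refl _)).step hbig hp he hc hv1 hv2 hvt' (by omega) with h | h
        · left
          intro r h1 h2
          rcases Nat.lt_or_ge t' r with h3 | h3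
          · have : r = t' + 1 := by omega
            subst this; exact h
          · exact ih r h1 h3
        · exact Or.inr h
      · exact Or.inr (absn_step (by omega) hp t' ih)
  rcases key t hvt (le_refl _) with h | h
  · left
    exact ⟨(h t hvt (le_refl _)).short hbig he hv1 hv2 hvt (le_refl _), h⟩
  · exact Or.inr h

/-- the distance to the axis is the reflected walk -/
theorem east_Hc {t v : ℕ} (hbig : 1000 * (R + K + 1) ≤ n) (hp : p ∈ Boxn n) (he : Tube R e t)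
    (hc : GC K (t + 1) (bts u))
    (hv1 : 2 * (du n u e p v).1 < n) (hv2 : (du n u e p v).2 = 0)
    (h : ∀ r, v ≤ r → r ≤ t → EP n u e p v r) (i : ℕ) (hi : v + i ≤ t) :
    (du n u e p (v + i)).2 = -(Hc (bts u) e v i : ℤ) := by
  induction i with
  | zero => simp [Hc, hv2]
  | succ i ih =>
    have ih' := ih (by omega)
    have hb := (h (v + i) (by omega) (by omega)).bd hbig he hc hv1 (by omega) (by omega) (by omega)
    obtain ⟨a1, a2, a3, -, -⟩ := h (v + i) (by omega) (by omega)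
    obtain ⟨b1, b2, b3, -, -⟩ := h (v + (i + 1)) (by omega) (by omega)
    obtain ⟨x, y, h1, h2⟩ := front_step (by omega) u e hp (v + i)
    rw [← Nat.add_assoc] at *
    unfold SM at h1
    have s1 := sgn_cs (bts u (v + i + 1))
    have s2 := sgn_cs (e (v + i))
    have h3 := h2 (by omega) (by omega)
    unfold ZF at h3
    change _ = -((Hst (e (v + i)) (bts u (v + i + 1)) (Hc (bts u) e v i) : ℕ) : ℤ)
    generalize Hc (bts u) e v i = H at *
    unfold Hst
    cases he : e (v + i) <;> cases hc' : bts u (v + i + 1) <;> rw [he] at h1 <;>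
      rw [hc'] at h3 <;> simp only [sgn, Bool.false_eq_true, if_true, if_false] at h1 h3 ⊢ <;>
      push_cast <;> omega

/-- the north phase -/
def NP (n : ℕ) (u : ℕ → Fin 12) (e : ℕ → Bool) (p : ℤ × ℤ) (v r : ℕ) : Prop :=
  0 < (du n u e p r).2 ∧ 2 * (du n u e p r).2 < n ∧ (du n u e p r).1 ≤ 0 ∧
  (du n u e p r).2 - (du n u e p r).1 =
    (du n u e p v).2 - (du n u e p v).1 - 2 * (((r : ℤ) - v) - (xE e r - xE e v)) ∧
  ∃ j, v ≤ j ∧ j ≤ r ∧ -2 * (du n u e p r).1 ≤
    4 - (WW (bts u) (r + 1) - WW (bts u) (j + 1)) + (WW e r - WW e j)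

theorem NP.short {t v r : ℕ} (hbig : 1000 * (R + K + 1) ≤ n) (he : Tube R e t)
    (hv1 : 2 * (du n u e p v).2 < n) (hv2 : -2 ≤ (du n u e p v).1)
    (hvr : v ≤ r) (hrt : r ≤ t) (h : NP n u e p v r) : (r : ℤ) - v ≤ n := by
  obtain ⟨a1, a2, a3, a4, -⟩ := h
  have x1 := xE_WW e r
  have x2 := xE_WW e v
  have e1 := abs_le.mp (he r hrt)
  have e2 := abs_le.mp (he v (hvr.trans hrt))
  omega

theorem NP.bd {t v r : ℕ} (hbig : 1000 * (R + K + 1) ≤ n) (he : Tube R e t)
    (hc : GC K (t + 1) (bts u))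
    (hv1 : 2 * (du n u e p v).2 < n) (hv2 : -2 ≤ (du n u e p v).1)
    (hvr : v ≤ r) (hrt : r ≤ t) (h : NP n u e p v r) : -8 * (du n u e p r).1 < n := by
  have hs := h.short hbig he hv1 hv2 hvr hrt
  obtain ⟨a1, a2, a3, a4, j, j1, j2, j3⟩ := h
  have e1 := abs_le.mp (he r hrt)
  have e2 := abs_le.mp (he j (j2.trans hrt))
  have hw := gcw hbig hc j2 hrt (by omega)
  by_contra hcon
  push Not at hcon
  refine sq_bd hbig (a := -(WW (bts u) (r + 1) - WW (bts u) (j + 1))) (by rw [neg_sq]; exact hw)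
    (by omega)

theorem NP.step {t v r : ℕ} (hbig : 1000 * (R + K + 1) ≤ n) (hp : p ∈ Boxn n) (he : Tube R e t)
    (hc : GC K (t + 1) (bts u))
    (hv1 : 2 * (du n u e p v).2 < n) (hv2 : -2 ≤ (du n u e p v).1)
    (hvr : v ≤ r) (hrt : r ≤ t) (h : NP n u e p v r) :
    NP n u e p v (r + 1) ∨ Absn n (du n u e p (r + 1)) := by
  have hb := h.bd hbig he hc hv1 hv2 hvr hrt
  obtain ⟨a1, a2, a3, a4, j, j1, j2, j3⟩ := h
  obtain ⟨x, y, h1, h2⟩ := front_step (by omega) u e hp r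
  have s1 := sgn_cs (bts u (r + 1))
  have s2 := sgn_cs (e r)
  unfold SM at h1
  have h3 := h2 (by omega) (by omega)
  unfold ZF at h3
  have x1 := xEs e r
  by_cases ha : 0 < (du n u e p (r + 1)).2
  · left
    have b3 : (du n u e p (r + 1)).1 ≤ 0 := by omega
    refine ⟨ha, by omega, b3, by push_cast; omega, ?_⟩
    by_cases hz : (du n u e p (r + 1)).1 = 0
    · refine ⟨r + 1, by omega, le_refl _, ?_⟩
      rw [hz]; simp
    · refine ⟨j, j1, by omega, ?_⟩
      rw [WWs (bts u) (r + 1), WWs e r]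
      omega
  · right
    rw [absn_iff]
    omega

/-- the north phase is short and ends with absorption -/
theorem north {t v : ℕ} (hbig : 1000 * (R + K + 1) ≤ n) (hp : p ∈ Boxn n) (he : Tube R e t)
    (hc : GC K (t + 1) (bts u)) (hv0 : 0 < (du n u e p v).2)
    (hv1 : 2 * (du n u e p v).2 < n) (hv2 : -2 ≤ (du n u e p v).1) (hv3 : (du n u e p v).1 ≤ 0)
    (hvt : v ≤ t) : NP n u e p v t ∨ Absn n (du n u e p t) := by
  have key : ∀ t', v ≤ t' → t' ≤ t → NP n u e p v t' ∨ Absn n (du n u e p t') := by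
    intro t' hvt'
    induction t', hvt' using Nat.le_induction with
    | base =>
      intro _
      left
      exact ⟨hv0, hv1, hv3, by ring, v, le_refl _, le_refl _, by simp; omega⟩
    | succ t' hvt' ih =>
      intro ht
      rcases ih (by omega) with ih | ih
      · exact ih.step hbig hp he hc hv1 hv2 hvt' (by omega)
      · exact Or.inr (absn_step (by omega) hp t' ih)
  exact key t hvt (le_refl _)

/-- the critical shell in linear form -/
def BN (n : ℕ) (x y : ℤ) : Prop := ∃ a b : ℤ, ((x ≤ 0 ∧ a = -x) ∨ (2 * x = n ∧ a = x)) ∧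
  ((y ≤ 0 ∧ b = -y) ∨ (2 * y = n ∧ b = y)) ∧ (n : ℤ) - 2 ≤ 2 * (a + b) ∧ 2 * (a + b) ≤ n

theorem BackN_iff (q : ℤ × ℤ) : BackN n q ↔ BN n q.1 q.2 := by
  have hn : (0 : ℤ) ≤ n := Int.natCast_nonneg n
  unfold BackN BN L1
  constructor
  · rintro ⟨h1, h2, h3, h4⟩
    refine ⟨|q.1|, |q.2|, ?_, ?_, h3, h4⟩
    · rcases h1 with h1 | h1
      · exact Or.inl ⟨h1, abs_of_nonpos h1⟩
      · exact Or.inr ⟨h1, abs_of_nonneg (by omega)⟩
    · rcases h2 with h2 | h2
      · exact Or.inl ⟨h2, abs_of_nonpos h2⟩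
      · exact Or.inr ⟨h2, abs_of_nonneg (by omega)⟩
  · rintro ⟨a, b, h1, h2, h3, h4⟩
    have ha : a = |q.1| := by
      rcases h1 with h1 | h1
      · rw [abs_of_nonpos h1.1]; exact h1.2
      · rw [abs_of_nonneg (by omega)]; exact h1.2
    have hb : b = |q.2| := by
      rcases h2 with h2 | h2
      · rw [abs_of_nonpos h2.1]; exact h2.2
      · rw [abs_of_nonneg (by omega)]; exact h2.2
    rw [← ha, ← hb]
    exact ⟨by tauto, by tauto, h3, h4⟩

end FarL

end Pool.Agent.Helper57K9.XZ
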