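import Pool.Agent.Helper57K9.XZ.Stm4
import Pool.Agent.Helper57K9.XZ.Dx
import Pool.Agent.Helper57K9.XZ.Up

/-!
The union bound: auxiliary facts.
-/

set_option autoImplicit false

namespace Pool.Agent.Helper57K9.XZ

open Finset Pool.Agent.Helper5K9.ZN

namespace FinL

open UpL DxL

theorem playn_congr {k n : ℕ} {S : Strat k} {c c' : ℕ → Fin k → Fin 12} {p : Fin k → ℤ × ℤ}
    {t : ℕ} (h : ∀ s < t, ∀ z, c s z = c' s z) : playn n S c p t = playn n S c' p t := by
  induction t with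
  | zero => rfl
  | succ t ih =>
    have h1 := ih fun s hs => h s (by omega)
    have h2 : c t = c' t := funext fun z => h t (by omega) z
    unfold playn
    rw [h1, h2]

theorem mvn_congr {k n : ℕ} {S : Strat k} {c c' : ℕ → Fin k → Fin 12} {p : Fin k → ℤ × ℤ}
    {t : ℕ} (h : ∀ s ≤ t, ∀ z, c s z = c' s z) : mvn n S c p t = mvn n S c' p t := by
  unfold mvn
  rw [playn_congr fun s hs => h s (by omega)]

theorem tu_congr2 {n : ℕ} {u u' : ℕ → Fin 12} {e e' : ℕ → Bool} {p : ℤ × ℤ} {t : ℕ}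
    (h : ∀ s < t, u s = u' s) (h' : ∀ s < t, e s = e' s) : tu n u e p t = tu n u' e' p t := by
  induction t with
  | zero => rfl
  | succ t ih =>
    change smg n (e t) (zu n (u t) (tu n u e p t)) = smg n (e' t) (zu n (u' t) (tu n u' e' p t))
    rw [ih (fun s hs => h s (by omega)) (fun s hs => h' s (by omega)), h t (by omega),
      h' t (by omega)]

theorem du_congr2 {n : ℕ} {u u' : ℕ → Fin 12} {e e' : ℕ → Bool} {p : ℤ × ℤ} {t : ℕ}
    (h : ∀ s ≤ t, u s = u' s) (h' : ∀ s < t, e s = e' s) : du n u e p t = du n u' e' p t := by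
  unfold du
  rw [tu_congr2 (fun s hs => h s (by omega)) h', h t le_rfl]

/-- the path depends on the coins up to `T` only -/
theorem ee_eq {k n T K : ℕ} (ω : Fin k → XX n T) (c : ℕ → Fin k → Fin 12)
    (hc : ∀ (z : Fin k) (i : Fin T), c i z = (ω z).2 i) {t : ℕ} (ht : t < T) :
    mvn n (xs n K k) c (pp ω) t = ee K ω t := by
  unfold ee
  apply mvn_congr
  intro s hs z
  show c s z = ext12 (ω z).2 s
  unfold ext12
  rw [dif_pos (by omega : s < T)]
  exact hc z ⟨s, by omega⟩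

theorem GC_mono {K t t' : ℕ} {c : ℕ → Bool} (h : GC K t c) (ht : t' ≤ t) : GC K t' c :=
  fun s w hsw => h s w (hsw.trans ht)

theorem card_XX (hBX : S_BX) {n : ℕ} (hn : 3 ≤ n) (T : ℕ) :
    Fintype.card (XX n T) = n ^ 2 * 12 ^ T := by
  unfold XX
  rw [Fintype.card_prod, Fintype.card_coe, (hBX n hn).1]
  simp

open Classical in
/-- a condition on one zombie -/
theorem one_zombie (hF : S_FAC) {X : Type} [Fintype X] {k : ℕ} (z : Fin k) (P : X → Prop) :
    ((univ.filter fun ω : Fin k → X => P (ω z)).card) * Fintype.card X =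
      Fintype.card X ^ k * (univ.filter fun x => P x).card := by
  have h := hF X k 1 (fun _ => z) (fun _ _ _ => Subsingleton.elim _ _) (fun _ => True)
    (fun _ _ x => P x) (by intro ω ω' _; simp)
  simp only [true_and, forall_const, pow_one, if_true, Finset.prod_const, Finset.card_univ,
    Fintype.card_fin] at h
  rw [h, Finset.sum_const]
  simp

open Classical in
theorem union_zombie (hF : S_FAC) {X : Type} [Fintype X] [Nonempty X] {k : ℕ} (P : X → Prop)
    {b : ℝ} (hb : ((univ.filter fun x => P x).card : ℝ) ≤ b * Fintype.card X) :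
    ((univ.filter fun ω : Fin k → X => ∃ z, P (ω z)).card : ℝ) ≤
      (Fintype.card X : ℝ) ^ k * (k * b) := by
  have hX : (0 : ℝ) < Fintype.card X := by exact_mod_cast Fintype.card_pos
  have h1 : (univ.filter fun ω : Fin k → X => ∃ z, P (ω z)) ⊆
      (univ : Finset (Fin k)).biUnion fun z => univ.filter fun ω : Fin k → X => P (ω z) := by
    intro ω hω
    rw [Finset.mem_filter] at hω
    obtain ⟨z, hz⟩ := hω.2
    rw [Finset.mem_biUnion]
    exact ⟨z, Finset.mem_univ _, Finset.mem_filter.2 ⟨Finset.mem_univ _, hz⟩⟩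
  have h2 := (Finset.card_le_card h1).trans Finset.card_biUnion_le
  have h3 : ∀ z : Fin k, ((univ.filter fun ω : Fin k → X => P (ω z)).card : ℝ) ≤
      (Fintype.card X : ℝ) ^ k * b := by
    intro z
    have h4 := one_zombie hF z P
    have h5 : ((univ.filter fun ω : Fin k → X => P (ω z)).card : ℝ) * Fintype.card X =
        (Fintype.card X : ℝ) ^ k * (univ.filter fun x => P x).card := by exact_mod_cast h4
    have h6 : ((univ.filter fun ω : Fin k → X => P (ω z)).card : ℝ) * Fintype.card X ≤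
        ((Fintype.card X : ℝ) ^ k * b) * Fintype.card X := by
      rw [h5, mul_assoc]
      exact mul_le_mul_of_nonneg_left hb (by positivity)
    exact le_of_mul_le_mul_right h6 hX
  have h2' : ((univ.filter fun ω : Fin k → X => ∃ z, P (ω z)).card : ℝ) ≤
      ∑ z : Fin k, ((univ.filter fun ω : Fin k → X => P (ω z)).card : ℝ) := by exact_mod_cast h2
  refine h2'.trans ((Finset.sum_le_sum fun z _ => h3 z).trans (le_of_eq ?_))
  rw [Finset.sum_const]
  simp only [Finset.card_univ, Fintype.card_fin, nsmul_eq_mul]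
  ring

/-- bad coins -/
def PA (n K T : ℕ) (x : XX n T) : Prop := ¬ GC K T (bts (ext12 x.2))

/-- bad starting point -/
def PB (n D T : ℕ) (x : XX n T) : Prop := ¬ (D : ℤ) < L1 x.1.1

open Classical in
/-- the coins of a zombie -/
theorem count_A (hG : S_GCB) (hBX : S_BX) {n : ℕ} (hn : 3 ≤ n) (K T : ℕ) :
    ((univ.filter fun x : XX n T => PA n K T x).card : ℝ) ≤
      (2 * ((T : ℝ) + 1) ^ 2 * Real.exp (-(K : ℝ) / 2)) * Fintype.card (XX n T) := by
  have h1 : (univ.filter fun x : XX n T => PA n K T x) =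
      (univ : Finset {q : ℤ × ℤ // q ∈ Boxn n}) ×ˢ
        (univ.filter fun u : Fin T → Fin 12 => ¬ GC K T (bts (ext12 u))) := by
    ext x
    simp only [Finset.mem_filter, Finset.mem_univ, true_and, Finset.mem_product]
    rfl
  have h2 := hG K T
  rw [h1, Finset.card_product, card_XX hBX hn]
  push_cast
  have h3 : ((univ : Finset {q : ℤ × ℤ // q ∈ Boxn n}).card : ℝ) = (n : ℝ) ^ 2 := by
    rw [Finset.card_univ, Fintype.card_coe, (hBX n hn).1]; push_cast; rfl
  rw [h3]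
  calc (n : ℝ) ^ 2 * ((univ.filter fun u : Fin T → Fin 12 => ¬ GC K T (bts (ext12 u))).card : ℝ)
      ≤ (n : ℝ) ^ 2 * (2 * ((T : ℝ) + 1) ^ 2 * Real.exp (-(K : ℝ) / 2) * 12 ^ T) :=
        mul_le_mul_of_nonneg_left h2 (by positivity)
    _ = _ := by ring

open Classical in
/-- the starting points -/
theorem count_B (hBX : S_BX) {n : ℕ} (hn : 3 ≤ n) (T D : ℕ) :
    ((univ.filter fun x : XX n T => PB n D T x).card : ℝ) ≤
      ((2 * (D : ℝ) + 1) ^ 2 / (n : ℝ) ^ 2) * Fintype.card (XX n T) := by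
  have h1 : (univ.filter fun x : XX n T => PB n D T x) =
      (univ.filter fun q : {q : ℤ × ℤ // q ∈ Boxn n} => ¬ (D : ℤ) < L1 q.1) ×ˢ
        (univ : Finset (Fin T → Fin 12)) := by
    ext x
    simp only [Finset.mem_filter, Finset.mem_univ, true_and, and_true, Finset.mem_product]
    rfl
  have h2 : (univ.filter fun q : {q : ℤ × ℤ // q ∈ Boxn n} => ¬ (D : ℤ) < L1 q.1).card ≤
      (2 * D + 1) ^ 2 := by
    have h3 : ((Icc (-(D : ℤ)) D) ×ˢ (Icc (-(D : ℤ)) D)).card = (2 * D + 1) ^ 2 := by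
      rw [Finset.card_product, Int.card_Icc]
      have : ((D : ℤ) + 1 - -(D : ℤ)).toNat = 2 * D + 1 := by omega
      rw [this, sq]
    rw [← h3]
    apply Finset.card_le_card_of_injOn (fun q => q.1)
    · intro q hq
      have hq' : ¬ (D : ℤ) < L1 q.1 := by simpa using hq
      have hb := L1_bd q.1
      rw [Finset.coe_product]
      constructor
      · simp only [Finset.coe_Icc, Set.mem_Icc]
        constructor <;> omega
      · simp only [Finset.coe_Icc, Set.mem_Icc]
        constructor <;> omega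
    · intro a _ b _ h
      exact Subtype.ext h
  rw [h1, Finset.card_product, card_XX hBX hn]
  have hn0 : (0 : ℝ) < n := by exact_mod_cast (by omega : 0 < n)
  push_cast
  have h2' : ((univ.filter fun q : {q : ℤ × ℤ // q ∈ Boxn n} => ¬ (D : ℤ) < L1 q.1).card : ℝ) ≤
      (2 * (D : ℝ) + 1) ^ 2 := by exact_mod_cast h2
  have h4 : (((univ : Finset (Fin T → Fin 12)).card : ℕ) : ℝ) = 12 ^ T := by
    simp
  rw [h4]
  calc ((univ.filter fun q : {q : ℤ × ℤ // q ∈ Boxn n} => ¬ (D : ℤ) < L1 q.1).card : ℝ) * 12 ^ T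
      ≤ (2 * (D : ℝ) + 1) ^ 2 * 12 ^ T := mul_le_mul_of_nonneg_right h2' (by positivity)
    _ = _ := by field_simp

theorem mB_nonneg (n K : ℕ) : 0 ≤ mB n K := by unfold mB; positivity

theorem pdB_nonneg (K k : ℕ) (x M : ℝ) : 0 ≤ pdB K k x M := by unfold pdB; positivity

theorem pdB_mono {K k : ℕ} {x x' M M' : ℝ} (hx : 0 ≤ x) (hxx : x ≤ x') (hM : 0 ≤ M)
    (hMM : M ≤ M') : pdB K k x M ≤ pdB K k x' M' := by
  unfold pdB
  have hx' : 0 ≤ x' := hx.trans hxx
  have h1 : Real.exp (12 * (k * x) * M) ≤ Real.exp (12 * (k * x') * M') := by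
    apply Real.exp_le_exp.2
    apply mul_le_mul _ hMM hM (by positivity)
    have : (k : ℝ) * x ≤ k * x' := mul_le_mul_of_nonneg_left hxx (Nat.cast_nonneg _)
    linarith
  gcongr

theorem un {Ω : Type} [DecidableEq Ω] {A B : Finset Ω} {a b : ℝ} (hA : (A.card : ℝ) ≤ a)
    (hB : (B.card : ℝ) ≤ b) : ((A ∪ B).card : ℝ) ≤ a + b := by
  have : ((A ∪ B).card : ℝ) ≤ A.card + B.card := by exact_mod_cast Finset.card_union_le A B
  linarith

theorem bun {Ω : Type} [DecidableEq Ω] {f : ℕ → Finset Ω} {a : ℝ} (T : ℕ)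
    (h : ∀ t, t < T → ((f t).card : ℝ) ≤ a) : (((range T).biUnion f).card : ℝ) ≤ T * a := by
  have h1 : (((range T).biUnion f).card : ℝ) ≤ ∑ t ∈ range T, ((f t).card : ℝ) := by
    exact_mod_cast Finset.card_biUnion_le
  refine h1.trans ((Finset.sum_le_sum fun t ht => h t (Finset.mem_range.1 ht)).trans ?_)
  rw [Finset.sum_const, Finset.card_range, nsmul_eq_mul]

section

variable {n K k T : ℕ}

open Classical in
theorem bad1 (fac : S_FAC) (gcb : S_GCB) (bx : S_BX) (hn : 3 ≤ n) :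
    ((univ.filter fun ω : Fin k → XX n T => ¬ EA K ω).card : ℝ) ≤
      ((n : ℝ) ^ 2 * 12 ^ T) ^ k * (k * (2 * ((T : ℝ) + 1) ^ 2 * Real.exp (-(K : ℝ) / 2))) := by
  have hcard := card_XX bx hn T
  have hnR : (0 : ℝ) < n := by exact_mod_cast (by omega : 0 < n)
  have hX : 0 < Fintype.card (XX n T) := by
    rw [hcard]; have : 0 < n := by omega
    positivity
  have : Nonempty (XX n T) := Fintype.card_pos_iff.1 hX
  have h := union_zombie (k := k) fac (PA n K T) (count_A gcb bx hn K T)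
  rw [hcard] at h
  push_cast at h
  refine le_trans (Nat.cast_le.2 (Finset.card_le_card ?_)) h
  intro ω hω
  rw [Finset.mem_filter] at hω ⊢
  refine ⟨Finset.mem_univ _, ?_⟩
  by_contra hc
  exact hω.2 fun z => by
    by_contra hz
    exact hc ⟨z, hz⟩

open Classical in
theorem bad2 (fac : S_FAC) (bx : S_BX) (hn : 3 ≤ n) :
    ((univ.filter fun ω : Fin k → XX n T => ¬ EB K ω).card : ℝ) ≤
      ((n : ℝ) ^ 2 * 12 ^ T) ^ k * (k * ((2 * (D3 K : ℝ) + 1) ^ 2 / (n : ℝ) ^ 2)) := by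
  have hcard := card_XX bx hn T
  have hnR : (0 : ℝ) < n := by exact_mod_cast (by omega : 0 < n)
  have hX : 0 < Fintype.card (XX n T) := by
    rw [hcard]; have : 0 < n := by omega
    positivity
  have : Nonempty (XX n T) := Fintype.card_pos_iff.1 hX
  have h := union_zombie (k := k) fac (PB n (D3 K) T) (count_B bx hn T (D3 K))
  rw [hcard] at h
  push_cast at h
  refine le_trans (Nat.cast_le.2 (Finset.card_le_card ?_)) h
  intro ω hω
  rw [Finset.mem_filter] at hω ⊢
  refine ⟨Finset.mem_univ _, ?_⟩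
  by_contra hc
  exact hω.2 fun z => by
    by_contra hz
    exact hc ⟨z, hz⟩

/-- a bad epoch -/
def PD4 (K : ℕ) (j : ℕ) (ω : Fin k → XX n T) : Prop := Pre K ω j ∧
  Clean K (PD n (uu ω) (ee K ω) (pp ω) (j * Lam K)) ∧
  ((j % 2 = 0 ∧ Bet K < (BlkU K (ee K ω) (j * Lam K)).card) ∨
    (j % 2 = 1 ∧ Bet K < (BlkD K (ee K ω) (j * Lam K)).card))

open Classical in
theorem bad4 {C1 C2 C3 C : ℝ} (h0 : 0 ≤ C1) (h0' : 0 ≤ C2) (h0'' : 0 ≤ C3) (h1 : C1 ≤ C)
    (h2 : C2 ≤ C) (h3 : C3 ≤ C)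
    (pdu : ∀ (n K k T j : ℕ) (M : ℝ), Big n K → (j + 1) * Lam K ≤ T →
      j % 2 = 0 → 0 ≤ M →
      (∀ (e : ℕ → Bool) (L : ℕ), L ≤ Lam K → (∀ s ≤ j * Lam K + L, |WW e s| ≤ RR K) →
        Win K e (j * Lam K) →
        ∑ i ∈ (range L).filter (fun i => e (j * Lam K + i) = true),
          DW e (j * Lam K - 2 * n) (RR K) (j * Lam K + i + 1) ≤ M) →
      ((univ.filter fun ω : Fin k → XX n T => Pre K ω j ∧
          Clean K (PD n (uu ω) (ee K ω) (pp ω) (j * Lam K)) ∧
          Bet K < (BlkU K (ee K ω) (j * Lam K)).card).card : ℝ) ≤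
        ((n : ℝ) ^ 2 * 12 ^ T) ^ k * pdB K k (C1 / (n : ℝ) ^ 2) M)
    (pdd : ∀ (n K k T j : ℕ) (M : ℝ), Big n K → (j + 1) * Lam K ≤ T →
      j % 2 = 1 → 0 ≤ M →
      (∀ (e : ℕ → Bool) (L : ℕ), L ≤ Lam K → (∀ s ≤ j * Lam K + L, |WW e s| ≤ RR K) →
        Win K e (j * Lam K) →
        ∑ i ∈ (range L).filter (fun i => e (j * Lam K + i) = true),
          DW e (j * Lam K - 2 * n) (RR K) (j * Lam K + i + 1) ≤ M) →
      ((univ.filter fun ω : Fin k → XX n T => Pre K ω j ∧
          Clean K (PD n (uu ω) (ee K ω) (pp ω) (j * Lam K)) ∧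
          Bet K < (BlkD K (ee K ω) (j * Lam K)).card).card : ℝ) ≤
        ((n : ℝ) ^ 2 * 12 ^ T) ^ k * pdB K k (C2 / (n : ℝ) ^ 2) M)
    (mbd : ∀ (n K j L : ℕ) (e : ℕ → Bool), Big n K → L ≤ Lam K →
      (∀ s ≤ j * Lam K + L, |WW e s| ≤ RR K) → Win K e (j * Lam K) →
      ∑ i ∈ (range L).filter (fun i => e (j * Lam K + i) = true),
        DW e (j * Lam K - 2 * n) (RR K) (j * Lam K + i + 1) ≤ C3 * mB n K)
    (hbig : Big n K) (j : ℕ) (hj : (j + 1) * Lam K ≤ T) :
    ((univ.filter fun ω : Fin k → XX n T => PD4 K j ω).card : ℝ) ≤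
      ((n : ℝ) ^ 2 * 12 ^ T) ^ k * pdB K k (C / (n : ℝ) ^ 2) (C * mB n K) := by
  have hmB := mB_nonneg n K
  have hC : C3 * mB n K ≤ C * mB n K := mul_le_mul_of_nonneg_right h3 hmB
  have hM0 : 0 ≤ C3 * mB n K := mul_nonneg h0'' hmB
  rcases Nat.mod_two_eq_zero_or_one j with hm | hm
  · have h := pdu n K k T j (C3 * mB n K) hbig hj hm hM0
      (fun e L a1 a2 a3 => mbd n K j L e hbig a1 a2 a3)
    have h' : pdB K k (C1 / (n : ℝ) ^ 2) (C3 * mB n K) ≤
        pdB K k (C / (n : ℝ) ^ 2) (C * mB n K) :=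
      pdB_mono (by positivity) (div_le_div_of_nonneg_right h1 (by positivity)) hM0 hC
    refine le_trans (le_trans (Nat.cast_le.2 (Finset.card_le_card ?_)) h)
      (mul_le_mul_of_nonneg_left h' (by positivity))
    intro ω hω
    rw [Finset.mem_filter] at hω ⊢
    obtain ⟨_, h3, h4, h5⟩ := hω
    refine ⟨Finset.mem_univ _, h3, h4, ?_⟩
    rcases h5 with h5 | h5
    · exact h5.2
    · exact absurd h5.1 (by rw [hm]; exact zero_ne_one)
  · have h := pdd n K k T j (C3 * mB n K) hbig hj hm hM0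
      (fun e L a1 a2 a3 => mbd n K j L e hbig a1 a2 a3)
    have h' : pdB K k (C2 / (n : ℝ) ^ 2) (C3 * mB n K) ≤
        pdB K k (C / (n : ℝ) ^ 2) (C * mB n K) :=
      pdB_mono (by positivity) (div_le_div_of_nonneg_right h2 (by positivity)) hM0 hC
    refine le_trans (le_trans (Nat.cast_le.2 (Finset.card_le_card ?_)) h)
      (mul_le_mul_of_nonneg_left h' (by positivity))
    intro ω hω
    rw [Finset.mem_filter] at hω ⊢
    obtain ⟨_, h3, h4, h5⟩ := hω
    refine ⟨Finset.mem_univ _, h3, h4, ?_⟩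
    rcases h5 with h5 | h5
    · exact absurd h5.1 (by rw [hm]; exact one_ne_zero)
    · exact h5.2

end

end FinL

end Pool.Agent.Helper57K9.XZ
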