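import Pool.Agent.Helper57K9.XZ.Stm4
import Pool.Agent.Helper5K9.ZN.Fin1

/-!
# The asymptotics
-/

set_option autoImplicit false

namespace Pool.Agent.Helper57K9.XZ

open Finset Pool.Agent.Helper5K9.ZN

namespace Fin2L

theorem F_eq (K : ℕ) : Fq K = 97200000000 * (K + 5) := by
  unfold Fq; rw [As.Fe_eq]; norm_num

theorem RR_eq (K : ℕ) : RR K = 200 * Fq K := rfl
theorem Lam_eq (K : ℕ) : Lam K = 1600 * Fq K := by unfold Lam RR; ring
theorem GG_eq (K : ℕ) : GG K = 976000 * Fq K := by unfold GG; rw [Lam_eq]; ring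
theorem D2_eq (K : ℕ) : D2 K = 3200000 * Fq K := by unfold D2; rw [Lam_eq]; ring
theorem D3_eq (K : ℕ) : D3 K = 16000000 * Fq K := by unfold D3; rw [Lam_eq]; ring

/-- powers of 5/6 -/
theorem pow56 (F : ℕ) : (5 / 6 : ℝ) ^ (25 * F + 1) ≤ Real.exp (-(4 * F)) := by
  have h1 : (5 / 6 : ℝ) ^ 25 ≤ Real.exp (-4) := by
    rw [Real.exp_neg, le_inv_comm₀ (by positivity) (Real.exp_pos _)]
    have h2 : Real.exp 4 = Real.exp 1 ^ 4 := by rw [← Real.exp_nat_mul]; norm_num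
    rw [h2]
    have h3 : Real.exp 1 ≤ 2.72 := by have := Real.exp_one_lt_d9; linarith
    calc Real.exp 1 ^ 4 ≤ (2.72 : ℝ) ^ 4 := pow_le_pow_left₀ (Real.exp_pos _).le h3 4
      _ ≤ ((5 / 6 : ℝ) ^ 25)⁻¹ := by norm_num
  calc (5 / 6 : ℝ) ^ (25 * F + 1) ≤ (5 / 6 : ℝ) ^ (25 * F) :=
        pow_le_pow_of_le_one (by norm_num) (by norm_num) (by omega)
    _ = ((5 / 6 : ℝ) ^ 25) ^ F := by rw [pow_mul]
    _ ≤ (Real.exp (-4)) ^ F := pow_le_pow_left₀ (by positivity) h1 F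
    _ = Real.exp (-(4 * F)) := by rw [← Real.exp_nat_mul]; congr 1; ring

/-- the polynomial factor -/
theorem lamp {F : ℝ} (hF : 10000000 ≤ F) : (1600 * F + 1) ^ 31 ≤ Real.exp F := by
  have h1 : 1600 * F + 1 ≤ Real.exp (F / 31) := by
    have h2 := Real.quadratic_le_exp_of_nonneg (x := F / 31) (by positivity)
    nlinarith
  calc (1600 * F + 1) ^ 31 ≤ (Real.exp (F / 31)) ^ 31 :=
        pow_le_pow_left₀ (by positivity) h1 31
    _ = Real.exp F := by rw [← Real.exp_nat_mul]; congr 1; push_cast; ring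

/-- the bound for one epoch -/
theorem pd_le (K k : ℕ) (x M : ℝ) (h : 12 * (k * x) * M ≤ Fq K + 1) :
    pdB K k x M ≤ Real.exp (-(K : ℝ) / 2) := by
  obtain ⟨F, hF⟩ : ∃ F, F = Fq K := ⟨_, rfl⟩
  have hFK : (F : ℝ) = 97200000000 * ((K : ℝ) + 5) := by rw [hF, F_eq]; push_cast; ring
  have hK0 : (0 : ℝ) ≤ K := by positivity
  have hF1 : (10000000 : ℝ) ≤ F := by rw [hFK]; nlinarith
  unfold pdB
  have hB : Bet K = 25 * F := by rw [hF]; rfl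
  have hL : (Lam K : ℝ) = 1600 * F := by rw [Lam_eq, hF]; push_cast; ring
  rw [hB, hL]
  rw [← hF] at h
  have e1 := pow56 F
  have e2 := lamp hF1
  have e3 : ((3 : ℝ) / 2) ^ (K + 5) ≤ Real.exp ((K : ℝ) + 5) := by
    have : (3 / 2 : ℝ) ≤ Real.exp 1 := by have := Real.add_one_le_exp (1 : ℝ); linarith
    calc ((3 : ℝ) / 2) ^ (K + 5) ≤ (Real.exp 1) ^ (K + 5) :=
          pow_le_pow_left₀ (by norm_num) this _
      _ = Real.exp ((K : ℝ) + 5) := by rw [← Real.exp_nat_mul]; congr 1; push_cast; ring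
  have e4 : (((3 : ℝ) / 2) ^ (K + 5)) ^ 29 ≤ Real.exp F := by
    calc (((3 : ℝ) / 2) ^ (K + 5)) ^ 29 ≤ (Real.exp ((K : ℝ) + 5)) ^ 29 :=
          pow_le_pow_left₀ (by positivity) e3 29
      _ = Real.exp (29 * ((K : ℝ) + 5)) := by rw [← Real.exp_nat_mul]; congr 1
      _ ≤ _ := Real.exp_le_exp.2 (by rw [hFK]; nlinarith)
  have e5 : Real.exp (12 * (k * x) * M) ≤ Real.exp (F + 1) := Real.exp_le_exp.2 h
  calc (1600 * (F : ℝ) + 1) ^ 2 * ((5 / 6) ^ (25 * F + 1) *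
        ((1600 * F + 1) * (3 / 2) ^ (K + 5)) ^ 29 * Real.exp 4 * Real.exp (12 * (k * x) * M))
      = (1600 * (F : ℝ) + 1) ^ 31 * (5 / 6) ^ (25 * F + 1) * ((3 / 2) ^ (K + 5)) ^ 29 *
        Real.exp 4 * Real.exp (12 * (k * x) * M) := by rw [mul_pow]; ring
    _ ≤ Real.exp F * Real.exp (-(4 * F)) * Real.exp F * Real.exp 4 * Real.exp (F + 1) := by
        gcongr
    _ = Real.exp (5 - F) := by
        rw [← Real.exp_add, ← Real.exp_add, ← Real.exp_add, ← Real.exp_add]; congr 1; ring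
    _ ≤ _ := Real.exp_le_exp.2 (by rw [hFK]; nlinarith)

/-- small powers times `E` -/
theorem Esm {n E : ℝ} (hn : 8002 ≤ n) (hE0 : 0 < E) (hE : n ^ 100 * E ≤ 1) (a : ℕ) (ha : a ≤ 99) :
    n ^ a * E ≤ 1 / 8002 := by
  have hn1 : 1 ≤ n := by linarith
  have h1 : n ^ a * E ≤ n ^ 99 * E :=
    mul_le_mul_of_nonneg_right (pow_le_pow_right₀ hn1 ha) hE0.le
  have h0 : 0 < n ^ 99 * E := by positivity
  have h2 : n ^ 99 * E * n ≤ 1 := by
    calc n ^ 99 * E * n = n ^ 100 * E := by ring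
      _ ≤ 1 := hE
  obtain ⟨y, hy⟩ : ∃ y, y = n ^ 99 * E := ⟨_, rfl⟩
  rw [← hy] at h1 h0 h2
  have h3 : y * 8002 ≤ 1 := le_trans (mul_le_mul_of_nonneg_left hn h0.le) h2
  linarith

theorem t1 {n k T E : ℝ} (hn : 8002 ≤ n) (hE0 : 0 < E) (hE : n ^ 100 * E ≤ 1) (hk0 : 0 ≤ k)
    (hk2 : k ≤ n ^ 2) (hT0 : 0 ≤ T) (hT : T ≤ 3 * n ^ 11) :
    k * (2 * (T + 1) ^ 2 * E) ≤ 1 / 50 := by
  have hn1 : 1 ≤ n := by linarith
  have h1 : T + 1 ≤ 4 * n ^ 11 := by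
    have : (1 : ℝ) ≤ n ^ 11 := one_le_pow₀ hn1
    linarith
  have h2 : (T + 1) ^ 2 ≤ (4 * n ^ 11) ^ 2 := pow_le_pow_left₀ (by linarith) h1 2
  calc k * (2 * (T + 1) ^ 2 * E) ≤ n ^ 2 * (2 * (4 * n ^ 11) ^ 2 * E) := by
        apply mul_le_mul hk2 _ (by positivity) (by positivity)
        exact mul_le_mul_of_nonneg_right (by linarith) hE0.le
    _ = 32 * (n ^ 24 * E) := by ring
    _ ≤ 32 * (1 / 8002) := by
        have := Esm hn hE0 hE 24 (by norm_num)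
        linarith
    _ ≤ _ := by norm_num

theorem t2 {n k D s : ℝ} (hs : 0 < s) (hkn : k / n ^ 2 ≤ 1 / s)
    (hD0 : 0 ≤ D) (hD : 20 * (2 * D + 1) ^ 2 ≤ s) :
    k * ((2 * D + 1) ^ 2 / n ^ 2) ≤ 1 / 20 := by
  calc k * ((2 * D + 1) ^ 2 / n ^ 2) = (k / n ^ 2) * (2 * D + 1) ^ 2 := by ring
    _ ≤ (1 / s) * (s / 20) := by
        apply mul_le_mul hkn (by linarith) (by positivity) (by positivity)
    _ = 1 / 20 := by field_simp

theorem t3 {n k D s T : ℝ} (hn : 8002 ≤ n) (hs : 0 < s) (hs2 : s * s = n) (hk0 : 0 ≤ k)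
    (hkn : k / n ^ 2 ≤ 1 / s) (hT0 : 0 ≤ T) (hT : T ≤ 3 * n ^ 11)
    (hD : (5 * D ^ 2) ^ 5 ≤ s) : T * (5 * k * D ^ 2 / n ^ 2) ^ 30 ≤ 1 / 50 := by
  have hn0 : 0 < n := by linarith
  have h3 : 5 * k * D ^ 2 / n ^ 2 ≤ 5 * D ^ 2 * (1 / s) := by
    calc 5 * k * D ^ 2 / n ^ 2 = 5 * D ^ 2 * (k / n ^ 2) := by ring
      _ ≤ _ := mul_le_mul_of_nonneg_left hkn (by positivity)
  have h2 : (5 * k * D ^ 2 / n ^ 2) ^ 30 ≤ (n ^ 12)⁻¹ := by
    calc (5 * k * D ^ 2 / n ^ 2) ^ 30 ≤ (5 * D ^ 2 * (1 / s)) ^ 30 :=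
          pow_le_pow_left₀ (by positivity) h3 30
      _ = ((5 * D ^ 2) ^ 5) ^ 6 * (1 / s) ^ 30 := by rw [mul_pow, ← pow_mul]
      _ ≤ s ^ 6 * (1 / s) ^ 30 :=
          mul_le_mul_of_nonneg_right (pow_le_pow_left₀ (by positivity) hD 6) (by positivity)
      _ = (s ^ 24)⁻¹ := by
          have : s ^ 6 * (1 / s) ^ 30 = s ^ 6 / (s ^ 6 * s ^ 24) := by
            rw [one_div, inv_pow, ← pow_add]; rfl
          rw [this]; field_simp
      _ = (n ^ 12)⁻¹ := by rw [← hs2, mul_pow, ← pow_add]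
  calc T * (5 * k * D ^ 2 / n ^ 2) ^ 30 ≤ (3 * n ^ 11) * (n ^ 12)⁻¹ :=
        mul_le_mul hT h2 (by positivity) (by positivity)
    _ = 3 / n := by
        rw [pow_succ n 11]; field_simp
    _ ≤ 1 / 50 := by rw [div_le_div_iff₀ hn0 (by norm_num)]; linarith

theorem t5 {n k : ℝ} (hn : 8002 ≤ n) (hk2 : k ≤ n ^ 2) : k / n ^ 10 ≤ 1 / 50 := by
  have hn0 : 0 < n := by linarith
  rw [div_le_div_iff₀ (by positivity) (by norm_num)]
  have h2 : (1 : ℝ) ≤ n ^ 7 := one_le_pow₀ (by linarith)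
  have h3 : 50 ≤ n ^ 8 := by
    calc (50 : ℝ) ≤ 1 * n := by linarith
      _ ≤ n ^ 7 * n := mul_le_mul_of_nonneg_right h2 hn0.le
      _ = n ^ 8 := by ring
  calc k * 50 ≤ n ^ 2 * n ^ 8 := mul_le_mul hk2 h3 (by norm_num) (by positivity)
    _ = 1 * n ^ 10 := by ring

/-- the exponent -/
theorem ex {n s r k C c F G L R E : ℝ} (hs : 0 < s) (hr2 : r * r = s) (hr0 : 0 ≤ r)
    (hC : 0 < C) (hc0 : 0 < c) (hc1 : c ≤ 1) (hc2 : 12 * 976000 * C ^ 2 * c ≤ 1)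
    (hF0 : 0 ≤ F) (hG : G = 976000 * F) (hE0 : 0 ≤ E) (hEr : E ≤ r) (hL0 : 0 ≤ L) (hR0 : 0 ≤ R)
    (hkn : k / n ^ 2 ≤ c / s) (m1 : 24 * C ^ 2 * G ^ 2 ≤ r) (m2 : 24 * C ^ 2 * (L * R) ≤ s) :
    12 * (k * (C / n ^ 2)) * (C * (G * s + G ^ 2 * E + L * R)) ≤ F + 1 := by
  have hG0 : 0 ≤ G := by rw [hG]; positivity
  have e1 : 12 * (k * (C / n ^ 2)) * (C * (G * s + G ^ 2 * E + L * R)) ≤
      12 * C ^ 2 * (c / s) * (G * s + G ^ 2 * E + L * R) := by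
    calc 12 * (k * (C / n ^ 2)) * (C * (G * s + G ^ 2 * E + L * R)) =
        12 * C ^ 2 * (k / n ^ 2) * (G * s + G ^ 2 * E + L * R) := by ring
      _ ≤ _ := by
        apply mul_le_mul_of_nonneg_right _ (by positivity)
        exact mul_le_mul_of_nonneg_left hkn (by positivity)
  refine e1.trans ?_
  have a1 : 12 * C ^ 2 * (c / s) * (G * s) ≤ F := by
    have h1 : 12 * C ^ 2 * (c / s) * (G * s) = 12 * C ^ 2 * c * G * (s / s) := by ring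
    rw [h1, div_self hs.ne', mul_one, hG]
    calc 12 * C ^ 2 * c * (976000 * F) = (12 * 976000 * C ^ 2 * c) * F := by ring
      _ ≤ 1 * F := mul_le_mul_of_nonneg_right hc2 hF0
      _ = F := one_mul F
  have a2 : 12 * C ^ 2 * (c / s) * (G ^ 2 * E) ≤ 1 / 2 := by
    have h1 : 12 * C ^ 2 * (c / s) * (G ^ 2 * E) = (24 * C ^ 2 * G ^ 2) * E * c / (2 * s) := by
      field_simp; ring
    rw [h1, div_le_iff₀ (by positivity)]
    calc 24 * C ^ 2 * G ^ 2 * E * c ≤ r * r * 1 := by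
          apply mul_le_mul (mul_le_mul m1 hEr hE0 hr0) hc1 hc0.le (by positivity)
      _ = 1 / 2 * (2 * s) := by rw [hr2]; ring
  have a3 : 12 * C ^ 2 * (c / s) * (L * R) ≤ 1 / 2 := by
    have h1 : 12 * C ^ 2 * (c / s) * (L * R) = (24 * C ^ 2 * (L * R)) * c / (2 * s) := by
      field_simp; ring
    rw [h1, div_le_iff₀ (by positivity)]
    calc 24 * C ^ 2 * (L * R) * c ≤ s * 1 := mul_le_mul m2 hc1 hc0.le hs.le
      _ = 1 / 2 * (2 * s) := by ring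
  calc 12 * C ^ 2 * (c / s) * (G * s + G ^ 2 * E + L * R) = 12 * C ^ 2 * (c / s) * (G * s) +
      12 * C ^ 2 * (c / s) * (G ^ 2 * E) + 12 * C ^ 2 * (c / s) * (L * R) := by ring
    _ ≤ F + 1 := by linarith

/-- the exponential of the square root -/
theorem er {F Λ N : ℝ} (hF : 0 < F) (hΛ0 : 2 ≤ Λ) (h44 : 44 * F ≤ Λ ^ 2) (hN : Λ / 4 ≤ N) :
    2 * (200 * F) / Real.sqrt (976000 * F) ≤ N / 4 := by
  have l5 : 980 * Real.sqrt F ≤ Real.sqrt (976000 * F) := by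
    apply Real.le_sqrt_of_sq_le
    rw [mul_pow, Real.sq_sqrt hF.le]
    linarith
  have l6 : Real.sqrt F ≤ Λ / (33 / 5) := by
    rw [Real.sqrt_le_left (by positivity)]
    have : (Λ / (33 / 5)) ^ 2 = Λ ^ 2 * (25 / 1089) := by ring
    rw [this]
    linarith
  have hsF : 0 < Real.sqrt F := Real.sqrt_pos.2 hF
  calc 2 * (200 * F) / Real.sqrt (976000 * F) ≤ 2 * (200 * F) / (980 * Real.sqrt F) :=
        div_le_div_of_nonneg_left (by positivity) (by positivity) l5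
    _ = 400 / 980 * Real.sqrt F := by
        have h1 : F = Real.sqrt F * Real.sqrt F := (Real.mul_self_sqrt hF.le).symm
        rw [div_eq_iff (by positivity)]
        calc 2 * (200 * F) = 400 * (Real.sqrt F * Real.sqrt F) := by rw [← h1]; ring
          _ = _ := by ring
    _ ≤ 400 / 980 * (Λ / (33 / 5)) := by linarith
    _ ≤ Λ / 4 / 4 := by linarith
    _ ≤ N / 4 := by linarith

end Fin2L

open Fin2L in
theorem fin2 : S_FIN2 := by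
  intro C hC
  obtain ⟨F1, hF1⟩ : ∃ F1 : ℕ, 97200000000 * 205 ≤ F1 := ⟨_, le_rfl⟩
  obtain ⟨X, hX⟩ : ∃ X : ℕ, 44 * F1 + 10 ≤ X := ⟨_, le_rfl⟩
  obtain ⟨Y, hY⟩ : ∃ Y : ℕ, Y = 2 ^ X := ⟨_, rfl⟩
  obtain ⟨c, hc⟩ : ∃ c : ℝ, c = min 1 (1 / (12 * 976000 * C ^ 2)) := ⟨_, rfl⟩
  have hc0 : 0 < c := by rw [hc]; positivity
  have hc1 : c ≤ 1 := by rw [hc]; exact min_le_left _ _
  have hc2 : 12 * 976000 * C ^ 2 * c ≤ 1 := by
    have : c ≤ 1 / (12 * 976000 * C ^ 2) := by rw [hc]; exact min_le_right _ _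
    calc 12 * 976000 * C ^ 2 * c ≤ 12 * 976000 * C ^ 2 * (1 / (12 * 976000 * C ^ 2)) :=
          mul_le_mul_of_nonneg_left this (by positivity)
      _ = 1 := by field_simp
  clear hc
  obtain ⟨n₁, g1⟩ := As.growth (1000000 * 1600 * F1) 1
  obtain ⟨n₂, g2⟩ := As.growth ((5 * (16000000 * (F1 : ℝ)) ^ 2) ^ 5) 10
  obtain ⟨n₃, g3⟩ := As.growth (20 * (2 * (16000000 * (F1 : ℝ)) + 1) ^ 2) 2
  obtain ⟨n₄, g4⟩ := As.growth ((24 * C ^ 2 * (976000 * (F1 : ℝ)) ^ 2) ^ 2) 4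
  obtain ⟨n₅, g5⟩ := As.growth (24 * C ^ 2 * (1600 * F1 * (200 * (F1 : ℝ) + 1) ^ 3)) 4
  refine ⟨c, hc0, n₁ + n₂ + n₃ + n₄ + n₅ + Y + 8002, fun n hn k hk => ?_⟩
  have hnn : n₁ ≤ n ∧ n₂ ≤ n ∧ n₃ ≤ n ∧ n₄ ≤ n ∧ n₅ ≤ n ∧ Y ≤ n ∧ 8002 ≤ n := by
    clear hX hY hF1 g1 g2 g3 g4 g5 hk; omega
  obtain ⟨b1, b2, b3, b4, b5, b6, b7⟩ := hnn
  have q1 := g1 n b1
  have q2 := g2 n b2
  have q3 := g3 n b3
  have q4 := g4 n b4
  have q5 := g5 n b5
  clear g1 g2 g3 g4 g5 hn b1 b2 b3 b4 b5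
  obtain ⟨Λ, hΛ⟩ : ∃ Λ, Λ = Nat.log 2 n + 1 := ⟨_, rfl⟩
  have hΛR : ((Nat.log 2 n : ℝ) + 1) = Λ := by rw [hΛ]; push_cast; ring
  rw [hΛR] at q1 q2 q3 q4 q5
  have hnΛ : n ≤ 2 ^ Λ := by
    rw [hΛ]; exact (Nat.lt_pow_succ_log_self (by norm_num) n).le
  have hXΛ : X < Λ := by
    have : X ≤ Nat.log 2 n := Nat.le_log_of_pow_le (by norm_num) (by rw [← hY]; exact b6)
    rw [hΛ]; exact Nat.lt_succ_of_le this
  have hlow : 2 ^ (Λ - 1) ≤ n := by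
    rw [hΛ, Nat.add_sub_cancel]
    exact Nat.pow_log_le_self 2 (by clear hX hF1 hY; omega)
  clear hY b6
  have h44 : 44 * F1 ≤ Λ ∧ 10 ≤ Λ := by omega
  clear hX hXΛ
  obtain ⟨s, hs⟩ : ∃ s, s = Real.sqrt n := ⟨_, rfl⟩
  have hs2 : s * s = n := by rw [hs]; exact Real.mul_self_sqrt (by positivity)
  rw [← hs] at q1 q2 q3 q4 q5 hk
  have hs0 : 0 ≤ s := by rw [hs]; exact Real.sqrt_nonneg _
  have hnR : (8002 : ℝ) ≤ n := by exact_mod_cast b7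
  have hs1 : 80 ≤ s := by by_contra hcon; push Not at hcon; nlinarith only [hcon, hs0, hs2, hnR]
  have hsp : 0 < s := by linarith only [hs1]
  have hn0 : (0 : ℝ) < n := by linarith only [hnR]
  have hΛ1 : (10 : ℝ) ≤ Λ := by exact_mod_cast h44.2
  have hΛ0 : (0 : ℝ) ≤ Λ := by linarith only [hΛ1]
  -- the constants
  obtain ⟨K, hK⟩ : ∃ K, K = 200 * Λ := ⟨_, rfl⟩
  obtain ⟨F, hF⟩ : ∃ F, F = Fq K := ⟨_, rfl⟩
  have hFe : F = 97200000000 * (200 * Λ + 5) := by rw [hF, F_eq, hK]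
  have hFle : F ≤ F1 * Λ := by
    rw [hFe]
    have h1 : 200 * Λ + 5 ≤ 205 * Λ := by have := h44.2; clear hFe hF1; omega
    calc 97200000000 * (200 * Λ + 5) ≤ 97200000000 * (205 * Λ) := Nat.mul_le_mul_left _ h1
      _ = 97200000000 * 205 * Λ := by ring
      _ ≤ F1 * Λ := Nat.mul_le_mul_right _ hF1
  have hF1' : 1 ≤ F := by rw [hFe]; clear hF1 hFle hFe; omega
  clear hFe hF1
  have hFR : (F : ℝ) ≤ F1 * Λ := by exact_mod_cast hFle
  have hF0 : (0 : ℝ) ≤ F := by positivity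
  have hFp : (0 : ℝ) < F := by exact_mod_cast hF1'
  have hF10 : (0 : ℝ) ≤ F1 := by positivity
  have cL : (Lam K : ℝ) = 1600 * F := by rw [Lam_eq, hF]; push_cast; ring
  have cG : (GG K : ℝ) = 976000 * F := by rw [GG_eq, hF]; push_cast; ring
  have cR : (RR K : ℝ) = 200 * F := by rw [RR_eq, hF]; push_cast; ring
  have cD : (D3 K : ℝ) = 16000000 * F := by rw [D3_eq, hF]; push_cast; ring
  have hsn : s ≤ n := by nlinarith only [hs1, hs2, hs0]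
  -- Big
  have hbig : Big n K := by
    unfold Big
    have h1 : (1000000 : ℝ) * (Lam K) ≤ n := by
      rw [cL]
      calc (1000000 : ℝ) * (1600 * F) ≤ 1000000 * (1600 * (F1 * Λ)) := by gcongr
        _ = 1000000 * 1600 * F1 * (Λ : ℝ) ^ 1 := by ring
        _ ≤ s := q1
        _ ≤ n := hsn
    exact_mod_cast h1
  have hLn : Lam K ≤ n := by
    unfold Big at hbig; clear hFle; omega
  have hL1 : 1 ≤ Lam K := by rw [Lam_eq, ← hF]; clear hFle; omega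
  have hn10 : 8002 ≤ n ^ 10 := b7.trans (Nat.le_self_pow (by norm_num) n)
  refine ⟨K, 3 * n ^ 10, hbig, ?_, ?_⟩
  · have h1 : D2 K = 2000 * Lam K := rfl
    rw [h1]
    have h2 : n ^ 10 * 1 ≤ n ^ 10 * Lam K := Nat.mul_le_mul_left _ hL1
    have h3 : 8002 * Lam K ≤ n ^ 10 * Lam K := Nat.mul_le_mul_right _ hn10
    have h4 : 3 * n ^ 10 * Lam K = 3 * (n ^ 10 * Lam K) := by ring
    rw [h4]
    generalize n ^ 10 * Lam K = y at h2 h3 ⊢
    generalize n ^ 10 = y' at h2 ⊢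
    clear hFle
    omega
  -- the bound
  have hkR : (k : ℝ) ≤ n * s := by
    refine hk.trans ?_
    have : 0 ≤ (n : ℝ) * s := by positivity
    calc c * (n * s) ≤ 1 * (n * s) := mul_le_mul_of_nonneg_right hc1 this
      _ = n * s := one_mul _
  have hk2 : (k : ℝ) ≤ (n : ℝ) ^ 2 := by
    calc (k : ℝ) ≤ n * s := hkR
      _ ≤ n * n := mul_le_mul_of_nonneg_left hsn hn0.le
      _ = (n : ℝ) ^ 2 := by ring
  have hk0 : (0 : ℝ) ≤ k := by positivity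
  have hE := As.exp_pow n Λ hnΛ
  rw [← hK] at hE
  obtain ⟨E, hEd⟩ : ∃ E, E = Real.exp (-(K : ℝ) / 2) := ⟨_, rfl⟩
  have hE' : (n : ℝ) ^ 100 * E ≤ 1 := by rw [hEd]; exact_mod_cast hE
  have hE0 : 0 < E := by rw [hEd]; exact Real.exp_pos _
  have hkn : (k : ℝ) / (n : ℝ) ^ 2 ≤ c / s := by
    rw [div_le_div_iff₀ (by positivity) hsp]
    calc (k : ℝ) * s ≤ c * (n * s) * s := mul_le_mul_of_nonneg_right hk hs0
      _ = c * (n * (s * s)) := by ring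
      _ = c * (n : ℝ) ^ 2 := by rw [hs2]; ring
  have hkn1 : (k : ℝ) / (n : ℝ) ^ 2 ≤ 1 / s :=
    hkn.trans (div_le_div_of_nonneg_right hc1 hs0)
  have hT : (((3 * n ^ 10 * Lam K : ℕ) : ℝ)) ≤ 3 * (n : ℝ) ^ 11 := by
    have h1 : 3 * n ^ 10 * Lam K ≤ 3 * n ^ 10 * n := Nat.mul_le_mul_left _ hLn
    have h2 : ((3 * n ^ 10 * Lam K : ℕ) : ℝ) ≤ ((3 * n ^ 10 * n : ℕ) : ℝ) := by exact_mod_cast h1
    refine h2.trans (le_of_eq ?_)
    push_cast; ring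
  have hT0 : (0 : ℝ) ≤ ((3 * n ^ 10 * Lam K : ℕ) : ℝ) := Nat.cast_nonneg _
  have u1 := t1 hnR hE0 hE' hk0 hk2 hT0 hT
  rw [hEd] at u1
  have u2 : (k : ℝ) * ((2 * (D3 K : ℝ) + 1) ^ 2 / (n : ℝ) ^ 2) ≤ 1 / 20 := by
    apply t2 hsp hkn1 (Nat.cast_nonneg _)
    rw [cD]
    calc 20 * (2 * (16000000 * (F : ℝ)) + 1) ^ 2 ≤
        20 * (2 * (16000000 * (F1 * Λ)) + Λ) ^ 2 := by
          gcongr; linarith only [hΛ1]
      _ = 20 * (2 * (16000000 * (F1 : ℝ)) + 1) ^ 2 * (Λ : ℝ) ^ 2 := by ring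
      _ ≤ s := q3
  have u3 : (((3 * n ^ 10 * Lam K : ℕ) : ℝ)) *
      (5 * k * (D3 K : ℝ) ^ 2 / (n : ℝ) ^ 2) ^ 30 ≤ 1 / 50 := by
    apply t3 hnR hsp hs2 hk0 hkn1 hT0 hT
    rw [cD]
    calc (5 * (16000000 * (F : ℝ)) ^ 2) ^ 5 ≤ (5 * (16000000 * (F1 * Λ)) ^ 2) ^ 5 := by gcongr
      _ = (5 * (16000000 * (F1 : ℝ)) ^ 2) ^ 5 * (Λ : ℝ) ^ 10 := by
          have : 5 * (16000000 * ((F1 : ℝ) * Λ)) ^ 2 =
            (5 * (16000000 * (F1 : ℝ)) ^ 2) * (Λ : ℝ) ^ 2 := by ring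
          rw [this, mul_pow, ← pow_mul]
      _ ≤ s := q2
  have u5 : (k : ℝ) / (n : ℝ) ^ 10 ≤ 1 / 50 := t5 hnR hk2
  have u4 : ((3 * n ^ 10 : ℕ) : ℝ) * pdB K k (C / (n : ℝ) ^ 2) (C * mB n K) ≤ 1 / 50 := by
    have hp : pdB K k (C / (n : ℝ) ^ 2) (C * mB n K) ≤ E := by
      rw [hEd]
      apply pd_le
      rw [← hF]
      obtain ⟨r, hr⟩ : ∃ r, r = Real.sqrt s := ⟨_, rfl⟩
      have hr2 : r * r = s := by rw [hr]; exact Real.mul_self_sqrt hs0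
      have hr0 : 0 ≤ r := by rw [hr]; exact Real.sqrt_nonneg _
      have hrpos : 0 < r := by
        rcases hr0.lt_or_eq with h | h
        · exact h
        · rw [← h] at hr2; linarith only [hr2, hsp]
      have m1 : 24 * C ^ 2 * (GG K : ℝ) ^ 2 ≤ r := by
        rw [hr]
        apply Real.le_sqrt_of_sq_le
        rw [cG]
        calc (24 * C ^ 2 * (976000 * (F : ℝ)) ^ 2) ^ 2 ≤
            (24 * C ^ 2 * (976000 * (F1 * Λ)) ^ 2) ^ 2 := by gcongr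
          _ = (24 * C ^ 2 * (976000 * (F1 : ℝ)) ^ 2) ^ 2 * (Λ : ℝ) ^ 4 := by ring
          _ ≤ s := q4
      have m2 : 24 * C ^ 2 * ((Lam K : ℝ) * ((RR K : ℝ) + 1) ^ 3) ≤ s := by
        rw [cL, cR]
        calc 24 * C ^ 2 * (1600 * (F : ℝ) * (200 * F + 1) ^ 3) ≤
            24 * C ^ 2 * (1600 * (F1 * Λ) * (200 * (F1 * Λ) + Λ) ^ 3) := by
              gcongr; linarith only [hΛ1]
          _ = 24 * C ^ 2 * (1600 * F1 * (200 * (F1 : ℝ) + 1) ^ 3) * (Λ : ℝ) ^ 4 := by ring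
          _ ≤ s := q5
      have m3 : Real.exp (2 * RR K / Real.sqrt (GG K)) ≤ r := by
        rw [← Real.le_log_iff_exp_le hrpos]
        have l1 : Real.log r = Real.log n / 4 := by
          have : (n : ℝ) = r ^ 4 := by rw [← hs2, ← hr2]; ring
          rw [this, Real.log_pow]; push_cast; ring
        rw [l1, cR, cG]
        apply er (Λ := (Λ : ℝ)) hFp (by linarith only [hΛ1])
        · have h1 : 44 * F ≤ Λ * Λ := by
            calc 44 * F ≤ 44 * (F1 * Λ) := Nat.mul_le_mul_left _ hFle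
              _ = (44 * F1) * Λ := by ring
              _ ≤ Λ * Λ := Nat.mul_le_mul_right _ h44.1
          have h2 : ((44 * F : ℕ) : ℝ) ≤ ((Λ * Λ : ℕ) : ℝ) := by exact_mod_cast h1
          push_cast at h2
          rw [pow_two]
          exact h2
        · have h1 : (2 : ℝ) ^ (Λ - 1) ≤ n := by exact_mod_cast hlow
          have h2 : Real.log ((2 : ℝ) ^ (Λ - 1)) ≤ Real.log n :=
            Real.log_le_log (by positivity) h1
          rw [Real.log_pow] at h2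
          have h3 : ((Λ - 1 : ℕ) : ℝ) = (Λ : ℝ) - 1 := by
            rw [Nat.cast_sub (by have := h44.2; clear hFle; omega)]; norm_num
          rw [h3] at h2
          have h4 := Real.log_two_gt_d9
          have h5 : ((Λ : ℝ) - 1) * (1 / 2) ≤ ((Λ : ℝ) - 1) * Real.log 2 :=
            mul_le_mul_of_nonneg_left (by linarith only [h4]) (by linarith only [hΛ1])
          linarith only [h5, h2, hΛ1]
      unfold mB
      rw [← hs]
      have m4 : (0 : ℝ) ≤ ((RR K : ℝ) + 1) ^ 3 :=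
        pow_nonneg (add_nonneg (Nat.cast_nonneg _) zero_le_one) 3
      have m5 : (0 : ℝ) ≤ (Lam K : ℝ) := Nat.cast_nonneg _
      have m6 : 0 ≤ Real.exp (2 * RR K / Real.sqrt (GG K)) := (Real.exp_pos _).le
      exact ex (n := (n : ℝ)) (s := s) (r := r) (k := (k : ℝ)) (C := C) (c := c) (F := (F : ℝ))
        (G := (GG K : ℝ)) (L := (Lam K : ℝ)) (R := ((RR K : ℝ) + 1) ^ 3)
        (E := Real.exp (2 * RR K / Real.sqrt (GG K)))
        hsp hr2 hr0 hC hc0 hc1 hc2 hF0 cG m6 m3 m5 m4 hkn m1 m2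
    calc ((3 * n ^ 10 : ℕ) : ℝ) * pdB K k (C / (n : ℝ) ^ 2) (C * mB n K) ≤
        ((3 * n ^ 10 : ℕ) : ℝ) * E := mul_le_mul_of_nonneg_left hp (Nat.cast_nonneg _)
      _ = 3 * ((n : ℝ) ^ 10 * E) := by push_cast; ring
      _ ≤ 3 * (1 / 8002) := by
          have := Esm hnR hE0 hE' 10 (by norm_num)
          linarith only [this]
      _ ≤ 1 / 50 := by norm_num
  unfold fB
  linarith only [u1, u2, u3, u4, u5]

end Pool.Agent.Helper57K9.XZ
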