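import Pool.Agent.Helper57K9.XZ.Stm3

/-!
A clean even epoch: the path.
-/

set_option autoImplicit false

namespace Pool.Agent.Helper57K9.XZ

open Finset Pool.Agent.Helper5K9.ZN

namespace UpL

theorem Fq_eq (K : ℕ) : Fq K = 97200000000 * (K + 5) := by
  unfold Fq Fe lm dl; ring

theorem Fq_ge (K : ℕ) : 1600 * K ≤ Fq K ∧ 1000 ≤ Fq K := by
  rw [Fq_eq]; constructor <;> omega

theorem RR_eq (K : ℕ) : RR K = 200 * Fq K := rfl
theorem Lam_eq (K : ℕ) : Lam K = 1600 * Fq K := by unfold Lam RR; ring
theorem D1_eq (K : ℕ) : D1 K = 6400 * Fq K := by unfold D1; rw [Lam_eq]; ring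
theorem Bet_eq (K : ℕ) : Bet K = 25 * Fq K := rfl

theorem WW_succ (e : ℕ → Bool) (t : ℕ) : WW e (t + 1) = WW e t + sgn (e t) := by
  unfold WW
  rw [Finset.sum_range_succ]

theorem WW_count (e : ℕ → Bool) (t0 i : ℕ) :
    WW e (t0 + i) = WW e t0 + i - 2 * ((Ico t0 (t0 + i)).filter fun s => e s = false).card := by
  induction i with
  | zero => simp
  | succ i ih =>
    have h1 : Ico t0 (t0 + (i + 1)) = insert (t0 + i) (Ico t0 (t0 + i)) := by
      ext x; simp only [Finset.mem_Ico, Finset.mem_insert]; omega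
    rw [h1, Finset.filter_insert, ← Nat.add_assoc, WW_succ, ih]
    cases he : e (t0 + i)
    · rw [if_pos rfl, Finset.card_insert_of_notMem (by simp)]
      simp only [sgn, Bool.false_eq_true, if_false]; push_cast; ring
    · rw [if_neg (by simp)]
      simp only [sgn, if_true]; push_cast; ring

/-- the path of a clean even epoch; `b t` means: the step to the east is safe -/
theorem path {K t0 : ℕ} {e : ℕ → Bool} {b : ℕ → Prop} (h0 : |WW e t0| ≤ Fq K + 1)
    (hm : ∀ t, t0 ≤ t → t < t0 + Lam K → (e t = true ↔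
      ((∀ s, t0 ≤ s → s ≤ t → WW e s < RR K) ∧ b t) ∨
      (¬ (∀ s, t0 ≤ s → s ≤ t → WW e s < RR K) ∧ WW e t ≤ 0)))
    (hb : (BlkU K e t0).card ≤ Bet K) :
    (∀ t, t0 ≤ t → t ≤ t0 + Lam K → WW e t ≤ RR K ∧ -(26 * (Fq K : ℤ) + 1) ≤ WW e t) ∧
    (∃ t, t0 ≤ t ∧ t < t0 + Lam K ∧ WW e t = RR K) ∧
    0 ≤ WW e (t0 + Lam K) ∧ WW e (t0 + Lam K) ≤ 1 := by
  classical
  obtain ⟨_, hF⟩ := Fq_ge K
  have hR := RR_eq K
  have hL := Lam_eq K
  have hB := Bet_eq K
  have h0' := abs_le.1 h0
  -- during the run
  have run : ∀ i, i ≤ Lam K → (∀ s, t0 ≤ s → s < t0 + i → WW e s < RR K) →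
      WW e t0 + i - 2 * Bet K ≤ WW e (t0 + i) ∧ WW e t0 - Bet K ≤ WW e (t0 + i) := by
    intro i hi hs
    have h1 := WW_count e t0 i
    have h2 : ((Ico t0 (t0 + i)).filter fun s => e s = false).card ≤ Bet K := by
      refine le_trans (Finset.card_le_card ?_) hb
      intro x hx
      unfold BlkU
      simp only [Finset.mem_filter, Finset.mem_Ico] at hx ⊢
      refine ⟨⟨hx.1.1, by omega⟩, ?_, hx.2⟩
      intro s h3 h4
      exact hs s h3 (by omega)
    have h3 : ((Ico t0 (t0 + i)).filter fun s => e s = false).card ≤ i := by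
      refine (Finset.card_filter_le _ _).trans ?_
      simp
    have h2' : (((Ico t0 (t0 + i)).filter fun s => e s = false).card : ℤ) ≤ Bet K := by
      exact_mod_cast h2
    have h3' : (((Ico t0 (t0 + i)).filter fun s => e s = false).card : ℤ) ≤ i := by
      exact_mod_cast h3
    constructor <;> linarith
  have ex : ∃ i, i ≤ 252 * Fq K ∧ (RR K : ℤ) ≤ WW e (t0 + i) := by
    by_contra hc
    push Not at hc
    have := (run (252 * Fq K) (by omega) (fun s h1 h2 => by
      have := hc (s - t0) (by omega)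
      rwa [show t0 + (s - t0) = s by omega] at this)).1
    have h2 := hc (252 * Fq K) le_rfl
    rw [hR] at h2
    rw [hB] at this
    push_cast at this h2
    linarith
  have ex' : ∃ i, (RR K : ℤ) ≤ WW e (t0 + i) := ⟨ex.choose, ex.choose_spec.2⟩
  set i1 := Nat.find ex' with hi1
  have i1le : i1 ≤ 252 * Fq K := (Nat.find_min' ex' ex.choose_spec.2).trans ex.choose_spec.1
  have i1s : (RR K : ℤ) ≤ WW e (t0 + i1) := Nat.find_spec ex'
  have i1m : ∀ s, t0 ≤ s → s < t0 + i1 → WW e s < RR K := by
    intro s h1 h2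
    have := Nat.find_min ex' (m := s - t0) (by omega)
    push Not at this
    rwa [show t0 + (s - t0) = s by omega] at this
  have i1pos : 0 < i1 := by
    rcases Nat.eq_zero_or_pos i1 with h | h
    · exfalso
      rw [h, Nat.add_zero, hR] at i1s
      push_cast at i1s
      linarith [h0'.2]
    · exact h
  have i1eq : WW e (t0 + i1) = RR K := by
    have h1 := i1m (t0 + (i1 - 1)) (by omega) (by omega)
    have h2 : t0 + i1 = t0 + (i1 - 1) + 1 := by omega
    have h3 : sgn (e (t0 + (i1 - 1))) ≤ 1 := by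
      cases e (t0 + (i1 - 1)) <;> simp [sgn]
    rw [h2, WW_succ] at i1s ⊢
    linarith
  -- after the run
  have aft : ∀ j, i1 + j ≤ Lam K → 0 ≤ WW e (t0 + (i1 + j)) ∧
      WW e (t0 + (i1 + j)) ≤ max 1 ((RR K : ℤ) - j) := by
    intro j
    induction j with
    | zero =>
      intro _
      rw [Nat.add_zero, i1eq]
      constructor
      · exact_mod_cast Nat.zero_le _
      · simp
    | succ j ih =>
      intro hj
      obtain ⟨a1, a2⟩ := ih (by omega)
      have hn : ¬ (∀ s, t0 ≤ s → s ≤ t0 + (i1 + j) → WW e s < RR K) := by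
        intro h
        have := h (t0 + i1) (by omega) (by omega)
        rw [i1eq] at this
        exact lt_irrefl _ this
      have hm' := hm (t0 + (i1 + j)) (by omega) (by omega)
      have e1 : t0 + (i1 + (j + 1)) = t0 + (i1 + j) + 1 := by omega
      rw [e1, WW_succ]
      by_cases hw : WW e (t0 + (i1 + j)) ≤ 0
      · have : e (t0 + (i1 + j)) = true := hm'.2 (Or.inr ⟨hn, hw⟩)
        rw [this]
        simp only [sgn, if_true]
        constructor
        · linarith
        · exact le_max_of_le_left (by linarith)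
      · have : e (t0 + (i1 + j)) = false := by
          by_contra hc
          rw [Bool.not_eq_false] at hc
          rcases hm'.1 hc with ⟨h1, _⟩ | ⟨_, h1⟩
          · exact hn h1
          · exact hw h1
        rw [this]
        simp only [sgn, Bool.false_eq_true, if_false]
        push_cast
        constructor
        · omega
        · rcases le_max_iff.1 a2 with h | h
          · exact le_max_of_le_left (by linarith)
          · exact le_max_of_le_right (by linarith)
  refine ⟨?_, ⟨t0 + i1, by omega, by omega, i1eq⟩, ?_, ?_⟩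
  · intro t h1 h2
    by_cases ht : t < t0 + i1
    · have r := run (t - t0) (by omega) (fun s h3 h4 => i1m s h3 (by omega))
      rw [show t0 + (t - t0) = t by omega] at r
      refine ⟨(i1m t h1 ht).le, ?_⟩
      rw [hB] at r
      push_cast at r
      linarith [r.2, h0'.1]
    · have r := aft (t - t0 - i1) (by omega)
      rw [show t0 + (i1 + (t - t0 - i1)) = t by omega] at r
      refine ⟨r.2.trans (max_le ?_ (by linarith [Int.natCast_nonneg (t - t0 - i1)])), ?_⟩
      · rw [hR]; push_cast; linarith [(by exact_mod_cast hF : (1000 : ℤ) ≤ Fq K)]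
      · linarith [r.1, (by exact_mod_cast hF : (1000 : ℤ) ≤ Fq K)]
  · have r := aft (Lam K - i1) (by omega)
    rw [show t0 + (i1 + (Lam K - i1)) = t0 + Lam K by omega] at r
    exact r.1
  · have r := aft (Lam K - i1) (by omega)
    rw [show t0 + (i1 + (Lam K - i1)) = t0 + Lam K by omega] at r
    refine r.2.trans (max_le le_rfl ?_)
    have : RR K ≤ Lam K - i1 := by omega
    have : (RR K : ℤ) ≤ ((Lam K - i1 : ℕ) : ℤ) := by exact_mod_cast this
    linarith

end UpL

end Pool.Agent.Helper57K9.XZ
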