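import Pool.Agent.Helper57K9.XZ.Stm4
import Pool.Agent.Helper57K9.XZ.UpA
import Pool.Agent.Helper57K9.XZ.Bx
import Pool.Agent.Helper57K9.XZ.Occ

/-!
# XZ: masked zombies, common part of PC, PE (and PDU)
-/

set_option autoImplicit false

namespace Pool.Agent.Helper57K9.XZ

open Finset Pool.Agent.Helper5K9.ZN

namespace MskL

variable {n T k : ℕ}

/-- the number of pairs as the number of points of the sample space -/
theorem card_XX (P : ℤ × ℤ → (ℕ → Fin 12) → Prop) (D : DecidablePred fun x : XX n T =>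
    P x.1.1 (ext12 x.2)) :
    (univ.filter fun x : XX n T => P x.1.1 (ext12 x.2)).card = cnt n T P := by
  rw [OccL.cnt_eq]
  refine card_bij (fun x _ => (x.1.1, x.2)) ?_ ?_ ?_
  · intro x hx
    rw [OccL.mem_cs]
    exact ⟨x.1.2, (mem_filter.1 hx).2⟩
  · intro x _ y _ h
    rw [Prod.mk.injEq] at h
    exact Prod.ext (Subtype.ext h.1) h.2
  · intro y hy
    rw [OccL.mem_cs] at hy
    exact ⟨(⟨y.1, hy.1⟩, y.2), mem_filter.2 ⟨mem_univ _, hy.2⟩, rfl⟩

theorem fcard (hn : 3 ≤ n) : Fintype.card (XX n T) = n ^ 2 * 12 ^ T := by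
  rw [Fintype.card_prod, Fintype.card_fun, Fintype.card_fin, Fintype.card_fin,
    Fintype.card_coe, (bx n hn).1]

/-- a silent zombie -/
def x0 (hn : 3 ≤ n) (T : ℕ) : XX n T :=
  (⟨(-1, -1), by rw [mem_Boxn]; simp only; omega⟩, fun _ => 0)

/-- replace the zombies in `I` by silent ones -/
def mk (hn : 3 ≤ n) (I : Finset (Fin k)) (ω : Fin k → XX n T) : Fin k → XX n T :=
  fun i => if i ∈ I then x0 hn T else ω i

theorem mk_congr (hn : 3 ≤ n) {I : Finset (Fin k)} {ω ω' : Fin k → XX n T}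
    (h : ∀ i, i ∉ I → ω i = ω' i) : mk hn I ω = mk hn I ω' := by
  funext i
  unfold mk
  split_ifs with hi
  · rfl
  · exact h i hi

/-- the path does not depend on silent zombies -/
theorem path_eq (hM : S_MASK) (h0 : S_MSK0) (hn : 12 ≤ n) (K t : ℕ) (I : Finset (Fin k))
    (ω : Fin k → XX n T)
    (hI : ∀ z ∈ I, ∀ s < t, ¬ Rel K s (PD n (uu ω) (ee K ω) (pp ω) s z)) :
    ∀ s < t, ee K ω s = ee K (mk (by omega) I ω) s := by
  have hn3 : 3 ≤ n := by omega
  intro s hs
  have h1 := hM n K k t (fun s z => uu ω z s) (fun s z => uu (mk hn3 I ω) z s) (pp ω)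
    (pp (mk hn3 I ω)) hn3 (fun z => ⟨(ω z).1.2, (mk hn3 I ω z).1.2⟩) (fun z => by
      by_cases hz : z ∈ I
      · right
        refine ⟨hI z hz, fun e s => ?_⟩
        have e1 : mk hn3 I ω z = x0 hn3 T := if_pos hz
        have e2 : pp (mk hn3 I ω) z = (-1, -1) := by
          unfold pp
          rw [e1]
          rfl
        rw [e2]
        exact h0 n K _ e s hn
      · left
        have e1 : mk hn3 I ω z = ω z := if_neg hz
        refine ⟨fun s => ?_, ?_⟩
        · unfold uu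
          rw [e1]
        · unfold pp
          rw [e1]) (s + 1) (by omega)
  show (xs n K k).out _ = (xs n K k).out _
  rw [h1]

theorem tu_e {u : ℕ → Fin 12} {e e' : ℕ → Bool} (p : ℤ × ℤ) : ∀ {t : ℕ},
    (∀ s < t, e s = e' s) → tu n u e p t = tu n u e' p t := by
  intro t
  induction t with
  | zero => intro _; rfl
  | succ t ih =>
    intro h
    show smg n (e t) (zu n (u t) (tu n u e p t)) = smg n (e' t) (zu n (u t) (tu n u e' p t))
    rw [ih fun s hs => h s (by omega), h t (by omega)]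

theorem du_e {u : ℕ → Fin 12} {e e' : ℕ → Bool} (p : ℤ × ℤ) {t : ℕ}
    (h : ∀ s < t, e s = e' s) : du n u e p t = du n u e' p t := by
  show zu n (u t) (tu n u e p t) = zu n (u t) (tu n u e' p t)
  rw [tu_e p h]

theorem WW_e {e e' : ℕ → Bool} {t : ℕ} (h : ∀ s < t, e s = e' s) : WW e t = WW e' t := by
  unfold WW
  refine sum_congr rfl fun s hs => ?_
  rw [h s (mem_range.1 hs)]

theorem Tube_e {R t : ℕ} {e e' : ℕ → Bool} (h : ∀ s < t, e s = e' s) :
    Tube R e t ↔ Tube R e' t := by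
  unfold Tube
  refine forall₂_congr fun s hs => ?_
  rw [WW_e fun r hr => h r (by omega)]

theorem GC_mono {K T T' : ℕ} {c : ℕ → Bool} (hT : T' ≤ T) (h : GC K T c) : GC K T' c :=
  fun s w hw => h s w (by omega)

/-- far zombies are not relevant -/
theorem not_rel {K s : ℕ} {q : ℤ × ℤ} (h : (D2 K : ℤ) < L1 q) : ¬ Rel K s q := by
  have hF := UpL.Fq_ge K
  have hD1 := UpL.D1_eq K
  have hD2 : D2 K = 2000 * Lam K := rfl
  have hL := UpL.Lam_eq K
  have hFe : Fe 30 K = Fq K := rfl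
  rintro (⟨-, -, h1, h2, -⟩ | h1 | ⟨-, h1⟩ | ⟨-, h1⟩)
  · unfold L1 at h
    omega
  · rw [h1] at h
    unfold L1 at h
    simp at h
    omega
  · rw [hFe] at h1
    omega
  · omega

end MskL

end Pool.Agent.Helper57K9.XZ
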