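import Pool.Agent.Helper5K9.ZN.Defs

/-!
# Zombies: the one-dimensional part (distance of a zombie to the east axis)

`e t = true` is a move of the survivor to the east, `false` to the north. A particle at `H ≥ 0`
moves as follows with a fair coin `ε ∈ {0, 1}`: `H ↦ H + ε` if `e t = false`, and
`H ↦ max (H - ε) 0` if `e t = true`. One particle is injected at `0` at each time `0, 1, 2, ...`.
`prof e t h` is the expected number of particles with `H ≤ h` at time `t`.
-/

set_option autoImplicit false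

namespace Pool.Agent.Helper57K9.XZ

open Finset Pool.Agent.Helper5K9.ZN

/-- one step for the profile `U h` = expected number of particles with `H ≤ h` -/
noncomputable def stp (e : Bool) (U : ℕ → ℝ) (h : ℕ) : ℝ :=
  if e then (U h + U (h + 1)) / 2 else (U h + if h = 0 then 0 else U (h - 1)) / 2

/-- the profile with injection of one particle at `0` at each time -/
noncomputable def prof (e : ℕ → Bool) : ℕ → ℕ → ℝ
  | 0 => fun _ => 1
  | t + 1 => fun h => stp (e t) (prof e t) h + 1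

/-- the times in `[t0, t1)` with a step to the east -/
def est (e : ℕ → Bool) (t0 t1 : ℕ) : Finset ℕ := (Ico t0 t1).filter fun t => e t = true

/-- **SLO** (slopes): near visits are bounded by visits of `0`, for every path in a tube.

Proof. By linearity treat a single particle injected at time `v`: `U v = 1`,
`U (t + 1) = stp (e t) (U t)`. Write `U ≼ F` if `U (h + 1) * F h ≤ U h * F (h + 1)` for all `h`
(positive functions). `N = stp false`, `E = stp true` preserve `≼`; `F ≼ N F` if `F` is log-concave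
(all `N^b F0` below are); `E (N G) ≼ N (E G)` (they differ only at `0`, where `E N G` is larger).
For `F0 h = (h + 1) * 4 ^ h` one has `E (N^4 F0) ≼ F0` (for `h ≥ 4` the function `E (N^4 F0)` is a
multiple of `F0`, the double root of the symbol; finitely many `h` by computation). Let `b v = 0`,
`b (t + 1) = b t + 1` for an N-step, `b t - 4` (truncated) for an E-step. Then `U t ≼ N^(b t) F0` by
induction. So `U t h ≤ (h + 1) 4 ^ h U t 0` if `b t = 0`, and `U t 1 ≤ (8 + b t) U t 0` always.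
E-times with `b t = 0`: `U t 2 ≤ 48 U t 0`. If `b t > 0` let `s` be the last time with `b s = 0`; with
`j` E-steps in `(s, t]` there are `4 j + b t` N-steps, and `U s h ≤ U s 0 * 8 ^ h` gives
`U t 2 ≤ 64 U s 0 ((9/16)^4 (9/2))^j (9/16)^(b t)`: summable over the E-times of the busy period with
sum `≤ 66 U s 0`, and `s = v` (`U = 1`) or `s - 1` is an E-time with `b ≤ 4` and
`U s 0 ≤ 13/2 U (s - 1) 0`. The busy period containing `t0`: for the particles with `v ≤ s` the time
`s` is the same (queue started at `0`), and the sum of their `U s 0` is at most `prof e s 0 ≤ M`; the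
length of a busy period is at most `2 W`. Injections in `[t0, t1)` cost `66` each. -/
def S_SLO : Prop := ∃ C : ℝ, 0 < C ∧ ∀ (e : ℕ → Bool) (t0 t1 W : ℕ) (M : ℝ), t0 ≤ t1 →
  (∀ s t : ℕ, s ≤ t → t ≤ t1 → |WW e t - WW e s| ≤ (W : ℤ)) → (∀ s ≤ t0, prof e s 0 ≤ M) →
  ∑ t ∈ est e t0 t1, prof e t 2 ≤
    C * (∑ t ∈ est e t0 t1, prof e t 0 + M + W + ((t1 : ℝ) - t0))

/-- **TB** (touches): if the path `WW e` stays below the level `B` and reaches it at least once in
every window of length `G`, then the profile is small near `0`.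

Proof. `prof e t h = ∑_(j ≤ t) P (the particle injected at time t - j is at most h)`, and this
particle is at most `h` iff the backward sums `Y_i = ∑_(t-i ≤ s < t) (± ε_s)` (`+ ε` for an N-step,
`- ε` for an E-step) are `≤ h` for all `i ≤ j`. `Y_i = S_i - (WW e t - WW e (t - i)) / 2` with
`S_i` a sum of `i` independent signs `± 1/2`; at a touch `t - i` this is `≥ S_i`. So
`prof e t h ≤ E (min (τ, t + 1))`, where `τ` is the first touch index `i` with `S_i > h`. The random
walk sampled at touches has gaps `≤ 2 G`, and its overshoot over `h` has mean `≤ C √G` (reflection at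
the first passage). Optional stopping for `S` and `S² - i / 4` at the exit of `(-√t, h]`:
`E (min (τ, t + 1)) ≤ C (h + √G) √(t + 1)`. (Alternative: a supersolution
`A Y √t - 4 Y²`, `Y = y + c √G`, `y = h - (B - WW e t) / 2`, at the touches.) For `t < 2 G` trivial. -/
def S_TB : Prop := ∃ C : ℝ, 0 < C ∧ ∀ (e : ℕ → Bool) (G T : ℕ) (B : ℤ), 1 ≤ G →
  (∀ t ≤ T, WW e t ≤ B) → (∀ t : ℕ, t + G ≤ T → ∃ s, t ≤ s ∧ s ≤ t + G ∧ WW e s = B) →
  ∀ t ≤ T, ∀ h : ℕ, prof e t h ≤ C * (h + Real.sqrt G) * Real.sqrt (t + 1)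

/-- **PU** (pushes) after a touch `s0`.

Proof. `θ = 1 / √G`, `d t = B - WW e t ∈ [0, W]`,
`Φ t = ∑' h, prof e t h * exp (- θ (h - d t / 2) + θ² (t1 - t) / 8)`. Summation by parts:
`Φ (t + 1) + [e t] prof e t 0 / 2 ≤ Φ t + exp (θ W / 2 + 1 / 8) / (1 - exp (- θ))`, because
`cosh (θ / 2) ≤ exp (θ² / 8)`. At `s0` either `d = 0` and `Φ ≤ C A G`, or `s0 = 0` and
`prof e 0 h = 1`. (Truncate the sum at a large `h` if you do not like `∑'`.) -/
def S_PU : Prop := ∃ C : ℝ, 0 < C ∧ ∀ (e : ℕ → Bool) (s0 t1 W G : ℕ) (B : ℤ) (A : ℝ), 1 ≤ G →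
  s0 ≤ t1 → t1 ≤ s0 + G → 0 ≤ A →
  (∀ t : ℕ, s0 ≤ t → t ≤ t1 → B - W ≤ WW e t ∧ WW e t ≤ B) →
  ((WW e s0 = B ∧ ∀ h : ℕ, prof e s0 h ≤ A * (h + Real.sqrt G)) ∨ s0 = 0) →
  ∑ t ∈ est e s0 t1, prof e t 0 ≤ C * (A * G + (G : ℝ) ^ 2 * Real.exp (W / Real.sqrt G))

/-- **NS** (near sum): the combination. `ns : S_SLO → S_TB → S_PU → S_NS`; take for `s0` the last
touch before `t0` (`t0 - s0 ≤ G`), or `0` if there is none, and use PU with `2 G`. -/
def S_NS : Prop := ∃ C : ℝ, 0 < C ∧ ∀ (e : ℕ → Bool) (W G T t0 t1 : ℕ) (B : ℤ), 1 ≤ G → W ≤ G →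
  t0 ≤ t1 → t1 ≤ T → t1 ≤ t0 + G → (∀ t ≤ T, B - W ≤ WW e t ∧ WW e t ≤ B) →
  (∀ t : ℕ, t + G ≤ T → ∃ s, t ≤ s ∧ s ≤ t + G ∧ WW e s = B) →
  ∑ t ∈ est e t0 t1, prof e t 2 ≤
    C * (G * Real.sqrt (T + 1) + (G : ℝ) ^ 2 * Real.exp (W / Real.sqrt G))

end Pool.Agent.Helper57K9.XZ
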