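import Pool.Agent.Helper57K9.XZ.Stm4
import Pool.Agent.Helper57K9.XZ.Bx
import Pool.Agent.Helper57K9.XZ.UpA
import Pool.Agent.Helper57K9.XZ.Wsum
import Pool.Agent.Helper57K9.XZ.Pdx

/-! lemmas for [PDU] and [PDD] -/

set_option autoImplicit false

namespace Pool.Agent.Helper57K9.XZ

open Finset Pool.Agent.Helper5K9.ZN

namespace PduL

theorem WW_congr {c c' : ℕ → Bool} {t : ℕ} (h : ∀ s < t, c s = c' s) : WW c t = WW c' t := by
  unfold WW
  exact Finset.sum_congr rfl fun s hs => by rw [h s (Finset.mem_range.1 hs)]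

theorem tu_congr (n : ℕ) (u : ℕ → Fin 12) {e e' : ℕ → Bool} (p : ℤ × ℤ) {t : ℕ}
    (h : ∀ s < t, e s = e' s) : tu n u e p t = tu n u e' p t := by
  induction t with
  | zero => rfl
  | succ t ih =>
    show smg n (e t) (zu n (u t) (tu n u e p t)) = smg n (e' t) (zu n (u t) (tu n u e' p t))
    rw [ih fun s hs => h s (by omega), h t (by omega)]

theorem du_congr (n : ℕ) (u : ℕ → Fin 12) {e e' : ℕ → Bool} (p : ℤ × ℤ) {t : ℕ}
    (h : ∀ s < t, e s = e' s) : du n u e p t = du n u e' p t := by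
  unfold du
  rw [tu_congr n u p h]

theorem prof_congr {e e' : ℕ → Bool} {t : ℕ} (h : ∀ s < t, e s = e' s) :
    prof e t = prof e' t := by
  induction t with
  | zero => rfl
  | succ t ih =>
    show (fun h => stp (e t) (prof e t) h + 1) = (fun h => stp (e' t) (prof e' t) h + 1)
    rw [ih fun s hs => h s (by omega), h t (by omega)]

theorem prof_nonneg (e : ℕ → Bool) (t h : ℕ) : 0 ≤ prof e t h := by
  induction t generalizing h with
  | zero => exact zero_le_one
  | succ t ih =>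
    show 0 ≤ stp (e t) (prof e t) h + 1
    have h1 := ih h
    have h2 := ih (h + 1)
    have h3 := ih (h - 1)
    unfold stp
    split_ifs <;> linarith

theorem DW_nonneg (e : ℕ → Bool) (σ R α : ℕ) : 0 ≤ DW e σ R α := by
  unfold DW
  have := prof_nonneg (fun s => e (σ + s)) (α - 1 - σ) 2
  positivity

theorem DW_congr {e e' : ℕ → Bool} (σ R : ℕ) {α : ℕ} (h : ∀ s < α, e s = e' s) :
    DW e σ R α = DW e' σ R α := by
  unfold DW
  rw [prof_congr (e := fun s => e (σ + s)) (e' := fun s => e' (σ + s))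
    fun s hs => h _ (by omega)]

theorem GC_mono {K t t' : ℕ} {c : ℕ → Bool} (h : t ≤ t') (hc : GC K t' c) : GC K t c :=
  fun s w hsw => hc s w (by omega)

theorem Win_congr {K : ℕ} {e e' : ℕ → Bool} {t : ℕ} (h : ∀ s < t, e s = e' s)
    (hw : Win K e t) : Win K e' t := by
  intro t' h1 h2
  obtain ⟨⟨s, a1, a2, a3⟩, s', b1, b2, b3⟩ := hw t' h1 h2
  refine ⟨⟨s, a1, a2, ?_⟩, s', b1, b2, ?_⟩
  · rw [← a3]
    exact (WW_congr fun r hr => h r (by omega)).symm
  · rw [← b3]
    exact (WW_congr fun r hr => h r (by omega)).symm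

/-- the decision of the `(β + 1)`-st element of `S` -/
theorem exists_L (S : Finset ℕ) (t0 Λ β : ℕ) (hS : ∀ s ∈ S, t0 ≤ s ∧ s < t0 + Λ)
    (hc : β < S.card) : ∃ L, 0 < L ∧ L ≤ Λ ∧ t0 + L - 1 ∈ S ∧
      (S.filter fun s => s < t0 + L).card = β + 1 := by
  classical
  have hex : ∃ l, β + 1 ≤ (S.filter fun s => s < t0 + l).card := by
    refine ⟨Λ, ?_⟩
    rw [filter_true_of_mem fun s hs => (hS s hs).2]
    omega
  have h1 := Nat.find_spec hex
  have h2 : ∀ l < Nat.find hex, ¬ β + 1 ≤ (S.filter fun s => s < t0 + l).card :=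
    fun l hl => Nat.find_min hex hl
  set L := Nat.find hex with hL
  have h0 : 0 < L := by
    rcases Nat.eq_zero_or_pos L with h | h
    · rw [h, filter_false_of_mem fun s hs => by have := (hS s hs).1; omega] at h1
      simp at h1
    · exact h
  have h3 := h2 (L - 1) (by omega)
  have h4 : (S.filter fun s => s < t0 + L) ⊆
      insert (t0 + L - 1) (S.filter fun s => s < t0 + (L - 1)) := by
    intro s hs
    rw [mem_filter] at hs
    rw [mem_insert, mem_filter]
    by_cases h : s = t0 + L - 1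
    · exact Or.inl h
    · exact Or.inr ⟨hs.1, by omega⟩
  have h5 := card_le_card h4
  have h6 := card_insert_le (t0 + L - 1) (S.filter fun s => s < t0 + (L - 1))
  refine ⟨L, h0, ?_, ?_, by omega⟩
  · refine Nat.find_min' hex ?_
    rw [filter_true_of_mem fun s hs => (hS s hs).2]
    omega
  · by_contra hmem
    have h7 : (S.filter fun s => s < t0 + L) ⊆ (S.filter fun s => s < t0 + (L - 1)) := by
      intro s hs
      have := h4 hs
      rw [mem_insert] at this
      rcases this with h | h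
      · rw [mem_filter] at hs
        rw [h] at hs
        exact absurd hs.1 hmem
      · exact h
    have := card_le_card h7
    omega

/-- the path is not changed by the mask -/
theorem mask_ee (hM : S_MASK) (h0 : S_MSK0) {n T k K t0 : ℕ} (hn : 12 ≤ n) (x₀ : XX n T)
    (hx₀ : x₀.1.1 = (-1, -1)) (ω : Fin k → XX n T) (I : Finset (Fin k))
    (hI : ∀ z ∈ I, ∀ s < t0, ¬ Rel K s (PD n (uu ω) (ee K ω) (pp ω) s z)) (s : ℕ) (hs : s < t0) :
    ee K ω s = ee K (fun z => if z ∈ I then x₀ else ω z) s := by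
  set ω' : Fin k → XX n T := fun z => if z ∈ I then x₀ else ω z with hω'
  have h1 := hM n K k t0 (fun s z => uu ω z s) (fun s z => uu ω' z s) (pp ω) (pp ω') (by omega)
    (fun z => ⟨(ω z).1.2, (ω' z).1.2⟩) (by
      intro z
      by_cases hz : z ∈ I
      · right
        refine ⟨fun s hs => hI z hz s hs, fun e s => ?_⟩
        have h2 : pp ω' z = (-1, -1) := by
          show (ω' z).1.1 = (-1, -1)
          rw [hω']
          simp only [if_pos hz]
          exact hx₀
        rw [h2]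
        exact h0 n K _ e s hn
      · left
        have h2 : ω' z = ω z := by
          rw [hω']
          simp only [if_neg hz]
        refine ⟨fun s => ?_, ?_⟩
        · show ext12 (ω z).2 s = ext12 (ω' z).2 s
          rw [h2]
        · show (ω z).1.1 = (ω' z).1.1
          rw [h2]) (s + 1) (by omega)
  show (xs n K k).out (playn n (xs n K k) (fun s z => uu ω z s) (pp ω) (s + 1)).1 =
    (xs n K k).out (playn n (xs n K k) (fun s z => uu ω' z s) (pp ω') (s + 1)).1
  rw [h1]

open Classical in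
/-- counting in `XX n T` -/
theorem nc_cnt {n T : ℕ} (P : ℤ × ℤ → (ℕ → Fin 12) → Prop) :
    PdxL.nc (fun y : XX n T => P y.1.1 (ext12 y.2)) = cnt n T P := by
  rw [PdxL.nc_eq]
  unfold cnt
  refine card_bij (fun y _ => (y.1.1, y.2)) ?_ ?_ ?_
  · intro y hy
    rw [mem_filter] at hy ⊢
    exact ⟨mem_product.2 ⟨y.1.2, mem_univ _⟩, hy.2⟩
  · intro y _ y' _ h
    simp only [Prod.mk.injEq] at h
    exact Prod.ext (Subtype.ext h.1) h.2
  · intro x hx
    rw [mem_filter] at hx
    exact ⟨(⟨x.1, (mem_product.1 hx.1).1⟩, x.2), mem_filter.2 ⟨mem_univ _, hx.2⟩, rfl⟩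

theorem card_XX (hB : S_BX) {n T : ℕ} (hn : 3 ≤ n) :
    (Fintype.card (XX n T) : ℝ) = (n : ℝ) ^ 2 * 12 ^ T := by
  have h1 : Fintype.card (XX n T) = n ^ 2 * 12 ^ T := by
    rw [Fintype.card_prod, Fintype.card_coe, (hB n hn).1, Fintype.card_fun, Fintype.card_fin,
      Fintype.card_fin]
  rw [h1]
  push_cast
  ring

/-- facts on the outcomes without failure before the epoch `j` -/
theorem facts (hdet : S_DET) (hstr : S_STR) {n T k K j : ℕ} (hBig : Big n K)
    (hT : (j + 1) * Lam K ≤ T) {ω : Fin k → XX n T} (hpre : Pre K ω j) :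
    (∀ z, pp ω z ∈ Boxn n ∧ (D3 K : ℤ) < L1 (pp ω z)) ∧
    Desc n K (PD n (uu ω) (ee K ω) (pp ω)) (ee K ω) ∧
    Gd K n (uu ω) (ee K ω) (pp ω) j := by
  obtain ⟨h1, h2, h3, h4⟩ := hpre
  have h5 : ∀ z, pp ω z ∈ Boxn n ∧ (D3 K : ℤ) < L1 (pp ω z) := fun z => ⟨(ω z).1.2, h2 z⟩
  have h6 : Desc n K (PD n (uu ω) (ee K ω) (pp ω)) (ee K ω) :=
    hstr n K k (fun s z => uu ω z s) (pp ω)
  refine ⟨h5, h6, hdet n K k j (uu ω) (ee K ω) (pp ω) hBig h5 (fun z => GC_mono ?_ (h1 z)) h6 h3
    h4⟩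
  have : j * Lam K ≤ (j + 1) * Lam K := Nat.mul_le_mul_right _ (by omega)
  omega

theorem pdB_nonneg (K k : ℕ) {x : ℝ} (M : ℝ) : 0 ≤ pdB K k x M := by
  unfold pdB
  positivity

end PduL

end Pool.Agent.Helper57K9.XZ
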