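import Pool.Agent.Helper57K9.XZ.MskA
import Pool.Agent.Helper57K9.XZ.DetA

/-!
# Zombies on the torus: all zombies are absorbed
-/

set_option autoImplicit false

namespace Pool.Agent.Helper57K9.XZ

open Finset Pool.Agent.Helper5K9.ZN

namespace PeL

variable {n T k : ℕ}

open Classical in
/-- additional coins -/
theorem card_coins (T₁ r : ℕ) (Q : (ℕ → Fin 12) → Prop)
    (hQ : ∀ u u' : ℕ → Fin 12, (∀ s < T₁, u s = u' s) → (Q u ↔ Q u')) :
    (univ.filter fun v : Fin (T₁ + r) → Fin 12 => Q (ext12 v)).card ≤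
      (univ.filter fun v : Fin T₁ → Fin 12 => Q (ext12 v)).card * 12 ^ r := by
  have h1 : (univ.filter fun v : Fin (T₁ + r) → Fin 12 => Q (ext12 v)).card ≤
      ((univ.filter fun v : Fin T₁ → Fin 12 => Q (ext12 v)) ×ˢ
        (univ : Finset (Fin r → Fin 12))).card := by
    apply card_le_card_of_injOn
      (fun v => ((fun i => v (Fin.castAdd r i) : Fin T₁ → Fin 12),
        (fun j => v (Fin.natAdd T₁ j) : Fin r → Fin 12)))
    · intro v hv
      rw [mem_coe, mem_filter] at hv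
      rw [mem_coe, mem_product, mem_filter]
      refine ⟨⟨mem_univ _, ?_⟩, mem_univ _⟩
      rw [hQ _ (ext12 v) ?_]
      · exact hv.2
      · intro s hs
        unfold ext12
        rw [dif_pos hs, dif_pos (show s < T₁ + r by omega)]
        rfl
    · intro v _ v' _ h
      have h1 := congrArg Prod.fst h
      have h2 := congrArg Prod.snd h
      simp only at h1 h2
      funext i
      refine Fin.addCases (fun i => congrFun h1 i) (fun j => congrFun h2 j) i
  rw [card_product, card_univ, Fintype.card_fun, Fintype.card_fin, Fintype.card_fin] at h1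
  exact h1

open Classical in
/-- `ABP` for random starting points and more coins -/
theorem abs_count (hA : ∀ (e : ℕ → Bool) (p : ℤ × ℤ) (T₁ : ℕ), n ^ 10 ≤ T₁ → p ∈ Boxn n →
      ∀ R, 1000 * (R + 1) ≤ n → Tube R e T₁ →
      (univ.filter fun u : Fin T₁ → Fin 12 => ¬ Absn n (du n (ext12 u) e p (T₁ - 1))).card * n ^ 10 ≤
        12 ^ T₁) (hn : 3 ≤ n) (R : ℕ) (hR : 1000 * (R + 1) ≤ n) (e : ℕ → Bool) (T' r : ℕ)
    (hT : n ^ 10 ≤ T' + 1) (he : Tube R e (T' + 1)) :
    (univ.filter fun x : XX n (T' + 1 + r) =>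
      ¬ Absn n (du n (ext12 x.2) e x.1.1 T')).card * n ^ 10 ≤ n ^ 2 * 12 ^ (T' + 1 + r) := by
  have h1 : (univ.filter fun x : XX n (T' + 1 + r) =>
      ¬ Absn n (du n (ext12 x.2) e x.1.1 T')).card =
      ∑ q : {q : ℤ × ℤ // q ∈ Boxn n}, (univ.filter fun v : Fin (T' + 1 + r) → Fin 12 =>
        ¬ Absn n (du n (ext12 v) e q.1 T')).card := by
    rw [card_filter, Fintype.sum_prod_type]
    exact sum_congr rfl fun q _ => (card_filter _ _).symm
  rw [h1, sum_mul]
  have h2 : ∀ q : {q : ℤ × ℤ // q ∈ Boxn n}, (univ.filter fun v : Fin (T' + 1 + r) → Fin 12 =>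
        ¬ Absn n (du n (ext12 v) e q.1 T')).card * n ^ 10 ≤ 12 ^ (T' + 1 + r) := by
    intro q
    have h3 : (univ.filter fun v : Fin (T' + 1 + r) → Fin 12 =>
        ¬ Absn n (du n (ext12 v) e q.1 T')).card ≤
        (univ.filter fun v : Fin (T' + 1) → Fin 12 =>
          ¬ Absn n (du n (ext12 v) e q.1 T')).card * 12 ^ r := by
      convert card_coins (T' + 1) r (fun u => ¬ Absn n (du n u e q.1 T')) (by
        intro u u' huu
        have : du n u e q.1 T' = du n u' e q.1 T' :=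
          OccL.du_congr e q.1 fun s hs => huu s (by omega)
        rw [this])
    have h4 := hA e q.1 (T' + 1) hT q.2 R hR he
    rw [Nat.add_sub_cancel] at h4
    calc _ ≤ ((univ.filter fun v : Fin (T' + 1) → Fin 12 =>
          ¬ Absn n (du n (ext12 v) e q.1 T')).card * 12 ^ r) * n ^ 10 :=
          Nat.mul_le_mul_right _ h3
      _ = ((univ.filter fun v : Fin (T' + 1) → Fin 12 =>
          ¬ Absn n (du n (ext12 v) e q.1 T')).card * n ^ 10) * 12 ^ r := by ring
      _ ≤ 12 ^ (T' + 1) * 12 ^ r := Nat.mul_le_mul_right _ h4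
      _ = 12 ^ (T' + 1 + r) := by rw [← pow_add]
  refine (sum_le_sum fun q _ => h2 q).trans (le_of_eq ?_)
  rw [sum_const, card_univ, Fintype.card_coe, (bx n hn).1, smul_eq_mul]

theorem L1_anti (hP : S_PLA) (hn : 12 ≤ n) {u : ℕ → Fin 12} {e : ℕ → Bool} {p : ℤ × ℤ}
    (hp : p ∈ Boxn n) {s t : ℕ} (hst : s ≤ t) : L1 (du n u e p t) ≤ L1 (du n u e p s) := by
  induction t, hst using Nat.le_induction with
  | base => exact le_rfl
  | succ t _ ih => exact ((hP n u e p t hn hp).2.1).trans ih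

end PeL

theorem pe (hM : S_MASK) (h0 : S_MSK0) (hF : S_FAC) (hA : S_ABP) (hX : S_XIT) (hP : S_PLA) :
    S_PE := by
  classical
  obtain ⟨n₀, hA⟩ := hA
  refine ⟨n₀, ?_⟩
  intro n K k T hn0 hB hT
  have hFq := UpL.Fq_ge K
  have hLam := UpL.Lam_eq K
  have hD2 : D2 K = 2000 * Lam K := rfl
  have hLR : Lam K = 8 * RR K := rfl
  unfold Big at hB
  have hRpos : 0 < RR K := by omega
  have hn12 : 12 ≤ n := by omega
  have hn3 : 3 ≤ n := by omega
  obtain ⟨r, hr⟩ : ∃ r, r = 4 * D2 K := ⟨_, rfl⟩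
  obtain ⟨T', rfl⟩ : ∃ T', T = T' + 1 + r := ⟨T - 1 - r, by omega⟩
  have hT1 : n ^ 10 ≤ T' + 1 := by omega
  obtain ⟨R, hR⟩ : ∃ R, R = RR K := ⟨_, rfl⟩
  -- the count for one zombie
  have key : ∀ z : Fin k, (univ.filter fun ω : Fin k → XX n (T' + 1 + r) =>
      Tube R (ee K (MskL.mk hn3 {z} ω)) (T' + 1) ∧
      ¬ Absn n (du n (ext12 (ω z).2) (ee K (MskL.mk hn3 {z} ω)) (ω z).1.1 T')).card * n ^ 10 ≤
      (n ^ 2 * 12 ^ (T' + 1 + r)) ^ k := by
    intro z
    have h1 := hF (XX n (T' + 1 + r)) k 1 (fun _ => z) (fun i j _ => Subsingleton.elim i j)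
      (fun ω => Tube R (ee K (MskL.mk hn3 {z} ω)) (T' + 1))
      (fun ω _ x => ¬ Absn n (du n (ext12 x.2) (ee K (MskL.mk hn3 {z} ω)) x.1.1 T'))
      (by
        intro ω ω' h
        have h2 : MskL.mk hn3 {z} ω = MskL.mk hn3 {z} ω' := MskL.mk_congr hn3 fun i hi =>
          h i fun _ hz => hi (by rw [mem_singleton]; exact hz.symm)
        rw [h2]
        exact ⟨Iff.rfl, fun _ _ => Iff.rfl⟩)
    rw [MskL.fcard hn3, pow_one] at h1
    have h2 : ((univ.filter fun ω : Fin k → XX n (T' + 1 + r) =>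
        Tube R (ee K (MskL.mk hn3 {z} ω)) (T' + 1) ∧
        ∀ _ : Fin 1, ¬ Absn n (du n (ext12 (ω z).2) (ee K (MskL.mk hn3 {z} ω)) (ω z).1.1 T')).card *
          (n ^ 2 * 12 ^ (T' + 1 + r))) * n ^ 10 ≤
        (n ^ 2 * 12 ^ (T' + 1 + r)) ^ k * (n ^ 2 * 12 ^ (T' + 1 + r)) := by
      have h1' : (univ.filter fun ω : Fin k → XX n (T' + 1 + r) =>
          Tube R (ee K (MskL.mk hn3 {z} ω)) (T' + 1) ∧
          ∀ _ : Fin 1, ¬ Absn n (du n (ext12 (ω z).2) (ee K (MskL.mk hn3 {z} ω)) (ω z).1.1 T')).card *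
            (n ^ 2 * 12 ^ (T' + 1 + r)) = ∑ ω : Fin k → XX n (T' + 1 + r),
          if Tube R (ee K (MskL.mk hn3 {z} ω)) (T' + 1) then
            ∏ _j : Fin 1, (univ.filter fun x : XX n (T' + 1 + r) =>
              ¬ Absn n (du n (ext12 x.2) (ee K (MskL.mk hn3 {z} ω)) x.1.1 T')).card else 0 := by
        convert h1
      rw [h1', sum_mul]
      refine (sum_le_sum (g := fun _ => n ^ 2 * 12 ^ (T' + 1 + r)) ?_).trans (le_of_eq ?_)
      · intro ω _
        split_ifs with h3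
        · rw [Fin.prod_univ_one]
          exact PeL.abs_count (fun e p T₁ a1 a2 R a3 a4 => hA n R T₁ e p hn0 a3 a1 a4 a2) hn3 R
            (by omega) _ T' r hT1 h3
        · rw [zero_mul]; exact Nat.zero_le _
      · rw [sum_const, card_univ, smul_eq_mul, Fintype.card_fun, Fintype.card_fin, MskL.fcard hn3]
    have h3 : 0 < n ^ 2 * 12 ^ (T' + 1 + r) := by positivity
    have h4 : (univ.filter fun ω : Fin k → XX n (T' + 1 + r) =>
        Tube R (ee K (MskL.mk hn3 {z} ω)) (T' + 1) ∧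
        ¬ Absn n (du n (ext12 (ω z).2) (ee K (MskL.mk hn3 {z} ω)) (ω z).1.1 T')) =
        (univ.filter fun ω : Fin k → XX n (T' + 1 + r) =>
        Tube R (ee K (MskL.mk hn3 {z} ω)) (T' + 1) ∧
        ∀ _ : Fin 1, ¬ Absn n (du n (ext12 (ω z).2) (ee K (MskL.mk hn3 {z} ω)) (ω z).1.1 T')) := by
      ext ω
      simp only [mem_filter, mem_univ, true_and, forall_const]
    rw [h4]
    refine Nat.le_of_mul_le_mul_right ?_ h3
    calc _ = _ := by ring
      _ ≤ _ := h2
  -- the union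
  have hsub : (univ.filter fun ω : Fin k → XX n (T' + 1 + r) => EA K ω ∧
      Tube (RR K) (ee K ω) (T' + 1 + r - 1) ∧
      (∀ t < T' + 1 + r, ∀ z, PD n (uu ω) (ee K ω) (pp ω) t z ≠ 0) ∧
      ∃ z, ¬ Absn n (PD n (uu ω) (ee K ω) (pp ω) (T' + 1 + r - 1) z)) ⊆
      univ.biUnion fun z : Fin k => (univ.filter fun ω : Fin k → XX n (T' + 1 + r) =>
      Tube R (ee K (MskL.mk hn3 {z} ω)) (T' + 1) ∧
      ¬ Absn n (du n (ext12 (ω z).2) (ee K (MskL.mk hn3 {z} ω)) (ω z).1.1 T')) := by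
    intro ω hω
    rw [mem_filter] at hω
    obtain ⟨-, -, hTube, -, z, hz⟩ := hω
    rw [mem_biUnion]
    refine ⟨z, mem_univ z, ?_⟩
    rw [mem_filter]
    have hfar : ∀ s ≤ T', (D2 K : ℤ) < L1 (PD n (uu ω) (ee K ω) (pp ω) s z) := by
      intro s hs
      by_contra hcon
      push Not at hcon
      apply hz
      have hL1 : L1 (du n (uu ω z) (ee K ω) (pp ω z) s) ≤ D2 K := hcon
      have h1 := hX n (RR K) (uu ω z) (ee K ω) (pp ω z) s (T' + 1 + r - 1) hn12 (ω z).1.2 hTube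
        (by omega) (by omega)
      have h2 := PeL.L1_anti hP hn12 (u := uu ω z) (e := ee K ω) (ω z).1.2
        (show s ≤ T' + 1 + r - 1 by omega)
      have h3 : L1 (du n (uu ω z) (ee K ω) (pp ω z) (T' + 1 + r - 1)) ≤ D2 K := h2.trans hL1
      unfold Fr at h1
      push Not at h1
      exact ⟨h1.1, h1.2, by change 2 * L1 (du n (uu ω z) (ee K ω) (pp ω z) (T' + 1 + r - 1)) + 3 ≤ _; omega⟩
    have hpath := MskL.path_eq hM h0 hn12 K (T' + 1) {z} ω (by
      intro z' hz' s hs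
      rw [mem_singleton] at hz'
      subst hz'
      exact MskL.not_rel (hfar s (by omega)))
    refine ⟨mem_univ _, ?_, ?_⟩
    · rw [← MskL.Tube_e hpath, hR]
      exact fun s hs => hTube s (by omega)
    · rw [← MskL.du_e (ω z).1.1 fun s hs => hpath s (by omega)]
      intro h1
      apply hz
      exact DetL.absn_from hn3 (show T' ≤ T' + 1 + r - 1 by omega) h1
  -- conclusion
  have hfin := (card_le_card hsub).trans card_biUnion_le
  have h5 : ((univ.filter fun ω : Fin k → XX n (T' + 1 + r) => EA K ω ∧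
      Tube (RR K) (ee K ω) (T' + 1 + r - 1) ∧
      (∀ t < T' + 1 + r, ∀ z, PD n (uu ω) (ee K ω) (pp ω) t z ≠ 0) ∧
      ∃ z, ¬ Absn n (PD n (uu ω) (ee K ω) (pp ω) (T' + 1 + r - 1) z)).card) * n ^ 10 ≤
      k * (n ^ 2 * 12 ^ (T' + 1 + r)) ^ k := by
    refine (Nat.mul_le_mul_right _ hfin).trans ?_
    rw [sum_mul]
    refine (sum_le_sum fun z _ => key z).trans (le_of_eq ?_)
    rw [sum_const, card_univ, Fintype.card_fin, smul_eq_mul]
  have hnR : (0 : ℝ) < (n : ℝ) ^ 10 := by positivity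
  rw [mul_div_assoc', le_div_iff₀ hnR]
  have h6 := (Nat.cast_le (α := ℝ)).2 h5
  push_cast at h6
  linarith

end Pool.Agent.Helper57K9.XZ
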