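import Pool.Agent.Helper57K9.XZ.Sph
import Pool.Agent.Helper57K9.XZ.Nvx

/-!
# SBL: lemmas on one zombie (helper5)
-/

set_option autoImplicit false

namespace Pool.Agent.Helper57K9.XZ

open Finset Pool.Agent.Helper5K9.ZN

namespace SblL

open FarL SphL

theorem mono (hP : S_PLA) (n : ℕ) (u : ℕ → Fin 12) (e : ℕ → Bool) (p : ℤ × ℤ) (hn : 12 ≤ n)
    (hp : p ∈ Boxn n) {s t : ℕ} (hst : s ≤ t) : L1 (du n u e p t) ≤ L1 (du n u e p s) := by
  induction t, hst using Nat.le_induction with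
  | base => exact le_refl _
  | succ t _ ih => exact ((hP n u e p t hn hp).2.1).trans ih

theorem drop' (hP : S_PLA) (n : ℕ) (u : ℕ → Fin 12) (e : ℕ → Bool) (p : ℤ × ℤ) (hn : 12 ≤ n)
    (hp : p ∈ Boxn n) {s t : ℕ} (hst : s ≤ t) :
    L1 (du n u e p s) ≤ L1 (du n u e p t) + 2 * ((t : ℤ) - s) := by
  obtain ⟨m, rfl⟩ := Nat.exists_eq_add_of_le hst
  have := NvxL.drop hP n u e p hn hp s m
  push_cast
  linarith

/-- the positions before and after the move -/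
theorem tu_abs (n : ℕ) (u : ℕ → Fin 12) (e : ℕ → Bool) (p : ℤ × ℤ) (t : ℕ) (hn : 12 ≤ n)
    (hp : p ∈ Boxn n) (hs : 4 * L1 (du n u e p t) + 8 ≤ n) :
    LB (L1 (du n u e p t) + 1) (tu n u e p t) ∧
    (du n u e p t).1 ≤ 0 ∧ (tu n u e p t).1 ≤ (du n u e p t).1 ∨
    LB (L1 (du n u e p t) + 1) (tu n u e p t) ∧
    0 ≤ (du n u e p t).1 ∧ (du n u e p t).1 ≤ (tu n u e p t).1 := by
  have hb := tu_bx (by omega) u e hp t
  have hd : LB (L1 (du n u e p t)) (du n u e p t) := (LB_iff _ _).mpr (le_refl _)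
  have hz := zu_any n (u t) (tu n u e p t)
  change ZA n _ _ (du n u e p t).1 (du n u e p t).2 at hz
  generalize L1 (du n u e p t) = B at *
  unfold LB at hd ⊢
  unfold ZA TwU at hz
  unfold BxI at hb
  omega

theorem tu_abs2 (n : ℕ) (u : ℕ → Fin 12) (e : ℕ → Bool) (p : ℤ × ℤ) (t : ℕ) (hn : 12 ≤ n)
    (hp : p ∈ Boxn n) (hs : 4 * L1 (du n u e p t) + 8 ≤ n) :
    (du n u e p t).2 ≤ 0 ∧ (tu n u e p t).2 ≤ (du n u e p t).2 ∨
    0 ≤ (du n u e p t).2 ∧ (du n u e p t).2 ≤ (tu n u e p t).2 := by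
  have hb := tu_bx (by omega) u e hp t
  have hd : LB (L1 (du n u e p t)) (du n u e p t) := (LB_iff _ _).mpr (le_refl _)
  have hz := zu_any n (u t) (tu n u e p t)
  change ZA n _ _ (du n u e p t).1 (du n u e p t).2 at hz
  generalize L1 (du n u e p t) = B at *
  unfold LB at hd
  unfold ZA TwU at hz
  unfold BxI at hb
  omega

/-- a coordinate of absolute value at least `A` at the decision -/
theorem far_tu (n : ℕ) (u : ℕ → Fin 12) (e : ℕ → Bool) (p : ℤ × ℤ) (t : ℕ) (A : ℤ) (hn : 12 ≤ n)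
    (hp : p ∈ Boxn n) (hs : 4 * L1 (du n u e p t) + 8 ≤ n)
    (hA : A ≤ |(du n u e p t).1| ∨ A ≤ |(du n u e p t).2|) :
    A ≤ |(tu n u e p t).1| ∨ A ≤ |(tu n u e p t).2| := by
  have h1 := tu_abs n u e p t hn hp hs
  have h2 := tu_abs2 n u e p t hn hp hs
  rcases hA with hA | hA
  · left
    rcases h1 with h1 | h1
    · rw [abs_of_nonpos h1.2.1] at hA
      rw [abs_of_nonpos (h1.2.2.trans h1.2.1)]
      linarith [h1.2.2]
    · rw [abs_of_nonneg h1.2.1] at hA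
      rw [abs_of_nonneg (h1.2.1.trans h1.2.2)]
      linarith [h1.2.2]
  · right
    rcases h2 with h2 | h2
    · rw [abs_of_nonpos h2.1] at hA
      rw [abs_of_nonpos (h2.2.trans h2.1)]
      linarith [h2.2]
    · rw [abs_of_nonneg h2.1] at hA
      rw [abs_of_nonneg (h2.1.trans h2.2)]
      linarith [h2.2]

theorem far_of_L1 (q : ℤ × ℤ) (A : ℤ) (h : 2 * A ≤ L1 q) : A ≤ |q.1| ∨ A ≤ |q.2| := by
  unfold L1 at h
  by_contra hc
  push Not at hc
  linarith [hc.1, hc.2]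

/-- the survivor cannot be adjacent after a move if nobody was relevant -/
theorem harmless_tu {n K : ℕ} (hn : 12 ≤ n) (u : ℕ → Fin 12) (e : ℕ → Bool) (p : ℤ × ℤ)
    (hp : p ∈ Boxn n) (t : ℕ) (hq : Harmless K (du n u e p t)) : 2 ≤ L1 (tu n u e p (t + 1)) := by
  have hb := du_bx (by omega) u e hp t
  obtain ⟨h0, -, h2⟩ := hq
  have h0' : ¬ ((du n u e p t).1 = 0 ∧ (du n u e p t).2 = 0) := fun h => h0 (Prod.ext h.1 h.2)
  have h2' : ¬ (Fr (du n u e p t) ∧ LB 2 (du n u e p t)) := by rw [LB_iff]; exact h2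
  have hs := smg_lin n (e t) (du n u e p t) hb.1.2 hb.2.2
  change SM n _ _ _ (tu n u e p (t + 1)).1 (tu n u e p (t + 1)).2 at hs
  have s2 := sgn_cs (e t)
  by_contra hcon
  have hcon' : LB 1 (tu n u e p (t + 1)) := by rw [LB_iff]; omega
  unfold LB Fr at *
  unfold SM at hs
  unfold BxI at hb
  omega

/-- one round of a zombie behind the survivor -/
theorem behind_step {n : ℕ} (hn : 12 ≤ n) (u : ℕ → Fin 12) (e : ℕ → Bool) (p : ℤ × ℤ)
    (hp : p ∈ Boxn n) (t : ℕ) (hs : 4 * L1 (du n u e p t) + 8 ≤ n) (h1 : ¬ Fr (du n u e p t))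
    (h2 : du n u e p t ≠ 0) : du n u e p (t + 1) ≠ 0 := by
  have hb := du_bx (by omega) u e hp t
  have hd : LB (L1 (du n u e p t)) (du n u e p t) := (LB_iff _ _).mpr (le_refl _)
  obtain ⟨x, y, h3, h4⟩ := any_step (by omega) u e hp t
  have h2' : ¬ ((du n u e p t).1 = 0 ∧ (du n u e p t).2 = 0) := fun h => h2 (Prod.ext h.1 h.2)
  intro hcon
  have c1 : (du n u e p (t + 1)).1 = 0 := by rw [hcon]; rfl
  have c2 : (du n u e p (t + 1)).2 = 0 := by rw [hcon]; rfl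
  rw [c1, c2] at h4
  have s2 := sgn_cs (e t)
  generalize L1 (du n u e p t) = B at *
  unfold LB at hd
  unfold Fr at h1
  unfold SM at h3
  unfold ZA TwU at h4
  unfold BxI at hb
  omega

end SblL

end Pool.Agent.Helper57K9.XZ
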