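import Pool.Agent.Helper57K9.XZ.SblA

/-!
# SBL: lemmas on one zombie (helper5)
-/

set_option autoImplicit false

namespace Pool.Agent.Helper57K9.XZ

open Finset Pool.Agent.Helper5K9.ZN

namespace SblL

open FarL SphL

theorem Win.mono {K t t' : ℕ} {e : ℕ → Bool} (h : Win K e t) (ht : t' ≤ t) : Win K e t' :=
  fun s hs hG => h s (hs.trans ht) hG

/-- a zombie in front at `s0` which was not `Viol` one epoch before is not near the origin -/
theorem axisfar (hSID : S_SID) (hPLA : S_PLA) {n K : ℕ} (hbig : Big n K) (u : ℕ → Fin 12)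
    (e : ℕ → Bool) (p : ℤ × ℤ) (hp : p ∈ Boxn n) (s1 : ℕ)
    (hL1 : L1 (du n u e p (s1 + Lam K)) ≤ D2 K + 2 * GG K) (hFr : Fr (du n u e p (s1 + Lam K)))
    (hnv : ¬ Viol K (du n u e p s1)) (hw1 : |WW e s1| ≤ Fq K + 1) (hw0 : |WW e (s1 + Lam K)| ≤ 1)
    (hdv : |WW (bts u) (s1 + 1 + Lam K) - WW (bts u) (s1 + 1)| ≤ (Fq K : ℤ)) :
    10 * (Fe 30 K : ℤ) ≤ |(tu n u e p (s1 + Lam K)).1| ∨
      10 * (Fe 30 K : ℤ) ≤ |(tu n u e p (s1 + Lam K)).2| := by
  obtain ⟨hn, hbl, hlam⟩ := NvxL.big n K hbig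
  have hRR : (RR K : ℤ) = 200 * Fq K := by unfold RR; push_cast; ring
  have hLam : (Lam K : ℤ) = 8 * RR K := by unfold Lam; push_cast; ring
  have hGG : (GG K : ℤ) = 610 * Lam K := by unfold GG; push_cast; ring
  have hD1 : (D1 K : ℤ) = 4 * Lam K := by unfold D1; push_cast; ring
  have hD2 : (D2 K : ℤ) = 2000 * Lam K := by unfold D2; push_cast; ring
  change 10 * (Fq K : ℤ) ≤ _ ∨ 10 * (Fq K : ℤ) ≤ _
  have hbl' : 1000000 * (Lam K : ℤ) ≤ n := by exact_mod_cast hbl
  have hlam' : (1000 : ℤ) ≤ Lam K := by exact_mod_cast hlam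
  clear hbig
  unfold Viol at hnv
  generalize Fq K = F at *
  generalize RR K = r at *
  generalize Lam K = Λ at *
  generalize GG K = G at *
  generalize D1 K = d1 at *
  generalize D2 K = d2 at *
  have hmono := drop' hPLA n u e p hn hp (show s1 ≤ s1 + Λ by omega)
  push_cast at hmono
  have hnear : 4 * L1 (du n u e p (s1 + Λ)) + 8 ≤ n := by omega
  have hnear1 : 4 * L1 (du n u e p s1) + 8 ≤ n := by omega
  have hsid := hSID n u e p s1 (s1 + Λ) hn hp (by omega) hnear1
  have hFr1 : Fr (du n u e p s1) := by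
    by_contra hc
    exact hsid.1 hc hFr
  apply far_tu n u e p _ _ hn hp hnear
  by_cases hd1 : (d1 : ℤ) < |(du n u e p s1).1| ∨ (d1 : ℤ) < |(du n u e p s1).2|
  · apply far_of_L1
    have h6 : (d1 : ℤ) < L1 (du n u e p s1) := by
      unfold L1
      have a1 := abs_nonneg (du n u e p s1).1
      have a2 := abs_nonneg (du n u e p s1).2
      rcases hd1 with hd1 | hd1 <;> linarith
    omega
  · push Not at hd1
    have h7 : 4 * (du n u e p s1).1 ≤ -(r : ℤ) ∨ 4 * (du n u e p s1).2 ≤ -(r : ℤ) := by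
      by_contra hc
      push Not at hc
      exact hnv ⟨hFr1, hd1.1, hd1.2, hc.1, hc.2⟩
    rw [show s1 + 1 + Λ = s1 + Λ + 1 by ring] at hdv
    have a1 := abs_le.mp hw1
    have a2 := abs_le.mp hw0
    have a3 := abs_le.mp hdv
    obtain ⟨-, q2, q3, -, q5, q6⟩ := hsid
    unfold Fr at hFr hFr1
    rcases h7 with h7 | h7
    · -- north side
      have hside : NSide (du n u e p s1) := ⟨by omega, by omega⟩
      have hside0 : NSide (du n u e p (s1 + Λ)) := by
        rcases q3 hside with h | h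
        · exact h
        · exact absurd hFr h
      have := (q6 hside hside0).2.2
      left
      rw [abs_of_nonpos hside0.1]
      omega
    · have hside : ESide (du n u e p s1) := ⟨by omega, by omega⟩
      have hside0 : ESide (du n u e p (s1 + Λ)) := by
        rcases q2 hside with h | h
        · exact h
        · exact absurd hFr h
      have := (q5 hside hside0).2.2
      right
      rw [abs_of_nonpos hside0.2]
      omega

end SblL

end Pool.Agent.Helper57K9.XZ
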