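import Pool.Agent.Helper57K9.XZ.SblB

/-!
# SBL: lemmas on one zombie (helper5)
-/

set_option autoImplicit false

namespace Pool.Agent.Helper57K9.XZ

open Finset Pool.Agent.Helper5K9.ZN

namespace SblL

open FarL SphL

theorem tube_ext {r F s0 s : ℕ} {e : ℕ → Bool} (h : Tube r e s0) (h1 : |WW e s0| ≤ 1)
    (h2 : (F : ℤ) + 1 ≤ r) (hwb : ∀ r ≤ s, |WW e (s0 + r) - WW e s0| ≤ (F : ℤ)) :
    ∀ v ≤ s, Tube r e (s0 + v) := by
  intro v hv w hw
  rcases le_or_gt w s0 with h' | h'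
  · exact h w h'
  · have h3 := hwb (w - s0) (by omega)
    rw [show s0 + (w - s0) = w by omega] at h3
    have a1 := abs_le.mp h3
    have a2 := abs_le.mp h1
    rw [abs_le]
    constructor <;> omega

/-- abstract form: the other zombies are harmless -/
theorem others_abs (hSID : S_SID) (hPLA : S_PLA) {n F r Λ G d2 : ℕ} (hn : 12 ≤ n)
    (hRR : (r : ℤ) = 200 * F) (hLam : (Λ : ℤ) = 8 * r) (hGG : (G : ℤ) = 610 * Λ)
    (hD2 : (d2 : ℤ) = 2000 * Λ) (hbl : 1000000 * (Λ : ℤ) ≤ n) (hF : (1 : ℤ) ≤ F)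
    (u : ℕ → Fin 12) (e : ℕ → Bool) (p : ℤ × ℤ) (hp : p ∈ Boxn n)
    (s0 s : ℕ) (hs : s ≤ 600 * Λ) (hw0 : |WW e s0| ≤ 1)
    (h0 : du n u e p s0 ≠ 0)
    (hno : (∀ s, s0 ≤ s + 2 * G → s ≤ s0 + G → NEp (du n u e p s) → L1 (du n u e p s) ≤ d2 →
      False) ∨ ¬ Fr (du n u e p s0))
    (hNV : ∀ v ≤ s, Fr (du n u e p (s0 + v)) → L1 (du n u e p (s0 + v)) ≤ 20 * Λ →
      (∀ w ≤ s0 + v, s0 + v ≤ w + G → ¬ (NEp (du n u e p w) ∧ L1 (du n u e p w) ≤ d2)) →
      (ESide (du n u e p (s0 + v)) ∧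
        1000 * ((r : ℤ) - WW e (s0 + v)) - r ≤ -2000 * (du n u e p (s0 + v)).2) ∨
      (NSide (du n u e p (s0 + v)) ∧
        1000 * ((r : ℤ) + WW e (s0 + v)) - r ≤ -2000 * (du n u e p (s0 + v)).1))
    (hwb : ∀ r ≤ s, |WW e (s0 + r) - WW e s0| ≤ (F : ℤ)) :
    du n u e p (s0 + s) ≠ 0 ∧
      ¬ (NEp (du n u e p (s0 + s)) ∧ L1 (du n u e p (s0 + s)) ≤ 5 * F) ∧
      ¬ (Fr (du n u e p (s0 + s)) ∧ L1 (du n u e p (s0 + s)) ≤ 2) := by
  have hz : L1 ((0 : ℤ × ℤ)) = 0 := by unfold L1; simp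
  by_cases hnear0 : 4 * L1 (du n u e p s0) + 8 ≤ n
  · rcases hno with hno | hno
    · have key : ∀ r ≤ s, ¬ (Fr (du n u e p (s0 + r)) ∧ L1 (du n u e p (s0 + r)) ≤ 2) := by
        rintro v hv ⟨hf, hl⟩
        have hN := hNV v hv hf (by omega)
          (fun w hw1 hw2 hw3 => hno w (by omega) (by omega) hw3.1 hw3.2)
        have a1 := abs_le.mp (hwb v hv)
        have a2 := abs_le.mp hw0
        have hlb : LB 2 (du n u e p (s0 + v)) := (LB_iff _ _).mpr hl
        clear hNV hwb hno h0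
        unfold LB at hlb
        unfold ESide NSide at hN
        omega
      have hnz : ∀ r ≤ s, du n u e p (s0 + r) ≠ 0 := by
        intro v
        induction v with
        | zero => intro _; exact h0
        | succ v ih =>
          intro hr hc
          have ih' := ih (by omega)
          have hd := (hPLA n u e p (s0 + v) hn hp).2.2.1
          have hc' : du n u e p (s0 + v + 1) = 0 := hc
          rw [hc', hz] at hd
          have hnf : ¬ Fr (du n u e p (s0 + v)) := fun hf => key v (by omega) ⟨hf, by omega⟩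
          exact behind_step hn u e p hp (s0 + v) (by omega) hnf ih' hc'
      refine ⟨hnz s (le_refl _), ?_, key s (le_refl _)⟩
      rintro ⟨hne, hl⟩
      exact hno (s0 + s) (by omega) (by omega) hne (by omega)
    · have hb : ∀ r ≤ s, ¬ Fr (du n u e p (s0 + r)) := fun v _ =>
        (hSID n u e p s0 (s0 + v) hn hp (by omega) hnear0).1 hno
      have hnz : ∀ r ≤ s, du n u e p (s0 + r) ≠ 0 := by
        intro v
        induction v with
        | zero => intro _; exact h0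
        | succ v ih =>
          intro hr
          have hm := mono hPLA n u e p hn hp (show s0 ≤ s0 + v by omega)
          exact behind_step hn u e p hp (s0 + v) (by omega) (hb v (by omega)) (ih (by omega))
      refine ⟨hnz s (le_refl _), ?_, ?_⟩
      · rintro ⟨hne, -⟩
        exact hb s (le_refl _) (Or.inl hne.1)
      · rintro ⟨hf, -⟩
        exact hb s (le_refl _) hf
  · have hd := drop' hPLA n u e p hn hp (show s0 ≤ s0 + s by omega)
    push_cast at hd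
    refine ⟨?_, ?_, ?_⟩
    · intro hc
      rw [hc, hz] at hd
      omega
    · rintro ⟨-, hl⟩; omega
    · rintro ⟨-, hl⟩; omega

theorem consts (K : ℕ) : (RR K : ℤ) = 200 * Fq K ∧ (Lam K : ℤ) = 8 * RR K ∧
    (GG K : ℤ) = 610 * Lam K ∧ (D2 K : ℤ) = 2000 * Lam K ∧ (1 : ℤ) ≤ Fq K := by
  refine ⟨?_, ?_, ?_, ?_, ?_⟩
  · unfold RR; push_cast; ring
  · unfold Lam; push_cast; ring
  · unfold GG; push_cast; ring
  · unfold D2; push_cast; ring
  · rw [NvxL.Fq_eq]; push_cast; linarith [Int.natCast_nonneg K]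

/-- the other zombies are harmless -/
theorem others (hNVX : S_NVX) (hSID : S_SID) (hPLA : S_PLA) {n K : ℕ} (hbig : Big n K)
    (u : ℕ → Fin 12) (e : ℕ → Bool) (p : ℤ × ℤ) (hp : p ∈ Boxn n) (hD3 : (D3 K : ℤ) < L1 p)
    (s0 L : ℕ) (hL : L ≤ 600 * Lam K) (hgc : GC K (s0 + L) (bts u))
    (htube : Tube (RR K) e s0) (hwin : Win K e (s0 + L)) (hw0 : |WW e s0| ≤ 1)
    (h0 : du n u e p s0 ≠ 0)
    (hno : (∀ s, s0 ≤ s + 2 * GG K → s ≤ s0 + GG K → NEp (du n u e p s) → L1 (du n u e p s) ≤ D2 K →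
      False) ∨ ¬ Fr (du n u e p s0)) (s : ℕ) (hs : s < L)
    (hwb : ∀ r ≤ s, |WW e (s0 + r) - WW e s0| ≤ (Fe 30 K : ℤ)) :
    Harmless K (du n u e p (s0 + s)) := by
  obtain ⟨hn, hbl, -⟩ := NvxL.big n K hbig
  obtain ⟨c1, c2, c3, c4, c5⟩ := consts K
  have hbl' : 1000000 * (Lam K : ℤ) ≤ n := by exact_mod_cast hbl
  have h1 : ((Fq K : ℕ) : ℤ) + 1 ≤ RR K := by rw [c1]; linarith
  have htb := tube_ext htube hw0 h1 hwb
  have hgc' : ∀ v ≤ s, GC K (s0 + v + 1) (bts u) := fun v hv a b hab =>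
    hgc a b (hab.trans (by have := hs; have := hv; exact (Nat.add_le_add_left (Nat.succ_le_of_lt (lt_of_le_of_lt hv hs)) s0)))
  exact others_abs hSID hPLA hn c1 c2 c3 c4 hbl' c5 u e p hp s0 s (hs.le.trans hL) hw0 h0 hno
    (fun v hv hf hl hne => hNVX n K (s0 + v) u e p hbig hp (hgc' v hv) hD3 (htb v hv)
      (Win.mono hwin (Nat.add_le_add_left (hv.trans hs.le) s0)) hf hl hne) hwb

end SblL

end Pool.Agent.Helper57K9.XZ
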