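import Pool.Agent.Helper57K9.XZ.Tor

/-!
# Zombies on the torus: statements about one zombie, and the game

All counts are over pairs (starting point, coins) in `Boxn n × (Fin T → Fin 12)`, for a fixed path
`e` of the survivor.
-/

set_option autoImplicit false

namespace Pool.Agent.Helper57K9.XZ

open Finset Pool.Agent.Helper5K9.ZN

open Classical in
/-- the number of pairs (starting point, coins) with the property `P` -/
noncomputable def cnt (n T : ℕ) (P : ℤ × ℤ → (ℕ → Fin 12) → Prop) : ℕ :=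
  ((Boxn n ×ˢ (univ : Finset (Fin T → Fin 12))).filter fun x => P x.1 (ext12 x.2)).card

/-- **BX**: the box -/
def S_BX : Prop := ∀ n : ℕ, 3 ≤ n → (Boxn n).card = n ^ 2 ∧
  ∀ q ∈ Boxn n, (∀ u, zu n u q ∈ Boxn n) ∧ ∀ e, smg n e q ∈ Boxn n

/-- **GAMEN**: the game on `C_n □ C_n` for every `n ≥ 3`; compare `ZN/Game.lean` (`n` odd, coins
`Bool`). New: `zu n u q` for uniform `u : Fin 12` is uniform on the closer neighbours (1, 2, 3 or 4 of
them) of `q ≠ 0`. -/
def S_GAMEN : Prop := ∀ (n k T : ℕ) (S : Strat k), 3 ≤ n →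
  ∀ Good : Finset (Fin k → (ℤ × ℤ) × (Fin T → Fin 12)),
  (∀ x ∈ Good, ∀ z, (x z).1 ∈ Boxn n) →
  (∀ x ∈ Good, ∀ c : ℕ → Fin k → Fin 12, (∀ (z : Fin k) (i : Fin T), c i z = (x z).2 i) →
    ∀ (t : ℕ) (z : Fin k), (playn n S c (fun z => (x z).1) t).2 z ≠ 0 ∧
      zu n (c t z) ((playn n S c (fun z => (x z).1) t).2 z) ≠ 0) →
  (Good.card : ℝ) / ((n : ℝ) ^ 2 * 12 ^ T) ^ k ≤
    Pool.Agent.Helper57K9.Zomb.survivalProb (Pool.Agent.Helper57K9.Zomb.torus n) k

/-- **OCC**: off the axes the uniform measure is superinvariant (every site has at most one horizontal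
and one vertical predecessor, each with probability at most `1/2`; the moves of the survivor are
bijections), so at most one zombie is expected at every site at every turn; at the decision `t` at most
`4` (four neighbours), `5` at the origin (including itself). -/
def S_OCC : Prop := ∀ (n T t : ℕ) (e : ℕ → Bool) (q : ℤ × ℤ), 3 ≤ n → t < T →
  cnt n T (fun p u => FreeN n u e p t ∧ du n u e p t = q) ≤ 5 * 12 ^ T

/-- **CRI** (uses `S_OCC` for the injections at the two ends of the critical shell).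

Proof. In the critical shell (`L1 q = l` at the decisions, `n - 2 ≤ 2 l ≤ n`) let `λ = |q.1|`. A step of
the survivor to the east moves `λ` to `λ` or `λ + 1`, to the north to `λ` or `λ - 1`, with probability at
most `1/2` each (also in the tie positions), killed when leaving `[0, l]`. In the coordinate
`Y = λ - WW e t / 2 + R + 2` this is `± 1/2`. Injection: at most `4` at the sites on an axis (`OCC`), i.e.
`λ = 0` or `λ = l`. With `F Y = A Y - 16 Y²` for `Y ≤ A / 32`, constant for larger `Y`,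
`A = 32 (2 R + 8)` or so, the expected number of zombies of the class C at `q` is at most
`F (λ - WW e t / 2 + R + 2) + F (l - λ + WW e t / 2 + R + 2)`, by induction on `t`. -/
def S_CRI : Prop := ∃ C : ℕ, ∀ (n R T t : ℕ) (e : ℕ → Bool) (q : ℤ × ℤ), 1000 * (R + 1) ≤ n → t < T →
  Tube R e t →
  cnt n T (fun p u => ClassC n u e p t ∧ du n u e p t = q) ≤ C * (R + 1) ^ 2 * 12 ^ T

/-- **FAR** (deterministic): how a zombie can come to `CE`. Let `v` be the first decision with
`OnAx (du v)` (if there is none up to `t`, or `v = t`, we have `FreeN t`). Cases: `du v = (a, 0)` with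
`0 < a`, `2 a < n` (second case): the zombie stays on the east side until it is absorbed (its distance
`H` to the east axis is the reflected walk `Hc`, which stays `≤ n / 8` by `GC` and `Tube`, and
`a + H` decreases by `2` at every move to the east and is constant otherwise, so this lasts less than
`n` rounds; then `Absn`, which is preserved forever). `du v = (0, b)` with `0 < b`, `2 b < n`: the same on the
north side (symmetry), never `CE`. Otherwise `du v` is behind the survivor (or in the tie position): if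
`2 L1 + 3 ≤ n` it is absorbed, else it is in the critical shell, and it stays there (class C) until it
leaves it to the east side at `a + H ≈ n / 2`, `H ≤ 1` (third case) or to the north side (never `CE`). -/
def S_FAR : Prop := ∀ (n R K t : ℕ) (u : ℕ → Fin 12) (e : ℕ → Bool) (p : ℤ × ℤ),
  1000 * (R + K + 1) ≤ n → p ∈ Boxn n → Tube R e t → GC K (t + 1) (bts u) → CE (du n u e p t) →
  FreeN n u e p t ∨
  (∃ v ≤ t, t ≤ v + n ∧ FreeN n u e p v ∧ (du n u e p v).2 = 0 ∧ 0 < (du n u e p v).1 ∧
    ∀ s, v ≤ s → s ≤ t → (du n u e p s).2 = -(Hc (bts u) e v (s - v) : ℤ) ∧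
      (du n u e p s).1 - (du n u e p s).2 = (du n u e p v).1 - 2 * (xE e s - xE e v)) ∨
  ∃ s < t, t ≤ s + n ∧ ClassC n u e p s ∧ (n : ℤ) - 2 ≤ 2 * |(du n u e p s).1| ∧
    (n : ℤ) - 4 ≤ 2 * ((du n u e p (s + 1)).1 - (du n u e p (s + 1)).2) ∧
    2 * ((du n u e p (s + 1)).1 - (du n u e p (s + 1)).2) ≤ (n : ℤ) + 4 ∧
    ∀ r, s + 1 ≤ r → r ≤ t → (du n u e p r).1 - (du n u e p r).2 =
      (du n u e p (s + 1)).1 - (du n u e p (s + 1)).2 - 2 * (xE e r - xE e (s + 1))

/-- **FNE** (deterministic): a zombie north-east of and near the survivor has never been on an axis -/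
def S_FNE : Prop := ∀ (n R K t : ℕ) (u : ℕ → Fin 12) (e : ℕ → Bool) (p : ℤ × ℤ),
  1000 * (R + K + 1) ≤ n → p ∈ Boxn n → Tube R e t → GC K (t + 1) (bts u) →
  0 < (du n u e p t).1 → 0 < (du n u e p t).2 → 8 * L1 (du n u e p t) ≤ (n : ℤ) → FreeN n u e p t

/-- **DXA** (from `OCC`, `CRI`, `FAR`): zombies which block the east at the decision `α` after a step to
the east at `α - 1`.

Proof. `FreeN α`: at most `15` by `OCC`. Second case of `FAR` with `v < α`: `v ≥ σ`;
for given `v` and `du α` the value `(du v).1` is determined, `FreeN v ∧ du v = q` depends on the coins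
up to `v` only and is counted by `5 * 12 ^ T`, and `Hc (bts u) e v (α - 1 - v) ≤ 2` depends on the coins
in `(v, α)`; the sum over `v` of its probability is `prof (e (σ + ·)) (α - 1 - σ) 2`. Third case: there
are at most `100 (R + 1)` possible `s` (because `xE e (s + 1)` is determined by `du α` and
`du (s + 1)`, and the path is in the tube), at most `10` possible `du s`, each with `≤ C (R + 1) ^ 2`. -/
def S_DXA : Prop := ∃ C : ℝ, 0 < C ∧ ∀ (n R K T α σ : ℕ) (e : ℕ → Bool), 1000 * (R + K + 1) ≤ n →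
  1 ≤ α → α < T → Tube R e α → e (α - 1) = true → σ + 1 ≤ α → (σ = 0 ∨ σ + n ≤ α) →
  (cnt n T (fun p u => GC K (α + 1) (bts u) ∧ CE (du n u e p α)) : ℝ) ≤
    C * (1 + prof (fun s => e (σ + s)) (α - 1 - σ) 2 + (R + 1) ^ 3) * 12 ^ T

/-- **DX** (from `DXA`): zombies which block the east during `[α, t]`.

Proof. `DXA` and the coins at `α + 1, ..., t`: if the survivor moves north, `(2, 0)` goes to itself
or to `(1, -1)`, `(1, -1)` stays or leaves `CE`, `(1, 0)` stays or leaves `CE`, with probability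
`1/2` each. -/
def S_DX : Prop := ∃ C : ℝ, 0 < C ∧ ∀ (n R K T α t σ : ℕ) (e : ℕ → Bool), 1000 * (R + K + 1) ≤ n →
  1 ≤ α → α ≤ t → t < T → Tube R e α → e (α - 1) = true → (∀ s, α ≤ s → s < t → e s = false) →
  σ + 1 ≤ α → (σ = 0 ∨ σ + n ≤ α) →
  (cnt n T (fun p u => GC K (α + 1) (bts u) ∧ ∀ s, α ≤ s → s ≤ t → CE (du n u e p s)) : ℝ) ≤
    C * (1 + prof (fun s => e (σ + s)) (α - 1 - σ) 2 + (R + 1) ^ 3) *
      (((t : ℝ) - α + 1) * (1 / 2) ^ (t - α)) * 12 ^ T

/-- the involution of the coins for the symmetry of the two directions -/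
def tau (u : Fin 12) : Fin 12 := if u.1 % 2 = 0 then u + 9 else u + 3

/-- **SWP**: symmetry -/
def S_SWP : Prop := (∀ u, bt (tau u) = !(bt u)) ∧ (∀ u, tau (tau u) = u) ∧
  ∀ (n : ℕ) (u : ℕ → Fin 12) (e : ℕ → Bool) (p : ℤ × ℤ) (t : ℕ), 3 ≤ n →
    tu n (fun s => tau (u s)) (fun s => !(e s)) p.swap t = (tu n u e p t).swap ∧
    du n (fun s => tau (u s)) (fun s => !(e s)) p.swap t = (du n u e p t).swap

/-- **DXN** (from `DX` and `SWP`): zombies which block the north -/
def S_DXN : Prop := ∃ C : ℝ, 0 < C ∧ ∀ (n R K T α t σ : ℕ) (e : ℕ → Bool), 1000 * (R + K + 1) ≤ n →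
  1 ≤ α → α ≤ t → t < T → Tube R e α → e (α - 1) = false → (∀ s, α ≤ s → s < t → e s = true) →
  σ + 1 ≤ α → (σ = 0 ∨ σ + n ≤ α) →
  (cnt n T (fun p u => GC K (α + 1) (bts u) ∧
      ∀ s, α ≤ s → s ≤ t → CE (du n u e p s).swap) : ℝ) ≤
    C * (1 + prof (fun s => !(e (σ + s))) (α - 1 - σ) 2 + (R + 1) ^ 3) *
      (((t : ℝ) - α + 1) * (1 / 2) ^ (t - α)) * 12 ^ T

open Classical in
/-- **GCB** (from `ZN.S_W4`, which is proved in `ZN/Walk4.lean` as `w4`) -/
def S_GCB : Prop := ∀ K T : ℕ,
  ((univ.filter fun u : Fin T → Fin 12 => ¬ GC K T (bts (ext12 u))).card : ℝ) ≤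
    2 * (T + 1) ^ 2 * Real.exp (-(K : ℝ) / 2) * 12 ^ T

open Classical in
/-- **ABP**: after `n ^ 10` rounds a zombie is absorbed, for every fixed path in the tube.

Proof (sketch). From every state, at every time, the probability to be absorbed within `n ^ 4` rounds
is at least `c / n ^ 2` (very crude is enough; iterate `n ^ 6` times). Behind the survivor
(`q.1 ≤ 0`, `q.2 ≤ 0` or ties, not absorbed) `|q.1| - WW e t / 2` is a simple random walk with steps
`± 1/2` given by the base bits, as long as no tie and no wrap around occurs; within `n ^ 3` rounds a tie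
or a wrap around occurs with probability `≥ 1/2` (`S_W2`), and there the zombie gets to the front with
probability `≥ 1/3`. In the front it gets behind the survivor within `4 n` rounds, and with
probability `≥ c / n` it is then absorbed. -/
def S_ABP : Prop := ∃ n₀ : ℕ, ∀ (n R T : ℕ) (e : ℕ → Bool) (p : ℤ × ℤ), n₀ ≤ n →
  1000 * (R + 1) ≤ n → n ^ 10 ≤ T → Tube R e T → p ∈ Boxn n →
  (univ.filter fun u : Fin T → Fin 12 => ¬ Absn n (du n (ext12 u) e p (T - 1))).card * n ^ 10 ≤ 12 ^ T

open Classical in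
/-- **FAC**: factorisation. `A` and `B` do not depend on the coordinates `z j`. -/
def S_FAC : Prop := ∀ (X : Type) [Fintype X] (k m : ℕ) (z : Fin m → Fin k),
  Function.Injective z → ∀ (A : (Fin k → X) → Prop) (B : (Fin k → X) → Fin m → X → Prop),
  (∀ ω ω' : Fin k → X, (∀ i, (∀ j, z j ≠ i) → ω i = ω' i) → (A ω ↔ A ω') ∧
    ∀ j x, B ω j x ↔ B ω' j x) →
  (univ.filter fun ω : Fin k → X => A ω ∧ ∀ j, B ω j (ω (z j))).card * Fintype.card X ^ m =
    ∑ ω : Fin k → X, if A ω then ∏ j, (univ.filter fun x => B ω j x).card else 0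

end Pool.Agent.Helper57K9.XZ
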