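import Pool.Agent.Helper57K9.XZ.Xdef

/-!
# Deterministic statements on the play

`Big n K`: everything near the survivor is planar. All statements are about a path `e` of the survivor
and zombies with coins `u z`, starting points `p z`; `PD n u e p t z` is the position of `z` at the
decision `t`.
-/

set_option autoImplicit false

namespace Pool.Agent.Helper57K9.XZ

open Finset Pool.Agent.Helper5K9.ZN

/-- `n` is large -/
def Big (n K : ℕ) : Prop := 1000000 * Lam K ≤ n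

/-- the move of the survivor in the plane -/
def shp (e : Bool) (q : ℤ × ℤ) : ℤ × ℤ := if e then (q.1 - 1, q.2) else (q.1, q.2 - 1)

/-- **PLA**: near the survivor the dynamics is planar and given by the base bits; the distance to the
survivor at the decisions decreases by `0`, `1` or `2` in each round (everywhere). -/
def S_PLA : Prop := ∀ (n : ℕ) (u : ℕ → Fin 12) (e : ℕ → Bool) (p : ℤ × ℤ) (t : ℕ), 12 ≤ n →
  p ∈ Boxn n →
  (4 * L1 (du n u e p t) + 8 ≤ n →
    tu n u e p (t + 1) = shp (e t) (du n u e p t) ∧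
    du n u e p (t + 1) = zm (bts u (t + 1)) (shp (e t) (du n u e p t))) ∧
  L1 (du n u e p (t + 1)) ≤ L1 (du n u e p t) ∧ L1 (du n u e p t) ≤ L1 (du n u e p (t + 1)) + 2 ∧
  L1 p ≤ L1 (du n u e p 0) + 1

/-- **SID**: near the survivor (near at `s`, hence on `[s, t]`). The sides. -/
def S_SID : Prop := ∀ (n : ℕ) (u : ℕ → Fin 12) (e : ℕ → Bool) (p : ℤ × ℤ) (s t : ℕ), 12 ≤ n →
  p ∈ Boxn n → s ≤ t → 4 * L1 (du n u e p s) + 8 ≤ n →
  (¬ Fr (du n u e p s) → ¬ Fr (du n u e p t)) ∧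
  (ESide (du n u e p s) → ESide (du n u e p t) ∨ ¬ Fr (du n u e p t)) ∧
  (NSide (du n u e p s) → NSide (du n u e p t) ∨ ¬ Fr (du n u e p t)) ∧
  (NEp (du n u e p t) → NEp (du n u e p s) ∧ L1 (du n u e p s) = L1 (du n u e p t) + 2 * (t - s)) ∧
  (ESide (du n u e p s) → ESide (du n u e p t) →
    (∀ r, s ≤ r → r ≤ t → ESide (du n u e p r)) ∧
    L1 (du n u e p t) = L1 (du n u e p s) - 2 * (xE e t - xE e s) ∧
    -2 * (du n u e p s).2 + (WW e s - WW e t) + (WW (bts u) (t + 1) - WW (bts u) (s + 1)) ≤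
      -2 * (du n u e p t).2) ∧
  (NSide (du n u e p s) → NSide (du n u e p t) →
    (∀ r, s ≤ r → r ≤ t → NSide (du n u e p r)) ∧
    L1 (du n u e p t) = L1 (du n u e p s) - 2 * ((t - s) - (xE e t - xE e s)) ∧
    -2 * (du n u e p s).1 - (WW e s - WW e t) - (WW (bts u) (t + 1) - WW (bts u) (s + 1)) ≤
      -2 * (du n u e p t).1)

/-- **NEB**: backwards in the north-east quadrant -/
def S_NEB : Prop := ∀ (n : ℕ) (u : ℕ → Fin 12) (e : ℕ → Bool) (p : ℤ × ℤ) (w t : ℕ), 12 ≤ n →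
  p ∈ Boxn n → w ≤ t → 4 * (L1 (du n u e p t) + 2 * w) + 8 ≤ n → NEp (du n u e p t) →
  NEp (du n u e p (t - w)) ∧ L1 (du n u e p (t - w)) = L1 (du n u e p t) + 2 * w

/-- **XIT**: a zombie near and in front of the survivor is soon behind (`L1` decreases by `2` in the
north-east quadrant in every round, on the east side at every move to the east) -/
def S_XIT : Prop := ∀ (n R : ℕ) (u : ℕ → Fin 12) (e : ℕ → Bool) (p : ℤ × ℤ) (s t : ℕ), 12 ≤ n →
  p ∈ Boxn n → Tube R e t → 4 * L1 (du n u e p s) + 8 ≤ n →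
  (s : ℤ) + L1 (du n u e p s) + 2 * R + 4 ≤ t → ¬ Fr (du n u e p t)

/-- windows of length `GG` up to `t` contain touches -/
def Win (K : ℕ) (e : ℕ → Bool) (t : ℕ) : Prop := ∀ t' ≤ t, GG K ≤ t' →
  (∃ s ≤ t', t' ≤ s + GG K ∧ WW e s = RR K) ∧ ∃ s ≤ t', t' ≤ s + GG K ∧ WW e s = -(RR K : ℤ)

/-- **NVX**: a zombie near and in front of the survivor which was not near in the north-east during the
last `GG` rounds is far off the axis (it was on the same side at the last touch) -/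
def S_NVX : Prop := ∀ (n K t : ℕ) (u : ℕ → Fin 12) (e : ℕ → Bool) (p : ℤ × ℤ), Big n K →
  p ∈ Boxn n → GC K (t + 1) (bts u) → (D3 K : ℤ) < L1 p → Tube (RR K) e t → Win K e t →
  Fr (du n u e p t) → L1 (du n u e p t) ≤ 20 * Lam K →
  (∀ s ≤ t, t ≤ s + GG K → ¬ (NEp (du n u e p s) ∧ L1 (du n u e p s) ≤ D2 K)) →
  (ESide (du n u e p t) ∧ 1000 * ((RR K : ℤ) - WW e t) - RR K ≤ -2000 * (du n u e p t).2) ∨
  (NSide (du n u e p t) ∧ 1000 * ((RR K : ℤ) + WW e t) - RR K ≤ -2000 * (du n u e p t).1)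

variable {k : ℕ}

open Classical in
/-- fewer than 30 zombies in the outer north-east box at the decision `t` -/
def OkC (n K : ℕ) (u : Fin k → ℕ → Fin 12) (e : ℕ → Bool) (p : Fin k → ℤ × ℤ) (t : ℕ) : Prop :=
  (univ.filter fun z : Fin k => NEp (PD n u e p t z) ∧ (D2 K : ℤ) < L1 (PD n u e p t z) ∧
    L1 (PD n u e p t z) ≤ D3 K).card < 30

open Classical in
/-- the special zombies around `t` -/
noncomputable def Spec (n K : ℕ) (u : Fin k → ℕ → Fin 12) (e : ℕ → Bool) (p : Fin k → ℤ × ℤ)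
    (t : ℕ) : Finset (Fin k) :=
  univ.filter fun z : Fin k => ∃ s, t ≤ s + 2 * GG K ∧ s ≤ t + GG K ∧ NEp (PD n u e p s z) ∧
    L1 (PD n u e p s z) ≤ D2 K

/-- **SPC**: fewer than 30 special zombies (they are in the outer box at the decision
`t - 2 GG - D2`; if this is negative there are none) -/
def S_SPC : Prop := ∀ (n K k t : ℕ) (u : Fin k → ℕ → Fin 12) (e : ℕ → Bool) (p : Fin k → ℤ × ℤ),
  Big n K → (∀ z, p z ∈ Boxn n ∧ (D3 K : ℤ) < L1 (p z)) →
  (∀ s, s + 2 * GG K + D2 K = t → OkC n K u e p s) → (Spec n K u e p t).card < 30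

open Classical in
/-- the blocked steps in the run of the epoch `[t0, t0 + Lam)`, even -/
noncomputable def BlkU (K : ℕ) (e : ℕ → Bool) (t0 : ℕ) : Finset ℕ :=
  (Ico t0 (t0 + Lam K)).filter fun t => (∀ s, t0 ≤ s → s ≤ t → WW e s < RR K) ∧ e t = false

open Classical in
/-- the blocked steps in the run of the epoch `[t0, t0 + Lam)`, odd -/
noncomputable def BlkD (K : ℕ) (e : ℕ → Bool) (t0 : ℕ) : Finset ℕ :=
  (Ico t0 (t0 + Lam K)).filter fun t =>
    (∀ s, t0 ≤ s → s ≤ t → -(RR K : ℤ) < WW e s) ∧ e t = true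

/-- **UP**: a clean even epoch. A zombie adjacent to the survivor at the decision `t` was in front and
near at `t0`; it was not `Viol`, so it was on the east side or the north side and at distance at least
`RR / 4` off the axis; it has stayed on this side. North side: still off the axis, because
`WW e t - WW e t0 ≥ - Bet - Fq - 3`. East side: in the run the survivor is careful; after the touch of
`RR` and when `WW e t ≤ 0` again it is off the axis. -/
def S_UP : Prop := ∀ (n K k t0 : ℕ) (u : Fin k → ℕ → Fin 12) (e : ℕ → Bool) (p : Fin k → ℤ × ℤ),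
  Big n K → (∀ z, p z ∈ Boxn n) → (∀ z, GC K (t0 + Lam K) (bts (u z))) →
  |WW e t0| ≤ Fq K + 1 → Clean K (PD n u e p t0) → (∀ z, PD n u e p t0 z ≠ 0) →
  ModeUp K (PD n u e p) e t0 → (BlkU K e t0).card ≤ Bet K →
  (∀ t, t0 ≤ t → t ≤ t0 + Lam K → |WW e t| ≤ RR K) ∧
  (∃ t, t0 ≤ t ∧ t < t0 + Lam K ∧ WW e t = RR K) ∧
  0 ≤ WW e (t0 + Lam K) ∧ WW e (t0 + Lam K) ≤ 1 ∧
  ∀ t, t0 ≤ t → t < t0 + Lam K → ∀ z, 2 ≤ L1 (tu n (u z) e (p z) (t + 1))

/-- **DN** (from `UP` and `SWP`): a clean odd epoch -/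
def S_DN : Prop := ∀ (n K k t0 : ℕ) (u : Fin k → ℕ → Fin 12) (e : ℕ → Bool) (p : Fin k → ℤ × ℤ),
  Big n K → (∀ z, p z ∈ Boxn n) → (∀ z, GC K (t0 + Lam K) (bts (u z))) →
  |WW e t0| ≤ Fq K + 1 → Clean K (PD n u e p t0) → (∀ z, PD n u e p t0 z ≠ 0) →
  ModeDn K (PD n u e p) e t0 → (BlkD K e t0).card ≤ Bet K →
  (∀ t, t0 ≤ t → t ≤ t0 + Lam K → |WW e t| ≤ RR K) ∧
  (∃ t, t0 ≤ t ∧ t < t0 + Lam K ∧ WW e t = -(RR K : ℤ)) ∧
  -1 ≤ WW e (t0 + Lam K) ∧ WW e (t0 + Lam K) ≤ 0 ∧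
  ∀ t, t0 ≤ t → t < t0 + Lam K → ∀ z, 2 ≤ L1 (tu n (u z) e (p z) (t + 1))

/-- a zombie which is of no importance for `ZN.upd n 30 K` -/
def Harmless (K : ℕ) (q : ℤ × ℤ) : Prop :=
  q ≠ 0 ∧ ¬ (NEp q ∧ L1 q ≤ 5 * Fe 30 K) ∧ ¬ (Fr q ∧ L1 q ≤ 2)

/-- **SPH** (from `ZN.S_MAIN`, proved in `ZN/Run3.lean` as `Lo.main`): the survivor plays
`ZN.upd n 30 K` from the decision `s0` on, only the zombies in `Z` matter. Apply `S_MAIN` with
`N = 30`, `h = n`, `k = Z.card`, starting points `tu ... s0`, coins `bt (u z (s0 + s))`; the play of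
`ZN` has memory `m s` and positions `tu ... (s0 + s)`, by induction on `s`. -/
def S_SPH : Prop := ∀ (n K k s0 L : ℕ) (u : Fin k → ℕ → Fin 12) (e : ℕ → Bool)
  (p : Fin k → ℤ × ℤ) (m : ℕ → Mem) (Z : Finset (Fin k)), Big n K → (∀ z, p z ∈ Boxn n) →
  Z.card < 30 → m 0 = m0 →
  (∀ s < L, m (s + 1) = upd n 30 K (m s) (PD n u e p (s0 + s)) ∧ e (s0 + s) = (m (s + 1)).e) →
  (∀ z ∈ Z, (10 * (Fe 30 K : ℤ) ≤ |(tu n (u z) e (p z) s0).1| ∨
    10 * (Fe 30 K : ℤ) ≤ |(tu n (u z) e (p z) s0).2|) ∧ 8 * L1 (tu n (u z) e (p z) s0) ≤ n ∧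
    GC K L (fun s => bt (u z (s0 + s)))) →
  (∀ z, z ∉ Z → ∀ s < L, (∀ r ≤ s, |WW e (s0 + r) - WW e s0| ≤ Fe 30 K) →
    Harmless K (PD n u e p (s0 + s) z)) →
  ∀ s ≤ L, |WW e (s0 + s) - WW e s0| ≤ Fe 30 K ∧ ∀ z ∈ Z, 2 ≤ L1 (tu n (u z) e (p z) (s0 + s))

/-- **SBL** (from `SPH`, `NVX`, `SPC`, `SID`, `NEB`, `PLA`): a block of epochs which are not clean,
after a clean epoch. Take for `Z` the zombies in `Spec ... s0`, `s0 = i Lam`, which are in front at
`s0`. At `s0` they are at distance at least `Lam` or on a side and at least `RR / 8` off the axis, because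
they were not `Viol` at `s0 - Lam` (or further away than `D1`); the other zombies are `Harmless`
during the block. -/
def S_SBL : Prop := ∀ (n K k i l : ℕ) (u : Fin k → ℕ → Fin 12) (e : ℕ → Bool)
  (p : Fin k → ℤ × ℤ), Big n K → (∀ z, p z ∈ Boxn n ∧ (D3 K : ℤ) < L1 (p z)) → 1 ≤ i → l ≤ 600 →
  (∀ z, GC K ((i + l) * Lam K) (bts (u z))) → Desc n K (PD n u e p) e →
  (∀ t, t < i * Lam K → OkC n K u e p t) →
  Clean K (PD n u e p ((i - 1) * Lam K)) →
  (∀ j, i ≤ j → j < i + l → ¬ Clean K (PD n u e p (j * Lam K))) →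
  Tube (RR K) e (i * Lam K) → |WW e ((i - 1) * Lam K)| ≤ Fq K + 1 → |WW e (i * Lam K)| ≤ 1 →
  ((∃ t, (i - 1) * Lam K ≤ t ∧ t ≤ i * Lam K ∧ WW e t = RR K) ∨
    ∃ t, (i - 1) * Lam K ≤ t ∧ t ≤ i * Lam K ∧ WW e t = -(RR K : ℤ)) →
  Win K e ((i + l) * Lam K) →
  (∀ z, PD n u e p (i * Lam K) z ≠ 0) →
  ∀ t, i * Lam K ≤ t → t ≤ (i + l) * Lam K → |WW e t - WW e (i * Lam K)| ≤ Fq K ∧
    (t < (i + l) * Lam K → ∀ z, 2 ≤ L1 (tu n (u z) e (p z) (t + 1)))

/-- **CNT**: among 600 consecutive epochs there are a clean even and a clean odd one. Otherwise 300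
epochs are not clean; each has a zombie which is `Viol` at its first decision, which by `NVX` is in
`Spec` of `i Lam`, and a zombie is `Viol` at the beginning of at most `10` epochs (`XIT`). -/
def S_CNT : Prop := ∀ (n K k i : ℕ) (u : Fin k → ℕ → Fin 12) (e : ℕ → Bool)
  (p : Fin k → ℤ × ℤ), Big n K → (∀ z, p z ∈ Boxn n ∧ (D3 K : ℤ) < L1 (p z)) →
  (∀ z, GC K ((i + 600) * Lam K) (bts (u z))) →
  (∀ t, t < (i + 600) * Lam K → OkC n K u e p t) →
  Tube (RR K) e ((i + 600) * Lam K) → (∀ j ≤ i + 600, |WW e (j * Lam K)| ≤ Fq K + 1) →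
  Win K e ((i + 600) * Lam K) → ∀ b < 2, ∃ j, i ≤ j ∧ j < i + 600 ∧ j % 2 = b ∧
    Clean K (PD n u e p (j * Lam K))

/-- the epoch `j` is not bad -/
def OkD (n K : ℕ) (u : Fin k → ℕ → Fin 12) (e : ℕ → Bool) (p : Fin k → ℤ × ℤ) (j : ℕ) : Prop :=
  Clean K (PD n u e p (j * Lam K)) → (j % 2 = 0 → (BlkU K e (j * Lam K)).card ≤ Bet K) ∧
    (j % 2 = 1 → (BlkD K e (j * Lam K)).card ≤ Bet K)

/-- everything is fine up to the beginning of the epoch `j` -/
def Gd (K : ℕ) (n : ℕ) (u : Fin k → ℕ → Fin 12) (e : ℕ → Bool) (p : Fin k → ℤ × ℤ) (j : ℕ) : Prop :=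
  Tube (RR K) e (j * Lam K) ∧ (∀ i ≤ j, |WW e (i * Lam K)| ≤ Fq K + 1) ∧
  Win K e (j * Lam K) ∧ ∀ t < j * Lam K, ∀ z, 2 ≤ L1 (tu n (u z) e (p z) (t + 1))

/-- **DET** (from `UP`, `DN`, `SBL`, `CNT`, `SPC`, `PLA`): the play is fine as long as there is no
failure of `OkC`, `OkD`. Induction on `j`. The epoch `0` is clean. After a clean epoch
`|WW e (i Lam)| ≤ 1`. -/
def S_DET : Prop := ∀ (n K k j : ℕ) (u : Fin k → ℕ → Fin 12) (e : ℕ → Bool)
  (p : Fin k → ℤ × ℤ), Big n K → (∀ z, p z ∈ Boxn n ∧ (D3 K : ℤ) < L1 (p z)) →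
  (∀ z, GC K (j * Lam K) (bts (u z))) → Desc n K (PD n u e p) e →
  (∀ t, t < j * Lam K → OkC n K u e p t) → (∀ i < j, OkD n K u e p i) → Gd K n u e p j

/-- **FD** (facts on the run of the clean even epoch `j`, up to the decision `t0 + L`, `t0 = j Lam`): in
each column of blocked steps some zombie blocks from the beginning of the column to its last blocked
decision; different columns have different zombies; zombies which are not special were never relevant
before `t0`, and columns with a special zombie are short.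

Proof. At the last blocked decision `t` some zombie is in `BE`; it was near and in front at `t0`, not
`Viol`, so on the east side (the north side is too far), and has been there since; `L1` is constant
during the column, so it is in `CE` on `[α, t]`; at the decision `t + 1` it is not in `BE`, so it is
behind. `f α ∈ Z`: at most one horizontal move during the column, so `GC` bounds the length. `f α ∉ Z`:
if it was `Rel` at `s < t0`: `L1 ≤ 2` is impossible because `L1` decreases at the step `α - 1`;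
`NEp` and `L1 ≤ 5 Fe`: then `t0 ≤ s + GG` by `XIT`, so it is in `Spec`; `Viol` at the beginning of an
epoch: `t0 ≤ s + 10 Lam` by `XIT`, and by `NVX` it is not `Viol` or it is in `Spec`. -/
def S_FD : Prop := ∀ (n K k j L : ℕ) (u : Fin k → ℕ → Fin 12) (e : ℕ → Bool)
  (p : Fin k → ℤ × ℤ), 1 ≤ k → Big n K → (∀ z, p z ∈ Boxn n ∧ (D3 K : ℤ) < L1 (p z)) → L ≤ Lam K →
  (∀ z, GC K (j * Lam K + L) (bts (u z))) → (∀ t, t < j * Lam K → OkC n K u e p t) →
  Gd K n u e p j → Clean K (PD n u e p (j * Lam K)) →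
  (∀ s, j * Lam K ≤ s → s < j * Lam K + L → WW e s < RR K ∧
    (e s = true ↔ ∀ z, ¬ BE (PD n u e p s z))) →
  ((Ico (j * Lam K) (j * Lam K + L)).filter fun s => e s = false).card ≤ Bet K + 1 →
  (0 < L → e (j * Lam K) = true) ∧
  ∃ (Z : Finset (Fin k)) (f : ℕ → Fin k), Z.card < 30 ∧
    (∀ α t, j * Lam K < α → α ≤ t → t < j * Lam K + L → e (α - 1) = true →
      (∀ s, α ≤ s → s ≤ t → e s = false) → (t + 1 < j * Lam K + L → e (t + 1) = true) →
      (∀ s, α ≤ s → s ≤ t → CE (PD n u e p s (f α))) ∧ (f α ∈ Z → t < α + K + 5) ∧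
      (f α ∉ Z → ∀ s < j * Lam K, ¬ Rel K s (PD n u e p s (f α)))) ∧
    ∀ α β, j * Lam K < α → α < β → β < j * Lam K + L → e (α - 1) = true → e α = false →
      e (β - 1) = true → e β = false → f α ≠ f β

/-- **END**: after all zombies are absorbed the survivor is safe -/
def S_END : Prop := ∀ (n : ℕ) (u : ℕ → Fin 12) (e : ℕ → Bool) (p : ℤ × ℤ) (t : ℕ), 12 ≤ n →
  p ∈ Boxn n → Absn n (du n u e p t) → du n u e p t ≠ 0 → ∀ s, t ≤ s →
    Absn n (du n u e p s) ∧ du n u e p s ≠ 0 ∧ tu n u e p (s + 1) ≠ 0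

end Pool.Agent.Helper57K9.XZ
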