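import Pool.Agent.Helper57K9.XZ.Stm3

/-!
# Probability: statements

The sample space of one zombie is `XX n T` (starting point, coins), `k` zombies: `Fin k → XX n T`.
-/

set_option autoImplicit false

namespace Pool.Agent.Helper57K9.XZ

open Finset Pool.Agent.Helper5K9.ZN

/-- starting point and coins of one zombie -/
abbrev XX (n T : ℕ) : Type := {q : ℤ × ℤ // q ∈ Boxn n} × (Fin T → Fin 12)

variable {n T k : ℕ}

/-- the coins -/
def uu (ω : Fin k → XX n T) : Fin k → ℕ → Fin 12 := fun z => ext12 (ω z).2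
/-- the starting points -/
def pp (ω : Fin k → XX n T) : Fin k → ℤ × ℤ := fun z => (ω z).1.1
/-- the path of the survivor -/
noncomputable def ee (K : ℕ) (ω : Fin k → XX n T) : ℕ → Bool :=
  mvn n (xs n K k) (fun s z => uu ω z s) (pp ω)

/-- good base bits -/
def EA (K : ℕ) (ω : Fin k → XX n T) : Prop := ∀ z, GC K T (bts (uu ω z))
/-- nobody is near at the beginning -/
def EB (K : ℕ) (ω : Fin k → XX n T) : Prop := ∀ z, (D3 K : ℤ) < L1 (pp ω z)
/-- no failure before the epoch `j` -/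
def Pre (K : ℕ) (ω : Fin k → XX n T) (j : ℕ) : Prop := EA K ω ∧ EB K ω ∧
  (∀ t < j * Lam K, OkC n K (uu ω) (ee K ω) (pp ω) t) ∧
  ∀ i < j, OkD n K (uu ω) (ee K ω) (pp ω) i

open Classical in
/-- **PC** (from `MASK`, `MSK0`, `FAC`, `OCC`, `FNE`, `PLA`): 30 zombies in the outer north-east box.

Proof. Union over injective `z : Fin 30 → Fin k`; `L1 > D2` at the decision `t`, hence at all
decisions before, so these zombies were never `Rel`; `MASK` (replace them by zombies starting at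
`(-1, -1)`): the path up to `t` does not depend on them. For a fixed path in the tube at most
`5 D3² 12^T` pairs (starting point, coins) lead to `NEp`, `L1 ≤ D3` at `t` (`FNE`, `OCC`). -/
def S_PC : Prop := ∀ (n K k T t : ℕ), Big n K → t < T →
  ((univ.filter fun ω : Fin k → XX n T => EA K ω ∧ Tube (RR K + Lam K) (ee K ω) t ∧
      ¬ OkC n K (uu ω) (ee K ω) (pp ω) t).card : ℝ) ≤
    ((n : ℝ) ^ 2 * 12 ^ T) ^ k * (5 * k * (D3 K : ℝ) ^ 2 / (n : ℝ) ^ 2) ^ 30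

open Classical in
/-- **PE** (from `MASK`, `MSK0`, `FAC`, `ABP`, `XIT`, `PLA`, `END`): all zombies are absorbed.

Proof. Let `T' = T - 1 - 4 D2`. If `L1 ≤ D2` at some decision `s ≤ T'`, then the zombie is behind at the
decision `T - 1` (`XIT`) and near, so absorbed. Otherwise it was never `Rel` up to `T'`; `MASK` for this
zombie alone and `ABP` (with the coins up to `T'`): the probability that it is not absorbed at `T'` is at
most `n ^ (-10)`; `Absn` is preserved. -/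
def S_PE : Prop := ∃ n₀ : ℕ, ∀ (n K k T : ℕ), n₀ ≤ n → Big n K → n ^ 10 + 4 * D2 K + 2 ≤ T →
  ((univ.filter fun ω : Fin k → XX n T => EA K ω ∧ Tube (RR K) (ee K ω) (T - 1) ∧
      (∀ t < T, ∀ z, PD n (uu ω) (ee K ω) (pp ω) t z ≠ 0) ∧
      ∃ z, ¬ Absn n (PD n (uu ω) (ee K ω) (pp ω) (T - 1) z)).card : ℝ) ≤
    ((n : ℝ) ^ 2 * 12 ^ T) ^ k * (k / (n : ℝ) ^ 10)

/-! ## Runs -/

/-- the beginnings of the columns (maximal intervals of `false`) of the word `b` of length `L` -/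
def stt (b : ℕ → Bool) (L : ℕ) : Finset ℕ :=
  (Ico 1 L).filter fun i => b (i - 1) = true ∧ b i = false

/-- the length of the column beginning at `i` -/
noncomputable def ln (b : ℕ → Bool) (L i : ℕ) : ℕ := sInf {l : ℕ | L ≤ i + l ∨ b (i + l) = true}

open Classical in
/-- **WSUM**: the weighted sum over words.

Proof. `l (1/2)^(l-1) ≤ (64/25) (2/3)^l`. Multiply by `(6/5)^(number of false) = (6/5)^β`. A normal
column costs at most `x D (64/25) (4/5)^l`, an exceptional one (in `F`)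
`(6/5)^l ≤ ((3/2)^d (L + 1)) * (1 / (L + 1)) (4/5)^l`. So the left side is at most
`(5/6)^β ((L + 1) (3/2)^d)^N1 ∑_w ∏_(i ∈ stt w) ((64/25) x D w i + 1 / (L + 1)) * (4/5)^(number of false)`
(`Finset.prod_add`), and `∑_w ∏ ... * exp (- 12 x ∑_(i, w i) D w (i + 1) - 4 (number of steps) / (L + 1))
* Φ ≤ 1` by induction on the length, where `Φ = 1` if the last letter is `true` and `Φ = 5` if it is
`false`: from `true` the next step gives `1 + ((64/25) x D + 1 / (L + 1)) (4/5) 5 ≤ exp (...)`, from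
`false` it gives `1 + (4/5) 5 = 5`. -/
def S_WSUM : Prop := ∀ (L N1 d β : ℕ) (x M : ℝ) (D : (ℕ → Bool) → ℕ → ℝ)
  (W : Finset (Fin L → Bool)), 0 ≤ x → 0 ≤ M → (∀ b i, 0 ≤ D b i) →
  (∀ b b' i, (∀ s < i, b s = b' s) → D b i = D b' i) →
  (∀ w ∈ W, (0 < L → ext w 0 = true) ∧ ((range L).filter fun i => ext w i = false).card = β ∧
    ∑ i ∈ (range L).filter (fun i => ext w i = true), D (ext w) (i + 1) ≤ M) →
  ∑ w ∈ W, ∑ F ∈ (stt (ext w) L).powerset.filter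
      (fun F => F.card ≤ N1 ∧ ∀ i ∈ F, ln (ext w) L i ≤ d),
      ∏ i ∈ stt (ext w) L \ F, x * D (ext w) i * (ln (ext w) L i * (1 / 2) ^ (ln (ext w) L i - 1)) ≤
    (5 / 6) ^ β * ((L + 1) * (3 / 2) ^ d) ^ N1 * Real.exp 4 * Real.exp (12 * x * M)

/-- the path `e` up to `t0`, then the word `b` -/
def cat (e : ℕ → Bool) (t0 : ℕ) (b : ℕ → Bool) : ℕ → Bool :=
  fun s => if s < t0 then e s else b (s - t0)

open Classical in
/-- **PDX** (from `FAC`, `WSUM`): abstract form of the estimate of a bad epoch.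

Proof. For `L ≤ Λ`, `m ≤ L` and an injective `z : Fin m → Fin k` (the zombies `f i`, `i ∈ stt w \ F`,
`F = {i | f i ∈ Z}`, in increasing order of `i`) let `I = range z`; by the mask hypothesis `E ω` agrees
before `t0` with `E (mask ω)`, which does not depend on the coordinates in `I`. `FAC` with
`A ω = Okp (cat (E (mask ω)) t0 (ext w)) L`, `B ω j x = Ev ... x`. Sum over `z` (at most `k ^ m`) and over
`(w, F)` with `m` elements in `stt w \ F`: `WSUM` with `k x` instead of `x`. -/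
def S_PDX : Prop := ∀ (X : Type) [Fintype X] (k t0 Λ N1 d β : ℕ) (x M : ℝ) (x₀ : X)
  (E : (Fin k → X) → ℕ → Bool) (Sil : (Fin k → X) → Fin k → Prop)
  (Okp : (ℕ → Bool) → ℕ → Prop) (Ev : (ℕ → Bool) → ℕ → ℕ → X → Prop)
  (D : (ℕ → Bool) → ℕ → ℝ) (Bad : (Fin k → X) → Prop), 0 ≤ x → 0 ≤ M → (∀ b i, 0 ≤ D b i) →
  (∀ b b' i, (∀ s < i, b s = b' s) → D b i = D b' i) →
  (∀ (ω : Fin k → X) (I : Finset (Fin k)), (∀ z ∈ I, Sil ω z) →
    ∀ s < t0, E ω s = E (fun z => if z ∈ I then x₀ else ω z) s) →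
  (∀ ω, Bad ω → ∃ L ≤ Λ, ∃ w : Fin L → Bool, Okp (cat (E ω) t0 (ext w)) L ∧
    (0 < L → ext w 0 = true) ∧ ((range L).filter fun i => ext w i = false).card = β ∧
    ∃ (Z : Finset (Fin k)) (f : ℕ → Fin k), Z.card ≤ N1 ∧
      (∀ i ∈ stt (ext w) L, (f i ∈ Z → ln (ext w) L i ≤ d) ∧
        (f i ∉ Z → Sil ω (f i) ∧
          Ev (cat (E ω) t0 (ext w)) (t0 + i) (t0 + i + ln (ext w) L i - 1) (ω (f i)))) ∧
      ∀ i ∈ stt (ext w) L, ∀ i' ∈ stt (ext w) L, f i = f i' → i = i') →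
  (∀ (e : ℕ → Bool) (L : ℕ) (w : Fin L → Bool), L ≤ Λ → Okp (cat e t0 (ext w)) L →
    (∀ i ∈ stt (ext w) L, ((univ.filter fun y : X =>
        Ev (cat e t0 (ext w)) (t0 + i) (t0 + i + ln (ext w) L i - 1) y).card : ℝ) ≤
      Fintype.card X * (x * D (cat e t0 (ext w)) (t0 + i) *
        (ln (ext w) L i * (1 / 2) ^ (ln (ext w) L i - 1)))) ∧
    ∑ i ∈ (range L).filter (fun i => ext w i = true), D (cat e t0 (ext w)) (t0 + i + 1) ≤ M) →
  ((univ.filter fun ω : Fin k → X => Bad ω).card : ℝ) ≤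
    (Fintype.card X : ℝ) ^ k * (((Λ : ℝ) + 1) ^ 2 *
      ((5 / 6) ^ β * ((Λ + 1) * (3 / 2) ^ d) ^ N1 * Real.exp 4 * Real.exp (12 * (k * x) * M)))

/-- the weight of an arrival at `α` -/
noncomputable def DW (e : ℕ → Bool) (σ R α : ℕ) : ℝ :=
  1 + prof (fun s => e (σ + s)) (α - 1 - σ) 2 + ((R : ℝ) + 1) ^ 3

/-- the bound for the probability of a bad epoch -/
noncomputable def pdB (K k : ℕ) (x M : ℝ) : ℝ := ((Lam K : ℝ) + 1) ^ 2 *
  ((5 / 6) ^ (Bet K + 1) * ((Lam K + 1) * (3 / 2) ^ (K + 5)) ^ 29 * Real.exp 4 *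
    Real.exp (12 * (k * x) * M))

open Classical in
/-- **PDU** (from `PDX`, `DX`, `MASK`, `MSK0`, `FD`, `DET`, `STR`): a bad even epoch `j`.

Proof. `t0 = j Lam`, `L` such that the decision `t0 + L - 1` is the `(Bet + 1)`-st blocked step of the
run, `w i = ee K ω (t0 + i)`, `Okp e L = (∀ s ≤ t0 + L, |WW e s| ≤ RR) ∧ Win K e t0`,
`Sil ω z = ∀ s < t0, ¬ Rel ...`, `Ev e α t (q, u) = GC K (α + 1) ∧ ∀ s ∈ [α, t], CE (du ... s)`,
`D e α = DW e (t0 - 2 n) (RR K) α`, `x = C / n ^ 2`, `x₀ = ((-1, -1), 0)`, `N1 = 29`, `d = K + 5`. -/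
def S_PDU : Prop := ∃ C : ℝ, 0 < C ∧ ∀ (n K k T j : ℕ) (M : ℝ), Big n K → (j + 1) * Lam K ≤ T →
  j % 2 = 0 → 0 ≤ M →
  (∀ (e : ℕ → Bool) (L : ℕ), L ≤ Lam K → (∀ s ≤ j * Lam K + L, |WW e s| ≤ RR K) →
    Win K e (j * Lam K) →
    ∑ i ∈ (range L).filter (fun i => e (j * Lam K + i) = true),
      DW e (j * Lam K - 2 * n) (RR K) (j * Lam K + i + 1) ≤ M) →
  ((univ.filter fun ω : Fin k → XX n T => Pre K ω j ∧
      Clean K (PD n (uu ω) (ee K ω) (pp ω) (j * Lam K)) ∧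
      Bet K < (BlkU K (ee K ω) (j * Lam K)).card).card : ℝ) ≤
    ((n : ℝ) ^ 2 * 12 ^ T) ^ k * pdB K k (C / (n : ℝ) ^ 2) M

open Classical in
/-- **PDD** (from `PDX`, `DXN`, `MASK`, `MSK0`, `FDN`, `DET`, `STR`): a bad odd epoch `j`; use `PDX` with
`E ω s = !(ee K ω s)` and `!` of all words. -/
def S_PDD : Prop := ∃ C : ℝ, 0 < C ∧ ∀ (n K k T j : ℕ) (M : ℝ), Big n K → (j + 1) * Lam K ≤ T →
  j % 2 = 1 → 0 ≤ M →
  (∀ (e : ℕ → Bool) (L : ℕ), L ≤ Lam K → (∀ s ≤ j * Lam K + L, |WW e s| ≤ RR K) →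
    Win K e (j * Lam K) →
    ∑ i ∈ (range L).filter (fun i => e (j * Lam K + i) = true),
      DW e (j * Lam K - 2 * n) (RR K) (j * Lam K + i + 1) ≤ M) →
  ((univ.filter fun ω : Fin k → XX n T => Pre K ω j ∧
      Clean K (PD n (uu ω) (ee K ω) (pp ω) (j * Lam K)) ∧
      Bet K < (BlkD K (ee K ω) (j * Lam K)).card).card : ℝ) ≤
    ((n : ℝ) ^ 2 * 12 ^ T) ^ k * pdB K k (C / (n : ℝ) ^ 2) M

/-- **FDN** (from `FD` and `SWP`): the facts on the run of a clean odd epoch -/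
def S_FDN : Prop := ∀ (n K k j L : ℕ) (u : Fin k → ℕ → Fin 12) (e : ℕ → Bool)
  (p : Fin k → ℤ × ℤ), 1 ≤ k → Big n K → (∀ z, p z ∈ Boxn n ∧ (D3 K : ℤ) < L1 (p z)) → L ≤ Lam K →
  (∀ z, GC K (j * Lam K + L) (bts (u z))) → (∀ t, t < j * Lam K → OkC n K u e p t) →
  Gd K n u e p j → Clean K (PD n u e p (j * Lam K)) →
  (∀ s, j * Lam K ≤ s → s < j * Lam K + L → -(RR K : ℤ) < WW e s ∧
    (e s = false ↔ ∀ z, ¬ BN (PD n u e p s z))) →
  ((Ico (j * Lam K) (j * Lam K + L)).filter fun s => e s = true).card ≤ Bet K + 1 →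
  (0 < L → e (j * Lam K) = false) ∧
  ∃ (Z : Finset (Fin k)) (f : ℕ → Fin k), Z.card < 30 ∧
    (∀ α t, j * Lam K < α → α ≤ t → t < j * Lam K + L → e (α - 1) = false →
      (∀ s, α ≤ s → s ≤ t → e s = true) → (t + 1 < j * Lam K + L → e (t + 1) = false) →
      (∀ s, α ≤ s → s ≤ t → CE (PD n u e p s (f α)).swap) ∧ (f α ∈ Z → t < α + K + 5) ∧
      (f α ∉ Z → ∀ s < j * Lam K, ¬ Rel K s (PD n u e p s (f α)))) ∧
    ∀ α β, j * Lam K < α → α < β → β < j * Lam K + L → e (α - 1) = false → e α = true →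
      e (β - 1) = false → e β = true → f α ≠ f β

/-- the bound for the near sum -/
noncomputable def mB (n K : ℕ) : ℝ := (GG K : ℝ) * Real.sqrt n +
  (GG K : ℝ) ^ 2 * Real.exp (2 * RR K / Real.sqrt (GG K)) + Lam K * ((RR K : ℝ) + 1) ^ 3

/-- **MBD** (from `NS`): apply `NS` to the path `e (σ + ·)`, `σ = j Lam - 2 n` (truncated), with
`G = GG + Lam`, `W = 2 RR`, `B = RR - WW e σ`, `T = j Lam + L - σ ≤ 2 n + Lam`. -/
def S_MBD : Prop := ∃ C : ℝ, 0 < C ∧ ∀ (n K j L : ℕ) (e : ℕ → Bool), Big n K → L ≤ Lam K →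
  (∀ s ≤ j * Lam K + L, |WW e s| ≤ RR K) → Win K e (j * Lam K) →
  ∑ i ∈ (range L).filter (fun i => e (j * Lam K + i) = true),
    DW e (j * Lam K - 2 * n) (RR K) (j * Lam K + i + 1) ≤ C * mB n K

/-- the bound for the probability of a failure; `N` is the number of epochs, `N * Lam K` the number of
rounds -/
noncomputable def fB (C : ℝ) (n K k N : ℕ) : ℝ :=
  k * (2 * ((N * Lam K : ℕ) + 1) ^ 2 * Real.exp (-(K : ℝ) / 2)) +
  k * ((2 * (D3 K : ℝ) + 1) ^ 2 / (n : ℝ) ^ 2) +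
  (N * Lam K : ℕ) * (5 * k * (D3 K : ℝ) ^ 2 / (n : ℝ) ^ 2) ^ 30 +
  N * pdB K k (C / (n : ℝ) ^ 2) (C * mB n K) +
  k / (n : ℝ) ^ 10

/-- **FIN1**: the union bound. With `T = N * Lam K`: if `ω` is not in the good event, then `¬ EA`, or
`¬ EB`, or there is a first epoch `j < N` with `¬ OkD j` or `¬ OkC t` for some `t` in the epoch `j`; then
`Pre j`, so `Gd j` by `DET` (with `STR`), so `Tube (RR + Lam)` up to `t`; or all are fine and some zombie
is not absorbed at `T - 1`. In the good event the survivor is never eaten (`DET` up to `N`, `END`), also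
for coins extending those of `ω`. Then `GAMEN`. -/
def S_FIN1 : Prop := ∃ C : ℝ, 0 < C ∧ ∃ n₀ : ℕ, ∀ n K k N : ℕ, n₀ ≤ n → Big n K →
  n ^ 10 + 4 * D2 K + 2 ≤ N * Lam K → fB C n K k N ≤ 1 / 4 →
  3 / 4 ≤ Pool.Agent.Helper57K9.Zomb.survivalProb (Pool.Agent.Helper57K9.Zomb.torus n) k

/-- **FIN2**: the asymptotics, with `K = 200 (Nat.log 2 n + 1)` and `N = 2 n ^ 10` or so.
(`Bet = 25 Fq`, `GG = 976000 Fq`, so for `k ≤ c n^(3/2)` with small `c` the exponent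
`12 k C² GG √n / n²` is at most `Fq`.) -/
def S_FIN2 : Prop := ∀ C : ℝ, 0 < C → ∃ c : ℝ, 0 < c ∧ ∃ n₀ : ℕ, ∀ n : ℕ, n₀ ≤ n → ∀ k : ℕ,
  (k : ℝ) ≤ c * ((n : ℝ) * Real.sqrt n) → ∃ K N : ℕ, Big n K ∧
    n ^ 10 + 4 * D2 K + 2 ≤ N * Lam K ∧ fB C n K k N ≤ 1 / 4

end Pool.Agent.Helper57K9.XZ
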