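import Pool.Agent.Helper57K9.XZ.One
import Pool.Agent.Helper57K9.Zomb.Game

/-!
# Zombies on the torus `C_n □ C_n`, `n` even or odd: definitions

Relative positions (zombie minus survivor) are pairs `q` with `-n < 2 a ≤ n` for both coordinates
(`Boxn n`). A coin is an element of `Fin 12`: it decides between the closer neighbours (1, 2, 3 or 4 of
them; 3 or 4 only if a coordinate is in the tie position `2 a = n`) with equal probabilities. If no
coordinate is in the tie position, then an even coin means horizontally (if possible).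
`tu` are the positions at the turns of the zombie, `du` the positions after its moves (when the
survivor decides), `e t = true` a move of the survivor to the east, `false` to the north.
-/

set_option autoImplicit false

namespace Pool.Agent.Helper57K9.XZ

open Finset Pool.Agent.Helper5K9.ZN

/-- wrap around into `(-n/2, n/2]` -/
def wrn (n : ℕ) (a : ℤ) : ℤ :=
  if 2 * a ≤ -(n : ℤ) then a + n else if (n : ℤ) < 2 * a then a - n else a

/-- a coordinate moves towards `0`; `s` is the side in the case of the tie `2 a = n` -/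
def hx (n : ℕ) (s : Bool) (a : ℤ) : ℤ := if 2 * a = n ∧ s = false then a + 1 - n else a - a.sign

/-- the move of a zombie: horizontally if `c = true` (and possible), side `s` -/
def zmg (n : ℕ) (c s : Bool) (q : ℤ × ℤ) : ℤ × ℤ :=
  if q.2 = 0 ∨ (c = true ∧ q.1 ≠ 0) then (hx n s q.1, q.2) else (q.1, hx n s q.2)

/-- direction and side chosen by the coin `u` at the position `q` -/
def cfs (n : ℕ) (u : Fin 12) (q : ℤ × ℤ) : Bool × Bool :=
  if 2 * q.1 = n then
    if 2 * q.2 = n then (decide (u.1 % 2 = 0), decide (u.1 % 4 < 2))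
    else if q.2 = 0 then (true, decide (u.1 % 4 < 2))
    else (decide (u.1 % 3 < 2), decide (u.1 % 3 = 0))
  else if 2 * q.2 = n then
    if q.1 = 0 then (false, decide (u.1 % 4 < 2))
    else (!(decide (u.1 % 3 < 2)), decide (u.1 % 3 = 0))
  else (decide (u.1 % 2 = 0), true)

/-- the move of a zombie with coin `u` -/
def zu (n : ℕ) (u : Fin 12) (q : ℤ × ℤ) : ℤ × ℤ := zmg n (cfs n u q).1 (cfs n u q).2 q

/-- the move of the survivor, to the east (`true`) or to the north (`false`) -/
def smg (n : ℕ) (e : Bool) (q : ℤ × ℤ) : ℤ × ℤ :=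
  if e then (wrn n (q.1 - 1), q.2) else (q.1, wrn n (q.2 - 1))

/-- positions of one zombie at its turns; `u` its coins, `e` the moves of the survivor -/
def tu (n : ℕ) (u : ℕ → Fin 12) (e : ℕ → Bool) (p : ℤ × ℤ) : ℕ → ℤ × ℤ
  | 0 => p
  | t + 1 => smg n (e t) (zu n (u t) (tu n u e p t))

/-- positions of one zombie after its moves -/
def du (n : ℕ) (u : ℕ → Fin 12) (e : ℕ → Bool) (p : ℤ × ℤ) (t : ℕ) : ℤ × ℤ :=
  zu n (u t) (tu n u e p t)

/-- finitely many coins as an infinite sequence -/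
def ext12 {T : ℕ} (u : Fin T → Fin 12) : ℕ → Fin 12 := fun s => if hs : s < T then u ⟨s, hs⟩ else 0

/-- the base bit of a coin -/
def bt (u : Fin 12) : Bool := decide (u.1 % 2 = 0)

/-- the base bits of a sequence of coins -/
def bts (u : ℕ → Fin 12) : ℕ → Bool := fun s => bt (u s)

/-- one coordinate -/
noncomputable def In (n : ℕ) : Finset ℤ :=
  (Icc (-(n : ℤ)) n).filter fun a => -(n : ℤ) < 2 * a ∧ 2 * a ≤ n

/-- the possible relative positions -/
noncomputable def Boxn (n : ℕ) : Finset (ℤ × ℤ) := In n ×ˢ In n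

/-- on an axis -/
def OnAx (q : ℤ × ℤ) : Prop := q.1 = 0 ∨ q.2 = 0

/-- never on an axis before the decision `t` -/
def FreeN (n : ℕ) (u : ℕ → Fin 12) (e : ℕ → Bool) (p : ℤ × ℤ) (t : ℕ) : Prop :=
  ∀ s < t, ¬ OnAx (tu n u e p s) ∧ ¬ OnAx (du n u e p s)

/-- the east side -/
def ESide (q : ℤ × ℤ) : Prop := 0 < q.1 ∧ q.2 ≤ 0

/-- a zombie at `q` (at a decision) blocks the move to the east: `(1, 0)`, `(2, 0)` or `(1, -1)` -/
def CE (q : ℤ × ℤ) : Prop := 0 < q.1 ∧ q.2 ≤ 0 ∧ q.1 - q.2 ≤ 2

/-- absorbed: behind the survivor and not too far -/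
def Absn (n : ℕ) (q : ℤ × ℤ) : Prop := q.1 ≤ 0 ∧ q.2 ≤ 0 ∧ 2 * L1 q + 3 ≤ (n : ℤ)

/-- the critical shell behind the survivor -/
def BackN (n : ℕ) (q : ℤ × ℤ) : Prop := (q.1 ≤ 0 ∨ 2 * q.1 = n) ∧ (q.2 ≤ 0 ∨ 2 * q.2 = n) ∧
  (n : ℤ) - 2 ≤ 2 * L1 q ∧ 2 * L1 q ≤ (n : ℤ)

/-- the first visit of an axis was in the critical shell, and the zombie is still there -/
def ClassC (n : ℕ) (u : ℕ → Fin 12) (e : ℕ → Bool) (p : ℤ × ℤ) (t : ℕ) : Prop :=
  ∃ v ≤ t, FreeN n u e p v ∧ OnAx (du n u e p v) ∧ ∀ s, v ≤ s → s ≤ t → BackN n (du n u e p s)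

/-- one step of the distance `H` to the east axis (`e` the move of the survivor, `c` the next coin) -/
def Hst (e c : Bool) (H : ℕ) : ℕ := if e then (if c then H else H - 1) else (if c then H + 1 else H)

/-- the distance to the east axis at the decision `v + i` if it is `0` at the decision `v` -/
def Hc (c e : ℕ → Bool) (v : ℕ) : ℕ → ℕ
  | 0 => 0
  | i + 1 => Hst (e (v + i)) (c (v + i + 1)) (Hc c e v i)

/-- the number of moves to the east before `t` -/
def xE (e : ℕ → Bool) (t : ℕ) : ℤ := ∑ s ∈ range t, if e s then 1 else 0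

/-- the play against a strategy with memory -/
def playn {k : ℕ} (n : ℕ) (S : Strat k) (c : ℕ → Fin k → Fin 12) (p : Fin k → ℤ × ℤ) :
    ℕ → S.μ × (Fin k → ℤ × ℤ)
  | 0 => (S.init, p)
  | t + 1 =>
    let P := fun z => zu n (c t z) ((playn n S c p t).2 z)
    let m := S.upd (playn n S c p t).1 P
    (m, fun z => smg n (S.out m) (P z))

/-- the moves of the survivor in the play -/
def mvn {k : ℕ} (n : ℕ) (S : Strat k) (c : ℕ → Fin k → Fin 12) (p : Fin k → ℤ × ℤ) (t : ℕ) : Bool :=
  S.out (playn n S c p (t + 1)).1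

theorem playn_snd {k : ℕ} (n : ℕ) (S : Strat k) (c : ℕ → Fin k → Fin 12) (p : Fin k → ℤ × ℤ)
    (t : ℕ) (z : Fin k) :
    (playn n S c p t).2 z = tu n (fun s => c s z) (mvn n S c p) (p z) t := by
  induction t with
  | zero => rfl
  | succ t ih =>
    change smg n (mvn n S c p t) (zu n (c t z) ((playn n S c p t).2 z)) = _
    rw [ih]; rfl

end Pool.Agent.Helper57K9.XZ
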