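import Pool.Agent.Helper57K9.XZ.Stm2
import Pool.Agent.Helper5K9.ZN.Strat

/-!
# The strategy of the survivor on `C_n □ C_n`

Time is divided into epochs of length `Lam K`. An epoch is clean if at its first decision no zombie is
`Viol` (in front of the survivor, near, and not far off the two axes). In a clean epoch with even
number the survivor goes east whenever this is safe (north otherwise) until the excess
`v = WW e t` reaches `RR K`, and then goes east iff `v ≤ 0`; in a clean epoch with odd number the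
mirror image. In a maximal block of epochs which are not clean the survivor uses the strategy
`ZN.upd n 30 K`, started with fresh memory at the first decision of the block.
-/

set_option autoImplicit false

namespace Pool.Agent.Helper57K9.XZ

open Finset Pool.Agent.Helper5K9.ZN

/-- `Fe` for 30 zombies -/
def Fq (K : ℕ) : ℕ := Fe 30 K
/-- radius of the tube -/
def RR (K : ℕ) : ℕ := 200 * Fq K
/-- length of an epoch -/
def Lam (K : ℕ) : ℕ := 8 * RR K
/-- a window of this length contains a touch of `RR` and a touch of `- RR` -/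
def GG (K : ℕ) : ℕ := 610 * Lam K
/-- size of the box for clean epochs -/
def D1 (K : ℕ) : ℕ := 4 * Lam K
/-- size of the box for special zombies -/
def D2 (K : ℕ) : ℕ := 2000 * Lam K
/-- size of the outer box -/
def D3 (K : ℕ) : ℕ := 10000 * Lam K
/-- allowed number of blocked steps in the run of an epoch -/
def Bet (K : ℕ) : ℕ := 25 * Fq K

/-- in front of the survivor -/
def Fr (q : ℤ × ℤ) : Prop := 0 < q.1 ∨ 0 < q.2
/-- north-east -/
def NEp (q : ℤ × ℤ) : Prop := 0 < q.1 ∧ 0 < q.2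
/-- the north side -/
def NSide (q : ℤ × ℤ) : Prop := q.1 ≤ 0 ∧ 0 < q.2
/-- blocks the east -/
def BE (q : ℤ × ℤ) : Prop := 0 < q.1 ∧ L1 q ≤ 2
/-- blocks the north -/
def BN (q : ℤ × ℤ) : Prop := 0 < q.2 ∧ L1 q ≤ 2
/-- in front, near and not far off the two axes -/
def Viol (K : ℕ) (q : ℤ × ℤ) : Prop := Fr q ∧ |q.1| ≤ (D1 K : ℤ) ∧ |q.2| ≤ (D1 K : ℤ) ∧
  -(RR K : ℤ) < 4 * q.1 ∧ -(RR K : ℤ) < 4 * q.2

variable {k : ℕ}

/-- no violation -/
def Clean (K : ℕ) (P : Fin k → ℤ × ℤ) : Prop := ∀ z, ¬ Viol K (P z)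

/-- the initial memory of the strategy of `ZN` -/
def m0 : Mem := ⟨0, 0, true, true, 0, 0, 0⟩

/-- the memory -/
structure XM where
  /-- the time -/
  t : ℕ
  /-- the excess `WW e t` -/
  v : ℤ
  /-- the epoch is clean -/
  cl : Bool
  /-- the run of the epoch is not yet finished -/
  rn : Bool
  /-- memory for blocks of epochs which are not clean -/
  m : Mem
  /-- the last move -/
  e : Bool

open Classical in
/-- the update of the memory -/
noncomputable def xupd (n K : ℕ) (x : XM) (P : Fin k → ℤ × ℤ) : XM :=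
  let cl : Bool := if Lam K ∣ x.t then decide (Clean K P) else x.cl
  let rn : Bool := (if Lam K ∣ x.t then true else x.rn) &&
    (if x.t / Lam K % 2 = 0 then decide (x.v < RR K) else decide (-(RR K : ℤ) < x.v))
  let m : Mem := if cl = true then x.m else
    upd n 30 K (if Lam K ∣ x.t ∧ x.cl = true then m0 else x.m) P
  let e : Bool := if cl = true then
      (if x.t / Lam K % 2 = 0 then
        (if rn = true then decide (∀ z, ¬ BE (P z)) else decide (x.v ≤ 0))
      else (if rn = true then !(decide (∀ z, ¬ BN (P z))) else decide (x.v < 0)))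
    else m.e
  ⟨x.t + 1, x.v + sgn e, cl, rn, m, e⟩

/-- the strategy -/
noncomputable def xs (n K k : ℕ) : Strat k where
  μ := XM
  init := ⟨0, 0, true, true, m0, true⟩
  upd := xupd n K
  out := XM.e

/-! ## Description of the path -/

open Classical in
/-- a clean even epoch starting at `t0` -/
def ModeUp (K : ℕ) (P : ℕ → Fin k → ℤ × ℤ) (e : ℕ → Bool) (t0 : ℕ) : Prop :=
  ∀ t, t0 ≤ t → t < t0 + Lam K → (e t = true ↔
    if (∀ s, t0 ≤ s → s ≤ t → WW e s < RR K) then (∀ z, ¬ BE (P t z)) else WW e t ≤ 0)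

open Classical in
/-- a clean odd epoch starting at `t0` -/
def ModeDn (K : ℕ) (P : ℕ → Fin k → ℤ × ℤ) (e : ℕ → Bool) (t0 : ℕ) : Prop :=
  ∀ t, t0 ≤ t → t < t0 + Lam K → (e t = false ↔
    if (∀ s, t0 ≤ s → s ≤ t → -(RR K : ℤ) < WW e s) then (∀ z, ¬ BN (P t z)) else 0 ≤ WW e t)

/-- description of the play; `P t` are the positions at the decision `t`, `e t` the moves -/
def Desc (n K : ℕ) (P : ℕ → Fin k → ℤ × ℤ) (e : ℕ → Bool) : Prop :=
  (∀ j, Clean K (P (j * Lam K)) → (j % 2 = 0 → ModeUp K P e (j * Lam K)) ∧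
    (j % 2 = 1 → ModeDn K P e (j * Lam K))) ∧
  ∀ i l, (∀ j, i ≤ j → j < i + l → ¬ Clean K (P (j * Lam K))) →
    (i = 0 ∨ ∃ i', i' + 1 = i ∧ Clean K (P (i' * Lam K))) →
    ∃ m : ℕ → Mem, m 0 = m0 ∧ ∀ s < l * Lam K,
      m (s + 1) = upd n 30 K (m s) (P (i * Lam K + s)) ∧ e (i * Lam K + s) = (m (s + 1)).e

/-- positions of all zombies at the decision `t` -/
def PD (n : ℕ) (u : Fin k → ℕ → Fin 12) (e : ℕ → Bool) (p : Fin k → ℤ × ℤ) (t : ℕ) (z : Fin k) :
    ℤ × ℤ := du n (u z) e (p z) t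

/-- **STR**: the play against the strategy `xs` has the description -/
def S_STR : Prop := ∀ (n K k : ℕ) (c : ℕ → Fin k → Fin 12) (p : Fin k → ℤ × ℤ),
  Desc n K (PD n (fun z s => c s z) (mvn n (xs n K k) c p) p) (mvn n (xs n K k) c p)

/-- zombies which may be relevant for the update of the memory at time `s` -/
def Rel (K s : ℕ) (q : ℤ × ℤ) : Prop := (Lam K ∣ s ∧ Viol K q) ∨ q = 0 ∨
  (NEp q ∧ L1 q ≤ 5 * Fe 30 K) ∨ (Fr q ∧ L1 q ≤ 2)

/-- **MASK**: zombies which are never relevant may be replaced by other zombies which are never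
relevant. (`x.t` is the time; `upd n 30 K` depends on the positions only through `Safe`, `LaneOK`,
`GapOK`; for `- n / 2 ≤ q.1, q.2` there is no wrap around in `sm n`.) -/
def S_MASK : Prop := ∀ (n K k t : ℕ) (c c' : ℕ → Fin k → Fin 12) (p p' : Fin k → ℤ × ℤ), 3 ≤ n →
  (∀ z, p z ∈ Boxn n ∧ p' z ∈ Boxn n) →
  (∀ z, ((∀ s, c s z = c' s z) ∧ p z = p' z) ∨
    ((∀ s < t, ¬ Rel K s (PD n (fun z s => c s z) (mvn n (xs n K k) c p) p s z)) ∧
      ∀ (e : ℕ → Bool) (s : ℕ), ¬ Rel K s (du n (fun s => c' s z) e (p' z) s))) →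
  ∀ s ≤ t, (playn n (xs n K k) c p s).1 = (playn n (xs n K k) c' p' s).1

/-- **MSK0**: a zombie starting at `(-1, -1)` is never relevant -/
def S_MSK0 : Prop := ∀ (n K : ℕ) (u : ℕ → Fin 12) (e : ℕ → Bool) (s : ℕ), 12 ≤ n →
  ¬ Rel K s (du n u e (-1, -1) s)

end Pool.Agent.Helper57K9.XZ
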